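import Pool.Agent.HDG.DDefs

/-!
# HDG/D0: points of the infinite cyclic covering

The values of `t` at a point are a coset of the integers; local expressions of functions on the covering in two balls differ by a
shift of the sheet; counting points of `c + ℤ` in an interval; monotonicity and shifts for the conditions `Gd`.
-/

set_option autoImplicit false

noncomputable section

open scoped ContDiff Topology

open MeasureTheory

namespace HDG

open Pool.Agent.FBR

variable {H : Type*} [NormedAddCommGroup H] [NormedSpace ℂ H] {n : ℕ} {e : Module.Basis (Fin n) ℂ H}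
  [FiniteDimensional ℂ H] {X : Type*} [TopologicalSpace X] (B : BM e X) {t : B.I → H → ℝ}
  {w b : B.I → H → Bil H}

namespace BM

theorem On_iff (ht : B.Per t) {i : B.I} {z : H} (hz : z ∈ qb e 4) (y : ℝ) :
    B.On t (B.ψ i z) y ↔ ∃ k : ℤ, y = t i z + k := by
  constructor
  · rintro ⟨j, w, hw, k, h1, h2⟩
    obtain ⟨h3, h4⟩ := B.T_eq hw hz h1
    obtain ⟨l, hl⟩ := ht.tr j i w h3
    rw [h4] at hl
    refine ⟨l + k, ?_⟩
    rw [← h2]
    push_cast
    linarith
  · rintro ⟨k, hk⟩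
    exact ⟨i, z, hz, k, rfl, hk.symm⟩

theorem On_fr (x : X) : B.On t x (B.fr t x) := by
  refine ⟨B.ix x, B.cd x, qb_mono (by norm_num) (by norm_num) (B.cd_mem x), -⌊t (B.ix x) (B.cd x)⌋, B.ψ_cd x, ?_⟩
  have h1 := Int.floor_add_fract (t (B.ix x) (B.cd x))
  unfold fr
  push_cast
  linarith

theorem fr_mem (x : X) : 0 ≤ B.fr t x ∧ B.fr t x < 1 :=
  ⟨Int.fract_nonneg _, Int.fract_lt_one _⟩

theorem On_add {x : X} {y : ℝ} (h : B.On t x y) (k : ℤ) : B.On t x (y + k) := by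
  obtain ⟨i, z, hz, l, h1, h2⟩ := h
  refine ⟨i, z, hz, l + k, h1, ?_⟩
  push_cast
  linarith

theorem On_fr_iff (ht : B.Per t) (x : X) (y : ℝ) : B.On t x y ↔ ∃ k : ℤ, y = B.fr t x + k := by
  constructor
  · intro h
    have h0 := h
    rw [← B.ψ_cd x] at h0
    obtain ⟨k, hk⟩ := (B.On_iff ht (qb_mono (by norm_num) (by norm_num) (B.cd_mem x)) y).1 h0
    have h1 := Int.floor_add_fract (t (B.ix x) (B.cd x))
    refine ⟨k + ⌊t (B.ix x) (B.cd x)⌋, ?_⟩
    unfold fr
    push_cast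
    linarith
  · rintro ⟨k, hk⟩
    rw [hk]
    exact B.On_add (B.On_fr x) k

/-- every level set `k ≤ y < k + 1` meets the fibre over `x` in exactly one point -/
theorem exists_On_level (ht : B.Per t) (x : X) (k : ℤ) : B.On t x (B.fr t x + k) ∧ (k : ℝ) ≤ B.fr t x + k ∧
    B.fr t x + k < k + 1 := by
  have h1 := B.fr_mem (t := t) x
  exact ⟨B.On_add (B.On_fr x) k, by linarith [h1.1], by linarith [h1.2]⟩

/-- the number of points of `c + ℤ` in an interval -/
theorem count (m : ℕ) (c α β : ℝ) (h : α ≤ β) :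
    (((Finset.range m).filter fun k : ℕ => α ≤ c + k ∧ c + k ≤ β).card : ℝ) ≤ β - α + 1 := by
  have h1 : ((Finset.range m).filter fun k : ℕ => α ≤ c + k ∧ c + k ≤ β).card ≤
      (Finset.Icc ⌈α - c⌉ ⌊β - c⌋).card := by
    refine Finset.card_le_card_of_injOn (fun k : ℕ => (k : ℤ)) ?_ ?_
    · intro k hk
      rw [Finset.mem_coe, Finset.mem_filter] at hk
      rw [Finset.mem_coe, Finset.mem_Icc]
      refine ⟨Int.ceil_le.2 ?_, Int.le_floor.2 ?_⟩
      · have := hk.2.1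
        push_cast
        linarith
      · have := hk.2.2
        push_cast
        linarith
    · intro a _ b _ hab
      exact Int.ofNat_inj.1 hab
  have h2 : ((Finset.Icc ⌈α - c⌉ ⌊β - c⌋).card : ℝ) ≤ β - α + 1 := by
    rw [Int.card_Icc]
    have h3 : (((⌊β - c⌋ + 1 - ⌈α - c⌉).toNat : ℤ) : ℝ) ≤ β - α + 1 := by
      rw [Int.toNat_eq_max]
      push_cast
      refine max_le ?_ (by linarith)
      have h4 := Int.floor_le (β - c)
      have h5 := Int.le_ceil (α - c)
      linarith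
    exact_mod_cast h3
  have h3 : (((Finset.range m).filter fun k : ℕ => α ≤ c + k ∧ c + k ≤ β).card : ℝ) ≤
      ((Finset.Icc ⌈α - c⌉ ⌊β - c⌋).card : ℝ) := by exact_mod_cast h1
  exact h3.trans h2

private theorem D0_loc (ht : B.Per t) {i j : B.I} {z : H} (hz : z ∈ B.D i j) :
    ∀ᶠ z' in 𝓝 z, z' ∈ B.D i j ∧ t i z' - t j (B.T i j z') = t i z - t j (B.T i j z) := by
  have c1 : ContinuousAt (t i) z :=
    ((ht.sm i).contDiffAt ((isOpen_qb e 4).mem_nhds hz.1)).continuousAt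
  have c2 : ContinuousAt (t j ∘ B.T i j) z :=
    ContinuousAt.comp ((ht.sm j).contDiffAt ((isOpen_qb e 4).mem_nhds (B.T_mem hz))).continuousAt
      (B.T_cd hz).continuousAt
  have c3 : ContinuousAt (fun x => t i x - (t j ∘ B.T i j) x) z := c1.sub c2
  have h1 := Metric.continuousAt_iff.1 c3 1 one_pos
  obtain ⟨r, hr, h2⟩ := h1
  filter_upwards [Metric.ball_mem_nhds z hr, (B.D_open i j).mem_nhds hz] with x hx hxD
  have h3 := h2 hx
  obtain ⟨k, hk⟩ := ht.tr i j x hxD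
  obtain ⟨l, hl⟩ := ht.tr i j z hz
  rw [Real.dist_eq] at h3
  simp only [Function.comp_apply] at h3
  rw [hk, hl] at h3
  have h4 : |k - l| < 1 := by exact_mod_cast h3
  have h5 : k = l := by
    rw [Int.abs_lt_one_iff] at h4
    omega
  exact ⟨hxD, by rw [hk, hl, h5]⟩

theorem lf_congr (ht : B.Per t) (F : X → ℝ → ℝ) {i j : B.I} {z w : H} (hz : z ∈ qb e 4) (hw : w ∈ qb e 4)
    (h : B.ψ i z = B.ψ j w) : ∃ l : ℤ, t i z = t j w + l ∧
      ∀ k : ℤ, B.lf t F i k =ᶠ[𝓝 z] fun z' => B.lf t F j (k + l) (B.T i j z') := by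
  obtain ⟨h1, h2⟩ := B.T_eq hz hw h
  obtain ⟨l, hl⟩ := ht.tr i j z h1
  refine ⟨l, ?_, fun k => ?_⟩
  · rw [h2] at hl
    linarith
  · filter_upwards [B.D0_loc ht h1] with z' hz'
    obtain ⟨h3, h4⟩ := hz'
    rw [hl] at h4
    have h5 : t i z' + (k : ℝ) = t j (B.T i j z') + ((k + l : ℤ) : ℝ) := by
      push_cast
      linarith
    show F (B.ψ i z') (t i z' + (k : ℝ)) = F (B.ψ j (B.T i j z')) (t j (B.T i j z') + ((k + l : ℤ) : ℝ))
    rw [h5, B.ψ_T h3]

omit [FiniteDimensional ℂ H] in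
private theorem D0_pos (hw : B.Met w) (i : B.I) {z : H} (hz : z ∈ qb e 4) (v : H) : 0 ≤ w i z v (Complex.I • v) := by
  by_cases hv : v = 0
  · rw [hv]
    simp
  · exact (hw.pos i z hz v hv).le

private theorem D0_cst (φ : H → ℝ) (c : ℝ) (q : H) : ddc (fun x => φ x + c) q = ddc φ q := by
  have h1 : fderiv ℝ (fun x => φ x + c) = fderiv ℝ φ := funext fun x => fderiv_add_const c
  ext u v
  rw [ddc_apply, ddc_apply, h1]

theorem Gd_mono {F : X → ℝ → ℝ} {S S' : Set ℝ} {ε ε' : ℝ} (h : B.Gd t w b S ε F) (hw : B.Met w) (hS : S' ⊆ S)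
    (hε : ε ≤ ε') : B.Gd t w b S' ε' F := by
  refine ⟨fun i k z hz hk => h.sm i k z hz (hS hk), fun i k z hz hk v => ?_⟩
  have h1 := h.nn i k z hz (hS hk) v
  have h2 := B.D0_pos hw i hz v
  simp only [add_apply, smul_apply, smul_eq_mul] at h1 ⊢
  nlinarith [mul_le_mul_of_nonneg_right hε h2]

theorem Gd_shift {F : X → ℝ → ℝ} {ε : ℝ} (h : B.Gd t w b Set.univ ε F) (k : ℤ) (c : ℝ) :
    B.Gd t w b Set.univ ε fun x y => F x (y + k) + c := by
  have h1 : ∀ (i : B.I) (l : ℤ), B.lf t (fun x y => F x (y + k) + c) i l = fun z => B.lf t F i (l + k) z + c := by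
    intro i l
    funext z
    show F (B.ψ i z) (t i z + (l : ℝ) + (k : ℝ)) + c = F (B.ψ i z) (t i z + ((l + k : ℤ) : ℝ)) + c
    rw [Int.cast_add, add_assoc]
  refine ⟨fun i l z hz _ => ?_, fun i l z hz _ => ?_⟩
  · rw [h1]
    exact (h.sm i (l + k) z hz (Set.mem_univ _)).add contDiffAt_const
  · rw [h1, D0_cst]
    exact h.nn i (l + k) z hz (Set.mem_univ _)

/-- functions on `X` as functions on the covering -/
theorem Gd_base {f : X → ℝ} (hf : B.Sm f) {ε : ℝ} (h : B.NnT (b + B.dd f + ε • w)) (S : Set ℝ) :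
    B.Gd t w b S ε fun x _ => f x :=
  ⟨fun i _ _ hz _ => (hf i).contDiffAt ((isOpen_qb e 4).mem_nhds hz), fun i _ z hz _ => h i z hz⟩

end BM

end HDG
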