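import Pool.Agent.HDG.CDefs
import Pool.Agent.HDG.D0

/-!
# HDG/C1: the points of the coverings

Elementary facts on residues modulo `m` (`kf`) and on the points `cpt`, `cps` of the cyclic covering.
-/

set_option autoImplicit false

noncomputable section

open scoped ContDiff Topology ENNReal

open MeasureTheory

namespace HDG

open Pool.Agent.FBR

variable {H : Type*} [NormedAddCommGroup H] [NormedSpace ℂ H] {n : ℕ} {e : Module.Basis (Fin n) ℂ H} {X : Type*}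
  [TopologicalSpace X]

private theorem C1_kf_val {m : ℕ} (hm : 0 < m) (k : ℤ) : ((kf hm k : ℕ) : ℤ) = k % (m : ℤ) := by
  have h1 : (m : ℤ) ≠ 0 := by exact_mod_cast hm.ne'
  exact Int.toNat_of_nonneg (Int.emod_nonneg k h1)

theorem kf_eq {m : ℕ} (hm : 0 < m) (k : ℤ) : ∃ a : ℤ, k = ((kf hm k : ℕ) : ℤ) + a * m := by
  refine ⟨k / m, ?_⟩
  rw [C1_kf_val hm, mul_comm]
  exact (Int.emod_add_mul_ediv k m).symm

theorem kf_self {m : ℕ} (hm : 0 < m) (k : Fin m) : kf hm ((k : ℕ) : ℤ) = k := by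
  have h1 := C1_kf_val hm ((k : ℕ) : ℤ)
  have h2 : (((k : ℕ) : ℤ)) % (m : ℤ) = ((k : ℕ) : ℤ) :=
    Int.emod_eq_of_lt (Int.natCast_nonneg _) (by exact_mod_cast k.2)
  rw [h2] at h1
  exact Fin.ext (by exact_mod_cast h1)

theorem kf_add {m : ℕ} (hm : 0 < m) (k a : ℤ) : kf hm (k + a * m) = kf hm k := by
  have h1 := C1_kf_val hm (k + a * m)
  have h2 := C1_kf_val hm k
  rw [Int.add_mul_emod_self_right, ← h2] at h1
  exact Fin.ext (by exact_mod_cast h1)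

theorem kf_kf {m : ℕ} (hm : 0 < m) (k l : ℤ) : kf hm (((kf hm k : ℕ) : ℤ) + l) = kf hm (k + l) := by
  obtain ⟨a, ha⟩ := kf_eq hm k
  have h1 : k + l = ((kf hm k : ℕ) : ℤ) + l + a * m := by
    calc k + l = (((kf hm k : ℕ) : ℤ) + a * m) + l := by rw [← ha]
      _ = ((kf hm k : ℕ) : ℤ) + l + a * m := by ring
  rw [h1, kf_add]

namespace BM

variable (B : BM e X) (t : B.I → H → ℝ) (m : ℕ)

theorem cpt_eq {x x' : X} {y y' : ℝ} (h : B.On t x y) (h' : B.On t x' y') :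
    B.cpt t m x y h = B.cpt t m x' y' h' ↔ x = x' ∧ ∃ k : ℤ, y' = y + k * m := by
  have h1 : ((y : AddCircle (m : ℝ)) = (y' : AddCircle (m : ℝ))) ↔ ∃ k : ℤ, y' = y + k * m := by
    refine (QuotientAddGroup.eq (s := AddSubgroup.zmultiples (m : ℝ)) (a := y) (b := y')).trans ?_
    rw [AddSubgroup.mem_zmultiples_iff]
    constructor
    · rintro ⟨k, hk⟩
      refine ⟨k, ?_⟩
      rw [zsmul_eq_mul] at hk
      linarith
    · rintro ⟨k, hk⟩
      refine ⟨k, ?_⟩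
      rw [zsmul_eq_mul]
      linarith
  rw [← h1]
  constructor
  · intro h2
    have h3 : (x, (y : AddCircle (m : ℝ))) = (x', (y' : AddCircle (m : ℝ))) := congrArg Subtype.val h2
    exact Prod.mk.injEq .. ▸ h3
  · intro h2
    exact Subtype.ext (Prod.ext h2.1 h2.2)

theorem cpt_ex (p : B.Cv t m) : ∃ (x : X) (y : ℝ) (h : B.On t x y), p = B.cpt t m x y h :=
  ⟨B.pr t m p, B.rp t m p, B.rp_on t m p, (B.cpt_rp t m p).symm⟩

theorem pr_cpt {x : X} {y : ℝ} (h : B.On t x y) : B.pr t m (B.cpt t m x y h) = x := rfl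

theorem rp_cpt {x : X} {y : ℝ} (h : B.On t x y) : ∃ k : ℤ, B.rp t m (B.cpt t m x y h) = y + k * m := by
  have h1 := B.cpt_rp t m (B.cpt t m x y h)
  rw [B.cpt_eq t m] at h1
  obtain ⟨k, hk⟩ := h1.2
  refine ⟨-k, ?_⟩
  push_cast
  linarith

theorem cps_eq (ik : B.I × Fin m) {z : H} (hz : z ∈ qb e 4) :
    B.cps t m ik z = B.cpt t m (B.ψ ik.1 z) (t ik.1 z + (((ik.2 : ℕ) : ℤ) : ℝ)) (B.on_mem t ik.1 hz _) := by
  unfold cps
  rw [B.cpt_eq t m, sq_eq hz]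
  refine ⟨rfl, 0, ?_⟩
  rw [Int.cast_zero, zero_mul, add_zero]

theorem cpt_cps (hm : 0 < m) (i : B.I) {z : H} (hz : z ∈ qb e 4) (k : ℤ) (h : B.On t (B.ψ i z) (t i z + k)) :
    B.cpt t m (B.ψ i z) (t i z + k) h = B.cps t m (i, kf hm k) z := by
  rw [B.cps_eq t m _ hz, B.cpt_eq t m]
  obtain ⟨a, ha⟩ := kf_eq hm k
  refine ⟨rfl, -a, ?_⟩
  have h1 : (k : ℝ) = (((kf hm k : ℕ) : ℤ) : ℝ) + a * m := by exact_mod_cast ha
  rw [h1]
  push_cast
  ring

end BM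

end HDG
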