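import Pool.Agent.HDG.C3
import Pool.Agent.HDG.D0

/-!
# HDG/C10: measurability of the sheets

The inverse of a parametrization is continuous; the fractional value `fr` of `t` and the sheets `sht k` of the cyclic covering
are measurable (on countably many Borel sets they are given by continuous maps), and every point of the covering lies on exactly
one sheet.
-/

set_option autoImplicit false

noncomputable section

open scoped ContDiff Topology ENNReal

open MeasureTheory

namespace HDG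

open Pool.Agent.FBR

variable {H : Type*} [NormedAddCommGroup H] [NormedSpace ℂ H] [FiniteDimensional ℂ H] {n : ℕ}
  {e : Module.Basis (Fin n) ℂ H} {X : Type*} [TopologicalSpace X]

namespace BM

variable (B : BM e X) {t : B.I → H → ℝ} {m : ℕ} (ht : B.Per t) (hm : 0 < m)

theorem inv_cont (i : B.I) : ContinuousOn (fun x => Function.invFunOn (B.ψ i) (qb e 4) x) (B.ψ i '' qb e 4) := by
  rw [continuousOn_open_iff (B.opn i (qb e 4) subset_rfl (isOpen_qb e 4))]
  intro V hV
  have h1 : B.ψ i '' qb e 4 ∩ (fun x => Function.invFunOn (B.ψ i) (qb e 4) x) ⁻¹' V = B.ψ i '' (qb e 4 ∩ V) := by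
    ext x
    constructor
    · rintro ⟨hx, hxV⟩
      exact ⟨Function.invFunOn (B.ψ i) (qb e 4) x, ⟨Function.invFunOn_mem hx, hxV⟩, Function.invFunOn_eq hx⟩
    · rintro ⟨z, ⟨hz, hzV⟩, rfl⟩
      have h2 : B.ψ i z ∈ B.ψ i '' qb e 4 := ⟨z, hz, rfl⟩
      refine ⟨h2, ?_⟩
      have h3 : Function.invFunOn (B.ψ i) (qb e 4) (B.ψ i z) = z :=
        B.inj i (Function.invFunOn_mem h2) hz (Function.invFunOn_eq h2)
      show Function.invFunOn (B.ψ i) (qb e 4) (B.ψ i z) ∈ V
      rw [h3]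
      exact hzV
  rw [h1]
  exact B.opn i _ Set.inter_subset_left ((isOpen_qb e 4).inter hV)

include ht in
theorem fr_eq {i : B.I} {z : H} (hz : z ∈ qb e 4) : B.fr t (B.ψ i z) = Int.fract (t i z) := by
  obtain ⟨h1, h2⟩ := B.T_eq hz (qb_mono (by norm_num) (by norm_num) (B.cd_mem (B.ψ i z)))
    (B.ψ_cd (B.ψ i z)).symm
  obtain ⟨k, hk⟩ := ht.tr i _ z h1
  rw [h2] at hk
  unfold fr
  rw [eq_comm, Int.fract_eq_fract]
  exact ⟨k, hk⟩

omit [FiniteDimensional ℂ H] in
private theorem C10_cpt {x : X} {y y' : ℝ} (h : B.On t x y) (h' : B.On t x y') (hy : y = y') :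
    B.cpt t m x y h = B.cpt t m x y' h' := by
  subst hy
  rfl

include ht in
theorem sht_cps (k : ℕ) {i : B.I} {z : H} (hz : z ∈ qb e 4) :
    B.sht t m k (B.ψ i z) = B.cps t m (i, kf hm (k - ⌊t i z⌋)) z := by
  rw [← B.cpt_cps t m hm i hz ((k : ℤ) - ⌊t i z⌋) (B.on_mem t i hz _)]
  unfold sht
  refine B.C10_cpt _ _ ?_
  rw [B.fr_eq ht hz, ← Int.self_sub_floor]
  push_cast
  ring

theorem pr_sht (k : ℕ) (x : X) : B.pr t m (B.sht t m k x) = x := rfl

private theorem C10_cov {ι Y W : Type*} [Countable ι] [MeasurableSpace Y] [MeasurableSpace W] {f : Y → W}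
    {E : ι → Set Y} (hE : ∀ i, MeasurableSet (E i)) (hcov : ∀ y, ∃ i, y ∈ E i)
    (h : ∀ i, Measurable ((E i).restrict f)) : Measurable f := by
  intro S hS
  have h1 : f ⁻¹' S = ⋃ i, Subtype.val '' ((E i).restrict f ⁻¹' S) := by
    ext y
    rw [Set.mem_iUnion]
    constructor
    · intro hy
      obtain ⟨i, hi⟩ := hcov y
      exact ⟨i, ⟨y, hi⟩, hy, rfl⟩
    · rintro ⟨i, ⟨y', hy'⟩, h2, rfl⟩
      exact h2
  rw [h1]
  exact MeasurableSet.iUnion fun i => (hE i).subtype_image (h i hS)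

include ht in
private theorem C10_tc (i : B.I) :
    ContinuousOn (fun x => t i (Function.invFunOn (B.ψ i) (qb e 4) x)) (B.ψ i '' qb e 4) :=
  (ht.sm i).continuousOn.comp (B.inv_cont i) fun _ hx => Function.invFunOn_mem hx

include ht in
theorem fr_meas [MeasurableSpace X] [BorelSpace X] : Measurable (B.fr t) := by
  refine C10_cov (E := fun i : B.I => B.ψ i '' qb e 4)
    (fun i => (B.opn i (qb e 4) subset_rfl (isOpen_qb e 4)).measurableSet) (fun x => ?_) fun i => ?_
  · exact ⟨B.ix x, B.cd x, qb_mono (by norm_num) (by norm_num) (B.cd_mem x), B.ψ_cd x⟩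
  · have h1 : (B.ψ i '' qb e 4).restrict (B.fr t) = fun x =>
        Int.fract ((B.ψ i '' qb e 4).restrict (fun x => t i (Function.invFunOn (B.ψ i) (qb e 4) x)) x) := by
      funext x
      obtain ⟨x, hx⟩ := x
      show B.fr t x = Int.fract (t i (Function.invFunOn (B.ψ i) (qb e 4) x))
      rw [← B.fr_eq ht (Function.invFunOn_mem hx), Function.invFunOn_eq hx]
    rw [h1]
    exact measurable_fract.comp (B.C10_tc ht i).restrict.measurable

include ht hm in
theorem sht_meas [MeasurableSpace X] [BorelSpace X] (k : ℕ) : Measurable (B.sht t m k) := by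
  have hE : ∀ il : B.I × ℤ, MeasurableSet (Subtype.val ''
      ((B.ψ il.1 '' qb e 4).restrict (fun x => t il.1 (Function.invFunOn (B.ψ il.1) (qb e 4) x)) ⁻¹'
        (Int.floor ⁻¹' {il.2}))) := fun il =>
    (B.opn il.1 (qb e 4) subset_rfl (isOpen_qb e 4)).measurableSet.subtype_image
      ((B.C10_tc ht il.1).restrict.measurable (Int.measurable_floor (measurableSet_singleton _)))
  refine C10_cov hE (fun x => ?_) fun il => ?_
  · have hx : x ∈ B.ψ (B.ix x) '' qb e 4 :=
      ⟨B.cd x, qb_mono (by norm_num) (by norm_num) (B.cd_mem x), B.ψ_cd x⟩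
    exact ⟨(B.ix x, ⌊t (B.ix x) (Function.invFunOn (B.ψ (B.ix x)) (qb e 4) x)⌋), ⟨x, hx⟩, rfl, rfl⟩
  · obtain ⟨i, l⟩ := il
    have hc : ContinuousOn (fun x => B.cps t m (i, kf hm (k - l)) (Function.invFunOn (B.ψ i) (qb e 4) x))
        (B.ψ i '' qb e 4) :=
      (B.cps_cont ht (i, kf hm (k - l))).comp (B.inv_cont i) fun _ hx => Function.invFunOn_mem hx
    have hsub : (Subtype.val ''
        ((B.ψ i '' qb e 4).restrict (fun x => t i (Function.invFunOn (B.ψ i) (qb e 4) x)) ⁻¹'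
        (Int.floor ⁻¹' {l}))) ⊆ B.ψ i '' qb e 4 := by
      rintro _ ⟨⟨x, hx⟩, -, rfl⟩
      exact hx
    have h2 := (hc.mono hsub).restrict.measurable
    refine (congrArg Measurable ?_).mp h2
    funext x
    obtain ⟨_, ⟨x, hx⟩, hl, rfl⟩ := x
    have hl' : ⌊t i (Function.invFunOn (B.ψ i) (qb e 4) x)⌋ = l := hl
    show B.cps t m (i, kf hm (k - l)) (Function.invFunOn (B.ψ i) (qb e 4) x) = B.sht t m k x
    have h3 := B.sht_cps ht hm k (i := i) (Function.invFunOn_mem hx)
    rw [Function.invFunOn_eq hx, hl'] at h3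
    exact h3.symm

include ht hm in
theorem sht_ex (p : B.Cv t m) : ∃ k < m, B.sht t m k (B.pr t m p) = p := by
  obtain ⟨x, y, h, rfl⟩ := B.cpt_ex t m p
  obtain ⟨l, hl⟩ := (B.On_fr_iff ht x y).1 h
  obtain ⟨a, ha⟩ := kf_eq hm l
  refine ⟨(kf hm l : ℕ), (kf hm l).2, ?_⟩
  rw [B.pr_cpt t m h]
  unfold sht
  rw [B.cpt_eq t m]
  refine ⟨rfl, a, ?_⟩
  rw [hl]
  have h1 : (l : ℝ) = (((kf hm l : ℕ) : ℤ) : ℝ) + a * m := by
    exact_mod_cast congrArg (fun z : ℤ => (z : ℝ)) ha
  rw [h1]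
  ring

omit [FiniteDimensional ℂ H] in
private theorem C10_inj {k k' : ℕ} (hk : k < m) (hk' : k' < m) {x : X}
    (h : B.sht t m k x = B.sht t m k' x) : k = k' := by
  unfold sht at h
  rw [B.cpt_eq t m] at h
  obtain ⟨-, a, ha⟩ := h
  have h1 : ((k' : ℤ) : ℝ) = (((k : ℤ) + a * m : ℤ) : ℝ) := by
    push_cast at ha ⊢
    linarith
  have h2 : (k' : ℤ) = (k : ℤ) + a * m := by exact_mod_cast h1
  have h3 : a = 0 := by
    by_contra hne
    rcases lt_or_gt_of_ne hne with hlt | hgt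
    · have h4 : a * (m : ℤ) ≤ -1 * m := mul_le_mul_of_nonneg_right (by omega) (by omega)
      omega
    · have h4 : 1 * (m : ℤ) ≤ a * m := mul_le_mul_of_nonneg_right (by omega) (by omega)
      omega
  rw [h3, zero_mul, add_zero] at h2
  omega

theorem sht_inj {k k' : ℕ} (hk : k < m) (hk' : k' < m) {x : X} (h : B.sht t m k x = B.sht t m k' x) : k = k' :=
  B.C10_inj hk hk' h

end BM

end HDG
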