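import Pool.Agent.HDG.C4
import Pool.Agent.HDG.C10

/-!
# HDG/C11: the volume measure of the covering

MODULE C11. `lint_vol`, `int_vol`: integrals over the covering are integrals over `X` of the sums over the sheets.
`vol_isvol`: over a point `ψ i z` exactly one sheet lies in the image of the ball with index `(i, k)`.
-/

set_option autoImplicit false

noncomputable section

open scoped ContDiff Topology ENNReal

open MeasureTheory

namespace HDG

open Pool.Agent.FBR

variable {H : Type*} [NormedAddCommGroup H] [NormedSpace ℂ H] [FiniteDimensional ℂ H] {n : ℕ}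
  {e : Module.Basis (Fin n) ℂ H} {X : Type*} [TopologicalSpace X] [MeasurableSpace X] [BorelSpace X]

namespace BM

variable (B : BM e X) {t : B.I → H → ℝ} {m : ℕ} (ht : B.Per t) (hm : 0 < m) (ν : Measure X)

include ht hm in
theorem lint_vol {G : B.Cv t m → ℝ≥0∞} (hG : Measurable G) :
    ∫⁻ p, G p ∂(B.vol t m ν) = ∫⁻ x, ∑ k ∈ Finset.range m, G (B.sht t m k x) ∂ν := by
  unfold vol
  have h1 := lintegral_finsetSum (μ := ν) (Finset.range m) (f := fun k x => G (B.sht t m k x))
    fun k _ => hG.comp (B.sht_meas ht hm k)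
  rw [lintegral_finsetSum_measure, h1]
  exact Finset.sum_congr rfl fun k _ => lintegral_map hG (B.sht_meas ht hm k)

include ht hm in
theorem int_vol [IsFiniteMeasure ν] {G : B.Cv t m → ℝ} (hG : Measurable G) {C : ℝ} (hC : ∀ p, |G p| ≤ C) :
    ∫ p, G p ∂(B.vol t m ν) = ∫ x, ∑ k ∈ Finset.range m, G (B.sht t m k x) ∂ν := by
  unfold vol
  rw [integral_finsetSum_measure, integral_finsetSum]
  · exact Finset.sum_congr rfl fun k _ =>
      integral_map (B.sht_meas ht hm k).aemeasurable hG.aestronglyMeasurable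
  · intro k _
    exact Integrable.of_bound (hG.comp (B.sht_meas ht hm k)).aestronglyMeasurable C
      (Filter.Eventually.of_forall fun x => hC _)
  · intro k _
    have := Measure.isFiniteMeasure_map ν (B.sht t m k)
    exact Integrable.of_bound hG.aestronglyMeasurable C (Filter.Eventually.of_forall fun x => hC _)

include ht hm in
theorem vol_fin [IsFiniteMeasure ν] : IsFiniteMeasure (B.vol t m ν) := by
  constructor
  have h1 := B.lint_vol ht hm ν (G := fun _ => 1) measurable_const
  rw [lintegral_one] at h1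
  rw [h1, lintegral_const]
  refine ENNReal.mul_lt_top ?_ (measure_lt_top ν Set.univ)
  rw [Finset.sum_const, nsmul_eq_mul, mul_one]
  exact ENNReal.natCast_lt_top _

omit [FiniteDimensional ℂ H] [MeasurableSpace X] [BorelSpace X] in
private theorem c11_pr {ik : B.I × Fin m} {z : H} (hz : z ∈ qb e 4) :
    B.pr t m (B.cps t m ik z) = B.ψ ik.1 z := by
  rw [B.cps_eq t m ik hz, B.pr_cpt t m]

include ht hm in
private theorem c11_box [MeasurableSpace H] [BorelSpace H] {μ : Measure H} {w : B.I → H → Bil H} {ν : Measure X}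
    (hν : B.IsVol μ w ν) (ik : B.I × Fin m) (f : B.Cv t m → ℝ≥0∞) (hf : Measurable f) :
    ∫⁻ y in B.cps t m ik '' qb e 4, f y ∂(B.vol t m ν) =
      ∫⁻ z in qb e 4, f (B.cps t m ik z) * ENNReal.ofReal (dt e (w ik.1 z)) ∂μ := by
  classical
  have hA : MeasurableSet (B.cps t m ik '' qb e 4) :=
    (B.cps_opn ht hm ik (qb e 4) (Set.Subset.refl _) (isOpen_qb e 4)).measurableSet
  have hS : MeasurableSet (B.ψ ik.1 '' qb e 4) :=
    (B.opn ik.1 (qb e 4) (Set.Subset.refl _) (isOpen_qb e 4)).measurableSet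
  have hhm : Measurable ((B.ψ ik.1 '' qb e 4).piecewise
      (fun x => B.cps t m ik (Function.invFunOn (B.ψ ik.1) (qb e 4) x)) (fun _ => B.cps t m ik 0)) := by
    refine ContinuousOn.measurable_piecewise ?_ continuousOn_const hS
    refine (B.cps_cont ht ik).comp (B.inv_cont ik.1) ?_
    intro x hx
    exact Function.invFunOn_mem hx
  have hhe : ∀ z ∈ qb e 4, (B.ψ ik.1 '' qb e 4).piecewise
      (fun x => B.cps t m ik (Function.invFunOn (B.ψ ik.1) (qb e 4) x)) (fun _ => B.cps t m ik 0)
        (B.ψ ik.1 z) = B.cps t m ik z := by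
    intro z hz
    rw [Set.piecewise_eq_of_mem _ _ _ (Set.mem_image_of_mem _ hz)]
    have h2 : Function.invFunOn (B.ψ ik.1) (qb e 4) (B.ψ ik.1 z) = z :=
      (B.inj ik.1).leftInvOn_invFunOn hz
    rw [h2]
  generalize (B.ψ ik.1 '' qb e 4).piecewise
      (fun x => B.cps t m ik (Function.invFunOn (B.ψ ik.1) (qb e 4) x)) (fun _ => B.cps t m ik 0) = h
      at hhm hhe
  have hsum : ∀ x, ∑ l ∈ Finset.range m, (B.cps t m ik '' qb e 4).indicator f (B.sht t m l x) =
      (B.ψ ik.1 '' qb e 4).indicator (fun x => f (h x)) x := by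
    intro x
    by_cases hx : x ∈ B.ψ ik.1 '' qb e 4
    · obtain ⟨z, hz, rfl⟩ := hx
      rw [Set.indicator_of_mem (Set.mem_image_of_mem _ hz), hhe z hz]
      obtain ⟨l₀, hl₀, hl₀e⟩ := B.sht_ex ht hm (B.cps t m ik z)
      rw [B.c11_pr hz] at hl₀e
      rw [Finset.sum_eq_single l₀]
      · rw [hl₀e, Set.indicator_of_mem (Set.mem_image_of_mem _ hz)]
      · intro l hl hne
        refine Set.indicator_of_notMem ?_ _
        rintro ⟨z', hz', he⟩
        have h3 : B.pr t m (B.cps t m ik z') = B.pr t m (B.sht t m l (B.ψ ik.1 z)) := by rw [he]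
        rw [B.c11_pr hz', B.pr_sht] at h3
        have h4 := B.inj ik.1 hz' hz h3
        rw [h4] at he
        exact hne (B.sht_inj (Finset.mem_range.mp hl) hl₀ (he.symm.trans hl₀e.symm))
      · intro h3
        exact absurd (Finset.mem_range.mpr hl₀) h3
    · rw [Set.indicator_of_notMem hx]
      refine Finset.sum_eq_zero fun l _ => Set.indicator_of_notMem ?_ _
      rintro ⟨z', hz', he⟩
      have h3 : B.pr t m (B.cps t m ik z') = B.pr t m (B.sht t m l x) := by rw [he]
      rw [B.c11_pr hz', B.pr_sht] at h3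
      exact hx ⟨z', hz', h3⟩
  have e1 : ∫⁻ y in B.cps t m ik '' qb e 4, f y ∂(B.vol t m ν) =
      ∫⁻ x in B.ψ ik.1 '' qb e 4, f (h x) ∂ν := by
    rw [← lintegral_indicator hA, B.lint_vol ht hm ν (hf.indicator hA), ← lintegral_indicator hS]
    exact lintegral_congr hsum
  have e2 := hν.box ik.1 (fun x => f (h x)) (hf.comp hhm)
  have e3 : ∫⁻ z in qb e 4, f (h (B.ψ ik.1 z)) * ENNReal.ofReal (dt e (w ik.1 z)) ∂μ =
      ∫⁻ z in qb e 4, f (B.cps t m ik z) * ENNReal.ofReal (dt e (w ik.1 z)) ∂μ := by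
    refine setLIntegral_congr_fun (isOpen_qb e 4).measurableSet fun z hz => ?_
    show f (h (B.ψ ik.1 z)) * _ = _
    rw [hhe z hz]
  exact e1.trans (e2.trans e3)

theorem vol_isvol [MeasurableSpace H] [BorelSpace H] {μ : Measure H} {w : B.I → H → Bil H} {ν : Measure X}
    (hν : B.IsVol μ w ν) : (B.cv ht hm).IsVol μ (B.pb ht hm w) (B.vol t m ν) := by
  have hfin := hν.fin
  exact ⟨B.vol_fin ht hm ν, fun ik f hf => B.c11_box ht hm hν ik f hf⟩

end BM

end HDG
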