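import Pool.Agent.HDG.LA0

/-!
# HDG/LA1: the standard form

`qf e` is the quadratic form of a continuous symmetric real bilinear form `LA1_B e`, so its second derivative is constant; the
formula for `w0 e`, the norm equivalence `qf_equiv` and the comparison of the norm of a real `(1,1)`-form with its values at
`(v, i v)` (`form_le`, `form_ge`) follow.
-/

set_option autoImplicit false

noncomputable section

open scoped ContDiff ComplexOrder

namespace HDG

open Pool.Agent.FBR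

variable {H : Type*} [NormedAddCommGroup H] [NormedSpace ℂ H] {n : ℕ} (e : Module.Basis (Fin n) ℂ H)

variable [FiniteDimensional ℂ H]

/-- the `j`-th coordinate as a continuous complex linear map -/
private def LA1_Lc (j : Fin n) : H →L[ℂ] ℂ := LinearMap.toContinuousLinearMap (e.coord j)

/-- the `j`-th coordinate as a continuous real linear map -/
private def LA1_L (j : Fin n) : H →L[ℝ] ℂ := (LA1_Lc e j).restrictScalars ℝ

private lemma LA1_Lc_apply (j : Fin n) (z : H) : LA1_Lc e j z = e.repr z j := rfl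

private lemma LA1_L_apply (j : Fin n) (z : H) : LA1_L e j z = e.repr z j := rfl

/-- the real part of the `j`-th coordinate -/
private def LA1_R (j : Fin n) : H →L[ℝ] ℝ := Complex.reCLM.comp (LA1_L e j)

/-- the imaginary part of the `j`-th coordinate -/
private def LA1_J (j : Fin n) : H →L[ℝ] ℝ := Complex.imCLM.comp (LA1_L e j)

private lemma LA1_R_apply (j : Fin n) (z : H) : LA1_R e j z = (e.repr z j).re := rfl

private lemma LA1_J_apply (j : Fin n) (z : H) : LA1_J e j z = (e.repr z j).im := rfl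

/-- the bilinear form of `qf` -/
private def LA1_B : Bil H :=
  ∑ j, ((LA1_R e j).smulRight (LA1_R e j) + (LA1_J e j).smulRight (LA1_J e j))

private lemma LA1_B_apply (u v : H) :
    LA1_B e u v = ∑ j, ((e.repr u j).re * (e.repr v j).re + (e.repr u j).im * (e.repr v j).im) := by
  unfold LA1_B
  rw [sum_apply, sum_apply]
  refine Finset.sum_congr rfl fun j _ => ?_
  simp only [add_apply, ContinuousLinearMap.smulRight_apply, smul_apply, smul_eq_mul, LA1_R_apply, LA1_J_apply]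

private lemma LA1_B_symm (u v : H) : LA1_B e u v = LA1_B e v u := by
  rw [LA1_B_apply, LA1_B_apply]
  refine Finset.sum_congr rfl fun j _ => ?_
  ring

private lemma LA1_qf (z : H) : qf e z = LA1_B e z z := by
  rw [LA1_B_apply]
  unfold qf
  refine Finset.sum_congr rfl fun j _ => ?_
  rw [Complex.sq_norm, Complex.normSq_apply]

private lemma LA1_d1 (z : H) : HasFDerivAt (qf e) ((2 : ℝ) • LA1_B e z) z := by
  have h0 : qf e = fun z => LA1_B e z z := by
    funext z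
    exact LA1_qf e z
  rw [h0]
  have h1 : HasFDerivAt (fun z : H => LA1_B e z) (LA1_B e) z := (LA1_B e).hasFDerivAt
  have h2 := h1.clm_apply (hasFDerivAt_id z)
  have h3 : ((2 : ℝ) • LA1_B e z : H →L[ℝ] ℝ) =
      ((LA1_B e) z).comp (ContinuousLinearMap.id ℝ H) + (LA1_B e).flip (id z) := by
    ext v
    simp only [add_apply, smul_apply, ContinuousLinearMap.comp_apply, ContinuousLinearMap.flip_apply,
      ContinuousLinearMap.id_apply, id_eq, smul_eq_mul]
    rw [LA1_B_symm e v z]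
    ring
  rw [h3]
  exact h2

private lemma LA1_fd : fderiv ℝ (qf e) = fun z => ((2 : ℝ) • LA1_B e) z := by
  funext z
  rw [(LA1_d1 e z).fderiv]
  rfl

private lemma LA1_d2 (z : H) : fderiv ℝ (fderiv ℝ (qf e)) z = (2 : ℝ) • LA1_B e := by
  rw [LA1_fd]
  exact ((2 : ℝ) • LA1_B e).fderiv

theorem qf_smooth : ContDiff ℝ ∞ (qf e) := by
  have h0 : qf e = fun z => LA1_B e z z := by
    funext z
    exact LA1_qf e z
  rw [h0]
  exact (LA1_B e).contDiff.clm_apply contDiff_id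

theorem qf_equiv : ∃ c C : ℝ, 0 < c ∧ 0 < C ∧ ∀ z : H, c * ‖z‖ ^ 2 ≤ qf e z ∧ qf e z ≤ C * ‖z‖ ^ 2 := by
  have hK : 0 ≤ ∑ j, ‖e j‖ ^ 2 := Finset.sum_nonneg fun j _ => by positivity
  have hL : 0 ≤ ∑ j, ‖LA1_Lc e j‖ ^ 2 := Finset.sum_nonneg fun j _ => by positivity
  refine ⟨(∑ j, ‖e j‖ ^ 2 + 1)⁻¹, ∑ j, ‖LA1_Lc e j‖ ^ 2 + 1, by positivity, by positivity, fun z => ⟨?_, ?_⟩⟩
  · have h1 : ‖z‖ ≤ ∑ j, ‖e.repr z j‖ * ‖e j‖ := by
      calc ‖z‖ = ‖∑ j, e.repr z j • e j‖ := by rw [e.sum_repr z]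
        _ ≤ ∑ j, ‖e.repr z j • e j‖ := norm_sum_le _ _
        _ = ∑ j, ‖e.repr z j‖ * ‖e j‖ := Finset.sum_congr rfl fun j _ => norm_smul _ _
    have h2 : ‖z‖ ^ 2 ≤ qf e z * ∑ j, ‖e j‖ ^ 2 := by
      calc ‖z‖ ^ 2 ≤ (∑ j, ‖e.repr z j‖ * ‖e j‖) ^ 2 := by
            exact pow_le_pow_left₀ (norm_nonneg _) h1 2
        _ ≤ (∑ j, ‖e.repr z j‖ ^ 2) * ∑ j, ‖e j‖ ^ 2 := Finset.sum_mul_sq_le_sq_mul_sq _ _ _
    rw [inv_mul_le_iff₀ (by positivity)]
    have h3 := qf_nonneg e z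
    nlinarith
  · unfold qf
    rw [add_mul, Finset.sum_mul]
    have h1 : ∑ j, ‖e.repr z j‖ ^ 2 ≤ ∑ j, ‖LA1_Lc e j‖ ^ 2 * ‖z‖ ^ 2 := by
      refine Finset.sum_le_sum fun j _ => ?_
      rw [← mul_pow]
      refine pow_le_pow_left₀ (norm_nonneg _) ?_ 2
      rw [← LA1_Lc_apply]
      exact (LA1_Lc e j).le_opNorm z
    have h2 : 0 ≤ 1 * ‖z‖ ^ 2 := by positivity
    linarith

theorem qf_pos {z : H} (hz : z ≠ 0) : 0 < qf e z := by
  obtain ⟨c, C, hc, hC, h⟩ := qf_equiv e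
  have h1 : 0 < ‖z‖ := norm_pos_iff.mpr hz
  exact lt_of_lt_of_le (by positivity) (h z).1

private lemma LA1_ddc (z u v : H) : ddc (qf e) z u v =
    2 * ∑ j, ((starRingEnd ℂ) (e.repr u j) * e.repr v j).im := by
  rw [ddc_apply, LA1_d2]
  simp only [smul_apply, smul_eq_mul]
  rw [LA1_B_apply, LA1_B_apply, Finset.mul_sum, Finset.mul_sum, Finset.mul_sum, ← Finset.sum_sub_distrib,
    Finset.mul_sum]
  refine Finset.sum_congr rfl fun j _ => ?_
  have h1 : e.repr (Complex.I • u) j = Complex.I * e.repr u j := by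
    rw [map_smul]
    rfl
  have h2 : e.repr (Complex.I • v) j = Complex.I * e.repr v j := by
    rw [map_smul]
    rfl
  rw [h1, h2]
  simp only [Complex.mul_re, Complex.mul_im, Complex.I_re, Complex.I_im, Complex.conj_re, Complex.conj_im]
  ring

theorem w0_apply (u v : H) : w0 e u v = ∑ j, ((starRingEnd ℂ) (e.repr u j) * e.repr v j).im := by
  unfold w0
  rw [smul_apply, smul_apply, LA1_ddc, smul_eq_mul]
  ring

theorem w0_O11 : O11 (w0 e : Bil H) :=
  O11_smul _ (O11_ddc ((qf_smooth e).contDiffAt.of_le (by norm_cast)))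

theorem w0_self (v : H) : w0 e v (Complex.I • v) = qf e v := by
  rw [w0_apply]
  unfold qf
  refine Finset.sum_congr rfl fun j _ => ?_
  have h2 : e.repr (Complex.I • v) j = Complex.I * e.repr v j := by
    rw [map_smul]
    rfl
  rw [h2, Complex.sq_norm, Complex.normSq_apply]
  simp only [Complex.mul_re, Complex.mul_im, Complex.I_re, Complex.I_im, Complex.conj_re, Complex.conj_im]
  ring

theorem ddc_qf (z : H) : ddc (qf e) z = (2 : ℝ) • w0 e := by
  ext u v
  rw [LA1_ddc, smul_apply, smul_apply, w0_apply, smul_eq_mul]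

theorem Mt_w0 : Mt e (w0 e : Bil H) = 1 := by
  ext j k
  unfold Mt
  rw [w0_apply, w0_apply]
  have h1 : ∑ i, ((starRingEnd ℂ) (e.repr (e j) i) * e.repr (e k) i).im = 0 := by
    refine Finset.sum_eq_zero fun i _ => ?_
    rw [Module.Basis.repr_self, Module.Basis.repr_self, Finsupp.single_apply, Finsupp.single_apply]
    split_ifs <;> simp
  have h2 : ∑ i, ((starRingEnd ℂ) (e.repr (e j) i) * e.repr (Complex.I • e k) i).im =
      if j = k then 1 else 0 := by
    have h3 : ∀ i, ((starRingEnd ℂ) (e.repr (e j) i) * e.repr (Complex.I • e k) i).im =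
        if j = i then (if k = i then 1 else 0) else 0 := by
      intro i
      rw [map_smul, Finsupp.smul_apply, Module.Basis.repr_self, Module.Basis.repr_self, Finsupp.single_apply,
        Finsupp.single_apply]
      split_ifs <;> simp
    rw [Finset.sum_congr rfl fun i _ => h3 i, Finset.sum_ite_eq]
    simp only [Finset.mem_univ, if_true]
    by_cases h : j = k
    · rw [if_pos h, if_pos h.symm]
    · rw [if_neg h, if_neg (fun h' => h h'.symm)]
  rw [h1, h2, Matrix.one_apply]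
  split_ifs <;> simp

theorem isOpen_qb (r : ℝ) : IsOpen (qb e r : Set H) :=
  isOpen_lt (qf_smooth e).continuous continuous_const

theorem isCompact_qb (r : ℝ) : IsCompact {z : H | qf e z ≤ r ^ 2} := by
  obtain ⟨c, C, hc, hC, h⟩ := qf_equiv e
  have : ProperSpace H := FiniteDimensional.proper ℂ H
  refine Metric.isCompact_of_isClosed_isBounded (isClosed_le (qf_smooth e).continuous continuous_const) ?_
  rw [isBounded_iff_forall_norm_le]
  refine ⟨Real.sqrt (r ^ 2 / c), fun z hz => ?_⟩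
  refine Real.le_sqrt_of_sq_le ?_
  rw [le_div_iff₀ hc]
  have h1 : qf e z ≤ r ^ 2 := hz
  have h2 := (h z).1
  linarith

omit [FiniteDimensional ℂ H] in
private lemma LA1_nI (v : H) : ‖Complex.I • v‖ = ‖v‖ := by
  rw [norm_smul, Complex.norm_I, one_mul]

theorem form_le : ∃ C : ℝ, 0 < C ∧ ∀ (a : Bil H) (v : H), |a v (Complex.I • v)| ≤ C * ‖a‖ * qf e v := by
  obtain ⟨c, C, hc, hC, h⟩ := qf_equiv e
  refine ⟨c⁻¹, by positivity, fun a v => ?_⟩
  have h1 : |a v (Complex.I • v)| ≤ ‖a‖ * ‖v‖ * ‖v‖ := by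
    have h2 := a.le_opNorm₂ v (Complex.I • v)
    rw [LA1_nI] at h2
    exact h2
  have h3 : ‖v‖ ^ 2 ≤ c⁻¹ * qf e v := by
    rw [le_inv_mul_iff₀ hc]
    exact (h v).1
  have h4 : ‖a‖ * ‖v‖ ^ 2 ≤ ‖a‖ * (c⁻¹ * qf e v) := mul_le_mul_of_nonneg_left h3 (norm_nonneg a)
  calc |a v (Complex.I • v)| ≤ ‖a‖ * ‖v‖ * ‖v‖ := h1
    _ = ‖a‖ * ‖v‖ ^ 2 := by ring
    _ ≤ ‖a‖ * (c⁻¹ * qf e v) := h4
    _ = c⁻¹ * ‖a‖ * qf e v := by ring

omit [FiniteDimensional ℂ H] in
private lemma LA1_pol {a : Bil H} (ha : O11 a) (u v : H) :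
    4 * a u (Complex.I • v) = a (u + v) (Complex.I • (u + v)) - a (u - v) (Complex.I • (u - v)) := by
  have h := O11_symm ha u v
  simp only [smul_add, smul_sub, map_add, map_sub, add_apply, sub_apply]
  linarith

omit [FiniteDimensional ℂ H] in
private lemma LA1_bd {a : Bil H} (ha : O11 a) {c C : ℝ} (hc : 0 ≤ c) (hC : 0 < C)
    (h1 : ∀ z : H, qf e z ≤ C * ‖z‖ ^ 2) (h : ∀ v : H, |a v (Complex.I • v)| ≤ c * qf e v)
    {u v : H} (hu : ‖u‖ ≤ 1) (hv : ‖v‖ ≤ 1) : |a u (Complex.I • v)| ≤ 2 * C * c := by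
  have hp := LA1_pol ha u v
  have k1 : ‖u + v‖ ≤ 2 := (norm_add_le u v).trans (by linarith)
  have k2 : ‖u - v‖ ≤ 2 := (norm_sub_le u v).trans (by linarith)
  have q1 : c * qf e (u + v) ≤ c * (C * 4) := by
    refine mul_le_mul_of_nonneg_left ((h1 _).trans ?_) hc
    refine mul_le_mul_of_nonneg_left ?_ hC.le
    calc ‖u + v‖ ^ 2 ≤ 2 ^ 2 := pow_le_pow_left₀ (norm_nonneg _) k1 2
      _ = 4 := by norm_num
  have q2 : c * qf e (u - v) ≤ c * (C * 4) := by
    refine mul_le_mul_of_nonneg_left ((h1 _).trans ?_) hc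
    refine mul_le_mul_of_nonneg_left ?_ hC.le
    calc ‖u - v‖ ^ 2 ≤ 2 ^ 2 := pow_le_pow_left₀ (norm_nonneg _) k2 2
      _ = 4 := by norm_num
  have r1 := abs_le.mp ((h (u + v)).trans q1)
  have r2 := abs_le.mp ((h (u - v)).trans q2)
  rw [abs_le]
  constructor <;> nlinarith [r1.1, r1.2, r2.1, r2.2]

omit [FiniteDimensional ℂ H] in
private lemma LA1_bd2 {a : Bil H} {K : ℝ}
    (h : ∀ u v : H, ‖u‖ ≤ 1 → ‖v‖ ≤ 1 → |a u v| ≤ K) (u v : H) : |a u v| ≤ K * ‖u‖ * ‖v‖ := by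
  by_cases hu : u = 0
  · subst hu
    rw [map_zero, zero_apply, abs_zero, norm_zero, mul_zero, zero_mul]
  by_cases hv : v = 0
  · subst hv
    rw [map_zero, abs_zero, norm_zero, mul_zero]
  have nu : 0 < ‖u‖ := norm_pos_iff.mpr hu
  have nv : 0 < ‖v‖ := norm_pos_iff.mpr hv
  have h1 : ‖(‖u‖⁻¹ : ℝ) • u‖ ≤ 1 := by
    rw [norm_smul, norm_inv, norm_norm, inv_mul_cancel₀ nu.ne']
  have h2 : ‖(‖v‖⁻¹ : ℝ) • v‖ ≤ 1 := by
    rw [norm_smul, norm_inv, norm_norm, inv_mul_cancel₀ nv.ne']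
  have h3 := h _ _ h1 h2
  rw [map_smul, map_smul, smul_apply, smul_eq_mul, smul_eq_mul, abs_mul, abs_mul, abs_inv, abs_inv,
    abs_of_pos nu, abs_of_pos nv] at h3
  have h4 : |a u v| = (‖v‖⁻¹ * (‖u‖⁻¹ * |a u v|)) * ‖u‖ * ‖v‖ := by
    field_simp
  rw [h4]
  exact mul_le_mul_of_nonneg_right (mul_le_mul_of_nonneg_right h3 nu.le) nv.le

theorem form_ge : ∃ C : ℝ, 0 < C ∧ ∀ (a : Bil H), O11 a → ∀ c : ℝ, 0 ≤ c →
    (∀ v : H, |a v (Complex.I • v)| ≤ c * qf e v) → ‖a‖ ≤ C * c := by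
  obtain ⟨c0, C, hc0, hC, h⟩ := qf_equiv e
  refine ⟨2 * C, by positivity, fun a ha c hc hb => ?_⟩
  refine ContinuousLinearMap.opNorm_le_bound₂ a (by positivity) fun u v => ?_
  refine LA1_bd2 (fun u v hu hv => ?_) u v
  have h1 : a u v = - a u (Complex.I • (Complex.I • v)) := by
    rw [smul_smul, Complex.I_mul_I, neg_smul, one_smul, map_neg, neg_neg]
  rw [h1, abs_neg]
  exact LA1_bd e ha hc hC (fun z => (h z).2) hb hu ((LA1_nI v).le.trans hv)

end HDG
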