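import Pool.Agent.HDG.C1
import Pool.Agent.HDG.LA1

/-!
# HDG/C2: the parametrizations of the covering are open embeddings

Continuity of maps `z ↦ B.cpt t m (f z) (g z) _` into the covering and of the projection; the parametrizations `B.cps t m ik`
are continuous, injective and open on the ball `qb e 4`.
-/

set_option autoImplicit false

noncomputable section

open scoped ContDiff Topology ENNReal

open MeasureTheory

namespace HDG

open Pool.Agent.FBR

variable {H : Type*} [NormedAddCommGroup H] [NormedSpace ℂ H] [FiniteDimensional ℂ H] {n : ℕ}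
  {e : Module.Basis (Fin n) ℂ H} {X : Type*} [TopologicalSpace X]

namespace BM

variable (B : BM e X) {t : B.I → H → ℝ} {m : ℕ}

theorem cpt_cont {Z : Type*} [TopologicalSpace Z] {S : Set Z} (f : Z → X) (g : Z → ℝ) (hf : ContinuousOn f S)
    (hg : ContinuousOn g S) (h : ∀ z, B.On t (f z) (g z)) :
    ContinuousOn (fun z => B.cpt t m (f z) (g z) (h z)) S := by
  refine Topology.IsInducing.subtypeVal.continuousOn_iff.2 ?_
  exact hf.prodMk (continuous_quotient_mk'.comp_continuousOn hg)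

theorem pr_cont : Continuous (B.pr t m) := continuous_fst.comp continuous_subtype_val

theorem cps_cont (ht : B.Per t) (ik : B.I × Fin m) : ContinuousOn (B.cps t m ik) (qb e 4) := by
  refine B.cpt_cont (fun z => B.ψ ik.1 (sq e z)) (fun z => t ik.1 (sq e z) + (((ik.2 : ℕ) : ℤ) : ℝ)) ?_ ?_ _
  · exact (B.cont ik.1).congr fun z hz => by
      show B.ψ ik.1 (sq e z) = B.ψ ik.1 z
      rw [sq_eq hz]
  · refine ContinuousOn.add ?_ continuousOn_const
    exact (ht.sm ik.1).continuousOn.congr fun z hz => by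
      show t ik.1 (sq e z) = t ik.1 z
      rw [sq_eq hz]

theorem cps_inj (ik : B.I × Fin m) : Set.InjOn (B.cps t m ik) (qb e 4) := by
  intro z hz z' hz' h
  rw [B.cps_eq t m ik hz, B.cps_eq t m ik hz', B.cpt_eq t m] at h
  exact B.inj ik.1 hz hz' h.1

theorem cps_opn (ht : B.Per t) (hm : 0 < m) (ik : B.I × Fin m) (U : Set H) (hU : U ⊆ qb e 4) (hUo : IsOpen U) :
    IsOpen (B.cps t m ik '' U) := by
  rw [isOpen_iff_forall_mem_open]
  rintro p0 ⟨z0, hz0, rfl⟩
  set c0 : ℝ := t ik.1 z0 + (((ik.2 : ℕ) : ℤ) : ℝ) with hc0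
  have hU'o : IsOpen {z | z ∈ U ∧ |t ik.1 z - t ik.1 z0| < 1 / 4} := by
    rw [isOpen_iff_mem_nhds]
    rintro z ⟨hz, hz2⟩
    have hcz : ContinuousAt (t ik.1) z := (ht.sm ik.1).continuousOn.continuousAt ((isOpen_qb e 4).mem_nhds (hU hz))
    have h2 : ContinuousAt (fun z => |t ik.1 z - t ik.1 z0|) z := (hcz.sub continuousAt_const).abs
    have h3 := h2.eventually (gt_mem_nhds hz2)
    filter_upwards [h3, hUo.mem_nhds hz] with w hw1 hw2
    exact ⟨hw2, hw1⟩
  have hAo : IsOpen ((fun y : ℝ => (y : AddCircle (m : ℝ))) '' Set.Ioo (c0 - 1 / 2) (c0 + 1 / 2)) :=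
    QuotientAddGroup.isOpenMap_coe _ isOpen_Ioo
  refine ⟨{p : B.Cv t m | p.1.1 ∈ B.ψ ik.1 '' {z | z ∈ U ∧ |t ik.1 z - t ik.1 z0| < 1 / 4} ∧
    p.1.2 ∈ (fun y : ℝ => (y : AddCircle (m : ℝ))) '' Set.Ioo (c0 - 1 / 2) (c0 + 1 / 2)}, ?_, ?_, ?_⟩
  · rintro p ⟨⟨z, ⟨hzU, hz1⟩, hzp⟩, ⟨y', hy', hyp⟩⟩
    obtain ⟨x, y, h, rfl⟩ := B.cpt_ex t m p
    have hx : B.ψ ik.1 z = x := hzp
    subst hx
    have hyy : (y' : AddCircle (m : ℝ)) = (y : AddCircle (m : ℝ)) := hyp
    obtain ⟨l, hl⟩ := (B.On_iff ht (hU hzU) y).1 h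
    rw [QuotientAddGroup.eq, AddSubgroup.mem_zmultiples_iff] at hyy
    obtain ⟨a, ha⟩ := hyy
    rw [zsmul_eq_mul] at ha
    refine ⟨z, hzU, ?_⟩
    rw [B.cps_eq t m ik (hU hzU), B.cpt_eq t m]
    refine ⟨rfl, a, ?_⟩
    -- y = t i z + k + a m
    have h1 : y = y' + a * m := by linarith
    have h2 := abs_lt.1 hz1
    have h3 : ((l - a * m - ((ik.2 : ℕ) : ℤ) : ℤ) : ℝ) < 1 := by
      push_cast
      have := hy'.2
      push_cast at hc0
      linarith [h2.1]
    have h4 : (-1 : ℝ) < ((l - a * m - ((ik.2 : ℕ) : ℤ) : ℤ) : ℝ) := by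
      push_cast
      have := hy'.1
      push_cast at hc0
      linarith [h2.2]
    have h3' : l - a * m - ((ik.2 : ℕ) : ℤ) < 1 := by exact_mod_cast h3
    have h4' : -1 < l - a * m - ((ik.2 : ℕ) : ℤ) := by exact_mod_cast h4
    have h5 : l = ((ik.2 : ℕ) : ℤ) + a * m := by omega
    rw [hl, h5]
    push_cast
    ring
  · refine IsOpen.inter ?_ ?_
    · exact (B.opn ik.1 _ (fun z hz => hU hz.1) hU'o).preimage (continuous_fst.comp continuous_subtype_val)
    · exact hAo.preimage (continuous_snd.comp continuous_subtype_val)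
  · rw [B.cps_eq t m ik (hU hz0)]
    refine ⟨⟨z0, ⟨hz0, by simp⟩, rfl⟩, c0, ⟨by linarith, by linarith⟩, rfl⟩

end BM

end HDG
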