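import Pool.Agent.HDG.C2

/-!
# HDG/C3: the covering is a manifold

A point of the covering is `cps (i, k) z` with `qf z < 1` (`cps_cov`), the transition maps of the covering are those of `X`
(`cps_inv`, `cps_tr`), so the covering is a manifold `B.cv ht hm`; `B.pb ht hm` is the pull back of tensors. `cpct`: every
manifold given by finitely many parametrized balls is compact.
-/

set_option autoImplicit false

noncomputable section

open scoped ContDiff Topology ENNReal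

open MeasureTheory

namespace HDG

open Pool.Agent.FBR

variable {H : Type*} [NormedAddCommGroup H] [NormedSpace ℂ H] [FiniteDimensional ℂ H] {n : ℕ}
  {e : Module.Basis (Fin n) ℂ H} {X : Type*} [TopologicalSpace X]

namespace BM

variable (B : BM e X) {t : B.I → H → ℝ} {m : ℕ}

include B in
theorem cpct : CompactSpace X := by
  have h : (Set.univ : Set X) = ⋃ i, B.ψ i '' {z | qf e z ≤ (1 : ℝ) ^ 2} := by
    symm
    rw [Set.eq_univ_iff_forall]
    intro x
    obtain ⟨i, z, hz, h⟩ := B.cov x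
    have h1 : qf e z < (1 : ℝ) ^ 2 := hz
    exact Set.mem_iUnion.2 ⟨i, z, show qf e z ≤ (1 : ℝ) ^ 2 from h1.le, h⟩
  refine ⟨?_⟩
  rw [h]
  refine isCompact_iUnion fun i => (isCompact_qb e 1).image_of_continuousOn ((B.cont i).mono fun z hz => ?_)
  have h1 : qf e z ≤ (1 : ℝ) ^ 2 := hz
  exact lt_of_le_of_lt h1 (by norm_num)

theorem cv_t2 [T2Space X] : T2Space (B.Cv t m) :=
  inferInstanceAs (T2Space {p : X × AddCircle (m : ℝ) // ∃ y : ℝ, B.On t p.1 y ∧ (y : AddCircle (m : ℝ)) = p.2})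

theorem cps_cov (ht : B.Per t) (hm : 0 < m) (p : B.Cv t m) : ∃ ik, ∃ z ∈ qb e 1, B.cps t m ik z = p := by
  obtain ⟨x, y, h, rfl⟩ := B.cpt_ex t m p
  obtain ⟨i, z, hz, rfl⟩ := B.cov x
  have hz4 : z ∈ qb e 4 := qb_mono (by norm_num) (by norm_num) hz
  obtain ⟨k, rfl⟩ := (B.On_iff ht hz4 y).1 h
  exact ⟨(i, kf hm k), z, hz, (B.cpt_cps t m hm i hz4 k h).symm⟩

theorem cps_inv {ik jl : B.I × Fin m} {z : H} (hz : z ∈ qb e 4) (h : B.cps t m ik z ∈ B.cps t m jl '' qb e 4) :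
    z ∈ B.D ik.1 jl.1 ∧ Function.invFunOn (B.cps t m jl) (qb e 4) (B.cps t m ik z) = B.T ik.1 jl.1 z := by
  have hp : ∀ (kl : B.I × Fin m) {z : H}, z ∈ qb e 4 → B.pr t m (B.cps t m kl z) = B.ψ kl.1 z := by
    intro kl z hz
    rw [B.cps_eq t m kl hz, B.pr_cpt]
  obtain ⟨z', hz', h'⟩ := h
  have h1 : B.ψ ik.1 z = B.ψ jl.1 z' := by
    rw [← hp ik hz, ← hp jl hz', h']
  obtain ⟨h2, h3⟩ := B.T_eq hz hz' h1
  refine ⟨h2, ?_⟩
  have h4 : ∃ a ∈ qb e 4, B.cps t m jl a = B.cps t m ik z := ⟨z', hz', h'⟩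
  rw [h3]
  exact B.cps_inj jl (Function.invFunOn_mem h4) hz' ((Function.invFunOn_eq h4).trans h'.symm)

theorem cps_near (ht : B.Per t) (hm : 0 < m) {ik jl : B.I × Fin m} {z : H} (hz : z ∈ qb e 4)
    (h : B.cps t m ik z ∈ B.cps t m jl '' qb e 4) :
    ∀ᶠ z' in 𝓝 z, z' ∈ qb e 4 ∧ B.cps t m ik z' ∈ B.cps t m jl '' qb e 4 :=
  ((B.cps_cont ht ik).isOpen_inter_preimage (isOpen_qb e 4)
    (B.cps_opn ht hm jl (qb e 4) subset_rfl (isOpen_qb e 4))).mem_nhds ⟨hz, h⟩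

theorem cps_tr (ht : B.Per t) (hm : 0 < m) (ik jl : B.I × Fin m) (z : H) (hz : z ∈ qb e 4)
    (h : B.cps t m ik z ∈ B.cps t m jl '' qb e 4) :
    ContDiffAt ℂ ∞ (fun z => Function.invFunOn (B.cps t m jl) (qb e 4) (B.cps t m ik z)) z := by
  refine (B.tr ik.1 jl.1 z hz (B.cps_inv hz h).1.2).congr_of_eventuallyEq ?_
  filter_upwards [B.cps_near ht hm hz h] with z' hz'
  exact (B.cps_inv hz'.1 hz'.2).2

/-- the covering as a manifold -/
def cv (ht : B.Per t) (hm : 0 < m) : BM e (B.Cv t m) where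
  I := B.I × Fin m
  fin := inferInstance
  ψ := B.cps t m
  cont := B.cps_cont ht
  inj := B.cps_inj
  opn := B.cps_opn ht hm
  cov := B.cps_cov ht hm
  tr := B.cps_tr ht hm

/-- pull back of tensors -/
def pb (ht : B.Per t) (hm : 0 < m) (a : B.I → H → Bil H) : (B.cv ht hm).I → H → Bil H :=
  fun (ik : B.I × Fin m) => a ik.1

end BM

end HDG
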