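import Pool.Agent.HDG.C3

/-!
# HDG/C4: tensors and functions pulled back to the covering

The transition maps of the covering are those of `X` (`cv_T`, `cv_fT`), so pulled back tensors and functions on the covering
have the properties of the tensors and functions on `X`.
-/

set_option autoImplicit false

noncomputable section

open scoped ContDiff Topology ENNReal

open MeasureTheory

namespace HDG

open Pool.Agent.FBR

variable {H : Type*} [NormedAddCommGroup H] [NormedSpace ℂ H] [FiniteDimensional ℂ H] {n : ℕ}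
  {e : Module.Basis (Fin n) ℂ H} {X : Type*} [TopologicalSpace X]

namespace BM

variable (B : BM e X) {t : B.I → H → ℝ} {m : ℕ} (ht : B.Per t) (hm : 0 < m)

theorem cv_T {ik jl : B.I × Fin m} {z : H} (hz : z ∈ (B.cv ht hm).D ik jl) :
    z ∈ B.D ik.1 jl.1 ∧ (B.cv ht hm).T ik jl z = B.T ik.1 jl.1 z :=
  B.cps_inv (t := t) hz.1 hz.2

theorem cv_fT {ik jl : B.I × Fin m} {z : H} (hz : z ∈ (B.cv ht hm).D ik jl) :
    fderiv ℝ ((B.cv ht hm).T ik jl) z = fderiv ℝ (B.T ik.1 jl.1) z := by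
  refine Filter.EventuallyEq.fderiv_eq ?_
  filter_upwards [B.cps_near ht hm hz.1 hz.2] with z' hz'
  exact (B.cps_inv (t := t) hz'.1 hz'.2).2

theorem ist_pb {a : B.I → H → Bil H} (ha : B.IsT a) : (B.cv ht hm).IsT (B.pb ht hm a) where
  sm := fun (ik : B.I × Fin m) => ha.sm ik.1
  oo := fun (ik : B.I × Fin m) z hz => ha.oo ik.1 z hz
  co := fun (ik jl : B.I × Fin m) z hz => by
    obtain ⟨h1, h2⟩ := B.cv_T ht hm hz
    rw [B.cv_fT ht hm hz, h2]
    exact ha.co ik.1 jl.1 z h1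

theorem clt_pb {a : B.I → H → Bil H} (ha : B.ClT a) : (B.cv ht hm).ClT (B.pb ht hm a) :=
  fun (ik : B.I × Fin m) => ha ik.1

theorem nnt_pb {a : B.I → H → Bil H} (ha : B.NnT a) : (B.cv ht hm).NnT (B.pb ht hm a) :=
  fun (ik : B.I × Fin m) => ha ik.1

theorem met_pb {w : B.I → H → Bil H} (hw : B.Met w) : (B.cv ht hm).Met (B.pb ht hm w) where
  t := B.ist_pb ht hm hw.t
  pos := fun (ik : B.I × Fin m) => hw.pos ik.1

private theorem C4_pr (ik : B.I × Fin m) {z : H} (hz : z ∈ qb e 4) : B.pr t m (B.cps t m ik z) = B.ψ ik.1 z := by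
  rw [B.cps_eq t m ik hz, B.pr_cpt]

theorem sm_pr {f : X → ℝ} (hf : B.Sm f) : (B.cv ht hm).Sm (fun p => f (B.pr t m p)) :=
  fun (ik : B.I × Fin m) => (hf ik.1).congr fun z hz => congrArg f (B.C4_pr ik hz)

theorem dd_pr (f : X → ℝ) (ik : B.I × Fin m) {z : H} (hz : z ∈ qb e 4) :
    (B.cv ht hm).dd (fun p => f (B.pr t m p)) ik z = B.dd f ik.1 z := by
  refine ddc_congr ?_
  filter_upwards [(isOpen_qb e 4).mem_nhds hz] with z' hz'
  exact congrArg f (B.C4_pr ik hz')

end BM

end HDG
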