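import Pool.Agent.HDG.C3

/-!
# HDG/C5: functions on the covering as functions of `x` and `y`

The correspondence between functions `Φ` on the covering `B.Cv t m` and functions `G x y` with `G x (y + m) = G x y`:
`B.fn`, `B.mkf` are inverse to each other, and preserve smoothness and `dd^c`. Smooth functions on the covering are
continuous and bounded.
-/

set_option autoImplicit false

noncomputable section

open scoped ContDiff Topology ENNReal

open MeasureTheory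

namespace HDG

open Pool.Agent.FBR

variable {H : Type*} [NormedAddCommGroup H] [NormedSpace ℂ H] [FiniteDimensional ℂ H] {n : ℕ}
  {e : Module.Basis (Fin n) ℂ H} {X : Type*} [TopologicalSpace X]

private theorem C5_per {X : Type*} {G : X → ℝ → ℝ} {m : ℕ} (hG : ∀ x y, G x (y + m) = G x y) (x : X) (y : ℝ) (k : ℤ) :
    G x (y + k * m) = G x y := by
  induction k using Int.induction_on with
  | zero => simp
  | succ k ih =>
    have h1 : y + ((k : ℤ) + 1 : ℤ) * m = y + ((k : ℤ) : ℝ) * m + m := by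
      push_cast
      ring
    rw [h1, hG, ih]
  | pred k ih =>
    have h1 := hG x (y + ((-(k : ℤ) - 1 : ℤ) : ℝ) * m)
    have h2 : y + ((-(k : ℤ) - 1 : ℤ) : ℝ) * m + m = y + ((-(k : ℤ) : ℤ) : ℝ) * m := by
      push_cast
      ring
    rw [h2, ih] at h1
    exact h1.symm

namespace BM

variable (B : BM e X) {t : B.I → H → ℝ} {m : ℕ}

theorem fn_cpt (Φ : B.Cv t m → ℝ) {x : X} {y : ℝ} (h : B.On t x y) : B.fn t m Φ x y = Φ (B.cpt t m x y h) := by
  unfold fn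
  exact dif_pos h

private theorem C5_fper (Φ : B.Cv t m → ℝ) (x : X) (y : ℝ) (k : ℤ) :
    B.fn t m Φ x (y + k * m) = B.fn t m Φ x y := by
  by_cases h : B.On t x y
  · have h' : B.On t x (y + k * m) := by
      have h1 := B.On_add h (k * m)
      push_cast at h1
      exact h1
    rw [B.fn_cpt Φ h, B.fn_cpt Φ h']
    refine congrArg Φ ((B.cpt_eq t m h' h).2 ⟨rfl, -k, ?_⟩)
    push_cast
    ring
  · have h' : ¬ B.On t x (y + k * m) := by
      intro h1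
      have h2 := B.On_add h1 (-(k * m))
      push_cast at h2
      rw [add_neg_cancel_right] at h2
      exact h h2
    unfold fn
    rw [dif_neg h, dif_neg h']

theorem fn_per (Φ : B.Cv t m → ℝ) (x : X) (y : ℝ) : B.fn t m Φ x (y + m) = B.fn t m Φ x y := by
  have h := C5_fper B Φ x y 1
  rwa [Int.cast_one, one_mul] at h

theorem fn_per' (Φ : B.Cv t m → ℝ) (x : X) (y : ℝ) (k : ℤ) : B.fn t m Φ x (y + k * m) = B.fn t m Φ x y := by
  exact C5_fper B Φ x y k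

theorem fn_cps (hm : 0 < m) (Φ : B.Cv t m → ℝ) (i : B.I) {z : H} (hz : z ∈ qb e 4) (k : ℤ) :
    B.fn t m Φ (B.ψ i z) (t i z + k) = Φ (B.cps t m (i, kf hm k) z) := by
  rw [B.fn_cpt Φ (B.on_mem t i hz k), B.cpt_cps t m hm i hz k]

theorem mkf_cpt {G : X → ℝ → ℝ} (hG : ∀ x y, G x (y + m) = G x y) {x : X} {y : ℝ} (h : B.On t x y) :
    B.mkf t m G (B.cpt t m x y h) = G x y := by
  obtain ⟨k, hk⟩ := B.rp_cpt t m h
  unfold mkf
  rw [B.pr_cpt t m h, hk]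
  exact C5_per hG x y k

theorem mkf_cps {G : X → ℝ → ℝ} (hG : ∀ x y, G x (y + m) = G x y) (ik : B.I × Fin m) {z : H} (hz : z ∈ qb e 4) :
    B.mkf t m G (B.cps t m ik z) = G (B.ψ ik.1 z) (t ik.1 z + (((ik.2 : ℕ) : ℤ) : ℝ)) := by
  rw [B.cps_eq t m ik hz, B.mkf_cpt hG]

theorem fn_mkf {G : X → ℝ → ℝ} (hG : ∀ x y, G x (y + m) = G x y) {x : X} {y : ℝ} (h : B.On t x y) :
    B.fn t m (B.mkf t m G) x y = G x y := by
  rw [B.fn_cpt _ h, B.mkf_cpt hG]

theorem mkf_fn (Φ : B.Cv t m → ℝ) : B.mkf t m (B.fn t m Φ) = Φ := by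
  funext p
  obtain ⟨x, y, h, rfl⟩ := B.cpt_ex t m p
  rw [B.mkf_cpt (fun x y => B.fn_per Φ x y) h, B.fn_cpt Φ h]

variable (ht : B.Per t) (hm : 0 < m)

theorem sm_fn {Φ : B.Cv t m → ℝ} (hΦ : (B.cv ht hm).Sm Φ) (i : B.I) (k : ℤ) :
    ContDiffOn ℝ ∞ (fun z => B.fn t m Φ (B.ψ i z) (t i z + k)) (qb e 4) := by
  have h1 : ContDiffOn ℝ ∞ (fun z => Φ (B.cps t m (i, kf hm k) z)) (qb e 4) := hΦ (i, kf hm k)
  exact h1.congr fun z hz => B.fn_cps hm Φ i hz k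

theorem sm_of_fn {Φ : B.Cv t m → ℝ}
    (h : ∀ i (k : ℤ), ContDiffOn ℝ ∞ (fun z => B.fn t m Φ (B.ψ i z) (t i z + k)) (qb e 4)) :
    (B.cv ht hm).Sm Φ := by
  rintro ⟨i, k⟩
  have h1 : ContDiffOn ℝ ∞ (fun z => Φ (B.cps t m (i, k) z)) (qb e 4) := by
    refine (h i ((k : ℕ) : ℤ)).congr fun z hz => ?_
    have h2 := B.fn_cps hm Φ i hz ((k : ℕ) : ℤ)
    rw [kf_self hm k] at h2
    exact h2.symm
  exact h1

theorem dd_fn (Φ : B.Cv t m → ℝ) (i : B.I) (k : ℤ) {z : H} (hz : z ∈ qb e 4) :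
    ddc (fun z => B.fn t m Φ (B.ψ i z) (t i z + k)) z = (B.cv ht hm).dd Φ (i, kf hm k) z := by
  have h1 : (fun z => B.fn t m Φ (B.ψ i z) (t i z + k)) =ᶠ[𝓝 z] fun z => Φ (B.cps t m (i, kf hm k) z) := by
    filter_upwards [(isOpen_qb e 4).mem_nhds hz] with w hw
    exact B.fn_cps hm Φ i hw k
  exact ddc_congr h1

theorem sm_mkf {G : X → ℝ → ℝ} (hG : ∀ x y, G x (y + m) = G x y)
    (h : ∀ i (k : ℤ), ContDiffOn ℝ ∞ (fun z => G (B.ψ i z) (t i z + k)) (qb e 4)) :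
    (B.cv ht hm).Sm (B.mkf t m G) := by
  refine B.sm_of_fn ht hm fun i k => (h i k).congr fun z hz => ?_
  exact B.fn_mkf hG (B.on_mem t i hz k)

theorem dd_mkf {G : X → ℝ → ℝ} (hG : ∀ x y, G x (y + m) = G x y) (ik : B.I × Fin m) {z : H} (hz : z ∈ qb e 4) :
    (B.cv ht hm).dd (B.mkf t m G) ik z =
      ddc (fun z => G (B.ψ ik.1 z) (t ik.1 z + (((ik.2 : ℕ) : ℤ) : ℝ))) z := by
  have h1 : (fun z => B.mkf t m G (B.cps t m ik z)) =ᶠ[𝓝 z]
      fun z => G (B.ψ ik.1 z) (t ik.1 z + (((ik.2 : ℕ) : ℤ) : ℝ)) := by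
    filter_upwards [(isOpen_qb e 4).mem_nhds hz] with w hw
    exact B.mkf_cps hG ik hw
  exact ddc_congr h1

theorem fn_bdd {Φ : B.Cv t m → ℝ} (hΦ : (B.cv ht hm).Sm Φ) : Continuous Φ ∧ ∃ M : ℝ, ∀ p, |Φ p| ≤ M := by
  have h1 : Continuous Φ := (B.cv ht hm).Sm_cont hΦ
  have h2 : CompactSpace (B.Cv t m) := (B.cv ht hm).cpct
  refine ⟨h1, ?_⟩
  obtain ⟨M, hM⟩ := isCompact_univ.exists_bound_of_continuousOn (f := Φ) h1.continuousOn
  exact ⟨M, fun p => hM p (Set.mem_univ p)⟩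

end BM

end HDG
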