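import Pool.Agent.HDG.DDefs

/-!
# HDG: cyclic coverings (definitions)

`t` is a multivalued function on the manifold `X` with integral periods (`B.Per t`). The points of the infinite cyclic covering
are the pairs `(x, y)`, `y : ℝ` a value of `t` at `x` (`B.On t x y`, DDefs); `B.Cv t m` is its quotient by `y ↦ y + m`, with
the points `B.cpt t m x y h` and the parametrizations `B.cps t m (i, k)`, `k : Fin m`. A function `Φ` on `B.Cv t m` is the
same as a function `G = B.fn t m Φ` of `x` and `y` with `G x (y + m) = G x y`, `Φ = B.mkf t m G`.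
-/

set_option autoImplicit false

noncomputable section

open scoped ContDiff Topology ENNReal

open MeasureTheory

namespace HDG

open Pool.Agent.FBR

/-- `k` modulo `m` -/
def kf {m : ℕ} (hm : 0 < m) (k : ℤ) : Fin m :=
  ⟨(k % (m : ℤ)).toNat, by
    have h1 : (0 : ℤ) < (m : ℤ) := by exact_mod_cast hm
    have h2 := Int.emod_lt_of_pos k h1
    have h3 := Int.emod_nonneg k h1.ne'
    omega⟩

/-- the real `(1,1)`-form `(u, v) ↦ (l (i u) l v - l (i v) l u) / 2` -/
def dcl {H : Type*} [NormedAddCommGroup H] [NormedSpace ℂ H] (l : H →L[ℝ] ℝ) : Bil H :=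
  (1 / 2 : ℝ) • ((l.comp (Complex.I • ContinuousLinearMap.id ℝ H)).smulRight l -
    l.smulRight (l.comp (Complex.I • ContinuousLinearMap.id ℝ H)))

variable {H : Type*} [NormedAddCommGroup H] [NormedSpace ℂ H] {n : ℕ} {e : Module.Basis (Fin n) ℂ H} {X : Type*}
  [TopologicalSpace X]

theorem zero_qb {r : ℝ} (hr : 0 < r) : (0 : H) ∈ qb e r := by
  have : qf e (0 : H) = 0 := by simp [qf]
  simp only [qb, Set.mem_ofPred_eq, this]
  positivity

open Classical in
/-- `z` if this is a point of the ball of radius `4`, otherwise `0` -/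
def sq (e : Module.Basis (Fin n) ℂ H) (z : H) : H := if z ∈ qb e 4 then z else 0

theorem sq_mem (z : H) : sq e z ∈ qb e 4 := by
  unfold sq
  split_ifs with h
  · exact h
  · exact zero_qb (by norm_num)

theorem sq_eq {z : H} (hz : z ∈ qb e 4) : sq e z = z := if_pos hz

namespace BM

variable (B : BM e X) (t : B.I → H → ℝ) (m : ℕ)

/-- the cyclic covering of degree `m` -/
def Cv : Type _ := {p : X × AddCircle (m : ℝ) // ∃ y : ℝ, B.On t p.1 y ∧ (y : AddCircle (m : ℝ)) = p.2}

instance : TopologicalSpace (B.Cv t m) := instTopologicalSpaceSubtype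

instance : MeasurableSpace (B.Cv t m) := borel _

instance : BorelSpace (B.Cv t m) := ⟨rfl⟩

/-- the point of the covering over `x` with the value `y` -/
def cpt (x : X) (y : ℝ) (h : B.On t x y) : B.Cv t m := ⟨(x, (y : AddCircle (m : ℝ))), y, h, rfl⟩

/-- the projection -/
def pr (p : B.Cv t m) : X := p.1.1

/-- a real number which represents the second coordinate of `p` -/
def rp (p : B.Cv t m) : ℝ := p.2.choose

theorem rp_on (p : B.Cv t m) : B.On t (B.pr t m p) (B.rp t m p) := p.2.choose_spec.1

theorem cpt_rp (p : B.Cv t m) : B.cpt t m (B.pr t m p) (B.rp t m p) (B.rp_on t m p) = p :=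
  Subtype.ext (Prod.ext rfl p.2.choose_spec.2)

theorem on_mem (i : B.I) {z : H} (hz : z ∈ qb e 4) (k : ℤ) : B.On t (B.ψ i z) (t i z + k) :=
  ⟨i, z, hz, k, rfl, rfl⟩

/-- the parametrization of the covering with the index `(i, k)` -/
def cps (ik : B.I × Fin m) (z : H) : B.Cv t m :=
  B.cpt t m (B.ψ ik.1 (sq e z)) (t ik.1 (sq e z) + (((ik.2 : ℕ) : ℤ) : ℝ)) (B.on_mem t ik.1 (sq_mem z) _)

open Classical in
/-- a function on the covering as a function of `x` and `y` -/
def fn (Φ : B.Cv t m → ℝ) (x : X) (y : ℝ) : ℝ := if h : B.On t x y then Φ (B.cpt t m x y h) else 0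

/-- the function on the covering with the values `G x y` (`G` periodic) -/
def mkf (G : X → ℝ → ℝ) (p : B.Cv t m) : ℝ := G (B.pr t m p) (B.rp t m p)

theorem fr_on (x : X) (k : ℤ) : B.On t x (B.fr t x + k) := by
  refine ⟨B.ix x, B.cd x, qb_mono (by norm_num) (by norm_num) (B.cd_mem x), k - ⌊t (B.ix x) (B.cd x)⌋, B.ψ_cd x, ?_⟩
  unfold fr
  rw [← Int.self_sub_floor]
  push_cast
  ring

/-- the point over `x` with the value `fr x + k` -/
def sht (k : ℕ) (x : X) : B.Cv t m := B.cpt t m x (B.fr t x + ((k : ℤ) : ℝ)) (B.fr_on t x k)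

/-- the volume measure of the covering -/
def vol [MeasurableSpace X] (ν : Measure X) : Measure (B.Cv t m) := ∑ k ∈ Finset.range m, ν.map (B.sht t m k)

end BM

end HDG
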