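import Pool.Agent.HDG.DDefs
import Pool.Agent.HDG.CDefs

/-!
# HDG/C7: `dd^c` of `h (u)`, the form `du ∧ d^c u`

`dcl l` is the semi-positive `(1,1)`-form defined by the real linear form `l`; `dd^c (h ∘ u) = h' dd^c u + h'' dcl (du)`, so the
rank one part `gr t i` of a multivalued function `t` is `dcl (d (t i))`, a smooth semi-positive tensor.
-/

set_option autoImplicit false

noncomputable section

open scoped ContDiff Topology ENNReal

open MeasureTheory

namespace HDG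

open Pool.Agent.FBR

variable {H : Type*} [NormedAddCommGroup H] [NormedSpace ℂ H]

private theorem C7_II (u : H) : Complex.I • Complex.I • u = -u := by
  rw [smul_smul, Complex.I_mul_I, neg_smul, one_smul]

theorem dcl_apply (l : H →L[ℝ] ℝ) (u v : H) :
    dcl l u v = 1 / 2 * (l (Complex.I • u) * l v - l (Complex.I • v) * l u) := by
  have h : dcl l u v = 1 / 2 * (l (Complex.I • u) * l v - l u * l (Complex.I • v)) := rfl
  rw [h]
  ring

theorem dcl_O11 (l : H →L[ℝ] ℝ) : O11 (dcl l) := by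
  refine ⟨fun v => ?_, fun u v => ?_⟩
  · rw [dcl_apply, sub_self, mul_zero]
  · rw [dcl_apply, dcl_apply, C7_II, C7_II, map_neg, map_neg]
    ring

theorem dcl_nn (l : H →L[ℝ] ℝ) : Nn (dcl l) := by
  intro v
  have h : dcl l v (Complex.I • v) = 1 / 2 * (l v ^ 2 + l (Complex.I • v) ^ 2) := by
    rw [dcl_apply, C7_II, map_neg]
    ring
  rw [h]
  positivity

theorem dcl_comp (l : H →L[ℝ] ℝ) {T : H →L[ℝ] H} (hT : ∀ v, T (Complex.I • v) = Complex.I • T v) :
    dcl (l.comp T) = (dcl l).bilinearComp T T := by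
  ext u v
  rw [ContinuousLinearMap.bilinearComp_apply, dcl_apply, dcl_apply, ContinuousLinearMap.comp_apply,
    ContinuousLinearMap.comp_apply, ContinuousLinearMap.comp_apply, ContinuousLinearMap.comp_apply, hT, hT]

theorem dcl_cd : ContDiff ℝ ∞ (dcl : (H →L[ℝ] ℝ) → Bil H) := by
  have h1 : ContDiff ℝ ∞ fun l : H →L[ℝ] ℝ => l.comp (Complex.I • ContinuousLinearMap.id ℝ H) :=
    contDiff_id.clm_comp contDiff_const
  have h2 : ContDiff ℝ ∞ fun l : H →L[ℝ] ℝ => (l.comp (Complex.I • ContinuousLinearMap.id ℝ H)).smulRight l :=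
    h1.smulRight contDiff_id
  have h3 : ContDiff ℝ ∞ fun l : H →L[ℝ] ℝ => l.smulRight (l.comp (Complex.I • ContinuousLinearMap.id ℝ H)) :=
    ContDiff.smulRight contDiff_id h1
  exact (h2.sub h3).const_smul (1 / 2 : ℝ)

private theorem C7_D2 {φ : H → ℝ} {z : H} (hφ : ContDiffAt ℝ ∞ φ z) {g g' g'' : ℝ → ℝ}
    (h1 : ∀ x, HasDerivAt g (g' x) x) (h2 : ∀ x, HasDerivAt g' (g'' x) x) (a b : H) :
    fderiv ℝ (fderiv ℝ (fun z => g (φ z))) z a b =
      g'' (φ z) * fderiv ℝ φ z a * fderiv ℝ φ z b + g' (φ z) * fderiv ℝ (fderiv ℝ φ) z a b := by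
  have hd : ∀ᶠ x in nhds z, DifferentiableAt ℝ φ x := by
    have h3 : ContDiffAt ℝ 1 φ z := hφ.of_le (by norm_cast)
    have h4 := h3.eventually (by simp)
    filter_upwards [h4] with x hx
    exact hx.differentiableAt (by simp)
  have he : fderiv ℝ (fun z => g (φ z)) =ᶠ[nhds z] fun x => g' (φ x) • fderiv ℝ φ x := by
    filter_upwards [hd] with x hx
    exact ((h1 (φ x)).comp_hasFDerivAt x hx.hasFDerivAt).fderiv
  have h5 : ContDiffAt ℝ ∞ (fderiv ℝ φ) z := hφ.fderiv_right (by norm_num)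
  have h6 : HasFDerivAt (fderiv ℝ φ) (fderiv ℝ (fderiv ℝ φ) z) z := (h5.differentiableAt (by norm_num)).hasFDerivAt
  have h7 : HasFDerivAt (fun x => g' (φ x)) (g'' (φ z) • fderiv ℝ φ z) z :=
    (h2 (φ z)).comp_hasFDerivAt z hd.self_of_nhds.hasFDerivAt
  have h8 : HasFDerivAt (fun x => g' (φ x) • fderiv ℝ φ x)
      (g' (φ z) • fderiv ℝ (fderiv ℝ φ) z + (g'' (φ z) • fderiv ℝ φ z).smulRight (fderiv ℝ φ z)) z := h7.smul h6
  rw [he.fderiv_eq, h8.fderiv]
  simp only [add_apply, smul_apply, ContinuousLinearMap.smulRight_apply, smul_eq_mul]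
  ring

private theorem C7_hd {h : ℝ → ℝ} (hh : ContDiff ℝ ∞ h) (x : ℝ) : HasDerivAt h (deriv h x) x :=
  (hh.differentiable (by norm_num) x).hasDerivAt

theorem ddc_cmp {h : ℝ → ℝ} {u : H → ℝ} {z : H} (hh : ContDiff ℝ ∞ h) (hu : ContDiffAt ℝ ∞ u z) :
    ddc (fun z => h (u z)) z = deriv h (u z) • ddc u z + deriv (deriv h) (u z) • dcl (fderiv ℝ u z) := by
  have hh' : ContDiff ℝ ∞ (deriv h) := (contDiff_infty_iff_deriv.1 hh).2
  have e1 := fun a b => C7_D2 hu (C7_hd hh) (C7_hd hh') a b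
  ext a b
  rw [ddc_apply, e1, e1]
  simp only [add_apply, smul_apply, smul_eq_mul]
  rw [ddc_apply, dcl_apply]
  ring

theorem dcl_eq {u : H → ℝ} {z : H} (hu : ContDiffAt ℝ ∞ u z) :
    (1 / 2 : ℝ) • ddc (fun z => u z ^ 2) z - u z • ddc u z = dcl (fderiv ℝ u z) := by
  have h1 : deriv (fun x : ℝ => x ^ 2) = fun x => 2 * x := by
    funext x
    simp
  have h2 : deriv (fun x : ℝ => 2 * x) = fun _ => 2 := by
    funext x
    simp
  have h := ddc_cmp (h := fun x : ℝ => x ^ 2) (contDiff_id.pow 2) hu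
  rw [h1, h2] at h
  rw [h]
  ext a b
  simp only [add_apply, smul_apply, sub_apply, smul_eq_mul]
  ring

variable [FiniteDimensional ℂ H] {n : ℕ} {e : Module.Basis (Fin n) ℂ H} {X : Type*} [TopologicalSpace X]

namespace BM

variable (B : BM e X) {t : B.I → H → ℝ}

private theorem C7_at (ht : B.Per t) {i : B.I} {z : H} (hz : z ∈ qb e 4) : ContDiffAt ℝ ∞ (t i) z :=
  (ht.sm i).contDiffAt ((isOpen_qb e 4).mem_nhds hz)

private theorem C7_loc (ht : B.Per t) {i j : B.I} {z : H} (hz : z ∈ B.D i j) :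
    t i =ᶠ[nhds z] fun x => (t j ∘ B.T i j) x + (t i z - t j (B.T i j z)) := by
  have c1 : ContinuousAt (t i) z := (C7_at B ht hz.1).continuousAt
  have c2 : ContinuousAt (t j ∘ B.T i j) z :=
    ContinuousAt.comp (C7_at B ht (B.T_mem hz)).continuousAt (B.T_cd hz).continuousAt
  have c3 : ContinuousAt (fun x => t i x - (t j ∘ B.T i j) x) z := c1.sub c2
  have h1 := Metric.continuousAt_iff.1 c3 1 one_pos
  obtain ⟨r, hr, h2⟩ := h1
  filter_upwards [Metric.ball_mem_nhds z hr, (B.D_open i j).mem_nhds hz] with x hx hxD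
  have h3 := h2 hx
  obtain ⟨k, hk⟩ := ht.tr i j x hxD
  obtain ⟨l, hl⟩ := ht.tr i j z hz
  rw [Real.dist_eq] at h3
  simp only [Function.comp_apply] at h3 ⊢
  rw [hk, hl] at h3
  have h4 : |k - l| < 1 := by exact_mod_cast h3
  have h5 : k = l := by
    rw [Int.abs_lt_one_iff] at h4
    omega
  rw [hl, ← h5, ← hk]
  ring

theorem gr_eq (ht : B.Per t) {i : B.I} {z : H} (hz : z ∈ qb e 4) : B.gr t i z = dcl (fderiv ℝ (t i) z) :=
  dcl_eq (C7_at B ht hz)

theorem gr_T (ht : B.Per t) : B.IsT (B.gr t) := by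
  refine ⟨fun i => ?_, fun i z hz => ?_, fun i j z hz => ?_⟩
  · refine ContDiffOn.congr (f := fun z => dcl (fderiv ℝ (t i) z)) (fun z hz => ?_) fun z hz => B.gr_eq ht hz
    have h1 : ContDiffAt ℝ ∞ (fderiv ℝ (t i)) z := (C7_at B ht hz).fderiv_right (by norm_num)
    exact (dcl_cd.contDiffAt.comp z h1).contDiffWithinAt
  · rw [B.gr_eq ht hz]
    exact dcl_O11 _
  · have h1 : fderiv ℝ (t i) z = (fderiv ℝ (t j) (B.T i j z)).comp (fderiv ℝ (B.T i j) z) := by
      rw [(C7_loc B ht hz).fderiv_eq, fderiv_add_const]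
      exact fderiv_comp z ((C7_at B ht (B.T_mem hz)).differentiableAt (by norm_num))
        ((B.T_cd hz).differentiableAt (by norm_num))
    rw [B.gr_eq ht hz.1, B.gr_eq ht (B.T_mem hz), h1]
    exact dcl_comp _ fun v => B.T_I hz v

theorem gr_nn (ht : B.Per t) : B.NnT (B.gr t) := by
  intro i z hz
  rw [B.gr_eq ht hz]
  exact dcl_nn _

end BM

end HDG
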