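import Pool.Agent.HDG.C4
import Pool.Agent.HDG.C5
import Pool.Agent.HDG.C7

/-!
# HDG/C8: the functions `h (y + f x)` on the covering

`h` is a smooth function with the period `m`, `f` a smooth function on `X`. The function `(x, y) ↦ h (y + f x)` on the covering is
smooth; its `dd^c` and the density of `b + dd^c` are expressed by the multivalued function `t + f` on `X`.
-/

set_option autoImplicit false

noncomputable section

open scoped ContDiff Topology ENNReal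

open MeasureTheory

namespace HDG

open Pool.Agent.FBR

/-- the function `h (y + f x)` on the covering -/
def BM.hf {H : Type*} [NormedAddCommGroup H] [NormedSpace ℂ H] {n : ℕ} {e : Module.Basis (Fin n) ℂ H} {X : Type*}
    [TopologicalSpace X] (B : BM e X) (t : B.I → H → ℝ) (m : ℕ) (h : ℝ → ℝ) (f : X → ℝ) : B.Cv t m → ℝ :=
  B.mkf t m fun x y => h (y + f x)

variable {H : Type*} [NormedAddCommGroup H] [NormedSpace ℂ H] [FiniteDimensional ℂ H] {n : ℕ}
  {e : Module.Basis (Fin n) ℂ H} {X : Type*} [TopologicalSpace X]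

namespace BM

variable (B : BM e X) {t : B.I → H → ℝ} {m : ℕ} (ht : B.Per t) (hm : 0 < m)

omit [FiniteDimensional ℂ H] [TopologicalSpace X] in
private theorem C8_per {h : ℝ → ℝ} (hp : ∀ y, h (y + m) = h y) (f : X → ℝ) (x : X) (y : ℝ) :
    h (y + m + f x) = h (y + f x) := by
  rw [← hp (y + f x)]
  congr 1
  ring

omit [FiniteDimensional ℂ H] in
private theorem C8_int {h : ℝ → ℝ} (hp : ∀ y, h (y + m) = h y) (a : ℤ) (y : ℝ) : h (y + a * m) = h y := by
  have h1 : Function.Periodic h (m : ℝ) := hp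
  have h2 := h1.int_mul a
  exact h2 y

omit [FiniteDimensional ℂ H] in
private theorem C8_deriv {h : ℝ → ℝ} (hp : ∀ y, h (y + m) = h y) (y : ℝ) : deriv h (y + m) = deriv h y := by
  have h1 : (fun y => h (y + m)) = h := funext hp
  calc deriv h (y + m) = deriv (fun y => h (y + m)) y := (deriv_comp_add_const h (m : ℝ) y).symm
    _ = deriv h y := by rw [h1]

private theorem C8_at (ht : B.Per t) {i : B.I} {z : H} (hz : z ∈ qb e 4) : ContDiffAt ℝ ∞ (t i) z :=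
  (ht.sm i).contDiffAt ((isOpen_qb e 4).mem_nhds hz)

omit [FiniteDimensional ℂ H] in
private theorem C8_cst (φ : H → ℝ) (c : ℝ) (q : H) : ddc (fun x => φ x + c) q = ddc φ q := by
  have h1 : fderiv ℝ (fun x => φ x + c) = fderiv ℝ φ := funext fun x => fderiv_add_const c
  ext u v
  rw [ddc_apply, ddc_apply, h1]

theorem hf_cpt {h : ℝ → ℝ} (hp : ∀ y, h (y + m) = h y) (f : X → ℝ) {x : X} {y : ℝ} (hy : B.On t x y) :
    B.hf t m h f (B.cpt t m x y hy) = h (y + f x) :=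
  B.mkf_cpt (G := fun x y => h (y + f x)) (C8_per hp f) hy

theorem sm_hf {h : ℝ → ℝ} (hh : ContDiff ℝ ∞ h) (hp : ∀ y, h (y + m) = h y) {f : X → ℝ} (hf : B.Sm f) :
    (B.cv ht hm).Sm (B.hf t m h f) := by
  refine B.sm_mkf ht hm (G := fun x y => h (y + f x)) (C8_per hp f) fun i k => ?_
  exact hh.comp_contDiffOn (((ht.sm i).add contDiffOn_const).add (hf i))

theorem dd_hf {h : ℝ → ℝ} (hh : ContDiff ℝ ∞ h) (hp : ∀ y, h (y + m) = h y) {f : X → ℝ} (hf : B.Sm f)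
    (ik : B.I × Fin m) {z : H} (hz : z ∈ qb e 4) :
    (B.cv ht hm).dd (B.hf t m h f) ik z =
      deriv h (t ik.1 z + (((ik.2 : ℕ) : ℤ) : ℝ) + f (B.ψ ik.1 z)) • B.ddt (fun i z => t i z + f (B.ψ i z)) ik.1 z +
      deriv (deriv h) (t ik.1 z + (((ik.2 : ℕ) : ℤ) : ℝ) + f (B.ψ ik.1 z)) •
        B.gr (fun i z => t i z + f (B.ψ i z)) ik.1 z := by
  have h1 := B.dd_mkf ht hm (G := fun x y => h (y + f x)) (C8_per hp f) ik hz
  have ht' := ht.add B hf
  have h2 : ContDiffAt ℝ ∞ (fun z => t ik.1 z + f (B.ψ ik.1 z)) z := C8_at B ht' hz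
  have e1 : (fun z => t ik.1 z + (((ik.2 : ℕ) : ℤ) : ℝ) + f (B.ψ ik.1 z)) =
      fun z => t ik.1 z + f (B.ψ ik.1 z) + (((ik.2 : ℕ) : ℤ) : ℝ) := by
    funext z
    ring
  have h3 : ContDiffAt ℝ ∞ (fun z => t ik.1 z + (((ik.2 : ℕ) : ℤ) : ℝ) + f (B.ψ ik.1 z)) z := by
    rw [e1]
    exact h2.add contDiffAt_const
  have h4 := ddc_cmp hh h3
  have e2 : ddc (fun z => t ik.1 z + (((ik.2 : ℕ) : ℤ) : ℝ) + f (B.ψ ik.1 z)) z =
      B.ddt (fun i z => t i z + f (B.ψ i z)) ik.1 z := by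
    rw [e1, C8_cst]
    rfl
  have e3 : fderiv ℝ (fun z => t ik.1 z + (((ik.2 : ℕ) : ℤ) : ℝ) + f (B.ψ ik.1 z)) z =
      fderiv ℝ (fun z => t ik.1 z + f (B.ψ ik.1 z)) z := by
    rw [e1]
    exact fderiv_add_const _
  rw [e2, e3, ← B.gr_eq ht' hz] at h4
  exact h1.trans h4

theorem denp_hf {w b : B.I → H → Bil H} (hw : B.Met w) (hb : B.IsT b) {h : ℝ → ℝ} (hh : ContDiff ℝ ∞ h)
    (hp : ∀ y, h (y + m) = h y) {f : X → ℝ} (hf : B.Sm f) {x : X} {y : ℝ} (hy : B.On t x y) :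
    (B.cv ht hm).denp (B.pb ht hm w) (B.pb ht hm b + (B.cv ht hm).dd (B.hf t m h f)) (B.cpt t m x y hy) =
      B.denp w (b + (deriv h (y + f x)) • B.ddt (fun i z => t i z + f (B.ψ i z)) +
        (deriv (deriv h) (y + f x)) • B.gr (fun i z => t i z + f (B.ψ i z))) x := by
  obtain ⟨i, z, hz1, rfl⟩ := B.cov x
  have hz : z ∈ qb e 4 := qb_mono (by norm_num) (by norm_num) hz1
  obtain ⟨k, rfl⟩ := (B.On_iff ht hz y).1 hy
  have ht' := ht.add B hf
  rw [B.cpt_cps t m hm i hz k hy]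
  have h1 : (B.cv ht hm).denp (B.pb ht hm w) (B.pb ht hm b + (B.cv ht hm).dd (B.hf t m h f))
      ((B.cv ht hm).ψ ((i, kf hm k) : B.I × Fin m) z) =
      pl e ((B.pb ht hm b + (B.cv ht hm).dd (B.hf t m h f)) ((i, kf hm k) : B.I × Fin m) z) /
        dt e (B.pb ht hm w ((i, kf hm k) : B.I × Fin m) z) :=
    (B.cv ht hm).denp_box (B.met_pb ht hm hw)
      ((B.cv ht hm).IsT_add (B.ist_pb ht hm hb) ((B.cv ht hm).IsT_dd (B.sm_hf ht hm hh hp hf))) hz
  have h2 := B.denp_box hw (B.IsT_add (B.IsT_add hb (B.IsT_smul (Per.IsT B ht') (deriv h (t i z + k + f (B.ψ i z)))))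
    (B.IsT_smul (B.gr_T ht') (deriv (deriv h) (t i z + k + f (B.ψ i z))))) (i := i) hz
  obtain ⟨a, ha⟩ := kf_eq hm k
  have e1 : t i z + (k : ℝ) + f (B.ψ i z) =
      t i z + ((((kf hm k : Fin m) : ℕ) : ℤ) : ℝ) + f (B.ψ i z) + a * m := by
    have h3 : (k : ℝ) = ((((kf hm k : Fin m) : ℕ) : ℤ) : ℝ) + a * m := by
      exact_mod_cast congrArg (fun x : ℤ => (x : ℝ)) ha
    rw [h3]
    ring
  have e2 : deriv h (t i z + (k : ℝ) + f (B.ψ i z)) =
      deriv h (t i z + ((((kf hm k : Fin m) : ℕ) : ℤ) : ℝ) + f (B.ψ i z)) := by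
    rw [e1, C8_int (C8_deriv hp)]
  have e3 : deriv (deriv h) (t i z + (k : ℝ) + f (B.ψ i z)) =
      deriv (deriv h) (t i z + ((((kf hm k : Fin m) : ℕ) : ℤ) : ℝ) + f (B.ψ i z)) := by
    rw [e1, C8_int (C8_deriv (C8_deriv hp))]
  have e4 : (B.pb ht hm b + (B.cv ht hm).dd (B.hf t m h f)) ((i, kf hm k) : B.I × Fin m) z =
      (b + (deriv h (t i z + k + f (B.ψ i z))) • B.ddt (fun i z => t i z + f (B.ψ i z)) +
        (deriv (deriv h) (t i z + k + f (B.ψ i z))) • B.gr (fun i z => t i z + f (B.ψ i z))) i z := by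
    have h5 := B.dd_hf ht hm hh hp hf (i, kf hm k) hz
    show b i z + (B.cv ht hm).dd (B.hf t m h f) ((i, kf hm k) : B.I × Fin m) z =
      b i z + (deriv h (t i z + k + f (B.ψ i z))) • B.ddt (fun i z => t i z + f (B.ψ i z)) i z +
        (deriv (deriv h) (t i z + k + f (B.ψ i z))) • B.gr (fun i z => t i z + f (B.ψ i z)) i z
    rw [h5, e2, e3]
    exact (add_assoc (b i z) _ _).symm
  rw [e4] at h1
  exact h1.trans h2.symm

end BM

end HDG
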