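import Pool.Agent.HDG.C4
import Pool.Agent.HDG.C5

/-!
# HDG/C9: densities on the covering

The densities of pulled back tensors on the covering are those on `X` (`den_pb`, `denp_pb`: `den_box` of G4 for both
manifolds); `gd_fn` translates smoothness and positivity on the covering into the language of DDefs.
-/

set_option autoImplicit false

noncomputable section

open scoped ContDiff Topology ENNReal

open MeasureTheory

namespace HDG

open Pool.Agent.FBR

variable {H : Type*} [NormedAddCommGroup H] [NormedSpace ℂ H] [FiniteDimensional ℂ H] {n : ℕ}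
  {e : Module.Basis (Fin n) ℂ H} {X : Type*} [TopologicalSpace X]

namespace BM

variable (B : BM e X) {t : B.I → H → ℝ} {m : ℕ} (ht : B.Per t) (hm : 0 < m)

private theorem C9_pr (ik : B.I × Fin m) {z : H} (hz : z ∈ qb e 4) : B.pr t m (B.cps t m ik z) = B.ψ ik.1 z := by
  rw [B.cps_eq t m ik hz, B.pr_cpt]

theorem den_pb {w a : B.I → H → Bil H} (hw : B.Met w) (ha : B.IsT a) (p : B.Cv t m) :
    (B.cv ht hm).den (B.pb ht hm w) (B.pb ht hm a) p = B.den w a (B.pr t m p) := by
  obtain ⟨ik, z, hz, rfl⟩ := B.cps_cov ht hm p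
  have hz4 : z ∈ qb e 4 := qb_mono (by norm_num) (by norm_num) hz
  rw [B.C9_pr ik hz4, B.den_box hw ha hz4]
  exact (B.cv ht hm).den_box (B.met_pb ht hm hw) (B.ist_pb ht hm ha) (i := ik) hz4

theorem denp_pb {w a : B.I → H → Bil H} (hw : B.Met w) (ha : B.IsT a) (p : B.Cv t m) :
    (B.cv ht hm).denp (B.pb ht hm w) (B.pb ht hm a) p = B.denp w a (B.pr t m p) := by
  obtain ⟨ik, z, hz, rfl⟩ := B.cps_cov ht hm p
  have hz4 : z ∈ qb e 4 := qb_mono (by norm_num) (by norm_num) hz
  rw [B.C9_pr ik hz4, B.denp_box hw ha hz4]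
  exact (B.cv ht hm).denp_box (B.met_pb ht hm hw) (B.ist_pb ht hm ha) (i := ik) hz4

/-- positivity and smoothness, read in `x` and `y` -/
theorem gd_fn {b w : B.I → H → Bil H} {ε : ℝ} {Φ : B.Cv t m → ℝ} (hΦ : (B.cv ht hm).Sm Φ)
    (h : (B.cv ht hm).NnT (B.pb ht hm b + (B.cv ht hm).dd Φ + ε • B.pb ht hm w)) :
    B.Gd t w b Set.univ ε (B.fn t m Φ) where
  sm := fun i k z hz _ => (B.sm_fn ht hm hΦ i k).contDiffAt ((isOpen_qb e 4).mem_nhds hz)
  nn := fun i k z hz _ => by
    have h1 := h (i, kf hm k) z hz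
    have h2 : ddc (B.lf t (B.fn t m Φ) i k) z = (B.cv ht hm).dd Φ (i, kf hm k) z := B.dd_fn ht hm Φ i k hz
    rw [h2]
    exact h1

end BM

end HDG
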