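import Pool.Agent.HDG.DDefs

/-!
# HDG/D1: a chain argument for sequences of integers

A sequence which takes larger and larger values at steps of length at most `J` has to pass every `l`; it passes it at a
distance of at most `J`.
-/

set_option autoImplicit false

noncomputable section

open scoped ContDiff Topology

open MeasureTheory

namespace HDG

open Pool.Agent.FBR

private lemma D1_step {b : ℤ → ℝ} {L : ℝ} (hb : ∀ k, |b (k + 1) - b k| ≤ L) (l : ℤ) (m : ℕ) :
    b (l + m) - b l ≤ m * L := by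
  induction m with
  | zero => simp
  | succ m ih =>
      have h1 := (abs_le.mp (hb (l + m))).2
      have h2 : l + ((m + 1 : ℕ) : ℤ) = l + m + 1 := by
        push_cast
        ring
      rw [h2]
      push_cast
      linarith

theorem chain_int {b : ℤ → ℝ} {J : ℕ} {L : ℝ} (hL : 0 ≤ L) (hJ : ∀ k, ∃ j : ℤ, |j| ≤ J ∧ b k + 1 ≤ b (k + j))
    (hb : ∀ k, |b (k + 1) - b k| ≤ L) (hbd : ∀ l : ℤ, ∃ M : ℝ, ∀ k ≤ l, b k ≤ M) {k l : ℤ} (hkl : k ≤ l) :
    b k - J * L ≤ b l := by
  choose f hf1 hf2 using hJ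
  obtain ⟨K, hK⟩ : ∃ K : ℕ → ℤ, K = fun i => (fun x => x + f x)^[i] k := ⟨_, rfl⟩
  have hK0 : K 0 = k := by
    rw [hK]
    rfl
  have hKs : ∀ i, K (i + 1) = K i + f (K i) := by
    intro i
    rw [hK]
    simp only [Function.iterate_succ_apply']
  have hKb : ∀ i : ℕ, b k + i ≤ b (K i) := by
    intro i
    induction i with
    | zero =>
        rw [hK0]
        simp
    | succ i ih =>
        have h1 := hf2 (K i)
        rw [hKs]
        push_cast
        linarith
  have hex : ∃ i, l < K i := by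
    by_contra hcon
    push Not at hcon
    obtain ⟨M, hM⟩ := hbd l
    obtain ⟨i, hi⟩ := exists_nat_gt (M - b k)
    have h1 := hKb i
    have h2 := hM (K i) (hcon i)
    linarith
  classical
  have h1 := Nat.find_spec hex
  obtain ⟨i, hi⟩ : ∃ i, Nat.find hex = i := ⟨_, rfl⟩
  rw [hi] at h1
  rcases i with _ | i
  · rw [hK0] at h1
    exact absurd hkl (not_le.mpr h1)
  · have h2 : K i ≤ l := by
      have h3 := Nat.find_min hex (m := i) (by omega)
      exact not_lt.mp h3
    have h4 := (abs_le.mp (hf1 (K i))).2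
    rw [hKs] at h1
    obtain ⟨m, hm⟩ : ∃ m : ℕ, K i + f (K i) = l + m := by
      refine ⟨(K i + f (K i) - l).toNat, ?_⟩
      rw [Int.toNat_of_nonneg (by omega)]
      ring
    have h5 : m ≤ J := by omega
    have h6 := D1_step hb l m
    have h7 := hKb (i + 1)
    rw [hKs, hm] at h7
    have h8 : (m : ℝ) * L ≤ J * L := mul_le_mul_of_nonneg_right (by exact_mod_cast h5) hL
    have h9 : (0 : ℝ) ≤ ((i + 1 : ℕ) : ℝ) := Nat.cast_nonneg _
    linarith

end HDG
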