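import Pool.Agent.HDG.D0
import Pool.Agent.HDG.D1

/-!
# HDG/D2: the slope lemma

If `P(s)` fails for some `s < 0`, then for every function `F` on the covering with `b + dd^c F ≥ - ε w` and bounded differences the
suprema of `F` over the fundamental domains fall at most with the slope `s`, up to a constant.
-/

set_option autoImplicit false

noncomputable section

open scoped ContDiff Topology

open MeasureTheory

namespace HDG

open Pool.Agent.FBR

variable {H : Type*} [NormedAddCommGroup H] [NormedSpace ℂ H] {n : ℕ} {e : Module.Basis (Fin n) ℂ H}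
  [FiniteDimensional ℂ H] {X : Type*} [TopologicalSpace X] (B : BM e X) {t : B.I → H → ℝ}
  {w b : B.I → H → Bil H}

namespace BM

theorem le_top {F : X → ℝ → ℝ} (hF : B.Bd t F) {x : X} {y : ℝ} (h : B.On t x y) {k : ℤ} (h1 : (k : ℝ) ≤ y)
    (h2 : y ≤ k + 1) : F x y ≤ B.top t F k := by
  obtain ⟨M, hM⟩ := hF
  refine le_csSup ⟨M, ?_⟩ ⟨x, y, h, h1, h2, rfl⟩
  rintro r ⟨x', y', h', -, -, rfl⟩
  exact (le_abs_self _).trans (hM x' y' h')

theorem top_le [Nonempty X] (ht : B.Per t) {F : X → ℝ → ℝ} {k : ℤ} {M : ℝ}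
    (h : ∀ x y, B.On t x y → (k : ℝ) ≤ y → y ≤ k + 1 → F x y ≤ M) : B.top t F k ≤ M := by
  obtain ⟨x⟩ := ‹Nonempty X›
  obtain ⟨h1, h2, h3⟩ := B.exists_On_level ht x k
  refine csSup_le ⟨_, x, _, h1, h2, h3.le, rfl⟩ ?_
  rintro r ⟨x', y', h', h4, h5, rfl⟩
  exact h x' y' h' h4 h5

theorem top_lip [Nonempty X] (ht : B.Per t) {F : X → ℝ → ℝ} (hF : B.Bd t F) {σ : ℝ}
    (h : ∀ x y, B.On t x y → |F x (y + 1) - F x y| ≤ σ) (k : ℤ) : |B.top t F (k + 1) - B.top t F k| ≤ σ := by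
  rw [abs_sub_le_iff]
  constructor
  · have h1 : B.top t F (k + 1) ≤ B.top t F k + σ := by
      refine B.top_le ht fun x y hxy h1 h2 => ?_
      push_cast at h1 h2
      have h3 : B.On t x (y + ((-1 : ℤ) : ℝ)) := B.On_add hxy (-1)
      push_cast at h3
      have h4 := B.le_top hF h3 (k := k) (by linarith) (by linarith)
      have h5 := h x (y + -1) h3
      rw [show y + -1 + 1 = y by ring] at h5
      have h6 := (abs_le.1 h5).2
      linarith
    linarith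
  · have h1 : B.top t F k ≤ B.top t F (k + 1) + σ := by
      refine B.top_le ht fun x y hxy h1 h2 => ?_
      have h3 : B.On t x (y + ((1 : ℤ) : ℝ)) := B.On_add hxy 1
      push_cast at h3
      have h4 := B.le_top hF h3 (k := k + 1) (by push_cast; linarith) (by push_cast; linarith)
      have h5 := (abs_le.1 (h x y hxy)).1
      linarith
    linarith

theorem slope [Nonempty X] (ht : B.Per t) (hw : B.Met w) {s : ℝ} (hs : s < 0) (hP : ¬ B.PP t w b s) :
    ∃ ε : ℝ, 0 < ε ∧ ∀ σ : ℝ, 0 ≤ σ → ∃ C : ℝ, 0 ≤ C ∧ ∀ (F : X → ℝ → ℝ), B.Gd t w b Set.univ ε F → B.Bd t F →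
      (∀ x y, B.On t x y → |F x (y + 1) - F x y| ≤ σ) →
      ∀ k l : ℤ, k ≤ l → B.top t F k + s * (l - k) - C ≤ B.top t F l := by
  unfold PP at hP
  push Not at hP
  obtain ⟨R, ε, hR, hε, hP⟩ := hP
  refine ⟨ε, hε, fun σ hσ => ?_⟩
  have hs' : |s| = -s := abs_of_neg hs
  have hL : 0 ≤ σ + |s| := by positivity
  refine ⟨((⌈R⌉₊ + 2 : ℕ) : ℝ) * (σ + |s|), by positivity, fun F hG hF hF1 k l hkl => ?_⟩
  have hJ : ∀ k : ℤ, ∃ j : ℤ, |j| ≤ ((⌈R⌉₊ + 2 : ℕ) : ℤ) ∧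
      (B.top t F k - s * k) + 1 ≤ B.top t F (k + j) - s * ((k + j : ℤ) : ℝ) := by
    intro k
    by_contra hcon
    push Not at hcon
    have hG' := B.Gd_shift hG k (-(B.top t F k + |s| + 1))
    have h1 := hP _ (B.Gd_mono hG' hw (Set.subset_univ _) le_rfl) (by
      intro x y hxy hy
      obtain ⟨hy1, hy2⟩ := abs_lt.1 hy
      have f1 : ((⌊y⌋ : ℤ) : ℝ) ≤ y := Int.floor_le y
      have f2 : y < ((⌊y⌋ : ℤ) : ℝ) + 1 := Int.lt_floor_add_one y
      have f3 : R ≤ (⌈R⌉₊ : ℝ) := Nat.le_ceil R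
      have f4 : |⌊y⌋| ≤ ((⌈R⌉₊ + 2 : ℕ) : ℤ) := by
        rw [abs_le]
        constructor
        · have h8 : ((-((⌈R⌉₊ + 2 : ℕ) : ℤ) : ℤ) : ℝ) ≤ ((⌊y⌋ : ℤ) : ℝ) := by
            push_cast
            linarith
          exact_mod_cast h8
        · have h8 : ((⌊y⌋ : ℤ) : ℝ) ≤ (((⌈R⌉₊ + 2 : ℕ) : ℤ) : ℝ) := by
            push_cast
            linarith
          exact_mod_cast h8
      have h2 := hcon ⌊y⌋ f4
      push_cast at h2
      have h3 := B.le_top hF (B.On_add hxy k) (k := k + ⌊y⌋) (by push_cast; linarith)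
        (by push_cast; linarith)
      have h4 : s * (((⌊y⌋ : ℤ) : ℝ) + 1) ≤ s * y := mul_le_mul_of_nonpos_left f2.le hs.le
      have h5 : s * ((k : ℝ) + ((⌊y⌋ : ℤ) : ℝ)) = s * k + s * ((⌊y⌋ : ℤ) : ℝ) := by ring
      have h6 : s * (((⌊y⌋ : ℤ) : ℝ) + 1) = s * ((⌊y⌋ : ℤ) : ℝ) + s := by ring
      linarith)
    have hne : {r | ∃ x y, B.On t x y ∧ (k : ℝ) ≤ y ∧ y ≤ k + 1 ∧ F x y = r}.Nonempty := by
      obtain ⟨x⟩ := ‹Nonempty X›
      obtain ⟨h1, h2, h3⟩ := B.exists_On_level ht x k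
      exact ⟨_, x, _, h1, h2, h3.le, rfl⟩
    obtain ⟨r, ⟨x, y, hxy, h2, h3, rfl⟩, h4⟩ := exists_lt_of_lt_csSup hne
      (show B.top t F k - 1 < B.top t F k by linarith)
    have h5 := B.On_add hxy (-k)
    have h6 := h1 x (y + ((-k : ℤ) : ℝ)) h5 (by
      push_cast
      rw [abs_le]
      constructor <;> linarith)
    have h7 : y + ((-k : ℤ) : ℝ) + (k : ℝ) = y := by
      push_cast
      ring
    rw [h7] at h6
    linarith
  have hb : ∀ k : ℤ, |(B.top t F (k + 1) - s * ((k + 1 : ℤ) : ℝ)) - (B.top t F k - s * (k : ℝ))| ≤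
      σ + |s| := by
    intro k
    have h1 := B.top_lip ht hF hF1 k
    have h2 : (B.top t F (k + 1) - s * ((k + 1 : ℤ) : ℝ)) - (B.top t F k - s * (k : ℝ)) =
        (B.top t F (k + 1) - B.top t F k) - s := by
      push_cast
      ring
    rw [h2]
    exact (abs_sub _ _).trans (by linarith)
  obtain ⟨M, hM⟩ := hF
  have hM' : ∀ k : ℤ, B.top t F k ≤ M := fun k =>
    B.top_le ht fun x y hxy _ _ => (le_abs_self _).trans (hM x y hxy)
  have h9 := chain_int (b := fun k : ℤ => B.top t F k - s * (k : ℝ)) hL hJ hb (by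
    intro l
    refine ⟨M + -s * l, fun k hk => ?_⟩
    have h1 : (k : ℝ) ≤ (l : ℝ) := by exact_mod_cast hk
    have h2 : -s * (k : ℝ) ≤ -s * l := mul_le_mul_of_nonneg_left h1 (by linarith)
    have h3 := hM' k
    show B.top t F k - s * (k : ℝ) ≤ M + -s * l
    linarith) hkl
  have h10 : B.top t F k - s * (k : ℝ) - ((⌈R⌉₊ + 2 : ℕ) : ℝ) * (σ + |s|) ≤ B.top t F l - s * (l : ℝ) := h9
  linarith

end BM

end HDG
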