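import Pool.Agent.HDG.D2

/-!
# HDG/D3: reflection of the covering

The reflection `y ↦ -y` maps the covering of `t` to the covering of `-t`. The functions `fun x y => F x (-y)` have the same properties over `-t` as the
functions `F` over `t`, and `slope'` is `slope` for `-t` and `-s < 0`.
-/

set_option autoImplicit false

noncomputable section

open scoped ContDiff Topology

open MeasureTheory

namespace HDG

open Pool.Agent.FBR

variable {H : Type*} [NormedAddCommGroup H] [NormedSpace ℂ H] {n : ℕ} {e : Module.Basis (Fin n) ℂ H}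
  [FiniteDimensional ℂ H] {X : Type*} [TopologicalSpace X] (B : BM e X) {t : B.I → H → ℝ}
  {w b : B.I → H → Bil H}

namespace BM

theorem On_neg {x : X} {y : ℝ} : B.On (fun i z => - t i z) x y ↔ B.On t x (-y) := by
  constructor
  · rintro ⟨i, z, hz, k, hx, hy⟩
    refine ⟨i, z, hz, -k, hx, ?_⟩
    push_cast
    rw [← hy]
    ring
  · rintro ⟨i, z, hz, k, hx, hy⟩
    refine ⟨i, z, hz, -k, hx, ?_⟩
    push_cast
    linarith

private theorem D3_lf {F : X → ℝ → ℝ} (i : B.I) (k : ℤ) :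
    B.lf (fun i z => - t i z) (fun x y => F x (-y)) i k = B.lf t F i (-k) := by
  funext z
  show F (B.ψ i z) (-(- t i z + (k : ℝ))) = F (B.ψ i z) (t i z + ((-k : ℤ) : ℝ))
  have h : -(- t i z + (k : ℝ)) = t i z + ((-k : ℤ) : ℝ) := by
    push_cast
    ring
  rw [h]

theorem Gd_neg {F : X → ℝ → ℝ} {S : Set ℝ} {ε : ℝ} (h : B.Gd t w b S ε F) :
    B.Gd (fun i z => - t i z) w b {y | -y ∈ S} ε fun x y => F x (-y) := by
  have key : ∀ (i : B.I) (k : ℤ) (z : H), - t i z + (k : ℝ) ∈ {y : ℝ | -y ∈ S} →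
      t i z + ((-k : ℤ) : ℝ) ∈ S := by
    intro i k z hS
    have hS' : -(- t i z + (k : ℝ)) ∈ S := hS
    have he : t i z + ((-k : ℤ) : ℝ) = -(- t i z + (k : ℝ)) := by
      push_cast
      ring
    rw [he]
    exact hS'
  refine ⟨fun i k z hz hS => ?_, fun i k z hz hS => ?_⟩
  · rw [D3_lf]
    exact h.sm i (-k) z hz (key i k z hS)
  · rw [D3_lf]
    exact h.nn i (-k) z hz (key i k z hS)

theorem PP_neg {s : ℝ} (h : B.PP t w b s) : B.PP (fun i z => - t i z) w b (-s) := by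
  intro R ε hR hε
  obtain ⟨F, hG, hle, x, y, hon, hy, hF⟩ := h R ε hR hε
  refine ⟨fun x y => F x (-y), ?_, ?_, x, -y, ?_, ?_, ?_⟩
  · have hS : {y : ℝ | -y ∈ Set.Ioo (-R) R} = Set.Ioo (-R) R := by
      ext y
      constructor
      · rintro ⟨h1, h2⟩
        exact ⟨by linarith, by linarith⟩
      · rintro ⟨h1, h2⟩
        exact ⟨by linarith, by linarith⟩
    have hN := B.Gd_neg hG
    rw [hS] at hN
    exact hN
  · intro x' y' hon' hy'
    have h1 := hle x' (-y') ((B.On_neg).1 hon') (by rw [abs_neg]; exact hy')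
    linarith
  · refine (B.On_neg).2 ?_
    rw [neg_neg]
    exact hon
  · rw [abs_neg]
    exact hy
  · show -|(-s)| - 3 ≤ F x (- -y)
    rw [neg_neg, abs_neg]
    exact hF

theorem PP_neg_iff {s : ℝ} : B.PP (fun i z => - t i z) w b s ↔ B.PP t w b (-s) := by
  constructor
  · intro h
    have h1 := B.PP_neg h
    have h2 : (fun (i : B.I) (z : H) => - (fun (i : B.I) (z : H) => - t i z) i z) = t := by
      funext i z
      exact neg_neg _
    rw [h2] at h1
    exact h1
  · intro h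
    have h1 := B.PP_neg h
    rw [neg_neg] at h1
    exact h1

private theorem D3_top {F : X → ℝ → ℝ} (k : ℤ) :
    B.top (fun i z => - t i z) (fun x y => F x (-y)) (-k - 1) = B.top t F k := by
  have h : {r : ℝ | ∃ x y, B.On (fun i z => - t i z) x y ∧ ((-k - 1 : ℤ) : ℝ) ≤ y ∧
      y ≤ ((-k - 1 : ℤ) : ℝ) + 1 ∧ F x (-y) = r} =
      {r : ℝ | ∃ x y, B.On t x y ∧ (k : ℝ) ≤ y ∧ y ≤ (k : ℝ) + 1 ∧ F x y = r} := by
    ext r
    constructor
    · rintro ⟨x, y, hon, h1, h2, h3⟩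
      push_cast at h1 h2
      exact ⟨x, -y, (B.On_neg).1 hon, by linarith, by linarith, h3⟩
    · rintro ⟨x, y, hon, h1, h2, h3⟩
      refine ⟨x, -y, (B.On_neg).2 (by rw [neg_neg]; exact hon), ?_, ?_, ?_⟩
      · push_cast
        linarith
      · push_cast
        linarith
      · rw [neg_neg]
        exact h3
  exact congrArg sSup h

theorem slope' [Nonempty X] (ht : B.Per t) (hw : B.Met w) {s : ℝ} (hs : 0 < s) (hP : ¬ B.PP t w b s) :
    ∃ ε : ℝ, 0 < ε ∧ ∀ σ : ℝ, 0 ≤ σ → ∃ C : ℝ, 0 ≤ C ∧ ∀ (F : X → ℝ → ℝ), B.Gd t w b Set.univ ε F → B.Bd t F →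
      (∀ x y, B.On t x y → |F x (y + 1) - F x y| ≤ σ) →
      ∀ k l : ℤ, k ≤ l → B.top t F l ≤ B.top t F k + s * (l - k) + C := by
  have hP' : ¬ B.PP (fun i z => - t i z) w b (-s) := by
    intro h
    apply hP
    have h1 := (B.PP_neg_iff).1 h
    rw [neg_neg] at h1
    exact h1
  obtain ⟨ε, hε, hH⟩ := B.slope (Per.neg B ht) hw (by linarith : -s < 0) hP'
  refine ⟨ε, hε, fun σ hσ => ?_⟩
  obtain ⟨C, hC, hHF⟩ := hH σ hσ
  refine ⟨C, hC, fun F hG hB hL k l hkl => ?_⟩
  have hS : {y : ℝ | -y ∈ (Set.univ : Set ℝ)} = Set.univ := by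
    ext y
    simp
  have hG' : B.Gd (fun i z => - t i z) w b Set.univ ε (fun x y => F x (-y)) := by
    have hN := B.Gd_neg hG
    rw [hS] at hN
    exact hN
  have hB' : B.Bd (fun i z => - t i z) (fun x y => F x (-y)) := by
    obtain ⟨M, hM⟩ := hB
    exact ⟨M, fun x y hon => hM x (-y) ((B.On_neg).1 hon)⟩
  have hL' : ∀ x y, B.On (fun i z => - t i z) x y →
      |(fun (x : X) (y : ℝ) => F x (-y)) x (y + 1) - (fun (x : X) (y : ℝ) => F x (-y)) x y| ≤ σ := by
    intro x y hon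
    have hon' : B.On t x (-y + ((-1 : ℤ) : ℝ)) := B.On_add ((B.On_neg).1 hon) (-1)
    have h1 := hL x _ hon'
    have e1 : -y + ((-1 : ℤ) : ℝ) + 1 = -y := by
      push_cast
      ring
    have e2 : -y + ((-1 : ℤ) : ℝ) = -(y + 1) := by
      push_cast
      ring
    rw [e1, e2, abs_sub_comm] at h1
    exact h1
  have hfin := hHF (fun x y => F x (-y)) hG' hB' hL' (-l - 1) (-k - 1) (by omega)
  rw [B.D3_top, B.D3_top] at hfin
  push_cast at hfin
  linarith

end BM

end HDG
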