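import Pool.Agent.HDG.RM
import Pool.Agent.HDG.LA1

/-!
# HDG/RMd: `dd^c` of the regularised maximum

`dd^c` of the regularised maximum of two functions is at least a convex combination of their `dd^c`; semi-positivity of
`c + dd^c` is preserved by the regularised maximum of a list of functions.
-/

set_option autoImplicit false

noncomputable section

open scoped ContDiff

namespace HDG

open Pool.Agent.FBR

variable {H : Type*} [NormedAddCommGroup H] [NormedSpace ℂ H] {δ : ℝ}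

private lemma RMd_ev {φ : H → ℝ} {q : H} (hφ : ContDiffAt ℝ 2 φ q) :
    ∀ᶠ x in nhds q, DifferentiableAt ℝ φ x := by
  have h := hφ.eventually (by simp)
  filter_upwards [h] with x hx
  exact hx.differentiableAt (by norm_num)

private lemma RMd_d1 {φ : H → ℝ} {q : H} (hφ : ContDiffAt ℝ 2 φ q) :
    DifferentiableAt ℝ (fderiv ℝ φ) q := by
  have h : ContDiffAt ℝ 1 (fderiv ℝ φ) q := hφ.fderiv_right (by norm_num)
  exact h.differentiableAt (by norm_num)

private lemma RMd_comp2 {k : H → ℝ} {q : H} (hk : ContDiffAt ℝ 2 k q) (a b : H) :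
    fderiv ℝ (fderiv ℝ (fun z => th (k z))) q a b =
      deriv (deriv th) (k q) * (fderiv ℝ k q a * fderiv ℝ k q b)
      + deriv th (k q) * fderiv ℝ (fderiv ℝ k) q a b := by
  have hth : Differentiable ℝ th := th_spec.1.differentiable (by simp)
  have hth2 : ContDiff ℝ ∞ (deriv th) := by
    have h := th_spec.1
    rw [contDiff_infty_iff_deriv] at h
    exact h.2
  have hth3 : Differentiable ℝ (deriv th) := hth2.differentiable (by simp)
  have h1 : fderiv ℝ (fun z => th (k z)) =ᶠ[nhds q] fun x => deriv th (k x) • fderiv ℝ k x := by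
    filter_upwards [RMd_ev hk] with x hx
    have h2 : HasFDerivAt (fun z => th (k z)) (deriv th (k x) • fderiv ℝ k x) x :=
      (hth (k x)).hasDerivAt.comp_hasFDerivAt x hx.hasFDerivAt
    exact h2.fderiv
  have hkd := (RMd_ev hk).self_of_nhds.hasFDerivAt
  have h2 : HasFDerivAt (fun x => deriv th (k x)) (deriv (deriv th) (k q) • fderiv ℝ k q) q :=
    (hth3 (k q)).hasDerivAt.comp_hasFDerivAt q hkd
  have h3 : HasFDerivAt (fun x => deriv th (k x) • fderiv ℝ k x) _ q := h2.smul (RMd_d1 hk).hasFDerivAt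
  rw [h1.fderiv_eq, h3.fderiv]
  simp only [add_apply, smul_apply, ContinuousLinearMap.smulRight_apply, smul_eq_mul]
  ring

private lemma RMd_th_one {t : ℝ} (ht : 1 ≤ t) : deriv th t = 1 := by
  have hth : Differentiable ℝ th := th_spec.1.differentiable (by simp)
  have h0 : ∀ x ∈ Set.Ici t, th x = x := by
    intro x hx
    have hx' : t ≤ x := hx
    have h1 : |x| = x := abs_of_nonneg (by linarith)
    rw [th_spec.2.2.2.1 x (by rw [h1]; linarith), h1]
  have h1 : HasDerivWithinAt th (deriv th t) (Set.Ici t) t := (hth t).hasDerivAt.hasDerivWithinAt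
  have h2 : HasDerivWithinAt th 1 (Set.Ici t) t :=
    (hasDerivWithinAt_id t (Set.Ici t)).congr h0 (h0 t Set.self_mem_Ici)
  exact (uniqueDiffOn_Ici t t Set.self_mem_Ici).eq_deriv _ h1 h2

private lemma RMd_th_neg {t : ℝ} (ht : t ≤ -1) : deriv th t = -1 := by
  have hth : Differentiable ℝ th := th_spec.1.differentiable (by simp)
  have h0 : ∀ x ∈ Set.Iic t, th x = -x := by
    intro x hx
    have hx' : x ≤ t := hx
    have h1 : |x| = -x := abs_of_nonpos (by linarith)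
    rw [th_spec.2.2.2.1 x (by rw [h1]; linarith), h1]
  have h1 : HasDerivWithinAt th (deriv th t) (Set.Iic t) t := (hth t).hasDerivAt.hasDerivWithinAt
  have h2 : HasDerivWithinAt th (-1) (Set.Iic t) t :=
    (hasDerivWithinAt_id t (Set.Iic t)).neg.congr h0 (h0 t Set.self_mem_Iic)
  exact (uniqueDiffOn_Iic t t Set.self_mem_Iic).eq_deriv _ h1 h2

private lemma RMd_two {u : H → ℝ} {z : H} (hu : ContDiffAt ℝ ∞ u z) : ContDiffAt ℝ 2 u z :=
  hu.of_le (by norm_cast)

private lemma RMd_formula (hδ : 0 < δ) {u v : H → ℝ} {z : H} (hu : ContDiffAt ℝ ∞ u z)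
    (hv : ContDiffAt ℝ ∞ v z) (ξ : H) :
    ddc (fun z => rm δ (u z) (v z)) z ξ (Complex.I • ξ) =
      (1 + deriv th ((u z - v z) / δ)) / 2 * ddc u z ξ (Complex.I • ξ) +
      (1 - deriv th ((u z - v z) / δ)) / 2 * ddc v z ξ (Complex.I • ξ) +
      δ / 4 * deriv (deriv th) ((u z - v z) / δ) *
        (fderiv ℝ (fun z => δ⁻¹ * u z + -δ⁻¹ * v z) z ξ ^ 2 +
          fderiv ℝ (fun z => δ⁻¹ * u z + -δ⁻¹ * v z) z (Complex.I • ξ) ^ 2) := by
  have hu2 := RMd_two hu
  have hv2 := RMd_two hv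
  have hw0 : ContDiffAt ℝ 2 (fun z => δ⁻¹ * u z) z := contDiffAt_const.mul hu2
  have hw1 : ContDiffAt ℝ 2 (fun z => -δ⁻¹ * v z) z := contDiffAt_const.mul hv2
  have hw : ContDiffAt ℝ 2 (fun z => δ⁻¹ * u z + -δ⁻¹ * v z) z := hw0.add hw1
  have hth : ContDiffAt ℝ 2 (fun z => th (δ⁻¹ * u z + -δ⁻¹ * v z)) z := by
    have h := th_spec.1.of_le (m := 2) (by norm_cast)
    exact h.contDiffAt.comp z hw
  have hFe : (fun z => rm δ (u z) (v z)) = fun z => ((1 / 2 : ℝ) * u z + (1 / 2 : ℝ) * v z) +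
      (δ / 2) * th (δ⁻¹ * u z + -δ⁻¹ * v z) := by
    funext z
    have h : (u z - v z) / δ = δ⁻¹ * u z + -δ⁻¹ * v z := by
      field_simp
      ring
    unfold rm
    rw [h]
    ring
  have hwz : (u z - v z) / δ = δ⁻¹ * u z + -δ⁻¹ * v z := by
    field_simp
    ring
  have h1 : ContDiffAt ℝ 2 (fun z => (1 / 2 : ℝ) * u z) z := contDiffAt_const.mul hu2
  have h2 : ContDiffAt ℝ 2 (fun z => (1 / 2 : ℝ) * v z) z := contDiffAt_const.mul hv2
  have h3 : ContDiffAt ℝ 2 (fun z => (δ / 2) * th (δ⁻¹ * u z + -δ⁻¹ * v z)) z :=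
    contDiffAt_const.mul hth
  have hD : ddc (fun z => th (δ⁻¹ * u z + -δ⁻¹ * v z)) z ξ (Complex.I • ξ) =
      deriv (deriv th) ((u z - v z) / δ) / 2 *
        (fderiv ℝ (fun z => δ⁻¹ * u z + -δ⁻¹ * v z) z ξ ^ 2 +
          fderiv ℝ (fun z => δ⁻¹ * u z + -δ⁻¹ * v z) z (Complex.I • ξ) ^ 2) +
      deriv th ((u z - v z) / δ) * ddc (fun z => δ⁻¹ * u z + -δ⁻¹ * v z) z ξ (Complex.I • ξ) := by
    rw [ddc_self, ddc_self, RMd_comp2 hw, RMd_comp2 hw, hwz]
    ring
  rw [hFe, ddc_add (h1.add h2) h3, ddc_add h1 h2, ddc_smul _ hu2, ddc_smul _ hv2, ddc_smul _ hth]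
  simp only [add_apply, smul_apply, smul_eq_mul]
  rw [hD, ddc_add hw0 hw1, ddc_smul _ hu2, ddc_smul _ hv2]
  simp only [add_apply, smul_apply, smul_eq_mul]
  field_simp
  ring

theorem ddc_rm (hδ : 0 < δ) {u v : H → ℝ} {z : H} (hu : ContDiffAt ℝ ∞ u z) (hv : ContDiffAt ℝ ∞ v z) :
    ∃ l : ℝ, 0 ≤ l ∧ l ≤ 1 ∧ (v z + δ ≤ u z → l = 1) ∧ (u z + δ ≤ v z → l = 0) ∧
      ∀ ξ : H, l * ddc u z ξ (Complex.I • ξ) + (1 - l) * ddc v z ξ (Complex.I • ξ) ≤
        ddc (fun z => rm δ (u z) (v z)) z ξ (Complex.I • ξ) := by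
  have hb := abs_le.mp (th_spec.2.2.2.2.1 ((u z - v z) / δ))
  refine ⟨(1 + deriv th ((u z - v z) / δ)) / 2, by linarith [hb.1], by linarith [hb.2], ?_, ?_, ?_⟩
  · intro h
    rw [RMd_th_one (by rw [le_div_iff₀ hδ]; linarith)]
    norm_num
  · intro h
    rw [RMd_th_neg (by rw [div_le_iff₀ hδ]; linarith)]
    norm_num
  · intro ξ
    rw [RMd_formula hδ hu hv ξ]
    have h1 : 0 ≤ δ / 4 * deriv (deriv th) ((u z - v z) / δ) *
        (fderiv ℝ (fun z => δ⁻¹ * u z + -δ⁻¹ * v z) z ξ ^ 2 +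
          fderiv ℝ (fun z => δ⁻¹ * u z + -δ⁻¹ * v z) z (Complex.I • ξ) ^ 2) :=
      mul_nonneg (mul_nonneg (by positivity) (th_spec.2.2.2.2.2 _)) (by positivity)
    have h2 : 1 - (1 + deriv th ((u z - v z) / δ)) / 2 = (1 - deriv th ((u z - v z) / δ)) / 2 := by
      ring
    rw [h2]
    linarith

theorem rm_cd {u v : H → ℝ} {z : H} (hu : ContDiffAt ℝ ∞ u z) (hv : ContDiffAt ℝ ∞ v z) :
    ContDiffAt ℝ ∞ (fun z => rm δ (u z) (v z)) z := by
  exact ContDiffAt.comp (g := fun p : ℝ × ℝ => rm δ p.1 p.2) (f := fun z => (u z, v z)) z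
    (rm_smooth δ).contDiffAt (hu.prodMk hv)

theorem rml_cd {ι : Type*} (l : List ι) {a : H → ℝ} {f : ι → H → ℝ} {z : H} (ha : ContDiffAt ℝ ∞ a z)
    (hf : ∀ i ∈ l, ContDiffAt ℝ ∞ (f i) z) :
    ContDiffAt ℝ ∞ (fun z => rml δ (a z) (l.map fun i => f i z)) z := by
  induction l generalizing a with
  | nil => exact ha
  | cons i l ih =>
    have h1 : ContDiffAt ℝ ∞ (fun z => rm δ (a z) (f i z)) z := rm_cd ha (hf i List.mem_cons_self)
    exact ih h1 fun j hj => hf j (List.mem_cons_of_mem _ hj)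

theorem nn_rm (hδ : 0 < δ) {u v : H → ℝ} {z : H} (hu : ContDiffAt ℝ ∞ u z) (hv : ContDiffAt ℝ ∞ v z) {c : Bil H}
    (h : Nn (c + ddc u z)) (h' : Nn (c + ddc v z)) : Nn (c + ddc (fun z => rm δ (u z) (v z)) z) := by
  obtain ⟨l, hl0, hl1, -, -, hl⟩ := ddc_rm hδ hu hv
  intro ξ
  have h1 := h ξ
  have h2 := h' ξ
  simp only [add_apply] at h1 h2 ⊢
  have h3 := hl ξ
  have h4 := mul_nonneg hl0 h1
  have h5 := mul_nonneg (sub_nonneg.mpr hl1) h2
  nlinarith

theorem nn_rml (hδ : 0 < δ) {ι : Type*} (l : List ι) {a : H → ℝ} {f : ι → H → ℝ} {z : H} (ha : ContDiffAt ℝ ∞ a z)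
    (hf : ∀ i ∈ l, ContDiffAt ℝ ∞ (f i) z) {c : Bil H} (h : Nn (c + ddc a z))
    (h' : ∀ i ∈ l, Nn (c + ddc (f i) z)) :
    Nn (c + ddc (fun z => rml δ (a z) (l.map fun i => f i z)) z) := by
  induction l generalizing a with
  | nil => exact h
  | cons i l ih =>
    have h1 : ContDiffAt ℝ ∞ (fun z => rm δ (a z) (f i z)) z := rm_cd ha (hf i List.mem_cons_self)
    exact ih h1 (fun j hj => hf j (List.mem_cons_of_mem _ hj))
      (nn_rm hδ ha (hf i List.mem_cons_self) h (h' i List.mem_cons_self))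
      fun j hj => h' j (List.mem_cons_of_mem _ hj)

/-- if the value of the regularised maximum is larger than the base value by `(length + 1) δ`, the base function does not
contribute to `dd^c` -/
theorem nn_rml_act (hδ : 0 < δ) {ι : Type*} (l : List ι) {a : H → ℝ} {f : ι → H → ℝ} {z : H}
    (ha : ContDiffAt ℝ ∞ a z) (hf : ∀ i ∈ l, ContDiffAt ℝ ∞ (f i) z) {c : Bil H}
    (h' : ∀ i ∈ l, Nn (c + ddc (f i) z))
    (hz : a z + (l.length + 1) * δ ≤ rml δ (a z) (l.map fun i => f i z)) :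
    Nn (c + ddc (fun z => rml δ (a z) (l.map fun i => f i z)) z) := by
  induction l generalizing a with
  | nil =>
    exfalso
    have h1 : rml δ (a z) (([] : List ι).map fun i => f i z) = a z := rfl
    rw [h1] at hz
    simp only [List.length_nil, Nat.cast_zero] at hz
    linarith
  | cons i l ih =>
    have hi : ContDiffAt ℝ ∞ (f i) z := hf i List.mem_cons_self
    have h1 : ContDiffAt ℝ ∞ (fun z => rm δ (a z) (f i z)) z := rm_cd ha hi
    rcases le_or_gt (a z + δ) (f i z) with hc | hc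
    · refine nn_rml hδ l h1 (fun j hj => hf j (List.mem_cons_of_mem _ hj)) ?_
        fun j hj => h' j (List.mem_cons_of_mem _ hj)
      obtain ⟨t, -, -, -, ht, hl⟩ := ddc_rm hδ ha hi
      intro ξ
      have h2 := h' i List.mem_cons_self ξ
      simp only [add_apply] at h2 ⊢
      have h3 := hl ξ
      rw [ht hc] at h3
      linarith
    · refine ih h1 (fun j hj => hf j (List.mem_cons_of_mem _ hj))
        (fun j hj => h' j (List.mem_cons_of_mem _ hj)) ?_
      have h2 : rm δ (a z) (f i z) ≤ rm δ (a z) (a z + δ) := rm_mono hδ le_rfl hc.le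
      rw [rm_right hδ le_rfl] at h2
      have h3 : rml δ (a z) ((i :: l).map fun i => f i z) =
          rml δ (rm δ (a z) (f i z)) (l.map fun i => f i z) := rfl
      rw [h3] at hz
      simp only [List.length_cons, Nat.cast_add, Nat.cast_one] at hz
      linarith

end HDG
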