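import Pool.Agent.HDG.D0
import Pool.Agent.HDG.RMd

/-!
# HDG/D4: making functions Lipschitz along the covering

`Φ x y` is the regularised maximum of `F x y` and the functions `F x (y + j) - σ |j|`, `|j| ≤ m`, with the constant
`1 / (2 m + 2)`. The periodicity of `F` makes it Lipschitz along the covering.
-/

set_option autoImplicit false

noncomputable section

open scoped ContDiff Topology

open MeasureTheory

namespace HDG

open Pool.Agent.FBR

variable {H : Type*} [NormedAddCommGroup H] [NormedSpace ℂ H] {n : ℕ} {e : Module.Basis (Fin n) ℂ H}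
  [FiniteDimensional ℂ H] {X : Type*} [TopologicalSpace X] (B : BM e X) {t : B.I → H → ℝ}
  {w b : B.I → H → Bil H}

private def D4_L (m : ℕ) : List ℤ := (List.range (2 * m + 1)).map fun a : ℕ => (a : ℤ) - m

private theorem D4_mem {m : ℕ} {j : ℤ} : j ∈ D4_L m ↔ -(m : ℤ) ≤ j ∧ j ≤ m := by
  unfold D4_L
  rw [List.mem_map]
  constructor
  · rintro ⟨a, ha, rfl⟩
    rw [List.mem_range] at ha
    omega
  · rintro ⟨h1, h2⟩
    refine ⟨(j + m).toNat, ?_, ?_⟩
    · rw [List.mem_range]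
      omega
    · omega

private theorem D4_len (m : ℕ) : (D4_L m).length = 2 * m + 1 := by
  unfold D4_L
  rw [List.length_map, List.length_range]

private theorem D4_del (m : ℕ) : (0 : ℝ) < 1 / (2 * m + 2) ∧ ((2 * m + 1 : ℕ) : ℝ) * (1 / (2 * m + 2)) ≤ 1 := by
  have h : (0 : ℝ) < 2 * m + 2 := by positivity
  refine ⟨by positivity, ?_⟩
  push_cast
  rw [mul_one_div, div_le_one h]
  linarith

/-- the function -/
private def D4_Phi (m : ℕ) (σ : ℝ) (F : X → ℝ → ℝ) (x : X) (y : ℝ) : ℝ :=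
  rml (1 / (2 * m + 2)) (F x y) ((D4_L m).map fun j : ℤ => F x (y + j) + -(σ * |(j : ℝ)|))

private theorem D4_base (m : ℕ) (σ : ℝ) (F : X → ℝ → ℝ) (x : X) (y : ℝ) : F x y ≤ D4_Phi m σ F x y :=
  rml_base_le (D4_del m).1 _ _

private theorem D4_ge {m : ℕ} (σ : ℝ) (F : X → ℝ → ℝ) (x : X) (y : ℝ) {j : ℤ} (h1 : -(m : ℤ) ≤ j) (h2 : j ≤ m) :
    F x (y + j) - σ * |(j : ℝ)| ≤ D4_Phi m σ F x y := by
  have h3 : F x (y + j) + -(σ * |(j : ℝ)|) ∈
      (D4_L m).map fun j : ℤ => F x (y + j) + -(σ * |(j : ℝ)|) :=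
    List.mem_map.2 ⟨j, D4_mem.2 ⟨h1, h2⟩, rfl⟩
  have h4 := le_rml (D4_del m).1 (F x y) h3
  unfold D4_Phi
  linarith

private theorem D4_le {m : ℕ} {σ : ℝ} {F : X → ℝ → ℝ} {x : X} {y M : ℝ} (h0 : F x y ≤ M)
    (h : ∀ j : ℤ, -(m : ℤ) ≤ j → j ≤ m → F x (y + j) - σ * |(j : ℝ)| ≤ M) : D4_Phi m σ F x y ≤ M + 1 := by
  have h1 : D4_Phi m σ F x y ≤ M + ((D4_L m).map fun j : ℤ => F x (y + j) + -(σ * |(j : ℝ)|)).length *
      (1 / (2 * m + 2)) := by
    refine rml_le (D4_del m).1 h0 ?_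
    intro b hb
    obtain ⟨j, hj, rfl⟩ := List.mem_map.1 hb
    have h2 := D4_mem.1 hj
    have h3 := h j h2.1 h2.2
    linarith
  rw [List.length_map, D4_len] at h1
  have h2 := (D4_del m).2
  linarith

namespace BM

private theorem D4_h {σ : ℝ} {h : X → ℝ → ℝ}
    (hh : ∀ x y, B.On t x y → |h x (y + 1) - h x y| ≤ σ) {x : X} {y : ℝ} (hy : B.On t x y) (k : ℕ) :
    |h x (y + k) - h x y| ≤ σ * k := by
  induction k with
  | zero => simp
  | succ k ih =>
    have h1 := hh x (y + ((k : ℤ) : ℝ)) (B.On_add hy k)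
    have h2 : y + ((k : ℤ) : ℝ) = y + k := by push_cast; ring
    rw [h2] at h1
    have h3 : y + ((k + 1 : ℕ) : ℝ) = y + k + 1 := by push_cast; ring
    rw [h3]
    have h4 := abs_le.1 h1
    have h5 := abs_le.1 ih
    rw [abs_le]
    push_cast
    constructor <;> linarith [h4.1, h4.2, h5.1, h5.2]

private theorem D4_hZ {σ : ℝ} {h : X → ℝ → ℝ}
    (hh : ∀ x y, B.On t x y → |h x (y + 1) - h x y| ≤ σ) {x : X} {y : ℝ} (hy : B.On t x y) (j : ℤ) :
    h x (y + j) - σ * |(j : ℝ)| ≤ h x y := by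
  rcases le_total 0 j with hj | hj
  · obtain ⟨k, rfl⟩ := Int.eq_ofNat_of_zero_le hj
    have h1 := abs_le.1 (D4_h B hh hy k)
    have h2 : |((k : ℤ) : ℝ)| = k := by
      rw [Int.cast_natCast, Nat.abs_cast]
    rw [h2, Int.cast_natCast]
    linarith [h1.2]
  · obtain ⟨k, hk⟩ := Int.eq_ofNat_of_zero_le (neg_nonneg.2 hj)
    have hjk : j = -(k : ℤ) := by omega
    subst hjk
    have hy' := B.On_add hy (-(k : ℤ))
    have h1 := abs_le.1 (D4_h B hh hy' k)
    have h2 : |((-(k : ℤ) : ℤ) : ℝ)| = k := by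
      push_cast
      rw [abs_neg, Nat.abs_cast]
    have h3 : y + ((-(k : ℤ) : ℤ) : ℝ) + (k : ℝ) = y := by
      push_cast
      ring
    rw [h3] at h1
    rw [h2]
    linarith [h1.1]

theorem lip_max (ht : B.Per t) {m : ℕ} (hm : 0 < m) {σ ε : ℝ} (hσ : 0 ≤ σ) {F h : X → ℝ → ℝ}
    (hF : B.Gd t w b Set.univ ε F) (hP : B.Pd t m F) (hB : B.Bd t F) (hle : ∀ x y, B.On t x y → F x y ≤ h x y)
    (hh : ∀ x y, B.On t x y → |h x (y + 1) - h x y| ≤ σ) :
    ∃ Φ : X → ℝ → ℝ, B.Gd t w b Set.univ ε Φ ∧ B.Pd t m Φ ∧ B.Bd t Φ ∧ (∀ x y, B.On t x y → F x y ≤ Φ x y) ∧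
      (∀ x y, B.On t x y → Φ x y ≤ h x y + 1) ∧ ∀ x y, B.On t x y → |Φ x (y + 1) - Φ x y| ≤ σ + 1 := by
  obtain ⟨hδ, hδ1⟩ := D4_del m
  refine ⟨D4_Phi m σ F, ?_, ?_, ?_, fun x y _ => D4_base m σ F x y, ?_, ?_⟩
  · have hG : ∀ j : ℤ, B.Gd t w b Set.univ ε fun x y => F x (y + j) + -(σ * |(j : ℝ)|) :=
      fun j => B.Gd_shift hF j _
    constructor
    · intro i k z hz hS
      exact rml_cd (δ := 1 / (2 * m + 2)) (D4_L m) (a := B.lf t F i k)
        (f := fun j : ℤ => B.lf t (fun x y => F x (y + j) + -(σ * |(j : ℝ)|)) i k) (hF.sm i k z hz hS)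
        fun j _ => (hG j).sm i k z hz hS
    · intro i k z hz hS
      have h1 : ∀ f : H → ℝ, Nn (b i z + ddc f z + ε • w i z) → Nn ((b i z + ε • w i z) + ddc f z) := by
        intro f hf
        have h2 : (b i z + ε • w i z) + ddc f z = b i z + ddc f z + ε • w i z := by abel
        rw [h2]
        exact hf
      have h3 := nn_rml hδ (D4_L m) (a := B.lf t F i k)
        (f := fun j : ℤ => B.lf t (fun x y => F x (y + j) + -(σ * |(j : ℝ)|)) i k) (hF.sm i k z hz hS)
        (fun j _ => (hG j).sm i k z hz hS) (c := b i z + ε • w i z) (h1 _ (hF.nn i k z hz hS))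
        fun j _ => h1 _ ((hG j).nn i k z hz hS)
      have h4 : b i z + ddc (B.lf t (D4_Phi m σ F) i k) z + ε • w i z =
          (b i z + ε • w i z) + ddc (B.lf t (D4_Phi m σ F) i k) z := by abel
      rw [h4]
      exact h3
  · intro x y hy
    unfold D4_Phi
    rw [hP x y hy]
    congr 1
    refine List.map_congr_left fun j _ => ?_
    have h1 : y + (m : ℝ) + (j : ℝ) = y + j + m := by ring
    rw [h1, hP x (y + j) (B.On_add hy j)]
  · obtain ⟨M, hM⟩ := hB
    refine ⟨M + 1, fun x y hy => ?_⟩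
    have h1 := abs_le.1 (hM x y hy)
    have h2 := D4_base m σ F x y
    have h3 : D4_Phi m σ F x y ≤ M + 1 := by
      refine D4_le h1.2 fun j _ _ => ?_
      have h4 := (abs_le.1 (hM x (y + j) (B.On_add hy j))).2
      have h5 : 0 ≤ σ * |(j : ℝ)| := mul_nonneg hσ (abs_nonneg _)
      linarith
    rw [abs_le]
    constructor <;> linarith [h1.1]
  · intro x y hy
    refine D4_le (hle x y hy) fun j _ _ => ?_
    have h1 := hle x (y + j) (B.On_add hy j)
    have h2 := D4_hZ B hh hy j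
    linarith
  · intro x y hy
    have hy1 : B.On t x (y + 1) := by
      have h := B.On_add hy 1
      rwa [Int.cast_one] at h
    have hm1 : (1 : ℤ) ≤ m := by exact_mod_cast hm
    have habs : ∀ j : ℤ, |((j + 1 : ℤ) : ℝ)| ≤ |(j : ℝ)| + 1 := by
      intro j
      push_cast
      exact (abs_add_le _ _).trans (by rw [abs_one])
    have habs' : ∀ j : ℤ, |((j - 1 : ℤ) : ℝ)| ≤ |(j : ℝ)| + 1 := by
      intro j
      push_cast
      exact (abs_sub _ _).trans (by rw [abs_one])
    have hup : D4_Phi m σ F x (y + 1) ≤ D4_Phi m σ F x y + σ + 1 := by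
      have hb1 : F x (y + 1) ≤ D4_Phi m σ F x y + σ := by
        have h1 := D4_ge (m := m) σ F x y (j := 1) (by omega) hm1
        rw [Int.cast_one, abs_one, mul_one] at h1
        linarith
      refine D4_le hb1 fun j hj1 hj2 => ?_
      rcases lt_or_eq_of_le hj2 with hj | hj
      · have h1 := D4_ge (m := m) σ F x y (j := j + 1) (by omega) (by omega)
        have h2 : y + ((j + 1 : ℤ) : ℝ) = y + 1 + j := by push_cast; ring
        rw [h2] at h1
        have h3 := mul_le_mul_of_nonneg_left (habs j) hσ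
        linarith
      · have h1 : y + 1 + (j : ℝ) = y + 1 + m := by rw [hj, Int.cast_natCast]
        rw [h1, hP x (y + 1) hy1]
        have h5 : 0 ≤ σ * |(j : ℝ)| := mul_nonneg hσ (abs_nonneg _)
        linarith
    have hdown : D4_Phi m σ F x y ≤ D4_Phi m σ F x (y + 1) + σ + 1 := by
      have hb1 : F x y ≤ D4_Phi m σ F x (y + 1) + σ := by
        have h1 := D4_ge (m := m) σ F x (y + 1) (j := -1) (by omega) (by omega)
        have h2 : y + 1 + ((-1 : ℤ) : ℝ) = y := by push_cast; ring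
        have h3 : |((-1 : ℤ) : ℝ)| = 1 := by norm_num
        rw [h2, h3, mul_one] at h1
        linarith
      refine D4_le hb1 fun j hj1 hj2 => ?_
      rcases lt_or_eq_of_le hj1 with hj | hj
      · have h1 := D4_ge (m := m) σ F x (y + 1) (j := j - 1) (by omega) (by omega)
        have h2 : y + 1 + ((j - 1 : ℤ) : ℝ) = y + j := by push_cast; ring
        rw [h2] at h1
        have h3 := mul_le_mul_of_nonneg_left (habs' j) hσ
        linarith
      · have h0 : B.On t x (y + j) := B.On_add hy j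
        have h1 := hP x (y + j) h0
        have h2 : y + (j : ℝ) + (m : ℝ) = y := by
          rw [← hj]
          push_cast
          ring
        rw [h2] at h1
        rw [← h1]
        have h5 : 0 ≤ σ * |(j : ℝ)| := mul_nonneg hσ (abs_nonneg _)
        linarith
    rw [abs_le]
    constructor <;> linarith

end BM

end HDG
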