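import Pool.Agent.HDG.DDefs

/-!
# HDG/D5: smoothed tent functions

The tent function of period `m` is `T = -U`, where `U y` is the infimum over `k` of the distance of `y` to `k m`, measured with
the slope `σ` to the right and `s` to the left. `G` is the convolution of `T` with a smooth bump function with support in
`(-1/2, 1/2)`: slopes and values of `G` are averages of those of `T`, and `G''` is bounded since `G' = T * χ'` is Lipschitz.
-/

set_option autoImplicit false

noncomputable section

open scoped ContDiff Topology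

open MeasureTheory

namespace HDG

open Pool.Agent.FBR

/-- the distance to the points `k m` with the slopes `σ` (to the right) and `-s` (to the left) -/
private def rho (σ s z : ℝ) : ℝ := max (σ * z) (-s * z)

private def U (σ s m y : ℝ) : ℝ := ⨅ k : ℤ, rho σ s (y - k * m)

private theorem rho_nonneg {σ s : ℝ} (hσ : 0 < σ) (hs : 0 < s) (z : ℝ) : 0 ≤ rho σ s z := by
  unfold rho
  rcases le_total 0 z with h | h
  · exact le_max_of_le_left (mul_nonneg hσ.le h)
  · exact le_max_of_le_right (by nlinarith)

private theorem U_le {σ s : ℝ} (hσ : 0 < σ) (hs : 0 < s) (m y : ℝ) (k : ℤ) :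
    U σ s m y ≤ rho σ s (y - k * m) :=
  ciInf_le ⟨0, by rintro _ ⟨k, rfl⟩; exact rho_nonneg hσ hs _⟩ k

private theorem le_U {σ s m y a : ℝ} (h : ∀ k : ℤ, a ≤ rho σ s (y - k * m)) : a ≤ U σ s m y :=
  le_ciInf h

private theorem U_right {σ s : ℝ} (hσ : 0 < σ) (hs : 0 < s) (m : ℝ) {y z : ℝ} (h : y ≤ z) :
    U σ s m z ≤ U σ s m y + σ * (z - y) := by
  rw [← sub_le_iff_le_add]
  refine le_U fun k => ?_
  rw [sub_le_iff_le_add]
  refine (U_le hσ hs m z k).trans ?_
  unfold rho
  refine max_le ?_ ?_
  · have h1 := le_max_left (σ * (y - k * m)) (-s * (y - k * m))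
    nlinarith
  · have h1 := le_max_right (σ * (y - k * m)) (-s * (y - k * m))
    nlinarith

private theorem U_left {σ s : ℝ} (hσ : 0 < σ) (hs : 0 < s) (m : ℝ) {y z : ℝ} (h : y ≤ z) :
    U σ s m y ≤ U σ s m z + s * (z - y) := by
  rw [← sub_le_iff_le_add]
  refine le_U fun k => ?_
  rw [sub_le_iff_le_add]
  refine (U_le hσ hs m y k).trans ?_
  unfold rho
  refine max_le ?_ ?_
  · have h1 := le_max_left (σ * (z - k * m)) (-s * (z - k * m))
    nlinarith
  · have h1 := le_max_right (σ * (z - k * m)) (-s * (z - k * m))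
    nlinarith

private theorem U_per (σ s m y : ℝ) : U σ s m (y + m) = U σ s m y := by
  unfold U
  rw [← (Equiv.addRight (1 : ℤ)).iInf_comp]
  refine iInf_congr fun k => ?_
  congr 1
  rw [Equiv.coe_addRight]
  push_cast
  ring

private theorem U_val {σ s : ℝ} (hσ : 0 < σ) (hs : 0 < s) {m y : ℝ} (hm : 0 < m) (h0 : 0 ≤ y)
    (hy : y ≤ m) : U σ s m y = min (σ * y) (s * (m - y)) := by
  apply le_antisymm
  · refine le_min ?_ ?_
    · refine (U_le hσ hs m y 0).trans ?_
      unfold rho
      rw [Int.cast_zero, zero_mul, sub_zero]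
      exact max_le le_rfl (by nlinarith)
    · refine (U_le hσ hs m y 1).trans ?_
      unfold rho
      rw [Int.cast_one, one_mul]
      exact max_le (by nlinarith) (by nlinarith)
  · refine le_U fun k => ?_
    unfold rho
    rcases le_or_gt k 0 with hk | hk
    · have hk' : (k : ℝ) ≤ 0 := by exact_mod_cast hk
      refine (min_le_left _ _).trans (le_max_of_le_left ?_)
      have h1 : (k : ℝ) * m ≤ 0 := by nlinarith
      nlinarith
    · have hk' : (1 : ℝ) ≤ k := by exact_mod_cast hk
      refine (min_le_right _ _).trans (le_max_of_le_right ?_)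
      have h1 : m ≤ (k : ℝ) * m := by nlinarith
      nlinarith

private theorem U_lip {σ s : ℝ} (hσ : 0 < σ) (hs : 0 < s) (m y z : ℝ) :
    |U σ s m z - U σ s m y| ≤ max σ s * |z - y| := by
  rcases le_total y z with h | h
  · have h1 := U_right hσ hs m h
    have h2 := U_left hσ hs m h
    rw [abs_of_nonneg (sub_nonneg.2 h), abs_le]
    have h3 := mul_le_mul_of_nonneg_right (le_max_left σ s) (sub_nonneg.2 h)
    have h4 := mul_le_mul_of_nonneg_right (le_max_right σ s) (sub_nonneg.2 h)
    constructor <;> linarith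
  · have h1 := U_right hσ hs m h
    have h2 := U_left hσ hs m h
    rw [abs_of_nonpos (sub_nonpos.2 h), abs_le]
    have h3 := mul_le_mul_of_nonneg_right (le_max_left σ s) (sub_nonneg.2 h)
    have h4 := mul_le_mul_of_nonneg_right (le_max_right σ s) (sub_nonneg.2 h)
    constructor <;> nlinarith

private theorem U_cont {σ s : ℝ} (hσ : 0 < σ) (hs : 0 < s) (m : ℝ) : Continuous (U σ s m) := by
  have h : LipschitzWith (Real.toNNReal (max σ s)) (U σ s m) := by
    refine LipschitzWith.of_dist_le_mul fun y z => ?_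
    rw [Real.dist_eq, Real.dist_eq, Real.coe_toNNReal _ (le_max_of_le_left hσ.le)]
    exact U_lip hσ hs m z y
  exact h.continuous

private theorem exists_bump : ∃ χ : ℝ → ℝ, ContDiff ℝ ∞ χ ∧ HasCompactSupport χ ∧ (∀ t, 0 ≤ χ t) ∧
    (∀ t, 1 / 2 ≤ |t| → χ t = 0) ∧ ∫ t, χ t = 1 := by
  obtain ⟨φ, hφ⟩ : ∃ φ : ContDiffBump (0 : ℝ), φ.rOut = 1 / 2 :=
    ⟨⟨1 / 4, 1 / 2, by norm_num, by norm_num⟩, rfl⟩
  refine ⟨φ.normed volume, φ.contDiff_normed, φ.hasCompactSupport_normed, φ.nonneg_normed, fun t ht => ?_,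
    φ.integral_normed⟩
  have h1 : t ∉ Function.support (φ.normed volume) := by
    rw [φ.support_normed_eq, Metric.mem_ball, dist_zero_right, hφ, Real.norm_eq_abs]
    exact not_lt.2 ht
  exact Function.notMem_support.1 h1

theorem exists_tent {σ s : ℝ} (hσ : 0 < σ) (hs : 0 < s) : ∃ C : ℝ, 0 ≤ C ∧ ∀ m : ℕ, 0 < m →
    ∃ G : ℝ → ℝ, Tent σ s C m G := by
  obtain ⟨χ, hχ, hcs, h0, hsup, hint⟩ := exists_bump
  have hL : 0 < max σ s := lt_max_of_lt_left hσ
  have hdc : Continuous (deriv χ) := hχ.continuous_deriv (by simp)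
  have hdcs : HasCompactSupport (deriv χ) := hcs.deriv
  have hI0 : 0 ≤ ∫ t, |deriv χ t| := integral_nonneg fun t => abs_nonneg _
  refine ⟨max σ s * (1 + ∫ t, |deriv χ t|), by positivity, fun m hm => ?_⟩
  have hm' : (0 : ℝ) < m := by exact_mod_cast hm
  obtain ⟨T, hT⟩ : ∃ T : ℝ → ℝ, ∀ y, T y = - U σ s m y := ⟨_, fun _ => rfl⟩
  have hTc : Continuous T := by
    have : T = fun y => - U σ s m y := funext hT
    rw [this]
    exact (U_cont hσ hs m).neg
  have hTr : ∀ y z, y ≤ z → -σ * (z - y) ≤ T z - T y ∧ T z - T y ≤ s * (z - y) := by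
    intro y z h
    rw [hT, hT]
    have h1 := U_right hσ hs m h
    have h2 := U_left hσ hs m h
    constructor <;> linarith
  have hTl : ∀ y z, |T z - T y| ≤ max σ s * |z - y| := by
    intro y z
    rw [hT, hT, show -U σ s m z - -U σ s m y = -(U σ s m z - U σ s m y) by ring, abs_neg]
    exact U_lip hσ hs m y z
  have hint1 : ∀ F : ℝ → ℝ, Continuous F → Integrable (fun t => χ t * F t) := fun F hF =>
    (hχ.continuous.mul hF).integrable_of_hasCompactSupport hcs.mul_right
  have hint2 : ∀ F : ℝ → ℝ, Continuous F → Integrable (fun t => deriv χ t * F t) := fun F hF =>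
    (hdc.mul hF).integrable_of_hasCompactSupport hdcs.mul_right
  have avg : ∀ (F : ℝ → ℝ) (a b : ℝ), Continuous F → (∀ t, |t| < 1 / 2 → a ≤ F t ∧ F t ≤ b) →
      a ≤ ∫ t, χ t * F t ∧ ∫ t, χ t * F t ≤ b := by
    intro F a b hF hab
    have e1 : ∀ c : ℝ, ∫ t, χ t * c = c := by
      intro c
      rw [integral_mul_const, hint, one_mul]
    constructor
    · rw [← e1 a]
      refine integral_mono (hint1 _ continuous_const) (hint1 _ hF) fun t => ?_
      by_cases ht : |t| < 1 / 2
      · exact mul_le_mul_of_nonneg_left (hab t ht).1 (h0 t)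
      · simp only [hsup t (not_lt.1 ht), zero_mul, le_refl]
    · rw [← e1 b]
      refine integral_mono (hint1 _ hF) (hint1 _ continuous_const) fun t => ?_
      by_cases ht : |t| < 1 / 2
      · exact mul_le_mul_of_nonneg_left (hab t ht).2 (h0 t)
      · simp only [hsup t (not_lt.1 ht), zero_mul, le_refl]
  have hcT : ∀ y : ℝ, Continuous fun t => T (y - t) := fun y => hTc.comp (continuous_const.sub continuous_id)
  obtain ⟨G, hG⟩ : ∃ G : ℝ → ℝ, G = convolution χ T (ContinuousLinearMap.lsmul ℝ ℝ) volume := ⟨_, rfl⟩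
  have hGv : ∀ y, G y = ∫ t, χ t * T (y - t) := by
    intro y
    rw [hG]
    rfl
  have hGs : ContDiff ℝ ∞ G := by
    rw [hG]
    exact hcs.contDiff_convolution_left _ hχ hTc.locallyIntegrable
  have hGd : ∀ y, HasDerivAt G (∫ t, deriv χ t * T (y - t)) y := by
    intro y
    rw [hG]
    exact hcs.hasDerivAt_convolution_left _ (hχ.of_le (by simp)) hTc.locallyIntegrable y
  have hGsub : ∀ y z, G z - G y = ∫ t, χ t * (T (z - t) - T (y - t)) := by
    intro y z
    rw [hGv, hGv, ← integral_sub (hint1 _ (hcT z)) (hint1 _ (hcT y))]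
    refine integral_congr_ae (Filter.Eventually.of_forall fun t => ?_)
    show _ = _
    ring
  have hG1 : ∀ y z, y ≤ z → -σ * (z - y) ≤ G z - G y ∧ G z - G y ≤ s * (z - y) := by
    intro y z h
    rw [hGsub]
    refine avg _ _ _ ((hcT z).sub (hcT y)) fun t _ => ?_
    have h1 := hTr (y - t) (z - t) (by linarith)
    rw [show z - t - (y - t) = z - y by ring] at h1
    exact h1
  have hdd : ∀ y z, |deriv G z - deriv G y| ≤ max σ s * (∫ t, |deriv χ t|) * |z - y| := by
    intro y z
    rw [(hGd z).deriv, (hGd y).deriv, ← integral_sub (hint2 _ (hcT z)) (hint2 _ (hcT y))]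
    rw [← Real.norm_eq_abs]
    refine (norm_integral_le_integral_norm _).trans ?_
    rw [mul_right_comm, ← integral_const_mul]
    refine integral_mono ?_ ?_ fun t => ?_
    · exact ((hint2 _ (hcT z)).sub (hint2 _ (hcT y))).norm
    · exact ((hdc.integrable_of_hasCompactSupport hdcs).norm).const_mul _
    · show ‖deriv χ t * T (z - t) - deriv χ t * T (y - t)‖ ≤ max σ s * |z - y| * |deriv χ t|
      rw [← mul_sub, norm_mul, Real.norm_eq_abs, Real.norm_eq_abs, mul_comm]
      refine mul_le_mul_of_nonneg_right ?_ (abs_nonneg _)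
      have h1 := hTl (y - t) (z - t)
      rwa [show z - t - (y - t) = z - y by ring] at h1
  have hval : ∀ y : ℝ, 0 ≤ y → y ≤ m →
      |G y - max (-σ * y) (s * (y - m))| ≤ max σ s * (1 + ∫ t, |deriv χ t|) := by
    intro y hy1 hy2
    have h1 : max (-σ * y) (s * (y - m)) = T y := by
      rw [hT, U_val hσ hs hm' hy1 hy2, ← max_neg_neg]
      congr 1 <;> ring
    rw [h1]
    have h2 : G y - T y = ∫ t, χ t * (T (y - t) - T y) := by
      have h3 : ∫ t, χ t * T y = T y := by rw [integral_mul_const, hint, one_mul]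
      conv_lhs => rw [hGv, ← h3]
      rw [← integral_sub (hint1 _ (hcT y)) (hint1 _ continuous_const)]
      refine integral_congr_ae (Filter.Eventually.of_forall fun t => ?_)
      show _ = _
      ring
    have h4 := avg (fun t => T (y - t) - T y) (-max σ s) (max σ s) ((hcT y).sub continuous_const)
      fun t ht => by
        have h5 := hTl y (y - t)
        rw [show y - t - y = -t by ring, abs_neg] at h5
        have h6 : max σ s * |t| ≤ max σ s := by nlinarith [abs_nonneg t]
        exact abs_le.1 (h5.trans h6)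
    rw [← h2] at h4
    refine (abs_le.2 h4).trans ?_
    nlinarith
  refine ⟨G, hGs, fun y => ?_, fun y => ?_, fun y => ?_, fun y hy1 hy2 => ?_, fun y hy1 hy2 => ?_⟩
  · rw [hGv, hGv]
    refine integral_congr_ae (Filter.Eventually.of_forall fun t => ?_)
    show χ t * T (y + m - t) = χ t * T (y - t)
    rw [hT, hT, show y + (m : ℝ) - t = y - t + m by ring, U_per]
  · have hd := hGs.differentiable (by simp)
    have h1 : ‖deriv (fun z => G z - (s - σ) / 2 * z) y‖ ≤ (s + σ) / 2 := by
      refine norm_deriv_le_of_lip' (by linarith) (Filter.Eventually.of_forall fun z => ?_)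
      rw [Real.norm_eq_abs, Real.norm_eq_abs]
      rcases le_total y z with h | h
      · have h2 := hG1 y z h
        rw [abs_of_nonneg (sub_nonneg.2 h), abs_le]
        constructor <;> nlinarith
      · have h2 := hG1 z y h
        rw [abs_of_nonpos (sub_nonpos.2 h), abs_le]
        constructor <;> nlinarith
    have h2 : deriv (fun z => G z - (s - σ) / 2 * z) y = deriv G y - (s - σ) / 2 := by
      have h3 := ((hd y).hasDerivAt).sub ((hasDerivAt_id y).const_mul ((s - σ) / 2))
      rw [mul_one] at h3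
      exact h3.deriv
    rw [h2, Real.norm_eq_abs, abs_le] at h1
    constructor <;> linarith [h1.1, h1.2]
  · have h1 : ‖deriv (deriv G) y‖ ≤ max σ s * ∫ t, |deriv χ t| :=
      norm_deriv_le_of_lip' (by positivity) (Filter.Eventually.of_forall fun z => by
        rw [Real.norm_eq_abs, Real.norm_eq_abs]
        exact hdd y z)
    rw [Real.norm_eq_abs] at h1
    linarith
  · have hloc : ∀ z, |z - y| < 1 / 2 → G z = G y + s * (z - y) := by
      intro z hz
      have hTv : ∀ x, s / (s + σ) * m ≤ x → x ≤ m → T x = s * (x - m) := by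
        intro x hx1 hx2
        have hx0 : 0 ≤ x := le_trans (by positivity) hx1
        rw [hT, U_val hσ hs hm' hx0 hx2, min_eq_right]
        · ring
        · rw [div_mul_eq_mul_div, div_le_iff₀ (by linarith)] at hx1
          nlinarith
      have h1 := avg (fun t => T (z - t) - T (y - t)) (s * (z - y)) (s * (z - y))
        ((hcT z).sub (hcT y)) fun t ht => by
          rw [abs_lt] at ht hz
          rw [hTv (z - t) (by linarith [ht.1, ht.2, hz.1, hz.2]) (by linarith [ht.1, ht.2, hz.1, hz.2]),
            hTv (y - t) (by linarith [ht.1, ht.2]) (by linarith [ht.1, ht.2])]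
          constructor <;> nlinarith
      have h2 := hGsub y z
      linarith [h1.1, h1.2]
    have hnear : ∀ z, |z - y| < 1 / 2 → ∀ᶠ x in 𝓝 z, |x - y| < 1 / 2 := by
      intro z hz
      have hc : Continuous fun x : ℝ => |x - y| := (continuous_id.sub continuous_const).abs
      exact hc.continuousAt.eventually_lt continuousAt_const hz
    have hdv : ∀ z, |z - y| < 1 / 2 → deriv G z = s := by
      intro z hz
      have h1 : G =ᶠ[𝓝 z] fun x => G y + s * (x - y) := (hnear z hz).mono fun x hx => hloc x hx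
      rw [h1.deriv_eq]
      have h2 := (((hasDerivAt_id z).sub_const y).const_mul s).const_add (G y)
      rw [mul_one] at h2
      exact h2.deriv
    have hyy : |y - y| < 1 / 2 := by rw [sub_self, abs_zero]; norm_num
    refine ⟨hdv y hyy, ?_⟩
    have h1 : deriv G =ᶠ[𝓝 y] fun _ => s := (hnear y hyy).mono fun x hx => hdv x hx
    rw [h1.deriv_eq, deriv_const]
  · exact hval y (by exact_mod_cast hy1) (by exact_mod_cast hy2)

end HDG
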