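import Pool.Agent.HDG.DDefs

/-!
# HDG/D6: possible contact levels for a tent function

Elementary inequalities: with `κ = s/(s+σ)` the tent `max (-σ y) (s (y-m))` has its minimum at `κ m`; a contact level
`k` is compared with the integer next to `κ m` (or with its translate by the period).
-/

set_option autoImplicit false

noncomputable section

open scoped ContDiff Topology

open MeasureTheory

namespace HDG

open Pool.Agent.FBR

private theorem D6_low {σ s κ M y : ℝ} (hκ : κ * (s + σ) = s) (hp : 0 < s + σ) (hy : y ≤ κ * M) :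
    max (-σ * y) (s * (y - M)) = -σ * y := by
  refine max_eq_left ?_
  have h1 : (s + σ) * y ≤ (s + σ) * (κ * M) := mul_le_mul_of_nonneg_left hy hp.le
  have h2 : (s + σ) * (κ * M) = s * M := by
    calc (s + σ) * (κ * M) = (κ * (s + σ)) * M := by ring
      _ = s * M := by rw [hκ]
  nlinarith

private theorem D6_high {σ s κ M y : ℝ} (hκ : κ * (s + σ) = s) (hp : 0 < s + σ) (hy : κ * M ≤ y) :
    max (-σ * y) (s * (y - M)) = s * (y - M) := by
  refine max_eq_right ?_
  have h1 : (s + σ) * (κ * M) ≤ (s + σ) * y := mul_le_mul_of_nonneg_left hy hp.le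
  have h2 : (s + σ) * (κ * M) = s * M := by
    calc (s + σ) * (κ * M) = (κ * (s + σ)) * M := by ring
      _ = s * M := by rw [hκ]
  nlinarith

theorem contact_right {σ s S C C1 : ℝ} (hs : 0 < s) (hS : 0 ≤ S) (hσ : S < σ) (hC : 0 ≤ C) (hC1 : 0 ≤ C1) :
    ∃ C' : ℝ, 0 ≤ C' ∧ ∀ (m : ℕ) (G : ℝ → ℝ), 0 < m → Tent σ s C m G → ∀ k : ℤ, 0 ≤ k → k < m →
      (∀ l : ℤ, k ≤ l → G k - S * (l - k) - C1 ≤ G l) →
      s / (s + σ) * m - C' ≤ k ∧ k ≤ (s / (s + σ) + 1 - s / (s + S)) * m + C' := by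
  have hσS : 0 < σ - S := by linarith
  have hsS : 0 < s + S := by linarith
  have hp : 0 < s + σ := by linarith
  set D1 : ℝ := (2 * C + C1) / (σ - S) with hD1
  set D2 : ℝ := (2 * C + C1 + σ) / (s + S) with hD2
  have hD1p : 0 ≤ D1 := by positivity
  have hD2p : 0 ≤ D2 := div_nonneg (by linarith) hsS.le
  have hD1e : (σ - S) * D1 = 2 * C + C1 := mul_div_cancel₀ _ hσS.ne'
  have hD2e : (s + S) * D2 = 2 * C + C1 + σ := mul_div_cancel₀ _ hsS.ne'
  set κ : ℝ := s / (s + σ) with hκ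
  set τ : ℝ := s / (s + S) with hτ
  have hκe : κ * (s + σ) = s := div_mul_cancel₀ _ hp.ne'
  have hτe : τ * (s + S) = s := div_mul_cancel₀ _ hsS.ne'
  have hκ0 : 0 < κ := div_pos hs hp
  have hκ1 : κ ≤ 1 := by
    rw [hκ, div_le_one hp]
    linarith
  have hτ1 : τ ≤ 1 := by
    rw [hτ, div_le_one hsS]
    linarith
  refine ⟨1 + D1 + D2, by linarith, fun m G hm hG k hk0 hkm hk => ?_⟩
  have hM : (0 : ℝ) < m := by exact_mod_cast hm
  lift k to ℕ using hk0
  have hkm2 : k < m := by exact_mod_cast hkm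
  have hkm' : (k : ℝ) < m := by exact_mod_cast hkm2
  have hκM : 0 ≤ κ * m := by positivity
  have hκM1 : κ * m ≤ m := by nlinarith
  obtain ⟨f, hf⟩ : ∃ f : ℕ, f = ⌊κ * (m : ℝ)⌋₊ := ⟨_, rfl⟩
  have hf1 : (f : ℝ) ≤ κ * m := by
    rw [hf]
    exact Nat.floor_le hκM
  have hf2 : κ * m - 1 < (f : ℝ) := by
    rw [hf]
    exact Nat.sub_one_lt_floor _
  have hfm : f ≤ m := by
    have : (f : ℝ) ≤ m := hf1.trans hκM1
    exact_mod_cast this
  have hvk := abs_le.1 (hG.val k (Nat.cast_nonneg _) (Nat.cast_le.2 hkm2.le))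
  have hvf := abs_le.1 (hG.val f (Nat.cast_nonneg _) (Nat.cast_le.2 hfm))
  rw [D6_low hκe hp hf1] at hvf
  have hcast : ∀ n : ℕ, (((n : ℕ) : ℤ) : ℝ) = (n : ℝ) := fun n => Int.cast_natCast n
  rw [hcast]
  rcases le_or_gt (k : ℝ) (κ * m) with h | h
  · constructor
    · have h1 : k ≤ f := by
        rw [hf]
        exact Nat.le_floor h
      have h2 := hk (f : ℤ) (by exact_mod_cast h1)
      rw [hcast, hcast] at h2
      have h3 := le_max_left (-σ * (k : ℝ)) (s * (k - m))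
      have h4 : (σ - S) * ((f : ℝ) - k) ≤ (σ - S) * D1 := by
        rw [hD1e]
        nlinarith
      have h5 := le_of_mul_le_mul_left h4 hσS
      linarith
    · have h1 : 0 ≤ (1 - τ) * m := mul_nonneg (by linarith) hM.le
      nlinarith
  · constructor
    · linarith
    · have h1 : (k : ℤ) ≤ ((f + m : ℕ) : ℤ) := by
        have : k ≤ f + m := by omega
        exact_mod_cast this
      have h2 := hk _ h1
      rw [hcast, hcast, Nat.cast_add, hG.per] at h2
      have h3 := le_max_right (-σ * (k : ℝ)) (s * (k - m))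
      have h4 : (s + S) * (k : ℝ) ≤ (s + S) * ((κ + 1 - τ) * m + D2) := by
        have e1 : (s + S) * ((κ + 1 - τ) * m + D2) =
            ((s + S) * κ + (s + S) - τ * (s + S)) * m + (s + S) * D2 := by ring
        have e2 : σ * κ = s - s * κ := by linarith
        rw [e1, hτe, hD2e]
        have e3 : σ * (κ * m) = s * m - s * (κ * m) := by
          calc σ * (κ * m) = (σ * κ) * m := by ring
            _ = _ := by rw [e2]; ring
        have e4 : 0 ≤ σ * ((f : ℝ) - (κ * m - 1)) :=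
          mul_nonneg (by linarith) (by linarith)
        have e5 : 0 ≤ S * (κ * m - (f : ℝ)) := mul_nonneg hS (by linarith)
        nlinarith
      have h5 := le_of_mul_le_mul_left h4 hsS
      linarith

theorem contact_left {σ s S C C1 : ℝ} (hσ : 0 < σ) (hS : 0 ≤ S) (hs : S < s) (hC : 0 ≤ C) (hC1 : 0 ≤ C1) :
    ∃ C' : ℝ, 0 ≤ C' ∧ ∀ (m : ℕ) (G : ℝ → ℝ), 0 < m → Tent σ s C m G → ∀ k : ℤ, 0 ≤ k → k < m →
      (∀ l : ℤ, l ≤ k → G k - S * (k - l) - C1 ≤ G l) → k ≤ s / (s + σ) * m + C' := by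
  have hsS : 0 < s - S := by linarith
  have hp : 0 < s + σ := by linarith
  set D1 : ℝ := (2 * C + C1) / (s - S) with hD1
  have hD1p : 0 ≤ D1 := by positivity
  have hD1e : (s - S) * D1 = 2 * C + C1 := mul_div_cancel₀ _ hsS.ne'
  set κ : ℝ := s / (s + σ) with hκ
  have hκe : κ * (s + σ) = s := div_mul_cancel₀ _ hp.ne'
  have hκ0 : 0 < κ := div_pos (by linarith) hp
  refine ⟨1 + D1, by linarith, fun m G hm hG k hk0 hkm hk => ?_⟩
  have hM : (0 : ℝ) < m := by exact_mod_cast hm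
  lift k to ℕ using hk0
  have hkm2 : k < m := by exact_mod_cast hkm
  have hkm' : (k : ℝ) < m := by exact_mod_cast hkm2
  have hκM : 0 ≤ κ * m := by positivity
  have hcast : ∀ n : ℕ, (((n : ℕ) : ℤ) : ℝ) = (n : ℝ) := fun n => Int.cast_natCast n
  rw [hcast]
  rcases le_or_gt (k : ℝ) (κ * m) with h | h
  · linarith
  · obtain ⟨f, hf⟩ : ∃ f : ℕ, f = ⌈κ * (m : ℝ)⌉₊ := ⟨_, rfl⟩
    have hc1 : κ * m ≤ (f : ℝ) := by
      rw [hf]
      exact Nat.le_ceil _
    have hc2 : (f : ℝ) < κ * m + 1 := by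
      rw [hf]
      exact Nat.ceil_lt_add_one hκM
    have h1 : f ≤ k := by
      rw [hf]
      exact Nat.ceil_le.2 h.le
    have hvk := abs_le.1 (hG.val k (Nat.cast_nonneg _) (Nat.cast_le.2 hkm2.le))
    have hvc := abs_le.1 (hG.val f (Nat.cast_nonneg _) (Nat.cast_le.2 (h1.trans hkm2.le)))
    rw [D6_high hκe hp hc1] at hvc
    have h2 := hk (f : ℤ) (by exact_mod_cast h1)
    rw [hcast, hcast] at h2
    have h3 := le_max_right (-σ * (k : ℝ)) (s * (k - m))
    have h4 : (s - S) * ((k : ℝ) - (f : ℝ)) ≤ (s - S) * D1 := by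
      rw [hD1e]
      nlinarith
    have h5 := le_of_mul_le_mul_left h4 hsS
    linarith

end HDG
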