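import Pool.Agent.HDG.G10

/-!
# HDG/G11: the envelope mass inequality

`envelope`: a near maximiser of the energy `En` among the smooth `φ ≤ h` with `b + dd φ + ε w ≥ 0`. `G11_lim`: for a family of
bounded sets `S ε` of reals increasing with `ε` the supremum of `S ε` is within `κ` of the one of `S e4` for all `ε ≤ e4`. So some `φ` of
the class for `ε` has `En f ≤ En φ + κ` for all `f` of the class for `K ε ≤ e4`; `step` in the balls of a partition of unity and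
`mass_dd` give the inequality.
-/

set_option autoImplicit false

noncomputable section

open scoped ContDiff Topology ENNReal

open MeasureTheory

namespace HDG

open Pool.Agent.FBR

variable {H : Type*} [NormedAddCommGroup H] [NormedSpace ℂ H] {n : ℕ} {e : Module.Basis (Fin n) ℂ H}
  [FiniteDimensional ℂ H] [MeasurableSpace H] [BorelSpace H] {μ : Measure H} [μ.IsAddHaarMeasure]
  {Y : Type*} [TopologicalSpace Y] [CompactSpace Y] [T2Space Y] [MeasurableSpace Y] [BorelSpace Y]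
  (B : BM e Y) {w b : B.I → H → Bil H} {ν : Measure Y}

namespace BM

private theorem G11_lim {S : ℝ → Set ℝ} {e3 C κ : ℝ} (he3 : 0 < e3) (hκ : 0 < κ)
    (hne : ∀ ε, 0 < ε → ε ≤ e3 → (S ε).Nonempty)
    (hbd : ∀ ε, 0 < ε → ε ≤ e3 → ∀ x ∈ S ε, |x| ≤ C) :
    ∃ e4, 0 < e4 ∧ e4 ≤ e3 ∧ ∀ ε, 0 < ε → ε ≤ e4 → ∃ x ∈ S ε, ∀ x' ∈ S e4, x' ≤ x + κ := by
  have hba : ∀ ε, 0 < ε → ε ≤ e3 → BddAbove (S ε) := fun ε h1 h2 =>
    ⟨C, fun x hx => (abs_le.1 (hbd ε h1 h2 x hx)).2⟩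
  have hlow : ∀ ε, 0 < ε → ε ≤ e3 → -C ≤ sSup (S ε) := by
    intro ε h1 h2
    obtain ⟨x, hx⟩ := hne ε h1 h2
    exact (abs_le.1 (hbd ε h1 h2 x hx)).1.trans (le_csSup (hba ε h1 h2) hx)
  have hneI : ((fun ε => sSup (S ε)) '' Set.Ioc 0 e3).Nonempty := ⟨_, e3, ⟨he3, le_rfl⟩, rfl⟩
  have hbb : BddBelow ((fun ε => sSup (S ε)) '' Set.Ioc 0 e3) :=
    ⟨-C, by rintro _ ⟨ε, hε, rfl⟩; exact hlow ε hε.1 hε.2⟩
  obtain ⟨_, ⟨e4, he4, rfl⟩, h4⟩ := exists_lt_of_csInf_lt hneI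
    (show sInf ((fun ε => sSup (S ε)) '' Set.Ioc 0 e3) <
      sInf ((fun ε => sSup (S ε)) '' Set.Ioc 0 e3) + κ / 2 by linarith)
  refine ⟨e4, he4.1, he4.2, fun ε h1 h2 => ?_⟩
  have h3 : sInf ((fun ε => sSup (S ε)) '' Set.Ioc 0 e3) ≤ sSup (S ε) :=
    csInf_le hbb ⟨ε, ⟨h1, h2.trans he4.2⟩, rfl⟩
  obtain ⟨x, hx, hlt⟩ := exists_lt_of_lt_csSup (hne ε h1 (h2.trans he4.2))
    (show sSup (S ε) - κ / 2 < sSup (S ε) by linarith)
  refine ⟨x, hx, fun x' hx' => ?_⟩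
  have h5 : x' ≤ sSup (S e4) := le_csSup (hba e4 he4.1 he4.2) hx'
  dsimp only at h4
  linarith

omit [FiniteDimensional ℂ H] [MeasurableSpace H] [BorelSpace H] [CompactSpace Y] [T2Space Y] [MeasurableSpace Y]
  [BorelSpace Y] in
private theorem G11_nn (hw : B.Met w) {a : B.I → H → Bil H} {s t : ℝ} (hst : s ≤ t)
    (h : B.NnT (a + s • w)) : B.NnT (a + t • w) := by
  intro i z hz v
  have h1 := h i z hz v
  have h2 : 0 ≤ w i z v (Complex.I • v) := by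
    by_cases hv : v = 0
    · subst hv
      simp
    · exact (hw.pos i z hz v hv).le
  have h3 : (a + s • w) i z v (Complex.I • v) = a i z v (Complex.I • v) + s * w i z v (Complex.I • v) := rfl
  have h4 : (a + t • w) i z v (Complex.I • v) = a i z v (Complex.I • v) + t * w i z v (Complex.I • v) := rfl
  rw [h3] at h1
  rw [h4]
  nlinarith

/-- the constants are in the class -/
private theorem G11_const (hw : B.Met w) (hn : B.NnT b) {s : ℝ} (hs : 0 ≤ s) (c : ℝ) :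
    B.NnT (b + B.dd (fun _ => c) + s • w) := by
  refine B.G11_nn hw hs ?_
  intro i z hz v
  have h1 := hn i z hz v
  have h2 : (b + B.dd (fun _ => c) + (0 : ℝ) • w) i z v (Complex.I • v) =
      b i z v (Complex.I • v) + B.dd (fun _ => c) i z v (Complex.I • v) + 0 * w i z v (Complex.I • v) := rfl
  rw [h2, B.dd_const c hz]
  simpa using h1

/-- the near maximiser -/
private theorem G11_max (hw : B.Met w) (hν : B.IsVol μ w ν) (hb : B.IsT b) (hc : B.ClT b) (hn : B.NnT b)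
    {h : Y → ℝ} {M : ℝ} (hM : ∀ y, |h y| ≤ M) {K κ ε1 : ℝ} (hK : 2 ≤ K) (hκ : 0 < κ) (hε1 : 0 < ε1) :
    ∃ (ε : ℝ) (φ : Y → ℝ), 0 < ε ∧ ε ≤ ε1 ∧ B.Sm φ ∧ (∀ y, |φ y| ≤ M + 1) ∧ (∀ y, φ y ≤ h y) ∧
      B.NnT (b + B.dd φ + ε • w) ∧
      ∀ f : Y → ℝ, B.Sm f → B.NnT (b + B.dd f + (K * ε) • w) → (∀ y, φ y - ε ≤ f y) → (∀ y, f y ≤ h y) →
        B.En w b ν f ≤ B.En w b ν φ + κ := by
  obtain ⟨ε2, C2, hε2, hC2, hEn⟩ := B.En_bd hw hν hb hc hn (M + 1)
  obtain ⟨Kl, hKl⟩ : ∃ Kl : ℝ → Set (Y → ℝ), ∀ ε φ, φ ∈ Kl ε ↔ (B.Sm φ ∧ B.NnT (b + B.dd φ + ε • w) ∧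
      (∀ y, -M - ε ≤ φ y) ∧ ∀ y, φ y ≤ h y) := ⟨fun ε => {φ | B.Sm φ ∧ B.NnT (b + B.dd φ + ε • w) ∧
      (∀ y, -M - ε ≤ φ y) ∧ ∀ y, φ y ≤ h y}, fun _ _ => Iff.rfl⟩
  have habs : ∀ ε φ, ε ≤ 1 → φ ∈ Kl ε → ∀ y, |φ y| ≤ M + 1 := by
    intro ε φ h1 h2 y
    obtain ⟨_, _, h3, h4⟩ := (hKl ε φ).1 h2
    have h5 := abs_le.1 (hM y)
    rw [abs_le]
    exact ⟨by linarith [h3 y], by linarith [h4 y, h5.2]⟩
  obtain ⟨e4, he4, he43, hlim⟩ := G11_lim (S := fun ε => B.En w b ν '' Kl ε) (e3 := min ε2 1) (C := C2) (κ := κ)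
    (lt_min hε2 one_pos) hκ
    (by
      intro ε h1 _
      refine ⟨_, (fun _ => -M), ?_, rfl⟩
      rw [hKl]
      refine ⟨B.Sm_const _, B.G11_const hw hn h1.le _, fun y => by linarith, fun y => ?_⟩
      exact (abs_le.1 (hM y)).1)
    (by
      rintro ε h1 h2 _ ⟨φ, hφ, rfl⟩
      have h3 := habs ε φ (h2.trans (min_le_right _ _)) hφ
      rw [hKl] at hφ
      exact hEn φ hφ.1 (B.G11_nn hw (h2.trans (min_le_left _ _)) hφ.2.1) h3)
  have hK0 : 0 < K := by linarith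
  have hε : 0 < min ε1 (e4 / K) := lt_min hε1 (div_pos he4 hK0)
  have hε4 : K * min ε1 (e4 / K) ≤ e4 := by
    have := mul_le_mul_of_nonneg_left (min_le_right ε1 (e4 / K)) hK0.le
    rwa [mul_div_cancel₀ _ hK0.ne'] at this
  obtain ⟨ε, hεd⟩ : ∃ ε, ε = min ε1 (e4 / K) := ⟨_, rfl⟩
  rw [← hεd] at hε hε4
  have hεe : ε ≤ e4 := by nlinarith
  obtain ⟨_, ⟨φ, hφ, rfl⟩, hmax⟩ := hlim ε hε hεe
  have hφa := habs ε φ (hεe.trans (he43.trans (min_le_right _ _))) hφ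
  have hφ' := (hKl ε φ).1 hφ
  refine ⟨ε, φ, hε, hεd ▸ min_le_left _ _, hφ'.1, hφa, hφ'.2.2.2, hφ'.2.1, fun f hf1 hf2 hf3 hf4 => ?_⟩
  refine hmax _ ⟨f, ?_, rfl⟩
  rw [hKl]
  refine ⟨hf1, B.G11_nn hw hε4 hf2, fun y => ?_, hf4⟩
  have h1 := hφ'.2.2.1 y
  have h2 := hf3 y
  nlinarith

/-- the envelope mass inequality -/
theorem envelope (hw : B.Met w) (hν : B.IsVol μ w ν) (hb : B.IsT b) (hc : B.ClT b) (hn : B.NnT b)
    {h : Y → ℝ} (hh : B.Sm h) {η τ ε0 : ℝ} (hη : 0 < η) (hτ : 0 < τ) (hε : 0 < ε0) :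
    ∃ φ : Y → ℝ, B.Sm φ ∧ (∀ y, φ y ≤ h y) ∧ B.NnT (b + B.dd φ + ε0 • w) ∧
      ∫ y, B.den w b y ∂ν - η ≤ ∫ y in {y | h y - τ ≤ φ y}, B.denp w (b + B.dd h) y ∂ν := by
  have := hν.fin
  obtain ⟨M, hM⟩ := isCompact_univ.exists_bound_of_continuousOn (B.Sm_cont hh).continuousOn
  have hM' : ∀ y, |h y| ≤ M := fun y => hM y (Set.mem_univ y)
  obtain ⟨χ, c, hχ⟩ := B.exists_pou
  obtain ⟨C, ε1, K, hC, hε1, hK, hst⟩ := B.step hw hν hb hc hn hχ hh (M + 1)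
  obtain ⟨N, hN⟩ : ∃ N : ℝ, N = (Fintype.card B.I : ℝ) * C := ⟨_, rfl⟩
  have hN0 : 0 ≤ N := by
    rw [hN]
    positivity
  have hN1 : 0 < N + 1 := by linarith
  obtain ⟨t, ht⟩ : ∃ t, t = min τ (min 1 (η / (3 * (N + 1)))) := ⟨_, rfl⟩
  have ht0 : 0 < t := by
    rw [ht]
    exact lt_min hτ (lt_min one_pos (by positivity))
  have ht1 : t ≤ 1 := ht ▸ (min_le_right _ _).trans (min_le_left _ _)
  have htτ : t ≤ τ := ht ▸ min_le_left _ _
  have htη : t ≤ η / (3 * (N + 1)) := ht ▸ (min_le_right _ _).trans (min_le_right _ _)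
  obtain ⟨κ, hκ⟩ : ∃ κ, κ = η * t / (6 * (N + 1)) := ⟨_, rfl⟩
  have hκ0 : 0 < κ := by
    rw [hκ]
    positivity
  obtain ⟨ε, φ, hε, hεε, hφs, hφa, hφh, hφn, hmax⟩ := B.G11_max hw hν hb hc hn hM' hK hκ0
    (ε1 := min (min ε1 ε0) κ) (lt_min (lt_min hε1 hε) hκ0)
  have hεκ : ε ≤ κ := hεε.trans (min_le_right _ _)
  have hεε1 : ε ≤ ε1 := hεε.trans ((min_le_left _ _).trans (min_le_left _ _))
  have hεε0 : ε ≤ ε0 := hεε.trans ((min_le_left _ _).trans (min_le_right _ _))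
  refine ⟨φ, hφs, hφh, B.G11_nn hw hεε0 hφn, ?_⟩
  have hbφ : B.IsT (b + B.dd φ) := B.IsT_add hb (B.IsT_dd hφs)
  have hbh : B.IsT (b + B.dd h) := B.IsT_add hb (B.IsT_dd hh)
  have hchi : ∀ i y, |χ i y| ≤ 1 := by
    intro i y
    rw [abs_of_nonneg (hχ.nn i y), ← hχ.sum y]
    exact Finset.single_le_sum (f := fun i => χ i y) (fun j _ => hχ.nn j y) (Finset.mem_univ i)
  have hsum := Finset.sum_le_sum (s := Finset.univ) fun i (_ : i ∈ Finset.univ) =>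
    hst i φ t ε κ hφs hφa hφh ht0 ht1 hε hεε1 hκ0.le hφn hmax
  -- the left side
  obtain ⟨C1, hC1⟩ := isCompact_univ.exists_bound_of_continuousOn (B.den_cont hw hbφ).continuousOn
  have hL : ∑ i, ∫ y, χ i y * B.den w (b + B.dd φ) y ∂ν = ∫ y, B.den w b y ∂ν := by
    rw [← integral_finsetSum]
    · rw [← B.mass_dd hw hν hb hc hφs]
      refine integral_congr_ae (Filter.Eventually.of_forall fun y => ?_)
      dsimp only
      rw [← Finset.sum_mul, hχ.sum, one_mul]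
    · intro i _
      refine B.bd_int hν (C := C1) ((B.Sm_cont (hχ.sm i)).measurable.mul (B.den_cont hw hbφ).measurable) fun y => ?_
      rw [abs_mul]
      have h1 := hC1 y (Set.mem_univ y)
      rw [Real.norm_eq_abs] at h1
      nlinarith [hchi i y, abs_nonneg (χ i y), abs_nonneg (B.den w (b + B.dd φ) y)]
  -- the right side
  obtain ⟨C3, hC3, hC3'⟩ := B.denp_bd hw hbh
  have hpm := B.denp_meas hw hbh
  have hpi : Integrable (B.denp w (b + B.dd h)) ν :=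
    B.bd_int hν hpm (C := C3) fun y => by
      rw [abs_of_nonneg (B.denp_nonneg hw hbh y)]
      exact hC3' y
  have hR : ∑ i, ∫ y in {y | h y - t ≤ φ y}, χ i y * B.denp w (b + B.dd h) y ∂ν =
      ∫ y in {y | h y - t ≤ φ y}, B.denp w (b + B.dd h) y ∂ν := by
    rw [← integral_finsetSum]
    · refine integral_congr_ae (Filter.Eventually.of_forall fun y => ?_)
      dsimp only
      rw [← Finset.sum_mul, hχ.sum, one_mul]
    · intro i _
      refine Integrable.integrableOn ?_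
      refine B.bd_int hν (C := C3) ((B.Sm_cont (hχ.sm i)).measurable.mul hpm) fun y => ?_
      rw [abs_mul]
      have h1 : |B.denp w (b + B.dd h) y| ≤ C3 := by
        rw [abs_of_nonneg (B.denp_nonneg hw hbh y)]
        exact hC3' y
      nlinarith [hchi i y, abs_nonneg (χ i y), abs_nonneg (B.denp w (b + B.dd h) y)]
  have hRm : ∫ y in {y | h y - t ≤ φ y}, B.denp w (b + B.dd h) y ∂ν ≤
      ∫ y in {y | h y - τ ≤ φ y}, B.denp w (b + B.dd h) y ∂ν := by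
    refine setIntegral_mono_set hpi.integrableOn
      (Filter.Eventually.of_forall fun y => B.denp_nonneg hw hbh y) ?_
    refine (show ({y | h y - t ≤ φ y} : Set Y) ⊆ {y | h y - τ ≤ φ y} from ?_).eventuallyLE
    intro y hy
    have hy' : h y - t ≤ φ y := hy
    show h y - τ ≤ φ y
    linarith
  rw [Finset.sum_add_distrib, hL, hR, Finset.sum_const, nsmul_eq_mul, Finset.card_univ, ← mul_assoc, ← hN] at hsum
  -- the error
  have hE : N * (t + ε + (ε + κ) / t) ≤ η := by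
    have h1 : N * t ≤ η / 3 := by
      have : N * t ≤ (N + 1) * (η / (3 * (N + 1))) := mul_le_mul (by linarith) htη ht0.le hN1.le
      have h2 : (N + 1) * (η / (3 * (N + 1))) = η / 3 := by field_simp
      linarith
    have h2 : N * ε ≤ η / 6 := by
      have h21 : N * ε ≤ (N + 1) * κ := mul_le_mul (by linarith) hεκ hε.le hN1.le
      have h22 : (N + 1) * κ = η * t / 6 := by
        rw [hκ]
        field_simp
      have h23 : η * t ≤ η * 1 := mul_le_mul_of_nonneg_left ht1 hη.le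
      linarith
    have h3 : N * ((ε + κ) / t) ≤ η / 3 := by
      have h31 : (ε + κ) / t ≤ (κ + κ) / t := by
        refine div_le_div_of_nonneg_right (by linarith) ht0.le
      have h32 : N * ((ε + κ) / t) ≤ (N + 1) * ((κ + κ) / t) :=
        mul_le_mul (by linarith) h31 (by positivity) hN1.le
      have h33 : (N + 1) * ((κ + κ) / t) = η / 3 := by
        rw [hκ]
        field_simp
        norm_num
      linarith
    have h4 : N * (t + ε + (ε + κ) / t) = N * t + N * ε + N * ((ε + κ) / t) := by ring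
    linarith
  linarith

end BM

end HDG
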