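import Pool.Agent.HDG.C8
import Pool.Agent.HDG.C9
import Pool.Agent.HDG.C11
import Pool.Agent.HDG.D0
import Pool.Agent.HDG.G11

/-!
# HDG/D7: the envelope mass inequality on the cyclic coverings

The inequality `BM.envelope` (G11) with `τ = 1`, applied to the `m`-fold cyclic covering `B.cv ht hm` and the function
`G (y + f x)`; the integrals over the covering are integrals over `X` of sums over the sheets (`int_vol`, `den_pb`, `denp_hf`).
-/

set_option autoImplicit false

noncomputable section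

open scoped ContDiff Topology

open MeasureTheory

namespace HDG

open Pool.Agent.FBR

variable {H : Type*} [NormedAddCommGroup H] [NormedSpace ℂ H] {n : ℕ} {e : Module.Basis (Fin n) ℂ H}
  [FiniteDimensional ℂ H] {X : Type*} [TopologicalSpace X] (B : BM e X) {t : B.I → H → ℝ}
  {w b : B.I → H → Bil H}

namespace BM

theorem cover_env [MeasurableSpace H] [BorelSpace H] {μ : Measure H} [μ.IsAddHaarMeasure] [CompactSpace X] [T2Space X]
    [MeasurableSpace X] [BorelSpace X] {ν : Measure X} (hw : B.Met w) (hν : B.IsVol μ w ν)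
    (hb : B.IsT b) (hc : B.ClT b) (hn : B.NnT b) (ht : B.Per t) {m : ℕ} (hm : 0 < m) {G : ℝ → ℝ}
    (hG : ContDiff ℝ ∞ G) (hper : ∀ y, G (y + m) = G y) {f : X → ℝ} (hf : B.Sm f) {η ε0 : ℝ} (hη : 0 < η) (hε : 0 < ε0) :
    ∃ F : X → ℝ → ℝ, B.Gd t w b Set.univ ε0 F ∧ B.Pd t m F ∧ B.Bd t F ∧
      (∀ x y, B.On t x y → F x y ≤ G (y + f x)) ∧
      m * ∫ x, B.den w b x ∂ν - η ≤ ∫ x, ∑ k ∈ Finset.range m,
        (if G (B.fr t x + k + f x) - 1 ≤ F x (B.fr t x + k) then
          B.denp w (b + (deriv G (B.fr t x + k + f x)) • B.ddt (fun i z => t i z + f (B.ψ i z)) +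
            (deriv (deriv G) (B.fr t x + k + f x)) • B.gr (fun i z => t i z + f (B.ψ i z))) x else 0) ∂ν := by
  haveI hfin : IsFiniteMeasure ν := hν.fin
  haveI : CompactSpace (B.Cv t m) := (B.cv ht hm).cpct
  haveI : T2Space (B.Cv t m) := B.cv_t2
  have hw' := B.met_pb ht hm hw
  have hb' := B.ist_pb ht hm hb
  have hν' := B.vol_isvol ht hm hν
  have hsh := B.sm_hf ht hm hG hper hf
  obtain ⟨φ, hφ, hle, hnn, hint⟩ := (B.cv ht hm).envelope hw' hν' hb' (B.clt_pb ht hm hc) (B.nnt_pb ht hm hn)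
    hsh hη one_pos hε
  obtain ⟨hφc, M, hM⟩ := B.fn_bdd ht hm hφ
  refine ⟨B.fn t m φ, B.gd_fn ht hm hφ hnn, fun x y _ => B.fn_per φ x y, ⟨M, fun x y h => ?_⟩,
    fun x y h => ?_, ?_⟩
  · rw [B.fn_cpt φ h]
    exact hM _
  · rw [B.fn_cpt φ h, ← B.hf_cpt hper f h]
    exact hle _
  · have hdc := (B.cv ht hm).den_cont hw' hb'
    obtain ⟨C, hC⟩ := isCompact_univ.exists_bound_of_continuousOn hdc.continuousOn
    have h1 := B.int_vol ht hm ν hdc.measurable (C := C) fun p => by
      have := hC p (Set.mem_univ p)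
      rwa [Real.norm_eq_abs] at this
    have h2 : (fun x => ∑ k ∈ Finset.range m, (B.cv ht hm).den (B.pb ht hm w) (B.pb ht hm b) (B.sht t m k x)) =
        fun x => (m : ℝ) * B.den w b x := by
      funext x
      rw [Finset.sum_congr rfl fun k _ => by rw [B.den_pb ht hm hw hb, B.pr_sht], Finset.sum_const,
        Finset.card_range, nsmul_eq_mul]
    rw [h2, integral_const_mul] at h1
    rw [h1] at hint
    refine hint.trans (le_of_eq ?_)
    have hT : (B.cv ht hm).IsT (B.pb ht hm b + (B.cv ht hm).dd (B.hf t m G f)) :=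
      (B.cv ht hm).IsT_add hb' ((B.cv ht hm).IsT_dd hsh)
    have hS : MeasurableSet {p : B.Cv t m | B.hf t m G f p - 1 ≤ φ p} :=
      (isClosed_le (((B.cv ht hm).Sm_cont hsh).sub continuous_const) hφc).measurableSet
    obtain ⟨D, hD0, hD⟩ := (B.cv ht hm).denp_bd hw' hT
    have hpm := (B.cv ht hm).denp_meas hw' hT
    rw [← integral_indicator hS, B.int_vol ht hm ν (hpm.indicator hS) (C := D)]
    · refine integral_congr_ae (Filter.Eventually.of_forall fun x => ?_)
      refine Finset.sum_congr rfl fun k _ => ?_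
      have hk : B.On t x (B.fr t x + (k : ℝ)) := by
        have := B.fr_on t x k
        simpa using this
      have hs : B.sht t m k x = B.cpt t m x (B.fr t x + (k : ℝ)) hk := by
        unfold sht
        rw [B.cpt_eq]
        exact ⟨rfl, 0, by push_cast; ring⟩
      rw [hs, B.fn_cpt φ hk, ← B.denp_hf ht hm hw hb hG hper hf hk, ← B.hf_cpt hper f hk]
      by_cases h0 : B.hf t m G f (B.cpt t m x (B.fr t x + (k : ℝ)) hk) - 1 ≤ φ (B.cpt t m x (B.fr t x + (k : ℝ)) hk)
      · rw [if_pos h0, Set.indicator_of_mem (by exact h0)]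
      · rw [if_neg h0, Set.indicator_of_notMem (by exact h0)]
    · intro p
      rw [Set.indicator_apply]
      split_ifs
      · rw [abs_of_nonneg ((B.cv ht hm).denp_nonneg hw' hT p)]
        exact hD p
      · rw [abs_zero]
        exact hD0

end BM

end HDG
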