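import Pool.Agent.HDG.G8

/-!
# HDG: functions on the infinite cyclic covering (definitions)

`t` is a multivalued function on `X` with integral periods. The infinite cyclic covering of `X` consists of the pairs `(x, y)`, `y` one of the values of
`t` at `x` (`B.On t x y`). Functions on it are functions `F : X → ℝ → ℝ`; only the values `F x y` with `B.On t x y` matter.
-/

set_option autoImplicit false

noncomputable section

open scoped ContDiff Topology

open MeasureTheory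

namespace HDG

open Pool.Agent.FBR

variable {H : Type*} [NormedAddCommGroup H] [NormedSpace ℂ H] {n : ℕ} {e : Module.Basis (Fin n) ℂ H}
  {X : Type*} [TopologicalSpace X] (B : BM e X) (t : B.I → H → ℝ)

namespace BM

/-- `y` is one of the values of `t` at `x` -/
def On (x : X) (y : ℝ) : Prop := ∃ i, ∃ z ∈ qb e 4, ∃ k : ℤ, B.ψ i z = x ∧ t i z + k = y

/-- the value of `t` at `x` in `[0, 1)` -/
def fr (x : X) : ℝ := Int.fract (t (B.ix x) (B.cd x))

/-- the function `F` on the sheet `k` over the ball `i` -/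
def lf (F : X → ℝ → ℝ) (i : B.I) (k : ℤ) (z : H) : ℝ := F (B.ψ i z) (t i z + k)

/-- on the part of the covering with `y ∈ S`, `F` is smooth and `b + dd^c F ≥ - ε w` -/
structure Gd (w b : B.I → H → Bil H) (S : Set ℝ) (ε : ℝ) (F : X → ℝ → ℝ) : Prop where
  sm : ∀ i (k : ℤ) (z : H), z ∈ qb e 4 → t i z + k ∈ S → ContDiffAt ℝ ∞ (B.lf t F i k) z
  nn : ∀ i (k : ℤ) (z : H), z ∈ qb e 4 → t i z + k ∈ S → Nn (b i z + ddc (B.lf t F i k) z + ε • w i z)

/-- the property `P(s)`: on `|y| < R` there are functions `F ≤ s y` with `b + dd^c F ≥ - ε w` which are not too small near `y = 0` -/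
def PP (w b : B.I → H → Bil H) (s : ℝ) : Prop := ∀ R ε : ℝ, 0 < R → 0 < ε → ∃ F : X → ℝ → ℝ,
  B.Gd t w b (Set.Ioo (-R) R) ε F ∧ (∀ x y, B.On t x y → |y| < R → F x y ≤ s * y) ∧
    ∃ x y, B.On t x y ∧ |y| ≤ 1 ∧ -|s| - 3 ≤ F x y

/-- the supremum of `F` on the part `k ≤ y ≤ k + 1` -/
def top (F : X → ℝ → ℝ) (k : ℤ) : ℝ := sSup {r | ∃ x y, B.On t x y ∧ (k : ℝ) ≤ y ∧ y ≤ k + 1 ∧ F x y = r}

/-- `F` is periodic with period `m` -/
def Pd (m : ℕ) (F : X → ℝ → ℝ) : Prop := ∀ x y, B.On t x y → F x (y + m) = F x y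

/-- `F` is bounded -/
def Bd (F : X → ℝ → ℝ) : Prop := ∃ M : ℝ, ∀ x y, B.On t x y → |F x y| ≤ M

/-- the rank one part `dt ∧ d^c t` -/
def gr (i : B.I) (z : H) : Bil H := (1 / 2 : ℝ) • ddc (fun z => t i z ^ 2) z - t i z • ddc (t i) z

end BM

/-- `G` is a smoothed tent function of period `m`, with the slopes `-σ` and `s` -/
structure Tent (σ s C : ℝ) (m : ℕ) (G : ℝ → ℝ) : Prop where
  sm : ContDiff ℝ ∞ G
  per : ∀ y : ℝ, G (y + m) = G y
  d1 : ∀ y : ℝ, -σ ≤ deriv G y ∧ deriv G y ≤ s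
  d2 : ∀ y : ℝ, |deriv (deriv G) y| ≤ C
  up : ∀ y : ℝ, s / (s + σ) * m + 1 ≤ y → y ≤ m - 1 → deriv G y = s ∧ deriv (deriv G) y = 0
  val : ∀ y : ℝ, 0 ≤ y → y ≤ m → |G y - max (-σ * y) (s * (y - m))| ≤ C

end HDG
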