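import Pool.Agent.HDG.DDefs

/-!
# HDG/KG: the gauge property (definition)

Definition only.
-/

set_option autoImplicit false

noncomputable section

open scoped ContDiff Topology

open MeasureTheory

namespace HDG

open Pool.Agent.FBR

variable {H : Type*} [NormedAddCommGroup H] [NormedSpace ℂ H] {n : ℕ} {e : Module.Basis (Fin n) ℂ H}
  {X : Type*} [TopologicalSpace X] [MeasurableSpace X]

namespace BM

/-- there are functions `f ≤ 0` with `dd^c (t + f) ≥ - ε w` on `{f > -N + 1}` and `≥ - C w` everywhere, bounded in `L¹` -/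
def Gauge (B : BM e X) (t : B.I → H → ℝ) (w : B.I → H → Bil H) (ν : Measure X) (C : ℝ) : Prop :=
  ∀ N ε : ℝ, 1 ≤ N → 0 < ε → ∃ f : X → ℝ, B.Sm f ∧ (∀ x, f x ≤ 0) ∧ (∀ x, -N - 1 ≤ f x) ∧ ∫ x, |f x| ∂ν ≤ C ∧
    B.NnT (B.ddt t + B.dd f + C • w) ∧
    ∀ i, ∀ z ∈ qb e 4, -N + 1 < f (B.ψ i z) → Nn (B.ddt t i z + B.dd f i z + ε • w i z)

end BM

end HDG
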