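import Pool.Agent.HDG.H4
import Pool.Agent.HDG.KG
import Pool.Agent.HDG.RMd

/-!
# HDG/F1: pairs of almost opposite functions are almost constant

If `a` is almost `- t` and `b'` is almost `t` in the sense of the gauge property, then the regularised maximum `F` of `a + b'`
and a very negative constant satisfies `dd F + (ε + ε') w ≥ 0`; the Harnack inequality bounds `∫ |F - sup F|`, and
`|a + b' - sup F|` is at most a constant times `|F - sup F|`.
-/

set_option autoImplicit false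

noncomputable section

open scoped ContDiff Topology

open MeasureTheory

namespace HDG

open Pool.Agent.FBR

variable {H : Type*} [NormedAddCommGroup H] [NormedSpace ℂ H] {n : ℕ} {e : Module.Basis (Fin n) ℂ H}
  [FiniteDimensional ℂ H] [MeasurableSpace H] [BorelSpace H] {μ : Measure H} [μ.IsAddHaarMeasure]
  {X : Type*} [TopologicalSpace X] [CompactSpace X] [T2Space X] [MeasurableSpace X] [BorelSpace X]
  (B : BM e X) {t : B.I → H → ℝ} {w b : B.I → H → Bil H} {ν : Measure X}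

namespace BM

omit [FiniteDimensional ℂ H] [MeasurableSpace H] [BorelSpace H] [CompactSpace X] [T2Space X] [MeasurableSpace X]
  [BorelSpace X] in
private theorem F1_w (hw : B.Met w) {i : B.I} {z : H} (hz : z ∈ qb e 4) (ξ : H) : 0 ≤ w i z ξ (Complex.I • ξ) := by
  by_cases h : ξ = 0
  · rw [h]
    simp
  · exact (hw.pos i z hz ξ h).le

omit [MeasurableSpace H] [BorelSpace H] [CompactSpace X] [T2Space X] [MeasurableSpace X] [BorelSpace X] in
private theorem F1_dd (hw : B.Met w) {a b' : X → ℝ} {N N' ε ε' : ℝ} (hε : 0 < ε) (hε' : 0 < ε') (ha : B.Sm a)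
    (hb : B.Sm b') (ha0 : ∀ x, a x ≤ 0) (hb0 : ∀ x, b' x ≤ 0)
    (h1 : ∀ i, ∀ z ∈ qb e 4, -N + 1 < a (B.ψ i z) → Nn (B.ddt t i z + B.dd a i z + ε • w i z))
    (h2 : ∀ i, ∀ z ∈ qb e 4, -N' + 1 < b' (B.ψ i z) → Nn (B.dd b' i z - B.ddt t i z + ε' • w i z))
    {L : ℝ} (hL : L = min N N' - 2) {i : B.I} {z : H} (hz : z ∈ qb e 4) (ξ : H) :
    0 ≤ B.dd (fun x => rm 1 (a x + b' x) (-L)) i z ξ (Complex.I • ξ) + (ε + ε') * w i z ξ (Complex.I • ξ) := by
  have ha' : ContDiffAt ℝ ∞ (fun z => a (B.ψ i z)) z := (ha i).contDiffAt ((isOpen_qb e 4).mem_nhds hz)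
  have hb' : ContDiffAt ℝ ∞ (fun z => b' (B.ψ i z)) z := (hb i).contDiffAt ((isOpen_qb e 4).mem_nhds hz)
  obtain ⟨l, hl0, hl1, -, hlz, hl⟩ := ddc_rm (δ := 1) one_pos (ha'.add hb') (contDiffAt_const (c := -L))
  have k1 : l * ddc (fun z => a (B.ψ i z) + b' (B.ψ i z)) z ξ (Complex.I • ξ) +
      (1 - l) * ddc (fun _ : H => -L) z ξ (Complex.I • ξ) ≤
      B.dd (fun x => rm 1 (a x + b' x) (-L)) i z ξ (Complex.I • ξ) := hl ξ
  have k2 : ddc (fun _ : H => -L) z ξ (Complex.I • ξ) = 0 := by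
    have h3 : ddc (fun _ : H => -L) z = 0 := B.dd_const (-L) (i := i) hz
    rw [h3]
    rfl
  have k3 := B.F1_w hw (i := i) hz ξ
  rw [k2, mul_zero, add_zero] at k1
  by_cases h : a (B.ψ i z) + b' (B.ψ i z) + 1 ≤ -L
  · rw [hlz h, zero_mul] at k1
    have k4 := mul_nonneg (add_pos hε hε').le k3
    linarith
  · have h3 : -L < a (B.ψ i z) + b' (B.ψ i z) + 1 := not_le.1 h
    have h4 := min_le_left N N'
    have h5 := min_le_right N N'
    have h6 := ha0 (B.ψ i z)
    have h7 := hb0 (B.ψ i z)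
    have h8 := h1 i z hz (by linarith) ξ
    have h9 := h2 i z hz (by linarith) ξ
    have e8 : (B.ddt t i z + B.dd a i z + ε • w i z) ξ (Complex.I • ξ) =
      B.ddt t i z ξ (Complex.I • ξ) + B.dd a i z ξ (Complex.I • ξ) + ε * w i z ξ (Complex.I • ξ) := rfl
    have e9 : (B.dd b' i z - B.ddt t i z + ε' • w i z) ξ (Complex.I • ξ) =
      B.dd b' i z ξ (Complex.I • ξ) - B.ddt t i z ξ (Complex.I • ξ) + ε' * w i z ξ (Complex.I • ξ) := rfl
    rw [e8] at h8
    rw [e9] at h9
    have h10 : ddc (fun z => a (B.ψ i z) + b' (B.ψ i z)) z ξ (Complex.I • ξ) =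
        B.dd a i z ξ (Complex.I • ξ) + B.dd b' i z ξ (Complex.I • ξ) := by
      have h11 : ddc (fun z => a (B.ψ i z) + b' (B.ψ i z)) z = B.dd a i z + B.dd b' i z := B.dd_add ha hb hz
      rw [h11]
      rfl
    have k5 : 0 ≤ ddc (fun z => a (B.ψ i z) + b' (B.ψ i z)) z ξ (Complex.I • ξ) +
        (ε + ε') * w i z ξ (Complex.I • ξ) := by
      rw [h10]
      linarith
    have k6 := mul_nonneg hl0 k5
    have k7 := mul_nonneg (sub_nonneg.2 hl1) (mul_nonneg (add_pos hε hε').le k3)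
    nlinarith

theorem pair_close [ConnectedSpace X] (hw : B.Met w) (hν : B.IsVol μ w ν) (ht : B.Per t) {C : ℝ} (hC : 0 ≤ C) :
    ∃ K N0 : ℝ, 0 ≤ K ∧ 0 ≤ N0 ∧ ∀ (a b' : X → ℝ) (N N' ε ε' : ℝ), N0 ≤ N → N0 ≤ N' → 0 < ε → 0 < ε' → B.Sm a → B.Sm b' →
      (∀ x, a x ≤ 0) → (∀ x, -N - 1 ≤ a x) → (∀ x, b' x ≤ 0) → (∀ x, -N' - 1 ≤ b' x) → ∫ x, |a x| ∂ν ≤ C → ∫ x, |b' x| ∂ν ≤ C →
      (∀ i, ∀ z ∈ qb e 4, -N + 1 < a (B.ψ i z) → Nn (B.ddt t i z + B.dd a i z + ε • w i z)) →
      (∀ i, ∀ z ∈ qb e 4, -N' + 1 < b' (B.ψ i z) → Nn (B.dd b' i z - B.ddt t i z + ε' • w i z)) →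
      ∃ c : ℝ, |c| ≤ K ∧ ∫ x, |a x + b' x - c| ∂ν ≤ K * (N + N' + 1) * (ε + ε') := by
  have := hν.fin
  obtain ⟨Ch, hCh, hH⟩ := B.harnack hw hν
  have hV : 0 < ν.real Set.univ := by
    have h1 := B.vol_open hw hν (isOpen_univ (X := X)) Set.univ_nonempty
    exact ENNReal.toReal_pos h1.ne' (measure_ne_top _ _)
  set C' : ℝ := 2 * C / ν.real Set.univ + 1 with hC'
  have hC'1 : 1 ≤ C' := by
    have : 0 ≤ 2 * C / ν.real Set.univ := by positivity
    linarith
  have hC'0 : 0 ≤ C' := by linarith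
  have hC'V : C' * ν.real Set.univ = 2 * C + ν.real Set.univ := by
    rw [hC']
    field_simp
  have hint : ∀ {G : X → ℝ}, Continuous G → Integrable G ν := fun hG =>
    hG.integrable_of_hasCompactSupport (HasCompactSupport.of_compactSpace _)
  refine ⟨(3 + C') * Ch + C', C' + 8, by positivity, by linarith, ?_⟩
  intro a b' N N' ε ε' hN hN' hε hε' ha hb ha0 haN hb0 hbN haC hbC hta htb
  have hmin : C' + 8 ≤ min N N' := le_min hN hN'
  obtain ⟨L, hL⟩ : ∃ L : ℝ, L = min N N' - 2 := ⟨_, rfl⟩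
  have hac := B.Sm_cont ha
  have hbc := B.Sm_cont hb
  obtain ⟨F, hFe⟩ : ∃ F : X → ℝ, F = fun x => rm 1 (a x + b' x) (-L) := ⟨_, rfl⟩
  have hF : B.Sm F := by
    rw [hFe]
    exact B.Sm_rm (B.Sm_add ha hb) (B.Sm_const (-L)) 1
  have hFc := B.Sm_cont hF
  have hdd : ∀ (i : B.I) (z : H), z ∈ qb e 4 → ∀ ξ : H,
      0 ≤ B.dd F i z ξ (Complex.I • ξ) + (ε + ε') * w i z ξ (Complex.I • ξ) := by
    intro i z hz ξ
    rw [hFe]
    exact B.F1_dd hw hε hε' ha hb ha0 hb0 hta htb hL hz ξ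
  obtain ⟨x0, -, hx0⟩ := isCompact_univ.exists_isMaxOn (Set.univ_nonempty (α := X)) hFc.continuousOn
  have hx0' : ∀ x, F x ≤ F x0 := fun x => hx0 (Set.mem_univ x)
  have hEp : 0 < ε + ε' := by linarith
  -- the Harnack inequality
  have hg : ∫ x, |(ε + ε')⁻¹ * (F x + -F x0)| ∂ν ≤ Ch := by
    refine hH (fun x => (ε + ε')⁻¹ * (F x + -F x0)) (B.Sm_mul (B.Sm_const _) (B.Sm_add hF (B.Sm_const _))) ?_ ?_ ?_
    · intro i z hz ξ
      have h1 : B.dd (fun x => (ε + ε')⁻¹ * (F x + -F x0)) i z = (ε + ε')⁻¹ • (B.dd F i z + 0) := by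
        rw [B.dd_smul (B.Sm_add hF (B.Sm_const _)) _ hz, B.dd_add hF (B.Sm_const _) hz, B.dd_const _ hz]
      have h2 : (B.dd (fun x => (ε + ε')⁻¹ * (F x + -F x0)) + w) i z ξ (Complex.I • ξ) =
          B.dd (fun x => (ε + ε')⁻¹ * (F x + -F x0)) i z ξ (Complex.I • ξ) + w i z ξ (Complex.I • ξ) := rfl
      have h3 : ((ε + ε')⁻¹ • (B.dd F i z + 0)) ξ (Complex.I • ξ) =
          (ε + ε')⁻¹ * (B.dd F i z ξ (Complex.I • ξ) + 0) := rfl
      rw [h2, h1, h3, add_zero]
      have h4 := mul_nonneg (inv_pos.2 hEp).le (hdd i z hz ξ)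
      rw [mul_add, inv_mul_cancel_left₀ hEp.ne'] at h4
      exact h4
    · intro x
      have h1 := hx0' x
      have h2 := inv_pos.2 hEp
      nlinarith
    · exact ⟨x0, by rw [add_neg_cancel, mul_zero]; norm_num⟩
  have hg' : ∫ x, |F x - F x0| ∂ν ≤ Ch * (ε + ε') := by
    have h1 : ∀ x, |(ε + ε')⁻¹ * (F x + -F x0)| = (ε + ε')⁻¹ * |F x - F x0| := by
      intro x
      rw [abs_mul, abs_of_pos (inv_pos.2 hEp), sub_eq_add_neg]
    simp only [h1] at hg
    rw [integral_const_mul, inv_mul_le_iff₀ hEp] at hg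
    linarith
  -- the bounds for the supremum
  have hc1 : F x0 ≤ 1 := by
    rw [hFe]
    refine (rm_le one_pos _ _).trans ?_
    have h1 : max (a x0 + b' x0) (-L) ≤ 0 := max_le (by linarith [ha0 x0, hb0 x0]) (by linarith)
    linarith
  have hc2 : -C' ≤ F x0 := by
    by_contra h
    have h1 : ∀ x, a x + b' x < -C' := by
      intro x
      have h2 : a x + b' x ≤ F x := by
        rw [hFe]
        exact left_le_rm one_pos _ _
      linarith [hx0' x, not_le.1 h]
    have h2 : C' * ν.real Set.univ ≤ ∫ x, (|a x| + |b' x|) ∂ν := by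
      have h3 : ∫ _x : X, C' ∂ν ≤ ∫ x, (|a x| + |b' x|) ∂ν := by
        refine integral_mono (integrable_const _) ((hint hac.abs).add (hint hbc.abs)) fun x => ?_
        show C' ≤ |a x| + |b' x|
        rw [abs_of_nonpos (ha0 x), abs_of_nonpos (hb0 x)]
        linarith [h1 x]
      rw [integral_const, smul_eq_mul, mul_comm] at h3
      exact h3
    rw [integral_add (hint hac.abs) (hint hbc.abs), hC'V] at h2
    linarith
  refine ⟨F x0, ?_, ?_⟩
  · have h1 : 0 ≤ (3 + C') * Ch := by positivity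
    rw [abs_le]
    exact ⟨by linarith, by linarith⟩
  · have hN0 : 0 ≤ N := by linarith
    have hN0' : 0 ≤ N' := by linarith
    have hpt : ∀ x, |a x + b' x - F x0| ≤ (N + N' + 3 + C') * |F x - F x0| := by
      intro x
      have habs := abs_nonneg (F x - F x0)
      by_cases hx : F x < F x0 - 1
      · have h1 : 1 ≤ |F x - F x0| := by
          rw [abs_of_neg (by linarith)]
          linarith
        have h2 : |a x + b' x - F x0| ≤ N + N' + 3 + C' := by
          rw [abs_le]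
          constructor
          · linarith [haN x, hbN x]
          · linarith [ha0 x, hb0 x]
        have h3 : (0 : ℝ) ≤ N + N' + 3 + C' := by linarith
        nlinarith
      · have h1 : F x0 - 1 ≤ F x := not_lt.1 hx
        have h2 : F x ≤ max (a x + b' x) (-L) + 1 := by
          rw [hFe]
          exact rm_le one_pos _ _
        have h3 : -L + 1 ≤ a x + b' x := by
          rcases max_cases (a x + b' x) (-L) with h4 | h4
          · rw [h4.1] at h2
            linarith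
          · rw [h4.1] at h2
            linarith
        have h4 : F x = a x + b' x := by
          rw [hFe]
          exact rm_left one_pos h3
        rw [← h4]
        nlinarith
    calc ∫ x, |a x + b' x - F x0| ∂ν ≤ ∫ x, (N + N' + 3 + C') * |F x - F x0| ∂ν :=
          integral_mono (hint ((hac.add hbc).sub continuous_const).abs)
            (hint (continuous_const.mul (hFc.sub continuous_const).abs)) hpt
      _ = (N + N' + 3 + C') * ∫ x, |F x - F x0| ∂ν := integral_const_mul _ _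
      _ ≤ (N + N' + 3 + C') * (Ch * (ε + ε')) := mul_le_mul_of_nonneg_left hg' (by linarith)
      _ ≤ ((3 + C') * Ch + C') * (N + N' + 1) * (ε + ε') := by
          have h1 : (N + N' + 3 + C') * Ch ≤ ((3 + C') * Ch + C') * (N + N' + 1) := by
            have h2 : 0 ≤ (2 + C') * (N + N') * Ch := by positivity
            have h3 : 0 ≤ C' * (N + N' + 1) := by positivity
            nlinarith
          calc (N + N' + 3 + C') * (Ch * (ε + ε')) = (N + N' + 3 + C') * Ch * (ε + ε') := by ring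
            _ ≤ _ := mul_le_mul_of_nonneg_right h1 hEp.le

end BM

end HDG
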