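import Pool.Agent.HDG.F1

/-!
# HDG/F2: the limit in L^1

For the functions `a j`, `b' j` of the gauge properties of `t` and `- t` with `N = j + j0 + 1`, `ε = 1 / 2 ^ j`, the almost
constancy of the sums `a j + b' j` and `a j + b' (j + 1)` shows that `a j` plus suitable constants is a Cauchy sequence in
`L¹(ν)`.
-/

set_option autoImplicit false

noncomputable section

open scoped ContDiff Topology

open MeasureTheory

namespace HDG

open Pool.Agent.FBR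

variable {H : Type*} [NormedAddCommGroup H] [NormedSpace ℂ H] {n : ℕ} {e : Module.Basis (Fin n) ℂ H}
  [FiniteDimensional ℂ H] [MeasurableSpace H] [BorelSpace H] {μ : Measure H} [μ.IsAddHaarMeasure]
  {X : Type*} [TopologicalSpace X] [CompactSpace X] [T2Space X] [MeasurableSpace X] [BorelSpace X]
  (B : BM e X) {t : B.I → H → ℝ} {w b : B.I → H → Bil H} {ν : Measure X}

namespace BM

/-- `a j` are functions with `dd^c (t + a j) ≥ - ε j w` except on small sets -/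
structure Apx (t : B.I → H → ℝ) (w : B.I → H → Bil H) (ν : Measure X) (C : ℝ) (a : ℕ → X → ℝ) : Prop where
  sm : ∀ j, B.Sm (a j)
  l1 : ∀ j : ℕ, ∫ x, |a j x| ∂ν ≤ C
  nn : ∀ j, B.NnT (B.ddt t + B.dd (a j) + C • w)
  act : ∀ (j : ℕ) (i : B.I), ∀ z ∈ qb e 4, -(j : ℝ) + 1 < a j (B.ψ i z) →
    Nn (B.ddt t i z + B.dd (a j) i z + ((1 : ℝ) / 2 ^ j) • w i z)

private theorem F2_L1 {Y : Type*} [MeasurableSpace Y] {ν : Measure Y} (u : ℕ → Y → ℝ) (hu : ∀ j, Integrable (u j) ν)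
    (r : ℕ → ℝ) (hr : Summable r) (h : ∀ j, ∫ x, |u j x - u (j + 1) x| ∂ν ≤ r j) :
    ∃ f : Y → ℝ, Measurable f ∧ Integrable f ν ∧
      Filter.Tendsto (fun j => ∫ x, |u j x - f x| ∂ν) Filter.atTop (𝓝 0) := by
  have hd : ∀ (F G : Y → ℝ) (hF : Integrable F ν) (hG : Integrable G ν),
      dist (hF.toL1 F) (hG.toL1 G) = ∫ x, |F x - G x| ∂ν := by
    intro F G hF hG
    rw [dist_eq_norm, ← Integrable.toL1_sub, L1.norm_eq_integral_norm]
    refine integral_congr_ae ?_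
    filter_upwards [(hF.sub hG).coeFn_toL1] with x hx
    rw [hx]
    rfl
  have hc : CauchySeq fun j => (hu j).toL1 (u j) := by
    refine cauchySeq_of_dist_le_of_summable r (fun j => ?_) hr
    rw [hd]
    exact h j
  obtain ⟨g, hg⟩ := cauchySeq_tendsto_of_complete hc
  refine ⟨g, (Lp.stronglyMeasurable g).measurable, L1.integrable_coeFn g, ?_⟩
  have h1 : (fun j => ∫ x, |u j x - g x| ∂ν) = fun j => dist ((hu j).toL1 (u j)) g := by
    funext j
    have h2 := hd (u j) g (hu j) (L1.integrable_coeFn g)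
    rw [Integrable.toL1_coeFn] at h2
    exact h2.symm
  rw [h1]
  exact tendsto_iff_dist_tendsto_zero.1 hg

private theorem F2_sum (M : ℝ) : Summable fun j : ℕ => M * ((j : ℝ) + 1) * (1 / 2) ^ j := by
  have h1 : Summable fun j : ℕ => ((j : ℝ) ^ 1 * (1 / 2 : ℝ) ^ j) :=
    summable_pow_mul_geometric_of_norm_lt_one 1 (by norm_num)
  have h2 : Summable fun j : ℕ => (1 / 2 : ℝ) ^ j := summable_geometric_of_lt_one (by norm_num) (by norm_num)
  refine ((h1.add h2).mul_left M).congr fun j => ?_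
  ring

omit [FiniteDimensional ℂ H] [MeasurableSpace H] [BorelSpace H] [CompactSpace X] [T2Space X] [MeasurableSpace X]
  [BorelSpace X] in
private theorem F2_neg (t : B.I → H → ℝ) (i : B.I) (z : H) :
    B.ddt (fun i z => - t i z) i z = - B.ddt t i z := by
  have h1 : fderiv ℝ (fun x => - t i x) = fun x => - fderiv ℝ (t i) x := funext fun x => fderiv_fun_neg
  have h2 : fderiv ℝ (fun x => - fderiv ℝ (t i) x) z = - fderiv ℝ (fderiv ℝ (t i)) z := fderiv_fun_neg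
  change ddc (fun x => - t i x) z = - ddc (t i) z
  ext u v
  change ddc (fun x => - t i x) z u v = - ddc (t i) z u v
  rw [ddc_apply, ddc_apply, h1, h2]
  simp only [neg_apply]
  ring

theorem exists_limit [ConnectedSpace X] (hw : B.Met w) (hν : B.IsVol μ w ν) (ht : B.Per t) {C : ℝ} (hC : 0 ≤ C)
    (h1 : B.Gauge t w ν C) (h2 : B.Gauge (fun i z => - t i z) w ν C) :
    ∃ (a b' : ℕ → X → ℝ) (α β : ℕ → ℝ) (f : X → ℝ), B.Apx t w ν C a ∧ B.Apx (fun i z => - t i z) w ν C b' ∧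
      Measurable f ∧ Integrable f ν ∧
      Filter.Tendsto (fun j => ∫ x, |a j x + α j - f x| ∂ν) Filter.atTop (𝓝 0) ∧
      Filter.Tendsto (fun j => ∫ x, |b' j x + β j + f x| ∂ν) Filter.atTop (𝓝 0) := by
  have := hν.fin
  obtain ⟨K, N0, hK, hN0, hpair⟩ := B.pair_close hw hν ht hC
  obtain ⟨j0, hj0⟩ := exists_nat_ge N0
  have hNj : ∀ j : ℕ, N0 ≤ (j : ℝ) + j0 + 1 := fun j => by
    have : (0 : ℝ) ≤ j := Nat.cast_nonneg j
    linarith
  have hN1 : ∀ j : ℕ, 1 ≤ (j : ℝ) + j0 + 1 := fun j => by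
    have h3 : (0 : ℝ) ≤ j := Nat.cast_nonneg j
    have h4 : (0 : ℝ) ≤ j0 := Nat.cast_nonneg j0
    linarith
  have hε : ∀ j : ℕ, (0 : ℝ) < 1 / 2 ^ j := fun j => by positivity
  have hint : ∀ {G : X → ℝ}, Continuous G → Integrable G ν := fun hG =>
    hG.integrable_of_hasCompactSupport (HasCompactSupport.of_compactSpace _)
  choose a ha ha0 haN haC hann haact using fun j : ℕ => h1 ((j : ℝ) + j0 + 1) (1 / 2 ^ j) (hN1 j) (hε j)
  choose b' hb hb0 hbN hbC hbnn hbact using fun j : ℕ => h2 ((j : ℝ) + j0 + 1) (1 / 2 ^ j) (hN1 j) (hε j)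
  have hbact' : ∀ (j : ℕ) (i : B.I), ∀ z ∈ qb e 4, -((j : ℝ) + j0 + 1) + 1 < b' j (B.ψ i z) →
      Nn (B.dd (b' j) i z - B.ddt t i z + ((1 : ℝ) / 2 ^ j) • w i z) := by
    intro j i z hz h
    have h3 := hbact j i z hz h
    rw [F2_neg] at h3
    intro v
    have h4 := h3 v
    change 0 ≤ -(B.ddt t i z v (Complex.I • v)) + B.dd (b' j) i z v (Complex.I • v) +
      ((1 : ℝ) / 2 ^ j) * w i z v (Complex.I • v) at h4
    change 0 ≤ B.dd (b' j) i z v (Complex.I • v) - B.ddt t i z v (Complex.I • v) +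
      ((1 : ℝ) / 2 ^ j) * w i z v (Complex.I • v)
    linarith
  have hac : ∀ j, Integrable (a j) ν := fun j => hint (B.Sm_cont (ha j))
  have hbc : ∀ j, Integrable (b' j) ν := fun j => hint (B.Sm_cont (hb j))
  choose c hc1 hc2 using fun j : ℕ => hpair (a j) (b' j) ((j : ℝ) + j0 + 1) ((j : ℝ) + j0 + 1) (1 / 2 ^ j) (1 / 2 ^ j)
    (hNj j) (hNj j) (hε j) (hε j) (ha j) (hb j) (ha0 j) (haN j) (hb0 j) (hbN j) (haC j) (hbC j) (haact j) (hbact' j)
  choose d hd1 hd2 using fun j : ℕ => hpair (a j) (b' (j + 1)) ((j : ℝ) + j0 + 1) (((j + 1 : ℕ) : ℝ) + j0 + 1) (1 / 2 ^ j)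
    (1 / 2 ^ (j + 1)) (hNj j) (hNj (j + 1)) (hε j) (hε (j + 1)) (ha j) (hb (j + 1)) (ha0 j) (haN j) (hb0 (j + 1))
    (hbN (j + 1)) (haC j) (hbC (j + 1)) (haact j) (hbact' (j + 1))
  -- the constants
  obtain ⟨M, hM0, hM⟩ : ∃ M : ℝ, 0 ≤ M ∧ M = K * (2 * j0 + 5) * 2 := ⟨K * (2 * j0 + 5) * 2, by positivity, rfl⟩
  have hp2 : ∀ j : ℕ, (1 : ℝ) / 2 ^ j = (1 / 2) ^ j := fun j => by rw [one_div_pow]
  have hcM : ∀ j : ℕ, ∫ x, |a j x + b' j x - c j| ∂ν ≤ M * ((j : ℝ) + 1) * (1 / 2) ^ j := by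
    intro j
    refine (hc2 j).trans ?_
    rw [hp2, hM]
    have h3 : (0 : ℝ) ≤ j := Nat.cast_nonneg j
    have h4 : (0 : ℝ) ≤ j0 := Nat.cast_nonneg j0
    have h5 : (0 : ℝ) < (1 / 2 : ℝ) ^ j := by positivity
    have h6 : ((j : ℝ) + j0 + 1) + ((j : ℝ) + j0 + 1) + 1 ≤ (2 * j0 + 5) * (j + 1) := by nlinarith
    have h7 : K * (((j : ℝ) + j0 + 1) + ((j : ℝ) + j0 + 1) + 1) ≤ K * ((2 * j0 + 5) * (j + 1)) :=
      mul_le_mul_of_nonneg_left h6 hK
    calc K * (((j : ℝ) + j0 + 1) + ((j : ℝ) + j0 + 1) + 1) * ((1 / 2 : ℝ) ^ j + (1 / 2) ^ j)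
        ≤ K * ((2 * j0 + 5) * (j + 1)) * ((1 / 2 : ℝ) ^ j + (1 / 2) ^ j) :=
          mul_le_mul_of_nonneg_right h7 (by positivity)
      _ = K * (2 * j0 + 5) * 2 * ((j : ℝ) + 1) * (1 / 2) ^ j := by ring
  have hdM : ∀ j : ℕ, ∫ x, |a j x + b' (j + 1) x - d j| ∂ν ≤ M * ((j : ℝ) + 1) * (1 / 2) ^ j := by
    intro j
    refine (hd2 j).trans ?_
    rw [hp2, hp2, hM, pow_succ]
    have h3 : (0 : ℝ) ≤ j := Nat.cast_nonneg j
    have h4 : (0 : ℝ) ≤ j0 := Nat.cast_nonneg j0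
    have h5 : (0 : ℝ) < (1 / 2 : ℝ) ^ j := by positivity
    have h6 : ((j : ℝ) + j0 + 1) + (((j + 1 : ℕ) : ℝ) + j0 + 1) + 1 ≤ (2 * j0 + 5) * (j + 1) := by
      push_cast
      nlinarith
    have h7 : K * (((j : ℝ) + j0 + 1) + (((j + 1 : ℕ) : ℝ) + j0 + 1) + 1) ≤ K * ((2 * j0 + 5) * (j + 1)) :=
      mul_le_mul_of_nonneg_left h6 hK
    have h8 : 0 ≤ K * ((2 * j0 + 5) * (j + 1)) := by positivity
    calc K * (((j : ℝ) + j0 + 1) + (((j + 1 : ℕ) : ℝ) + j0 + 1) + 1) * ((1 / 2 : ℝ) ^ j + (1 / 2) ^ j * (1 / 2))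
        ≤ K * ((2 * j0 + 5) * (j + 1)) * ((1 / 2 : ℝ) ^ j + (1 / 2) ^ j * (1 / 2)) :=
          mul_le_mul_of_nonneg_right h7 (by positivity)
      _ ≤ K * ((2 * j0 + 5) * (j + 1)) * ((1 / 2 : ℝ) ^ j * 2) :=
          mul_le_mul_of_nonneg_left (by linarith) h8
      _ = K * (2 * j0 + 5) * 2 * ((j : ℝ) + 1) * (1 / 2) ^ j := by ring
  obtain ⟨α, hα⟩ : ∃ α : ℕ → ℝ, ∀ j, α (j + 1) = α j + (d j - c (j + 1)) :=
    ⟨fun j => Nat.rec 0 (fun j x => x + (d j - c (j + 1))) j, fun j => rfl⟩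
  have hu : ∀ j, Integrable (fun x => a j x + α j) ν := fun j => (hac j).add (integrable_const _)
  have hI1 : ∀ j k (s : ℝ), Integrable (fun x => a j x + b' k x - s) ν := fun j k s =>
    ((hac j).add (hbc k)).sub (integrable_const _)
  have hr : Summable fun j : ℕ => M * ((j : ℝ) + 1) * (1 / 2) ^ j +
      M * (((j + 1 : ℕ) : ℝ) + 1) * (1 / 2) ^ (j + 1) :=
    (F2_sum M).add ((summable_nat_add_iff 1).2 (F2_sum M))
  have hstep : ∀ j, ∫ x, |(a j x + α j) - (a (j + 1) x + α (j + 1))| ∂ν ≤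
      M * ((j : ℝ) + 1) * (1 / 2) ^ j + M * (((j + 1 : ℕ) : ℝ) + 1) * (1 / 2) ^ (j + 1) := by
    intro j
    have h3 : ∫ x, |(a j x + α j) - (a (j + 1) x + α (j + 1))| ∂ν ≤
        ∫ x, (|a j x + b' (j + 1) x - d j| + |a (j + 1) x + b' (j + 1) x - c (j + 1)|) ∂ν := by
      refine integral_mono ((hu j).sub (hu (j + 1))).abs ((hI1 _ _ _).abs.add (hI1 _ _ _).abs) fun x => ?_
      have h4 : (a j x + α j) - (a (j + 1) x + α (j + 1)) =
          (a j x + b' (j + 1) x - d j) - (a (j + 1) x + b' (j + 1) x - c (j + 1)) := by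
        rw [hα]
        ring
      change |(a j x + α j) - (a (j + 1) x + α (j + 1))| ≤
        |a j x + b' (j + 1) x - d j| + |a (j + 1) x + b' (j + 1) x - c (j + 1)|
      rw [h4]
      exact abs_sub _ _
    rw [integral_add (hI1 _ _ _).abs (hI1 _ _ _).abs] at h3
    exact h3.trans (add_le_add (hdM j) (hcM (j + 1)))
  obtain ⟨f, hfm, hfi, hft⟩ := F2_L1 (fun j x => a j x + α j) hu _ hr hstep
  have hact : ∀ j : ℕ, -((j : ℝ) + j0 + 1) + 1 ≤ -(j : ℝ) + 1 := fun j => by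
    have h4 : (0 : ℝ) ≤ j0 := Nat.cast_nonneg j0
    linarith
  refine ⟨a, b', α, fun j => - α j - c j, f, ⟨ha, haC, hann, fun j i z hz h => haact j i z hz ((hact j).trans_lt h)⟩,
    ⟨hb, hbC, hbnn, fun j i z hz h => hbact j i z hz ((hact j).trans_lt h)⟩, hfm, hfi, hft, ?_⟩
  refine squeeze_zero (g := fun j => ∫ x, |a j x + b' j x - c j| ∂ν + ∫ x, |a j x + α j - f x| ∂ν)
    (fun j => integral_nonneg fun x => abs_nonneg _) (fun j => ?_) ?_
  · have h7 : ∫ x, |a j x + b' j x - c j| ∂ν + ∫ x, |a j x + α j - f x| ∂ν =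
        ∫ x, (|a j x + b' j x - c j| + |a j x + α j - f x|) ∂ν :=
      (integral_add (hI1 j j (c j)).abs ((hu j).sub hfi).abs).symm
    rw [h7]
    refine integral_mono ((((hbc j).add (integrable_const _)).add hfi).abs) ((hI1 _ _ _).abs.add ((hu j).sub hfi).abs)
      fun x => ?_
    have h4 : b' j x + (- α j - c j) + f x = (a j x + b' j x - c j) - (a j x + α j - f x) := by ring
    change |b' j x + (- α j - c j) + f x| ≤ |a j x + b' j x - c j| + |a j x + α j - f x|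
    rw [h4]
    exact abs_sub _ _
  · have h5 : Filter.Tendsto (fun j => ∫ x, |a j x + b' j x - c j| ∂ν) Filter.atTop (𝓝 0) :=
      squeeze_zero (fun j => integral_nonneg fun x => abs_nonneg _) hcM (F2_sum M).tendsto_atTop_zero
    have h6 := h5.add hft
    rw [add_zero] at h6
    exact h6

end BM

end HDG
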