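import Pool.Agent.HDG.OB2

/-!
# HDG/OBa: reduction of the obstacle problem in a ball to `Ob`

`exists_cut'` gives smooth cutoff functions: `ζ z = Real.smoothTransition ((t² - qf e z) / (t² - s²))`. `exists_ob`: with `ζ = 1` on
`{qf ≤ (5/2)²}` and `ζ = 0` on `{qf ≥ (11/4)²}` the fields `c' = ζ c + (1 - ζ) w0` and `g = min (τ u) (ζ ρ)` satisfy `Ob`: the two smooth
functions under the minimum have compact support, hence bounded first and second differences (`OBa_lip`, `OBa_sec`).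
-/

set_option autoImplicit false

noncomputable section

open scoped ContDiff ComplexOrder Topology

namespace HDG

open Pool.Agent.FBR

variable {H : Type*} [NormedAddCommGroup H] [NormedSpace ℂ H] {n : ℕ} (e : Module.Basis (Fin n) ℂ H)
  [FiniteDimensional ℂ H]

private theorem OBa_bdd {V : Type*} [NormedAddCommGroup V] {F : H → V} (hF : Continuous F) {r : ℝ}
    (h : ∀ z, r ^ 2 < qf e z → F z = 0) : ∃ M : ℝ, 0 ≤ M ∧ ∀ z, ‖F z‖ ≤ M := by
  obtain ⟨M, hM⟩ := (isCompact_qb e r).exists_bound_of_continuousOn hF.continuousOn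
  refine ⟨max M 0, le_max_right _ _, fun z => ?_⟩
  by_cases hz : qf e z ≤ r ^ 2
  · exact (hM z hz).trans (le_max_left _ _)
  · rw [h z (not_le.1 hz), norm_zero]
    exact le_max_right _ _

private theorem OBa_nhds {r : ℝ} {z : H} (hz : r ^ 2 < qf e z) : ∀ᶠ y in 𝓝 z, r ^ 2 < qf e y :=
  (qf_smooth e).continuous.continuousAt.eventually (isOpen_Ioi.mem_nhds hz)

private theorem OBa_fd {V : Type*} [NormedAddCommGroup V] [NormedSpace ℝ V] {F : H → V} {r : ℝ} {k : V}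
    (h : ∀ z, r ^ 2 < qf e z → F z = k) {z : H} (hz : r ^ 2 < qf e z) : fderiv ℝ F z = 0 := by
  have h1 : F =ᶠ[𝓝 z] fun _ => k := by
    filter_upwards [OBa_nhds e hz] with y hy
    exact h y hy
  rw [h1.fderiv_eq]
  exact fderiv_const_apply k

private theorem OBa_lip {V : Type*} [NormedAddCommGroup V] [NormedSpace ℝ V] {F : H → V} (hF : ContDiff ℝ ∞ F)
    {r : ℝ} {k : V} (h : ∀ z, r ^ 2 < qf e z → F z = k) :
    ∃ B : ℝ, 0 ≤ B ∧ ∀ z a : H, ‖F (z + a) - F z‖ ≤ B * ‖a‖ := by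
  obtain ⟨M, hM0, hM⟩ := OBa_bdd e (hF.continuous_fderiv (by simp)) (fun z hz => OBa_fd e h hz)
  refine ⟨M, hM0, fun z a => ?_⟩
  have h1 := Convex.norm_image_sub_le_of_norm_fderiv_le (𝕜 := ℝ) (f := F) (s := Set.univ) (C := M) (x := z) (y := z + a)
    (fun x _ => (hF.differentiable (by simp)) x) (fun x _ => hM x) convex_univ trivial trivial
  rwa [add_sub_cancel_left] at h1

private theorem OBa_sec {V : Type*} [NormedAddCommGroup V] [NormedSpace ℝ V] {F : H → V} (hF : ContDiff ℝ ∞ F)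
    {r : ℝ} {k : V} (h : ∀ z, r ^ 2 < qf e z → F z = k) :
    ∃ B : ℝ, 0 ≤ B ∧ ∀ z a : H, ‖F (z + a) + F (z - a) - (2 : ℝ) • F z‖ ≤ B * ‖a‖ ^ 2 := by
  have hf : ContDiff ℝ ∞ (fderiv ℝ F) := hF.fderiv_right (by simp)
  have hdf : Differentiable ℝ F := hF.differentiable (by simp)
  obtain ⟨B, hB0, hB⟩ := OBa_lip e hf (r := r) (k := 0) fun z hz => OBa_fd e h hz
  refine ⟨B, hB0, fun z a => ?_⟩
  have h1 : ∀ y : H, HasFDerivAt (fun y => F (y + a) - F y) (fderiv ℝ F (y + a) - fderiv ℝ F y) y := by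
    intro y
    have h0 : HasFDerivAt (fun y : H => y + a) (ContinuousLinearMap.id ℝ H) y := (hasFDerivAt_id y).add_const a
    have h00 := (hdf (y + a)).hasFDerivAt.comp y h0
    rw [ContinuousLinearMap.comp_id] at h00
    exact h00.sub (hdf y).hasFDerivAt
  have h2 := Convex.norm_image_sub_le_of_norm_hasFDerivWithin_le (𝕜 := ℝ) (f := fun y => F (y + a) - F y)
    (s := Set.univ) (C := B * ‖a‖) (x := z - a) (y := z)
    (fun x _ => (h1 x).hasFDerivWithinAt) (fun x _ => hB x a) convex_univ trivial trivial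
  have h3 : F (z + a) + F (z - a) - (2 : ℝ) • F z = (F (z + a) - F z) - (F (z - a + a) - F (z - a)) := by
    rw [sub_add_cancel, two_smul]
    abel
  rw [h3]
  refine h2.trans (le_of_eq ?_)
  rw [sub_sub_cancel]
  ring

omit [FiniteDimensional ℂ H] in
private theorem OBa_cd {V : Type*} [NormedAddCommGroup V] [NormedSpace ℝ V] {ζ : H → ℝ} {f : H → V} (w : V)
    (hζ : ContDiff ℝ ∞ ζ) (hf : ContDiff ℝ ∞ f) : ContDiff ℝ ∞ fun z => ζ z • f z + (1 - ζ z) • w :=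
  (hζ.smul hf).add ((contDiff_const.sub hζ).smul contDiff_const)

private theorem OBa_zero {V : Type*} [AddCommGroup V] [Module ℝ V] {ζ : ℝ} (h : ζ = 0) (x y : V) : ζ • x + (1 - ζ) • y = y := by
  rw [h, zero_smul, zero_add, sub_zero, one_smul]

private theorem OBa_one {V : Type*} [AddCommGroup V] [Module ℝ V] {ζ : ℝ} (h : ζ = 1) (x y : V) : ζ • x + (1 - ζ) • y = x := by
  rw [h, sub_self, zero_smul, add_zero, one_smul]

theorem exists_cut' {s t : ℝ} (hs : 0 < s) (hst : s < t) : ∃ ζ : H → ℝ, ContDiff ℝ ∞ ζ ∧ (∀ z, 0 ≤ ζ z) ∧ (∀ z, ζ z ≤ 1) ∧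
    (∀ z, qf e z ≤ s ^ 2 → ζ z = 1) ∧ ∀ z, t ^ 2 ≤ qf e z → ζ z = 0 := by
  have hd : 0 < t ^ 2 - s ^ 2 := by nlinarith
  refine ⟨fun z => Real.smoothTransition ((t ^ 2 - qf e z) / (t ^ 2 - s ^ 2)), ?_, fun z => ?_, fun z => ?_, fun z hz => ?_,
    fun z hz => ?_⟩
  · exact Real.smoothTransition.contDiff.comp ((contDiff_const.sub (qf_smooth e)).div_const _)
  · exact Real.smoothTransition.nonneg _
  · exact Real.smoothTransition.le_one _
  · refine Real.smoothTransition.one_of_one_le ?_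
    rw [le_div_iff₀ hd]
    linarith
  · refine Real.smoothTransition.zero_of_nonpos ?_
    exact div_nonpos_of_nonpos_of_nonneg (by linarith) hd.le

theorem exists_ob {c : H → Bil H} {ρ u : H → ℝ} {τ : ℝ} (hc : ContDiff ℝ ∞ c) (hoo : ∀ z, O11 (c z))
    (hn : ∀ z ∈ qb e 3, Nn (c z)) (hρ : ContDiff ℝ ∞ ρ) (hρ0 : ∀ z ∈ qb e 3, 0 ≤ ρ z) (hu : ContDiff ℝ ∞ u)
    (hu0 : ∀ z, 0 ≤ u z) (hus : tsupport u ⊆ qb e 2) (hτ : 0 < τ) :
    ∃ (c' : H → Bil H) (ζ : H → ℝ) (K : ℝ), Ob e c' (fun z => min (τ * u z) (ζ z * ρ z)) 3 K ∧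
      (∀ z, qf e z ≤ (5 / 2) ^ 2 → c' z = c z ∧ ζ z = 1) ∧ (∀ z, 0 ≤ ζ z) ∧ (∀ z, ζ z ≤ 1) ∧ ContDiff ℝ ∞ ζ := by
  obtain ⟨ζ, hζ, hζ0, hζ1, hζs, hζt⟩ := exists_cut' e (s := 5 / 2) (t := 11 / 4) (by norm_num) (by norm_num)
  have hout : ∀ z : H, z ∉ qb e 3 → ζ z = 0 := by
    intro z hz
    have h1 : ¬ qf e z < 3 ^ 2 := hz
    exact hζt z (le_trans (by norm_num) (not_lt.1 h1))
  have hu2 : ∀ z : H, (2 : ℝ) ^ 2 < qf e z → u z = 0 := by
    intro z hz
    by_contra h0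
    have h1 : qf e z < 2 ^ 2 := hus (subset_tsupport u h0)
    exact absurd h1 (not_lt.2 hz.le)
  have hf1 : ContDiff ℝ ∞ fun z => τ * u z := contDiff_const.mul hu
  have hf2 : ContDiff ℝ ∞ fun z => ζ z * ρ z := hζ.mul hρ
  have hz1 : ∀ z : H, (2 : ℝ) ^ 2 < qf e z → τ * u z = 0 := fun z hz => by rw [hu2 z hz, mul_zero]
  have hz2 : ∀ z : H, (11 / 4 : ℝ) ^ 2 < qf e z → ζ z * ρ z = 0 := fun z hz => by rw [hζt z hz.le, zero_mul]
  obtain ⟨B1, hB10, hB1⟩ := OBa_lip e hf1 hz1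
  obtain ⟨B2, hB20, hB2⟩ := OBa_lip e hf2 hz2
  obtain ⟨B3, hB30, hB3⟩ := OBa_sec e hf1 hz1
  obtain ⟨B4, hB40, hB4⟩ := OBa_sec e hf2 hz2
  refine ⟨fun z => ζ z • c z + (1 - ζ z) • w0 e, ζ, B1 + B2 + B3 + B4, ?_, fun z hz => ?_, hζ0, hζ1, hζ⟩
  · refine ⟨by norm_num, by linarith, ?_, fun z => ?_, fun z => ?_, fun z hz => ?_, fun z => ?_, fun z hz => ?_, fun z a => ?_,
      fun z a => ?_⟩
    · exact OBa_cd (V := Bil H) (w0 e) hζ hc
    · exact O11_add (O11_smul _ (hoo z)) (O11_smul _ (w0_O11 e))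
    · intro v
      have h1 : (ζ z • c z + (1 - ζ z) • w0 e) v (Complex.I • v) =
          ζ z * c z v (Complex.I • v) + (1 - ζ z) * w0 e v (Complex.I • v) := rfl
      rw [h1, w0_self]
      have h2 : 0 ≤ (1 - ζ z) * qf e v := mul_nonneg (by linarith [hζ1 z]) (qf_nonneg e v)
      by_cases hz : z ∈ qb e 3
      · exact add_nonneg (mul_nonneg (hζ0 z) (hn z hz v)) h2
      · rw [hout z hz, zero_mul, zero_add]
        rw [hout z hz] at h2
        exact h2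
    · exact OBa_zero (V := Bil H) (hout z hz) (c z) (w0 e)
    · refine le_min (mul_nonneg hτ.le (hu0 z)) ?_
      by_cases hz : z ∈ qb e 3
      · exact mul_nonneg (hζ0 z) (hρ0 z hz)
      · rw [hout z hz, zero_mul]
    · have h1 : ¬ qf e z < 3 ^ 2 := hz
      have h2 : (2 : ℝ) ^ 2 < qf e z := lt_of_lt_of_le (by norm_num) (not_lt.1 h1)
      show min (τ * u z) (ζ z * ρ z) = 0
      rw [hz1 z h2, hout z hz, zero_mul, min_self]
    · have ha := norm_nonneg a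
      have h1 : |τ * u (z + a) - τ * u z| ≤ B1 * ‖a‖ := hB1 z a
      have h2 : |ζ (z + a) * ρ (z + a) - ζ z * ρ z| ≤ B2 * ‖a‖ := hB2 z a
      refine (abs_min_sub_min_le_max _ _ _ _).trans (max_le (h1.trans ?_) (h2.trans ?_))
      · exact mul_le_mul_of_nonneg_right (by linarith) ha
      · exact mul_le_mul_of_nonneg_right (by linarith) ha
    · have ha : 0 ≤ ‖a‖ ^ 2 := by positivity
      have h1 : |τ * u (z + a) + τ * u (z - a) - 2 * (τ * u z)| ≤ B3 * ‖a‖ ^ 2 := hB3 z a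
      have h2 : |ζ (z + a) * ρ (z + a) + ζ (z - a) * ρ (z - a) - 2 * (ζ z * ρ z)| ≤ B4 * ‖a‖ ^ 2 := hB4 z a
      have h1' := (abs_le.1 h1).2
      have h2' := (abs_le.1 h2).2
      have h3 : B3 * ‖a‖ ^ 2 ≤ (B1 + B2 + B3 + B4) * ‖a‖ ^ 2 := mul_le_mul_of_nonneg_right (by linarith) ha
      have h4 : B4 * ‖a‖ ^ 2 ≤ (B1 + B2 + B3 + B4) * ‖a‖ ^ 2 := mul_le_mul_of_nonneg_right (by linarith) ha
      show min (τ * u (z + a)) (ζ (z + a) * ρ (z + a)) + min (τ * u (z - a)) (ζ (z - a) * ρ (z - a)) -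
        2 * min (τ * u z) (ζ z * ρ z) ≤ (B1 + B2 + B3 + B4) * ‖a‖ ^ 2
      rcases min_choice (τ * u z) (ζ z * ρ z) with h | h
      · rw [h]
        have h5 := min_le_left (τ * u (z + a)) (ζ (z + a) * ρ (z + a))
        have h6 := min_le_left (τ * u (z - a)) (ζ (z - a) * ρ (z - a))
        linarith
      · rw [h]
        have h5 := min_le_right (τ * u (z + a)) (ζ (z + a) * ρ (z + a))
        have h6 := min_le_right (τ * u (z - a)) (ζ (z - a) * ρ (z - a))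
        linarith
  · have h1 := hζs z hz
    exact ⟨OBa_one (V := Bil H) h1 (c z) (w0 e), h1⟩

end HDG
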