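import Pool.Agent.HDG.G2
import Pool.Agent.HDG.OBa

/-!
# HDG/G3: extension by zero, partition of unity, localisation

Functions with compact support in a ball extend by zero to smooth functions on `Y` (`Sm_ext`); a smooth partition of unity
(`exists_pou`); smooth functions and tensors on `Y` restricted to a ball extend to smooth functions and tensors on `H`.
-/

set_option autoImplicit false

noncomputable section

open scoped ContDiff Topology

namespace HDG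

open Pool.Agent.FBR

variable {H : Type*} [NormedAddCommGroup H] [NormedSpace ℂ H] {n : ℕ} {e : Module.Basis (Fin n) ℂ H}
  [FiniteDimensional ℂ H] {Y : Type*} [TopologicalSpace Y] (B : BM e Y)

omit [FiniteDimensional ℂ H] in
private theorem G3_qb {z : H} {t : ℝ} (ht : 0 ≤ t) (ht4 : t < 4) (hz : z ∉ qb e 4) : t ^ 2 < qf e z := by
  have h1 : ¬ qf e z < 4 ^ 2 := hz
  nlinarith

private theorem G3_cut {F : Type*} [NormedAddCommGroup F] [NormedSpace ℝ F] {κ : H → ℝ}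
    (hκ : ContDiff ℝ ∞ κ) {t : ℝ} (ht : 0 ≤ t) (ht4 : t < 4) (h0 : ∀ z, t ^ 2 ≤ qf e z → κ z = 0)
    {g : H → F} (hg : ContDiffOn ℝ ∞ g (qb e 4)) : ContDiff ℝ ∞ fun z => κ z • g z := by
  rw [contDiff_iff_contDiffAt]
  intro z
  by_cases hz : z ∈ qb e 4
  · exact hκ.contDiffAt.smul (hg.contDiffAt ((isOpen_qb e 4).mem_nhds hz))
  · have h1 : IsOpen {z : H | t ^ 2 < qf e z} := isOpen_lt continuous_const (qf_smooth e).continuous
    have h2 : z ∈ {z : H | t ^ 2 < qf e z} := G3_qb ht ht4 hz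
    refine (contDiffAt_const (c := (0 : F))).congr_of_eventuallyEq ?_
    filter_upwards [h1.mem_nhds h2] with x hx
    have hx' : t ^ 2 < qf e x := hx
    show κ x • g x = 0
    rw [h0 x hx'.le, zero_smul]

private theorem G3_supp {κ : H → ℝ} {t : ℝ} (h0 : ∀ z, t ^ 2 ≤ qf e z → κ z = 0) :
    tsupport κ ⊆ {z | qf e z ≤ t ^ 2} := by
  refine closure_minimal ?_ (isCompact_qb e t).isClosed
  intro z hz
  by_contra hz'
  have h1 : ¬ qf e z ≤ t ^ 2 := hz'
  exact hz (h0 z (le_of_lt (not_le.mp h1)))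

omit [FiniteDimensional ℂ H] in
private theorem G3_sub {t : ℝ} (ht : 0 ≤ t) (ht4 : t < 4) : {z : H | qf e z ≤ t ^ 2} ⊆ qb e 4 := by
  intro z hz
  have hz' : qf e z ≤ t ^ 2 := hz
  show qf e z < 4 ^ 2
  nlinarith

namespace BM

theorem ext_apply {i : B.I} {f : H → ℝ} {z : H} (hz : z ∈ qb e 4) : B.ext i f (B.ψ i z) = f z := by
  unfold ext
  rw [if_pos ⟨z, hz, rfl⟩]
  exact congrArg f (B.T_self hz)

theorem ext_zero {i : B.I} {f : H → ℝ} {y : Y} (hy : ∀ z ∈ qb e 4, B.ψ i z = y → f z = 0) : B.ext i f y = 0 := by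
  by_cases h : y ∈ B.ψ i '' qb e 4
  · obtain ⟨z, hz, rfl⟩ := h
    rw [B.ext_apply hz]
    exact hy z hz rfl
  · unfold ext
    rw [if_neg h]

theorem Sm_ext [T2Space Y] (i : B.I) {f : H → ℝ} (hf : ContDiff ℝ ∞ f) (hs : tsupport f ⊆ qb e 4) :
    B.Sm (B.ext i f) := by
  intro j z hz
  refine ContDiffAt.contDiffWithinAt ?_
  by_cases h : z ∈ B.D j i
  · have h1 : ContDiffAt ℝ ∞ (fun z => f (B.T j i z)) z :=
      ContDiffAt.comp (g := f) z hf.contDiffAt (B.T_cd h)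
    refine h1.congr_of_eventuallyEq ?_
    filter_upwards [(B.D_open j i).mem_nhds h] with x hx
    show B.ext i f (B.ψ j x) = f (B.T j i x)
    rw [← B.ψ_T hx, B.ext_apply (B.T_mem hx)]
  · have hK : IsCompact (tsupport f) := by
      refine (isCompact_qb e 4).of_isClosed_subset (isClosed_tsupport f) ?_
      intro x hx
      have h1 : qf e x < 4 ^ 2 := hs hx
      exact h1.le
    have hK1 : IsClosed (B.ψ i '' tsupport f) :=
      (hK.image_of_continuousOn ((B.cont i).mono hs)).isClosed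
    have h2 : B.ψ j z ∈ (B.ψ i '' tsupport f)ᶜ := by
      rintro ⟨w, hw, hw'⟩
      exact h ⟨hz, w, hs hw, hw'⟩
    have h3 : ContinuousAt (B.ψ j) z := (B.cont j).continuousAt ((isOpen_qb e 4).mem_nhds hz)
    have h4 : ∀ᶠ x in 𝓝 z, B.ψ j x ∈ (B.ψ i '' tsupport f)ᶜ :=
      h3.eventually (hK1.isOpen_compl.mem_nhds h2)
    refine (contDiffAt_const (c := (0 : ℝ))).congr_of_eventuallyEq ?_
    filter_upwards [h4] with x hx
    refine B.ext_zero fun w hw hwx => ?_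
    by_contra hfw
    exact hx ⟨w, subset_tsupport f hfw, hwx⟩

theorem dd_ext {i : B.I} {f : H → ℝ} {z : H} (hz : z ∈ qb e 4) : B.dd (B.ext i f) i z = ddc f z := by
  refine ddc_congr ?_
  filter_upwards [(isOpen_qb e 4).mem_nhds hz] with x hx
  exact B.ext_apply hx

/-- a partition of unity; `c i` is the function `χ i` in the ball `i` -/
structure Pou (χ : B.I → Y → ℝ) (c : B.I → H → ℝ) : Prop where
  sm : ∀ i, B.Sm (χ i)
  nn : ∀ i y, 0 ≤ χ i y
  sum : ∀ y, ∑ i, χ i y = 1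
  csm : ∀ i, ContDiff ℝ ∞ (c i)
  cs : ∀ i, tsupport (c i) ⊆ {z | qf e z ≤ (3 / 2) ^ 2}
  eq : ∀ i, ∀ z ∈ qb e 4, χ i (B.ψ i z) = c i z
  out : ∀ i y, (∀ z ∈ qb e 4, B.ψ i z ≠ y) → χ i y = 0

theorem exists_pou [T2Space Y] : ∃ χ c, B.Pou χ c := by
  obtain ⟨ρ, hρ, hρ0, -, hρ1, hρz⟩ := exists_cut' e (s := 1) (t := 3 / 2) one_pos (by norm_num)
  have hsup : tsupport ρ ⊆ {z | qf e z ≤ (3 / 2) ^ 2} := G3_supp hρz
  have hsup4 : tsupport ρ ⊆ qb e 4 := hsup.trans (G3_sub (by norm_num) (by norm_num))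
  have hR : ∀ i, B.Sm (B.ext i ρ) := fun i => B.Sm_ext i hρ hsup4
  have hRn : ∀ i y, 0 ≤ B.ext i ρ y := by
    intro i y
    by_cases h : y ∈ B.ψ i '' qb e 4
    · obtain ⟨z, hz, rfl⟩ := h
      rw [B.ext_apply hz]
      exact hρ0 z
    · exact (B.ext_zero fun z hz hzy => absurd ⟨z, hz, hzy⟩ h).ge
  obtain ⟨S, hS⟩ : ∃ S : Y → ℝ, ∀ y, S y = ∑ i, B.ext i ρ y := ⟨_, fun _ => rfl⟩
  have hSs : B.Sm S := by
    have h1 := B.Sm_sum Finset.univ (f := fun i => B.ext i ρ) fun i _ => hR i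
    have h2 : S = fun y => ∑ i, B.ext i ρ y := funext hS
    rw [h2]
    exact h1
  have hS1 : ∀ y, 1 ≤ S y := by
    intro y
    obtain ⟨i, z, hz, rfl⟩ := B.cov y
    have hz1 : qf e z < 1 ^ 2 := hz
    have hz4 : z ∈ qb e 4 := by
      show qf e z < 4 ^ 2
      norm_num at hz1 ⊢
      linarith
    have h1 : B.ext i ρ (B.ψ i z) = 1 := by
      rw [B.ext_apply hz4]
      exact hρ1 z hz1.le
    rw [hS, ← h1]
    exact Finset.single_le_sum (f := fun k => B.ext k ρ (B.ψ i z)) (fun k _ => hRn k _)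
      (Finset.mem_univ i)
  have hS0 : ∀ y, S y ≠ 0 := fun y => (zero_lt_one.trans_le (hS1 y)).ne'
  refine ⟨fun i y => B.ext i ρ y / S y, fun i z => ρ z / S (B.ψ i z), ?_⟩
  have hsupc : ∀ i : B.I, ∀ z, (3 / 2 : ℝ) ^ 2 ≤ qf e z → ρ z / S (B.ψ i z) = 0 := by
    intro i z hz
    rw [hρz z hz, zero_div]
  refine ⟨?_, ?_, ?_, ?_, ?_, ?_, ?_⟩
  · exact fun i => B.Sm_div (hR i) hSs hS0
  · exact fun i y => div_nonneg (hRn i y) (by linarith [hS1 y])
  · intro y
    rw [← Finset.sum_div, ← hS, div_self (hS0 y)]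
  · intro i
    have h1 : ContDiffOn ℝ ∞ (fun z => (S (B.ψ i z))⁻¹) (qb e 4) :=
      ContDiffOn.inv (hSs i) fun z _ => hS0 _
    have h2 := G3_cut hρ (t := 3 / 2) (by norm_num) (by norm_num) hρz h1
    have h3 : (fun z => ρ z / S (B.ψ i z)) = fun z => ρ z • (S (B.ψ i z))⁻¹ := by
      funext z
      rw [smul_eq_mul, div_eq_mul_inv]
    rw [h3]
    exact h2
  · intro i
    exact G3_supp (hsupc i)
  · intro i z hz
    show B.ext i ρ (B.ψ i z) / S (B.ψ i z) = ρ z / S (B.ψ i z)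
    rw [B.ext_apply hz]
  · intro i y hy
    show B.ext i ρ y / S y = 0
    rw [B.ext_zero (f := ρ) fun z hz hzy => absurd hzy (hy z hz), zero_div]

theorem loc_fun {f : Y → ℝ} (hf : B.Sm f) (i : B.I) : ∃ φ : H → ℝ, ContDiff ℝ ∞ φ ∧
    (∀ z, qf e z ≤ (7 / 2) ^ 2 → φ z = f (B.ψ i z)) ∧ ∀ z ∈ qb e (7 / 2), ddc φ z = B.dd f i z := by
  obtain ⟨κ, hκ, -, -, hκ1, hκz⟩ := exists_cut' e (s := 7 / 2) (t := 15 / 4) (by norm_num) (by norm_num)
  refine ⟨fun z => κ z • f (B.ψ i z), G3_cut hκ (by norm_num) (by norm_num) hκz (hf i), ?_, ?_⟩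
  · intro z hz
    show κ z • f (B.ψ i z) = f (B.ψ i z)
    rw [hκ1 z hz, one_smul]
  · intro z hz
    refine ddc_congr ?_
    filter_upwards [(isOpen_qb e (7 / 2)).mem_nhds hz] with x hx
    have hx' : qf e x < (7 / 2) ^ 2 := hx
    show κ x • f (B.ψ i x) = f (B.ψ i x)
    rw [hκ1 x hx'.le, one_smul]

theorem loc_ten {a : B.I → H → Bil H} (ha : B.IsT a) (i : B.I) : ∃ b : H → Bil H, ContDiff ℝ ∞ b ∧ (∀ z, O11 (b z)) ∧
    (∀ z, qf e z ≤ (7 / 2) ^ 2 → b z = a i z) ∧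
    (B.ClT a → ∀ z ∈ qb e (7 / 2), ∀ u v w : H, ext2 b z u v w = 0) := by
  obtain ⟨κ, hκ, -, -, hκ1, hκz⟩ := exists_cut' e (s := 7 / 2) (t := 15 / 4) (by norm_num) (by norm_num)
  refine ⟨fun z => κ z • a i z, G3_cut hκ (by norm_num) (by norm_num) hκz (ha.sm i), ?_, ?_, ?_⟩
  · intro z
    by_cases hz : z ∈ qb e 4
    · exact O11_smul _ (ha.oo i z hz)
    · have h1 : κ z = 0 := hκz z (G3_qb (by norm_num) (by norm_num) hz).le
      have h0 : κ z • a i z = (0 : Bil H) := by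
        refine ContinuousLinearMap.ext fun u => ContinuousLinearMap.ext fun v => ?_
        show κ z * a i z u v = 0
        rw [h1, zero_mul]
      show O11 (κ z • a i z)
      rw [h0]
      exact O11_zero
  · intro z hz
    show κ z • a i z = a i z
    rw [hκ1 z hz, one_smul]
  · intro hcl z hz u v w
    have h1 : (fun z => κ z • a i z) =ᶠ[𝓝 z] a i := by
      filter_upwards [(isOpen_qb e (7 / 2)).mem_nhds hz] with x hx
      have hx' : qf e x < (7 / 2) ^ 2 := hx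
      show κ x • a i x = a i x
      rw [hκ1 x hx'.le, one_smul]
    have hz4 : z ∈ qb e 4 := by
      have hz' : qf e z < (7 / 2) ^ 2 := hz
      show qf e z < 4 ^ 2
      norm_num at hz' ⊢
      linarith
    have h2 := hcl i z hz4 u v w
    unfold ext2 at h2 ⊢
    rw [h1.fderiv_eq]
    exact h2

end BM

end HDG
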