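import Pool.Agent.HDG.F2
import Pool.Agent.HDG.G3

/-!
# HDG/F3: the weak equation

The limit `f` of the functions `a j + α j` satisfies `dd^c (t + f) = 0` in the weak sense in every ball: for test functions
`χ ≥ 0` the integral of `(t + f) dd^c χ` is the limit of the integrals of `χ dd^c (t + a j)` (integration by parts), which are
at least `- δ j` with `δ j → 0`; the same for `- t`, `- f`.
-/

set_option autoImplicit false

noncomputable section

open scoped ContDiff Topology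

open MeasureTheory

namespace HDG

open Pool.Agent.FBR

variable {H : Type*} [NormedAddCommGroup H] [NormedSpace ℂ H] {n : ℕ} {e : Module.Basis (Fin n) ℂ H}
  [FiniteDimensional ℂ H] [MeasurableSpace H] [BorelSpace H] {μ : Measure H} [μ.IsAddHaarMeasure]
  {X : Type*} [TopologicalSpace X] [CompactSpace X] [T2Space X] [MeasurableSpace X] [BorelSpace X]
  (B : BM e X) {t : B.I → H → ℝ} {w b : B.I → H → Bil H} {ν : Measure X}

/-! ### Integration by parts -/

private theorem F3_smd {Φ : H → ℝ} (hΦ : ContDiff ℝ ∞ Φ) (v : H) :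
    ContDiff ℝ ∞ fun z => fderiv ℝ Φ z v :=
  (hΦ.fderiv_right (m := ∞) (by norm_num)).clm_apply contDiff_const

private theorem F3_d2 {Φ : H → ℝ} (hΦ : ContDiff ℝ ∞ Φ) (v z : H) :
    fderiv ℝ (fun z => fderiv ℝ Φ z v) z v = fderiv ℝ (fderiv ℝ Φ) z v v := by
  have h1 : DifferentiableAt ℝ (fderiv ℝ Φ) z :=
    ((hΦ.fderiv_right (m := ∞) (by norm_num)).differentiable (by norm_num)) z
  rw [fderiv_clm_apply h1 (differentiableAt_const v)]
  simp

private theorem F3_ibp1 {Φ χ : H → ℝ} (hΦ : ContDiff ℝ ∞ Φ) (hχ : ContDiff ℝ ∞ χ)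
    (hc : HasCompactSupport χ) (v : H) :
    ∫ z, Φ z * fderiv ℝ (fderiv ℝ χ) z v v ∂μ = ∫ z, χ z * fderiv ℝ (fderiv ℝ Φ) z v v ∂μ := by
  have hχ' := F3_smd hχ v
  have hΦ' := F3_smd hΦ v
  have hc' : HasCompactSupport fun z => fderiv ℝ χ z v := hc.fderiv_apply (𝕜 := ℝ) v
  have hc'' : HasCompactSupport fun z => fderiv ℝ (fun z => fderiv ℝ χ z v) z v :=
    hc'.fderiv_apply (𝕜 := ℝ) v
  have c1 : Continuous fun z => fderiv ℝ (fun z => fderiv ℝ χ z v) z v := (F3_smd hχ' v).continuous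
  have c2 : Continuous fun z => fderiv ℝ (fun z => fderiv ℝ Φ z v) z v := (F3_smd hΦ' v).continuous
  have e1 : ∫ z, Φ z * fderiv ℝ (fun z => fderiv ℝ χ z v) z v ∂μ =
      - ∫ z, fderiv ℝ Φ z v * fderiv ℝ χ z v ∂μ := by
    refine integral_mul_fderiv_eq_neg_fderiv_mul_of_integrable ?_ ?_ ?_ ?_ ?_
    · exact (hΦ'.continuous.mul hχ'.continuous).integrable_of_hasCompactSupport hc'.mul_left
    · exact (hΦ.continuous.mul c1).integrable_of_hasCompactSupport hc''.mul_left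
    · exact (hΦ.continuous.mul hχ'.continuous).integrable_of_hasCompactSupport hc'.mul_left
    · exact fun x _ => (hΦ.differentiable (by norm_num)) x
    · exact fun x _ => (hχ'.differentiable (by norm_num)) x
  have e2 : ∫ z, fderiv ℝ Φ z v * fderiv ℝ χ z v ∂μ =
      - ∫ z, fderiv ℝ (fun z => fderiv ℝ Φ z v) z v * χ z ∂μ := by
    refine integral_mul_fderiv_eq_neg_fderiv_mul_of_integrable ?_ ?_ ?_ ?_ ?_
    · exact (c2.mul hχ.continuous).integrable_of_hasCompactSupport hc.mul_left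
    · exact (hΦ'.continuous.mul hχ'.continuous).integrable_of_hasCompactSupport hc'.mul_left
    · exact (hΦ'.continuous.mul hχ.continuous).integrable_of_hasCompactSupport hc.mul_left
    · exact fun x _ => (hΦ'.differentiable (by norm_num)) x
    · exact fun x _ => (hχ.differentiable (by norm_num)) x
  rw [e2, neg_neg] at e1
  simp only [F3_d2 hχ, F3_d2 hΦ] at e1
  rw [e1]
  exact integral_congr_ae (Filter.Eventually.of_forall fun z => mul_comm _ _)

private theorem F3_ibp {Φ χ : H → ℝ} (hΦ : ContDiff ℝ ∞ Φ) (hχ : ContDiff ℝ ∞ χ)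
    (hc : HasCompactSupport χ) (ξ : H) :
    ∫ z, Φ z * ddc χ z ξ (Complex.I • ξ) ∂μ = ∫ z, χ z * ddc Φ z ξ (Complex.I • ξ) ∂μ := by
  have cc : ∀ (F : H → ℝ) (v : H), ContDiff ℝ ∞ F → Continuous fun z => fderiv ℝ (fderiv ℝ F) z v v := by
    intro F v hF
    have := (F3_smd (F3_smd hF v) v).continuous
    simp only [F3_d2 hF] at this
    exact this
  have cs : ∀ v : H, HasCompactSupport fun z => fderiv ℝ (fderiv ℝ χ) z v v := by
    intro v
    have h1 : HasCompactSupport fun z => fderiv ℝ χ z v := hc.fderiv_apply (𝕜 := ℝ) v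
    have := h1.fderiv_apply (𝕜 := ℝ) v
    simp only [F3_d2 hχ] at this
    exact this
  have i1 : ∀ v : H, Integrable (fun z => Φ z * fderiv ℝ (fderiv ℝ χ) z v v) μ := fun v =>
    (hΦ.continuous.mul (cc χ v hχ)).integrable_of_hasCompactSupport (cs v).mul_left
  have i2 : ∀ v : H, Integrable (fun z => χ z * fderiv ℝ (fderiv ℝ Φ) z v v) μ := fun v =>
    (hχ.continuous.mul (cc Φ v hΦ)).integrable_of_hasCompactSupport hc.mul_right
  have e1 : ∀ z, Φ z * ddc χ z ξ (Complex.I • ξ) = (1 / 2) * (Φ z * fderiv ℝ (fderiv ℝ χ) z ξ ξ +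
      Φ z * fderiv ℝ (fderiv ℝ χ) z (Complex.I • ξ) (Complex.I • ξ)) := by
    intro z
    rw [ddc_self]
    ring
  have e2 : ∀ z, χ z * ddc Φ z ξ (Complex.I • ξ) = (1 / 2) * (χ z * fderiv ℝ (fderiv ℝ Φ) z ξ ξ +
      χ z * fderiv ℝ (fderiv ℝ Φ) z (Complex.I • ξ) (Complex.I • ξ)) := by
    intro z
    rw [ddc_self]
    ring
  simp only [e1, e2]
  rw [integral_const_mul, integral_const_mul, integral_add (i1 _) (i1 _), integral_add (i2 _) (i2 _),
    F3_ibp1 hΦ hχ hc, F3_ibp1 hΦ hχ hc]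

/-! ### Test functions -/

omit [FiniteDimensional ℂ H] [MeasurableSpace H] [BorelSpace H] in
private theorem F3_le3 {z : H} (hz : z ∈ qb e 3) : z ∈ {z : H | qf e z ≤ 3 ^ 2} := by
  have h : qf e z < 3 ^ 2 := hz
  exact h.le

private theorem F3_cpt {χ : H → ℝ} (hs : tsupport χ ⊆ qb e 3) : HasCompactSupport χ :=
  (isCompact_qb e 3).of_isClosed_subset (isClosed_tsupport χ) fun z hz => F3_le3 (hs hz)

omit [FiniteDimensional ℂ H] [MeasurableSpace H] [BorelSpace H] in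
private theorem F3_off {χ : H → ℝ} {z : H} (hz : z ∉ tsupport χ) (ξ : H) :
    ddc χ z ξ (Complex.I • ξ) = 0 := by
  rw [notMem_tsupport_iff_eventuallyEq] at hz
  rw [ddc_congr hz, ddc_self]
  have h1 : fderiv ℝ (0 : H → ℝ) = 0 := by
    funext x
    exact fderiv_const_apply (0 : ℝ)
  have h2 : fderiv ℝ (fderiv ℝ (0 : H → ℝ)) z = 0 := by
    rw [h1]
    exact fderiv_const_apply (0 : H →L[ℝ] ℝ)
  rw [h2]
  simp

private theorem F3_gc {χ : H → ℝ} (hχ : ContDiff ℝ ∞ χ) (ξ : H) :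
    Continuous fun z => ddc χ z ξ (Complex.I • ξ) := by
  have h1 : Continuous (ddc χ) :=
    continuous_iff_continuousAt.2 fun z => (ddc_smooth hχ.contDiffAt).continuousAt
  exact (h1.clm_apply continuous_const).clm_apply continuous_const

private theorem F3_gs {χ : H → ℝ} (hs : tsupport χ ⊆ qb e 3) (ξ : H) :
    HasCompactSupport fun z => ddc χ z ξ (Complex.I • ξ) :=
  HasCompactSupport.intro (F3_cpt hs) fun _ hz => F3_off hz ξ

/-! ### Integrals over a ball -/

namespace BM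

omit [MeasurableSpace H] [BorelSpace H] [CompactSpace X] [T2Space X] [MeasurableSpace X] [BorelSpace X] in
private theorem F3_sub : {z : H | qf e z ≤ 3 ^ 2} ⊆ qb e 4 := by
  intro z hz
  have hz' : qf e z ≤ 3 ^ 2 := hz
  show qf e z < 4 ^ 2
  nlinarith

private theorem F3_box (hw : B.Met w) (hν : B.IsVol μ w ν) (i : B.I) : ∃ K : ℝ, 0 ≤ K ∧
    ∀ g : X → ℝ, Measurable g → Integrable g ν →
      IntegrableOn (fun z => g (B.ψ i z)) (qb e 3) μ ∧
        ∫ z in qb e 3, |g (B.ψ i z)| ∂μ ≤ K * ∫ x, |g x| ∂ν := by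
  have hne : ({z : H | qf e z ≤ 3 ^ 2} : Set H).Nonempty := ⟨0, by
    show qf e (0 : H) ≤ 3 ^ 2
    rw [qf_zero]
    norm_num⟩
  have hcont : ContinuousOn (fun z => dt e (w i z)) {z : H | qf e z ≤ 3 ^ 2} :=
    ((dt_smooth e).continuous.comp_continuousOn (hw.t.sm i).continuousOn).mono F3_sub
  obtain ⟨z0, hz0, hmin⟩ := (isCompact_qb e 3).exists_isMinOn hne hcont
  obtain ⟨c, hcdef⟩ : ∃ c, c = dt e (w i z0) := ⟨_, rfl⟩
  have hc : 0 < c := by
    rw [hcdef]
    exact B.dt_w_pos hw (F3_sub hz0)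
  have hmin' : ∀ z ∈ qb e 3, c ≤ dt e (w i z) := by
    intro z hz
    rw [hcdef]
    exact hmin (F3_le3 hz)
  have h34 : (qb e 3 : Set H) ⊆ qb e 4 := qb_mono (by norm_num) (by norm_num)
  have hm3 : MeasurableSet (qb e 3 : Set H) := (isOpen_qb e 3).measurableSet
  have hψ3 : AEMeasurable (B.ψ i) (μ.restrict (qb e 3)) := ((B.cont i).mono h34).aemeasurable hm3
  refine ⟨c⁻¹, (inv_pos.2 hc).le, fun g hg hgi => ?_⟩
  have key : ∫⁻ z in qb e 3, ‖g (B.ψ i z)‖ₑ ∂μ ≤ ENNReal.ofReal c⁻¹ * ∫⁻ x, ‖g x‖ₑ ∂ν := by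
    calc ∫⁻ z in qb e 3, ‖g (B.ψ i z)‖ₑ ∂μ
        ≤ ∫⁻ z in qb e 3, ENNReal.ofReal c⁻¹ *
            (‖g (B.ψ i z)‖ₑ * ENNReal.ofReal (dt e (w i z))) ∂μ := by
          refine setLIntegral_mono' hm3 fun z hz => ?_
          have h1 : 1 ≤ ENNReal.ofReal c⁻¹ * ENNReal.ofReal (dt e (w i z)) := by
            rw [← ENNReal.ofReal_mul (inv_pos.2 hc).le, ← ENNReal.ofReal_one]
            apply ENNReal.ofReal_le_ofReal
            have := hmin' z hz
            rw [inv_mul_eq_div, le_div_iff₀ hc]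
            linarith
          calc ‖g (B.ψ i z)‖ₑ = ‖g (B.ψ i z)‖ₑ * 1 := (mul_one _).symm
            _ ≤ ‖g (B.ψ i z)‖ₑ * (ENNReal.ofReal c⁻¹ * ENNReal.ofReal (dt e (w i z))) := by
              gcongr
            _ = _ := by ring
      _ = ENNReal.ofReal c⁻¹ *
            ∫⁻ z in qb e 3, ‖g (B.ψ i z)‖ₑ * ENNReal.ofReal (dt e (w i z)) ∂μ :=
          lintegral_const_mul' _ _ ENNReal.ofReal_ne_top
      _ ≤ ENNReal.ofReal c⁻¹ *
            ∫⁻ z in qb e 4, ‖g (B.ψ i z)‖ₑ * ENNReal.ofReal (dt e (w i z)) ∂μ := by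
          gcongr
      _ = ENNReal.ofReal c⁻¹ * ∫⁻ x in B.ψ i '' qb e 4, ‖g x‖ₑ ∂ν := by
          rw [hν.box i (fun x => ‖g x‖ₑ) hg.enorm]
      _ ≤ ENNReal.ofReal c⁻¹ * ∫⁻ x, ‖g x‖ₑ ∂ν := by
          gcongr
          exact Measure.restrict_le_self
  have hfin : ENNReal.ofReal c⁻¹ * ∫⁻ x, ‖g x‖ₑ ∂ν < ⊤ :=
    ENNReal.mul_lt_top ENNReal.ofReal_lt_top hgi.2
  have hmeas : AEStronglyMeasurable (fun z => g (B.ψ i z)) (μ.restrict (qb e 3)) :=
    (hg.comp_aemeasurable hψ3).aestronglyMeasurable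
  refine ⟨⟨hmeas, lt_of_le_of_lt key hfin⟩, ?_⟩
  have e1 : ∫ z in qb e 3, |g (B.ψ i z)| ∂μ = (∫⁻ z in qb e 3, ‖g (B.ψ i z)‖ₑ ∂μ).toReal :=
    integral_norm_eq_lintegral_enorm hmeas
  have e2 : ∫ x, |g x| ∂ν = (∫⁻ x, ‖g x‖ₑ ∂ν).toReal :=
    integral_norm_eq_lintegral_enorm hgi.1
  rw [e1, e2]
  refine (ENNReal.toReal_mono hfin.ne key).trans (le_of_eq ?_)
  rw [ENNReal.toReal_mul, ENNReal.toReal_ofReal (inv_pos.2 hc).le]

omit [CompactSpace X] [T2Space X] [MeasurableSpace X] [BorelSpace X] in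
private theorem F3_int {g : H → ℝ} (hg : ContinuousOn g (qb e 4)) : IntegrableOn g (qb e 3) μ :=
  ((hg.mono F3_sub).integrableOn_compact (isCompact_qb e 3)).mono_set fun _ hz => F3_le3 hz

private theorem F3_ge (hw : B.Met w) (hν : B.IsVol μ w ν) (ht : B.Per t) {C : ℝ} {a : ℕ → X → ℝ}
    {α : ℕ → ℝ} {f : X → ℝ} (ha : B.Apx t w ν C a) (hfm : Measurable f) (hf : Integrable f ν)
    (h1 : Filter.Tendsto (fun j => ∫ x, |a j x + α j - f x| ∂ν) Filter.atTop (𝓝 0)) (i : B.I)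
    {χ : H → ℝ} (hχ : ContDiff ℝ ∞ χ) (hs : tsupport χ ⊆ qb e 3) (h0 : ∀ z, 0 ≤ χ z) (ξ : H) :
    0 ≤ ∫ z in qb e 3, (t i z + f (B.ψ i z)) * ddc χ z ξ (Complex.I • ξ) ∂μ := by
  have : IsFiniteMeasure ν := hν.fin
  obtain ⟨K, hK0, hK⟩ := B.F3_box hw hν i
  have hm3 : MeasurableSet (qb e 3 : Set H) := (isOpen_qb e 3).measurableSet
  have h34 : (qb e 3 : Set H) ⊆ qb e 4 := qb_mono (by norm_num) (by norm_num)
  have hgc := F3_gc hχ ξ
  have hgs := F3_gs hs ξ
  obtain ⟨M, hM⟩ := hgc.bounded_above_of_compact_support hgs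
  obtain ⟨Xc, hXc⟩ := hχ.continuous.bounded_above_of_compact_support (F3_cpt hs)
  obtain ⟨Cw, hCw0, hCw⟩ := B.IsT_bd hw.t (r := 3) (by norm_num) (by norm_num)
  have hM0 : 0 ≤ M := (norm_nonneg _).trans (hM 0)
  have hX0 : 0 ≤ Xc := (norm_nonneg _).trans (hXc 0)
  have hC0 : 0 ≤ C := (integral_nonneg fun x => abs_nonneg (a 0 x)).trans (ha.l1 0)
  have hfin3 : μ (qb e 3) ≠ ⊤ :=
    ((measure_mono fun z hz => F3_le3 hz).trans_lt (isCompact_qb e 3).measure_lt_top).ne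
  -- continuity of the local functions
  have hac : ∀ j, Continuous (a j) := fun j => B.Sm_cont (ha.sm j)
  have hai : ∀ j, Integrable (a j) ν := by
    intro j
    obtain ⟨x0, hx0⟩ | hemp := Classical.em (Nonempty X) |>.imp (fun h => (⟨h.some, trivial⟩ : ∃ _ : X, True)) id
    · obtain ⟨A, hA⟩ := (isCompact_univ (X := X)).exists_bound_of_continuousOn (hac j).continuousOn
      exact B.bd_int hν (hac j).measurable (C := A) fun y => by simpa using hA y (Set.mem_univ y)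
    · have : IsEmpty X := not_nonempty_iff.1 hemp
      exact B.bd_int hν (hac j).measurable (C := 0) fun y => isEmptyElim y
  have hti : IntegrableOn (t i) (qb e 3) μ := F3_int (ht.sm i).continuousOn
  have haψ : ∀ j, IntegrableOn (fun z => a j (B.ψ i z)) (qb e 3) μ := fun j =>
    F3_int ((ha.sm j) i).continuousOn
  have hfψ : IntegrableOn (fun z => f (B.ψ i z)) (qb e 3) μ := (hK f hfm hf).1
  have hcst : ∀ c : ℝ, IntegrableOn (fun _ : H => c) (qb e 3) μ := fun c =>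
    integrableOn_const hfin3
  have hmul : ∀ F : H → ℝ, IntegrableOn F (qb e 3) μ →
      IntegrableOn (fun z => F z * ddc χ z ξ (Complex.I • ξ)) (qb e 3) μ := fun F hF =>
    Integrable.mul_bdd (c := M) hF hgc.aestronglyMeasurable (Filter.Eventually.of_forall hM)
  -- the limit
  have hlim : Filter.Tendsto (fun j => ∫ z in qb e 3, (t i z + a j (B.ψ i z) + α j) *
      ddc χ z ξ (Complex.I • ξ) ∂μ) Filter.atTop
      (𝓝 (∫ z in qb e 3, (t i z + f (B.ψ i z)) * ddc χ z ξ (Complex.I • ξ) ∂μ)) := by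
    rw [tendsto_iff_dist_tendsto_zero]
    have h2 : Filter.Tendsto (fun j => M * (K * ∫ x, |a j x + α j - f x| ∂ν)) Filter.atTop (𝓝 0) := by
      have := (h1.const_mul K).const_mul M
      simpa using this
    refine squeeze_zero (fun j => dist_nonneg) (fun j => ?_) h2
    have hg1 : Measurable fun x => a j x + α j - f x := ((hac j).measurable.add_const _).sub hfm
    have hg2 : Integrable (fun x => a j x + α j - f x) ν :=
      ((hai j).add (integrable_const _)).sub hf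
    obtain ⟨hg3, hg4⟩ := hK _ hg1 hg2
    have i1 : IntegrableOn (fun z => (t i z + a j (B.ψ i z) + α j) * ddc χ z ξ (Complex.I • ξ))
        (qb e 3) μ := hmul (fun z => t i z + a j (B.ψ i z) + α j) ((hti.add (haψ j)).add (hcst (α j)))
    have i2 : IntegrableOn (fun z => (t i z + f (B.ψ i z)) * ddc χ z ξ (Complex.I • ξ))
        (qb e 3) μ := hmul (fun z => t i z + f (B.ψ i z)) (hti.add hfψ)
    rw [Real.dist_eq, ← integral_sub i1 i2]
    have e1 : ∀ z, (t i z + a j (B.ψ i z) + α j) * ddc χ z ξ (Complex.I • ξ) -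
        (t i z + f (B.ψ i z)) * ddc χ z ξ (Complex.I • ξ) =
        (a j (B.ψ i z) + α j - f (B.ψ i z)) * ddc χ z ξ (Complex.I • ξ) := fun z => by ring
    simp only [e1]
    refine (abs_integral_le_integral_abs).trans ?_
    calc ∫ z in qb e 3, |(a j (B.ψ i z) + α j - f (B.ψ i z)) * ddc χ z ξ (Complex.I • ξ)| ∂μ
        ≤ ∫ z in qb e 3, M * |a j (B.ψ i z) + α j - f (B.ψ i z)| ∂μ := by
          refine integral_mono (hmul _ hg3).abs (hg3.abs.const_mul M) fun z => ?_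
          show |(a j (B.ψ i z) + α j - f (B.ψ i z)) * ddc χ z ξ (Complex.I • ξ)| ≤
            M * |a j (B.ψ i z) + α j - f (B.ψ i z)|
          rw [abs_mul, mul_comm]
          exact mul_le_mul_of_nonneg_right (hM z) (abs_nonneg _)
      _ = M * ∫ z in qb e 3, |a j (B.ψ i z) + α j - f (B.ψ i z)| ∂μ := integral_const_mul _ _
      _ ≤ _ := mul_le_mul_of_nonneg_left hg4 hM0
  -- the lower bound
  obtain ⟨V, hV⟩ : ∃ V, V = (μ (qb e 3)).toReal := ⟨_, rfl⟩
  obtain ⟨W, hWdef⟩ : ∃ W, W = Xc * (Cw * ‖ξ‖ * ‖Complex.I • ξ‖) := ⟨_, rfl⟩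
  have hW0 : 0 ≤ W := by
    rw [hWdef]
    positivity
  have hlow : ∀ j : ℕ, 2 ≤ j → -(W * ((1 / 2 ^ j) * V + C / ((j : ℝ) - 1) * (K * C))) ≤
      ∫ z in qb e 3, (t i z + a j (B.ψ i z) + α j) * ddc χ z ξ (Complex.I • ξ) ∂μ := by
    intro j hj
    have hj1 : (0 : ℝ) < (j : ℝ) - 1 := by
      have : (2 : ℝ) ≤ (j : ℝ) := by exact_mod_cast hj
      linarith
    obtain ⟨κ, hκ, hκ0, hκ1, hκs, hκt⟩ := exists_cut' e (s := 3) (t := 7 / 2) (by norm_num) (by norm_num)
    obtain ⟨Φ, hΦdef⟩ : ∃ Φ : H → ℝ, Φ = fun z => κ z * (t i z + a j (B.ψ i z)) + α j := ⟨_, rfl⟩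
    have hsum : ContDiffOn ℝ ∞ (fun z => t i z + a j (B.ψ i z)) (qb e 4) := (ht.sm i).add (ha.sm j i)
    have hΦ : ContDiff ℝ ∞ Φ := by
      rw [hΦdef]
      refine ContDiff.add ?_ contDiff_const
      rw [contDiff_iff_contDiffAt]
      intro z
      by_cases hz : z ∈ qb e 4
      · exact hκ.contDiffAt.mul (hsum.contDiffAt ((isOpen_qb e 4).mem_nhds hz))
      · have h3 : IsOpen {z : H | (7 / 2 : ℝ) ^ 2 < qf e z} :=
          isOpen_lt continuous_const (qf_smooth e).continuous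
        have h4 : z ∈ {z : H | (7 / 2 : ℝ) ^ 2 < qf e z} := by
          have h5 : ¬ qf e z < 4 ^ 2 := hz
          show (7 / 2 : ℝ) ^ 2 < qf e z
          linarith
        refine (contDiffAt_const (c := (0 : ℝ))).congr_of_eventuallyEq ?_
        filter_upwards [h3.mem_nhds h4] with x hx
        have hx' : (7 / 2 : ℝ) ^ 2 < qf e x := hx
        show κ x * _ = 0
        rw [hκt x hx'.le, zero_mul]
    have hΦ3 : ∀ z ∈ qb e 3, Φ z = t i z + a j (B.ψ i z) + α j := by
      intro z hz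
      rw [hΦdef]
      show κ z * (t i z + a j (B.ψ i z)) + α j = _
      rw [hκs z (F3_le3 hz), one_mul]
    have hdd : ∀ z ∈ qb e 3, ddc Φ z = B.ddt t i z + B.dd (a j) i z := by
      intro z hz
      have h3 : Φ =ᶠ[𝓝 z] fun z => (t i z + a j (B.ψ i z)) + α j := by
        filter_upwards [(isOpen_qb e 3).mem_nhds hz] with x hx
        exact hΦ3 x hx
      have ct : ContDiffAt ℝ 2 (t i) z :=
        ((ht.sm i).contDiffAt ((isOpen_qb e 4).mem_nhds (h34 hz))).of_le (by norm_cast)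
      have ca : ContDiffAt ℝ 2 (fun z => a j (B.ψ i z)) z :=
        ((ha.sm j i).contDiffAt ((isOpen_qb e 4).mem_nhds (h34 hz))).of_le (by norm_cast)
      have cc : ddc (fun _ : H => α j) z = 0 := by
        have h5 : fderiv ℝ (fun _ : H => α j) = 0 := by
          funext x
          exact fderiv_const_apply (α j)
        have h6 : fderiv ℝ (fderiv ℝ (fun _ : H => α j)) z = 0 := by
          rw [h5]
          exact fderiv_const_apply (0 : H →L[ℝ] ℝ)
        ext u v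
        rw [ddc_apply, h6]
        simp
      rw [ddc_congr h3, ddc_add (ct.add ca) contDiffAt_const, ddc_add ct ca, cc]
      exact add_zero (ddc (t i) z + ddc (fun z => a j (B.ψ i z)) z)
    have e1 : ∫ z in qb e 3, (t i z + a j (B.ψ i z) + α j) * ddc χ z ξ (Complex.I • ξ) ∂μ =
        ∫ z in qb e 3, χ z * ddc Φ z ξ (Complex.I • ξ) ∂μ := by
      calc ∫ z in qb e 3, (t i z + a j (B.ψ i z) + α j) * ddc χ z ξ (Complex.I • ξ) ∂μ
          = ∫ z in qb e 3, Φ z * ddc χ z ξ (Complex.I • ξ) ∂μ :=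
            setIntegral_congr_fun hm3 fun z hz => by
              show _ = Φ z * ddc χ z ξ (Complex.I • ξ)
              rw [hΦ3 z hz]
        _ = ∫ z, Φ z * ddc χ z ξ (Complex.I • ξ) ∂μ :=
            setIntegral_eq_integral_of_forall_compl_eq_zero fun z hz => by
              rw [F3_off (fun h => hz (hs h)) ξ, mul_zero]
        _ = ∫ z, χ z * ddc Φ z ξ (Complex.I • ξ) ∂μ := F3_ibp hΦ hχ (F3_cpt hs) ξ
        _ = ∫ z in qb e 3, χ z * ddc Φ z ξ (Complex.I • ξ) ∂μ :=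
            (setIntegral_eq_integral_of_forall_compl_eq_zero fun z hz => by
              rw [image_eq_zero_of_notMem_tsupport (fun h => hz (hs h)), zero_mul]).symm
    rw [e1]
    have hψm := (haψ j).abs
    have hint : IntegrableOn (fun z => -(W * (1 / 2 ^ j + C / ((j : ℝ) - 1) * |a j (B.ψ i z)|)))
        (qb e 3) μ := (((hcst _).add (hψm.const_mul _)).const_mul W).neg
    have hint2 : IntegrableOn (fun z => χ z * ddc Φ z ξ (Complex.I • ξ)) (qb e 3) μ := by
      have := (hχ.continuous.mul (F3_gc hΦ ξ)).integrable_of_hasCompactSupport (μ := μ)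
        (F3_cpt hs).mul_right
      exact this.integrableOn
    have hpt : ∀ z ∈ qb e 3, -(W * (1 / 2 ^ j + C / ((j : ℝ) - 1) * |a j (B.ψ i z)|)) ≤
        χ z * ddc Φ z ξ (Complex.I • ξ) := by
      intro z hz
      have hz4 := h34 hz
      have hwz : |w i z ξ (Complex.I • ξ)| ≤ Cw * ‖ξ‖ * ‖Complex.I • ξ‖ := by
        have h5 := (w i z).le_opNorm₂ ξ (Complex.I • ξ)
        rw [Real.norm_eq_abs] at h5
        refine h5.trans ?_
        have h6 := hCw i z (F3_le3 hz)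
        gcongr
      obtain ⟨q, hq⟩ : ∃ q, q = 1 / 2 ^ j + C / ((j : ℝ) - 1) * |a j (B.ψ i z)| := ⟨_, rfl⟩
      have hq0 : 0 ≤ C / ((j : ℝ) - 1) * |a j (B.ψ i z)| := by positivity
      have hq1 : (0 : ℝ) ≤ 1 / 2 ^ j := by positivity
      have hlo : -(q * |w i z ξ (Complex.I • ξ)|) ≤ ddc Φ z ξ (Complex.I • ξ) := by
        rw [hdd z hz]
        have hwa := le_abs_self (w i z ξ (Complex.I • ξ))
        by_cases hcase : -(j : ℝ) + 1 < a j (B.ψ i z)
        · have h5 := ha.act j i z hz4 hcase ξ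
          simp only [add_apply, smul_apply, smul_eq_mul] at h5 ⊢
          have h6 : (1 : ℝ) / 2 ^ j * w i z ξ (Complex.I • ξ) ≤ q * |w i z ξ (Complex.I • ξ)| := by
            rw [hq]
            nlinarith [abs_nonneg (w i z ξ (Complex.I • ξ))]
          linarith
        · have h5 := ha.nn j i z hz4 ξ
          simp only [Pi.add_apply, Pi.smul_apply, add_apply, smul_apply, smul_eq_mul] at h5 ⊢
          have h7 : (j : ℝ) - 1 ≤ |a j (B.ψ i z)| := by
            have := neg_abs_le (a j (B.ψ i z))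
            push Not at hcase
            linarith
          have h8 : C ≤ C / ((j : ℝ) - 1) * |a j (B.ψ i z)| := by
            calc C = C / ((j : ℝ) - 1) * ((j : ℝ) - 1) := by field_simp
              _ ≤ _ := by gcongr
          have h6 : C * w i z ξ (Complex.I • ξ) ≤ q * |w i z ξ (Complex.I • ξ)| := by
            rw [hq]
            nlinarith [abs_nonneg (w i z ξ (Complex.I • ξ)),
              mul_le_mul_of_nonneg_left hwa hC0,
              mul_le_mul_of_nonneg_right h8 (abs_nonneg (w i z ξ (Complex.I • ξ)))]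
          linarith
      have hχz : χ z ≤ Xc := (le_abs_self _).trans (hXc z)
      have hqn : 0 ≤ q := by
        rw [hq]
        linarith
      rw [← hq]
      have h9 : χ z * -(q * |w i z ξ (Complex.I • ξ)|) ≤ χ z * ddc Φ z ξ (Complex.I • ξ) :=
        mul_le_mul_of_nonneg_left hlo (h0 z)
      have h10 : χ z * (q * |w i z ξ (Complex.I • ξ)|) ≤
          Xc * (q * (Cw * ‖ξ‖ * ‖Complex.I • ξ‖)) := by
        gcongr
      rw [hWdef]
      nlinarith
    have h5 : ∫ z in qb e 3, |a j (B.ψ i z)| ∂μ ≤ K * C :=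
      (hK _ (hac j).measurable (hai j)).2.trans (mul_le_mul_of_nonneg_left (ha.l1 j) hK0)
    have e2 : ∫ z in qb e 3, -(W * (1 / 2 ^ j + C / ((j : ℝ) - 1) * |a j (B.ψ i z)|)) ∂μ =
        -(W * ((1 / 2 ^ j) * V + C / ((j : ℝ) - 1) * ∫ z in qb e 3, |a j (B.ψ i z)| ∂μ)) := by
      rw [integral_neg, integral_const_mul, integral_add (hcst _) (hψm.const_mul _),
        integral_const_mul, setIntegral_const, hV, smul_eq_mul, mul_comm (μ.real (qb e 3))]
      rfl
    refine le_trans ?_ (setIntegral_mono_on hint hint2 hm3 hpt)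
    rw [e2]
    have h6 : C / ((j : ℝ) - 1) * ∫ z in qb e 3, |a j (B.ψ i z)| ∂μ ≤ C / ((j : ℝ) - 1) * (K * C) :=
      mul_le_mul_of_nonneg_left h5 (by positivity)
    have h7 := mul_le_mul_of_nonneg_left (add_le_add_right h6 ((1 / 2 ^ j) * V)) hW0
    linarith
  refine le_of_tendsto_of_tendsto ?_ hlim (Filter.eventually_atTop.2 ⟨2, hlow⟩)
  have t1 : Filter.Tendsto (fun j : ℕ => (1 : ℝ) / 2 ^ j) Filter.atTop (𝓝 0) := by
    have := tendsto_pow_atTop_nhds_zero_of_lt_one (r := (1 / 2 : ℝ)) (by norm_num) (by norm_num)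
    refine this.congr fun j => ?_
    rw [div_pow, one_pow]
  have t2 : Filter.Tendsto (fun j : ℕ => C / ((j : ℝ) - 1)) Filter.atTop (𝓝 0) := by
    refine tendsto_const_nhds.div_atTop ?_
    exact Filter.tendsto_atTop_add_const_right _ _ tendsto_natCast_atTop_atTop
  have t3 := (((t1.mul_const V).add (t2.mul_const (K * C))).const_mul W).neg
  simpa using t3

omit [MeasurableSpace H] [BorelSpace H] [CompactSpace X] [T2Space X] [MeasurableSpace X] [BorelSpace X] in
private theorem F3_room {χ : H → ℝ} (hs : tsupport χ ⊆ qb e 3) (hc : HasCompactSupport χ) :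
    ∃ s : ℝ, 0 < s ∧ s < 3 ∧ ∀ z ∈ tsupport χ, qf e z ≤ s ^ 2 := by
  by_cases hne : (tsupport χ).Nonempty
  · obtain ⟨z0, hz0, hmax⟩ := IsCompact.exists_isMaxOn hc hne (qf_smooth e).continuous.continuousOn
    have h1 : qf e z0 < 3 ^ 2 := hs hz0
    have h2 := qf_nonneg e z0
    refine ⟨Real.sqrt ((qf e z0 + 9) / 2), Real.sqrt_pos.2 (by linarith), ?_, fun z hz => ?_⟩
    · rw [Real.sqrt_lt' (by norm_num)]
      linarith
    · rw [Real.sq_sqrt (by linarith)]
      have h3 : qf e z ≤ qf e z0 := hmax hz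
      linarith
  · exact ⟨1, one_pos, by norm_num, fun z hz => absurd ⟨z, hz⟩ hne⟩

private theorem F3_pos (hw : B.Met w) (hν : B.IsVol μ w ν) (ht : B.Per t) {C : ℝ} {a b' : ℕ → X → ℝ}
    {α β : ℕ → ℝ} {f : X → ℝ} (ha : B.Apx t w ν C a) (hb' : B.Apx (fun i z => - t i z) w ν C b')
    (hfm : Measurable f) (hf : Integrable f ν)
    (h1 : Filter.Tendsto (fun j => ∫ x, |a j x + α j - f x| ∂ν) Filter.atTop (𝓝 0))
    (h2 : Filter.Tendsto (fun j => ∫ x, |b' j x + β j + f x| ∂ν) Filter.atTop (𝓝 0)) (i : B.I)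
    {χ : H → ℝ} (hχ : ContDiff ℝ ∞ χ) (hs : tsupport χ ⊆ qb e 3) (h0 : ∀ z, 0 ≤ χ z) (ξ : H) :
    ∫ z in qb e 3, (t i z + f (B.ψ i z)) * ddc χ z ξ (Complex.I • ξ) ∂μ = 0 := by
  have h3 := B.F3_ge hw hν ht ha hfm hf h1 i hχ hs h0 ξ
  have h2' : Filter.Tendsto (fun j => ∫ x, |b' j x + β j - (fun x => - f x) x| ∂ν) Filter.atTop (𝓝 0) := by
    refine h2.congr fun j => ?_
    simp only [sub_neg_eq_add]
  have h4 := B.F3_ge hw hν ht.neg hb' hfm.neg hf.neg h2' i hχ hs h0 ξ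
  have h5 : ∫ z in qb e 3, (- t i z + (fun x => - f x) (B.ψ i z)) * ddc χ z ξ (Complex.I • ξ) ∂μ =
      - ∫ z in qb e 3, (t i z + f (B.ψ i z)) * ddc χ z ξ (Complex.I • ξ) ∂μ := by
    rw [← integral_neg]
    refine setIntegral_congr_fun (isOpen_qb e 3).measurableSet fun z _ => ?_
    show (- t i z + - f (B.ψ i z)) * ddc χ z ξ (Complex.I • ξ) =
      - ((t i z + f (B.ψ i z)) * ddc χ z ξ (Complex.I • ξ))
    ring
  have h6 : 0 ≤ - ∫ z in qb e 3, (t i z + f (B.ψ i z)) * ddc χ z ξ (Complex.I • ξ) ∂μ := by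
    rw [← h5]
    exact h4
  linarith

theorem weak_eq (hw : B.Met w) (hν : B.IsVol μ w ν) (ht : B.Per t) {C : ℝ} {a b' : ℕ → X → ℝ} {α β : ℕ → ℝ} {f : X → ℝ}
    (ha : B.Apx t w ν C a) (hb' : B.Apx (fun i z => - t i z) w ν C b') (hfm : Measurable f) (hf : Integrable f ν)
    (h1 : Filter.Tendsto (fun j => ∫ x, |a j x + α j - f x| ∂ν) Filter.atTop (𝓝 0))
    (h2 : Filter.Tendsto (fun j => ∫ x, |b' j x + β j + f x| ∂ν) Filter.atTop (𝓝 0)) (i : B.I) :
    IntegrableOn (fun z => t i z + f (B.ψ i z)) (qb e 3) μ ∧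
    ∀ χ : H → ℝ, ContDiff ℝ ∞ χ → tsupport χ ⊆ qb e 3 → ∀ ξ : H,
      ∫ z in qb e 3, (t i z + f (B.ψ i z)) * ddc χ z ξ (Complex.I • ξ) ∂μ = 0 := by
  obtain ⟨K, hK0, hK⟩ := B.F3_box (μ := μ) hw hν i
  have hti : IntegrableOn (t i) (qb e 3) μ := F3_int (ht.sm i).continuousOn
  have hint : IntegrableOn (fun z => t i z + f (B.ψ i z)) (qb e 3) μ := hti.add (hK f hfm hf).1
  refine ⟨hint, fun χ hχ hs ξ => ?_⟩
  obtain ⟨s, hs0, hs3, hss⟩ := F3_room hs (F3_cpt hs)
  obtain ⟨ζ, hζ, hζ0, hζ1, hζs, hζt⟩ := exists_cut' e (s := s) (t := (s + 3) / 2) hs0 (by linarith)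
  have hζsupp : tsupport ζ ⊆ qb e 3 := by
    have h3 : tsupport ζ ⊆ {z | qf e z ≤ ((s + 3) / 2) ^ 2} := by
      refine closure_minimal ?_ (isCompact_qb e _).isClosed
      intro z hz
      by_contra hz'
      have h4 : ¬ qf e z ≤ ((s + 3) / 2) ^ 2 := hz'
      exact hz (hζt z (le_of_lt (not_le.mp h4)))
    intro z hz
    have h4 : qf e z ≤ ((s + 3) / 2) ^ 2 := h3 hz
    show qf e z < 3 ^ 2
    nlinarith
  obtain ⟨M, hM⟩ := hχ.continuous.bounded_above_of_compact_support (F3_cpt hs)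
  have hM0 : 0 ≤ M := (norm_nonneg _).trans (hM 0)
  have hsum : ContDiff ℝ ∞ fun z => χ z + M * ζ z := hχ.add (contDiff_const.mul hζ)
  have hsupp : tsupport (fun z => χ z + M * ζ z) ⊆ qb e 3 := by
    refine (closure_mono ?_ : tsupport (fun z => χ z + M * ζ z) ⊆
      closure (Function.support χ ∪ Function.support ζ)).trans ?_
    · intro z hz
      by_contra hz'
      rw [Set.mem_union, Function.mem_support, Function.mem_support, not_or, not_not, not_not] at hz'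
      apply hz
      show χ z + M * ζ z = 0
      rw [hz'.1, hz'.2]
      simp
    · rw [closure_union]
      exact Set.union_subset hs hζsupp
  have hnn : ∀ z, 0 ≤ χ z + M * ζ z := by
    intro z
    by_cases hz : z ∈ tsupport χ
    · rw [hζs z (hss z hz), mul_one]
      have := neg_le_of_abs_le (hM z)
      linarith
    · rw [image_eq_zero_of_notMem_tsupport hz, zero_add]
      exact mul_nonneg hM0 (hζ0 z)
  have h3 := B.F3_pos hw hν ht ha hb' hfm hf h1 h2 i hsum hsupp hnn ξ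
  have h4 := B.F3_pos hw hν ht ha hb' hfm hf h1 h2 i hζ hζsupp hζ0 ξ
  have e1 : ∀ z, ddc (fun z => χ z + M * ζ z) z ξ (Complex.I • ξ) =
      ddc χ z ξ (Complex.I • ξ) + M * ddc ζ z ξ (Complex.I • ξ) := by
    intro z
    rw [ddc_add (hχ.contDiffAt.of_le (by norm_cast)) ((contDiff_const.mul hζ).contDiffAt.of_le (by norm_cast)),
      ddc_smul M (hζ.contDiffAt.of_le (by norm_cast))]
    rfl
  have hmul : ∀ {g : H → ℝ}, ContDiff ℝ ∞ g → tsupport g ⊆ qb e 3 →
      IntegrableOn (fun z => (t i z + f (B.ψ i z)) * ddc g z ξ (Complex.I • ξ)) (qb e 3) μ := by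
    intro g hg hgs
    obtain ⟨M', hM'⟩ := (F3_gc hg ξ).bounded_above_of_compact_support (F3_gs hgs ξ)
    exact Integrable.mul_bdd (c := M') hint (F3_gc hg ξ).aestronglyMeasurable
      (Filter.Eventually.of_forall hM')
  have e2 : ∫ z in qb e 3, (t i z + f (B.ψ i z)) * ddc (fun z => χ z + M * ζ z) z ξ (Complex.I • ξ) ∂μ =
      ∫ z in qb e 3, (t i z + f (B.ψ i z)) * ddc χ z ξ (Complex.I • ξ) ∂μ +
        M * ∫ z in qb e 3, (t i z + f (B.ψ i z)) * ddc ζ z ξ (Complex.I • ξ) ∂μ := by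
    rw [← integral_const_mul, ← integral_add (hmul hχ hs) ((hmul hζ hζsupp).const_mul M)]
    refine setIntegral_congr_fun (isOpen_qb e 3).measurableSet fun z _ => ?_
    show (t i z + f (B.ψ i z)) * ddc (fun z => χ z + M * ζ z) z ξ (Complex.I • ξ) =
      (t i z + f (B.ψ i z)) * ddc χ z ξ (Complex.I • ξ) +
        M * ((t i z + f (B.ψ i z)) * ddc ζ z ξ (Complex.I • ξ))
    rw [e1]
    ring
  rw [e2, h4, mul_zero, add_zero] at h3
  exact h3

end BM

end HDG
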