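import Pool.Agent.HDG.MK1

/-!
# HDG/MK2: second derivatives of the mollification

`mo_sec`: the second differences of the mollification are bounded by those of `P`, and the function
`t ↦ f (z + t a) + f (z - t a) - 2 f z - B t² ‖a‖²` has a maximum at `0`.
`mo_close`: the mollification is the convolution with a smooth kernel with compact support, so two derivatives fall
on the kernel and the difference is estimated by the integral of the second derivative of the kernel.
-/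

set_option autoImplicit false

noncomputable section

open scoped ContDiff ComplexOrder Topology

open MeasureTheory Filter

namespace HDG

open Pool.Agent.FBR

variable {H : Type*} [NormedAddCommGroup H] [NormedSpace ℂ H]
  [FiniteDimensional ℂ H] [MeasurableSpace H] [BorelSpace H] (μ : Measure H) [μ.IsAddHaarMeasure]

private theorem MK2_const {δ : ℝ} (hδ : 0 < δ) (c : ℝ) (z : H) : mo μ δ (fun _ => c) z = c := by
  have h := mo_lim μ (P := fun _ : H => c) continuous_const (B := 0) hδ.le (z := z) (fun a _ => by simp)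
  have h2 := abs_eq_zero.1 (le_antisymm h (abs_nonneg _))
  linarith

private theorem MK2_shift (P : H → ℝ) (δ : ℝ) (z a : H) : mo μ δ (fun w => P (w + a)) z = mo μ δ P (z + a) := by
  unfold mo
  congr 1
  funext y
  show ker μ y * P (z - (δ : ℂ) • y + a) = _
  rw [show z - (δ : ℂ) • y + a = z + a - (δ : ℂ) • y by abel]

private theorem MK2_diff {P : H → ℝ} (hP : Continuous P) {δ B : ℝ} (hδ : 0 < δ)
    (h : ∀ z a : H, P (z + a) + P (z - a) - 2 * P z ≤ B * ‖a‖ ^ 2) (z a : H) :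
    mo μ δ P (z + a) + mo μ δ P (z - a) - 2 * mo μ δ P z ≤ B * ‖a‖ ^ 2 := by
  have c1 : Continuous fun w => P (w + a) := hP.comp (continuous_id.add continuous_const)
  have c2 : Continuous fun w => P (w + -a) := hP.comp (continuous_id.add continuous_const)
  have c3 : Continuous fun w => P w + P w := hP.add hP
  have c4 : Continuous fun _ : H => B * ‖a‖ ^ 2 := continuous_const
  have h1 := mo_mono μ (P := fun w => P (w + a) + P (w + -a)) (P' := fun w => P w + P w + B * ‖a‖ ^ 2)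
    (c1.add c2) (c3.add c4) hδ.le (z := z) (fun b _ => by
    have := h (z - b) a
    rw [sub_eq_add_neg (z - b) a] at this
    show P (z - b + a) + P (z - b + -a) ≤ P (z - b) + P (z - b) + B * ‖a‖ ^ 2
    linarith)
  rw [mo_add μ c1 c2, mo_add μ c3 c4, mo_add μ hP hP, MK2_const μ hδ, MK2_shift, MK2_shift,
    ← sub_eq_add_neg] at h1
  linarith

private theorem MK2_line {f : H → ℝ} (hf : ContDiff ℝ ∞ f) {B : ℝ} (z a : H)
    (h : ∀ t : ℝ, f (z + t • a) + f (z - t • a) - 2 * f z ≤ B * t ^ 2) :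
    2 * fderiv ℝ (fderiv ℝ f) z a a ≤ 2 * B := by
  have hF : ∀ w, HasFDerivAt f (fderiv ℝ f w) w := fun w =>
    (hf.differentiable (by simp) w).hasFDerivAt
  have hF2 : ∀ w, HasFDerivAt (fderiv ℝ f) (fderiv ℝ (fderiv ℝ f) w) w := fun w =>
    ((hf.fderiv_right (m := ∞) (by simp)).differentiable (by simp) w).hasFDerivAt
  have hp : ∀ t : ℝ, HasDerivAt (fun t : ℝ => z + t • a) a t := fun t => by
    have := ((hasDerivAt_id t).smul_const a).const_add z
    rwa [one_smul] at this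
  have hm : ∀ t : ℝ, HasDerivAt (fun t : ℝ => z - t • a) (-a) t := fun t => by
    have := ((hasDerivAt_id t).smul_const a).const_sub z
    rwa [one_smul] at this
  by_contra hc
  push Not at hc
  let φ : ℝ → ℝ := fun t => f (z + t • a) + f (z - t • a) - 2 * f z - B * t ^ 2
  have hφ1 : ∀ t, HasDerivAt φ (fderiv ℝ f (z + t • a) a + fderiv ℝ f (z - t • a) (-a) - B * (2 * t)) t := fun t => by
    have h1 := ((hF (z + t • a)).comp_hasDerivAt t (hp t)).add ((hF (z - t • a)).comp_hasDerivAt t (hm t))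
    have h2 := (h1.sub_const (2 * f z)).sub (((hasDerivAt_id t).pow 2).const_mul B)
    refine h2.congr_deriv ?_
    simp
  have hd : deriv φ = fun t => fderiv ℝ f (z + t • a) a + fderiv ℝ f (z - t • a) (-a) - B * (2 * t) :=
    funext fun t => (hφ1 t).deriv
  have hφ2 : HasDerivAt (deriv φ) (2 * fderiv ℝ (fderiv ℝ f) z a a - 2 * B) 0 := by
    rw [hd]
    have h1 := ((hF2 (z + (0 : ℝ) • a)).comp_hasDerivAt 0 (hp 0)).clm_apply (hasDerivAt_const 0 a)
    have h2 := ((hF2 (z - (0 : ℝ) • a)).comp_hasDerivAt 0 (hm 0)).clm_apply (hasDerivAt_const 0 (-a))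
    have h3 := (h1.add h2).sub (((hasDerivAt_id (0 : ℝ)).const_mul 2).const_mul B)
    refine h3.congr_deriv ?_
    simp
    ring
  have h0 : deriv φ 0 = 0 := by
    rw [hd]
    simp
  have hmin : IsLocalMin φ 0 := by
    refine isLocalMin_of_deriv_deriv_pos ?_ h0 (hφ1 0).continuousAt
    rw [hφ2.deriv]
    linarith
  have hz : φ 0 = 0 := by
    show f (z + (0 : ℝ) • a) + f (z - (0 : ℝ) • a) - 2 * f z - B * 0 ^ 2 = 0
    rw [zero_smul, add_zero, sub_zero]
    ring
  have heq : φ =ᶠ[𝓝 0] fun _ => (0 : ℝ) := by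
    filter_upwards [hmin] with t ht
    refine le_antisymm ?_ ?_
    · show f (z + t • a) + f (z - t • a) - 2 * f z - B * t ^ 2 ≤ 0
      have := h t
      linarith
    · rw [hz] at ht
      exact ht
  have h2 : deriv (deriv φ) 0 = 0 := by
    have h3 : deriv φ =ᶠ[𝓝 0] deriv fun _ : ℝ => (0 : ℝ) := heq.deriv
    rw [h3.deriv_eq]
    simp
  rw [hφ2.deriv] at h2
  linarith

theorem mo_sec {P : H → ℝ} (hP : Continuous P) {δ B : ℝ} (hδ : 0 < δ)
    (h : ∀ z a : H, P (z + a) + P (z - a) - 2 * P z ≤ B * ‖a‖ ^ 2) (z a : H) :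
    fderiv ℝ (fderiv ℝ (mo μ δ P)) z a a ≤ B * ‖a‖ ^ 2 := by
  have h1 := MK2_line (f := mo μ δ P) (mo_smooth μ hδ hP.locallyIntegrable) (B := B * ‖a‖ ^ 2) z a (fun t => by
    have h2 := MK2_diff μ hP hδ h z (t • a)
    rw [norm_smul, mul_pow, Real.norm_eq_abs, sq_abs] at h2
    calc _ ≤ B * (t ^ 2 * ‖a‖ ^ 2) := h2
      _ = _ := by ring)
  linarith

section

set_option maxSynthPendingDepth 3

/-- the kernel of the convolution -/
private def MK2_K (δ : ℝ) : H → ℝ := fun t => |(δ ^ Module.finrank ℝ H)⁻¹| * ker μ (δ⁻¹ • t)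

private theorem MK2_smooth (δ : ℝ) : ContDiff ℝ ∞ (MK2_K μ δ : H → ℝ) :=
  contDiff_const.mul ((ker_spec μ).1.comp (contDiff_const_smul _))

private theorem MK2_zero {δ : ℝ} (hδ : 0 < δ) {t : H} (ht : t ∉ Metric.closedBall (0 : H) δ) : MK2_K μ δ t = 0 := by
  have h1 : 1 ≤ ‖δ⁻¹ • t‖ := by
    rw [norm_smul, Real.norm_eq_abs, abs_of_pos (inv_pos.2 hδ), inv_mul_eq_div, le_div_iff₀ hδ, one_mul]
    rw [mem_closedBall_zero_iff, not_le] at ht
    exact ht.le
  rw [MK2_K, (ker_spec μ).2.2.2.1 _ h1, mul_zero]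

private theorem MK2_supp {δ : ℝ} (hδ : 0 < δ) : HasCompactSupport (MK2_K μ δ : H → ℝ) := by
  haveI : ProperSpace H := FiniteDimensional.proper ℂ H
  exact HasCompactSupport.intro (isCompact_closedBall 0 δ) fun t ht => MK2_zero μ hδ ht

private theorem MK2_tsupp {δ : ℝ} (hδ : 0 < δ) : tsupport (MK2_K μ δ : H → ℝ) ⊆ Metric.closedBall (0 : H) δ := by
  refine closure_minimal (fun t ht => ?_) Metric.isClosed_closedBall
  by_contra hc
  exact ht (MK2_zero μ hδ hc)

private theorem MK2_conv {δ : ℝ} (hδ : 0 < δ) (P : H → ℝ) :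
    mo μ δ P = convolution (MK2_K μ δ) P (ContinuousLinearMap.lsmul ℝ ℝ) μ := by
  funext z
  have h := Measure.integral_comp_smul μ (fun t : H => ker μ (δ⁻¹ • t) * P (z - t)) δ
  have h1 : ∀ y : H, ker μ (δ⁻¹ • δ • y) * P (z - δ • y) = ker μ y * P (z - (δ : ℂ) • y) := fun y => by
    rw [smul_smul, inv_mul_cancel₀ hδ.ne', one_smul, Complex.coe_smul]
  simp only [h1] at h
  rw [mo, h, convolution_def, smul_eq_mul, ← integral_const_mul]
  congr 1
  funext t
  rw [MK2_K, ContinuousLinearMap.lsmul_apply, smul_eq_mul, mul_assoc]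

/-- the pairing for the first derivative -/
private def MK2_L1 : (H →L[ℝ] ℝ) →L[ℝ] ℝ →L[ℝ] (H →L[ℝ] ℝ) := (ContinuousLinearMap.lsmul ℝ ℝ).precompL H

/-- the pairing for the second derivative -/
private def MK2_L2 : (H →L[ℝ] H →L[ℝ] ℝ) →L[ℝ] ℝ →L[ℝ] (H →L[ℝ] H →L[ℝ] ℝ) := MK2_L1.precompL H

private theorem MK2_fderiv {δ : ℝ} (hδ : 0 < δ) {P : H → ℝ} (hP : Continuous P) (z : H) :
    fderiv ℝ (fderiv ℝ (mo μ δ P)) z =
      convolution (fderiv ℝ (fderiv ℝ (MK2_K μ δ))) P MK2_L2 μ z := by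
  have hl : LocallyIntegrable P μ := hP.locallyIntegrable
  have h1 : fderiv ℝ (mo μ δ P) = convolution (fderiv ℝ (MK2_K μ δ)) P MK2_L1 μ := by
    funext w
    rw [MK2_conv μ hδ]
    exact ((MK2_supp μ hδ).hasFDerivAt_convolution_left _ ((MK2_smooth μ δ).of_le (by simp)) hl w).fderiv
  rw [h1]
  exact (((MK2_supp μ hδ).fderiv ℝ).hasFDerivAt_convolution_left _
    (((MK2_smooth μ δ).fderiv_right (m := ∞) (by simp)).of_le (by simp)) hl z).fderiv

private theorem MK2_close {δ : ℝ} (hδ : 0 < δ) (z : H) : ∃ C : ℝ, 0 ≤ C ∧ ∀ (P P' : H → ℝ) (ε : ℝ), Continuous P → Continuous P' →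
    (∀ a : H, ‖a‖ ≤ δ → |P (z - a) - P' (z - a)| ≤ ε) →
    ‖fderiv ℝ (fderiv ℝ (mo μ δ P)) z - fderiv ℝ (fderiv ℝ (mo μ δ P')) z‖ ≤ C * ε := by
  have hcs : HasCompactSupport (fderiv ℝ (fderiv ℝ (MK2_K μ δ : H → ℝ))) := ((MK2_supp μ hδ).fderiv ℝ).fderiv ℝ
  have hco : Continuous (fderiv ℝ (fderiv ℝ (MK2_K μ δ : H → ℝ))) :=
    ((MK2_smooth μ δ).fderiv_right (m := ∞) (by simp)).continuous_fderiv (by simp)
  set L := (MK2_L2 : (H →L[ℝ] H →L[ℝ] ℝ) →L[ℝ] ℝ →L[ℝ] (H →L[ℝ] H →L[ℝ] ℝ)) with hL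
  refine ⟨∫ t : H, ‖L‖ * ‖fderiv ℝ (fderiv ℝ (MK2_K μ δ)) t‖ ∂μ,
    integral_nonneg fun t => by positivity, fun P P' ε hP hP' hε => ?_⟩
  rw [MK2_fderiv μ hδ hP, MK2_fderiv μ hδ hP', ← hL, convolution_def, convolution_def,
    ← integral_sub (hcs.convolutionExists_left L hco hP.locallyIntegrable z)
      (hcs.convolutionExists_left L hco hP'.locallyIntegrable z), ← integral_mul_const]
  refine norm_integral_le_of_norm_le ?_ (Eventually.of_forall fun t => ?_)
  · exact ((hco.integrable_of_hasCompactSupport hcs).norm.const_mul _).mul_const _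
  · rw [← ContinuousLinearMap.map_sub]
    by_cases ht : ‖t‖ ≤ δ
    · calc ‖L (fderiv ℝ (fderiv ℝ (MK2_K μ δ)) t) (P (z - t) - P' (z - t))‖
          ≤ ‖L‖ * ‖fderiv ℝ (fderiv ℝ (MK2_K μ δ)) t‖ * ‖P (z - t) - P' (z - t)‖ := L.le_opNorm₂ _ _
        _ ≤ _ := mul_le_mul_of_nonneg_left (hε t ht) (by positivity)
    · have h0 : fderiv ℝ (fderiv ℝ (MK2_K μ δ)) t = 0 := by
        by_contra hc
        have h1 : t ∈ tsupport (MK2_K μ δ) :=
          tsupport_fderiv_subset ℝ (support_fderiv_subset ℝ hc)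
        have h2 := MK2_tsupp μ hδ h1
        rw [mem_closedBall_zero_iff] at h2
        exact ht h2
      rw [h0]
      simp

end

/-- the second derivative of the mollification depends continuously on the function -/
theorem mo_close {δ : ℝ} (hδ : 0 < δ) (z : H) : ∃ C : ℝ, 0 ≤ C ∧ ∀ (P P' : H → ℝ) (ε : ℝ), Continuous P → Continuous P' →
    (∀ a : H, ‖a‖ ≤ δ → |P (z - a) - P' (z - a)| ≤ ε) →
    ‖fderiv ℝ (fderiv ℝ (mo μ δ P)) z - fderiv ℝ (fderiv ℝ (mo μ δ P')) z‖ ≤ C * ε := by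
  exact MK2_close μ hδ z

end HDG
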