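import Pool.Agent.HDG.H1
import Pool.Agent.HDG.MK2

/-!
# HDG/F4: Weyl lemma for pluriharmonic functions

The mollifications of the function (restricted to `qb e 3`) are pluriharmonic on `qb e (5/2)` (`F4_pl`: two derivatives fall on the
kernel, and the translated kernel is a test function), so they have the mean value property (`F4_mean`, from `circ` and the
invariance of the kernel under rotations); mollifications commute (`F4_comm`, associativity of the convolution), so the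
mollifications agree on `qb e 2`; at a Lebesgue point they converge to the function (`F4_leb`).
-/

set_option autoImplicit false

noncomputable section

open scoped ContDiff Topology

open MeasureTheory

namespace HDG

open Pool.Agent.FBR

variable {H : Type*} [NormedAddCommGroup H] [NormedSpace ℂ H] {n : ℕ} (e : Module.Basis (Fin n) ℂ H)
  [FiniteDimensional ℂ H] [MeasurableSpace H] [BorelSpace H] (μ : Measure H) [μ.IsAddHaarMeasure]

section

set_option maxSynthPendingDepth 3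

/-- the kernel of the convolution -/
private def F4_K (δ : ℝ) : H → ℝ := fun t => |(δ ^ Module.finrank ℝ H)⁻¹| * ker μ (δ⁻¹ • t)

private theorem F4_smooth (δ : ℝ) : ContDiff ℝ ∞ (F4_K μ δ : H → ℝ) :=
  contDiff_const.mul ((ker_spec μ).1.comp (contDiff_const_smul _))

private theorem F4_zero {δ : ℝ} (hδ : 0 < δ) {t : H} (ht : t ∉ Metric.closedBall (0 : H) δ) : F4_K μ δ t = 0 := by
  have h1 : 1 ≤ ‖δ⁻¹ • t‖ := by
    rw [norm_smul, Real.norm_eq_abs, abs_of_pos (inv_pos.2 hδ), inv_mul_eq_div, le_div_iff₀ hδ, one_mul]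
    rw [mem_closedBall_zero_iff, not_le] at ht
    exact ht.le
  rw [F4_K, (ker_spec μ).2.2.2.1 _ h1, mul_zero]

private theorem F4_supp {δ : ℝ} (hδ : 0 < δ) : HasCompactSupport (F4_K μ δ : H → ℝ) := by
  have : ProperSpace H := FiniteDimensional.proper ℂ H
  exact HasCompactSupport.intro (isCompact_closedBall 0 δ) fun t ht => F4_zero μ hδ ht

private theorem F4_conv {δ : ℝ} (hδ : 0 < δ) (P : H → ℝ) :
    mo μ δ P = convolution (F4_K μ δ) P (ContinuousLinearMap.mul ℝ ℝ) μ := by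
  funext z
  have h := Measure.integral_comp_smul μ (fun t : H => ker μ (δ⁻¹ • t) * P (z - t)) δ
  have h1 : ∀ y : H, ker μ (δ⁻¹ • δ • y) * P (z - δ • y) = ker μ y * P (z - (δ : ℂ) • y) := fun y => by
    rw [smul_smul, inv_mul_cancel₀ hδ.ne', one_smul, Complex.coe_smul]
  simp only [h1] at h
  rw [mo, h, convolution_def, smul_eq_mul, ← integral_const_mul]
  congr 1
  funext t
  rw [F4_K, ContinuousLinearMap.mul_apply', mul_assoc]

/-- the pairing for the first derivative -/
private def F4_L1 : (H →L[ℝ] ℝ) →L[ℝ] ℝ →L[ℝ] (H →L[ℝ] ℝ) := (ContinuousLinearMap.mul ℝ ℝ).precompL H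

/-- the pairing for the second derivative -/
private def F4_L2 : (H →L[ℝ] H →L[ℝ] ℝ) →L[ℝ] ℝ →L[ℝ] (H →L[ℝ] H →L[ℝ] ℝ) := F4_L1.precompL H

private theorem F4_fderiv {δ : ℝ} (hδ : 0 < δ) {P : H → ℝ} (hl : LocallyIntegrable P μ) (z : H) :
    fderiv ℝ (fderiv ℝ (mo μ δ P)) z =
      convolution (fderiv ℝ (fderiv ℝ (F4_K μ δ))) P F4_L2 μ z := by
  have h1 : fderiv ℝ (mo μ δ P) = convolution (fderiv ℝ (F4_K μ δ)) P F4_L1 μ := by
    funext w
    rw [F4_conv μ hδ]
    exact ((F4_supp μ hδ).hasFDerivAt_convolution_left _ ((F4_smooth μ δ).of_le (by simp)) hl w).fderiv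
  rw [h1]
  exact (((F4_supp μ hδ).fderiv ℝ).hasFDerivAt_convolution_left _
    (((F4_smooth μ δ).fderiv_right (m := ∞) (by simp)).of_le (by simp)) hl z).fderiv

private theorem F4_fderiv_apply {δ : ℝ} (hδ : 0 < δ) {P : H → ℝ} (hl : LocallyIntegrable P μ) (z a b : H) :
    Integrable (fun x => fderiv ℝ (fderiv ℝ (F4_K μ δ)) (z - x) a b * P x) μ ∧
    fderiv ℝ (fderiv ℝ (mo μ δ P)) z a b =
      ∫ x, fderiv ℝ (fderiv ℝ (F4_K μ δ)) (z - x) a b * P x ∂μ := by
  have hcs : HasCompactSupport (fderiv ℝ (fderiv ℝ (F4_K μ δ : H → ℝ))) := ((F4_supp μ hδ).fderiv ℝ).fderiv ℝ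
  have hco : Continuous (fderiv ℝ (fderiv ℝ (F4_K μ δ : H → ℝ))) :=
    ((F4_smooth μ δ).fderiv_right (m := ∞) (by simp)).continuous_fderiv (by simp)
  have hi : Integrable (fun t => F4_L2 (fderiv ℝ (fderiv ℝ (F4_K μ δ)) t) (P (z - t))) μ :=
    hcs.convolutionExists_left F4_L2 hco hl z
  have hj : Integrable (fun t => fderiv ℝ (fderiv ℝ (F4_K μ δ)) t a b * P (z - t)) μ :=
    (hi.apply_continuousLinearMap a).apply_continuousLinearMap b
  have he : (fun x => fderiv ℝ (fderiv ℝ (F4_K μ δ)) (z - x) a b * P x) =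
      fun x => (fun t => fderiv ℝ (fderiv ℝ (F4_K μ δ)) t a b * P (z - t)) (z - x) := by
    funext x
    show _ = fderiv ℝ (fderiv ℝ (F4_K μ δ)) (z - x) a b * P (z - (z - x))
    rw [sub_sub_cancel]
  constructor
  · rw [he]
    exact hj.comp_sub_left z
  · rw [he, integral_sub_left_eq_self (fun t => fderiv ℝ (fderiv ℝ (F4_K μ δ)) t a b * P (z - t)) μ z,
      F4_fderiv μ hδ hl, convolution_def, ContinuousLinearMap.integral_apply hi,
      ContinuousLinearMap.integral_apply (hi.apply_continuousLinearMap a)]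
    rfl

private theorem F4_chi (δ : ℝ) (z x a b : H) :
    fderiv ℝ (fderiv ℝ (fun y : H => F4_K μ δ (z - y))) x a b = fderiv ℝ (fderiv ℝ (F4_K μ δ)) (z - x) a b := by
  have hs := F4_smooth μ δ (H := H)
  have h1 : ∀ y : H, HasFDerivAt (fun y : H => z - y) (-ContinuousLinearMap.id ℝ H) y := fun y =>
    (hasFDerivAt_id y).const_sub z
  have h2 : fderiv ℝ (fun y : H => F4_K μ δ (z - y)) = fun y => -fderiv ℝ (F4_K μ δ) (z - y) := by
    funext y
    have h3 := ((hs.differentiable (by simp) (z - y)).hasFDerivAt.comp y (h1 y)).fderiv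
    rw [ContinuousLinearMap.comp_neg, ContinuousLinearMap.comp_id] at h3
    exact h3
  have h4 : HasFDerivAt (fun y : H => -fderiv ℝ (F4_K μ δ) (z - y)) (fderiv ℝ (fderiv ℝ (F4_K μ δ)) (z - x)) x := by
    have h5 := (((hs.fderiv_right (m := ∞) (by simp)).differentiable (by simp) (z - x)).hasFDerivAt.comp x (h1 x)).neg
    rw [ContinuousLinearMap.comp_neg, ContinuousLinearMap.comp_id, neg_neg] at h5
    exact h5
  rw [h2, h4.fderiv]

end

private theorem F4_pl {g : H → ℝ} (hg : IntegrableOn g (qb e 3) μ)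
    (h : ∀ χ : H → ℝ, ContDiff ℝ ∞ χ → tsupport χ ⊆ qb e 3 → ∀ ξ : H,
      ∫ z in qb e 3, g z * ddc χ z ξ (Complex.I • ξ) ∂μ = 0) {δ : ℝ} (hδ : 0 < δ) {z : H}
    (hz : Metric.closedBall z δ ⊆ qb e 3) : ddc (mo μ δ ((qb e 3).indicator g)) z = 0 := by
  have hm : MeasurableSet (qb e 3 : Set H) := (isOpen_qb e 3).measurableSet
  have hP : Integrable ((qb e 3).indicator g) μ := hg.integrable_indicator hm
  have hl := hP.locallyIntegrable
  have h0 : ∀ ξ : H, ddc (mo μ δ ((qb e 3).indicator g)) z ξ (Complex.I • ξ) = 0 := by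
    intro ξ
    have hs : ContDiff ℝ ∞ fun y : H => F4_K μ δ (z - y) :=
      (F4_smooth μ δ).comp (contDiff_const.sub contDiff_id)
    have ht : tsupport (fun y : H => F4_K μ δ (z - y)) ⊆ qb e 3 := by
      refine (closure_minimal (fun t ht => ?_) Metric.isClosed_closedBall).trans hz
      by_contra hc
      refine ht (F4_zero μ hδ ?_)
      rw [mem_closedBall_zero_iff, ← dist_eq_norm, dist_comm]
      exact hc
    have h1 := h _ hs ht ξ
    have h2 := F4_fderiv_apply μ hδ hl z ξ ξ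
    have h3 := F4_fderiv_apply μ hδ hl z (Complex.I • ξ) (Complex.I • ξ)
    rw [← integral_indicator hm] at h1
    rw [ddc_self, h2.2, h3.2, ← integral_add h2.1 h3.1, ← integral_const_mul, ← h1]
    congr 1
    funext x
    by_cases hx : x ∈ qb e 3
    · rw [Set.indicator_of_mem hx, Set.indicator_of_mem hx, ddc_self, F4_chi, F4_chi]
      ring
    · rw [Set.indicator_of_notMem hx, Set.indicator_of_notMem hx]
      ring
  obtain ⟨C, -, hC⟩ := form_ge e
  have h4 := hC _ (O11_ddc (ContDiff.contDiffAt (n := 2) (by exact_mod_cast (contDiff_infty.1 (mo_smooth μ hδ hl) 2)))) 0 le_rfl (fun v => by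
    rw [h0 v, abs_zero, zero_mul])
  rw [mul_zero] at h4
  exact (ContinuousLinearMap.opNorm_zero_iff _).1 (le_antisymm h4 (ContinuousLinearMap.opNorm_nonneg _))

private theorem F4_comm {P : H → ℝ} (hP : Integrable P μ) {δ δ' : ℝ} (hδ : 0 < δ) (hδ' : 0 < δ') (z : H) :
    mo μ δ' (mo μ δ P) z = mo μ δ (mo μ δ' P) z := by
  have key : ∀ {a b : ℝ}, 0 < a → 0 < b → mo μ a (mo μ b P) z =
      convolution (convolution (F4_K μ a) (F4_K μ b) (ContinuousLinearMap.mul ℝ ℝ) μ) P
        (ContinuousLinearMap.mul ℝ ℝ) μ z := by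
    intro a b ha hb
    rw [F4_conv μ ha, F4_conv μ hb]
    have c1 : Continuous (F4_K μ a : H → ℝ) := (F4_smooth μ a).continuous
    have c2 : Continuous (F4_K μ b : H → ℝ) := (F4_smooth μ b).continuous
    have s1 := F4_supp μ ha (H := H)
    have s2 := F4_supp μ hb (H := H)
    refine (convolution_assoc (ContinuousLinearMap.mul ℝ ℝ) (ContinuousLinearMap.mul ℝ ℝ)
      (ContinuousLinearMap.mul ℝ ℝ) (ContinuousLinearMap.mul ℝ ℝ) (fun x y z => mul_assoc x y z)
      c1.aestronglyMeasurable c2.aestronglyMeasurable hP.aestronglyMeasurable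
      (Filter.Eventually.of_forall fun y => ?_) (Filter.Eventually.of_forall fun y => ?_) ?_).symm
    · exact s1.convolutionExists_left _ c1 c2.locallyIntegrable y
    · exact s2.norm.convolutionExists_left _ c2.norm hP.norm.locallyIntegrable y
    · exact s1.norm.convolutionExists_left _ c1.norm
        (s2.norm.continuous_convolution_left _ c2.norm hP.norm.locallyIntegrable).locallyIntegrable z
  rw [key hδ' hδ, key hδ hδ']
  congr 1
  rw [← convolution_flip]
  congr 1
  ext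
  simp

private theorem F4_leb {P : H → ℝ} (hP : LocallyIntegrable P μ) :
    ∀ᵐ z ∂μ, Filter.Tendsto (fun δ => mo μ δ P z) (𝓝[>] 0) (𝓝 (P z)) := by
  have : ProperSpace H := FiniteDimensional.proper ℂ H
  obtain ⟨C, hC⟩ := (isCompact_closedBall (0 : H) 1).exists_bound_of_continuousOn (f := ker μ)
    (ker_spec μ).1.continuous.continuousOn
  filter_upwards [(Besicovitch.vitaliFamily μ).ae_tendsto_average_norm_sub hP] with x h0
  have h1 := h0.comp (Besicovitch.tendsto_filterAt μ x)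
  have h2 := tendsto_integral_smul_of_tendsto_average_norm_sub (μ := μ) (g := fun δ y => F4_K μ δ (x - y))
    (C * μ.real (Metric.closedBall (0 : H) 1)) h1 ?_ ?_ ?_ ?_
  · refine h2.congr' ?_
    filter_upwards [self_mem_nhdsWithin] with δ hδ
    rw [F4_conv μ hδ, convolution_eq_swap]
    rfl
  · filter_upwards with δ
    exact hP.integrableOn_isCompact (isCompact_closedBall _ _)
  · refine tendsto_const_nhds.congr' ?_
    filter_upwards [self_mem_nhdsWithin] with δ hδ
    have hd : (δ ^ Module.finrank ℝ H) ≠ 0 := pow_ne_zero _ (ne_of_gt hδ)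
    rw [integral_sub_left_eq_self (F4_K μ δ) μ x]
    show 1 = ∫ t, |(δ ^ Module.finrank ℝ H)⁻¹| * ker μ (δ⁻¹ • t) ∂μ
    rw [integral_const_mul, Measure.integral_comp_smul μ (ker μ) δ⁻¹, (ker_spec μ).2.2.2.2.1, smul_eq_mul, mul_one,
      ← abs_mul, inv_pow, inv_inv, inv_mul_cancel₀ hd, abs_one]
  · filter_upwards [self_mem_nhdsWithin] with δ hδ
    intro y hy
    by_contra hc
    refine hy (F4_zero μ hδ ?_)
    rw [mem_closedBall_zero_iff, ← dist_eq_norm, dist_comm]
    exact hc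
  · filter_upwards [self_mem_nhdsWithin] with δ hδ y
    have hδ' : 0 < δ := hδ
    have hm : 0 < μ.real (Metric.closedBall (0 : H) 1) := by
      refine ENNReal.toReal_pos ?_ ?_
      · exact (Metric.measure_closedBall_pos μ 0 one_pos).ne'
      · exact (isCompact_closedBall (0 : H) 1).measure_lt_top.ne
    have hd : 0 < δ ^ Module.finrank ℝ H := pow_pos hδ' _
    rw [Measure.addHaar_real_closedBall' μ x hδ'.le, mul_div_mul_right _ _ hm.ne']
    show |(|(δ ^ Module.finrank ℝ H)⁻¹| * ker μ (δ⁻¹ • (x - y)))| ≤ C / δ ^ Module.finrank ℝ H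
    rw [abs_mul, abs_abs, abs_of_pos (inv_pos.2 hd), div_eq_inv_mul]
    refine mul_le_mul_of_nonneg_left ?_ (inv_pos.2 hd).le
    by_cases hy : δ⁻¹ • (x - y) ∈ Metric.closedBall (0 : H) 1
    · exact hC _ hy
    · have h3 : 1 ≤ ‖δ⁻¹ • (x - y)‖ := by
        rw [mem_closedBall_zero_iff, not_le] at hy
        exact hy.le
      rw [(ker_spec μ).2.2.2.1 _ h3, abs_zero]
      exact (norm_nonneg _).trans (hC 0 (Metric.mem_closedBall_self zero_le_one))

private theorem F4_mean {f : H → ℝ} (hf : ContDiff ℝ ∞ f) {δ : ℝ} (hδ : 0 < δ) {z : H}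
    (h : ∀ w ∈ Metric.closedBall z δ, ddc f w = 0) : mo μ δ f z = f z := by
  have : ProperSpace H := FiniteDimensional.proper ℂ H
  obtain ⟨k1, k2, k3, k4, k5, k6⟩ := ker_spec (H := H) μ
  have hki : Integrable (ker μ : H → ℝ) μ := k1.continuous.integrable_of_hasCompactSupport k2
  have hpi : 0 < 2 * Real.pi := by positivity
  -- the mean value property on circles
  have hin : ∀ y : H, ‖y‖ ≤ 1 → ∀ ζ : ℂ, ‖ζ‖ ≤ 1 → z + ζ • (-((δ : ℂ) • y)) ∈ Metric.closedBall z δ := by
    intro y hy ζ hζ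
    rw [Metric.mem_closedBall, dist_eq_norm, add_sub_cancel_left, norm_smul, norm_neg, norm_smul, Complex.norm_real,
      Real.norm_of_nonneg hδ.le]
    calc ‖ζ‖ * (δ * ‖y‖) ≤ 1 * (δ * 1) := by gcongr
      _ = δ := by ring
  have hneg : ∀ w ∈ Metric.closedBall z δ, ddc (fun x => (-1) * f x) w = 0 := by
    intro w hw
    rw [ddc_smul (-1) (ContDiff.contDiffAt (n := 2) (by exact_mod_cast (contDiff_infty.1 hf 2))), h w hw]
    refine ContinuousLinearMap.ext fun u => ContinuousLinearMap.ext fun v => ?_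
    show (-1 : ℝ) * 0 = 0
    ring
  have hc : ∀ y : H, ‖y‖ ≤ 1 →
      (2 * Real.pi)⁻¹ * ∫ θ in (0 : ℝ)..(2 * Real.pi), f (z + Complex.exp (θ * Complex.I) • (-((δ : ℂ) • y))) = f z := by
    intro y hy
    refine le_antisymm ?_ ?_
    · have h1 := circ (f := fun x => (-1) * f x) (contDiff_const.mul hf) z (-((δ : ℂ) • y)) (fun ζ hζ => by
        rw [hneg _ (hin y hy ζ hζ)]
        exact le_rfl)
      rw [intervalIntegral.integral_const_mul] at h1
      linarith
    · exact circ hf z (-((δ : ℂ) • y)) (fun ζ hζ => by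
        rw [h _ (hin y hy ζ hζ)]
        exact le_rfl)
  -- rotation
  have hr : ∀ θ : ℝ, mo μ δ f z = ∫ y, ker μ y * f (z + Complex.exp (θ * Complex.I) • (-((δ : ℂ) • y))) ∂μ := by
    intro θ
    have hn : ‖Complex.exp (θ * Complex.I)‖ = 1 := Complex.norm_exp_ofReal_mul_I θ
    rw [mo, ← int_rot μ (fun y => ker μ y * f (z - (δ : ℂ) • y)) _ hn]
    congr 1
    funext y
    show ker μ (Complex.exp (θ * Complex.I) • y) * f (z - (δ : ℂ) • (Complex.exp (θ * Complex.I) • y)) = _
    rw [k6 _ hn, smul_neg, ← sub_eq_add_neg, smul_comm]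
  have hsw : ∫ θ in Set.Ioc (0 : ℝ) (2 * Real.pi), (∫ y, ker μ y * f (z + Complex.exp (θ * Complex.I) • (-((δ : ℂ) • y))) ∂μ) =
      ∫ y, (∫ θ in Set.Ioc (0 : ℝ) (2 * Real.pi), ker μ y * f (z + Complex.exp (θ * Complex.I) • (-((δ : ℂ) • y)))) ∂μ := by
    refine integral_integral_swap (f := fun (θ : ℝ) (y : H) => ker μ y * f (z + Complex.exp (θ * Complex.I) • (-((δ : ℂ) • y)))) ?_
    obtain ⟨C, hC⟩ := (isCompact_closedBall z δ).exists_bound_of_continuousOn (f := f) hf.continuous.continuousOn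
    have hb : Integrable (fun p : ℝ × H => C * ker μ p.2) ((volume.restrict (Set.Ioc (0 : ℝ) (2 * Real.pi))).prod μ) :=
      Integrable.mul_prod (integrable_const C) hki
    refine hb.mono' ?_ (Filter.Eventually.of_forall fun p => ?_)
    · refine Continuous.aestronglyMeasurable ?_
      have c1 : Continuous fun p : ℝ × H => Complex.exp (p.1 * Complex.I) :=
        Complex.continuous_exp.comp ((Complex.continuous_ofReal.comp continuous_fst).mul continuous_const)
      exact (k1.continuous.comp continuous_snd).mul (hf.continuous.comp (continuous_const.add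
        (c1.smul (continuous_snd.const_smul (δ : ℂ)).neg)))
    · show ‖ker μ p.2 * f (z + Complex.exp (p.1 * Complex.I) • (-((δ : ℂ) • p.2)))‖ ≤ C * ker μ p.2
      rw [norm_mul, Real.norm_of_nonneg (k3 _), mul_comm]
      by_cases hy : 1 ≤ ‖p.2‖
      · rw [k4 _ hy, mul_zero, mul_zero]
      · exact mul_le_mul_of_nonneg_right (hC _ (hin _ (not_le.1 hy).le _ (Complex.norm_exp_ofReal_mul_I p.1).le)) (k3 _)
  have h1 : (2 * Real.pi) * mo μ δ f z = ∫ θ in Set.Ioc (0 : ℝ) (2 * Real.pi),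
      (∫ y, ker μ y * f (z + Complex.exp (θ * Complex.I) • (-((δ : ℂ) • y))) ∂μ) := by
    simp_rw [← hr]
    rw [setIntegral_const, smul_eq_mul, measureReal_def, Real.volume_Ioc, sub_zero, ENNReal.toReal_ofReal hpi.le]
  have h2 : ∀ y : H, ∫ θ in Set.Ioc (0 : ℝ) (2 * Real.pi), ker μ y * f (z + Complex.exp (θ * Complex.I) • (-((δ : ℂ) • y))) =
      (2 * Real.pi * f z) * ker μ y := by
    intro y
    by_cases hy : 1 ≤ ‖y‖
    · simp only [k4 _ hy, zero_mul, mul_zero, integral_zero]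
    · have h3 := hc y (not_le.1 hy).le
      rw [intervalIntegral.integral_of_le hpi.le] at h3
      rw [integral_const_mul, ← h3, ← mul_assoc, mul_inv_cancel₀ hpi.ne', one_mul, mul_comm]
  rw [hsw] at h1
  simp_rw [h2] at h1
  rw [integral_const_mul, k5, mul_one] at h1
  exact mul_left_cancel₀ hpi.ne' h1

theorem weyl {g : H → ℝ} (hg : IntegrableOn g (qb e 3) μ)
    (h : ∀ χ : H → ℝ, ContDiff ℝ ∞ χ → tsupport χ ⊆ qb e 3 → ∀ ξ : H,
      ∫ z in qb e 3, g z * ddc χ z ξ (Complex.I • ξ) ∂μ = 0) :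
    ∃ v : H → ℝ, ContDiff ℝ ∞ v ∧ (∀ z ∈ qb e 2, ddc v z = 0) ∧ ∀ᵐ z ∂μ, z ∈ qb e 2 → g z = v z := by
  have hm : MeasurableSet (qb e 3 : Set H) := (isOpen_qb e 3).measurableSet
  have hP : Integrable ((qb e 3).indicator g) μ := hg.integrable_indicator hm
  -- radii
  have hrad : ∀ r s : ℝ, 0 ≤ r → r < s → ∃ δ : ℝ, 0 < δ ∧ ∀ z ∈ (qb e r : Set H), Metric.closedBall z δ ⊆ qb e s := by
    intro r s hr hrs
    have hsub : {z : H | qf e z ≤ r ^ 2} ⊆ qb e s := fun z hz =>
      lt_of_le_of_lt hz (pow_lt_pow_left₀ hrs hr two_ne_zero)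
    obtain ⟨δ, hδ, h1⟩ := (isCompact_qb e r).exists_cthickening_subset_open (isOpen_qb e s) hsub
    refine ⟨δ, hδ, fun z hz => (Metric.closedBall_subset_cthickening ?_ δ).trans h1⟩
    have hz1 : qf e z < r ^ 2 := hz
    exact hz1.le
  obtain ⟨δ1, hδ1, hr1⟩ := hrad 2 (5 / 2) (by norm_num) (by norm_num)
  obtain ⟨δ2, hδ2, hr2⟩ := hrad (5 / 2) 3 (by norm_num) (by norm_num)
  set δ0 := min δ1 δ2 with hδ0d
  have hδ0 : 0 < δ0 := lt_min hδ1 hδ2
  have hpl : ∀ δ : ℝ, 0 < δ → δ ≤ δ0 → ∀ z ∈ (qb e (5 / 2) : Set H), ddc (mo μ δ ((qb e 3).indicator g)) z = 0 := by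
    intro δ hδ hle z hz
    exact F4_pl e μ hg h hδ ((Metric.closedBall_subset_closedBall (hle.trans (min_le_right _ _))).trans (hr2 z hz))
  have hmean : ∀ δ δ' : ℝ, 0 < δ → δ ≤ δ0 → 0 < δ' → δ' ≤ δ0 → ∀ z ∈ (qb e 2 : Set H),
      mo μ δ' (mo μ δ ((qb e 3).indicator g)) z = mo μ δ ((qb e 3).indicator g) z := by
    intro δ δ' hδ hle hδ' hle' z hz
    refine F4_mean μ (mo_smooth μ hδ hP.locallyIntegrable) hδ' fun w hw => hpl δ hδ hle w ?_
    exact hr1 z hz (Metric.closedBall_subset_closedBall (hle'.trans (min_le_left _ _)) hw)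
  refine ⟨mo μ δ0 ((qb e 3).indicator g), mo_smooth μ hδ0 hP.locallyIntegrable, fun z hz => ?_, ?_⟩
  · refine hpl δ0 hδ0 le_rfl z ?_
    have hz1 : qf e z < 2 ^ 2 := hz
    show qf e z < (5 / 2) ^ 2
    exact hz1.trans (by norm_num)
  · filter_upwards [F4_leb μ hP.locallyIntegrable] with z hz hz2
    have hz1 : qf e z < 2 ^ 2 := hz2
    have hz3 : z ∈ (qb e 3 : Set H) := by
      show qf e z < 3 ^ 2
      exact hz1.trans (by norm_num)
    rw [Set.indicator_of_mem hz3] at hz
    refine tendsto_nhds_unique hz (tendsto_const_nhds.congr' ?_)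
    filter_upwards [Ioc_mem_nhdsGT hδ0] with δ hδ
    rw [← hmean δ0 δ hδ0 le_rfl hδ.1 hδ.2 z hz2, F4_comm μ hP hδ0 hδ.1, hmean δ δ0 hδ.1 hδ.2 hδ0 le_rfl z hz2]

end HDG
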