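import Pool.Agent.HDG.GDefs
import Pool.Agent.HDG.LA1

/-!
# HDG/G1: transition maps

Elementary facts on the transition maps `B.T i j` of a manifold given by finitely many parametrized balls, and on their
derivatives (chain rule).
-/

set_option autoImplicit false

noncomputable section

open scoped ContDiff Topology

namespace HDG

open Pool.Agent.FBR

variable {H : Type*} [NormedAddCommGroup H] [NormedSpace ℂ H] {n : ℕ} {e : Module.Basis (Fin n) ℂ H}
  {Y : Type*} [TopologicalSpace Y] (B : BM e Y)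

namespace BM

theorem cd_mem (y : Y) : B.cd y ∈ qb e 1 :=
  (B.cov y).choose_spec.choose_spec.1

theorem ψ_cd (y : Y) : B.ψ (B.ix y) (B.cd y) = y :=
  (B.cov y).choose_spec.choose_spec.2

theorem qb_mono {r s : ℝ} (hr : 0 ≤ r) (h : r ≤ s) : (qb e r : Set H) ⊆ qb e s := by
  intro z hz
  have h1 : qf e z < r ^ 2 := hz
  exact lt_of_lt_of_le h1 (pow_le_pow_left₀ hr h 2)

theorem T_mem {i j : B.I} {z : H} (h : z ∈ B.D i j) : B.T i j z ∈ qb e 4 :=
  Function.invFunOn_mem h.2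

theorem ψ_T {i j : B.I} {z : H} (h : z ∈ B.D i j) : B.ψ j (B.T i j z) = B.ψ i z :=
  Function.invFunOn_eq h.2

theorem T_eq {i j : B.I} {z w : H} (hz : z ∈ qb e 4) (hw : w ∈ qb e 4) (h : B.ψ i z = B.ψ j w) :
    z ∈ B.D i j ∧ B.T i j z = w := by
  have h1 : z ∈ B.D i j := ⟨hz, w, hw, h.symm⟩
  exact ⟨h1, B.inj j (B.T_mem h1) hw ((B.ψ_T h1).trans h)⟩

theorem T_self {i : B.I} {z : H} (hz : z ∈ qb e 4) : B.T i i z = z :=
  (B.T_eq hz hz rfl).2

theorem T_symm {i j : B.I} {z : H} (h : z ∈ B.D i j) : B.T i j z ∈ B.D j i ∧ B.T j i (B.T i j z) = z :=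
  B.T_eq (B.T_mem h) h.1 (B.ψ_T h)

theorem T_trans {i j k : B.I} {z : H} (h : z ∈ B.D i j) (h' : z ∈ B.D i k) :
    B.T i j z ∈ B.D j k ∧ B.T j k (B.T i j z) = B.T i k z :=
  B.T_eq (B.T_mem h) (B.T_mem h') ((B.ψ_T h).trans (B.ψ_T h').symm)

variable [FiniteDimensional ℂ H]

theorem D_open (i j : B.I) : IsOpen (B.D i j) :=
  (B.cont i).isOpen_inter_preimage (isOpen_qb e 4) (B.opn j (qb e 4) subset_rfl (isOpen_qb e 4))

omit [FiniteDimensional ℂ H] in
private theorem G1_tr {i j : B.I} {z : H} (h : z ∈ B.D i j) : ContDiffAt ℂ ∞ (B.T i j) z :=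
  B.tr i j z h.1 h.2

omit [FiniteDimensional ℂ H] in
private theorem G1_cd {i j : B.I} {z : H} (h : z ∈ B.D i j) : ContDiffAt ℝ ∞ (B.T i j) z :=
  (B.G1_tr h).restrict_scalars ℝ

omit [FiniteDimensional ℂ H] in
private theorem G1_df {i j : B.I} {z : H} (h : z ∈ B.D i j) : DifferentiableAt ℝ (B.T i j) z :=
  (B.G1_cd h).differentiableAt (by simp)

theorem T_cd {i j : B.I} {z : H} (h : z ∈ B.D i j) : ContDiffAt ℝ ∞ (B.T i j) z :=
  B.G1_cd h

theorem T_I {i j : B.I} {z : H} (h : z ∈ B.D i j) (v : H) :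
    fderiv ℝ (B.T i j) z (Complex.I • v) = Complex.I • fderiv ℝ (B.T i j) z v := by
  have h1 : DifferentiableAt ℂ (B.T i j) z := (B.G1_tr h).differentiableAt (by simp)
  rw [(h1.hasFDerivAt.restrictScalars ℝ).fderiv]
  show fderiv ℂ (B.T i j) z (Complex.I • v) = Complex.I • fderiv ℂ (B.T i j) z v
  rw [map_smul]

theorem T_inv {i j : B.I} {z : H} (h : z ∈ B.D i j) :
    (fderiv ℝ (B.T j i) (B.T i j z)).comp (fderiv ℝ (B.T i j) z) = ContinuousLinearMap.id ℝ H := by
  have h1 := (B.G1_df (B.T_symm h).1).hasFDerivAt.comp z (B.G1_df h).hasFDerivAt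
  have h2 : HasFDerivAt (B.T j i ∘ B.T i j) (ContinuousLinearMap.id ℝ H) z := by
    refine (hasFDerivAt_id z).congr_of_eventuallyEq ?_
    filter_upwards [(B.D_open i j).mem_nhds h] with z' hz'
    exact (B.T_symm hz').2
  exact h1.unique h2

theorem T_bij {i j : B.I} {z : H} (h : z ∈ B.D i j) : Function.Bijective (fderiv ℝ (B.T i j) z) := by
  have h1 := B.T_inv h
  have h2 := B.T_inv (B.T_symm h).1
  rw [(B.T_symm h).2] at h2
  rw [Function.bijective_iff_has_inverse]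
  refine ⟨fderiv ℝ (B.T j i) (B.T i j z), fun v => ?_, fun v => ?_⟩
  · have := congrArg (fun L : H →L[ℝ] H => L v) h1
    exact this
  · have := congrArg (fun L : H →L[ℝ] H => L v) h2
    exact this

theorem T_trans' {i j k : B.I} {z : H} (h : z ∈ B.D i j) (h' : z ∈ B.D i k) :
    (fderiv ℝ (B.T j k) (B.T i j z)).comp (fderiv ℝ (B.T i j) z) = fderiv ℝ (B.T i k) z := by
  have h1 := (B.G1_df (B.T_trans h h').1).hasFDerivAt.comp z (B.G1_df h).hasFDerivAt
  have h2 : HasFDerivAt (B.T j k ∘ B.T i j) (fderiv ℝ (B.T i k) z) z := by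
    refine (B.G1_df h').hasFDerivAt.congr_of_eventuallyEq ?_
    filter_upwards [(B.D_open i j).mem_nhds h, (B.D_open i k).mem_nhds h'] with z' hz' hz''
    exact (B.T_trans hz' hz'').2
  exact h1.unique h2

end BM

end HDG
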