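import Pool.Agent.HDG.F3
import Pool.Agent.HDG.F4
import Pool.Agent.HDG.G1

/-!
# HDG/F5: the smooth solution

The local pluriharmonic functions of `weyl` minus the local functions `t i` glue to a smooth function on `X`: two of them agree
almost everywhere on the overlaps, hence everywhere.
-/

set_option autoImplicit false

noncomputable section

open scoped ContDiff Topology

open MeasureTheory

namespace HDG

open Pool.Agent.FBR

variable {H : Type*} [NormedAddCommGroup H] [NormedSpace ℂ H] {n : ℕ} {e : Module.Basis (Fin n) ℂ H}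
  [FiniteDimensional ℂ H] [MeasurableSpace H] [BorelSpace H] {μ : Measure H} [μ.IsAddHaarMeasure]
  {X : Type*} [TopologicalSpace X] [CompactSpace X] [T2Space X] [MeasurableSpace X] [BorelSpace X]
  (B : BM e X) {t : B.I → H → ℝ} {w b : B.I → H → Bil H} {ν : Measure X}

namespace BM

omit [MeasurableSpace H] [BorelSpace H] [CompactSpace X] [T2Space X] [MeasurableSpace X] [BorelSpace X] in
private theorem F5_near {i j : B.I} {z : H} (hz : z ∈ B.D i j) (hT : B.T i j z ∈ qb e 1) :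
    ∀ᶠ y in 𝓝 z, y ∈ B.D i j ∧ B.T i j y ∈ qb e 2 := by
  have h1 : ContinuousAt (B.T i j) z := (B.T_cd hz).continuousAt
  have h2 : (qb e 2 : Set H) ∈ 𝓝 (B.T i j z) :=
    (isOpen_qb e 2).mem_nhds (qb_mono (by norm_num) (by norm_num) hT)
  filter_upwards [(B.D_open i j).mem_nhds hz, h1.preimage_mem_nhds h2] with y hy hy'
  exact ⟨hy, hy'⟩

omit [CompactSpace X] [T2Space X] [MeasurableSpace X] [BorelSpace X] in
private theorem F5_null {i j : B.I} {N : Set H} (hN : μ N = 0) :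
    μ {y | y ∈ B.D i j ∧ B.T i j y ∈ N} = 0 := by
  have h1 : μ (B.T j i '' (N ∩ B.D j i)) = 0 := by
    refine addHaar_image_eq_zero_of_differentiableOn_of_addHaar_eq_zero μ ?_
      (measure_mono_null Set.inter_subset_left hN)
    intro y hy
    exact ((B.T_cd hy.2).differentiableAt (by simp)).differentiableWithinAt
  refine measure_mono_null ?_ h1
  rintro y ⟨hy, hy'⟩
  exact ⟨B.T i j y, ⟨hy', (B.T_symm hy).1⟩, (B.T_symm hy).2⟩

omit [CompactSpace X] [T2Space X] [MeasurableSpace X] [BorelSpace X] in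
private theorem F5_agree (ht : B.Per t) {f : X → ℝ} {v : B.I → H → ℝ} (hv : ∀ i, ContDiff ℝ ∞ (v i))
    (hf : ∀ i, ∀ᵐ z ∂μ, z ∈ qb e 2 → t i z + f (B.ψ i z) = v i z) {i j : B.I} {z : H} (hz2 : z ∈ qb e 2)
    (hz : z ∈ B.D i j) (hT : B.T i j z ∈ qb e 1) :
    v i z - t i z = v j (B.T i j z) - t j (B.T i j z) := by
  obtain ⟨U, hU, hUo, hzU⟩ := eventually_nhds_iff.mp
    ((B.F5_near hz hT).and ((isOpen_qb e 2).mem_nhds hz2))
  have ht1 : ∀ i, ContinuousOn (t i) (qb e 4) := fun i => (ht.sm i).continuousOn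
  have hc1 : ContinuousOn (fun y => v i y - t i y) U := by
    refine (hv i).continuous.continuousOn.sub ((ht1 i).mono ?_)
    intro y hy
    exact (hU y hy).1.1.1
  have hTc : ContinuousOn (B.T i j) U := fun y hy => (B.T_cd (hU y hy).1.1).continuousAt.continuousWithinAt
  have hc2 : ContinuousOn (fun y => v j (B.T i j y) - t j (B.T i j y)) U := by
    refine ((hv j).continuous.comp_continuousOn hTc).sub ((ht1 j).comp hTc ?_)
    intro y hy
    exact qb_mono (by norm_num) (by norm_num) (hU y hy).1.2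
  have hae : (fun y => v i y - t i y) =ᵐ[μ.restrict U] fun y => v j (B.T i j y) - t j (B.T i j y) := by
    rw [Filter.EventuallyEq, ae_restrict_iff' hUo.measurableSet]
    have h1 := hf i
    have h2 : ∀ᵐ y ∂μ, y ∈ B.D i j → B.T i j y ∈ qb e 2 →
        t j (B.T i j y) + f (B.ψ j (B.T i j y)) = v j (B.T i j y) := by
      have h3 := ae_iff.mp (hf j)
      rw [ae_iff]
      refine measure_mono_null ?_ (B.F5_null (i := i) (j := j) h3)
      intro y hy
      simp only [Set.mem_ofPred_eq, Classical.not_imp] at hy ⊢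
      exact ⟨hy.1, hy.2⟩
    filter_upwards [h1, h2] with y hy1 hy2 hyU
    have h4 := hU y hyU
    have e1 := hy1 h4.2
    have e2 := hy2 h4.1.1 h4.1.2
    rw [B.ψ_T h4.1.1] at e2
    linarith
  exact Measure.eqOn_open_of_ae_eq hae hUo hc1 hc2 hzU

theorem final_step [ConnectedSpace X] (hw : B.Met w) (hν : B.IsVol μ w ν) (ht : B.Per t) {C : ℝ} (hC : 0 ≤ C)
    (h1 : B.Gauge t w ν C) (h2 : B.Gauge (fun i z => - t i z) w ν C) :
    ∃ f : X → ℝ, B.Sm f ∧ ∀ i, ∀ z ∈ qb e 4, B.ddt t i z + B.dd f i z = 0 := by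
  obtain ⟨a, b', α, β, f, ha, hb', hfm, hf, l1, l2⟩ := B.exists_limit hw hν ht hC h1 h2
  have hW := fun i => B.weak_eq hw hν ht ha hb' hfm hf l1 l2 i
  choose v hv hv0 hva using fun i => weyl e μ (hW i).1 (hW i).2
  set F : X → ℝ := fun x => v (B.ix x) (B.cd x) - t (B.ix x) (B.cd x) with hF
  have key : ∀ i, ∀ z ∈ qb e 2, F (B.ψ i z) = v i z - t i z := by
    intro i z hz
    have hz4 : z ∈ qb e 4 := qb_mono (by norm_num) (by norm_num) hz
    have hc := B.cd_mem (B.ψ i z)
    have hc4 : B.cd (B.ψ i z) ∈ qb e 4 := qb_mono (by norm_num) (by norm_num) hc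
    obtain ⟨hD, hT⟩ := B.T_eq hz4 hc4 (B.ψ_cd (B.ψ i z)).symm
    rw [← hT] at hc
    have h3 := B.F5_agree ht hv hva hz hD hc
    rw [hT] at h3
    exact h3.symm
  have loc : ∀ i, ∀ z ∈ qb e 4, ∃ j, z ∈ B.D i j ∧ B.T i j z ∈ qb e 1 ∧
      (fun y => F (B.ψ i y)) =ᶠ[𝓝 z] ((fun y => v j y - t j y) ∘ B.T i j) := by
    intro i z hz4
    have hc := B.cd_mem (B.ψ i z)
    have hc4 : B.cd (B.ψ i z) ∈ qb e 4 := qb_mono (by norm_num) (by norm_num) hc
    obtain ⟨hD, hT⟩ := B.T_eq hz4 hc4 (B.ψ_cd (B.ψ i z)).symm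
    rw [← hT] at hc
    refine ⟨B.ix (B.ψ i z), hD, hc, ?_⟩
    filter_upwards [B.F5_near hD hc] with y hy
    have h3 := key (B.ix (B.ψ i z)) _ hy.2
    rw [B.ψ_T hy.1] at h3
    exact h3
  have hcd : ∀ j, ∀ z ∈ qb e 4, ContDiffAt ℝ ∞ (t j) z := fun j z hz =>
    (ht.sm j).contDiffAt ((isOpen_qb e 4).mem_nhds hz)
  refine ⟨F, fun i z hz => ?_, fun i z hz => ?_⟩
  · obtain ⟨j, hD, hT, he⟩ := loc i z hz
    have h3 : ContDiffAt ℝ ∞ (fun y => v j y - t j y) (B.T i j z) :=
      (hv j).contDiffAt.sub (hcd j _ (B.T_mem hD))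
    exact ((h3.comp z (B.T_cd hD)).congr_of_eventuallyEq he).contDiffWithinAt
  · obtain ⟨j, hD, hT, he⟩ := loc i z hz
    have htj := hcd j _ (B.T_mem hD)
    have hv2 : ContDiffAt ℝ 2 (v j) (B.T i j z) := (hv j).contDiffAt.of_le (by norm_cast)
    have ht2 : ContDiffAt ℝ 2 (t j) (B.T i j z) := htj.of_le (by norm_cast)
    have e1 : B.dd F i z = (ddc (fun y => v j y - t j y) (B.T i j z)).bilinearComp
        (fderiv ℝ (B.T i j) z) (fderiv ℝ (B.T i j) z) := by
      show ddc (fun z => F (B.ψ i z)) z = _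
      rw [ddc_congr he]
      exact ddc_comp (hv2.sub ht2) (B.tr i j z hD.1 hD.2)
    have e2 : ddc (fun y => v j y - t j y) (B.T i j z) = - ddc (t j) (B.T i j z) := by
      have e3 : (fun y => v j y - t j y) = fun y => v j y + (-1) * t j y := by
        funext y; ring
      have e4 := ddc_smul (-1) ht2
      rw [e3, ddc_add hv2 (contDiffAt_const.mul ht2), e4,
        hv0 j _ (qb_mono (by norm_num) (by norm_num) hT)]
      ext x y
      simp
    have e5 := ht.IsT.co i j z hD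
    rw [e1, e2, e5]
    ext x y
    simp [BM.ddt]

end BM

end HDG
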