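import Pool.Agent.HDG.G6
import Pool.Agent.HDG.G3

/-!
# HDG/G12: existence of a metric, positivity of the volume

`exists_met`: a metric on a compact complex manifold, glued from the standard forms of the balls with a partition of unity.
`mass_pos`: the total mass of a semi-positive tensor which is positive at a point is positive.
-/

set_option autoImplicit false

noncomputable section

open scoped ContDiff Topology

open MeasureTheory

namespace HDG

open Pool.Agent.FBR

variable {H : Type*} [NormedAddCommGroup H] [NormedSpace ℂ H] {n : ℕ} {e : Module.Basis (Fin n) ℂ H}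
  [FiniteDimensional ℂ H] [MeasurableSpace H] [BorelSpace H] {μ : Measure H} [μ.IsAddHaarMeasure]
  {X : Type*} [TopologicalSpace X] [CompactSpace X] [T2Space X] [MeasurableSpace X] [BorelSpace X]
  (B : BM e X) {w b : B.I → H → Bil H} {ν : Measure X}

private theorem G12_flip {G1 G2 : Type*} [NormedAddCommGroup G1] [NormedSpace ℝ G1]
    [NormedAddCommGroup G2] [NormedSpace ℝ G2] :
    ContDiff ℝ ∞ (fun a : G1 →L[ℝ] G2 →L[ℝ] ℝ => a.flip) := by
  have h : IsBoundedLinearMap ℝ (fun a : G1 →L[ℝ] G2 →L[ℝ] ℝ => a.flip) :=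
    { map_add := fun _ _ => rfl
      map_smul := fun _ _ => rfl
      bound := ⟨1, one_pos, fun a => by simp⟩ }
  exact h.contDiff

private theorem G12_smul {G V : Type*} [NormedAddCommGroup G] [NormedSpace ℝ G] [NormedAddCommGroup V]
    [NormedSpace ℝ V] {c : G → ℝ} {f : G → V} {z : G} (hc : ContDiffAt ℝ ∞ c z) (hf : ContDiffAt ℝ ∞ f z) :
    ContDiffAt ℝ ∞ (fun x => c x • f x) z := hc.smul hf

private theorem G12_comp {G : Type*} [NormedAddCommGroup G] [NormedSpace ℝ G] (a : Bil G) :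
    ContDiff ℝ ∞ (fun L : G →L[ℝ] G => a.bilinearComp L L) := by
  have h1 : ContDiff ℝ ∞ (fun L : G →L[ℝ] G => (a.comp L).flip) :=
    G12_flip.comp (contDiff_const.clm_comp contDiff_id)
  have h2 : ContDiff ℝ ∞ (fun L : G →L[ℝ] G => ((a.comp L).flip.comp L).flip) :=
    G12_flip.comp (h1.clm_comp contDiff_id)
  exact h2

private theorem G12_sum {ι : Type*} (s : Finset ι) {a : ι → Bil H} (h : ∀ i ∈ s, O11 (a i)) :
    O11 (∑ i ∈ s, a i) := by
  classical
  induction s using Finset.induction_on with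
  | empty =>
    rw [Finset.sum_empty]
    exact O11_zero
  | insert i s hi ih =>
    rw [Finset.sum_insert hi]
    exact O11_add (h i (Finset.mem_insert_self i s)) (ih fun k hk => h k (Finset.mem_insert_of_mem hk))

private theorem G12_apply {ι : Type*} (s : Finset ι) (a : ι → Bil H) (u v : H) :
    (∑ i ∈ s, a i) u v = ∑ i ∈ s, a i u v := by
  rw [ContinuousLinearMap.sum_apply, ContinuousLinearMap.sum_apply]

namespace BM

/-- the term with index `i` of the metric -/
private def tm (χ : B.I → X → ℝ) (j i : B.I) (z : H) : Bil H :=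
  χ i (B.ψ j z) • (w0 e : Bil H).bilinearComp (fderiv ℝ (B.T j i) z) (fderiv ℝ (B.T j i) z)

omit [FiniteDimensional ℂ H] [MeasurableSpace H] [BorelSpace H] [CompactSpace X] [T2Space X]
  [MeasurableSpace X] [BorelSpace X] in
private theorem G12_out {χ : B.I → X → ℝ} {c : B.I → H → ℝ} (hχ : B.Pou χ c) {j i : B.I} {z : H}
    (hz : z ∈ qb e 4) (h : z ∉ B.D j i) : χ i (B.ψ j z) = 0 :=
  hχ.out i _ fun x hx hxy => h ⟨hz, x, hx, hxy⟩

omit [MeasurableSpace H] [BorelSpace H] [CompactSpace X] [MeasurableSpace X] [BorelSpace X] in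
private theorem G12_smooth {χ : B.I → X → ℝ} {c : B.I → H → ℝ} (hχ : B.Pou χ c) (j i : B.I) :
    ContDiffOn ℝ ∞ (B.tm χ j i) (qb e 4) := by
  intro z hz
  refine ContDiffAt.contDiffWithinAt ?_
  by_cases h : z ∈ B.D j i
  · have h1 : ContDiffAt ℝ ∞ (fun z => χ i (B.ψ j z)) z :=
      (hχ.sm i j).contDiffAt ((isOpen_qb e 4).mem_nhds hz)
    have h2 : ContDiffAt ℝ ∞ (fderiv ℝ (B.T j i)) z := (B.T_cd h).fderiv_right (m := ∞) (by simp)
    have h3 : ContDiffAt ℝ ∞ (fun z => (w0 e : Bil H).bilinearComp (fderiv ℝ (B.T j i) z)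
        (fderiv ℝ (B.T j i) z)) z := (G12_comp (w0 e : Bil H)).contDiffAt.comp z h2
    exact G12_smul h1 h3
  · have hK : IsCompact (tsupport (c i)) :=
      (isCompact_qb e (3 / 2)).of_isClosed_subset (isClosed_tsupport (c i)) (hχ.cs i)
    have hK4 : tsupport (c i) ⊆ qb e 4 := by
      intro x hx
      have h1 : qf e x ≤ (3 / 2) ^ 2 := hχ.cs i hx
      show qf e x < 4 ^ 2
      norm_num at h1 ⊢
      linarith
    have hK1 : IsClosed (B.ψ i '' tsupport (c i)) :=
      (hK.image_of_continuousOn ((B.cont i).mono hK4)).isClosed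
    have h2 : B.ψ j z ∈ (B.ψ i '' tsupport (c i))ᶜ := by
      rintro ⟨x, hx, hx'⟩
      exact h ⟨hz, x, hK4 hx, hx'⟩
    have h3 : ContinuousAt (B.ψ j) z := (B.cont j).continuousAt ((isOpen_qb e 4).mem_nhds hz)
    have h4 : ∀ᶠ x in 𝓝 z, B.ψ j x ∈ (B.ψ i '' tsupport (c i))ᶜ :=
      h3.eventually (hK1.isOpen_compl.mem_nhds h2)
    refine (contDiffAt_const (c := (0 : Bil H))).congr_of_eventuallyEq ?_
    filter_upwards [h4] with x hx
    have h5 : χ i (B.ψ j x) = 0 := by
      by_cases h6 : ∃ y ∈ qb e 4, B.ψ i y = B.ψ j x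
      · obtain ⟨y, hy, hyx⟩ := h6
        rw [← hyx, hχ.eq i y hy]
        by_contra h7
        exact hx ⟨y, subset_tsupport (c i) h7, hyx⟩
      · exact hχ.out i _ fun y hy hyx => h6 ⟨y, hy, hyx⟩
    refine ContinuousLinearMap.ext fun u => ContinuousLinearMap.ext fun v => ?_
    show χ i (B.ψ j x) * (w0 e : Bil H) (fderiv ℝ (B.T j i) x u) (fderiv ℝ (B.T j i) x v) = 0
    rw [h5, zero_mul]

omit [MeasurableSpace H] [BorelSpace H] [CompactSpace X] [T2Space X] [MeasurableSpace X]
  [BorelSpace X] in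
private theorem G12_oo {χ : B.I → X → ℝ} {c : B.I → H → ℝ} (hχ : B.Pou χ c) (j i : B.I) {z : H}
    (hz : z ∈ qb e 4) : O11 (B.tm χ j i z) := by
  by_cases h : z ∈ B.D j i
  · exact O11_smul _ (O11_comp (w0_O11 e) fun v => B.T_I h v)
  · have h1 : B.tm χ j i z = 0 := by
      refine ContinuousLinearMap.ext fun u => ContinuousLinearMap.ext fun v => ?_
      show χ i (B.ψ j z) * (w0 e : Bil H) (fderiv ℝ (B.T j i) z u) (fderiv ℝ (B.T j i) z v) = 0
      rw [B.G12_out hχ hz h, zero_mul]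
    rw [h1]
    exact O11_zero

theorem exists_met : ∃ w : B.I → H → Bil H, B.Met w := by
  obtain ⟨χ, c, hχ⟩ := B.exists_pou
  refine ⟨fun j z => ∑ i, B.tm χ j i z, ⟨?_, ?_, ?_⟩, ?_⟩
  · intro j
    exact ContDiffOn.sum fun i _ => B.G12_smooth hχ j i
  · intro j z hz
    exact G12_sum Finset.univ fun i _ => B.G12_oo hχ j i hz
  · intro i j z hz
    refine ContinuousLinearMap.ext fun u => ContinuousLinearMap.ext fun v => ?_
    rw [ContinuousLinearMap.bilinearComp_apply, G12_apply, G12_apply]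
    refine Finset.sum_congr rfl fun k _ => ?_
    show χ k (B.ψ i z) * (w0 e : Bil H) (fderiv ℝ (B.T i k) z u) (fderiv ℝ (B.T i k) z v) =
      χ k (B.ψ j (B.T i j z)) * (w0 e : Bil H) (fderiv ℝ (B.T j k) (B.T i j z) (fderiv ℝ (B.T i j) z u))
        (fderiv ℝ (B.T j k) (B.T i j z) (fderiv ℝ (B.T i j) z v))
    rw [B.ψ_T hz]
    by_cases h : z ∈ B.D i k
    · have h1 := B.T_trans' hz h
      have h2 : ∀ x : H, fderiv ℝ (B.T j k) (B.T i j z) (fderiv ℝ (B.T i j) z x) = fderiv ℝ (B.T i k) z x :=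
        fun x => congrArg (fun L : H →L[ℝ] H => L x) h1
      rw [h2, h2]
    · rw [B.G12_out hχ hz.1 h, zero_mul, zero_mul]
  · intro j z hz v hv
    show 0 < (∑ i, B.tm χ j i z) v (Complex.I • v)
    rw [G12_apply]
    have h1 : ∀ i, z ∈ B.D j i → B.tm χ j i z v (Complex.I • v) =
        χ i (B.ψ j z) * qf e (fderiv ℝ (B.T j i) z v) := by
      intro i h
      show χ i (B.ψ j z) * (w0 e : Bil H) (fderiv ℝ (B.T j i) z v)
        (fderiv ℝ (B.T j i) z (Complex.I • v)) = _
      rw [B.T_I h, w0_self]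
    have h2 : ∀ i, 0 ≤ B.tm χ j i z v (Complex.I • v) := by
      intro i
      by_cases h : z ∈ B.D j i
      · rw [h1 i h]
        exact mul_nonneg (hχ.nn i _) (qf_nonneg e _)
      · refine le_of_eq ?_
        show (0 : ℝ) = χ i (B.ψ j z) * (w0 e : Bil H) (fderiv ℝ (B.T j i) z v)
          (fderiv ℝ (B.T j i) z (Complex.I • v))
        rw [B.G12_out hχ hz h, zero_mul]
    obtain ⟨i, hi⟩ : ∃ i, χ i (B.ψ j z) ≠ 0 := by
      by_contra hcon
      push Not at hcon
      have h3 := hχ.sum (B.ψ j z)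
      rw [Finset.sum_eq_zero fun i _ => hcon i] at h3
      exact zero_ne_one h3
    have hD : z ∈ B.D j i := by
      by_contra h
      exact hi (B.G12_out hχ hz h)
    have h4 : fderiv ℝ (B.T j i) z v ≠ 0 := by
      intro h
      exact hv ((B.T_bij hD).1 (by rw [h, map_zero]))
    have h5 : 0 < B.tm χ j i z v (Complex.I • v) := by
      rw [h1 i hD]
      exact mul_pos (lt_of_le_of_ne (hχ.nn i _) (Ne.symm hi)) (qf_pos e h4)
    exact lt_of_lt_of_le h5
      (Finset.single_le_sum (f := fun i => B.tm χ j i z v (Complex.I • v)) (fun i _ => h2 i)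
        (Finset.mem_univ i))

theorem mass_pos (hw : B.Met w) (hν : B.IsVol μ w ν) (hb : B.IsT b) (hn : B.NnT b)
    (hp : ∃ i, ∃ z ∈ qb e 4, ∀ v : H, v ≠ 0 → 0 < b i z v (Complex.I • v)) : 0 < ∫ x, B.den w b x ∂ν := by
  have hc : Continuous (B.den w b) := B.den_cont hw hb
  have h0 : ∀ y, 0 ≤ B.den w b y := by
    intro y
    have hy : B.cd y ∈ qb e 4 := qb_mono (by norm_num) (by norm_num) (B.cd_mem y)
    exact div_nonneg (dt_nonneg e (hb.oo _ _ hy) (hn _ _ hy)) (B.dt_w_pos hw hy).le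
  obtain ⟨C, hC⟩ := (isCompact_univ (X := X)).exists_bound_of_continuousOn hc.continuousOn
  have hi : Integrable (B.den w b) ν :=
    B.bd_int hν hc.measurable (C := C) fun y => by
      have h := hC y (Set.mem_univ y)
      rwa [Real.norm_eq_abs] at h
  rw [integral_pos_iff_support_of_nonneg h0 hi]
  have hO : IsOpen (Function.support (B.den w b)) := hc.isOpen_support
  refine B.vol_open hw hν hO ?_
  obtain ⟨i, z, hz, hv⟩ := hp
  refine ⟨B.ψ i z, ?_⟩
  rw [Function.mem_support, B.den_box hw hb hz]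
  exact (div_pos ((dt_pos e (hb.oo i z hz) (hn i z hz)).2 hv) (B.dt_w_pos hw hz)).ne'

end BM

end HDG
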