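import Pool.Agent.HDG.G4

/-!
# HDG/G5: the volume measure

`exists_vol`: the finite family `B.I` is enumerated, `A i` is the image of `qb e 1` under `ψ i` minus the earlier ones (a Borel partition), and
`ν` is the sum of the images under (a measurable modification of) `ψ i` of the measures with the density `dt (w i) · 1_(A i)`. The formula in the
ball `j` is the change of variables with the transition maps and `dt_comp`.
-/

set_option autoImplicit false

noncomputable section

open scoped ContDiff Topology ENNReal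

open MeasureTheory

namespace HDG

open Pool.Agent.FBR

variable {H : Type*} [NormedAddCommGroup H] [NormedSpace ℂ H] {n : ℕ} {e : Module.Basis (Fin n) ℂ H}
  [FiniteDimensional ℂ H] [MeasurableSpace H] [BorelSpace H] (μ : Measure H) [μ.IsAddHaarMeasure]
  {Y : Type*} [TopologicalSpace Y] [MeasurableSpace Y] [BorelSpace Y] (B : BM e Y) {w : B.I → H → Bil H}

namespace BM

open Classical in
/-- a measurable modification of `ψ i` -/
private def G5_P (y0 : Y) (i : B.I) : H → Y := (qb e 4 : Set H).piecewise (B.ψ i) fun _ => y0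

open Classical in
/-- the density in the ball `i` -/
private def G5_g (w : B.I → H → Bil H) (i : B.I) : H → ℝ≥0∞ :=
  (qb e 4 : Set H).piecewise (fun z => ENNReal.ofReal (dt e (w i z))) fun _ => 0

/-- a Borel partition -/
private def G5_A (i : B.I) : Set Y :=
  B.ψ i '' qb e 1 \ ⋃ j : {j : B.I // Fintype.equivFin B.I j < Fintype.equivFin B.I i}, B.ψ j.1 '' qb e 1

omit [FiniteDimensional ℂ H] [MeasurableSpace H] [BorelSpace H] [MeasurableSpace Y] [BorelSpace Y] in
private theorem G5_P_in {y0 : Y} {i : B.I} {z : H} (hz : z ∈ qb e 4) : B.G5_P y0 i z = B.ψ i z := by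
  classical
  exact Set.piecewise_eq_of_mem _ _ _ hz

omit [FiniteDimensional ℂ H] [MeasurableSpace H] [BorelSpace H] [MeasurableSpace Y] [BorelSpace Y] in
private theorem G5_g_in {i : B.I} {z : H} (hz : z ∈ qb e 4) : B.G5_g w i z = ENNReal.ofReal (dt e (w i z)) := by
  classical
  exact Set.piecewise_eq_of_mem _ _ _ hz

omit [FiniteDimensional ℂ H] [MeasurableSpace H] [BorelSpace H] [MeasurableSpace Y] [BorelSpace Y] in
private theorem G5_g_out {i : B.I} {z : H} (hz : z ∉ (qb e 4 : Set H)) : B.G5_g w i z = 0 := by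
  classical
  exact Set.piecewise_eq_of_notMem _ _ _ hz

private theorem G5_P_meas (y0 : Y) (i : B.I) : Measurable (B.G5_P y0 i) := by
  classical
  exact ContinuousOn.measurable_piecewise (B.cont i) continuousOn_const (isOpen_qb e 4).measurableSet

omit [MeasurableSpace Y] [BorelSpace Y] in
private theorem G5_g_meas (hw : B.IsT w) (i : B.I) : Measurable (B.G5_g w i) := by
  classical
  refine ContinuousOn.measurable_piecewise ?_ continuousOn_const (isOpen_qb e 4).measurableSet
  exact ENNReal.continuous_ofReal.comp_continuousOn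
    ((dt_smooth e).continuous.comp_continuousOn (hw.sm i).continuousOn)

omit [MeasurableSpace Y] [BorelSpace Y] [MeasurableSpace H] [BorelSpace H] in
private theorem G5_opn (i : B.I) : IsOpen (B.ψ i '' qb e 1) :=
  B.opn i _ (qb_mono (by norm_num) (by norm_num)) (isOpen_qb e 1)

omit [MeasurableSpace H] [BorelSpace H] in
private theorem G5_A_meas (i : B.I) : MeasurableSet (B.G5_A i) :=
  (B.G5_opn i).measurableSet.diff (isOpen_iUnion fun j : {j : B.I // Fintype.equivFin B.I j < Fintype.equivFin B.I i} => B.G5_opn j.1).measurableSet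

omit [FiniteDimensional ℂ H] [MeasurableSpace Y] [BorelSpace Y] [MeasurableSpace H] [BorelSpace H] in
private theorem G5_A_sum (y : Y) : ∑ i, (B.G5_A i).indicator (1 : Y → ℝ≥0∞) y = 1 := by
  classical
  obtain ⟨i0, z0, hz0, h0⟩ := B.cov y
  obtain ⟨i, hi, hmin⟩ := Finset.exists_min_image (Finset.univ.filter fun i => y ∈ B.ψ i '' qb e 1)
    (Fintype.equivFin B.I) ⟨i0, Finset.mem_filter.2 ⟨Finset.mem_univ _, z0, hz0, h0⟩⟩
  rw [Finset.mem_filter] at hi
  rw [Finset.sum_eq_single i]
  · rw [Set.indicator_of_mem, Pi.one_apply]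
    refine ⟨hi.2, ?_⟩
    rw [Set.mem_iUnion]
    rintro ⟨⟨j, hj⟩, hy⟩
    exact absurd (hmin j (Finset.mem_filter.2 ⟨Finset.mem_univ _, hy⟩)) (not_le.2 hj)
  · intro j _ hji
    apply Set.indicator_of_notMem
    rintro ⟨h1, h2⟩
    have h3 := hmin j (Finset.mem_filter.2 ⟨Finset.mem_univ _, h1⟩)
    have h4 : Fintype.equivFin B.I i < Fintype.equivFin B.I j :=
      lt_of_le_of_ne h3 fun h => hji ((Fintype.equivFin B.I).injective h).symm
    exact h2 (Set.mem_iUnion.2 ⟨⟨i, h4⟩, hi.2⟩)
  · intro h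
    exact absurd (Finset.mem_univ i) h

omit [MeasurableSpace Y] [BorelSpace Y] in
/-- change of variables -/
private theorem G5_cov (hw : B.IsT w) (i j : B.I) (F : Y → ℝ≥0∞) :
    ∫⁻ z in B.D i j, ENNReal.ofReal (dt e (w i z)) * F (B.ψ i z) ∂μ =
      ∫⁻ z in B.D j i, ENNReal.ofReal (dt e (w j z)) * F (B.ψ j z) ∂μ := by
  have himg : B.T i j '' B.D i j = B.D j i := by
    ext z
    constructor
    · rintro ⟨x, hx, rfl⟩
      exact (B.T_symm hx).1
    · intro hz
      exact ⟨B.T j i z, (B.T_symm hz).1, (B.T_symm hz).2⟩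
  have hinj : Set.InjOn (B.T i j) (B.D i j) := by
    intro x hx x' hx' h
    rw [← (B.T_symm hx).2, h, (B.T_symm hx').2]
  have hd : ∀ z ∈ B.D i j, HasFDerivWithinAt (B.T i j) (fderiv ℝ (B.T i j) z) (B.D i j) z := fun z hz =>
    ((B.T_cd hz).differentiableAt (by simp)).hasFDerivAt.hasFDerivWithinAt
  have key := lintegral_image_eq_lintegral_abs_det_fderiv_mul μ (B.D_open i j).measurableSet hd hinj
    (fun z => ENNReal.ofReal (dt e (w j z)) * F (B.ψ j z))
  rw [himg] at key
  rw [key]
  refine setLIntegral_congr_fun (B.D_open i j).measurableSet fun z hz => ?_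
  rw [hw.co i j z hz, dt_comp e (hw.oo j _ (B.T_mem hz)) (B.T_I hz), ENNReal.ofReal_mul (abs_nonneg _), mul_assoc,
    B.ψ_T hz]

theorem exists_vol (hw : B.Met w) : ∃ ν : Measure Y, B.IsVol μ w ν := by
  classical
  rcases isEmpty_or_nonempty Y with hY | ⟨⟨y0⟩⟩
  · refine ⟨0, ⟨inferInstance, fun i => ?_⟩⟩
    exact (hY.false (B.ψ i 0)).elim
  have hPm := B.G5_P_meas y0
  have hgm := B.G5_g_meas hw.t
  have hAm := B.G5_A_meas
  have h1m : ∀ i : B.I, Measurable ((B.G5_A i).indicator (1 : Y → ℝ≥0∞)) := fun i =>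
    measurable_one.indicator (hAm i)
  have hdm : ∀ i j : B.I, Measurable fun z => B.G5_g w j z * (B.G5_A i).indicator (1 : Y → ℝ≥0∞) (B.G5_P y0 j z) :=
    fun i j => (hgm j).mul ((h1m i).comp (hPm j))
  set ν : Measure Y := ∑ i, (μ.withDensity fun z => B.G5_g w i z *
    (B.G5_A i).indicator (1 : Y → ℝ≥0∞) (B.G5_P y0 i z)).map (B.G5_P y0 i) with hν
  have hint : ∀ f : Y → ℝ≥0∞, Measurable f → ∫⁻ y, f y ∂ν = ∑ i, ∫⁻ z, B.G5_g w i z *
      (B.G5_A i).indicator (1 : Y → ℝ≥0∞) (B.G5_P y0 i z) * f (B.G5_P y0 i z) ∂μ := by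
    intro f hf
    rw [hν, lintegral_finsetSum_measure]
    refine Finset.sum_congr rfl fun i _ => ?_
    rw [lintegral_map hf (hPm i)]
    exact lintegral_withDensity_eq_lintegral_mul _ (hdm i i) (hf.comp (hPm i))
  refine ⟨ν, ⟨⟨?_⟩, ?_⟩⟩
  · obtain ⟨R, hR, hR'⟩ := B.IsT_bd hw.t (r := 1) zero_le_one (by norm_num)
    obtain ⟨C, hC, hC'⟩ := bd_dt e R
    have h1 : ν Set.univ = ∫⁻ _, 1 ∂ν := by rw [lintegral_one]
    rw [h1, hint _ measurable_const]
    refine ENNReal.sum_lt_top.2 fun i _ => ?_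
    have h2 : ∀ z, B.G5_g w i z * (B.G5_A i).indicator (1 : Y → ℝ≥0∞) (B.G5_P y0 i z) * 1 ≤
        (qb e 1 : Set H).indicator (fun _ => ENNReal.ofReal C) z := by
      intro z
      by_cases hz : z ∈ (qb e 4 : Set H)
      · rw [B.G5_P_in hz, B.G5_g_in hz, mul_one]
        by_cases hA : B.ψ i z ∈ B.G5_A i
        · obtain ⟨z', hz', h3⟩ := hA.1
          have h4 : z' = z := B.inj i (qb_mono (by norm_num) (by norm_num) hz') hz h3
          rw [h4] at hz'
          rw [Set.indicator_of_mem hA, Set.indicator_of_mem hz', Pi.one_apply, mul_one]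
          apply ENNReal.ofReal_le_ofReal
          exact (le_abs_self _).trans (hC' _ (hR' i z (show qf e z < 1 ^ 2 from hz').le))
        · rw [Set.indicator_of_notMem hA, mul_zero]
          exact zero_le
      · rw [B.G5_g_out hz, zero_mul, zero_mul]
        exact zero_le
    refine lt_of_le_of_lt (lintegral_mono h2) ?_
    rw [lintegral_indicator (isOpen_qb e 1).measurableSet, lintegral_const, Measure.restrict_apply_univ]
    refine ENNReal.mul_lt_top ENNReal.ofReal_lt_top ?_
    refine lt_of_le_of_lt (measure_mono ?_) (isCompact_qb e 1).measure_lt_top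
    intro z hz
    exact (show qf e z < 1 ^ 2 from hz).le
  · intro j f hf
    have hV : MeasurableSet (B.ψ j '' qb e 4) := (B.opn j _ subset_rfl (isOpen_qb e 4)).measurableSet
    rw [← lintegral_indicator hV, hint _ (hf.indicator hV)]
    have h1 : ∀ i, ∫⁻ z, B.G5_g w i z * (B.G5_A i).indicator (1 : Y → ℝ≥0∞) (B.G5_P y0 i z) *
        (B.ψ j '' qb e 4).indicator f (B.G5_P y0 i z) ∂μ =
        ∫⁻ z, B.G5_g w j z * (B.G5_A i).indicator (1 : Y → ℝ≥0∞) (B.G5_P y0 j z) * f (B.G5_P y0 j z) ∂μ := by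
      intro i
      have h2 : ∫⁻ z, B.G5_g w i z * (B.G5_A i).indicator (1 : Y → ℝ≥0∞) (B.G5_P y0 i z) *
          (B.ψ j '' qb e 4).indicator f (B.G5_P y0 i z) ∂μ =
          ∫⁻ z in B.D i j, ENNReal.ofReal (dt e (w i z)) *
            ((B.G5_A i).indicator (1 : Y → ℝ≥0∞) (B.ψ i z) * f (B.ψ i z)) ∂μ := by
        rw [← lintegral_indicator (B.D_open i j).measurableSet]
        refine lintegral_congr fun z => ?_
        by_cases hz : z ∈ (qb e 4 : Set H)
        · rw [B.G5_P_in hz, B.G5_g_in hz]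
          by_cases hz' : B.ψ i z ∈ B.ψ j '' qb e 4
          · rw [Set.indicator_of_mem hz', Set.indicator_of_mem (show z ∈ B.D i j from ⟨hz, hz'⟩), mul_assoc]
          · rw [Set.indicator_of_notMem hz', Set.indicator_of_notMem (fun h => hz' h.2 : z ∉ B.D i j), mul_zero]
        · rw [B.G5_g_out hz, Set.indicator_of_notMem (fun h => hz h.1 : z ∉ B.D i j), zero_mul, zero_mul]
      have h3 : ∫⁻ z, B.G5_g w j z * (B.G5_A i).indicator (1 : Y → ℝ≥0∞) (B.G5_P y0 j z) *
          f (B.G5_P y0 j z) ∂μ =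
          ∫⁻ z in B.D j i, ENNReal.ofReal (dt e (w j z)) *
            ((B.G5_A i).indicator (1 : Y → ℝ≥0∞) (B.ψ j z) * f (B.ψ j z)) ∂μ := by
        rw [← lintegral_indicator (B.D_open j i).measurableSet]
        refine lintegral_congr fun z => ?_
        by_cases hz : z ∈ (qb e 4 : Set H)
        · rw [B.G5_P_in hz, B.G5_g_in hz]
          by_cases hz' : B.ψ j z ∈ B.ψ i '' qb e 4
          · rw [Set.indicator_of_mem (show z ∈ B.D j i from ⟨hz, hz'⟩), mul_assoc]
          · rw [Set.indicator_of_notMem (fun h => hz' h.2 : z ∉ B.D j i),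
              Set.indicator_of_notMem (fun h => hz' (Set.image_mono (qb_mono (by norm_num) (by norm_num)) h.1) :
                B.ψ j z ∉ B.G5_A i), mul_zero, zero_mul]
        · rw [B.G5_g_out hz, Set.indicator_of_notMem (fun h => hz h.1 : z ∉ B.D j i), zero_mul, zero_mul]
      rw [h2, h3]
      exact B.G5_cov μ hw.t i j fun y => (B.G5_A i).indicator (1 : Y → ℝ≥0∞) y * f y
    have h4 : ∀ i ∈ (Finset.univ : Finset B.I), Measurable fun z => B.G5_g w j z *
        (B.G5_A i).indicator (1 : Y → ℝ≥0∞) (B.G5_P y0 j z) * f (B.G5_P y0 j z) := fun i _ =>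
      (hdm i j).mul (hf.comp (hPm j))
    rw [Finset.sum_congr rfl fun i _ => h1 i, ← lintegral_finsetSum _ h4,
      ← lintegral_indicator (isOpen_qb e 4).measurableSet]
    refine lintegral_congr fun z => ?_
    rw [← Finset.sum_mul, ← Finset.mul_sum, B.G5_A_sum, mul_one]
    by_cases hz : z ∈ (qb e 4 : Set H)
    · rw [B.G5_P_in hz, B.G5_g_in hz, Set.indicator_of_mem hz, mul_comm]
    · rw [B.G5_g_out hz, Set.indicator_of_notMem hz, zero_mul]

end BM

end HDG
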