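import Pool.Agent.HDG.H3

/-!
# HDG/H4: Harnack type inequality on a compact connected manifold

The local inequality `box_harnack` is propagated along chains of overlapping balls `ψ i '' qb e 1`: a bound for the integral
over one ball gives a point of the overlap (a nonempty open set, of positive measure) at which `f` is bounded below, hence a
bound for the integral over the other ball. The manifold is connected, so all balls are reached.
-/

set_option autoImplicit false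

noncomputable section

open scoped ContDiff Topology

open MeasureTheory

namespace HDG

open Pool.Agent.FBR

variable {H : Type*} [NormedAddCommGroup H] [NormedSpace ℂ H] {n : ℕ} {e : Module.Basis (Fin n) ℂ H}
  [FiniteDimensional ℂ H] [MeasurableSpace H] [BorelSpace H] {μ : Measure H} [μ.IsAddHaarMeasure]
  {X : Type*} [TopologicalSpace X] [CompactSpace X] [T2Space X] [MeasurableSpace X] [BorelSpace X]
  (B : BM e X) {w b : B.I → H → Bil H} {ν : Measure X}

namespace BM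

/-- two of the balls overlap -/
private def H4_O (i j : B.I) : Prop := (B.ψ i '' qb e 1 ∩ B.ψ j '' qb e 1).Nonempty

omit [FiniteDimensional ℂ H] [MeasurableSpace H] [BorelSpace H] [CompactSpace X] [T2Space X] [MeasurableSpace X]
  [BorelSpace X] in
private theorem H4_qb : (qb e 1 : Set H) ⊆ qb e 4 := BM.qb_mono zero_le_one (by norm_num)

private theorem H4_open (i : B.I) : IsOpen (B.ψ i '' qb e 1) :=
  B.opn i (qb e 1) H4_qb (isOpen_qb e 1)

private theorem H4_int (hν : B.IsVol μ w ν) {f : X → ℝ} (hf : B.Sm f) : Integrable (fun x => |f x|) ν := by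
  have := hν.fin
  exact (B.Sm_cont hf).abs.integrable_of_hasCompactSupport (HasCompactSupport.of_compactSpace _)

/-- all balls are connected by chains of overlapping balls -/
private theorem H4_chain [ConnectedSpace X] (i j : B.I) : Relation.ReflTransGen B.H4_O i j := by
  by_contra hj
  obtain ⟨S, hS⟩ : ∃ S : Set X, S = ⋃ k ∈ {k | Relation.ReflTransGen B.H4_O i k}, B.ψ k '' qb e 1 := ⟨_, rfl⟩
  obtain ⟨S', hS'⟩ : ∃ S' : Set X, S' = ⋃ k ∈ {k | ¬ Relation.ReflTransGen B.H4_O i k}, B.ψ k '' qb e 1 := ⟨_, rfl⟩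
  have h1 : IsOpen S := by
    rw [hS]
    exact isOpen_biUnion fun k _ => B.H4_open k
  have h2 : IsOpen S' := by
    rw [hS']
    exact isOpen_biUnion fun k _ => B.H4_open k
  have h3 : (Set.univ : Set X) ⊆ S ∪ S' := by
    intro x _
    obtain ⟨k, z, hz, hx⟩ := B.cov x
    by_cases hk : Relation.ReflTransGen B.H4_O i k
    · left
      rw [hS]
      exact Set.mem_biUnion (show k ∈ {k | Relation.ReflTransGen B.H4_O i k} from hk) ⟨z, hz, hx⟩
    · right
      rw [hS']
      exact Set.mem_biUnion (show k ∈ {k | ¬ Relation.ReflTransGen B.H4_O i k} from hk) ⟨z, hz, hx⟩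
  have h0 : (0 : H) ∈ qb e 1 := by
    show qf e 0 < 1 ^ 2
    rw [qf_zero]
    norm_num
  have h4 : (Set.univ ∩ S).Nonempty := by
    refine ⟨B.ψ i 0, Set.mem_univ _, ?_⟩
    rw [hS]
    exact Set.mem_biUnion (show i ∈ {k | Relation.ReflTransGen B.H4_O i k} from Relation.ReflTransGen.refl) ⟨0, h0, rfl⟩
  have h5 : (Set.univ ∩ S').Nonempty := by
    refine ⟨B.ψ j 0, Set.mem_univ _, ?_⟩
    rw [hS']
    exact Set.mem_biUnion (show j ∈ {k | ¬ Relation.ReflTransGen B.H4_O i k} from hj) ⟨0, h0, rfl⟩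
  obtain ⟨x, -, hx, hx'⟩ := isPreconnected_univ S S' h1 h2 h3 h4 h5
  rw [hS, Set.mem_iUnion₂] at hx
  rw [hS', Set.mem_iUnion₂] at hx'
  obtain ⟨k, hk, hx⟩ := hx
  obtain ⟨l, hl, hx'⟩ := hx'
  exact hl (Relation.ReflTransGen.tail hk ⟨x, hx, hx'⟩)

/-- one step of the chain -/
private theorem H4_step (hw : B.Met w) (hν : B.IsVol μ w ν) {i j : B.I} (hO : B.H4_O i j) :
    ∃ K : ℝ, 0 ≤ K ∧ ∀ f : X → ℝ, B.Sm f → B.NnT (B.dd f + w) → (∀ x, f x ≤ 0) → ∀ M : ℝ, 0 ≤ M →
      ∫ x in B.ψ i '' qb e 1, |f x| ∂ν ≤ M → ∫ x in B.ψ j '' qb e 1, |f x| ∂ν ≤ K * (1 + M) := by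
  have hfin := hν.fin
  obtain ⟨C, hC, hbox⟩ := B.box_harnack hw hν
  obtain ⟨W, hW⟩ : ∃ W : Set X, W = B.ψ i '' qb e 1 ∩ B.ψ j '' qb e 1 := ⟨_, rfl⟩
  have hWo : IsOpen W := by
    rw [hW]
    exact (B.H4_open i).inter (B.H4_open j)
  have hWn : W.Nonempty := by
    rw [hW]
    exact hO
  have hc : 0 < (ν W).toReal := ENNReal.toReal_pos (B.vol_open hw hν hWo hWn).ne' (measure_ne_top ν W)
  obtain ⟨c, hcc⟩ : ∃ c : ℝ, c = (ν W).toReal := ⟨_, rfl⟩
  rw [← hcc] at hc
  refine ⟨C * (1 + 1 / c), by positivity, fun f hf hn h0 M hM hfM => ?_⟩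
  have hint := B.H4_int hν hf
  obtain ⟨x, hxW, hx⟩ : ∃ x ∈ W, |f x| ≤ (M + 1) / c := by
    by_contra hcon
    push Not at hcon
    have h1 : ∫ x in W, |f x| ∂ν ≤ ∫ x in B.ψ i '' qb e 1, |f x| ∂ν := by
      refine setIntegral_mono_set hint.integrableOn (Filter.Eventually.of_forall fun x => abs_nonneg _) ?_
      refine LE.le.eventuallyLE ?_
      rw [hW]
      exact Set.inter_subset_left
    have h2 : ∫ _x in W, (M + 1) / c ∂ν ≤ ∫ x in W, |f x| ∂ν := by
      refine setIntegral_mono_on (integrable_const _).integrableOn hint.integrableOn hWo.measurableSet ?_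
      intro x hx
      exact (hcon x hx).le
    have h3 : ∫ _x in W, (M + 1) / c ∂ν = M + 1 := by
      rw [setIntegral_const, smul_eq_mul]
      show (ν W).toReal * ((M + 1) / c) = M + 1
      rw [← hcc]
      field_simp
    linarith
  rw [hW] at hxW
  obtain ⟨z0, hz0, hxz⟩ := hxW.2
  have h1 : -((M + 1) / c) ≤ f (B.ψ j z0) := by
    rw [hxz]
    exact (abs_le.1 hx).1
  refine (hbox f ((M + 1) / c) j z0 hf hn h0 (by positivity) hz0 h1).trans ?_
  have h2 : C * (1 + 1 / c) * (1 + M) - C * (1 + (M + 1) / c) = C * M := by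
    field_simp
    ring
  have h3 : 0 ≤ C * M := mul_nonneg hC hM
  linarith

private theorem H4_path (hw : B.Met w) (hν : B.IsVol μ w ν) {i j : B.I} (hO : Relation.ReflTransGen B.H4_O i j) :
    ∃ K : ℝ, 0 ≤ K ∧ ∀ f : X → ℝ, B.Sm f → B.NnT (B.dd f + w) → (∀ x, f x ≤ 0) → ∀ M : ℝ, 0 ≤ M →
      ∫ x in B.ψ i '' qb e 1, |f x| ∂ν ≤ M → ∫ x in B.ψ j '' qb e 1, |f x| ∂ν ≤ K * (1 + M) := by
  induction hO with
  | refl =>
    refine ⟨1, zero_le_one, fun f hf hn h0 M hM hfM => ?_⟩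
    linarith
  | tail _ hkl ih =>
    obtain ⟨K, hK, h⟩ := ih
    obtain ⟨K', hK', h'⟩ := B.H4_step hw hν hkl
    refine ⟨K' * (1 + K), by positivity, fun f hf hn h0 M hM hfM => ?_⟩
    have h1 := h' f hf hn h0 (K * (1 + M)) (by positivity) (h f hf hn h0 M hM hfM)
    have h2 : K' * (1 + K) * (1 + M) - K' * (1 + K * (1 + M)) = K' * M := by ring
    have h3 : 0 ≤ K' * M := mul_nonneg hK' hM
    linarith

theorem harnack [ConnectedSpace X] (hw : B.Met w) (hν : B.IsVol μ w ν) : ∃ C : ℝ, 0 ≤ C ∧ ∀ f : X → ℝ,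
    B.Sm f → B.NnT (B.dd f + w) → (∀ x, f x ≤ 0) → (∃ x, -1 ≤ f x) → ∫ x, |f x| ∂ν ≤ C := by
  classical
  obtain ⟨C, hC, hbox⟩ := B.box_harnack hw hν
  have hK := fun i j : B.I => B.H4_path hw hν (B.H4_chain i j)
  choose K hK0 hK using hK
  refine ⟨∑ i, ∑ j, K i j * (1 + C * (1 + 1)),
    Finset.sum_nonneg fun i _ => Finset.sum_nonneg fun j _ => mul_nonneg (hK0 i j) (by positivity), ?_⟩
  intro f hf hn h0 hx
  obtain ⟨x, hx⟩ := hx
  obtain ⟨i, z0, hz0, hxz⟩ := B.cov x
  have hint := B.H4_int hν hf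
  have h1 : ∫ x in B.ψ i '' qb e 1, |f x| ∂ν ≤ C * (1 + 1) :=
    hbox f 1 i z0 hf hn h0 zero_le_one hz0 (by rw [hxz]; exact hx)
  have h2 : ∀ j, ∫ x in B.ψ j '' qb e 1, |f x| ∂ν ≤ K i j * (1 + C * (1 + 1)) := fun j =>
    hK i j f hf hn h0 (C * (1 + 1)) (by positivity) h1
  have h3 : ∫ x, |f x| ∂ν ≤ ∑ j, ∫ x in B.ψ j '' qb e 1, |f x| ∂ν := by
    have h4 : ∀ j, ∫ x in B.ψ j '' qb e 1, |f x| ∂ν = ∫ x, (B.ψ j '' qb e 1).indicator (fun x => |f x|) x ∂ν := by
      intro j
      rw [integral_indicator (B.H4_open j).measurableSet]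
    simp only [h4]
    rw [← integral_finsetSum _ fun j _ => hint.indicator (B.H4_open j).measurableSet]
    refine integral_mono hint (integrable_finsetSum _ fun j _ => hint.indicator (B.H4_open j).measurableSet) ?_
    intro y
    obtain ⟨k, z, hz, hy⟩ := B.cov y
    have h5 : |f y| = (B.ψ k '' qb e 1).indicator (fun x => |f x|) y := by
      rw [Set.indicator_of_mem (show y ∈ B.ψ k '' qb e 1 from ⟨z, hz, hy⟩)]
    show |f y| ≤ ∑ j, (B.ψ j '' qb e 1).indicator (fun x => |f x|) y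
    rw [h5]
    exact Finset.single_le_sum (f := fun j => (B.ψ j '' qb e 1).indicator (fun x => |f x|) y)
      (fun j _ => Set.indicator_nonneg (fun x _ => abs_nonneg _) y) (Finset.mem_univ k)
  refine h3.trans ((Finset.sum_le_sum fun j _ => h2 j).trans ?_)
  exact Finset.single_le_sum (f := fun i => ∑ j, K i j * (1 + C * (1 + 1)))
    (fun i _ => Finset.sum_nonneg fun j _ => mul_nonneg (hK0 i j) (by positivity)) (Finset.mem_univ i)

end BM

end HDG
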