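import Pool.Agent.HDG.DDefs

/-!
# HDG/K1: the rank one part, uniform bounds

`gr t` is `dt ∧ d^c t`; it does not change when a constant is added to `t`, so it is a tensor. The densities `denp` of the
tensors `b + p T + q S` with bounded `p`, `q` are uniformly bounded.
-/

set_option autoImplicit false

noncomputable section

open scoped ContDiff Topology

open MeasureTheory

namespace HDG

open Pool.Agent.FBR

variable {H : Type*} [NormedAddCommGroup H] [NormedSpace ℂ H] {n : ℕ} {e : Module.Basis (Fin n) ℂ H}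
  [FiniteDimensional ℂ H] {X : Type*} [TopologicalSpace X] (B : BM e X) {t : B.I → H → ℝ}
  {w b : B.I → H → Bil H}

set_option maxSynthPendingDepth 3 in
private theorem K1_na {W : Type*} [NormedAddCommGroup W] [NormedSpace ℝ W] (a s : Bil W) {R r : ℝ} (ha : ‖a‖ ≤ R)
    (hs : ‖s‖ ≤ r) : ‖a + s‖ ≤ R + r :=
  (norm_add_le _ _).trans (add_le_add ha hs)

set_option maxSynthPendingDepth 3 in
private theorem K1_ns {W : Type*} [NormedAddCommGroup W] [NormedSpace ℝ W] (s : Bil W) {p P C : ℝ} (hs : ‖s‖ ≤ C)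
    (hp : |p| ≤ P) : ‖p • s‖ ≤ |P| * C := by
  rw [norm_smul, Real.norm_eq_abs]
  exact mul_le_mul (hp.trans (le_abs_self P)) hs (norm_nonneg _) (abs_nonneg P)

private theorem K1_norm {W : Type*} [NormedAddCommGroup W] [NormedSpace ℝ W] (a b c : Bil W) (p q : ℝ) {P A B C : ℝ}
    (ha : ‖a‖ ≤ A) (hb : ‖b‖ ≤ B) (hc : ‖c‖ ≤ C) (hp : |p| ≤ P) (hq : |q| ≤ P) :
    ‖a + p • b + q • c‖ ≤ A + |P| * B + |P| * C :=
  K1_na _ _ (K1_na _ _ ha (K1_ns b hb hp)) (K1_ns c hc hq)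

private theorem K1_cd {V W : Type*} [NormedAddCommGroup V] [NormedSpace ℝ V] [NormedAddCommGroup W] [NormedSpace ℝ W]
    {f g : V → W} {φ : V → ℝ} {q : V} (hf : ContDiffAt ℝ ∞ f q) (hφ : ContDiffAt ℝ ∞ φ q) (hg : ContDiffAt ℝ ∞ g q) :
    ContDiffAt ℝ ∞ (fun z => (1 / 2 : ℝ) • f z - φ z • g z) q :=
  (contDiffAt_const.smul hf).sub (hφ.smul hg)

/-- the rank one part of `φ` -/
private def K1_g (φ : H → ℝ) (z : H) : Bil H := (1 / 2 : ℝ) • ddc (fun z => φ z ^ 2) z - φ z • ddc φ z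

private theorem K1_two {φ : H → ℝ} {q : H} (h : ContDiffAt ℝ ∞ φ q) : ContDiffAt ℝ 2 φ q :=
  h.of_le (by norm_cast)

private theorem K1_cst (φ : H → ℝ) (c : ℝ) (q : H) : ddc (fun x => φ x + c) q = ddc φ q := by
  have h1 : fderiv ℝ (fun x => φ x + c) = fderiv ℝ φ := funext fun x => fderiv_add_const c
  ext u v
  rw [ddc_apply, ddc_apply, h1]

private theorem K1_sq_self {φ : H → ℝ} {q : H} (h : ContDiffAt ℝ 2 φ q) (v : H) :
    ddc (fun z => φ z ^ 2) q v (Complex.I • v) = 2 * φ q * ddc φ q v (Complex.I • v) +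
      (fderiv ℝ φ q v) ^ 2 + (fderiv ℝ φ q (Complex.I • v)) ^ 2 := by
  have h1 : (fun z => φ z ^ 2) = fun z => φ z * φ z := funext fun z => pow_two (φ z)
  rw [h1, ddc_mul_self h h]
  ring

private theorem K1_g_self {φ : H → ℝ} {q : H} (h : ContDiffAt ℝ 2 φ q) (v : H) :
    K1_g φ q v (Complex.I • v) = ((fderiv ℝ φ q v) ^ 2 + (fderiv ℝ φ q (Complex.I • v)) ^ 2) / 2 := by
  have h1 : K1_g φ q v (Complex.I • v) = (1 / 2 : ℝ) * ddc (fun z => φ z ^ 2) q v (Complex.I • v) -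
      φ q * ddc φ q v (Complex.I • v) := rfl
  rw [h1, K1_sq_self h]
  ring

private theorem K1_g_O11 {φ : H → ℝ} {q : H} (h : ContDiffAt ℝ 2 φ q) : O11 (K1_g φ q) :=
  O11_sub (O11_smul _ (O11_ddc (h.pow 2))) (O11_smul _ (O11_ddc h))

private theorem K1_g_add {φ : H → ℝ} {q : H} (h : ContDiffAt ℝ 2 φ q) (k : ℝ) :
    K1_g (fun z => φ z + k) q = K1_g φ q := by
  have h2 : ContDiffAt ℝ 2 (fun z => φ z + k) q := h.add contDiffAt_const
  have h3 : fderiv ℝ (fun x => φ x + k) = fderiv ℝ φ := funext fun x => fderiv_add_const k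
  refine O11_ext (K1_g_O11 h2) (K1_g_O11 h) fun v => ?_
  rw [K1_g_self h2, K1_g_self h, h3]

private theorem K1_g_congr {φ ψ : H → ℝ} {q : H} (h : φ =ᶠ[nhds q] ψ) : K1_g φ q = K1_g ψ q := by
  have h1 : (fun z => φ z ^ 2) =ᶠ[nhds q] fun z => ψ z ^ 2 := by
    filter_upwards [h] with z hz
    rw [hz]
  unfold K1_g
  rw [ddc_congr h1, ddc_congr h, h.self_of_nhds]

private theorem K1_g_comp {φ : H → ℝ} {T : H → H} {q : H} (h : ContDiffAt ℝ 2 φ (T q)) (hT : ContDiffAt ℂ ∞ T q) :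
    K1_g (φ ∘ T) q = (K1_g φ (T q)).bilinearComp (fderiv ℝ T q) (fderiv ℝ T q) := by
  have h1 : (fun z => (φ ∘ T) z ^ 2) = (fun z => φ z ^ 2) ∘ T := rfl
  unfold K1_g
  rw [h1, ddc_comp (h.pow 2) hT, ddc_comp h hT]
  ext u v
  rfl

private theorem K1_g_smooth {φ : H → ℝ} {q : H} (h : ContDiffAt ℝ ∞ φ q) : ContDiffAt ℝ ∞ (K1_g φ) q :=
  K1_cd (ddc_smooth (h.pow 2)) h (ddc_smooth h)

namespace BM

private theorem K1_at (ht : B.Per t) {i : B.I} {z : H} (hz : z ∈ qb e 4) : ContDiffAt ℝ ∞ (t i) z :=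
  (ht.sm i).contDiffAt ((isOpen_qb e 4).mem_nhds hz)

private theorem K1_loc (ht : B.Per t) {i j : B.I} {z : H} (hz : z ∈ B.D i j) :
    t i =ᶠ[nhds z] fun x => (t j ∘ B.T i j) x + (t i z - t j (B.T i j z)) := by
  have c1 : ContinuousAt (t i) z := (K1_at B ht hz.1).continuousAt
  have c2 : ContinuousAt (t j ∘ B.T i j) z :=
    ContinuousAt.comp (K1_at B ht (B.T_mem hz)).continuousAt (B.T_cd hz).continuousAt
  have c3 : ContinuousAt (fun x => t i x - (t j ∘ B.T i j) x) z := c1.sub c2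
  have h1 := Metric.continuousAt_iff.1 c3 1 one_pos
  obtain ⟨r, hr, h2⟩ := h1
  filter_upwards [Metric.ball_mem_nhds z hr, (B.D_open i j).mem_nhds hz] with x hx hxD
  have h3 := h2 hx
  obtain ⟨k, hk⟩ := ht.tr i j x hxD
  obtain ⟨l, hl⟩ := ht.tr i j z hz
  rw [Real.dist_eq] at h3
  simp only [Function.comp_apply] at h3 ⊢
  rw [hk, hl] at h3
  have h4 : |k - l| < 1 := by exact_mod_cast h3
  have h5 : k = l := by
    rw [Int.abs_lt_one_iff] at h4
    omega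
  rw [hl, ← h5, ← hk]
  ring

private theorem K1_cd4 (y : X) : B.cd y ∈ qb e 4 := qb_mono (by norm_num) (by norm_num) (B.cd_mem y)

theorem gr_self (ht : B.Per t) {i : B.I} {z : H} (hz : z ∈ qb e 4) (v : H) : B.gr t i z v (Complex.I • v) =
    ((fderiv ℝ (t i) z v) ^ 2 + (fderiv ℝ (t i) z (Complex.I • v)) ^ 2) / 2 := by
  exact K1_g_self (K1_two (K1_at B ht hz)) v

theorem ddc_sq (ht : B.Per t) {i : B.I} {z : H} (hz : z ∈ qb e 4) (k : ℝ) :
    ddc (fun z => (t i z + k) ^ 2) z = (2 : ℝ) • B.gr t i z + (2 * (t i z + k)) • B.ddt t i z := by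
  have h1 : ContDiffAt ℝ 2 (t i) z := K1_two (K1_at B ht hz)
  have h2 : ContDiffAt ℝ 2 (fun z => t i z + k) z := h1.add contDiffAt_const
  have h3 : fderiv ℝ (fun x => t i x + k) = fderiv ℝ (t i) := funext fun x => fderiv_add_const k
  refine O11_ext (O11_ddc (h2.pow 2)) (O11_add (O11_smul _ (K1_g_O11 h1)) (O11_smul _ (O11_ddc h1))) fun v => ?_
  have h4 : ((2 : ℝ) • K1_g (t i) z + (2 * (t i z + k)) • ddc (t i) z) v (Complex.I • v) =
      2 * K1_g (t i) z v (Complex.I • v) + 2 * (t i z + k) * ddc (t i) z v (Complex.I • v) := rfl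
  refine Eq.trans ?_ h4.symm
  rw [K1_sq_self h2, K1_g_self h1, h3, K1_cst]
  ring

theorem IsT_gr (ht : B.Per t) : B.IsT (B.gr t) := by
  refine ⟨fun i z hz => ?_, fun i z hz => ?_, fun i j z hz => ?_⟩
  · exact (K1_g_smooth (K1_at B ht hz)).contDiffWithinAt
  · exact K1_g_O11 (K1_two (K1_at B ht hz))
  · have h1 : ContDiffAt ℝ 2 (t j) (B.T i j z) := K1_two (K1_at B ht (B.T_mem hz))
    have h2 : ContDiffAt ℝ 2 (t j ∘ B.T i j) z := h1.comp z ((B.T_cd hz).of_le (by norm_cast))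
    show K1_g (t i) z = (K1_g (t j) (B.T i j z)).bilinearComp _ _
    rw [K1_g_congr (K1_loc B ht hz), K1_g_add h2]
    exact K1_g_comp h1 (B.tr i j z hz.1 hz.2)

theorem denp_unif (hw : B.Met w) (hb : B.IsT b) {T S : B.I → H → Bil H} (hT : B.IsT T) (hS : B.IsT S)
    (P : ℝ) : ∃ C : ℝ, 0 ≤ C ∧ ∀ p q : ℝ, |p| ≤ P → |q| ≤ P → ∀ x, B.denp w (b + p • T + q • S) x ≤ C := by
  obtain ⟨Cb, _, hCb⟩ := B.IsT_bd hb (r := 1) (by norm_num) (by norm_num)
  obtain ⟨CT, hT0, hCT⟩ := B.IsT_bd hT (r := 1) (by norm_num) (by norm_num)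
  obtain ⟨CS, hS0, hCS⟩ := B.IsT_bd hS (r := 1) (by norm_num) (by norm_num)
  obtain ⟨C2, hC2, h2⟩ := pl_bound (H := H) e (Cb + |P| * CT + |P| * CS)
  obtain ⟨c, hc, h3⟩ := B.Met_ge hw (r := 1) (by norm_num) (by norm_num)
  refine ⟨C2 / c ^ n, by positivity, fun p q hp hq y => ?_⟩
  have hy : qf e (B.cd y) ≤ 1 ^ 2 := le_of_lt (B.cd_mem y)
  have h4 : c ^ n ≤ dt e (w (B.ix y) (B.cd y)) := by
    have h5 : dt e (c • w0 e : Bil H) = c ^ n := by rw [dt_zero_smul, dt_w0, mul_one]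
    rw [← h5]
    refine dt_mono e (O11_smul c (w0_O11 e)) (hw.t.oo _ _ (K1_cd4 B y)) ?_ (h3 _ _ hy)
    intro v
    have h6 : (c • w0 e : Bil H) v (Complex.I • v) = c * w0 e v (Complex.I • v) := rfl
    rw [h6, w0_self]
    exact mul_nonneg hc.le (qf_nonneg e v)
  have h7 : ‖(b + p • T + q • S) (B.ix y) (B.cd y)‖ ≤ Cb + |P| * CT + |P| * CS := by
    have e1 : (b + p • T + q • S) (B.ix y) (B.cd y) =
        b (B.ix y) (B.cd y) + p • T (B.ix y) (B.cd y) + q • S (B.ix y) (B.cd y) := rfl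
    rw [e1]
    exact K1_norm _ _ _ p q (hCb _ _ hy) (hCT _ _ hy) (hCS _ _ hy) hp hq
  exact div_le_div₀ hC2 ((le_abs_self _).trans (h2 _ h7)) (by positivity) h4

end BM

end HDG
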