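import Pool.Agent.HDG.D3
import Pool.Agent.HDG.D4
import Pool.Agent.HDG.D5
import Pool.Agent.HDG.D6
import Pool.Agent.HDG.D7
import Pool.Agent.HDG.K1

/-!
# HDG/K3: claim 1

If `P(s)` fails for some positive and some negative `s`, then the near contact set of the envelope of a tent function of period `m`
lies over levels near the minimum of the tent function, so that its mass is bounded independently of `m`; but it is at least
`m v - 1`.
-/

set_option autoImplicit false

noncomputable section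

open scoped ContDiff Topology

open MeasureTheory

namespace HDG

open Pool.Agent.FBR

variable {H : Type*} [NormedAddCommGroup H] [NormedSpace ℂ H] {n : ℕ} {e : Module.Basis (Fin n) ℂ H}
  [FiniteDimensional ℂ H] [MeasurableSpace H] [BorelSpace H] {μ : Measure H} [μ.IsAddHaarMeasure]
  {X : Type*} [TopologicalSpace X] [CompactSpace X] [T2Space X] [MeasurableSpace X] [BorelSpace X]
  (B : BM e X) {t : B.I → H → ℝ} {w b : B.I → H → Bil H} {ν : Measure X}

namespace BM

private theorem K3_lip {σ C : ℝ} {m : ℕ} {G : ℝ → ℝ} (h : Tent σ σ C m G) (x y : ℝ) :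
    |G y - G x| ≤ σ * |y - x| := by
  have h1 := Convex.norm_image_sub_le_of_norm_deriv_le (f := G) (C := σ) (s := Set.univ) (x := x) (y := y)
    (fun z _ => (h.sm.differentiable (by simp)).differentiableAt)
    (fun z _ => by
      rw [Real.norm_eq_abs, abs_le]
      exact h.d1 z) convex_univ (Set.mem_univ _) (Set.mem_univ _)
  rw [Real.norm_eq_abs, Real.norm_eq_abs] at h1
  exact h1

private theorem K3_int {Z : Type*} [MeasurableSpace Z] {ν : Measure Z} [IsFiniteMeasure ν] {g : Z → ℝ}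
    {c : ℝ} (hc : 0 ≤ c) (h : ∀ x, g x ≤ c) : ∫ x, g x ∂ν ≤ c * ν.real Set.univ := by
  by_cases hint : Integrable g ν
  · refine (integral_mono hint (integrable_const c) h).trans (le_of_eq ?_)
    rw [integral_const, smul_eq_mul, mul_comm]
  · rw [integral_undef hint]
    exact mul_nonneg hc measureReal_nonneg

private theorem K3_sum {m : ℕ} {g : ℕ → ℝ} {α β c : ℝ} (hc : 0 ≤ c) (hαβ : α ≤ β)
    (h : ∀ k, k < m → g k ≤ c) (h' : ∀ k, k < m → 0 < g k → α ≤ k ∧ k ≤ β) :
    ∑ k ∈ Finset.range m, g k ≤ (β - α + 1) * c := by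
  have h1 : ∀ k ∈ Finset.range m, g k ≤ if α ≤ 0 + (k : ℝ) ∧ 0 + (k : ℝ) ≤ β then c else 0 := by
    intro k hk
    have hk' := Finset.mem_range.1 hk
    rw [zero_add]
    split_ifs with h2
    · exact h k hk'
    · by_contra h3
      exact h2 (h' k hk' (not_le.1 h3))
  refine (Finset.sum_le_sum h1).trans ?_
  rw [← Finset.sum_filter, Finset.sum_const, nsmul_eq_mul]
  exact mul_le_mul_of_nonneg_right (BM.count m 0 α β hαβ) hc

theorem claim1 [Nonempty X] (hw : B.Met w) (hν : B.IsVol μ w ν) (hb : B.IsT b) (hc : B.ClT b) (hn : B.NnT b)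
    (hv : 0 < ∫ x, B.den w b x ∂ν) (ht : B.Per t) :
    (∀ s : ℝ, 0 < s → B.PP t w b s) ∨ ∀ s : ℝ, s < 0 → B.PP t w b s := by
  by_contra hcon
  push Not at hcon
  obtain ⟨⟨s1, hs1, hP1⟩, s2, hs2, hP2⟩ := hcon
  obtain ⟨S, hS⟩ : ∃ S : ℝ, S = max s1 (-s2) := ⟨_, rfl⟩
  have hS1 : s1 ≤ S := by
    rw [hS]
    exact le_max_left _ _
  have hS2 : -s2 ≤ S := by
    rw [hS]
    exact le_max_right _ _
  have hS0 : 0 < S := lt_of_lt_of_le hs1 hS1
  obtain ⟨ε1, hε1, h1⟩ := B.slope' ht hw hs1 hP1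
  obtain ⟨C1, hC1, h1⟩ := h1 (S + 2) (by linarith)
  obtain ⟨ε2, hε2, h2⟩ := B.slope ht hw hs2 hP2
  obtain ⟨C2, hC2, h2⟩ := h2 (S + 2) (by linarith)
  obtain ⟨C, hC, hT⟩ := exists_tent (σ := S + 1) (s := S + 1) (by linarith) (by linarith)
  obtain ⟨f, hfx⟩ : ∃ f : X → ℝ, ∀ x, f x = 0 := ⟨fun _ => 0, fun _ => rfl⟩
  have hf : B.Sm f := by
    have hf0 : f = fun _ => 0 := funext hfx
    rw [hf0]
    exact fun i => contDiffOn_const
  have ht' := Per.add B ht hf
  obtain ⟨C5, hC5, hd⟩ := B.denp_unif hw hb (Per.IsT B ht') (B.IsT_gr ht') (max (S + 1) C)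
  obtain ⟨Cr, hCr, hr⟩ := contact_right (σ := S + 1) (s := S + 1) (S := S) (C := C)
    (C1 := 2 * (S + 1) + 2 + C1 + C2) (by linarith) (by linarith) (by linarith) hC (by linarith)
  obtain ⟨Cl, hCl, hl⟩ := contact_left (σ := S + 1) (s := S + 1) (S := S) (C := C)
    (C1 := 2 * (S + 1) + 2 + C1 + C2) (by linarith) (by linarith) (by linarith) hC (by linarith)
  have := hν.fin
  have key : ∀ m : ℕ, 0 < m → m * ∫ x, B.den w b x ∂ν - 1 ≤ (Cl + Cr + 1) * C5 * ν.real Set.univ := by
    intro m hm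
    obtain ⟨G, hG⟩ := hT m hm
    obtain ⟨F, hF1, hF2, hF3, hF4, hF5⟩ := B.cover_env (μ := μ) hw hν hb hc hn ht hm hG.sm hG.per hf
      (η := 1) (ε0 := min ε1 ε2) one_pos (lt_min hε1 hε2)
    refine hF5.trans ?_
    obtain ⟨Φ, g1, g2, g3, g4, g5, g6⟩ := B.lip_max ht hm (σ := S + 1) (by linarith)
      (h := fun _ y => G y) hF1 hF2 hF3 (fun x y h => by
        have h3 := hF4 x y h
        rwa [hfx, add_zero] at h3) (fun x y h => by
        have h3 := K3_lip hG y (y + 1)
        rw [add_sub_cancel_left, abs_one, mul_one] at h3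
        exact h3)
    have hL : ∀ x y, B.On t x y → |Φ x (y + 1) - Φ x y| ≤ S + 2 := fun x y h =>
      (g6 x y h).trans (by linarith)
    have a1 := h1 Φ (B.Gd_mono g1 hw subset_rfl (min_le_left _ _)) g3 hL
    have a2 := h2 Φ (B.Gd_mono g1 hw subset_rfl (min_le_right _ _)) g3 hL
    have up : ∀ l : ℤ, B.top t Φ l ≤ G l + (S + 1) + 1 := by
      intro l
      refine B.top_le ht fun x y hxy y1 y2 => ?_
      have h3 : Φ x y ≤ G y + 1 := g5 x y hxy
      have h4 := K3_lip hG l y
      have h5 : |y - l| ≤ 1 := by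
        rw [abs_le]
        constructor <;> linarith
      have h6 : (S + 1) * |y - l| ≤ (S + 1) * 1 := mul_le_mul_of_nonneg_left h5 (by linarith)
      have h7 := (abs_le.1 h4).2
      linarith
    have lo : ∀ x (k : ℤ), G (B.fr t x + k) - 1 ≤ F x (B.fr t x + k) →
        G k - (S + 1) - 1 ≤ B.top t Φ k := by
      intro x k hk
      obtain ⟨e1, e2, e3⟩ := B.exists_On_level ht x k
      have h3 := B.le_top g3 e1 e2 e3.le
      have h4 := g4 x _ e1
      have h5 := K3_lip hG (B.fr t x + k) k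
      have h6 : |(k : ℝ) - (B.fr t x + k)| ≤ 1 := by
        rw [abs_le]
        constructor <;> linarith
      have h7 : (S + 1) * |(k : ℝ) - (B.fr t x + k)| ≤ (S + 1) * 1 :=
        mul_le_mul_of_nonneg_left h6 (by linarith)
      have h8 := (abs_le.1 h5).2
      linarith
    have ct : ∀ x (k : ℕ), k < m → G (B.fr t x + k) - 1 ≤ F x (B.fr t x + k) →
        (S + 1) / (S + 1 + (S + 1)) * m - Cr ≤ k ∧ (k : ℝ) ≤ (S + 1) / (S + 1 + (S + 1)) * m + Cl := by
      intro x k hk hc0
      have h3 := lo x k (by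
        rw [Int.cast_natCast]
        exact hc0)
      have hk1 : (0 : ℤ) ≤ (k : ℤ) := Int.natCast_nonneg k
      have hk2 : (k : ℤ) < (m : ℤ) := by exact_mod_cast hk
      constructor
      · have h4 := (hr m G hm hG k hk1 hk2 (by
          intro l hkl
          have h5 := a2 k l hkl
          have h6 := up l
          have h7 : (0 : ℝ) ≤ (l : ℝ) - ((k : ℤ) : ℝ) := by
            rw [sub_nonneg]
            exact_mod_cast hkl
          have h8 : -S * ((l : ℝ) - ((k : ℤ) : ℝ)) ≤ s2 * ((l : ℝ) - ((k : ℤ) : ℝ)) :=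
            mul_le_mul_of_nonneg_right (by linarith) h7
          linarith)).1
        rw [Int.cast_natCast] at h4
        exact h4
      · have h4 := hl m G hm hG k hk1 hk2 (by
          intro l hlk
          have h5 := a1 l k hlk
          have h6 := up l
          have h7 : (0 : ℝ) ≤ ((k : ℤ) : ℝ) - (l : ℝ) := by
            rw [sub_nonneg]
            exact_mod_cast hlk
          have h8 : s1 * (((k : ℤ) : ℝ) - (l : ℝ)) ≤ S * (((k : ℤ) : ℝ) - (l : ℝ)) :=
            mul_le_mul_of_nonneg_right hS1 h7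
          linarith)
        rw [Int.cast_natCast] at h4
        exact h4
    refine K3_int (by positivity) fun x => ?_
    have hdx : ∀ k : ℕ, B.denp w (b + (deriv G (B.fr t x + k + f x)) • B.ddt (fun i z => t i z + f (B.ψ i z)) +
        (deriv (deriv G) (B.fr t x + k + f x)) • B.gr (fun i z => t i z + f (B.ψ i z))) x ≤ C5 := by
      intro k
      refine hd _ _ ?_ ?_ x
      · refine le_trans ?_ (le_max_left _ _)
        rw [abs_le]
        exact hG.d1 _
      · exact le_trans (hG.d2 _) (le_max_right _ _)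
    have h3 : ((S + 1) / (S + 1 + (S + 1)) * m + Cl - ((S + 1) / (S + 1 + (S + 1)) * m - Cr) + 1) * C5 =
        (Cl + Cr + 1) * C5 := by ring
    rw [← h3]
    refine K3_sum hC5 (by linarith) ?_ ?_
    · intro k _
      split_ifs
      · exact hdx k
      · exact hC5
    · intro k hk hpos
      refine ct x k hk ?_
      by_contra hn0
      rw [if_neg (by rwa [hfx, add_zero])] at hpos
      exact lt_irrefl _ hpos
  obtain ⟨m, hm⟩ := exists_nat_gt (((Cl + Cr + 1) * C5 * ν.real Set.univ + 1) / ∫ x, B.den w b x ∂ν)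
  rw [div_lt_iff₀ hv] at hm
  have h3 := key (m + 1) (Nat.succ_pos m)
  push_cast at h3
  linarith

end BM

end HDG
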