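import Pool.Agent.HDG.DDefs

/-!
# HDG/K2: the mass for a small slope

At every point `pl (b + s T') ≤ dt (b + s T' + s u w) ≤ dt (b + s T') + C s u` with a constant which depends on `b` and `w` only
(`K2_form`); integrate, and use that the mass does not change along `dd^c t` (`mass_exact`, `Per.int_dcf`).
-/

set_option autoImplicit false

noncomputable section

open scoped ContDiff Topology

open MeasureTheory

namespace HDG

open Pool.Agent.FBR

variable {H : Type*} [NormedAddCommGroup H] [NormedSpace ℂ H] {n : ℕ} {e : Module.Basis (Fin n) ℂ H}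
  [FiniteDimensional ℂ H] [MeasurableSpace H] [BorelSpace H] {μ : Measure H} [μ.IsAddHaarMeasure]
  {X : Type*} [TopologicalSpace X] [CompactSpace X] [T2Space X] [MeasurableSpace X] [BorelSpace X]
  (B : BM e X) {w b : B.I → H → Bil H} {ν : Measure X}

namespace BM

omit [FiniteDimensional ℂ H] [MeasurableSpace H] [BorelSpace H] in
private lemma K2_tri (a c : Bil H) : ‖a + c‖ ≤ ‖a‖ + ‖c‖ := ContinuousLinearMap.opNorm_add_le a c

omit [FiniteDimensional ℂ H] [MeasurableSpace H] [BorelSpace H] in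
private lemma K2_sm (r : ℝ) (a : Bil H) : ‖r • a‖ ≤ ‖r‖ * ‖a‖ := ContinuousLinearMap.opNorm_smul_le r a

omit [MeasurableSpace H] [BorelSpace H] in
private lemma K2_small {T w : Bil H} (hT : O11 T) {D E s : ℝ} (hD0 : 0 ≤ D)
    (hD : Nn (D • w0 e - w))
    (hE : ∀ a : Bil H, O11 a → ∀ c : ℝ, 0 ≤ c → (∀ v : H, |a v (Complex.I • v)| ≤ c * qf e v) → ‖a‖ ≤ E * c)
    (hp : Nn (w + s • T)) (hm : Nn (w - s • T)) : ‖s • T‖ ≤ E * D := by
  refine hE _ (O11_smul s hT) D hD0 fun v => ?_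
  have h1 := hp v
  have h2 := hm v
  have h3 := hD v
  simp only [add_apply, sub_apply, smul_apply, smul_eq_mul, w0_self] at h1 h2 h3 ⊢
  rw [abs_le]
  constructor <;> linarith

omit [MeasurableSpace H] [BorelSpace H] in
private lemma K2_form {b T w : Bil H} (hb : O11 b) (hT : O11 T) (hw : O11 w) (hbn : Nn b) (hwn : Nn w)
    {D E L Cb Cw s u : ℝ} (hD0 : 0 ≤ D) (hL0 : 0 ≤ L)
    (hCw0 : 0 ≤ Cw) (hD : Nn (D • w0 e - w))
    (hE : ∀ a : Bil H, O11 a → ∀ c : ℝ, 0 ≤ c → (∀ v : H, |a v (Complex.I • v)| ≤ c * qf e v) → ‖a‖ ≤ E * c)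
    (hL : ∀ a b : Bil H, ‖a‖ ≤ Cb + E * D + Cw → ‖b‖ ≤ Cb + E * D + Cw → |dt e a - dt e b| ≤ L * ‖a - b‖)
    (hbC : ‖b‖ ≤ Cb) (hwC : ‖w‖ ≤ Cw) (hs : 0 < s) (hu : 0 ≤ u) (hsu : s * u ≤ 1)
    (hp : Nn (w + s • T)) (hm : Nn (w - s • T)) (hTu : Nn (T + u • w)) :
    pl e (b + s • T) ≤ dt e (b + s • T) + L * Cw * (s * u) := by
  have hA : O11 (b + s • T) := O11_add hb (O11_smul s hT)
  have hA' : O11 (b + s • T + (s * u) • w) := O11_add hA (O11_smul _ hw)
  have hr : 0 ≤ s * u := mul_nonneg hs.le hu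
  have hN : Nn (b + s • T + (s * u) • w) := by
    intro v
    have h1 := hbn v
    have h2 := mul_nonneg hs.le (hTu v)
    simp only [add_apply, smul_apply, smul_eq_mul] at h2 ⊢
    linarith
  have hN' : Nn (b + s • T + (s * u) • w - (b + s • T)) := by
    intro v
    have h1 := mul_nonneg hr (hwn v)
    simp only [add_apply, sub_apply, smul_apply, smul_eq_mul]
    linarith
  have h1 : pl e (b + s • T) ≤ dt e (b + s • T + (s * u) • w) := pl_le_dt e hA hA' hN hN'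
  have h2 : ‖s • T‖ ≤ E * D := K2_small hT hD0 hD hE hp hm
  have h3 : ‖b + s • T‖ ≤ Cb + E * D := (K2_tri _ _).trans (add_le_add hbC h2)
  have h4 : ‖(s * u) • w‖ ≤ s * u * Cw := by
    refine (K2_sm _ _).trans ?_
    rw [Real.norm_of_nonneg hr]
    exact mul_le_mul_of_nonneg_left hwC hr
  have h5 : s * u * Cw ≤ Cw := mul_le_of_le_one_left hCw0 hsu
  have h6 : ‖b + s • T + (s * u) • w‖ ≤ Cb + E * D + Cw :=
    (K2_tri _ _).trans (add_le_add h3 (h4.trans h5))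
  have h7 := hL _ _ h6 (h3.trans (le_add_of_nonneg_right hCw0))
  have h8 : b + s • T + (s * u) • w - (b + s • T) = (s * u) • w := by abel
  rw [h8] at h7
  have h9 : L * ‖(s * u) • w‖ ≤ L * (s * u * Cw) := mul_le_mul_of_nonneg_left h4 hL0
  have h10 := (le_abs_self _).trans (h7.trans h9)
  have h11 : L * (s * u * Cw) = L * Cw * (s * u) := by ring
  linarith

omit [MeasurableSpace H] [BorelSpace H] in
private lemma K2_dw {w : Bil H} (hw : O11 w) {c : ℝ} (hc : 0 < c) (h : Nn (w - c • w0 e)) :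
    c ^ n ≤ dt e w := by
  have h1 : Nn (c • w0 e : Bil H) := by
    intro v
    rw [smul_apply, smul_apply, w0_self, smul_eq_mul]
    exact mul_nonneg hc.le (qf_nonneg e v)
  have h2 := dt_mono e (O11_smul c (w0_O11 e)) hw h1 h
  rwa [dt_zero_smul, dt_w0, mul_one] at h2

theorem slope_mass (hw : B.Met w) (hν : B.IsVol μ w ν) (hb : B.IsT b) (hc : B.ClT b) (hn : B.NnT b) :
    ∃ C0 : ℝ, 0 ≤ C0 ∧ ∀ (t : B.I → H → ℝ) (u : X → ℝ) (s U : ℝ), B.Per t → Measurable u → (∀ x, 0 ≤ u x) →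
      (∀ x, u x ≤ U) → 0 < s → (∀ x, s * u x ≤ 1) → B.NnT (w + s • B.ddt t) → B.NnT (w - s • B.ddt t) →
      (∀ i, ∀ z ∈ qb e 4, Nn (B.ddt t i z + u (B.ψ i z) • w i z)) →
      ∫ x, B.denp w (b + s • B.ddt t) x ∂ν ≤ ∫ x, B.den w b x ∂ν + C0 * s * ∫ x, u x ∂ν := by
  obtain ⟨Cb, hCb0, hCb⟩ := B.IsT_bd hb (r := 1) (by norm_num) (by norm_num)
  obtain ⟨Cw, hCw0, hCw⟩ := B.IsT_bd hw.t (r := 1) (by norm_num) (by norm_num)
  obtain ⟨c, hc0, hcw⟩ := B.Met_ge hw (r := 1) (by norm_num) (by norm_num)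
  obtain ⟨D, hD0, hDw⟩ := B.Met_le hw (r := 1) (by norm_num) (by norm_num)
  obtain ⟨E, hE0, hE⟩ := form_ge e
  obtain ⟨L, hL0, hL⟩ := lip_dt e (Cb + E * D + Cw)
  refine ⟨L * Cw / c ^ n, by positivity, ?_⟩
  intro t u s U ht hum hu0 huU hs hsu hp hm hTu
  have hTT : B.IsT (B.ddt t) := BM.Per.IsT B ht
  have hA : B.IsT (b + s • B.ddt t) := B.IsT_add hb (B.IsT_smul hTT s)
  have key : ∀ x, B.denp w (b + s • B.ddt t) x ≤
      B.den w (b + s • B.ddt t) x + L * Cw / c ^ n * s * u x := by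
    intro x
    have hz1 : B.cd x ∈ qb e 1 := B.cd_mem x
    have hz4 : B.cd x ∈ qb e 4 := qb_mono (by norm_num) (by norm_num) hz1
    have hz1' : qf e (B.cd x) ≤ 1 ^ 2 := le_of_lt hz1
    have hψ := B.ψ_cd x
    have hT1 := hTu (B.ix x) (B.cd x) hz4
    rw [hψ] at hT1
    have hwn : Nn (w (B.ix x) (B.cd x)) := by
      intro v
      by_cases hv : v = 0
      · subst hv
        simp
      · exact (hw.pos (B.ix x) (B.cd x) hz4 v hv).le
    have hf := K2_form (e := e) (hb.oo (B.ix x) (B.cd x) hz4) (hTT.oo (B.ix x) (B.cd x) hz4)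
      (hw.t.oo (B.ix x) (B.cd x) hz4) (hn (B.ix x) (B.cd x) hz4) hwn hD0.le
      hL0 hCw0 (hDw (B.ix x) (B.cd x) hz1') hE hL (hCb (B.ix x) (B.cd x) hz1')
      (hCw (B.ix x) (B.cd x) hz1') hs (hu0 x) (hsu x)
      (hp (B.ix x) (B.cd x) hz4) (hm (B.ix x) (B.cd x) hz4) hT1
    have hdw := K2_dw (e := e) (hw.t.oo (B.ix x) (B.cd x) hz4) hc0 (hcw (B.ix x) (B.cd x) hz1')
    have hcn : 0 < c ^ n := pow_pos hc0 n
    have hdw0 : 0 < dt e (w (B.ix x) (B.cd x)) := lt_of_lt_of_le hcn hdw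
    have hr : 0 ≤ L * Cw * (s * u x) :=
      mul_nonneg (mul_nonneg hL0 hCw0) (mul_nonneg hs.le (hu0 x))
    have h1 : B.denp w (b + s • B.ddt t) x ≤
        (dt e (b (B.ix x) (B.cd x) + s • B.ddt t (B.ix x) (B.cd x)) + L * Cw * (s * u x)) /
          dt e (w (B.ix x) (B.cd x)) := div_le_div_of_nonneg_right hf hdw0.le
    rw [add_div] at h1
    have h2 : L * Cw * (s * u x) / dt e (w (B.ix x) (B.cd x)) ≤ L * Cw * (s * u x) / c ^ n :=
      div_le_div_of_nonneg_left hr hcn hdw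
    have h3 : L * Cw * (s * u x) / c ^ n = L * Cw / c ^ n * s * u x := by ring
    rw [h3] at h2
    exact h1.trans (add_le_add le_rfl h2)
  have hmass : ∫ x, B.den w (b + s • B.ddt t) x ∂ν = ∫ x, B.den w b x ∂ν :=
    B.mass_exact hw hν hb hc hTT (BM.Per.ClT B ht)
      (fun a' h1 h2 => BM.Per.int_dcf B hw hν ht h1 h2) s
  obtain ⟨M, hM0, hM⟩ := B.denp_bd hw hA
  have i1 : Integrable (B.denp w (b + s • B.ddt t)) ν :=
    B.bd_int hν (B.denp_meas hw hA) (C := M) fun y => by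
      rw [abs_of_nonneg (B.denp_nonneg hw hA y)]
      exact hM y
  have hcont := B.den_cont hw hA
  obtain ⟨M', hM'⟩ := isCompact_univ.exists_bound_of_continuousOn (hcont.continuousOn (s := Set.univ))
  have i2 : Integrable (B.den w (b + s • B.ddt t)) ν :=
    B.bd_int hν hcont.measurable (C := M') fun y => hM' y (Set.mem_univ y)
  have i3 : Integrable u ν := B.bd_int hν hum (C := U) fun y => by
    rw [abs_of_nonneg (hu0 y)]
    exact huU y
  have i4 : Integrable (fun x => L * Cw / c ^ n * s * u x) ν := i3.const_mul _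
  calc ∫ x, B.denp w (b + s • B.ddt t) x ∂ν
      ≤ ∫ x, (B.den w (b + s • B.ddt t) x + L * Cw / c ^ n * s * u x) ∂ν :=
        integral_mono i1 (i2.add i4) key
    _ = ∫ x, B.den w b x ∂ν + L * Cw / c ^ n * s * ∫ x, u x ∂ν := by
        rw [integral_add i2 i4, hmass, integral_const_mul]

end BM

end HDG
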