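import Pool.Agent.HDG.D3
import Pool.Agent.HDG.D4
import Pool.Agent.HDG.D5
import Pool.Agent.HDG.D6
import Pool.Agent.HDG.D7
import Pool.Agent.HDG.K1
import Pool.Agent.HDG.K2
import Pool.Agent.HDG.KG

/-!
# HDG/K4: claim 2

MODULE K4. Let `v = ∫ den w b > 0`, `C0` from `slope_mass`, `CG` the constant of `Gauge`. Suppose `s2 < 0` and `¬ PP s2`, `S = |s2|`. `δ1 = v / (4 (C0 + 1) S)`. Choose `N` and `ε` with `ε ν(X) + CG * ν{f ≤ -N+1} ≤ δ1`: `ν{f ≤ -N + 1} ≤ CG/(N-1)` (Chebyshev, `|f| ≥ N - 1` there), so `N - 1 ≥ 2 CG²/δ1`, `N ≥ 2`, `ε ν(X) ≤ δ1/2`. Let `f` be the function of `Gauge`, `t' = t + f` (`Per.add`), `T' = ddt t'`,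
`u x = if -N + 1 < f x then ε else CG` (measurable; `∫ u ≤ δ1`), `T' + u w ≥ 0`. Choose `s > 0` with `s ≤ S`, `s u ≤ 1`, `- w ≤ s T' ≤ w` (`NnT_dom`). `slope_mass`: `g = ∫ denp (b + s T') ≤ v + C0 s δ1`. `σ = S + 2`, `κ = s/(s+σ)`, `y0 = s/(s+S)`. `slope` for `s2` with Lipschitz constant `σ + s + 1`, tents `G` for `(σ, s)`.
For each `m`: `cover_env` (with this `f`, `η = 1`, `ε0` from `slope`), `h x y = G (y + f x)`, `lip_max` (`|h (y+1) - h y| ≤ max σ s ≤ σ + s`), `Φ`. `|f| ≤ N + 1`, so `a l ≤ G l + C3`, and a contributing `k` (`0 ≤ k < m`, `y = fr x + k`, `G (y + f x) - 1 ≤ F x y`) has `a k ≥ G k - C3`, so `G l ≥ G k - S (l - k) - C4` for `l ≥ k`: `contact_right`: `κ m - C' ≤ k ≤ (κ + 1 - y0) m + C'`.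
For these `k`: if `k ≥ κ m + N + 4` and `m` is large (so that `(κ + 1 - y0) m + C' + 1 + N + 1 ≤ m - 1`; `κ < y0`), then `y + f x ∈ [κ m + 1, m - 1]`: `G' = s`, `G'' = 0` there (`up`): the summand is `denp (b + s T') x`. Otherwise it is `≤ C5` (`denp_unif`). By `count` (for each `x`): the sum is `≤ (C' + N + 6) C5 + ((1 - y0) m + C' + 2) denp w (b + s T') x`
(the number of `k` between `κ m + N + 4` and `(κ + 1 - y0) m + C'` is at most `(1 - y0) m + C' + 1`; if the interval is empty the count is `0`). Integrate: `m v - 1 ≤ C6 + ((1 - y0) m + C') g` with `C6, C'` independent of `m`. Divide by `m`, `m → ∞`: `v ≤ (1 - y0) g ≤ (1 - y0)(v + C0 s δ1)`, so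
`v y0 ≤ C0 s δ1`, `v ≤ C0 δ1 (s + S) ≤ 2 C0 S δ1 ≤ v/2`: contradiction.
-/

set_option autoImplicit false

noncomputable section

open scoped ContDiff Topology

open MeasureTheory

namespace HDG

open Pool.Agent.FBR

variable {H : Type*} [NormedAddCommGroup H] [NormedSpace ℂ H] {n : ℕ} {e : Module.Basis (Fin n) ℂ H}
  [FiniteDimensional ℂ H] [MeasurableSpace H] [BorelSpace H] {μ : Measure H} [μ.IsAddHaarMeasure]
  {X : Type*} [TopologicalSpace X] [CompactSpace X] [T2Space X] [MeasurableSpace X] [BorelSpace X]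
  (B : BM e X) {t : B.I → H → ℝ} {w b : B.I → H → Bil H} {ν : Measure X}

private theorem k4_sum {m : ℕ} {κ r C' N C5 d : ℝ} {P : ℕ → Prop} [DecidablePred P] {a : ℕ → ℝ}
    (hr : 0 ≤ r) (hC' : 0 ≤ C') (hN : 0 ≤ N) (hC5 : 0 ≤ C5) (hd : 0 ≤ d)
    (h1 : ∀ k : ℕ, k < m → P k → κ * m - C' ≤ k ∧ (k : ℝ) ≤ (κ + r) * m + C')
    (h2 : ∀ k : ℕ, k < m → P k → a k ≤ C5)
    (h3 : ∀ k : ℕ, k < m → P k → κ * m + N + 4 ≤ k → a k ≤ d) :
    ∑ k ∈ Finset.range m, (if P k then a k else 0) ≤ (C' + N + 5) * C5 + (r * m + C' + 1) * d := by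
  have hm : (0 : ℝ) ≤ m := Nat.cast_nonneg m
  have n1 : ∀ p : Prop, ∀ _ : Decidable p, (0 : ℝ) ≤ if p then C5 else 0 := by
    intro p _
    split_ifs
    · exact hC5
    · exact le_rfl
  have n2 : ∀ p : Prop, ∀ _ : Decidable p, (0 : ℝ) ≤ if p then d else 0 := by
    intro p _
    split_ifs
    · exact hd
    · exact le_rfl
  have e1 : ∀ k ∈ Finset.range m, (if P k then a k else 0) ≤
      (if κ * m - C' ≤ (0 : ℝ) + (k : ℝ) ∧ (0 : ℝ) + (k : ℝ) ≤ κ * m + N + 4 then C5 else 0) +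
      (if κ * m + N + 4 ≤ (0 : ℝ) + (k : ℝ) ∧ (0 : ℝ) + (k : ℝ) ≤ (κ + r) * m + C' then d else 0) := by
    intro k hk
    have hk' := Finset.mem_range.1 hk
    by_cases hP : P k
    · rw [if_pos hP]
      obtain ⟨h4, h5⟩ := h1 k hk' hP
      rcases le_total (κ * m + N + 4) (k : ℝ) with h6 | h6
      · rw [if_pos (show κ * m + N + 4 ≤ (0 : ℝ) + (k : ℝ) ∧ (0 : ℝ) + (k : ℝ) ≤ (κ + r) * m + C' from
          ⟨by linarith, by linarith⟩)]
        have h7 := n1 (κ * m - C' ≤ (0 : ℝ) + (k : ℝ) ∧ (0 : ℝ) + (k : ℝ) ≤ κ * m + N + 4) inferInstance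
        have h8 := h3 k hk' hP h6
        linarith
      · rw [if_pos (show κ * m - C' ≤ (0 : ℝ) + (k : ℝ) ∧ (0 : ℝ) + (k : ℝ) ≤ κ * m + N + 4 from
          ⟨by linarith, by linarith⟩)]
        have h7 := n2 (κ * m + N + 4 ≤ (0 : ℝ) + (k : ℝ) ∧ (0 : ℝ) + (k : ℝ) ≤ (κ + r) * m + C') inferInstance
        have h8 := h2 k hk' hP
        linarith
    · rw [if_neg hP]
      exact add_nonneg (n1 _ _) (n2 _ _)
  refine (Finset.sum_le_sum e1).trans ?_
  rw [Finset.sum_add_distrib, Finset.sum_ite, Finset.sum_ite, Finset.sum_const_zero, Finset.sum_const_zero,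
    add_zero, add_zero, Finset.sum_const, Finset.sum_const, nsmul_eq_mul, nsmul_eq_mul]
  refine add_le_add (mul_le_mul_of_nonneg_right ?_ hC5) (mul_le_mul_of_nonneg_right ?_ hd)
  · have h4 := BM.count m 0 (κ * m - C') (κ * m + N + 4) (by linarith)
    linarith
  · have h6 : 0 ≤ r * m := mul_nonneg hr hm
    rcases le_total (κ * m + N + 4) ((κ + r) * m + C') with h5 | h5
    · have h4 := BM.count m 0 (κ * m + N + 4) ((κ + r) * m + C') h5
      have h7 : (κ + r) * m = κ * m + r * m := by ring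
      linarith
    · rcases eq_or_lt_of_le h5 with h7 | h7
      · have h4 := BM.count m 0 (κ * m + N + 4) ((κ + r) * m + C') h7.ge
        have h8 : (κ + r) * m = κ * m + r * m := by ring
        linarith
      · have h4 : (Finset.range m).filter (fun k : ℕ => κ * m + N + 4 ≤ (0 : ℝ) + (k : ℝ) ∧
            (0 : ℝ) + (k : ℝ) ≤ (κ + r) * m + C') = ∅ := by
          rw [Finset.filter_eq_empty_iff]
          intro k _ h8
          linarith [h8.1, h8.2]
        rw [h4, Finset.card_empty, Nat.cast_zero]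
        linarith

private theorem k4_lip {σ s C : ℝ} {m : ℕ} {G : ℝ → ℝ} (hσ : 0 ≤ σ) (hs : 0 ≤ s) (hG : Tent σ s C m G) (y z : ℝ) :
    |G z - G y| ≤ (σ + s) * |z - y| := by
  have hd : ∀ x ∈ (Set.univ : Set ℝ), DifferentiableAt ℝ G x := fun x _ =>
    (hG.sm.differentiable (by simp)).differentiableAt
  have h1 := Convex.norm_image_sub_le_of_norm_deriv_le (C := σ + s) hd (fun x _ => by
    rw [Real.norm_eq_abs, abs_le]
    have h2 := hG.d1 x
    constructor
    · linarith [h2.1]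
    · linarith [h2.2]) convex_univ (Set.mem_univ y) (Set.mem_univ z)
  rwa [Real.norm_eq_abs, Real.norm_eq_abs] at h1

private theorem k4_arch {v g K r : ℝ} {m0 : ℕ} (h : ∀ m : ℕ, m0 ≤ m → m * v ≤ K + r * m * g) : v ≤ r * g := by
  by_contra hcon
  push Not at hcon
  have h1 : 0 < v - r * g := by linarith
  obtain ⟨m, hm⟩ := exists_nat_gt (K / (v - r * g))
  rw [div_lt_iff₀ h1] at hm
  have h2 := h (max m0 m) (le_max_left _ _)
  have h3 : (m : ℝ) ≤ ((max m0 m : ℕ) : ℝ) := by exact_mod_cast le_max_right _ _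
  have h4 : (m : ℝ) * (v - r * g) ≤ ((max m0 m : ℕ) : ℝ) * (v - r * g) := mul_le_mul_of_nonneg_right h3 h1.le
  nlinarith

namespace BM

private theorem k4_contact [Nonempty X] (ht : B.Per t) {s σ s0 N Cs C C' : ℝ} (hs : s < 0) (hσ : 0 ≤ σ)
    (hs0 : 0 < s0) (hN : 1 ≤ N) {f : X → ℝ} (hf0 : ∀ x, f x ≤ 0) (hf1 : ∀ x, -N - 1 ≤ f x) {m : ℕ} {G : ℝ → ℝ}
    (hm : 0 < m) (hG : Tent σ s0 C m G)
    (hct : ∀ (m : ℕ) (G : ℝ → ℝ), 0 < m → Tent σ s0 C m G → ∀ k : ℤ, 0 ≤ k → k < m →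
      (∀ l : ℤ, k ≤ l → G k - (-s) * (l - k) - (2 * ((σ + s0) * (N + 2) + 1) + Cs) ≤ G l) →
      s0 / (s0 + σ) * m - C' ≤ k ∧ k ≤ (s0 / (s0 + σ) + 1 - s0 / (s0 + -s)) * m + C')
    {F Φ : X → ℝ → ℝ} (hB : B.Bd t Φ) (hF : ∀ x y, B.On t x y → F x y ≤ Φ x y)
    (hh : ∀ x y, B.On t x y → Φ x y ≤ G (y + f x) + 1)
    (hsl : ∀ k l : ℤ, k ≤ l → B.top t Φ k + s * (l - k) - Cs ≤ B.top t Φ l)
    (x : X) (k : ℕ) (hk : k < m) (hP : G (B.fr t x + k + f x) - 1 ≤ F x (B.fr t x + k)) :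
    s0 / (s0 + σ) * m - C' ≤ k ∧ k ≤ (s0 / (s0 + σ) + 1 - s0 / (s0 + -s)) * m + C' := by
  have hL : 0 ≤ σ + s0 := by linarith
  have hup : ∀ l : ℤ, B.top t Φ l ≤ G l + ((σ + s0) * (N + 2) + 1) := by
    intro l
    refine B.top_le ht fun x y hxy h1 h2 => ?_
    have h3 := hh x y hxy
    have h4 := (abs_le.1 (k4_lip hσ hs0.le hG l (y + f x))).2
    have h5 : |y + f x - l| ≤ N + 2 := by
      rw [abs_le]
      constructor
      · linarith [hf0 x, hf1 x]
      · linarith [hf0 x, hf1 x]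
    have h6 := mul_le_mul_of_nonneg_left h5 hL
    linarith
  have hf := B.fr_mem (t := t) x
  have h1 : B.On t x (B.fr t x + ((k : ℤ) : ℝ)) := B.On_add (B.On_fr x) k
  have h2 : B.fr t x + ((k : ℤ) : ℝ) = B.fr t x + k := by push_cast; ring
  rw [h2] at h1
  have h3 : Φ x (B.fr t x + k) ≤ B.top t Φ k := by
    refine B.le_top hB h1 ?_ ?_
    · push_cast
      linarith [hf.1]
    · push_cast
      linarith [hf.2]
  have h4 := hF x _ h1
  have h5 := (abs_le.1 (k4_lip hσ hs0.le hG (k : ℝ) (B.fr t x + k + f x))).1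
  have h6 : |B.fr t x + k + f x - k| ≤ N + 2 := by
    rw [abs_le]
    constructor
    · linarith [hf0 x, hf1 x, hf.1]
    · linarith [hf0 x, hf1 x, hf.2]
  have h7 := mul_le_mul_of_nonneg_left h6 hL
  have h8 := hct m G hm hG k (by positivity) (by exact_mod_cast hk) (fun l hl => by
    have h9 := hsl k l hl
    have h10 := hup l
    push_cast at h9 ⊢
    linarith)
  push_cast at h8
  exact h8

private theorem k4_m [Nonempty X] (hw : B.Met w) (hν : B.IsVol μ w ν) (hb : B.IsT b) (hc : B.ClT b) (hn : B.NnT b)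
    (ht : B.Per t) {s : ℝ} (hs : s < 0) (hP : ¬ B.PP t w b s) {f : X → ℝ} (hf : B.Sm f) (hf0 : ∀ x, f x ≤ 0)
    {N : ℝ} (hN : 1 ≤ N) (hf1 : ∀ x, -N - 1 ≤ f x) {s0 : ℝ} (hs0 : 0 < s0) :
    ∃ K : ℝ, ∃ m0 : ℕ, ∀ m : ℕ, m0 ≤ m → m * ∫ x, B.den w b x ∂ν ≤ K + (1 - s0 / (s0 + -s)) * m *
      ∫ x, B.denp w (b + s0 • B.ddt (fun i z => t i z + f (B.ψ i z))) x ∂ν := by
  have hS : 0 < -s := by linarith
  have ht' : B.Per (fun i z => t i z + f (B.ψ i z)) := ht.add B hf
  set σ : ℝ := -s + 2 with hσ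
  have hσ0 : 0 < σ := by linarith
  obtain ⟨ε0, hε0, hsl⟩ := B.slope ht hw hs hP
  obtain ⟨Cs, hCs, hsl⟩ := hsl (σ + s0 + 1) (by linarith)
  obtain ⟨CT, hCT, htent⟩ := exists_tent hσ0 hs0
  obtain ⟨C', hC', hct⟩ := contact_right (σ := σ) (s := s0) (S := -s) (C := CT)
    (C1 := 2 * ((σ + s0) * (N + 2) + 1) + Cs) hs0 hS.le (by linarith) hCT (by positivity)
  obtain ⟨C5, hC5, hden⟩ := B.denp_unif hw hb ht'.IsT (B.IsT_gr ht') (σ + s0 + CT)
  set κ : ℝ := s0 / (s0 + σ) with hκ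
  set y0 : ℝ := s0 / (s0 + -s) with hy0
  have hy1 : y0 ≤ 1 := by
    rw [hy0, div_le_one (by linarith)]
    linarith
  have hκy : κ < y0 := by
    rw [hκ, hy0]
    exact div_lt_div_of_pos_left hs0 (by linarith) (by linarith)
  obtain ⟨m1, hm1⟩ := exists_nat_gt ((C' + 2) / (y0 - κ))
  rw [div_lt_iff₀ (by linarith)] at hm1
  have hA : B.IsT (b + s0 • B.ddt (fun i z => t i z + f (B.ψ i z))) := B.IsT_add hb (B.IsT_smul ht'.IsT s0)
  set g : X → ℝ := B.denp w (b + s0 • B.ddt (fun i z => t i z + f (B.ψ i z))) with hg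
  obtain ⟨CD, hCD, hCD1⟩ := B.denp_bd hw hA
  have hgi : Integrable g ν := B.bd_int hν (B.denp_meas hw hA) (C := CD) (fun y => by
    rw [abs_of_nonneg (B.denp_nonneg hw hA y)]
    exact hCD1 y)
  have hfin := hν.fin
  refine ⟨1 + (C' + N + 5) * C5 * ν.real Set.univ + (C' + 1) * ∫ x, g x ∂ν, m1 + 1, fun m hm => ?_⟩
  have hm0 : 0 < m := by omega
  have hmm : C' + 2 < m * (y0 - κ) := by
    have h1 : (m1 : ℝ) ≤ m := by exact_mod_cast (by omega : m1 ≤ m)
    have h2 := mul_le_mul_of_nonneg_right h1 (sub_nonneg.2 hκy.le)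
    linarith
  obtain ⟨G, hG⟩ := htent m hm0
  obtain ⟨F, hF1, hF2, hF3, hF4, hF5⟩ := B.cover_env hw hν hb hc hn ht hm0 hG.sm hG.per hf one_pos hε0
  have hlip : ∀ x y, B.On t x y → |(fun x y => G (y + f x)) x (y + 1) - (fun x y => G (y + f x)) x y| ≤ σ + s0 := by
    intro x y _
    have h1 := k4_lip hσ0.le hs0.le hG (y + f x) (y + 1 + f x)
    have h2 : y + 1 + f x - (y + f x) = 1 := by ring
    rw [h2, abs_one, mul_one] at h1
    exact h1
  obtain ⟨Φ, hΦ1, hΦ2, hΦ3, hΦ4, hΦ5, hΦ6⟩ := B.lip_max ht hm0 (by linarith) hF1 hF2 hF3 hF4 hlip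
  have hsl' := hsl Φ hΦ1 hΦ3 hΦ6
  have hpt : ∀ x, (∑ k ∈ Finset.range m,
        (if G (B.fr t x + k + f x) - 1 ≤ F x (B.fr t x + k) then
          B.denp w (b + (deriv G (B.fr t x + k + f x)) • B.ddt (fun i z => t i z + f (B.ψ i z)) +
            (deriv (deriv G) (B.fr t x + k + f x)) • B.gr (fun i z => t i z + f (B.ψ i z))) x else 0)) ≤
      (C' + N + 5) * C5 + ((1 - y0) * m + C' + 1) * g x := by
    intro x
    have hfr := B.fr_mem (t := t) x
    refine k4_sum (κ := κ) (r := 1 - y0) (by linarith) hC' (by linarith) hC5 (B.denp_nonneg hw hA x) ?_ ?_ ?_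
    · intro k hk hPk
      have h1 := B.k4_contact ht hs hσ0.le hs0 hN hf0 hf1 hm0 hG hct hΦ3 hΦ4 hΦ5 hsl' x k hk hPk
      have h2 : (κ + (1 - y0)) = κ + 1 - y0 := by ring
      rw [h2]
      exact h1
    · intro k hk _
      refine hden _ _ ?_ ?_ x
      · have h1 := hG.d1 (B.fr t x + k + f x)
        rw [abs_le]
        constructor
        · linarith [h1.1]
        · linarith [h1.2]
      · have h1 := hG.d2 (B.fr t x + k + f x)
        linarith
    · intro k hk hPk hk2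
      have h1 := B.k4_contact ht hs hσ0.le hs0 hN hf0 hf1 hm0 hG hct hΦ3 hΦ4 hΦ5 hsl' x k hk hPk
      have h2 : (κ + 1 - y0) * m = m - m * (y0 - κ) := by ring
      have h3 := h1.2
      rw [← hκ, ← hy0, h2] at h3
      obtain ⟨h4, h5⟩ := hG.up (B.fr t x + k + f x) (by
        rw [← hκ]
        linarith [hf1 x, hfr.1]) (by linarith [hf0 x, hfr.2])
      rw [h4, h5]
      refine le_of_eq (B.denp_congr (fun i z _ => ?_) x)
      refine ContinuousLinearMap.ext fun p => ContinuousLinearMap.ext fun q => ?_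
      have h6 : (b + s0 • B.ddt (fun i z => t i z + f (B.ψ i z)) +
          (0 : ℝ) • B.gr (fun i z => t i z + f (B.ψ i z))) i z p q =
          b i z p q + s0 * (B.ddt (fun i z => t i z + f (B.ψ i z)) i z p q) +
          (0 : ℝ) * (B.gr (fun i z => t i z + f (B.ψ i z)) i z p q) := rfl
      have h7 : (b + s0 • B.ddt (fun i z => t i z + f (B.ψ i z))) i z p q =
          b i z p q + s0 * (B.ddt (fun i z => t i z + f (B.ψ i z)) i z p q) := rfl
      rw [h6, h7]
      ring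
  have hint : (∫ x, ∑ k ∈ Finset.range m,
        (if G (B.fr t x + k + f x) - 1 ≤ F x (B.fr t x + k) then
          B.denp w (b + (deriv G (B.fr t x + k + f x)) • B.ddt (fun i z => t i z + f (B.ψ i z)) +
            (deriv (deriv G) (B.fr t x + k + f x)) • B.gr (fun i z => t i z + f (B.ψ i z))) x else 0) ∂ν) ≤
      ∫ x, ((C' + N + 5) * C5 + ((1 - y0) * m + C' + 1) * g x) ∂ν := by
    refine integral_mono_of_nonneg (Filter.Eventually.of_forall fun x => ?_)
      ((integrable_const _).add (hgi.const_mul _)) (Filter.Eventually.of_forall hpt)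
    refine Finset.sum_nonneg fun k _ => ?_
    split_ifs
    · exact B.denp_nonneg hw (B.IsT_add (B.IsT_add hb (B.IsT_smul ht'.IsT _)) (B.IsT_smul (B.IsT_gr ht') _)) x
    · exact le_rfl
  rw [integral_add (integrable_const _) (hgi.const_mul _), integral_const, integral_const_mul, smul_eq_mul] at hint
  have h9 := hF5.trans hint
  have h10 : ν.real Set.univ * ((C' + N + 5) * C5) + ((1 - y0) * m + C' + 1) * ∫ x, g x ∂ν =
    (C' + N + 5) * C5 * ν.real Set.univ + (C' + 1) * (∫ x, g x ∂ν) + (1 - y0) * m * ∫ x, g x ∂ν := by ring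
  rw [h10] at h9
  linarith

private theorem k4_wnn (hw : B.Met w) (i : B.I) {z : H} (hz : z ∈ qb e 4) (v : H) : 0 ≤ w i z v (Complex.I • v) := by
  rcases eq_or_ne v 0 with h | h
  · rw [h, map_zero]
    simp
  · exact (hw.pos i z hz v h).le

private theorem k4_dom (hw : B.Met w) {T : B.I → H → Bil H} {C1 s0 : ℝ} (h : B.NnT (C1 • w + T)) (hs0 : 0 ≤ s0)
    (hC : s0 * C1 ≤ 1) : B.NnT (w + s0 • T) := by
  intro i z hz v
  have h1 := h i z hz v
  have h2 : (C1 • w + T) i z v (Complex.I • v) = C1 * (w i z v (Complex.I • v)) + T i z v (Complex.I • v) := rfl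
  have h3 : (w + s0 • T) i z v (Complex.I • v) = w i z v (Complex.I • v) + s0 * (T i z v (Complex.I • v)) := rfl
  rw [h2] at h1
  rw [h3]
  have h4 := B.k4_wnn hw i hz v
  have h5 := mul_nonneg hs0 h1
  have h6 := mul_le_mul_of_nonneg_right hC h4
  nlinarith

private theorem k4_u [Nonempty X] (hν : B.IsVol μ w ν) {C : ℝ} (hC : 0 ≤ C) {N ε : ℝ} (hN : 2 ≤ N) (hε : 0 < ε)
    {f : X → ℝ} (hf : B.Sm f) (hf0 : ∀ x, f x ≤ 0) (hf1 : ∀ x, -N - 1 ≤ f x) (hfi : ∫ x, |f x| ∂ν ≤ C) {δ : ℝ} (hδ : 0 < δ)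
    (hN2 : C * C * 2 ≤ δ * (N - 1)) (hε2 : ε * ν.real Set.univ * 2 ≤ δ) :
    ∃ u : X → ℝ, Measurable u ∧ (∀ x, 0 ≤ u x) ∧ (∀ x, u x ≤ ε + C) ∧ (∫ x, u x ∂ν) ≤ δ ∧
      (∀ x, -N + 1 < f x → u x = ε) ∧ ∀ x, ¬ -N + 1 < f x → u x = C := by
  have hfin := hν.fin
  have hfm : Measurable f := (B.Sm_cont hf).measurable
  refine ⟨fun x => if -N + 1 < f x then ε else C,
    Measurable.ite (measurableSet_lt measurable_const hfm) measurable_const measurable_const, ?_, ?_, ?_, ?_, ?_⟩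
  · intro x
    dsimp only
    split_ifs
    · exact hε.le
    · exact hC
  · intro x
    dsimp only
    split_ifs
    · linarith
    · linarith
  · have h1 : ∀ x, (if -N + 1 < f x then ε else C) ≤ ε + C / (N - 1) * |f x| := by
      intro x
      have hN1 : 0 < N - 1 := by linarith
      split_ifs with h2
      · have h3 : 0 ≤ C / (N - 1) * |f x| := by positivity
        linarith
      · have h3 : N - 1 ≤ |f x| := by
          rw [abs_of_nonpos (hf0 x)]
          linarith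
        have h4 : C / (N - 1) * (N - 1) ≤ C / (N - 1) * |f x| :=
          mul_le_mul_of_nonneg_left h3 (by positivity)
        rw [div_mul_cancel₀ _ hN1.ne'] at h4
        linarith
    have h2 : Integrable (fun x => |f x|) ν := B.bd_int hν hfm.abs (C := N + 1) (fun x => by
      rw [abs_abs, abs_le]
      constructor
      · linarith [hf1 x]
      · linarith [hf0 x])
    have h3 : (∫ x, (if -N + 1 < f x then ε else C) ∂ν) ≤ ∫ x, (ε + C / (N - 1) * |f x|) ∂ν := by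
      refine integral_mono_of_nonneg (Filter.Eventually.of_forall fun x => ?_)
        ((integrable_const _).add (h2.const_mul _)) (Filter.Eventually.of_forall h1)
      dsimp only [Pi.zero_apply]
      split_ifs
      · exact hε.le
      · exact hC
    rw [integral_add (integrable_const _) (h2.const_mul _), integral_const, integral_const_mul, smul_eq_mul] at h3
    have hN1 : 0 < N - 1 := by linarith
    have h4 : C / (N - 1) * (∫ x, |f x| ∂ν) ≤ C / (N - 1) * C := mul_le_mul_of_nonneg_left hfi (by positivity)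
    have h5 : C / (N - 1) * C * 2 ≤ δ := by
      have h6 : C / (N - 1) * C * 2 = C * C * 2 / (N - 1) := by ring
      rw [h6, div_le_iff₀ hN1]
      exact hN2
    have h7 : ν.real Set.univ * ε = ε * ν.real Set.univ := mul_comm _ _
    rw [h7] at h3
    linarith
  · intro x hx
    dsimp only
    rw [if_pos hx]
  · intro x hx
    dsimp only
    rw [if_neg hx]

theorem claim2 [Nonempty X] (hw : B.Met w) (hν : B.IsVol μ w ν) (hb : B.IsT b) (hc : B.ClT b) (hn : B.NnT b)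
    (hv : 0 < ∫ x, B.den w b x ∂ν) (ht : B.Per t) {C : ℝ} (hC : 0 ≤ C) (hG : B.Gauge t w ν C) {s : ℝ} (hs : s < 0) :
    B.PP t w b s := by
  by_contra hP
  have hS : 0 < -s := by linarith
  obtain ⟨C0, hC0, hsm⟩ := B.slope_mass hw hν hb hc hn
  set v : ℝ := ∫ x, B.den w b x ∂ν with hvdef
  have hq : 0 < 4 * (C0 + 1) * -s := by positivity
  set δ : ℝ := v / (4 * (C0 + 1) * -s) with hδdef
  have hδ : 0 < δ := div_pos hv hq
  have hfin := hν.fin
  have hV : 0 ≤ ν.real Set.univ := measureReal_nonneg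
  set ε : ℝ := δ / (2 * (ν.real Set.univ + 1)) with hεdef
  have hε : 0 < ε := by positivity
  set N : ℝ := 2 + 2 * C * C / δ with hNdef
  have hN : 2 ≤ N := by
    have h1 : 0 ≤ 2 * C * C / δ := by positivity
    linarith
  obtain ⟨f, hf, hf0, hf1, hfi, hf2, hf3⟩ := hG N ε (by linarith) hε
  have hN2 : C * C * 2 ≤ δ * (N - 1) := by
    have h1 : δ * (N - 1) = δ + 2 * C * C := by
      rw [hNdef]
      field_simp
      ring
    rw [h1]
    linarith
  have hε2 : ε * ν.real Set.univ * 2 ≤ δ := by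
    have h1 : ε * (ν.real Set.univ + 1) * 2 = δ := by
      rw [hεdef]
      field_simp
    nlinarith
  obtain ⟨u, hu1, hu2, hu3, hu4, hu5, hu6⟩ := B.k4_u hν hC hN hε hf hf0 hf1 hfi hδ hN2 hε2
  have ht' : B.Per (fun i z => t i z + f (B.ψ i z)) := ht.add B hf
  obtain ⟨C1, hC1, hd1⟩ := B.NnT_dom ht'.IsT hw
  obtain ⟨C2, hC2, hd2⟩ := B.NnT_dom (B.IsT_smul ht'.IsT (-1)) hw
  have hD : 0 < 1 / -s + ε + C + C1 + C2 := by positivity
  set D : ℝ := 1 / -s + ε + C + C1 + C2 with hDdef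
  set s0 : ℝ := 1 / D with hs0def
  have hs0 : 0 < s0 := by positivity
  have hs1 : 0 < 1 / -s := by positivity
  have hsD : s0 * D = 1 := by
    rw [hs0def]
    field_simp
  have hle : ∀ a : ℝ, a ≤ D → s0 * a ≤ 1 := by
    intro a ha
    have h1 := mul_le_mul_of_nonneg_left ha hs0.le
    linarith
  have hs0S : s0 ≤ -s := by
    have h1 := hle (1 / -s) (by linarith)
    rw [mul_one_div, div_le_one hS] at h1
    exact h1
  have hn1 : B.NnT (w + s0 • B.ddt (fun i z => t i z + f (B.ψ i z))) :=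
    B.k4_dom hw hd1 hs0.le (hle C1 (by linarith))
  have hn2 : B.NnT (w - s0 • B.ddt (fun i z => t i z + f (B.ψ i z))) := by
    have h1 := B.k4_dom hw hd2 hs0.le (hle C2 (by linarith))
    have h2 : w + s0 • ((-1 : ℝ) • B.ddt (fun i z => t i z + f (B.ψ i z))) =
        w - s0 • B.ddt (fun i z => t i z + f (B.ψ i z)) := by
      funext i z
      refine ContinuousLinearMap.ext fun p => ContinuousLinearMap.ext fun q => ?_
      have h3 : (w + s0 • ((-1 : ℝ) • B.ddt (fun i z => t i z + f (B.ψ i z)))) i z p q =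
          w i z p q + s0 * (-1 * (B.ddt (fun i z => t i z + f (B.ψ i z)) i z p q)) := rfl
      have h4 : (w - s0 • B.ddt (fun i z => t i z + f (B.ψ i z))) i z p q =
          w i z p q - s0 * (B.ddt (fun i z => t i z + f (B.ψ i z)) i z p q) := rfl
      rw [h3, h4]
      ring
    rw [h2] at h1
    exact h1
  have hn3 : ∀ i, ∀ z ∈ qb e 4, Nn (B.ddt (fun i z => t i z + f (B.ψ i z)) i z + u (B.ψ i z) • w i z) := by
    intro i z hz
    rw [B.ddt_add ht hf hz]
    by_cases h1 : -N + 1 < f (B.ψ i z)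
    · rw [hu5 _ h1]
      exact hf3 i z hz h1
    · rw [hu6 _ h1]
      exact hf2 i z hz
  have hmass := hsm _ u s0 (ε + C) ht' hu1 hu2 hu3 hs0 (fun x => hle (u x) (by linarith [hu3 x])) hn1 hn2 hn3
  obtain ⟨K, m0, hK⟩ := B.k4_m hw hν hb hc hn ht hs hP hf hf0 (by linarith : (1 : ℝ) ≤ N) hf1 hs0
  have hfinal := k4_arch hK
  rw [← hvdef] at hfinal
  have hD2 : 0 < s0 + -s := by linarith
  have hy1 : 0 ≤ 1 - s0 / (s0 + -s) := by
    rw [sub_nonneg, div_le_one hD2]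
    linarith
  have hg1 : (∫ x, B.denp w (b + s0 • B.ddt (fun i z => t i z + f (B.ψ i z))) x ∂ν) ≤ v + C0 * s0 * δ := by
    have h1 : C0 * s0 * (∫ x, u x ∂ν) ≤ C0 * s0 * δ := mul_le_mul_of_nonneg_left hu4 (by positivity)
    linarith
  have h1 : v ≤ (1 - s0 / (s0 + -s)) * (v + C0 * s0 * δ) := hfinal.trans (mul_le_mul_of_nonneg_left hg1 hy1)
  have h2 : v * (s0 / (s0 + -s)) ≤ C0 * s0 * δ := by
    have h3 : 0 ≤ s0 / (s0 + -s) := by positivity
    have h4 : 0 ≤ C0 * s0 * δ := by positivity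
    nlinarith [mul_nonneg h3 h4]
  have h3 : v ≤ C0 * δ * (s0 + -s) := by
    have h4 : v * (s0 / (s0 + -s)) = v * s0 / (s0 + -s) := by ring
    rw [h4, div_le_iff₀ hD2] at h2
    have h5 : s0 * v ≤ s0 * (C0 * δ * (s0 + -s)) := by linarith
    exact le_of_mul_le_mul_left h5 hs0
  have h4 : C0 * δ * (s0 + -s) ≤ C0 * δ * (2 * -s) :=
    mul_le_mul_of_nonneg_left (by linarith) (by positivity)
  have h5 : 4 * (C0 + 1) * -s * δ = v := by
    rw [hδdef]
    exact mul_div_cancel₀ v hq.ne'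
  have h6 : C0 * δ * (2 * -s) * 2 = v - 4 * (-s * δ) := by
    rw [← h5]
    ring
  have h7 : 0 < -s * δ := mul_pos hS hδ
  linarith

end BM

end HDG
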