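import Pool.Agent.HDG.K6
import Pool.Agent.HDG.K3
import Pool.Agent.HDG.K4
import Pool.Agent.HDG.H4

/-!
# HDG/K7: both gauges

`gauge_of_PP`: the function `f` of `gauge_fun`, divided by `a = max 7 (C1 + C2)`, satisfies the hypotheses of `harnack`.
`both`: by `claim1` the property `PP` holds for all `s > 0` or for all `s < 0`; `claim2` gives the other half line.
-/

set_option autoImplicit false

noncomputable section

open scoped ContDiff Topology

open MeasureTheory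

namespace HDG

open Pool.Agent.FBR

variable {H : Type*} [NormedAddCommGroup H] [NormedSpace ℂ H] {n : ℕ} {e : Module.Basis (Fin n) ℂ H}
  [FiniteDimensional ℂ H] [MeasurableSpace H] [BorelSpace H] {μ : Measure H} [μ.IsAddHaarMeasure]
  {X : Type*} [TopologicalSpace X] [CompactSpace X] [T2Space X] [MeasurableSpace X] [BorelSpace X]
  (B : BM e X) {t : B.I → H → ℝ} {w b : B.I → H → Bil H} {ν : Measure X}

namespace BM

omit [FiniteDimensional ℂ H] [MeasurableSpace H] [BorelSpace H] [CompactSpace X] [T2Space X] [MeasurableSpace X]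
  [BorelSpace X] in
private lemma K7_wn (hw : B.Met w) {i : B.I} {z : H} (hz : z ∈ qb e 4) (v : H) : 0 ≤ w i z v (Complex.I • v) := by
  by_cases hv : v = 0
  · subst hv
    simp
  · exact (hw.pos i z hz v hv).le

omit [FiniteDimensional ℂ H] [MeasurableSpace H] [BorelSpace H] [CompactSpace X] [T2Space X] [BorelSpace X] in
private lemma K7_mono (hw : B.Met w) {C C' : ℝ} (h : B.Gauge t w ν C) (hC : C ≤ C') : B.Gauge t w ν C' := by
  intro N ε hN hε
  obtain ⟨f, h1, h2, h3, h4, h5, h6⟩ := h N ε hN hε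
  refine ⟨f, h1, h2, h3, h4.trans hC, fun i z hz v => ?_, h6⟩
  have h7 := h5 i z hz v
  have h8 := mul_le_mul_of_nonneg_right hC (B.K7_wn hw hz v (i := i))
  simp only [Pi.add_apply, Pi.smul_apply, add_apply, smul_apply, smul_eq_mul] at h7 ⊢
  linarith

omit [MeasurableSpace H] [BorelSpace H] [CompactSpace X] [T2Space X] [MeasurableSpace X] [BorelSpace X] in
/-- the function `f / a` satisfies `dd^c (f / a) + w ≥ 0` -/
private lemma K7_g (hw : B.Met w) {f : X → ℝ} (hf : B.Sm f) {C1 C2 a : ℝ} (ha : 0 < a) (hCa : C1 + C2 ≤ a)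
    (h1 : B.NnT (B.ddt t + B.dd f + C1 • w)) (h2 : B.NnT (C2 • w + (-1 : ℝ) • B.ddt t)) :
    B.NnT (B.dd (fun x => a⁻¹ * f x) + w) := by
  intro i z hz v
  have h3 := h1 i z hz v
  have h4 := h2 i z hz v
  have h5 := mul_le_mul_of_nonneg_right hCa (B.K7_wn hw hz v (i := i))
  have h6 : 0 ≤ B.dd f i z v (Complex.I • v) + a * w i z v (Complex.I • v) := by
    simp only [Pi.add_apply, Pi.smul_apply, add_apply, smul_apply, smul_eq_mul] at h3 h4
    linarith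
  have h7 : (B.dd (fun x => a⁻¹ * f x) + w) i z v (Complex.I • v) =
      a⁻¹ * (B.dd f i z v (Complex.I • v) + a * w i z v (Complex.I • v)) := by
    have h8 : (B.dd (fun x => a⁻¹ * f x) + w) i z = a⁻¹ • B.dd f i z + w i z := by
      rw [Pi.add_apply, Pi.add_apply, B.dd_smul hf a⁻¹ hz]
    rw [h8]
    simp only [add_apply, smul_apply, smul_eq_mul]
    field_simp
  rw [h7]
  exact mul_nonneg (inv_nonneg.2 ha.le) h6

theorem gauge_of_PP [ConnectedSpace X] (hw : B.Met w) (hν : B.IsVol μ w ν) (hb : B.IsT b) (ht : B.Per t)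
    (h : ∀ S : ℝ, ∃ s : ℝ, S ≤ s ∧ B.PP t w b s) : ∃ C : ℝ, 0 ≤ C ∧ B.Gauge t w ν C := by
  obtain ⟨C1, hC1, hf⟩ := B.gauge_fun hw hb ht h
  obtain ⟨C2, hC2, hd⟩ := B.NnT_dom (B.IsT_smul (BM.Per.IsT B ht) (-1)) hw
  obtain ⟨C, hC, hH⟩ := B.harnack hw hν
  obtain ⟨a, ha⟩ : ∃ a : ℝ, a = max 7 (C1 + C2) := ⟨_, rfl⟩
  have ha7 : 7 ≤ a := ha ▸ le_max_left _ _
  have haC : C1 + C2 ≤ a := ha ▸ le_max_right _ _
  have ha0 : 0 < a := by linarith
  refine ⟨max C1 (a * C), le_max_of_le_left hC1, fun N ε hN hε => ?_⟩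
  obtain ⟨f, f1, f2, f3, ⟨x0, f4⟩, f5, f6⟩ := hf N ε hN hε
  refine ⟨f, f1, f2, f3, ?_, fun i z hz v => ?_, f6⟩
  · refine le_max_of_le_right ?_
    have g1 : B.Sm fun x => a⁻¹ * f x := B.Sm_mul (B.Sm_const a⁻¹) f1
    have g2 : ∀ x, a⁻¹ * f x ≤ 0 := fun x => mul_nonpos_of_nonneg_of_nonpos (inv_nonneg.2 ha0.le) (f2 x)
    have g3 : -1 ≤ a⁻¹ * f x0 := by
      have h1 : a⁻¹ * (-a) ≤ a⁻¹ * f x0 := mul_le_mul_of_nonneg_left (by linarith) (inv_nonneg.2 ha0.le)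
      have h2 : a⁻¹ * (-a) = -1 := by
        rw [mul_neg, inv_mul_cancel₀ ha0.ne']
      linarith
    have g4 := hH (fun x => a⁻¹ * f x) g1 (B.K7_g hw f1 ha0 haC f5 hd) g2 ⟨x0, g3⟩
    have g5 : ∀ x, |f x| = a * |a⁻¹ * f x| := by
      intro x
      rw [abs_mul, abs_of_pos (inv_pos.2 ha0), ← mul_assoc, mul_inv_cancel₀ ha0.ne', one_mul]
    calc ∫ x, |f x| ∂ν = ∫ x, a * |a⁻¹ * f x| ∂ν := integral_congr_ae (Filter.Eventually.of_forall g5)
      _ = a * ∫ x, |a⁻¹ * f x| ∂ν := integral_const_mul _ _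
      _ ≤ a * C := mul_le_mul_of_nonneg_left g4 ha0.le
  · have h7 := f5 i z hz v
    have h8 := mul_le_mul_of_nonneg_right (le_max_left C1 (a * C)) (B.K7_wn hw hz v (i := i))
    simp only [Pi.add_apply, Pi.smul_apply, add_apply, smul_apply, smul_eq_mul] at h7 ⊢
    linarith

theorem both [ConnectedSpace X] (hw : B.Met w) (hν : B.IsVol μ w ν) (hb : B.IsT b) (hc : B.ClT b) (hn : B.NnT b)
    (hv : 0 < ∫ x, B.den w b x ∂ν) (ht : B.Per t) :
    ∃ C : ℝ, 0 ≤ C ∧ B.Gauge t w ν C ∧ B.Gauge (fun i z => - t i z) w ν C := by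
  have hS : ∀ S : ℝ, 0 < max S 1 := fun S => lt_of_lt_of_le one_pos (le_max_right _ _)
  have htn : B.Per fun i z => - t i z := BM.Per.neg B ht
  rcases B.claim1 hw hν hb hc hn hv ht with h | h
  · obtain ⟨C1, hC1, hG1⟩ := B.gauge_of_PP hw hν hb ht fun S => ⟨max S 1, le_max_left _ _, h _ (hS S)⟩
    have h2 : ∀ s : ℝ, s < 0 → B.PP t w b s := fun s hs => B.claim2 hw hν hb hc hn hv ht hC1 hG1 hs
    obtain ⟨C2, hC2, hG2⟩ := B.gauge_of_PP hw hν hb htn fun S =>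
      ⟨max S 1, le_max_left _ _, (B.PP_neg_iff).2 (h2 _ (neg_lt_zero.2 (hS S)))⟩
    exact ⟨max C1 C2, le_max_of_le_left hC1, B.K7_mono hw hG1 (le_max_left _ _),
      B.K7_mono hw hG2 (le_max_right _ _)⟩
  · obtain ⟨C2, hC2, hG2⟩ := B.gauge_of_PP hw hν hb htn fun S =>
      ⟨max S 1, le_max_left _ _, (B.PP_neg_iff).2 (h _ (neg_lt_zero.2 (hS S)))⟩
    have h3 : ∀ s : ℝ, 0 < s → B.PP t w b s := by
      intro s hs
      have h4 := B.claim2 hw hν hb hc hn hv htn hC2 hG2 (neg_lt_zero.2 hs)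
      have h5 := (B.PP_neg_iff).1 h4
      rwa [neg_neg] at h5
    obtain ⟨C1, hC1, hG1⟩ := B.gauge_of_PP hw hν hb ht fun S => ⟨max S 1, le_max_left _ _, h3 _ (hS S)⟩
    exact ⟨max C1 C2, le_max_of_le_left hC1, B.K7_mono hw hG1 (le_max_left _ _),
      B.K7_mono hw hG2 (le_max_right _ _)⟩

end BM

end HDG
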