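import Pool.Agent.HDG.F5
import Pool.Agent.HDG.K7
import Pool.Agent.HDG.G5
import Pool.Agent.HDG.G12

/-!
# HDG/F6: main theorem for manifolds given by parametrized balls

If the compact connected complex manifold given by `B` carries a closed real `(1,1)`-form `b ≥ 0` which is positive at some
point, then every multivalued function with integral periods is the sum of a pluriharmonic one and a smooth function.
-/

set_option autoImplicit false

noncomputable section

open scoped ContDiff Topology

open MeasureTheory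

namespace HDG

open Pool.Agent.FBR

variable {H : Type*} [NormedAddCommGroup H] [NormedSpace ℂ H] {n : ℕ} {e : Module.Basis (Fin n) ℂ H}
  [FiniteDimensional ℂ H] [MeasurableSpace H] [BorelSpace H]
  {X : Type*} [TopologicalSpace X] [CompactSpace X] [T2Space X] [ConnectedSpace X]
  (B : BM e X) {t : B.I → H → ℝ} {b : B.I → H → Bil H}

namespace BM

theorem main_bm (hb : B.IsT b) (hc : B.ClT b) (hn : B.NnT b)
    (hp : ∃ i, ∃ z ∈ qb e 4, ∀ v : H, v ≠ 0 → 0 < b i z v (Complex.I • v)) (ht : B.Per t) :
    ∃ f : X → ℝ, B.Sm f ∧ ∀ i, ∀ z ∈ qb e 4, ddc (fun z => t i z + f (B.ψ i z)) z = 0 := by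
  letI : MeasurableSpace X := borel X
  haveI : BorelSpace X := ⟨rfl⟩
  haveI : FiniteDimensional ℝ H := FiniteDimensional.complexToReal H
  obtain ⟨w, hw⟩ := B.exists_met
  obtain ⟨ν, hν⟩ := exists_vol (Measure.addHaar : Measure H) B hw
  obtain ⟨C, hC, h1, h2⟩ := B.both hw hν hb hc hn (B.mass_pos hw hν hb hn hp) ht
  obtain ⟨f, hf, h⟩ := B.final_step hw hν ht hC h1 h2
  exact ⟨f, hf, fun i z hz => (ddt_add B ht hf hz).trans (h i z hz)⟩

end BM

end HDG
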