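import Pool.Agent.HDG.LA4

/-!
# HDG/LA5: the positive part

`pl e a = dt e a` if `a ≥ 0`, otherwise `0`: it is nonnegative, monotone, bounded on bounded sets, measurable along continuous families, and
`pl (a + s) ≤ pl a + C ‖s‖` on bounded sets (if `a + s ≥ 0` but not `a ≥ 0`, one of the eigenvalues of `a + s` is at most `C ‖s‖`).
-/

set_option autoImplicit false

noncomputable section

open scoped ContDiff ComplexOrder

namespace HDG

open Pool.Agent.FBR

variable {H : Type*} [NormedAddCommGroup H] [NormedSpace ℂ H] [FiniteDimensional ℂ H] {n : ℕ}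
  (e : Module.Basis (Fin n) ℂ H)

theorem pl_nonneg {a : Bil H} (ha : O11 a) : 0 ≤ pl e a := by
  unfold pl
  split_ifs with h
  · exact dt_nonneg e ha h
  · exact le_rfl

theorem pl_of_nn {a : Bil H} (h : Nn a) : pl e a = dt e a := by
  unfold pl
  rw [if_pos h]

theorem pl_le_dt {a b : Bil H} (ha : O11 a) (hb : O11 b) (hb' : Nn b) (hab : Nn (b - a)) : pl e a ≤ dt e b := by
  unfold pl
  split_ifs with h
  · exact dt_mono e ha hb h hab
  · exact dt_nonneg e hb hb'

theorem pl_mono {a b : Bil H} (ha : O11 a) (hb : O11 b) (hab : Nn (b - a)) : pl e a ≤ pl e b := by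
  by_cases h : Nn a
  · have h' : Nn b := by
      intro v
      have h1 := h v
      have h2 := hab v
      have h3 : (b - a) v (Complex.I • v) = b v (Complex.I • v) - a v (Complex.I • v) := rfl
      linarith
    rw [pl_of_nn e h']
    exact pl_le_dt e ha hb h' hab
  · have h1 : pl e a = 0 := by
      unfold pl
      rw [if_neg h]
    rw [h1]
    exact pl_nonneg e hb

theorem pl_add_le (R : ℝ) : ∃ C : ℝ, 0 ≤ C ∧ ∀ a s : Bil H, O11 a → O11 s → ‖a‖ ≤ R → ‖s‖ ≤ R →
    pl e (a + s) ≤ pl e a + C * ‖s‖ := by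
  obtain ⟨C1, hC1, h1⟩ := lip_dt e (2 * |R|)
  obtain ⟨C2, hC2, h2⟩ := bd_cf e (2 * |R|)
  obtain ⟨C0, hC0, h0⟩ := form_le (H := H) e
  refine ⟨C1 + C0 * (C2 * ‖w0 e‖), by positivity, ?_⟩
  intro a s ha hs hna hns
  have has : O11 (a + s) := O11_add ha hs
  have hz0 : (a + s) + (0 : ℝ) • w0 e = a + s := by
    refine ContinuousLinearMap.ext fun u => ContinuousLinearMap.ext fun v => ?_
    have h7 : ((a + s) + (0 : ℝ) • w0 e) u v = (a + s) u v + 0 * (w0 e u v) := rfl
    rw [h7, zero_mul, add_zero]
  have hcan : (a + s) - a = s := add_sub_cancel_left a s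
  have hR : R ≤ |R| := le_abs_self R
  have hna' : ‖a‖ ≤ 2 * |R| := by linarith [abs_nonneg R]
  have hnas : ‖a + s‖ ≤ 2 * |R| := (norm_add_le a s).trans (by linarith)
  have hs0 : 0 ≤ ‖s‖ := norm_nonneg s
  have hK : 0 ≤ C0 * (C2 * ‖w0 e‖) * ‖s‖ := by positivity
  by_cases h : Nn (a + s)
  · rw [pl_of_nn e h]
    by_cases h' : Nn a
    · rw [pl_of_nn e h']
      have h3 := h1 (a + s) a hnas hna'
      rw [hcan] at h3
      have h4 := (abs_le.mp h3).2
      linarith
    · have hz : pl e a = 0 := by
        unfold pl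
        rw [if_neg h']
      rw [hz]
      obtain ⟨l, e1, e2, e3⟩ := exists_eig e has
      have hl : ∀ i, 0 ≤ l i := by
        have h3 := (e3 0).1 (by rw [hz0]; exact h)
        intro i
        have h4 := h3 i
        rwa [add_zero] at h4
      obtain ⟨i, hi⟩ : ∃ i, l i < C0 * ‖s‖ := by
        by_contra hcon
        push Not at hcon
        apply h'
        have h3 := (e3 (-(C0 * ‖s‖))).2 (fun i => by linarith [hcon i])
        intro v
        have h4 := h3 v
        have h5 := h0 s v
        have h6 := le_abs_self (s v (Complex.I • v))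
        have h7 : (a + s + (-(C0 * ‖s‖)) • w0 e) v (Complex.I • v) =
            a v (Complex.I • v) + s v (Complex.I • v) + (-(C0 * ‖s‖)) * (w0 e v (Complex.I • v)) := rfl
        rw [w0_self] at h7
        linarith
      have h3 : dt e (a + s) = ∏ j, l j := by
        have h4 := e1 0
        rw [hz0] at h4
        simpa only [add_zero] using h4
      have h4 : cf e (a + s) (w0 e) = ∑ i, ∏ j ∈ Finset.univ.erase i, l j := by
        have h5 := e2 0
        rw [hz0] at h5
        simpa only [add_zero] using h5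
      have h5 : ∏ j ∈ Finset.univ.erase i, l j ≤ C2 * ‖w0 e‖ := by
        have h6 : ∏ j ∈ Finset.univ.erase i, l j ≤ ∑ i, ∏ j ∈ Finset.univ.erase i, l j :=
          Finset.single_le_sum (f := fun i => ∏ j ∈ Finset.univ.erase i, l j)
            (fun i _ => Finset.prod_nonneg fun j _ => hl j) (Finset.mem_univ i)
        rw [← h4] at h6
        exact h6.trans ((le_abs_self _).trans (h2 (a + s) (w0 e) hnas))
      have h6 : ∏ j, l j = l i * ∏ j ∈ Finset.univ.erase i, l j :=
        (Finset.mul_prod_erase Finset.univ l (Finset.mem_univ i)).symm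
      have h7 : 0 ≤ ∏ j ∈ Finset.univ.erase i, l j := Finset.prod_nonneg fun j _ => hl j
      rw [h3, h6]
      have h8 : l i * ∏ j ∈ Finset.univ.erase i, l j ≤ C0 * ‖s‖ * (C2 * ‖w0 e‖) :=
        mul_le_mul hi.le h5 h7 (by positivity)
      have h9 : 0 ≤ C1 * ‖s‖ := by positivity
      nlinarith
  · have hz : pl e (a + s) = 0 := by
      unfold pl
      rw [if_neg h]
    rw [hz]
    have h3 := pl_nonneg e ha
    have h9 : 0 ≤ C1 * ‖s‖ := by positivity
    nlinarith

theorem pl_bound (R : ℝ) : ∃ C : ℝ, 0 ≤ C ∧ ∀ a : Bil H, ‖a‖ ≤ R → |pl e a| ≤ C := by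
  obtain ⟨C, hC, h⟩ := bd_dt e R
  refine ⟨C, hC, fun a ha => ?_⟩
  unfold pl
  split_ifs with h'
  · exact h a ha
  · rw [abs_zero]
    exact hC

theorem pl_measurable {α : Type*} [TopologicalSpace α] [MeasurableSpace α] [BorelSpace α] {f : α → Bil H}
    (hf : Continuous f) : Measurable fun x => pl e (f x) := by
  have hcl : IsClosed {x | Nn (f x)} := by
    have h1 : {x | Nn (f x)} = ⋂ v : H, {x | 0 ≤ f x v (Complex.I • v)} := by
      ext x
      rw [Set.mem_iInter]
      exact Iff.rfl
    rw [h1]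
    exact isClosed_iInter fun v =>
      isClosed_le continuous_const ((hf.clm_apply continuous_const).clm_apply continuous_const)
  have hc : Measurable fun x => dt e (f x) := ((dt_smooth e).continuous.comp hf).measurable
  unfold pl
  exact Measurable.ite hcl.measurableSet hc measurable_const

end HDG
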