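import Pool.Agent.HDG.LC4

/-!
# HDG/LC5: weak continuity and the energy inequality

`abs_mass`: `|dt (b + ddc φ)| ≤ dt (b + ddc φ + 2 w0)` and the mass bound. `weak_cont`, `energy`: pass to `P + ε w0 ≥ 0` (error by
`pert` and the mass bound, `LC5_err`), then `path` and `path_f`; the term `cf (P) (ddc χ)` is bounded by `c dt (P + w0)` (`LC5_cfi`).
-/

set_option autoImplicit false
set_option maxSynthPendingDepth 3

noncomputable section

open scoped ContDiff ComplexOrder Topology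

open MeasureTheory

namespace HDG

open Pool.Agent.FBR

variable {H : Type*} [NormedAddCommGroup H] [NormedSpace ℂ H] [FiniteDimensional ℂ H] {n : ℕ}
  (e : Module.Basis (Fin n) ℂ H) [MeasurableSpace H] [BorelSpace H] (μ : Measure H) [μ.IsAddHaarMeasure]

omit [FiniteDimensional ℂ H] [MeasurableSpace H] [BorelSpace H] in
private lemma LC5_two {φ : H → ℝ} (hφ : ContDiff ℝ ∞ φ) (z : H) : ContDiffAt ℝ 2 φ z :=
  hφ.contDiffAt.of_le (by norm_cast)

omit [FiniteDimensional ℂ H] [MeasurableSpace H] [BorelSpace H] in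
private lemma LC5_cddc {φ : H → ℝ} (hφ : ContDiff ℝ ∞ φ) : Continuous (ddc φ) :=
  (contDiff_iff_contDiffAt.2 fun _ => ddc_smooth hφ.contDiffAt).continuous

omit [FiniteDimensional ℂ H] [MeasurableSpace H] [BorelSpace H] in
private lemma LC5_sub {φ ψ : H → ℝ} (hφ : ContDiff ℝ ∞ φ) (hψ : ContDiff ℝ ∞ ψ) (z : H) :
    ddc (fun x => φ x - ψ x) z = ddc φ z - ddc ψ z := by
  have h1 : (fun x => φ x - ψ x) = fun x => φ x + (fun y => (-1 : ℝ) * ψ y) x := by
    funext x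
    ring
  have h2 : ContDiff ℝ ∞ fun y => (-1 : ℝ) * ψ y := contDiff_const.mul hψ
  rw [h1, ddc_add (LC5_two hφ z) (LC5_two h2 z), ddc_smul (-1) (LC5_two hψ z), neg_one_smul,
    sub_eq_add_neg]

omit [FiniteDimensional ℂ H] [MeasurableSpace H] [BorelSpace H] in
private lemma LC5_addmul {φ f : H → ℝ} (hφ : ContDiff ℝ ∞ φ) (hf : ContDiff ℝ ∞ f) (s : ℝ) (z : H) :
    ddc (fun x => φ x + s * f x) z = ddc φ z + s • ddc f z := by
  have h2 : ContDiff ℝ ∞ fun y => s * f y := contDiff_const.mul hf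
  have h3 := ddc_add (φ := φ) (ψ := fun y => s * f y) (LC5_two hφ z) (LC5_two h2 z)
  rw [ddc_smul s (LC5_two hf z)] at h3
  exact h3

omit [FiniteDimensional ℂ H] [MeasurableSpace H] [BorelSpace H] in
private lemma LC5_zero (z : H) : ddc (fun _ : H => (0 : ℝ)) z = 0 := by
  have h := ddc_smul (0 : ℝ) (φ := fun _ : H => (0 : ℝ)) (q := z) contDiffAt_const
  simpa using h

omit [FiniteDimensional ℂ H] [MeasurableSpace H] [BorelSpace H] in
private lemma LC5_off {χ : H → ℝ} {z : H} (hz : z ∉ tsupport χ) : ddc χ z = 0 := by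
  have h : χ =ᶠ[nhds z] fun _ => (0 : ℝ) := notMem_tsupport_iff_eventuallyEq.1 hz
  rw [ddc_congr h, LC5_zero]

omit [FiniteDimensional ℂ H] [MeasurableSpace H] [BorelSpace H] in
private lemma LC5_Nadd {a b : Bil H} (ha : Nn a) (hb : Nn b) : Nn (a + b) := fun v => by
  have h1 := ha v
  have h2 := hb v
  show 0 ≤ a v (Complex.I • v) + b v (Complex.I • v)
  exact add_nonneg h1 h2

omit [FiniteDimensional ℂ H] [MeasurableSpace H] [BorelSpace H] in
private lemma LC5_Nsmul {a : Bil H} (ha : Nn a) {c : ℝ} (hc : 0 ≤ c) : Nn (c • a) := fun v => by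
  show 0 ≤ c * a v (Complex.I • v)
  exact mul_nonneg hc (ha v)

omit [MeasurableSpace H] [BorelSpace H] in
private lemma LC5_Nw : Nn (w0 e : Bil H) := fun v => by
  rw [w0_self]
  exact qf_nonneg e v

omit [MeasurableSpace H] [BorelSpace H] in
private lemma LC5_Nmono {a : Bil H} {c d : ℝ} (h : Nn (a + c • w0 e)) (hcd : c ≤ d) : Nn (a + d • w0 e) := by
  have h1 := LC5_Nadd h (LC5_Nsmul (LC5_Nw e) (sub_nonneg.2 hcd))
  have h2 : a + c • w0 e + (d - c) • w0 e = a + d • w0 e := by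
    rw [sub_smul]
    abel
  rwa [h2] at h1

omit [MeasurableSpace H] [BorelSpace H] in
private lemma LC5_Nw1 {a : Bil H} {c : ℝ} (h : Nn (a + c • w0 e)) (hc : c ≤ 1) : Nn (a + w0 e) := by
  have h1 := LC5_Nmono e h hc
  rwa [one_smul] at h1

omit [FiniteDimensional ℂ H] [MeasurableSpace H] [BorelSpace H] in
private lemma LC5_sub_qb {r R : ℝ} (hr : 0 < r) (hR : r < R) {z : H} (hz : z ∈ qb e r) : z ∈ qb e R := by
  have h1 : qf e z < r ^ 2 := hz
  show qf e z < R ^ 2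
  have h2 : r ^ 2 ≤ R ^ 2 := pow_le_pow_left₀ hr.le hR.le 2
  linarith

private lemma LC5_int {g : H → ℝ} (hg : Continuous g) (r : ℝ) : IntegrableOn g (qb e r) μ :=
  (hg.continuousOn.integrableOn_compact (isCompact_qb e r)).mono_set fun z (hz : qf e z < r ^ 2) => hz.le

private lemma LC5_bd {F G : H → ℝ} (hF : Continuous F) (hG : Continuous G) {r : ℝ}
    (h0 : ∀ z, z ∉ qb e r → F z = 0) (h : ∀ z ∈ qb e r, |F z| ≤ G z) :
    |∫ z, F z ∂μ| ≤ ∫ z in qb e r, G z ∂μ := by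
  rw [← setIntegral_eq_integral_of_forall_compl_eq_zero h0]
  calc |∫ z in qb e r, F z ∂μ| ≤ ∫ z in qb e r, |F z| ∂μ := abs_integral_le_integral_abs
    _ ≤ ∫ z in qb e r, G z ∂μ :=
      setIntegral_mono_on (LC5_int e μ hF.abs r) (LC5_int e μ hG r) (isOpen_qb e r).measurableSet h

private lemma LC5_mass {r R : ℝ} (hr : 0 < r) (hR : r < R) (O A : ℝ) : ∃ C : ℝ, 0 ≤ C ∧
    ∀ (b : H → Bil H) (φ : H → ℝ) (t : ℝ), 0 ≤ t → t ≤ 2 → Fld b (qb e R) → (∀ z ∈ qb e R, ‖b z‖ ≤ A) →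
      ContDiff ℝ ∞ φ → (∀ z ∈ qb e R, Nn (b z + ddc φ z + t • w0 e)) → (∀ z ∈ qb e R, |φ z| ≤ O) →
      ∫ z in qb e r, dt e (b z + ddc φ z + t • w0 e) ∂μ ≤ C := by
  obtain ⟨C, hC, h⟩ := mass_bound e μ hr hR O (A + 2 * ‖(w0 e : Bil H)‖)
  refine ⟨C, hC, fun b φ t ht0 ht2 hb hbA hφ hN hO => ?_⟩
  have h1 : ∀ z, b z + ddc φ z + t • w0 e = (b z + t • w0 e) + ddc φ z := fun z => by abel
  have h2 := h (fun z => b z + t • w0 e) φ (Fld.add_w0 e hb t) (fun z hz => by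
    calc ‖b z + t • w0 e‖ ≤ ‖b z‖ + ‖t • (w0 e : Bil H)‖ := norm_add_le _ _
      _ ≤ A + 2 * ‖(w0 e : Bil H)‖ := by
        refine add_le_add (hbA z hz) ?_
        rw [norm_smul, Real.norm_eq_abs, abs_of_nonneg ht0]
        exact mul_le_mul_of_nonneg_right ht2 (norm_nonneg _)) hφ (fun z hz => by
    rw [← h1]
    exact hN z hz) hO
  simp only [h1]
  exact h2

omit [MeasurableSpace H] [BorelSpace H] in
private lemma LC5_cdt {P : H → Bil H} (hP : Continuous P) : Continuous fun z => dt e (P z) :=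
  (dt_smooth e).continuous.comp hP

omit [MeasurableSpace H] [BorelSpace H] in
private lemma LC5_ccf {P Q : H → Bil H} (hP : Continuous P) (hQ : Continuous Q) :
    Continuous fun z => cf e (P z) (Q z) := by
  have h1 : Continuous fun p : Bil H × Bil H => cf e p.1 p.2 := (cf_smooth e).continuous
  have h2 : Continuous fun z => (P z, Q z) := hP.prodMk hQ
  exact Continuous.comp (g := fun p : Bil H × Bil H => cf e p.1 p.2) (f := fun z => (P z, Q z)) h1 h2

private lemma LC5_cfi {P Q : H → Bil H} (hP : Continuous P) (hQ : Continuous Q) {f : H → ℝ}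
    (hf : Continuous f) {r s D : ℝ} (hoP : ∀ z, O11 (P z)) (hoQ : ∀ z, O11 (Q z))
    (hN : ∀ z ∈ qb e r, Nn (P z)) (h0 : ∀ z, z ∉ qb e r → Q z = 0) (hs0 : 0 ≤ s) (hD : 0 ≤ D)
    (hs : ∀ z ∈ qb e r, |f z| ≤ s)
    (hQD : ∀ z ∈ qb e r, ∀ v : H, |Q z v (Complex.I • v)| ≤ D * qf e v) :
    |∫ z, f z * cf e (P z) (Q z) ∂μ| ≤ (s * D) * ∫ z in qb e r, dt e (P z + w0 e) ∂μ := by
  have hPw : Continuous fun z => P z + w0 e := hP.add continuous_const
  rw [← integral_const_mul]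
  refine LC5_bd e μ (F := fun z => f z * cf e (P z) (Q z)) (G := fun z => (s * D) * dt e (P z + w0 e))
    (hf.mul (LC5_ccf e hP hQ)) (continuous_const.mul (LC5_cdt e hPw)) (fun z hz => ?_) fun z hz => ?_
  · show f z * cf e (P z) (Q z) = 0
    rw [h0 z hz]
    have h2 := cf_smul e (P z) 0 (0 : Bil H)
    rw [zero_smul, zero_mul] at h2
    rw [h2, mul_zero]
  · have h2 : |cf e (P z) (Q z)| ≤ D * cf e (P z) (w0 e) :=
      cf_abs_le e (hoP z) (hoQ z) (hN z hz) (hQD z hz)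
    have h4 := cf_w0_le e (hoP z) (hN z hz)
    show |f z * cf e (P z) (Q z)| ≤ (s * D) * dt e (P z + w0 e)
    rw [abs_mul]
    calc |f z| * |cf e (P z) (Q z)| ≤ s * (D * dt e (P z + w0 e)) := by
          refine mul_le_mul (hs z hz) (h2.trans ?_) (abs_nonneg _) hs0
          exact mul_le_mul_of_nonneg_left h4 hD
      _ = (s * D) * dt e (P z + w0 e) := by ring

/-- the error term -/
private lemma LC5_err {r R : ℝ} (hr : 0 < r) (hR : r < R) (O A : ℝ) : ∃ C : ℝ, 0 ≤ C ∧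
    ∀ (b : H → Bil H) (φ g : H → ℝ) (ε M : ℝ), Fld b (qb e R) → (∀ z ∈ qb e R, ‖b z‖ ≤ A) →
      ContDiff ℝ ∞ φ → 0 ≤ ε → ε ≤ 1 → (∀ z ∈ qb e R, Nn (b z + ddc φ z + ε • w0 e)) →
      (∀ z ∈ qb e R, |φ z| ≤ O) → Continuous g → (∀ z, z ∉ qb e r → g z = 0) →
      0 ≤ M → (∀ z ∈ qb e r, |g z| ≤ M) →
      |∫ z, g z * (dt e (b z + ddc φ z + ε • w0 e) - dt e (b z + ddc φ z)) ∂μ| ≤ M * n * C * ε := by
  obtain ⟨C, hC, h⟩ := LC5_mass e μ hr hR O A
  refine ⟨C, hC, fun b φ g ε M hb hbA hφ hε0 hε1 hN hO hg hg0 hM0 hgM => ?_⟩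
  have hP : Continuous fun z => b z + ddc φ z := hb.sm.continuous.add (LC5_cddc hφ)
  have hPt : ∀ t : ℝ, Continuous fun z => b z + ddc φ z + t • w0 e := fun t => hP.add continuous_const
  have hoo : ∀ z, O11 (b z + ddc φ z) := fun z => O11_add (hb.oo z) (O11_ddc (LC5_two hφ z))
  have h1 : |∫ z, g z * (dt e (b z + ddc φ z + ε • w0 e) - dt e (b z + ddc φ z)) ∂μ| ≤
      ∫ z in qb e r, (M * n * ε) * dt e (b z + ddc φ z + (2 : ℝ) • w0 e) ∂μ := by
    refine LC5_bd e μ (F := fun z => g z * (dt e (b z + ddc φ z + ε • w0 e) - dt e (b z + ddc φ z)))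
      (G := fun z => (M * n * ε) * dt e (b z + ddc φ z + (2 : ℝ) • w0 e))
      (hg.mul ((LC5_cdt e (hPt ε)).sub (LC5_cdt e hP)))
      (continuous_const.mul (LC5_cdt e (hPt 2)))
      (fun z hz => by
        show g z * _ = 0
        rw [hg0 z hz, zero_mul]) fun z hz => ?_
    show |g z * _| ≤ _
    have h2 := pert e (hoo z) (LC5_Nw1 e (hN z (LC5_sub_qb e hr hR hz)) hε1) hε0 hε1
    rw [abs_mul]
    calc |g z| * |dt e (b z + ddc φ z + ε • w0 e) - dt e (b z + ddc φ z)|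
        ≤ M * (n * ε * dt e (b z + ddc φ z + (2 : ℝ) • w0 e)) :=
          mul_le_mul (hgM z hz) h2 (abs_nonneg _) hM0
      _ = (M * n * ε) * dt e (b z + ddc φ z + (2 : ℝ) • w0 e) := by ring
  rw [integral_const_mul] at h1
  have h3 := h b φ 2 (by norm_num) le_rfl hb hbA hφ (fun z hz => LC5_Nmono e (hN z hz) (by linarith)) hO
  calc |∫ z, g z * (dt e (b z + ddc φ z + ε • w0 e) - dt e (b z + ddc φ z)) ∂μ|
      ≤ (M * n * ε) * ∫ z in qb e r, dt e (b z + ddc φ z + (2 : ℝ) • w0 e) ∂μ := h1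
    _ ≤ (M * n * ε) * C := mul_le_mul_of_nonneg_left h3 (by positivity)
    _ = M * n * C * ε := by ring

omit [MeasurableSpace H] [BorelSpace H] in
private lemma LC5_cs {χ : H → ℝ} {r : ℝ} (hχs : tsupport χ ⊆ qb e r) : HasCompactSupport χ :=
  (isCompact_qb e r).of_isClosed_subset (isClosed_tsupport χ)
    (hχs.trans fun z (hz : qf e z < r ^ 2) => hz.le)

omit [MeasurableSpace H] [BorelSpace H] in
private lemma LC5_bound {E : Type*} [NormedAddCommGroup E] {g : H → E} (hg : Continuous g) (r : ℝ) :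
    ∃ M : ℝ, 0 ≤ M ∧ ∀ z ∈ qb e r, ‖g z‖ ≤ M := by
  obtain ⟨C, hC⟩ := (isCompact_qb e r).exists_bound_of_continuousOn hg.continuousOn
  exact ⟨max C 0, le_max_right _ _, fun z (hz : qf e z < r ^ 2) => (hC z hz.le).trans (le_max_left _ _)⟩

theorem abs_mass {r R : ℝ} (hr : 0 < r) (hR : r < R) (O A : ℝ) : ∃ C : ℝ, 0 ≤ C ∧
    ∀ (b : H → Bil H) (φ : H → ℝ), Fld b (qb e R) → (∀ z ∈ qb e R, ‖b z‖ ≤ A) → ContDiff ℝ ∞ φ →
      (∀ z ∈ qb e R, Nn (b z + ddc φ z + w0 e)) → (∀ z ∈ qb e R, |φ z| ≤ O) →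
      ∫ z in qb e r, |dt e (b z + ddc φ z)| ∂μ ≤ C := by
  obtain ⟨C, hC, h⟩ := LC5_mass e μ hr hR O A
  refine ⟨C, hC, fun b φ hb hbA hφ hN hO => ?_⟩
  have hP : Continuous fun z => b z + ddc φ z := hb.sm.continuous.add (LC5_cddc hφ)
  have hPt : Continuous fun z => b z + ddc φ z + (2 : ℝ) • w0 e := hP.add continuous_const
  have hoo : ∀ z, O11 (b z + ddc φ z) := fun z => O11_add (hb.oo z) (O11_ddc (LC5_two hφ z))
  have hN' : ∀ z ∈ qb e R, Nn (b z + ddc φ z + (2 : ℝ) • w0 e) := fun z hz => by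
    refine LC5_Nmono e (c := 1) ?_ (by norm_num)
    rw [one_smul]
    exact hN z hz
  refine (setIntegral_mono_on (LC5_int e μ (LC5_cdt e hP).abs r) (LC5_int e μ (LC5_cdt e hPt) r)
    (isOpen_qb e r).measurableSet fun z hz => abs_dt_le e (hoo z) (hN z (LC5_sub_qb e hr hR hz))).trans ?_
  exact h b φ 2 (by norm_num) le_rfl hb hbA hφ hN' hO

theorem weak_cont {r R : ℝ} (hr : 0 < r) (hR : r < R) (O A : ℝ) {χ : H → ℝ} (hχ : ContDiff ℝ ∞ χ)
    (hχs : tsupport χ ⊆ qb e r) : ∃ C : ℝ, 0 ≤ C ∧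
    ∀ (b : H → Bil H) (φ0 φ1 : H → ℝ) (ε s : ℝ), Fld b (qb e R) → (∀ z ∈ qb e R, ‖b z‖ ≤ A) →
      ContDiff ℝ ∞ φ0 → ContDiff ℝ ∞ φ1 → 0 ≤ ε → ε ≤ 1 →
      (∀ z ∈ qb e R, Nn (b z + ddc φ0 z + ε • w0 e)) → (∀ z ∈ qb e R, Nn (b z + ddc φ1 z + ε • w0 e)) →
      (∀ z ∈ qb e R, |φ0 z| ≤ O) → (∀ z ∈ qb e R, |φ1 z| ≤ O) → (∀ z ∈ qb e r, |φ1 z - φ0 z| ≤ s) →
      |∫ z, χ z * (dt e (b z + ddc φ1 z) - dt e (b z + ddc φ0 z)) ∂μ| ≤ C * (s + ε) := by
  obtain ⟨C1, hC1, hmass⟩ := LC5_mass e μ hr hR O A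
  obtain ⟨C2, hC2, herr⟩ := LC5_err e μ hr hR O A
  obtain ⟨M, hM, hχM⟩ := LC5_bound e hχ.continuous r
  obtain ⟨D, hD, hχD⟩ := LC5_bound e (LC5_cddc hχ) r
  obtain ⟨C3, hC3, hform⟩ := form_le e
  have hcs := LC5_cs e hχs
  have hsR : tsupport χ ⊆ qb e R := fun z hz => LC5_sub_qb e hr hR (hχs hz)
  have hχ0 : ∀ z, z ∉ qb e r → χ z = 0 := fun z hz => image_eq_zero_of_notMem_tsupport fun h => hz (hχs h)
  have hd0 : ∀ z, z ∉ qb e r → ddc χ z = 0 := fun z hz => LC5_off fun h => hz (hχs h)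
  refine ⟨C3 * D * C1 + 2 * (M * n * C2), by positivity,
    fun b φ0 φ1 ε s hb hbA hφ0 hφ1 hε0 hε1 hN0 hN1 hO0 hO1 hs => ?_⟩
  have hs0 : 0 ≤ s := by
    have h0 : (0 : H) ∈ qb e r := by
      show qf e 0 < r ^ 2
      rw [qf_zero]
      positivity
    exact (abs_nonneg _).trans (hs 0 h0)
  have hf : ContDiff ℝ ∞ fun z => φ1 z - φ0 z := hφ1.sub hφ0
  set f : H → ℝ := fun z => φ1 z - φ0 z with hfdef
  have hfd : ∀ z, ddc f z = ddc φ1 z - ddc φ0 z := LC5_sub hφ1 hφ0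
  -- the path
  have hb1 : Fld (fun z => (b z + (1 : ℝ) • ddc φ0 z) + ε • w0 e) (qb e R) :=
    Fld.add_w0 e (hb.add_ddc hφ0 1) ε
  have hpath := path e μ (isOpen_qb e R) hb1 hf hχ hcs hsR
  have hb2 : ∀ z, (b z + (1 : ℝ) • ddc φ0 z) + ε • w0 e = b z + ddc φ0 z + ε • w0 e := fun z => by
    rw [one_smul]
  simp only [hb2] at hpath
  have hb3 : ∀ z, b z + ddc φ0 z + ε • w0 e + ddc f z = b z + ddc φ1 z + ε • w0 e := fun z => by
    rw [hfd]
    abel
  simp only [hb3] at hpath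
  have hc0 : Continuous fun z => b z + ddc φ0 z := hb.sm.continuous.add (LC5_cddc hφ0)
  have hc1 : Continuous fun z => b z + ddc φ1 z := hb.sm.continuous.add (LC5_cddc hφ1)
  have hc0e : Continuous fun z => b z + ddc φ0 z + ε • w0 e := hc0.add continuous_const
  have hc1e : Continuous fun z => b z + ddc φ1 z + ε • w0 e := hc1.add continuous_const
  have hA : |∫ z, χ z * (dt e (b z + ddc φ1 z + ε • w0 e) - dt e (b z + ddc φ0 z + ε • w0 e)) ∂μ| ≤
      C3 * D * C1 * s := by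
    rw [hpath]
    have hkey : ∀ t ∈ Set.uIoc (0 : ℝ) 1,
        ‖∫ z, f z * cf e (b z + ddc φ0 z + ε • w0 e + t • ddc f z) (ddc χ z) ∂μ‖ ≤ C3 * D * C1 * s := by
      intro t ht
      rw [Set.uIoc_of_le zero_le_one] at ht
      have ht0 : 0 ≤ t := ht.1.le
      have ht1 : t ≤ 1 := ht.2
      rw [Real.norm_eq_abs]
      have hct : Continuous fun z => b z + ddc φ0 z + ε • w0 e + t • ddc f z :=
        hc0e.add ((LC5_cddc hf).const_smul t)
      have hψ : ContDiff ℝ ∞ fun z => φ0 z + t * f z := hφ0.add (contDiff_const.mul hf)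
      have hψd : ∀ z, ddc (fun z => φ0 z + t * f z) z = ddc φ0 z + t • ddc f z := LC5_addmul hφ0 hf t
      have hNt : ∀ z ∈ qb e R, Nn (b z + ddc φ0 z + ε • w0 e + t • ddc f z) := fun z hz => by
        have h1 := LC5_Nadd (LC5_Nsmul (hN0 z hz) (sub_nonneg.2 ht1)) (LC5_Nsmul (hN1 z hz) ht0)
        have h2 : (1 - t) • (b z + ddc φ0 z + ε • w0 e) + t • (b z + ddc φ1 z + ε • w0 e) =
            b z + ddc φ0 z + ε • w0 e + t • ddc f z := by
          rw [hfd]
          module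
        rwa [h2] at h1
      have hot : ∀ z, O11 (b z + ddc φ0 z + ε • w0 e + t • ddc f z) := fun z =>
        O11_add (O11_add (O11_add (hb.oo z) (O11_ddc (LC5_two hφ0 z))) (O11_smul _ (w0_O11 e)))
          (O11_smul _ (O11_ddc (LC5_two hf z)))
      have h1 : |∫ z, f z * cf e (b z + ddc φ0 z + ε • w0 e + t • ddc f z) (ddc χ z) ∂μ| ≤
          (s * (C3 * D)) * ∫ z in qb e r, dt e (b z + ddc φ0 z + ε • w0 e + t • ddc f z + w0 e) ∂μ := by
        refine LC5_cfi e μ hct (LC5_cddc hχ) hf.continuous hot (fun z => O11_ddc (LC5_two hχ z))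
          (fun z hz => hNt z (LC5_sub_qb e hr hR hz)) hd0 hs0 (by positivity) hs fun z hz v => ?_
        refine (hform (ddc χ z) v).trans ?_
        have h3 : C3 * ‖ddc χ z‖ ≤ C3 * D := mul_le_mul_of_nonneg_left (hχD z hz) hC3.le
        exact mul_le_mul_of_nonneg_right h3 (qf_nonneg e v)
      have h5 : ∀ z, b z + ddc (fun z => φ0 z + t * f z) z + (ε + 1) • w0 e =
          b z + ddc φ0 z + ε • w0 e + t • ddc f z + w0 e := fun z => by
        rw [hψd, add_smul, one_smul]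
        abel
      have h6 := hmass b (fun z => φ0 z + t * f z) (ε + 1) (by linarith) (by linarith) hb hbA hψ
        (fun z hz => by
          rw [h5]
          exact LC5_Nadd (hNt z hz) (LC5_Nw e)) (fun z hz => by
          have h7 : φ0 z + t * f z = (1 - t) * φ0 z + t * φ1 z := by
            show φ0 z + t * (φ1 z - φ0 z) = (1 - t) * φ0 z + t * φ1 z
            ring
          rw [h7]
          calc |(1 - t) * φ0 z + t * φ1 z| ≤ |(1 - t) * φ0 z| + |t * φ1 z| := abs_add_le _ _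
            _ = (1 - t) * |φ0 z| + t * |φ1 z| := by
              rw [abs_mul, abs_mul, abs_of_nonneg (sub_nonneg.2 ht1), abs_of_nonneg ht0]
            _ ≤ (1 - t) * O + t * O := add_le_add
              (mul_le_mul_of_nonneg_left (hO0 z hz) (sub_nonneg.2 ht1))
              (mul_le_mul_of_nonneg_left (hO1 z hz) ht0)
            _ = O := by ring)
      simp only [h5] at h6
      calc |∫ z, f z * cf e (b z + ddc φ0 z + ε • w0 e + t • ddc f z) (ddc χ z) ∂μ|
          ≤ (s * (C3 * D)) * ∫ z in qb e r, dt e (b z + ddc φ0 z + ε • w0 e + t • ddc f z + w0 e) ∂μ := h1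
        _ ≤ (s * (C3 * D)) * C1 := mul_le_mul_of_nonneg_left h6 (by positivity)
        _ = C3 * D * C1 * s := by ring
    have h8 := intervalIntegral.norm_integral_le_of_norm_le_const hkey
    rw [Real.norm_eq_abs, sub_zero, abs_one, mul_one] at h8
    exact h8
  have hB1 := herr b φ1 χ ε M hb hbA hφ1 hε0 hε1 hN1 hO1 hχ.continuous hχ0 hM hχM
  have hB0 := herr b φ0 χ ε M hb hbA hφ0 hε0 hε1 hN0 hO0 hχ.continuous hχ0 hM hχM
  have hi : ∀ {g : H → ℝ}, Continuous g → Integrable (fun z => χ z * g z) μ := fun hg =>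
    (hχ.continuous.mul hg).integrable_of_hasCompactSupport hcs.mul_right
  have hsplit : ∫ z, χ z * (dt e (b z + ddc φ1 z) - dt e (b z + ddc φ0 z)) ∂μ =
      (∫ z, χ z * (dt e (b z + ddc φ1 z + ε • w0 e) - dt e (b z + ddc φ0 z + ε • w0 e)) ∂μ) -
      (∫ z, χ z * (dt e (b z + ddc φ1 z + ε • w0 e) - dt e (b z + ddc φ1 z)) ∂μ) +
      (∫ z, χ z * (dt e (b z + ddc φ0 z + ε • w0 e) - dt e (b z + ddc φ0 z)) ∂μ) := by
    have i1 : Integrable (fun z => χ z * (dt e (b z + ddc φ1 z + ε • w0 e) -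
        dt e (b z + ddc φ0 z + ε • w0 e))) μ := hi ((LC5_cdt e hc1e).sub (LC5_cdt e hc0e))
    have i2 : Integrable (fun z => χ z * (dt e (b z + ddc φ1 z + ε • w0 e) - dt e (b z + ddc φ1 z))) μ :=
      hi ((LC5_cdt e hc1e).sub (LC5_cdt e hc1))
    have i3 : Integrable (fun z => χ z * (dt e (b z + ddc φ0 z + ε • w0 e) - dt e (b z + ddc φ0 z))) μ :=
      hi ((LC5_cdt e hc0e).sub (LC5_cdt e hc0))
    have i12 := integral_sub i1 i2
    have i123 := integral_add (i1.sub i2) i3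
    rw [← i12]
    refine Eq.trans ?_ i123
    congr 1
    funext z
    show χ z * (dt e (b z + ddc φ1 z) - dt e (b z + ddc φ0 z)) =
      χ z * (dt e (b z + ddc φ1 z + ε • w0 e) - dt e (b z + ddc φ0 z + ε • w0 e)) -
      χ z * (dt e (b z + ddc φ1 z + ε • w0 e) - dt e (b z + ddc φ1 z)) +
      χ z * (dt e (b z + ddc φ0 z + ε • w0 e) - dt e (b z + ddc φ0 z))
    ring
  rw [hsplit]
  have h9 := abs_le.1 hA
  have h10 := abs_le.1 hB1
  have h11 := abs_le.1 hB0
  have h12 : 0 ≤ C3 * D * C1 * ε := by positivity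
  have h13 : 0 ≤ 2 * (M * n * C2) * s := by positivity
  rw [abs_le]
  constructor <;> nlinarith [h9.1, h9.2, h10.1, h10.2, h11.1, h11.2]

theorem energy {r R : ℝ} (hr : 0 < r) (hR : r < R) (O A : ℝ) : ∃ C : ℝ, 0 ≤ C ∧
    ∀ (b : H → Bil H) (φ f : H → ℝ) (ε : ℝ), Fld b (qb e R) → (∀ z ∈ qb e R, ‖b z‖ ≤ A) →
      ContDiff ℝ ∞ φ → ContDiff ℝ ∞ f → tsupport f ⊆ qb e r → 0 ≤ ε → ε ≤ 1 →
      (∀ z ∈ qb e R, Nn (b z + ddc φ z + ε • w0 e)) → (∀ z ∈ qb e R, Nn (b z + ddc φ z + ddc f z + ε • w0 e)) →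
      (∀ z ∈ qb e R, |φ z| ≤ O) → (∀ z, 0 ≤ f z) → (∀ z, f z ≤ O) →
      ∫ z, f z * dt e (b z + ddc φ z + ddc f z) ∂μ ≤
        (∫ s in (0 : ℝ)..1, ∫ z, f z * dt e (b z + ddc φ z + s • ddc f z) ∂μ) + C * ε := by
  obtain ⟨C2, hC2, herr⟩ := LC5_err e μ hr hR (2 * |O|) A
  refine ⟨2 * (|O| * n * C2), by positivity,
    fun b φ f ε hb hbA hφ hf hfs hε0 hε1 hN0 hN1 hO hf0 hfO => ?_⟩
  have hcs := LC5_cs e hfs
  have hsR : tsupport f ⊆ qb e R := fun z hz => LC5_sub_qb e hr hR (hfs hz)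
  have hz0 : ∀ z, z ∉ qb e r → f z = 0 := fun z hz => image_eq_zero_of_notMem_tsupport fun h => hz (hfs h)
  have hfO' : ∀ z, |f z| ≤ |O| := fun z => by
    rw [abs_of_nonneg (hf0 z)]
    exact (hfO z).trans (le_abs_self O)
  have hb1 : Fld (fun z => (b z + (1 : ℝ) • ddc φ z) + ε • w0 e) (qb e R) :=
    Fld.add_w0 e (hb.add_ddc hφ 1) ε
  have hb2 : ∀ z, (b z + (1 : ℝ) • ddc φ z) + ε • w0 e = b z + ddc φ z + ε • w0 e := fun z => by
    rw [one_smul]
  have hi : ∀ {g : H → ℝ}, Continuous g → Integrable (fun z => f z * g z) μ := fun hg =>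
    (hf.continuous.mul hg).integrable_of_hasCompactSupport hcs.mul_right
  have hcP : ∀ t : ℝ, Continuous fun z => b z + ddc φ z + t • ddc f z := fun t =>
    (hb.sm.continuous.add (LC5_cddc hφ)).add ((LC5_cddc hf).const_smul t)
  -- the errors
  have hE : ∀ t : ℝ, 0 ≤ t → t ≤ 1 →
      |(∫ z, f z * dt e (b z + ddc φ z + ε • w0 e + t • ddc f z) ∂μ) -
        ∫ z, f z * dt e (b z + ddc φ z + t • ddc f z) ∂μ| ≤ |O| * n * C2 * ε := by
    intro t ht0 ht1
    have hψ : ContDiff ℝ ∞ fun z => φ z + t * f z := hφ.add (contDiff_const.mul hf)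
    have hψd : ∀ z, ddc (fun z => φ z + t * f z) z = ddc φ z + t • ddc f z := LC5_addmul hφ hf t
    have h5 : ∀ z, b z + ddc (fun z => φ z + t * f z) z = b z + ddc φ z + t • ddc f z := fun z => by
      rw [hψd]
      abel
    have h6 : ∀ z, b z + ddc φ z + ε • w0 e + t • ddc f z =
        b z + ddc φ z + t • ddc f z + ε • w0 e := fun z => by abel
    have h7 := herr b (fun z => φ z + t * f z) f ε |O| hb hbA hψ hε0 hε1 (fun z hz => by
      have h1 := LC5_Nadd (LC5_Nsmul (hN0 z hz) (sub_nonneg.2 ht1)) (LC5_Nsmul (hN1 z hz) ht0)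
      have h2 : (1 - t) • (b z + ddc φ z + ε • w0 e) + t • (b z + ddc φ z + ddc f z + ε • w0 e) =
          b z + ddc (fun z => φ z + t * f z) z + ε • w0 e := by
        rw [hψd]
        module
      rwa [h2] at h1) (fun z hz => by
      calc |φ z + t * f z| ≤ |φ z| + |t * f z| := abs_add_le _ _
        _ ≤ |O| + 1 * |O| := by
          refine add_le_add ((hO z hz).trans (le_abs_self O)) ?_
          rw [abs_mul, abs_of_nonneg ht0]
          exact mul_le_mul ht1 (hfO' z) (abs_nonneg _) zero_le_one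
        _ = 2 * |O| := by ring) hf.continuous hz0 (abs_nonneg _) (fun z _ => hfO' z)
    simp only [h5] at h7
    simp only [h6]
    have hcPe : Continuous fun z => b z + ddc φ z + t • ddc f z + ε • w0 e := (hcP t).add continuous_const
    rw [← integral_sub (hi (LC5_cdt e hcPe)) (hi (LC5_cdt e (hcP t)))]
    simp only [mul_sub] at h7
    exact h7
  -- for every `s`
  have hkey : ∀ s ∈ Set.Icc (0 : ℝ) 1, ∫ z, f z * dt e (b z + ddc φ z + ddc f z) ∂μ ≤
      (∫ z, f z * dt e (b z + ddc φ z + s • ddc f z) ∂μ) + 2 * (|O| * n * C2) * ε := by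
    intro s hs
    have hp := path_f e μ (isOpen_qb e R) hb1 hf hcs hsR (fun z hz => by
      show Nn ((b z + (1 : ℝ) • ddc φ z) + ε • w0 e)
      rw [hb2]
      exact hN0 z hz) (fun z hz => by
      show Nn ((b z + (1 : ℝ) • ddc φ z) + ε • w0 e + ddc f z)
      rw [hb2]
      have h1 : b z + ddc φ z + ε • w0 e + ddc f z = b z + ddc φ z + ddc f z + ε • w0 e := by abel
      rw [h1]
      exact hN1 z hz) hs.1 hs.2
    simp only [hb2] at hp
    have e1 := abs_le.1 (hE 1 zero_le_one le_rfl)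
    have e2 := abs_le.1 (hE s hs.1 hs.2)
    simp only [one_smul] at e1
    nlinarith [e1.1, e1.2, e2.1, e2.2]
  have hcont : Continuous fun s : ℝ => ∫ z, f z * dt e (b z + ddc φ z + s • ddc f z) ∂μ := by
    have hK : IsCompact {z : H | qf e z ≤ r ^ 2} := isCompact_qb e r
    have h1 : ∀ s : ℝ, ∫ z in {z : H | qf e z ≤ r ^ 2}, f z * dt e (b z + ddc φ z + s • ddc f z) ∂μ =
        ∫ z, f z * dt e (b z + ddc φ z + s • ddc f z) ∂μ := by
      intro s
      refine setIntegral_eq_integral_of_forall_compl_eq_zero fun z hz => ?_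
      have h3 : z ∉ qb e r := fun (h : qf e z < r ^ 2) => hz h.le
      rw [hz0 z h3, zero_mul]
    simp only [← h1]
    refine continuous_parametric_integral_of_continuous ?_ hK
    have h2 : Continuous fun p : ℝ × H => b p.2 + ddc φ p.2 + p.1 • ddc f p.2 :=
      ((hb.sm.continuous.comp continuous_snd).add ((LC5_cddc hφ).comp continuous_snd)).add
        (continuous_fst.smul ((LC5_cddc hf).comp continuous_snd))
    exact (hf.continuous.comp continuous_snd).mul ((dt_smooth e).continuous.comp h2)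
  have hfin := intervalIntegral.integral_mono_on (μ := volume) (a := 0) (b := 1) zero_le_one
    (f := fun _ : ℝ => ∫ z, f z * dt e (b z + ddc φ z + ddc f z) ∂μ)
    (g := fun s : ℝ => (∫ z, f z * dt e (b z + ddc φ z + s • ddc f z) ∂μ) + 2 * (|O| * n * C2) * ε)
    intervalIntegrable_const ((hcont.add continuous_const).intervalIntegrable _ _) hkey
  rw [intervalIntegral.integral_const, sub_zero, one_smul,
    intervalIntegral.integral_add (hcont.intervalIntegrable _ _) intervalIntegrable_const,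
    intervalIntegral.integral_const, sub_zero, one_smul] at hfin
  exact hfin

end HDG
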