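import Pool.Agent.HDG.GL1
import Pool.Agent.HDG.LC5
import Pool.Agent.HDG.LA5

/-!
# HDG/GL2: the local step

The solution of the obstacle problem with the obstacle `min (τ u) (h - φ)` for the form `b + dd^c φ + ε w0`, weak continuity
(`weak_cont`), the perturbation estimate (`pert`, `mass_bound`) and the energy inequality (`energy`) are combined. The limit
density is concentrated on the two contact sets `P = τ` and `P = h - φ` (`GL2_limit`).
-/

set_option autoImplicit false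
set_option maxSynthPendingDepth 3

noncomputable section

open scoped ContDiff ComplexOrder Topology

open MeasureTheory Filter

namespace HDG

open Pool.Agent.FBR

section

variable {G : Type*} [NormedAddCommGroup G] [NormedSpace ℝ G]

private theorem GL2_norm_add (a s : Bil G) {R t : ℝ} (ha : ‖a‖ ≤ R) (hs : ‖s‖ ≤ t) : ‖a + s‖ ≤ R + t :=
  (norm_add_le _ _).trans (add_le_add ha hs)

private theorem GL2_norm_smul (s : Bil G) {t : ℝ} (ht : 0 ≤ t) : ‖t • s‖ = t * ‖s‖ := by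
  rw [norm_smul, Real.norm_of_nonneg ht]

private theorem GL2_alg1 (a p q w : Bil G) (t : ℝ) : a + t • w + (p + q) = a + p + q + t • w := by
  abel

private theorem GL2_alg2 (a p q w : Bil G) (s t : ℝ) : a + p + s • w + q + t • w = a + p + q + (s + t) • w := by
  rw [add_smul]
  abel

private theorem GL2_alg3 (a p q w : Bil G) (s : ℝ) : a + p + s • w + q = a + p + q + s • w := by
  abel

private theorem GL2_alg4 (a p q w : Bil G) (s : ℝ) : a + p + s • w + (q - p) = a + q + s • w := by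
  abel

private theorem GL2_alg5 (a w : Bil G) (s t : ℝ) : a + s • w + t • w = a + (s + t) • w := by
  rw [add_smul, add_assoc]

end

variable {H : Type*} [NormedAddCommGroup H] [NormedSpace ℂ H] {n : ℕ} (e : Module.Basis (Fin n) ℂ H)
  [FiniteDimensional ℂ H] [MeasurableSpace H] [BorelSpace H] (μ : Measure H) [μ.IsAddHaarMeasure]

private theorem GL2_ddc_smooth {f : H → ℝ} (hf : ContDiff ℝ ∞ f) : ContDiff ℝ ∞ (ddc f) :=
  contDiff_iff_contDiffAt.2 fun _ => ddc_smooth hf.contDiffAt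

private theorem GL2_two {f : H → ℝ} (hf : ContDiff ℝ ∞ f) (z : H) : ContDiffAt ℝ 2 f z :=
  hf.contDiffAt.of_le (WithTop.coe_le_coe.2 (le_top : (2 : ℕ∞) ≤ ⊤))

private theorem GL2_ddc_add {f g : H → ℝ} (hf : ContDiff ℝ ∞ f) (hg : ContDiff ℝ ∞ g) (z : H) :
    ddc (fun z => f z + g z) z = ddc f z + ddc g z :=
  ddc_add (GL2_two hf z) (GL2_two hg z)

private theorem GL2_ddc_sub {f g : H → ℝ} (hf : ContDiff ℝ ∞ f) (hg : ContDiff ℝ ∞ g) (z : H) :
    ddc (fun z => f z - g z) z = ddc f z - ddc g z := by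
  have h1 : ContDiff ℝ ∞ fun z => f z - g z := hf.sub hg
  have h2 := GL2_ddc_add h1 hg z
  have h3 : (fun z => f z - g z + g z) = f := by
    funext z
    ring
  rw [h3] at h2
  rw [h2]
  abel

private theorem GL2_Nn_add {a b : Bil H} (ha : Nn a) (hb : Nn b) : Nn (a + b) := fun v => by
  have h := add_nonneg (ha v) (hb v)
  exact h

private theorem GL2_Nn_w0 {t : ℝ} (ht : 0 ≤ t) : Nn (t • (w0 e : Bil H)) := fun v => by
  have h : (t • (w0 e : Bil H)) v (Complex.I • v) = t * w0 e v (Complex.I • v) := rfl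
  rw [h, w0_self]
  exact mul_nonneg ht (qf_nonneg e v)

private theorem GL2_Nn_mono {a : Bil H} {s t : ℝ} (ha : Nn (a + s • w0 e)) (hst : s ≤ t) : Nn (a + t • w0 e) := by
  have h := GL2_Nn_add ha (GL2_Nn_w0 e (sub_nonneg.2 hst))
  rw [GL2_alg5, add_sub_cancel] at h
  exact h

private theorem GL2_Nn_one {a : Bil H} {s : ℝ} (ha : Nn (a + s • w0 e)) (hst : s ≤ 1) : Nn (a + w0 e) := by
  have h := GL2_Nn_mono e ha hst
  rwa [one_smul] at h

private theorem GL2_qc (r : ℝ) : (qb e r : Set H) ⊆ {z | qf e z ≤ r ^ 2} := fun z hz => by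
  have h : qf e z < r ^ 2 := hz
  exact h.le

private theorem GL2_cs {f : H → ℝ} {r : ℝ} (hf : tsupport f ⊆ qb e r) : HasCompactSupport f :=
  (isCompact_qb e r).of_isClosed_subset (isClosed_tsupport f) (hf.trans (GL2_qc e r))

private theorem GL2_int {f g : H → ℝ} (hf : Continuous f) (hc : HasCompactSupport f) (hg : Continuous g) :
    Integrable (fun z => f z * g z) μ :=
  (hf.mul hg).integrable_of_hasCompactSupport hc.mul_right

private theorem GL2_qb {r s : ℝ} (hr : 0 ≤ r) (hrs : r ≤ s) : (qb e r : Set H) ⊆ qb e s := fun z hz => by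
  have h1 : qf e z < r ^ 2 := hz
  have h2 : r ^ 2 ≤ s ^ 2 := pow_le_pow_left₀ hr hrs 2
  exact lt_of_lt_of_le h1 h2

private theorem GL2_fin (r : ℝ) : μ (qb e r : Set H) < ⊤ :=
  (measure_mono (GL2_qc e r)).trans_lt (isCompact_qb e r).measure_lt_top

private theorem GL2_iOn {g : H → ℝ} (hg : Continuous g) (r : ℝ) : IntegrableOn g (qb e r) μ :=
  (hg.continuousOn.integrableOn_compact (isCompact_qb e r)).mono_set (GL2_qc e r)

/-- the error of the perturbation by `ε w0` -/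
private theorem GL2_pert {r : ℝ} (hr0 : 0 ≤ r) (hr : r ≤ 3) {a : H → Bil H} (ha : Continuous a)
    (hoo : ∀ z, O11 (a z)) (hn : ∀ z ∈ qb e 3, Nn (a z + w0 e)) {f : H → ℝ} {F0 C ε : ℝ} (hf : Continuous f)
    (hs : tsupport f ⊆ qb e r) (hf0 : ∀ z, 0 ≤ f z) (hf1 : ∀ z, f z ≤ F0) (hε : 0 ≤ ε) (hε1 : ε ≤ 1)
    (hC : ∫ z in qb e r, dt e (a z + (2 : ℝ) • w0 e) ∂μ ≤ C) :
    |∫ z, f z * dt e (a z + ε • w0 e) ∂μ - ∫ z, f z * dt e (a z) ∂μ| ≤ n * ε * (F0 * C) := by
  have hF0 : 0 ≤ F0 := (hf0 0).trans (hf1 0)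
  have hcf := GL2_cs e hs
  have hdt := (dt_smooth (H := H) e).continuous
  have ca : ∀ t : ℝ, Continuous fun z => dt e (a z + t • w0 e) := fun t =>
    hdt.comp (ha.add continuous_const)
  have i1 : Integrable (fun z => f z * dt e (a z + ε • w0 e)) μ := GL2_int μ hf hcf (ca ε)
  have i0 : Integrable (fun z => f z * dt e (a z)) μ := GL2_int μ hf hcf (hdt.comp ha)
  have i2 : Integrable (fun z => f z * dt e (a z + (2 : ℝ) • w0 e)) μ := GL2_int μ hf hcf (ca 2)
  have hsub := GL2_qb e hr0 hr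
  have hfz : ∀ z, z ∉ qb e r → f z = 0 := fun z hz => image_eq_zero_of_notMem_tsupport fun h => hz (hs h)
  have hnn : ∀ z ∈ qb e 3, 0 ≤ dt e (a z + (2 : ℝ) • w0 e) := by
    intro z hz
    refine dt_nonneg e (O11_add (hoo z) (O11_smul 2 (w0_O11 e))) ?_
    refine GL2_Nn_mono e (s := 1) ?_ (by norm_num)
    rw [one_smul]
    exact hn z hz
  rw [← integral_sub i1 i0]
  have h1 : |∫ z, (f z * dt e (a z + ε • w0 e) - f z * dt e (a z)) ∂μ| ≤
      ∫ z, n * ε * (f z * dt e (a z + (2 : ℝ) • w0 e)) ∂μ := by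
    rw [← Real.norm_eq_abs]
    refine norm_integral_le_of_norm_le (i2.const_mul _) (Filter.Eventually.of_forall fun z => ?_)
    rw [Real.norm_eq_abs, ← mul_sub, abs_mul, abs_of_nonneg (hf0 z)]
    by_cases hz : z ∈ qb e r
    · have h2 := mul_le_mul_of_nonneg_left (pert e (hoo z) (hn z (hsub hz)) hε hε1) (hf0 z)
      refine h2.trans (le_of_eq ?_)
      ring
    · rw [hfz z hz]
      simp
  refine h1.trans ?_
  rw [integral_const_mul]
  refine mul_le_mul_of_nonneg_left ?_ (by positivity)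
  have h3 : ∫ z, f z * dt e (a z + (2 : ℝ) • w0 e) ∂μ = ∫ z in qb e r, f z * dt e (a z + (2 : ℝ) • w0 e) ∂μ := by
    refine (setIntegral_eq_integral_of_forall_compl_eq_zero fun z hz => ?_).symm
    rw [hfz z hz, zero_mul]
  rw [h3]
  have h4 : ∫ z in qb e r, f z * dt e (a z + (2 : ℝ) • w0 e) ∂μ ≤
      ∫ z in qb e r, F0 * dt e (a z + (2 : ℝ) • w0 e) ∂μ := by
    refine setIntegral_mono_on i2.integrableOn ((GL2_iOn e μ (ca 2) r).const_mul F0) (isOpen_qb e r).measurableSet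
      fun z hz => ?_
    exact mul_le_mul_of_nonneg_right (hf1 z) (hnn z (hsub hz))
  refine h4.trans ?_
  rw [integral_const_mul]
  exact mul_le_mul_of_nonneg_left hC hF0

/-- the limit measure is controlled by the contact sets -/
private theorem GL2_limit {c1 : H → ℝ} (hc1 : ContDiff ℝ ∞ c1) (h0 : ∀ z, 0 ≤ c1 z) (h1 : ∀ z, c1 z ≤ 1)
    (hcs : tsupport c1 ⊆ {z | qf e z ≤ (3 / 2) ^ 2}) {A C3 : ℝ}
    (k3 : ∀ a s : Bil H, O11 a → O11 s → ‖a‖ ≤ 2 * |A| + ‖(w0 e : Bil H)‖ → ‖s‖ ≤ 2 * |A| + ‖(w0 e : Bil H)‖ →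
      pl e (a + s) ≤ pl e a + C3 * ‖s‖) (hC3 : 0 ≤ C3)
    {b : H → Bil H} {φ h u : H → ℝ} {τ ε : ℝ} (hb : ContDiff ℝ ∞ b) (hboo : ∀ z, O11 (b z))
    (hbA : ∀ z ∈ qb e 3, ‖b z‖ ≤ A) (hφ : ContDiff ℝ ∞ φ) (hh : ContDiff ℝ ∞ h)
    (hhA : ∀ z ∈ qb e 3, ‖ddc h z‖ ≤ A) (hu1 : ∀ z, u z ≤ 1) (hu2 : ∀ z, qf e z ≤ (3 / 2) ^ 2 → u z = 1)
    (hτ : 0 < τ) (hε : 0 < ε) (hε1 : ε ≤ 1 / 2)
    {P m : H → ℝ} {Pk : ℕ → H → ℝ} {B : ℝ}
    (hS : ObSol e μ (fun z => b z + ddc φ z + ε • w0 e) (fun z => h z - φ z) u τ P m Pk B) :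
    ∫ z in qb e 3, c1 z * m z ∂μ ≤ (∫ z in {z | h z - τ ≤ φ z}, c1 z * pl e (b z + ddc h z) ∂μ) +
      (1 / τ) * (∫ z in qb e 3, P z * m z ∂μ) + C3 * ‖(w0 e : Bil H)‖ * (μ (qb e 3)).toReal * ε := by
  classical
  have hcc : ContDiff ℝ ∞ fun z => b z + ddc φ z + ε • w0 e :=
    (hb.add (GL2_ddc_smooth hφ)).add contDiff_const
  have hoo : ∀ z, O11 (b z + ddc φ z + ε • w0 e) := fun z =>
    O11_add (O11_add (hboo z) (O11_ddc (GL2_two hφ z))) (O11_smul ε (w0_O11 e))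
  have hQm : MeasurableSet (qb e 3 : Set H) := (isOpen_qb e 3).measurableSet
  obtain ⟨⟨Cm, hCm⟩, hmi⟩ := hS.m_bd e μ hcc hoo
  have hmn := hS.m_nn e μ hcc hoo
  set S : Set H := {z | h z - τ ≤ φ z} with hSdef
  have hSm : MeasurableSet S :=
    (isClosed_le (hh.continuous.sub continuous_const) hφ.continuous).measurableSet
  have hsub : {z : H | qf e z ≤ (3 / 2) ^ 2} ⊆ qb e 3 := by
    intro z hz
    have hz' : qf e z ≤ (3 / 2) ^ 2 := hz
    show qf e z < (3 : ℝ) ^ 2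
    norm_num at hz' ⊢
    linarith
  have hc1z : ∀ z, z ∉ qb e 3 → c1 z = 0 := fun z hz =>
    image_eq_zero_of_notMem_tsupport fun h => hz (hsub (hcs h))
  -- the function with `pl`
  have hcont : Continuous fun z => b z + ddc h z := hb.continuous.add (GL2_ddc_smooth hh).continuous
  have hplm : Measurable fun z => pl e (b z + ddc h z) := pl_measurable e hcont
  obtain ⟨Cp, hCp, hpb⟩ := pl_bound (H := H) e (2 * |A|)
  have hbh : ∀ z ∈ qb e 3, ‖b z + ddc h z‖ ≤ 2 * |A| := by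
    intro z hz
    have h2 := GL2_norm_add (b z) (ddc h z) ((hbA z hz).trans (le_abs_self A)) ((hhA z hz).trans (le_abs_self A))
    linarith
  have hg : Integrable (fun z => c1 z * pl e (b z + ddc h z)) μ := by
    have hg1 : IntegrableOn (fun z => c1 z * pl e (b z + ddc h z)) (qb e 3) μ := by
      refine Measure.integrableOn_of_bounded (GL2_fin e μ 3).ne
        (hc1.continuous.measurable.mul hplm).aestronglyMeasurable (M := Cp) ?_
      refine (ae_restrict_iff' hQm).2 (Filter.Eventually.of_forall fun z hz => ?_)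
      rw [Real.norm_eq_abs, abs_mul, abs_of_nonneg (h0 z)]
      have h2 := hpb _ (hbh z hz)
      have h3 := mul_le_mul (h1 z) h2 (abs_nonneg _) zero_le_one
      rwa [one_mul] at h3
    refine (integrableOn_iff_integrable_of_support_subset ?_).1 hg1
    intro z hz
    by_contra hz'
    exact hz (by simp only [hc1z z hz', zero_mul])
  have hPm : IntegrableOn (fun z => P z * m z) (qb e 3) μ := by
    refine Integrable.bdd_mul (c := τ) hmi hS.cont.aestronglyMeasurable (Filter.Eventually.of_forall fun z => ?_)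
    rw [Real.norm_eq_abs, abs_of_nonneg (hS.p0 z)]
    exact (hS.pu z).trans (mul_le_of_le_one_right hτ.le (hu1 z))
  have hcm : IntegrableOn (fun z => c1 z * m z) (qb e 3) μ := by
    refine Integrable.bdd_mul (c := 1) hmi hc1.continuous.aestronglyMeasurable
      (Filter.Eventually.of_forall fun z => ?_)
    rw [Real.norm_eq_abs, abs_of_nonneg (h0 z)]
    exact h1 z
  have hgi : IntegrableOn (S.indicator fun z => c1 z * pl e (b z + ddc h z)) (qb e 3) μ :=
    (hg.indicator hSm).integrableOn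
  have hki : IntegrableOn (fun _ : H => C3 * ‖(w0 e : Bil H)‖ * ε) (qb e 3) μ :=
    integrableOn_const (GL2_fin e μ 3).ne
  -- the pointwise inequality
  have hpt : ∀ᵐ z ∂μ.restrict (qb e 3), c1 z * m z ≤
      ((S.indicator (fun z => c1 z * pl e (b z + ddc h z)) z) + (1 / τ) * (P z * m z)) +
        C3 * ‖(w0 e : Bil H)‖ * ε := by
    refine (ae_restrict_iff' hQm).2 ?_
    filter_upwards [hS.tri, hmn] with z htri hmz hz
    have hm0 := hmz hz
    have hind : 0 ≤ S.indicator (fun z => c1 z * pl e (b z + ddc h z)) z :=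
      Set.indicator_nonneg (fun z _ => mul_nonneg (h0 z)
        (pl_nonneg e (O11_add (hboo z) (O11_ddc (GL2_two hh z))))) z
    have hPmz : 0 ≤ (1 / τ) * (P z * m z) := mul_nonneg (by positivity) (mul_nonneg (hS.p0 z) hm0)
    have hcst : 0 ≤ C3 * ‖(w0 e : Bil H)‖ * ε := by positivity
    by_cases hcz : c1 z = 0
    · rw [hcz, zero_mul]
      linarith
    · have hqz : qf e z ≤ (3 / 2) ^ 2 := hcs (subset_tsupport c1 hcz)
      have huz := hu2 z hqz
      obtain ⟨_, hcase⟩ := htri hz huz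
      rcases hcase with hm | hP | ⟨hP, hN, hm⟩
      · rw [hm, mul_zero]
        rw [hm, mul_zero] at hPmz
        linarith
      · have h5 : (1 / τ) * (P z * m z) = m z := by
          rw [hP]
          field_simp
        have h6 : c1 z * m z ≤ m z := mul_le_of_le_one_left hm0 (h1 z)
        rw [h5]
        linarith
      · have hzS : z ∈ S := by
          have h5 : P z ≤ τ := by
            have h6 := hS.pu z
            rwa [huz, mul_one] at h6
          have h7 : P z = h z - φ z := hP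
          show h z - τ ≤ φ z
          linarith
        have h5 : b z + ddc φ z + ε • w0 e + ddc (fun z => h z - φ z) z = b z + ddc h z + ε • w0 e := by
          rw [GL2_ddc_sub hh hφ, GL2_alg4]
        rw [h5] at hm hN
        have h6 : m z ≤ pl e (b z + ddc h z) + C3 * ‖(w0 e : Bil H)‖ * ε := by
          rw [← pl_of_nn e hN] at hm
          have hw : ‖ε • (w0 e : Bil H)‖ = ε * ‖(w0 e : Bil H)‖ := GL2_norm_smul _ hε.le
          have hw0 : 0 ≤ ‖(w0 e : Bil H)‖ := norm_nonneg _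
          have h7 := k3 (b z + ddc h z) (ε • w0 e) (O11_add (hboo z) (O11_ddc (GL2_two hh z)))
            (O11_smul ε (w0_O11 e)) ((hbh z hz).trans (by linarith)) (by
              rw [hw]
              have h8 : ε * ‖(w0 e : Bil H)‖ ≤ 1 * ‖(w0 e : Bil H)‖ :=
                mul_le_mul_of_nonneg_right (by linarith) hw0
              have h9 := abs_nonneg A
              linarith)
          rw [hw] at h7
          calc m z ≤ _ := hm
            _ ≤ _ := h7
            _ = _ := by ring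
        rw [Set.indicator_of_mem hzS]
        have h7 := mul_le_mul_of_nonneg_left h6 (h0 z)
        have h8 : c1 z * (C3 * ‖(w0 e : Bil H)‖ * ε) ≤ C3 * ‖(w0 e : Bil H)‖ * ε :=
          mul_le_of_le_one_left hcst (h1 z)
        show c1 z * m z ≤ (c1 z * pl e (b z + ddc h z) + (1 / τ) * (P z * m z)) + C3 * ‖(w0 e : Bil H)‖ * ε
        nlinarith
  have ha1 : IntegrableOn (fun z => S.indicator (fun z => c1 z * pl e (b z + ddc h z)) z + (1 / τ) * (P z * m z))
      (qb e 3) μ := hgi.add (hPm.const_mul (1 / τ))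
  have hint := integral_mono_ae hcm (ha1.add hki) hpt
  refine hint.trans (le_of_eq ?_)
  have e1 : ∫ z in qb e 3, (((S.indicator (fun z => c1 z * pl e (b z + ddc h z)) z) + (1 / τ) * (P z * m z)) +
        C3 * ‖(w0 e : Bil H)‖ * ε) ∂μ =
      (∫ z in qb e 3, S.indicator (fun z => c1 z * pl e (b z + ddc h z)) z ∂μ) +
        (∫ z in qb e 3, (1 / τ) * (P z * m z) ∂μ) + ∫ z in qb e 3, C3 * ‖(w0 e : Bil H)‖ * ε ∂μ := by
    rw [integral_add ha1 hki, integral_add hgi (hPm.const_mul (1 / τ))]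
  have e2 : ∫ z in qb e 3, S.indicator (fun z => c1 z * pl e (b z + ddc h z)) z ∂μ =
      ∫ z in S, c1 z * pl e (b z + ddc h z) ∂μ := by
    rw [setIntegral_eq_integral_of_forall_compl_eq_zero, integral_indicator hSm]
    intro z hz
    by_cases hzS : z ∈ S
    · rw [Set.indicator_of_mem hzS, hc1z z hz, zero_mul]
    · rw [Set.indicator_of_notMem hzS]
  have e3 : ∫ z in qb e 3, C3 * ‖(w0 e : Bil H)‖ * ε ∂μ =
      C3 * ‖(w0 e : Bil H)‖ * (μ (qb e 3)).toReal * ε := by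
    rw [setIntegral_const, smul_eq_mul, Measure.real]
    ring
  have e4 : ∫ z in qb e 3, (1 / τ) * (P z * m z) ∂μ = (1 / τ) * ∫ z in qb e 3, P z * m z ∂μ :=
    integral_const_mul _ _
  refine Eq.trans ?_ (by rw [e1, e2, e3, e4] :
    ∫ z in qb e 3, (((S.indicator (fun z => c1 z * pl e (b z + ddc h z)) z) + (1 / τ) * (P z * m z)) +
        C3 * ‖(w0 e : Bil H)‖ * ε) ∂μ = _)
  rfl

theorem loc_step (A : ℝ) {c1 : H → ℝ} (hc1 : ContDiff ℝ ∞ c1) (h0 : ∀ z, 0 ≤ c1 z) (h1 : ∀ z, c1 z ≤ 1)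
    (hcs : tsupport c1 ⊆ {z | qf e z ≤ (3 / 2) ^ 2}) : ∃ C : ℝ, 0 ≤ C ∧
    ∀ (b : H → Bil H) (φ h : H → ℝ) (τ ε : ℝ), Fld b (qb e 3) → (∀ z ∈ qb e 3, ‖b z‖ ≤ A) →
      ContDiff ℝ ∞ φ → ContDiff ℝ ∞ h → (∀ z ∈ qb e 3, ‖ddc h z‖ ≤ A) → (∀ z ∈ qb e 3, |φ z| ≤ A) →
      (∀ z ∈ qb e 3, φ z ≤ h z) → 0 < τ → τ ≤ 1 → 0 < ε → ε ≤ 1 / 2 →
      (∀ z ∈ qb e 3, Nn (b z + ddc φ z + ε • w0 e)) →
      ∃ Pk : ℕ → H → ℝ, (∀ k, ContDiff ℝ ∞ (Pk k)) ∧ (∀ k, tsupport (Pk k) ⊆ qb e (5 / 2)) ∧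
        ∀ δ : ℝ, 0 < δ → ∀ᶠ k in atTop, (∀ z, 0 ≤ Pk k z ∧ Pk k z ≤ τ + δ) ∧
          (∀ z ∈ qb e 3, φ z + Pk k z ≤ h z + δ) ∧
          (∀ z ∈ qb e 3, Nn (b z + ddc φ z + ddc (Pk k) z + (ε + δ) • w0 e)) ∧
          ∫ z, c1 z * dt e (b z + ddc φ z) ∂μ ≤
            (∫ z in {z | h z - τ ≤ φ z}, c1 z * pl e (b z + ddc h z) ∂μ) + C * (τ + ε + ε / τ) +
            (1 / τ) * (∫ s in (0 : ℝ)..1, ∫ z, Pk k z * dt e (b z + ddc φ z + s • ddc (Pk k) z) ∂μ) + δ := by
  classical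
  have hs52 : {z : H | qf e z ≤ (3 / 2) ^ 2} ⊆ qb e (5 / 2) := by
    intro z hz
    have hz' : qf e z ≤ (3 / 2) ^ 2 := hz
    show qf e z < (5 / 2 : ℝ) ^ 2
    norm_num at hz' ⊢
    linarith
  have hc1s : tsupport c1 ⊆ qb e (5 / 2) := hcs.trans hs52
  obtain ⟨u, hu, hu0, hu1, hu2, hu3⟩ := exists_cut' (H := H) e (s := 3 / 2) (t := 7 / 4) (by norm_num) (by norm_num)
  have hus : tsupport u ⊆ qb e 2 := by
    have h2 : tsupport u ⊆ {z : H | qf e z ≤ (7 / 4 : ℝ) ^ 2} := by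
      refine closure_minimal ?_ (isCompact_qb e (7 / 4)).isClosed
      intro z hz
      by_contra hz'
      exact hz (hu3 z (le_of_lt (not_le.1 hz')))
    refine h2.trans fun z hz => ?_
    have hz' : qf e z ≤ (7 / 4 : ℝ) ^ 2 := hz
    show qf e z < (2 : ℝ) ^ 2
    norm_num at hz' ⊢
    linarith
  obtain ⟨C1, hC1, k1⟩ := weak_cont e μ (r := 5 / 2) (R := 3) (by norm_num) (by norm_num) (|A| + 2) A hc1 hc1s
  obtain ⟨C2, hC2, k2⟩ := mass_bound e μ (r := 5 / 2) (R := 3) (by norm_num) (by norm_num) (|A| + 2)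
    (A + 2 * ‖(w0 e : Bil H)‖)
  obtain ⟨C3, hC3, k3⟩ := pl_add_le (H := H) e (2 * |A| + ‖(w0 e : Bil H)‖)
  obtain ⟨C5, hC5, k5⟩ := energy e μ (r := 5 / 2) (R := 3) (by norm_num) (by norm_num) (|A| + 2) A
  set M3 : ℝ := (μ (qb e 3)).toReal with hM3
  have hM30 : 0 ≤ M3 := ENNReal.toReal_nonneg
  have hw0 : 0 ≤ ‖(w0 e : Bil H)‖ := norm_nonneg _
  refine ⟨C1 + n * C2 + C3 * ‖(w0 e : Bil H)‖ * M3 + (2 * n * C2 + C5), by positivity, ?_⟩
  intro b φ h τ ε hb hbA hφ hh hhA hφA hφh hτ hτ1 hε hε1 hnn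
  have hcc : ContDiff ℝ ∞ fun z => b z + ddc φ z + ε • w0 e :=
    (hb.sm.add (GL2_ddc_smooth hφ)).add contDiff_const
  have hoo0 : ∀ z, O11 (b z + ddc φ z) := fun z => O11_add (hb.oo z) (O11_ddc (GL2_two hφ z))
  have hoo : ∀ z, O11 (b z + ddc φ z + ε • w0 e) := fun z => O11_add (hoo0 z) (O11_smul ε (w0_O11 e))
  obtain ⟨P, m, Pk, B, hS⟩ := obstacle e μ (c := fun z => b z + ddc φ z + ε • w0 e) (ρ := fun z => h z - φ z)
    (u := u) (τ := τ) hcc hoo hnn (hh.sub hφ) (fun z hz => sub_nonneg.2 (hφh z hz)) hu hu0 hu1 hus hτ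
  refine ⟨Pk, hS.smk, hS.supk, fun δ hδ => ?_⟩
  have hlim := GL2_limit e μ hc1 h0 h1 hcs k3 hC3 hb.sm hb.oo hbA hφ hh hhA hu1 hu2 hτ hε hε1 hS
  -- the small number
  set K : ℝ := 2 * C1 + 1 + (1 + C5) / τ with hK
  have hKd : 0 ≤ (1 + C5) / τ := by positivity
  have hK1 : 1 ≤ K := by rw [hK]; linarith
  set d : ℝ := min (δ / K) (1 / 2) with hd
  have hd0 : 0 < d := lt_min (div_pos hδ (by linarith)) (by norm_num)
  have hd2 : d ≤ 1 / 2 := min_le_right _ _
  have hdK : d * K ≤ δ := by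
    have h2 : d ≤ δ / K := min_le_left _ _
    rwa [le_div_iff₀ (by linarith)] at h2
  have hdδ : d ≤ δ := by nlinarith
  have t1 := (hS.tend e μ hcc hoo hc1.continuous (hc1s.trans (GL2_qb e (by norm_num) (by norm_num)))).eventually
    (gt_mem_nhds (lt_add_of_pos_right _ hd0))
  have t2 := (hS.tendP e μ hcc hoo hu1 hτ).eventually (lt_mem_nhds (sub_lt_self _ hd0))
  filter_upwards [hS.lim d hd0, hS.nn d hd0, t1, t2] with k q1 q2 q3 q4
  have p0 : ∀ z, 0 ≤ Pk k z := hS.pk0 k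
  have pP : ∀ z, Pk k z ≤ P z + d := fun z => by
    have h2 := (abs_le.1 (q1 z)).2
    linarith
  have pτ : ∀ z, Pk k z ≤ τ + d := fun z => by
    have h2 := (hS.pu z).trans (mul_le_of_le_one_right hτ.le (hu1 z))
    linarith [pP z]
  have hn1 : ∀ z ∈ qb e 3, Nn (b z + ddc φ z + ddc (Pk k) z + (ε + d) • w0 e) := by
    intro z hz
    have h2 := q2 z hz
    rw [GL2_alg2] at h2
    exact h2
  refine ⟨fun z => ⟨p0 z, (pτ z).trans (by linarith)⟩, fun z hz => ?_, fun z hz => ?_, ?_⟩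
  · have h2 : P z ≤ h z - φ z := hS.pr z hz
    linarith [pP z]
  · exact GL2_Nn_mono e (hn1 z hz) (by linarith)
  -- the last assertion
  have hPk := hS.smk k
  have hsum : ContDiff ℝ ∞ fun z => φ z + Pk k z := hφ.add hPk
  have hdd : ∀ z, ddc (fun z => φ z + Pk k z) z = ddc φ z + ddc (Pk k) z := GL2_ddc_add hφ hPk
  have hφA' : ∀ z ∈ qb e 3, |φ z| ≤ |A| + 2 := fun z hz => by
    have h2 := hφA z hz
    have h3 := le_abs_self A
    linarith
  have hφPA : ∀ z ∈ qb e 3, |φ z + Pk k z| ≤ |A| + 2 := fun z hz => by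
    have h2 := hφA z hz
    have h3 := le_abs_self A
    have h4 := abs_add_le (φ z) (Pk k z)
    rw [abs_of_nonneg (p0 z)] at h4
    linarith [pτ z]
  have hooa : ∀ z, O11 (b z + ddc φ z + ddc (Pk k) z) := fun z =>
    O11_add (hoo0 z) (O11_ddc (GL2_two hPk z))
  have hca0 : Continuous fun z => b z + ddc φ z := hb.sm.continuous.add (GL2_ddc_smooth hφ).continuous
  have hca : Continuous fun z => b z + ddc φ z + ddc (Pk k) z := hca0.add (GL2_ddc_smooth hPk).continuous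
  have hna : ∀ z ∈ qb e 3, Nn (b z + ddc φ z + ddc (Pk k) z + w0 e) := fun z hz =>
    GL2_Nn_one e (hn1 z hz) (by linarith)
  have hdt := (dt_smooth (H := H) e).continuous
  -- the mass
  have hmass : ∫ z in qb e (5 / 2), dt e (b z + ddc φ z + ddc (Pk k) z + (2 : ℝ) • w0 e) ∂μ ≤ C2 := by
    have h2 := k2 (fun z => b z + (2 : ℝ) • w0 e) (fun z => φ z + Pk k z) (hb.add_w0 e 2) (fun z hz => by
      have h3 := GL2_norm_add (b z) ((2 : ℝ) • w0 e) (hbA z hz) (GL2_norm_smul (w0 e : Bil H) (by norm_num)).le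
      exact h3) hsum (fun z hz => by
      rw [hdd, GL2_alg1]
      refine GL2_Nn_mono e (s := 1) ?_ (by norm_num)
      rw [one_smul]
      exact hna z hz) hφPA
    refine le_trans (le_of_eq ?_) h2
    refine integral_congr_ae (Filter.Eventually.of_forall fun z => ?_)
    show dt e (b z + ddc φ z + ddc (Pk k) z + (2 : ℝ) • w0 e) =
      dt e (b z + (2 : ℝ) • w0 e + ddc (fun z => φ z + Pk k z) z)
    rw [hdd, GL2_alg1]
  -- (i)
  have s1 := k1 b φ (fun z => φ z + Pk k z) (ε + d) (τ + d) hb hbA hφ hsum (by linarith) (by linarith)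
    (fun z hz => GL2_Nn_mono e (hnn z hz) (by linarith)) (fun z hz => by
      rw [hdd, ← add_assoc]
      exact hn1 z hz) hφA' hφPA (fun z _ => by
      rw [add_sub_cancel_left, abs_of_nonneg (p0 z)]
      exact pτ z)
  have i0 : Integrable (fun z => c1 z * dt e (b z + ddc φ z)) μ :=
    GL2_int μ hc1.continuous (GL2_cs e hc1s) (hdt.comp hca0)
  have ia : Integrable (fun z => c1 z * dt e (b z + ddc φ z + ddc (Pk k) z)) μ :=
    GL2_int μ hc1.continuous (GL2_cs e hc1s) (hdt.comp hca)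
  have s1' : ∫ z, c1 z * dt e (b z + ddc φ z) ∂μ ≤
      ∫ z, c1 z * dt e (b z + ddc φ z + ddc (Pk k) z) ∂μ + C1 * (τ + d + (ε + d)) := by
    have h2 : ∫ z, c1 z * (dt e (b z + ddc (fun z => φ z + Pk k z) z) - dt e (b z + ddc φ z)) ∂μ =
        ∫ z, c1 z * dt e (b z + ddc φ z + ddc (Pk k) z) ∂μ - ∫ z, c1 z * dt e (b z + ddc φ z) ∂μ := by
      rw [← integral_sub ia i0]
      refine integral_congr_ae (Filter.Eventually.of_forall fun z => ?_)
      show c1 z * (dt e (b z + ddc (fun z => φ z + Pk k z) z) - dt e (b z + ddc φ z)) =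
        c1 z * dt e (b z + ddc φ z + ddc (Pk k) z) - c1 z * dt e (b z + ddc φ z)
      rw [hdd, ← add_assoc, mul_sub]
    rw [h2] at s1
    have h3 := (abs_le.1 s1).1
    linarith
  -- (ii)
  have s2 := GL2_pert e μ (by norm_num) (by norm_num) hca hooa hna (F0 := 1) (ε := ε) hc1.continuous hc1s h0 h1
    hε.le (by linarith) hmass
  -- (v)
  have s3 := GL2_pert e μ (by norm_num) (by norm_num) hca hooa hna (F0 := 2) (ε := ε) hPk.continuous (hS.supk k)
    p0 (fun z => (pτ z).trans (by linarith)) hε.le (by linarith) hmass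
  have s4 := k5 b φ (Pk k) (ε + d) hb hbA hφ hPk (hS.supk k) (by linarith) (by linarith)
    (fun z hz => GL2_Nn_mono e (hnn z hz) (by linarith)) hn1 hφA' p0 (fun z => by
      have h2 := abs_nonneg A
      linarith [pτ z])
  have ex : ∀ z, b z + ddc φ z + ε • w0 e + ddc (Pk k) z = b z + ddc φ z + ddc (Pk k) z + ε • w0 e := fun z =>
    GL2_alg3 _ _ _ _ _
  simp only [ex] at q3 q4
  set X1 := ∫ z, c1 z * dt e (b z + ddc φ z + ddc (Pk k) z) ∂μ
  set X2 := ∫ z, c1 z * dt e (b z + ddc φ z + ddc (Pk k) z + ε • w0 e) ∂μ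
  set Y1 := ∫ z, Pk k z * dt e (b z + ddc φ z + ddc (Pk k) z) ∂μ
  set Y2 := ∫ z, Pk k z * dt e (b z + ddc φ z + ddc (Pk k) z + ε • w0 e) ∂μ
  set L1 := ∫ z in qb e 3, c1 z * m z ∂μ
  set L2 := ∫ z in qb e 3, P z * m z ∂μ
  set X0 := ∫ z, c1 z * dt e (b z + ddc φ z) ∂μ
  set E := ∫ s in (0 : ℝ)..1, ∫ z, Pk k z * dt e (b z + ddc φ z + s • ddc (Pk k) z) ∂μ
  set Gp := ∫ z in {z | h z - τ ≤ φ z}, c1 z * pl e (b z + ddc h z) ∂μ
  have r1 := (abs_le.1 s2).1
  have r2 := (abs_le.1 s3).2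
  have hN : (0 : ℝ) ≤ n := Nat.cast_nonneg n
  have f1 : L2 ≤ E + (2 * n * C2 + C5) * ε + (1 + C5) * d := by nlinarith
  have f2 : (1 / τ) * L2 ≤ (1 / τ) * E + (2 * n * C2 + C5) * (ε / τ) + d * ((1 + C5) / τ) := by
    have h2 := mul_le_mul_of_nonneg_left f1 (by positivity : 0 ≤ 1 / τ)
    refine h2.trans (le_of_eq ?_)
    field_simp
  have f3 : X0 ≤ Gp + (1 / τ) * L2 + C3 * ‖(w0 e : Bil H)‖ * M3 * ε + d + n * ε * (1 * C2) +
      C1 * (τ + d + (ε + d)) := by linarith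
  have hετ : 0 ≤ ε / τ := by positivity
  have g1 : 0 ≤ C1 * (ε / τ) := by positivity
  have g2 : 0 ≤ n * C2 * τ := by positivity
  have g3 : 0 ≤ n * C2 * (ε / τ) := by positivity
  have g4 : 0 ≤ C3 * ‖(w0 e : Bil H)‖ * M3 * τ := by positivity
  have g5 : 0 ≤ C3 * ‖(w0 e : Bil H)‖ * M3 * (ε / τ) := by positivity
  have g6 : 0 ≤ (2 * n * C2 + C5) * τ := by positivity
  have g7 : 0 ≤ (2 * n * C2 + C5) * ε := by positivity
  have f4 : d * K = 2 * C1 * d + d + d * ((1 + C5) / τ) := by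
    rw [hK]
    ring
  have f5 : (C1 + n * C2 + C3 * ‖(w0 e : Bil H)‖ * M3 + (2 * n * C2 + C5)) * (τ + ε + ε / τ) =
      C1 * τ + C1 * ε + C1 * (ε / τ) + (n * C2 * τ + n * C2 * ε + n * C2 * (ε / τ)) +
      (C3 * ‖(w0 e : Bil H)‖ * M3 * τ + C3 * ‖(w0 e : Bil H)‖ * M3 * ε + C3 * ‖(w0 e : Bil H)‖ * M3 * (ε / τ)) +
      ((2 * n * C2 + C5) * τ + (2 * n * C2 + C5) * ε + (2 * n * C2 + C5) * (ε / τ)) := by ring
  rw [f5]
  have f6 : C1 * (τ + d + (ε + d)) = C1 * τ + C1 * ε + 2 * C1 * d := by ring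
  have f7 : (n : ℝ) * ε * (1 * C2) = n * C2 * ε := by ring
  rw [f6, f7] at f3
  linarith

end HDG
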