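import Pool.Agent.HDG.G9
import Pool.Agent.HDG.GL2

/-!
# HDG/G10: the step in one ball

`G10_den`, `G10_denp`: integrals of functions which are supported in one ball. `G10_nn`: the form
`b + dd (φ + f - δ) + K w` is nonnegative for the extension by zero `f` of a function `P` on the ball. `step`: the local
step (`loc_step`) for the local functions of `b`, `h`, `φ` gives functions `Pk k`; the function `φ + ext i (Pk k) - δ` is
admissible, so its energy is at most the energy of `φ` plus `κ`, and `En_diff`, `En_const` bound the last integral in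
`loc_step`; finally `δ → 0`.
-/

set_option autoImplicit false

noncomputable section

open scoped ContDiff Topology ENNReal

open MeasureTheory

namespace HDG

open Pool.Agent.FBR

variable {H : Type*} [NormedAddCommGroup H] [NormedSpace ℂ H] {n : ℕ} {e : Module.Basis (Fin n) ℂ H}
  [FiniteDimensional ℂ H] [MeasurableSpace H] [BorelSpace H] {μ : Measure H} [μ.IsAddHaarMeasure]
  {Y : Type*} [TopologicalSpace Y] [CompactSpace Y] [T2Space Y] [MeasurableSpace Y] [BorelSpace Y]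
  (B : BM e Y) {w b : B.I → H → Bil H} {ν : Measure Y}

namespace BM

omit [CompactSpace Y] [T2Space Y] in
private theorem G10_den (hw : B.Met w) (hν : B.IsVol μ w ν) {a : B.I → H → Bil H} (ha : B.IsT a) (i : B.I)
    {F : Y → ℝ} (hF : Measurable F) {g G : H → ℝ} (h0 : ∀ y, (∀ z ∈ qb e 4, B.ψ i z ≠ y) → F y = 0)
    (h1 : ∀ z ∈ qb e 4, F (B.ψ i z) = g z) (h2 : ∀ z ∈ qb e 4, g z ≠ 0 → G z = dt e (a i z))
    (h3 : ∀ z, z ∉ (qb e 4 : Set H) → g z = 0) :
    ∫ y, F y * B.den w a y ∂ν = ∫ z, g z * G z ∂μ := by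
  rw [B.int_den hw hν ha i hF h0]
  have hm : MeasurableSet (qb e 4 : Set H) := (isOpen_qb e 4).measurableSet
  rw [← setIntegral_eq_integral_of_forall_compl_eq_zero (μ := μ) (s := (qb e 4 : Set H)) (f := fun z => g z * G z)
    (fun z hz => by rw [h3 z hz, zero_mul])]
  refine setIntegral_congr_fun hm fun z hz => ?_
  show F (B.ψ i z) * dt e (a i z) = g z * G z
  rw [h1 z hz]
  by_cases h : g z = 0
  · rw [h, zero_mul, zero_mul]
  · rw [h2 z hz h]

omit [CompactSpace Y] [T2Space Y] in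
private theorem G10_denp (hw : B.Met w) (hν : B.IsVol μ w ν) {a : B.I → H → Bil H} (ha : B.IsT a) (i : B.I)
    {F : Y → ℝ} (hF : Measurable F) {g G : H → ℝ} (h0 : ∀ y, (∀ z ∈ qb e 4, B.ψ i z ≠ y) → F y = 0)
    (h1 : ∀ z ∈ qb e 4, F (B.ψ i z) = g z) (h2 : ∀ z ∈ qb e 4, g z ≠ 0 → G z = pl e (a i z))
    (h3 : ∀ z, z ∉ (qb e 4 : Set H) → g z = 0) :
    ∫ y, F y * B.denp w a y ∂ν = ∫ z, g z * G z ∂μ := by
  rw [B.int_denp hw hν ha i hF h0]
  have hm : MeasurableSet (qb e 4 : Set H) := (isOpen_qb e 4).measurableSet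
  rw [← setIntegral_eq_integral_of_forall_compl_eq_zero (μ := μ) (s := (qb e 4 : Set H)) (f := fun z => g z * G z)
    (fun z hz => by rw [h3 z hz, zero_mul])]
  refine setIntegral_congr_fun hm fun z hz => ?_
  show F (B.ψ i z) * pl e (a i z) = g z * G z
  rw [h1 z hz]
  by_cases h : g z = 0
  · rw [h, zero_mul, zero_mul]
  · rw [h2 z hz h]

omit [FiniteDimensional ℂ H] [MeasurableSpace H] [BorelSpace H] in
private theorem G10_z (a : Bil H) : a + 0 = a := by
  ext u v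
  simp

omit [FiniteDimensional ℂ H] [MeasurableSpace H] [BorelSpace H] in
private theorem G10_zero {f : H → ℝ} {r : ℝ} (hf : tsupport f ⊆ qb e r) {z : H} (hz : z ∉ (qb e r : Set H)) :
    f z = 0 :=
  image_eq_zero_of_notMem_tsupport fun h => hz (hf h)

omit [MeasurableSpace H] [BorelSpace H] [CompactSpace Y] [MeasurableSpace Y] [BorelSpace Y] in
private theorem G10_far {P : H → ℝ} (hs : tsupport P ⊆ qb e (5 / 2)) {i j : B.I} {z : H} (hz : z ∈ qb e 4)
    (h : ∀ z' ∈ qb e 3, B.ψ i z' ≠ B.ψ j z) : B.dd (B.ext i P) j z = 0 := by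
  have h3 : (qb e (5 / 2) : Set H) ⊆ qb e 3 := qb_mono (by norm_num) (by norm_num)
  have h4 : (qb e (5 / 2) : Set H) ⊆ qb e 4 := qb_mono (by norm_num) (by norm_num)
  have hK : IsCompact (tsupport P) :=
    (isCompact_qb e (5 / 2)).of_isClosed_subset (isClosed_tsupport _) fun x hx => by
      have h1 : qf e x < (5 / 2) ^ 2 := hs hx
      exact h1.le
  have hK2 : IsCompact (B.ψ i '' tsupport P) :=
    hK.image_of_continuousOn ((B.cont i).mono (hs.trans h4))
  have hn : B.ψ j z ∉ B.ψ i '' tsupport P := by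
    rintro ⟨z', hz', he⟩
    exact h z' (h3 (hs hz')) he
  have hc : ContinuousAt (B.ψ j) z := (B.cont j).continuousAt ((isOpen_qb e 4).mem_nhds hz)
  have hev : ∀ᶠ x in 𝓝 z, B.ψ j x ∈ (B.ψ i '' tsupport P)ᶜ :=
    hc.eventually (hK2.isClosed.isOpen_compl.mem_nhds hn)
  have hev2 : (fun x => B.ext i P (B.ψ j x)) =ᶠ[𝓝 z] fun _ => (0 : ℝ) := by
    filter_upwards [hev] with x hx
    refine B.ext_zero fun z' _ he => ?_
    by_contra h0
    exact hx ⟨z', subset_tsupport _ h0, he⟩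
  exact (ddc_congr hev2).trans (B.dd_const (i := j) 0 hz)

omit [MeasurableSpace H] [BorelSpace H] [CompactSpace Y] [T2Space Y] [MeasurableSpace Y] [BorelSpace Y] in
private theorem G10_dd {φ : Y → ℝ} (hφ : B.Sm φ) {f : Y → ℝ} (hf : B.Sm f) (δ : ℝ) {i : B.I} {z : H}
    (hz : z ∈ qb e 4) : B.dd (fun y => φ y + f y + -δ) i z = B.dd φ i z + B.dd f i z := by
  have h1 : B.dd (fun y => φ y + f y + -δ) i z = B.dd (fun y => φ y + f y) i z + B.dd (fun _ => -δ) i z :=
    B.dd_add (B.Sm_add hφ hf) (B.Sm_const _) hz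
  rw [h1, B.dd_const _ hz, B.dd_add hφ hf hz]
  exact G10_z _

omit [MeasurableSpace H] [BorelSpace H] [CompactSpace Y] [MeasurableSpace Y] [BorelSpace Y] in
private theorem G10_nn (hw : B.Met w) (hb : B.IsT b) {φ : Y → ℝ} (hφ : B.Sm φ) {P : H → ℝ}
    (hP : ContDiff ℝ ∞ P) (i : B.I) (hs : tsupport P ⊆ qb e (5 / 2)) {c0 ε ε1 K1 : ℝ} (δ : ℝ)
    (hge : ∀ z ∈ qb e 3, Nn (w i z - c0 • w0 e))
    (h1 : ∀ z ∈ qb e 3, Nn (b i z + B.dd φ i z + ddc P z + ε1 • w0 e)) (hε : 0 ≤ ε) (hK : ε1 ≤ K1 * c0)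
    (hεK : ε ≤ K1) (h2 : B.NnT (b + B.dd φ + ε • w)) :
    B.NnT (b + B.dd (fun y => φ y + B.ext i P y + -δ) + K1 • w) := by
  have h4 : (qb e (5 / 2) : Set H) ⊆ qb e 4 := qb_mono (by norm_num) (by norm_num)
  have h34 : (qb e 3 : Set H) ⊆ qb e 4 := qb_mono (by norm_num) (by norm_num)
  have hS : B.Sm (B.ext i P) := B.Sm_ext i hP (hs.trans h4)
  have hS2 : B.Sm (fun y => φ y + B.ext i P y + -δ) := B.Sm_add (B.Sm_add hφ hS) (B.Sm_const _)
  have ha : B.IsT (b + B.dd (fun y => φ y + B.ext i P y + -δ) + K1 • w) :=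
    B.IsT_add (B.IsT_add hb (B.IsT_dd hS2)) (B.IsT_smul hw.t K1)
  have hK0 : 0 ≤ K1 := hε.trans hεK
  intro j z hz
  by_cases hy : ∃ z' ∈ qb e 3, B.ψ i z' = B.ψ j z
  · obtain ⟨z', hz', he⟩ := hy
    obtain ⟨hD, hT⟩ := B.T_eq hz (h34 hz') he.symm
    rw [ha.co j i z hD, hT]
    refine (nn_comp (B.T_I hD) (B.T_bij hD).2).2 ?_
    intro v
    have e1 : (b + B.dd (fun y => φ y + B.ext i P y + -δ) + K1 • w) i z' =
        b i z' + (B.dd φ i z' + ddc P z') + K1 • w i z' := by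
      show b i z' + B.dd (fun y => φ y + B.ext i P y + -δ) i z' + K1 • w i z' = _
      rw [B.G10_dd hφ hS δ (h34 hz'), B.dd_ext (h34 hz')]
    rw [e1]
    have k1 := h1 z' hz' v
    have k2 := hge z' hz' v
    simp only [add_apply, smul_apply, sub_apply,
      smul_eq_mul, w0_self] at k1 k2 ⊢
    have k3 : K1 * (c0 * qf e v) ≤ K1 * w i z' v (Complex.I • v) :=
      mul_le_mul_of_nonneg_left (by linarith) hK0
    have k4 : ε1 * qf e v ≤ K1 * c0 * qf e v := mul_le_mul_of_nonneg_right hK (qf_nonneg e v)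
    linarith
  · push Not at hy
    intro v
    have e1 : (b + B.dd (fun y => φ y + B.ext i P y + -δ) + K1 • w) j z =
        b j z + B.dd φ j z + K1 • w j z := by
      show b j z + B.dd (fun y => φ y + B.ext i P y + -δ) j z + K1 • w j z = _
      rw [B.G10_dd hφ hS δ hz, B.G10_far hs hz hy, G10_z]
    rw [e1]
    have k1 : 0 ≤ (b j z + B.dd φ j z + ε • w j z) v (Complex.I • v) := h2 j z hz v
    have k2 : 0 ≤ w j z v (Complex.I • v) := by
      rcases eq_or_ne v 0 with h0 | h0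
      · rw [h0]
        simp
      · exact (hw.pos j z hz v h0).le
    simp only [add_apply, smul_apply, smul_eq_mul] at k1 ⊢
    have k3 : ε * w j z v (Complex.I • v) ≤ K1 * w j z v (Complex.I • v) := mul_le_mul_of_nonneg_right hεK k2
    linarith

theorem step (hw : B.Met w) (hν : B.IsVol μ w ν) (hb : B.IsT b) (hc : B.ClT b) (hn : B.NnT b)
    {χ : B.I → Y → ℝ} {c : B.I → H → ℝ} (hχ : B.Pou χ c) {h : Y → ℝ} (hh : B.Sm h) (A : ℝ) :
    ∃ C ε0 K : ℝ, 0 ≤ C ∧ 0 < ε0 ∧ 2 ≤ K ∧ ∀ (i : B.I) (φ : Y → ℝ) (τ ε κ : ℝ), B.Sm φ → (∀ y, |φ y| ≤ A) →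
      (∀ y, φ y ≤ h y) → 0 < τ → τ ≤ 1 → 0 < ε → ε ≤ ε0 → 0 ≤ κ → B.NnT (b + B.dd φ + ε • w) →
      (∀ f : Y → ℝ, B.Sm f → B.NnT (b + B.dd f + (K * ε) • w) → (∀ y, φ y - ε ≤ f y) → (∀ y, f y ≤ h y) →
        B.En w b ν f ≤ B.En w b ν φ + κ) →
      ∫ y, χ i y * B.den w (b + B.dd φ) y ∂ν ≤
        (∫ y in {y | h y - τ ≤ φ y}, χ i y * B.denp w (b + B.dd h) y ∂ν) + C * (τ + ε + (ε + κ) / τ) := by
  have h34 : (qb e 3 : Set H) ⊆ qb e 4 := qb_mono (by norm_num) (by norm_num)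
  have h37 : (qb e 3 : Set H) ⊆ qb e (7 / 2) := qb_mono (by norm_num) (by norm_num)
  have h54 : (qb e (5 / 2) : Set H) ⊆ qb e 4 := qb_mono (by norm_num) (by norm_num)
  have h53 : (qb e (5 / 2) : Set H) ⊆ qb e 3 := qb_mono (by norm_num) (by norm_num)
  obtain ⟨A1, hA1, hbA⟩ := B.IsT_bd hb (r := 3) (by norm_num) (by norm_num)
  obtain ⟨A2, hA2, hhA⟩ := B.IsT_bd (B.IsT_dd hh) (r := 3) (by norm_num) (by norm_num)
  obtain ⟨c0, hc0, hge⟩ := B.Met_ge hw (r := 3) (by norm_num) (by norm_num)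
  obtain ⟨C0, hC0, hle⟩ := B.Met_le hw (r := 3) (by norm_num) (by norm_num)
  choose bb hbb1 hbb2 hbb3 hbb4 using fun i => B.loc_ten hb i
  choose hl hl1 hl2 hl3 using fun i => B.loc_fun hh i
  have hc32 : ∀ i z, z ∉ {z : H | qf e z ≤ (3 / 2) ^ 2} → c i z = 0 := fun i z hz =>
    image_eq_zero_of_notMem_tsupport fun h' => hz (hχ.cs i h')
  have h324 : {z : H | qf e z ≤ (3 / 2) ^ 2} ⊆ qb e 4 := fun z hz => by
    have h1 : qf e z ≤ (3 / 2) ^ 2 := hz
    show qf e z < 4 ^ 2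
    linarith
  have hcnn : ∀ i z, 0 ≤ c i z := fun i z => by
    by_cases hz : z ∈ {z : H | qf e z ≤ (3 / 2) ^ 2}
    · rw [← hχ.eq i z (h324 hz)]
      exact hχ.nn i _
    · rw [hc32 i z hz]
  have hcle : ∀ i z, c i z ≤ 1 := fun i z => by
    by_cases hz : z ∈ {z : H | qf e z ≤ (3 / 2) ^ 2}
    · rw [← hχ.eq i z (h324 hz), ← hχ.sum (B.ψ i z)]
      exact Finset.single_le_sum (f := fun i' => χ i' (B.ψ i z)) (fun i' _ => hχ.nn i' _) (Finset.mem_univ i)
    · rw [hc32 i z hz]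
      exact zero_le_one
  choose Ci hCi hst using fun i =>
    loc_step e μ (|A| + A1 + A2) (hχ.csm i) (hcnn i) (hcle i) (hχ.cs i)
  have hCS : 0 ≤ ∑ i, Ci i := Finset.sum_nonneg fun i _ => hCi i
  have hK2 : 0 ≤ (C0 + 1) / c0 := by positivity
  refine ⟨(∑ i, Ci i) * (1 + C0) + 1, min (1 / (2 * C0)) 1, 2 + (C0 + 1) / c0, by positivity,
    lt_min (by positivity) one_pos, by linarith, ?_⟩
  intro i φ τ ε κ hφ hφA hφh hτ hτ1 hε hε0 hκ hN hE
  obtain ⟨φi, hφ1, hφ2, hφ3⟩ := B.loc_fun hφ i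
  have hε1 : ε * C0 ≤ 1 / 2 := by
    have h1 : ε ≤ 1 / (2 * C0) := hε0.trans (min_le_left _ _)
    calc ε * C0 ≤ 1 / (2 * C0) * C0 := mul_le_mul_of_nonneg_right h1 hC0.le
      _ = 1 / 2 := by field_simp
  have hq3 : ∀ z ∈ (qb e 3 : Set H), qf e z ≤ (7 / 2) ^ 2 := fun z hz => by
    have h1 : qf e z < 3 ^ 2 := hz
    linarith
  have hq3' : ∀ z ∈ (qb e 3 : Set H), qf e z ≤ 3 ^ 2 := fun z hz => by
    have h1 : qf e z < 3 ^ 2 := hz
    exact h1.le
  have hNi : ∀ z ∈ (qb e 3 : Set H), Nn (bb i z + ddc φi z + (ε * C0) • w0 e) := by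
    intro z hz v
    have k1 : 0 ≤ (b i z + B.dd φ i z + ε • w i z) v (Complex.I • v) := hN i z (h34 hz) v
    have k2 := hle i z (hq3' z hz) v
    rw [hbb3 i z (hq3 z hz), hφ3 z (h37 hz)]
    simp only [add_apply, smul_apply, sub_apply,
      smul_eq_mul, w0_self] at k1 k2 ⊢
    have k3 : ε * w i z v (Complex.I • v) ≤ ε * (C0 * qf e v) := mul_le_mul_of_nonneg_left (by linarith) hε.le
    linarith
  obtain ⟨Pk, hP1, hP2, hP3⟩ := hst i (bb i) φi (hl i) τ (ε * C0)
    ⟨hbb1 i, hbb2 i, fun z hz => hbb4 i hc z (h37 hz)⟩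
    (fun z hz => by
      rw [hbb3 i z (hq3 z hz)]
      have h1 := hbA i z (hq3' z hz)
      have h2 := abs_nonneg A
      linarith)
    hφ1 (hl1 i)
    (fun z hz => by
      rw [hl3 i z (h37 hz)]
      have h1 := hhA i z (hq3' z hz)
      have h2 := abs_nonneg A
      linarith)
    (fun z hz => by
      rw [hφ2 z (hq3 z hz)]
      have h1 := (hφA (B.ψ i z)).trans (le_abs_self A)
      linarith)
    (fun z hz => by
      rw [hφ2 z (hq3 z hz), hl2 i z (hq3 z hz)]
      exact hφh _)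
    hτ hτ1 (mul_pos hε hC0) hε1 hNi
  set m : ℝ := ∫ y, B.den w b y ∂ν with hm
  set LHS : ℝ := ∫ y, χ i y * B.den w (b + B.dd φ) y ∂ν with hLHS
  set RHS : ℝ := ∫ y in {y | h y - τ ≤ φ y}, χ i y * B.denp w (b + B.dd h) y ∂ν with hRHS
  -- the terms of the local step
  have eL : LHS = ∫ z, c i z * dt e (bb i z + ddc φi z) ∂μ := by
    refine B.G10_den hw hν (B.IsT_add hb (B.IsT_dd hφ)) i (B.Sm_cont (hχ.sm i)).measurable (hχ.out i)
      (hχ.eq i) ?_ ?_
    · intro z hz hcz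
      have hz1 : z ∈ {z : H | qf e z ≤ (3 / 2) ^ 2} := by
        by_contra h'
        exact hcz (hc32 i z h')
      have hz2 : qf e z ≤ (3 / 2) ^ 2 := hz1
      have hz3 : z ∈ (qb e (7 / 2) : Set H) := by
        show qf e z < (7 / 2) ^ 2
        linarith
      rw [hbb3 i z (by linarith), hφ3 z hz3]
      rfl
    · intro z hz
      exact hc32 i z fun h' => hz (h324 h')
  have hSm : MeasurableSet {y : Y | h y - τ ≤ φ y} :=
    (isClosed_le ((B.Sm_cont hh).sub continuous_const) (B.Sm_cont hφ)).measurableSet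
  have hSm' : MeasurableSet {z : H | hl i z - τ ≤ φi z} :=
    (isClosed_le ((hl1 i).continuous.sub continuous_const) hφ1.continuous).measurableSet
  have eR : RHS = ∫ z in {z | hl i z - τ ≤ φi z}, c i z * pl e (bb i z + ddc (hl i) z) ∂μ := by
    have r1 : RHS = ∫ y, ({y | h y - τ ≤ φ y}.indicator (χ i) y) * B.denp w (b + B.dd h) y ∂ν := by
      rw [hRHS, ← integral_indicator hSm]
      refine integral_congr_ae (Filter.Eventually.of_forall fun y => ?_)
      show {y | h y - τ ≤ φ y}.indicator (fun y => χ i y * B.denp w (b + B.dd h) y) y = _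
      exact Set.indicator_mul_left _ _ _
    have r2 : ∫ z in {z | hl i z - τ ≤ φi z}, c i z * pl e (bb i z + ddc (hl i) z) ∂μ =
        ∫ z, ({z | hl i z - τ ≤ φi z}.indicator (c i) z) * pl e (bb i z + ddc (hl i) z) ∂μ := by
      rw [← integral_indicator hSm']
      refine integral_congr_ae (Filter.Eventually.of_forall fun z => ?_)
      show {z | hl i z - τ ≤ φi z}.indicator (fun z => c i z * pl e (bb i z + ddc (hl i) z)) z = _
      exact Set.indicator_mul_left _ _ _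
    rw [r1, r2]
    refine B.G10_denp hw hν (B.IsT_add hb (B.IsT_dd hh)) i
      ((B.Sm_cont (hχ.sm i)).measurable.indicator hSm) ?_ ?_ ?_ ?_
    · intro y hy
      rw [Set.indicator_apply, hχ.out i y hy]
      split_ifs <;> rfl
    · intro z hz
      by_cases hz1 : z ∈ {z : H | qf e z ≤ (3 / 2) ^ 2}
      · have hz2 : qf e z ≤ (3 / 2) ^ 2 := hz1
        have hz3 : qf e z ≤ (7 / 2) ^ 2 := by linarith
        have hiff : z ∈ {z | hl i z - τ ≤ φi z} ↔ B.ψ i z ∈ {y | h y - τ ≤ φ y} := by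
          rw [Set.mem_ofPred_eq, Set.mem_ofPred_eq, hφ2 z hz3, hl2 i z hz3]
        by_cases hq : B.ψ i z ∈ {y | h y - τ ≤ φ y}
        · rw [Set.indicator_of_mem hq, Set.indicator_of_mem (hiff.2 hq), hχ.eq i z hz]
        · rw [Set.indicator_of_notMem hq, Set.indicator_of_notMem fun h' => hq (hiff.1 h')]
      · rw [Set.indicator_apply, Set.indicator_apply, hχ.eq i z hz, hc32 i z hz1]
        split_ifs <;> rfl
    · intro z hz hcz
      have hz1 : z ∈ {z : H | qf e z ≤ (3 / 2) ^ 2} := by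
        by_contra h'
        refine hcz ?_
        rw [Set.indicator_apply, hc32 i z h']
        split_ifs <;> rfl
      have hz2 : qf e z ≤ (3 / 2) ^ 2 := hz1
      have hz3 : z ∈ (qb e (7 / 2) : Set H) := by
        show qf e z < (7 / 2) ^ 2
        linarith
      rw [hbb3 i z (by linarith), hl3 i z hz3]
      rfl
    · intro z hz
      rw [Set.indicator_apply, hc32 i z fun h' => hz (h324 h')]
      split_ifs <;> rfl
  have key : ∀ δ : ℝ, 0 < δ → δ ≤ ε →
      LHS ≤ RHS + Ci i * (τ + ε * C0 + ε * C0 / τ) + κ / τ + δ * (|m| / τ + 1) := by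
    intro δ hδ hδε
    obtain ⟨k, hk1, hk2, hk3, hk4⟩ := (hP3 δ hδ).exists
    have hPs : B.Sm (B.ext i (Pk k)) := B.Sm_ext i (hP1 k) ((hP2 k).trans h54)
    have hPz : ∀ z, z ∉ (qb e 3 : Set H) → Pk k z = 0 := fun z hz => G10_zero (hP2 k) fun h' => hz (h53 h')
    have hf : B.Sm (fun y => φ y + B.ext i (Pk k) y + -δ) := B.Sm_add (B.Sm_add hφ hPs) (B.Sm_const _)
    have hext : ∀ y, 0 ≤ B.ext i (Pk k) y ∧ φ y + B.ext i (Pk k) y ≤ h y + δ := by
      intro y
      by_cases hy : ∃ z ∈ qb e 4, B.ψ i z = y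
      · obtain ⟨z, hz, rfl⟩ := hy
        rw [B.ext_apply hz]
        refine ⟨(hk1 z).1, ?_⟩
        by_cases hz3 : z ∈ (qb e 3 : Set H)
        · have h1 := hk2 z hz3
          rw [hφ2 z (hq3 z hz3), hl2 i z (hq3 z hz3)] at h1
          exact h1
        · rw [hPz z hz3, add_zero]
          exact (hφh _).trans (by linarith)
      · push Not at hy
        rw [B.ext_zero fun z hz he => absurd he (hy z hz)]
        refine ⟨le_rfl, ?_⟩
        rw [add_zero]
        exact (hφh _).trans (by linarith)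
    have hNN : B.NnT (b + B.dd (fun y => φ y + B.ext i (Pk k) y + -δ) + ((2 + (C0 + 1) / c0) * ε) • w) := by
      refine B.G10_nn hw hb hφ (hP1 k) i (hP2 k) (c0 := c0) (ε := ε) (ε1 := ε * C0 + δ) δ
        (fun z hz => hge i z (hq3' z hz)) ?_ hε.le ?_ ?_ hN
      · intro z hz
        have h1 := hk3 z hz
        rw [hbb3 i z (hq3 z hz), hφ3 z (h37 hz)] at h1
        exact h1
      · have h1 : (2 + (C0 + 1) / c0) * ε * c0 = 2 * ε * c0 + (C0 + 1) * ε := by
          field_simp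
        rw [h1]
        have h2 : 0 ≤ 2 * ε * c0 := by positivity
        linarith
      · have h1 : 0 ≤ (C0 + 1) / c0 * ε := by positivity
        linarith
    have hEf := hE _ hf hNN (fun y => by have := (hext y).1; linarith) (fun y => by have := (hext y).2; linarith)
    have e1 : B.En w b ν (fun y => φ y + B.ext i (Pk k) y + -δ) =
        B.En w b ν (fun y => φ y + B.ext i (Pk k) y) + -δ * m :=
      B.En_const hw hν hb hc (B.Sm_add hφ hPs) (-δ)
    have e2 := B.En_diff hw hν hb hc hφ hPs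
    have e3 : (∫ a in (0 : ℝ)..1, ∫ y, B.ext i (Pk k) y *
          B.den w (b + B.dd φ + a • B.dd (B.ext i (Pk k))) y ∂ν) =
        ∫ s in (0 : ℝ)..1, ∫ z, Pk k z * dt e (bb i z + ddc φi z + s • ddc (Pk k) z) ∂μ := by
      refine intervalIntegral.integral_congr fun s _ => ?_
      refine B.G10_den hw hν (B.IsT_add (B.IsT_add hb (B.IsT_dd hφ)) (B.IsT_smul (B.IsT_dd hPs) s)) i
        (B.Sm_cont hPs).measurable ?_ ?_ ?_ ?_
      · intro y hy
        exact B.ext_zero fun z hz he => absurd he (hy z hz)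
      · intro z hz
        exact B.ext_apply hz
      · intro z hz hp
        have hz3 : z ∈ (qb e 3 : Set H) := by
          by_contra h'
          exact hp (hPz z h')
        have r1 : (b + B.dd φ + s • B.dd (B.ext i (Pk k))) i z = b i z + B.dd φ i z + s • B.dd (B.ext i (Pk k)) i z :=
          rfl
        rw [r1, B.dd_ext hz, hbb3 i z (hq3 z hz3), hφ3 z (h37 hz3)]
      · intro z hz
        exact hPz z fun h' => hz (h34 h')
    rw [← eL, ← eR, ← e3, ← e2] at hk4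
    rw [e1] at hEf
    have hJ : B.En w b ν (fun y => φ y + B.ext i (Pk k) y) - B.En w b ν φ ≤ κ + δ * |m| := by
      have h1 : δ * m ≤ δ * |m| := mul_le_mul_of_nonneg_left (le_abs_self m) hδ.le
      linarith
    have h2 := mul_le_mul_of_nonneg_left hJ (by positivity : (0 : ℝ) ≤ 1 / τ)
    have h3 : 1 / τ * (κ + δ * |m|) = κ / τ + δ * (|m| / τ) := by
      field_simp
    rw [h3] at h2
    linarith
  have hM : 0 < |m| / τ + 1 := by positivity
  have key2 : LHS ≤ RHS + Ci i * (τ + ε * C0 + ε * C0 / τ) + κ / τ := by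
    refine le_of_forall_pos_le_add fun η hη => ?_
    have h1 := key (min ε (η / (|m| / τ + 1))) (lt_min hε (by positivity)) (min_le_left _ _)
    have h2 : min ε (η / (|m| / τ + 1)) * (|m| / τ + 1) ≤ η / (|m| / τ + 1) * (|m| / τ + 1) :=
      mul_le_mul_of_nonneg_right (min_le_right _ _) hM.le
    rw [div_mul_cancel₀ _ hM.ne'] at h2
    linarith
  refine key2.trans ?_
  have hX1 : κ / τ ≤ τ + ε + (ε + κ) / τ := by
    rw [add_div]
    have : 0 ≤ ε / τ := by positivity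
    linarith
  have hX0 : 0 ≤ τ + ε + (ε + κ) / τ := by positivity
  have hX2 : τ + ε * C0 + ε * C0 / τ ≤ (1 + C0) * (τ + ε + (ε + κ) / τ) := by
    have h1 : (1 + C0) * (τ + ε + (ε + κ) / τ) = τ + ε * C0 + ε * C0 / τ +
        (C0 * τ + ε + ε / τ + (1 + C0) * (κ / τ)) := by
      field_simp
      ring
    rw [h1]
    have h2 : 0 ≤ C0 * τ + ε + ε / τ + (1 + C0) * (κ / τ) := by positivity
    linarith
  have hX3 : Ci i * (τ + ε * C0 + ε * C0 / τ) ≤ (∑ i, Ci i) * ((1 + C0) * (τ + ε + (ε + κ) / τ)) :=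
    mul_le_mul (Finset.single_le_sum (fun i _ => hCi i) (Finset.mem_univ i)) hX2 (by positivity) hCS
  calc RHS + Ci i * (τ + ε * C0 + ε * C0 / τ) + κ / τ
      ≤ RHS + (∑ i, Ci i) * ((1 + C0) * (τ + ε + (ε + κ) / τ)) + (τ + ε + (ε + κ) / τ) := by linarith
    _ = RHS + ((∑ i, Ci i) * (1 + C0) + 1) * (τ + ε + (ε + κ) / τ) := by ring

end BM

end HDG
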