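import Pool.Agent.HDG.G1
import Pool.Agent.HDG.RMd

/-!
# HDG/G2: tensors and smooth functions

Rules for smooth functions `B.Sm`, real tensors of type `(1,1)` `B.IsT`, closed tensors `B.ClT` and `dd^c` (`B.dd`) on a
manifold `B : BM e Y`; comparison of tensors with the standard form on the balls of radius `r < 4` (compactness), domination
of a tensor by a multiple of a metric.
-/

set_option autoImplicit false

noncomputable section

open scoped ContDiff Topology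

namespace HDG

open Pool.Agent.FBR

variable {H : Type*} [NormedAddCommGroup H] [NormedSpace ℂ H] {n : ℕ} {e : Module.Basis (Fin n) ℂ H}
  [FiniteDimensional ℂ H] {Y : Type*} [TopologicalSpace Y] (B : BM e Y)

namespace BM

private theorem G2_fadd {V W : Type*} [NormedAddCommGroup V] [NormedSpace ℝ V] [NormedAddCommGroup W]
    [NormedSpace ℝ W] {f g : V → W} {y : V} (hf : DifferentiableAt ℝ f y)
    (hg : DifferentiableAt ℝ g y) :
    fderiv ℝ (fun y => f y + g y) y = fderiv ℝ f y + fderiv ℝ g y :=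
  (hf.hasFDerivAt.add hg.hasFDerivAt).fderiv

private theorem G2_fsmul {V W : Type*} [NormedAddCommGroup V] [NormedSpace ℝ V]
    [NormedAddCommGroup W] [NormedSpace ℝ W] {f : V → W} {y : V} (c : ℝ)
    (hf : DifferentiableAt ℝ f y) :
    fderiv ℝ (fun y => c • f y) y = c • fderiv ℝ f y :=
  (hf.hasFDerivAt.const_smul c).fderiv

private theorem G2_csmul {V W : Type*} [NormedAddCommGroup V] [NormedSpace ℝ V]
    [NormedAddCommGroup W] [NormedSpace ℝ W] {f : V → W} {O : Set V} (c : ℝ)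
    (hf : ContDiffOn ℝ ∞ f O) : ContDiffOn ℝ ∞ (fun y => c • f y) O :=
  ContDiffOn.smul contDiffOn_const hf

private theorem G2_nhds {z : H} (hz : z ∈ qb e 4) : (qb e 4 : Set H) ∈ nhds z :=
  (isOpen_qb e 4).mem_nhds hz

private theorem G2_cd {f : Y → ℝ} (hf : B.Sm f) {i : B.I} {z : H} (hz : z ∈ qb e 4) :
    ContDiffAt ℝ ∞ (fun z => f (B.ψ i z)) z := (hf i).contDiffAt (G2_nhds hz)

private theorem G2_cd2 {f : Y → ℝ} (hf : B.Sm f) {i : B.I} {z : H} (hz : z ∈ qb e 4) :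
    ContDiffAt ℝ 2 (fun z => f (B.ψ i z)) z := (G2_cd B hf hz).of_le (by norm_cast)

private theorem G2_sub {r : ℝ} (hr : 0 ≤ r) (hr' : r < 4) : {z : H | qf e z ≤ r ^ 2} ⊆ qb e 4 := by
  intro z hz
  have h1 : qf e z ≤ r ^ 2 := hz
  show qf e z < 4 ^ 2
  nlinarith

theorem Sm_const (c : ℝ) : B.Sm fun _ => c := fun _ => contDiffOn_const

theorem Sm_add {f g : Y → ℝ} (hf : B.Sm f) (hg : B.Sm g) : B.Sm fun y => f y + g y :=
  fun i => (hf i).add (hg i)

theorem Sm_mul {f g : Y → ℝ} (hf : B.Sm f) (hg : B.Sm g) : B.Sm fun y => f y * g y :=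
  fun i => (hf i).mul (hg i)

theorem Sm_sum {ι : Type*} (s : Finset ι) {f : ι → Y → ℝ} (hf : ∀ i ∈ s, B.Sm (f i)) :
    B.Sm fun y => ∑ i ∈ s, f i y :=
  fun j => ContDiffOn.sum fun i hi => hf i hi j

theorem Sm_comp {f : Y → ℝ} (hf : B.Sm f) {g : ℝ → ℝ} (hg : ContDiff ℝ ∞ g) : B.Sm fun y => g (f y) :=
  fun i => hg.comp_contDiffOn (hf i)

theorem Sm_rm {f g : Y → ℝ} (hf : B.Sm f) (hg : B.Sm g) (δ : ℝ) : B.Sm fun y => rm δ (f y) (g y) :=
  fun i => (rm_smooth δ).comp_contDiffOn ((hf i).prodMk (hg i))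

theorem Sm_div {f g : Y → ℝ} (hf : B.Sm f) (hg : B.Sm g) (h0 : ∀ y, g y ≠ 0) : B.Sm fun y => f y / g y :=
  fun i => (hf i).div (hg i) fun z _ => h0 (B.ψ i z)

theorem Sm_cont {f : Y → ℝ} (hf : B.Sm f) : Continuous f := by
  rw [continuous_iff_continuousAt]
  intro y
  obtain ⟨i, z, hz, hy⟩ := B.cov y
  have hz4 : z ∈ qb e 4 := qb_mono (by norm_num) (by norm_num) hz
  rw [continuousAt_def]
  intro V hV
  obtain ⟨W, hWV, hW, hyW⟩ := mem_nhds_iff.1 hV
  have h1 : IsOpen (qb e 4 ∩ (fun z => f (B.ψ i z)) ⁻¹' W) :=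
    (hf i).continuousOn.isOpen_inter_preimage (isOpen_qb e 4) hW
  have h2 := B.opn i _ Set.inter_subset_left h1
  refine Filter.mem_of_superset (h2.mem_nhds ⟨z, ⟨hz4, ?_⟩, hy⟩) ?_
  · show f (B.ψ i z) ∈ W
    rw [hy]
    exact hyW
  · rintro _ ⟨x, ⟨_, hx⟩, rfl⟩
    exact hWV hx

theorem IsT_add {a b : B.I → H → Bil H} (ha : B.IsT a) (hb : B.IsT b) : B.IsT (a + b) where
  sm i := (ha.sm i).add (hb.sm i)
  oo i z hz := O11_add (ha.oo i z hz) (hb.oo i z hz)
  co i j z hz := by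
    have h1 := ha.co i j z hz
    have h2 := hb.co i j z hz
    show a i z + b i z = (a j (B.T i j z) + b j (B.T i j z)).bilinearComp (fderiv ℝ (B.T i j) z)
      (fderiv ℝ (B.T i j) z)
    rw [h1, h2]
    rfl

theorem IsT_smul {a : B.I → H → Bil H} (ha : B.IsT a) (c : ℝ) : B.IsT (c • a) where
  sm i := by
    exact G2_csmul (V := H) (W := Bil H) (f := a i) c (ha.sm i)
  oo i z hz := O11_smul c (ha.oo i z hz)
  co i j z hz := by
    have h1 := ha.co i j z hz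
    show c • a i z = (c • a j (B.T i j z)).bilinearComp (fderiv ℝ (B.T i j) z)
      (fderiv ℝ (B.T i j) z)
    rw [h1]
    rfl

theorem IsT_dd {f : Y → ℝ} (hf : B.Sm f) : B.IsT (B.dd f) where
  sm i z hz := (ddc_smooth (G2_cd B hf hz)).contDiffWithinAt
  oo i z hz := O11_ddc (G2_cd2 B hf hz)
  co i j z hz := by
    have h1 : (fun z => f (B.ψ i z)) =ᶠ[nhds z] ((fun w => f (B.ψ j w)) ∘ B.T i j) := by
      filter_upwards [(B.D_open i j).mem_nhds hz] with x hx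
      show f (B.ψ i x) = f (B.ψ j (B.T i j x))
      rw [B.ψ_T hx]
    show ddc (fun z => f (B.ψ i z)) z = (ddc (fun w => f (B.ψ j w)) (B.T i j z)).bilinearComp
      (fderiv ℝ (B.T i j) z) (fderiv ℝ (B.T i j) z)
    rw [ddc_congr h1]
    exact ddc_comp (G2_cd2 B hf (B.T_mem hz)) (B.tr i j z hz.1 hz.2)

private theorem G2_diff {a : B.I → H → Bil H} (ha : B.IsT a) {i : B.I} {z : H} (hz : z ∈ qb e 4) :
    DifferentiableAt ℝ (a i) z := ((ha.sm i).contDiffAt (G2_nhds hz)).differentiableAt (by simp)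

theorem ClT_add {a b : B.I → H → Bil H} (ha : B.IsT a) (hb : B.IsT b) (ha' : B.ClT a) (hb' : B.ClT b) :
    B.ClT (a + b) := by
  intro i z hz u v w
  have h1 := ha' i z hz u v w
  have h2 := hb' i z hz u v w
  have h3 : fderiv ℝ ((a + b) i) z = fderiv ℝ (a i) z + fderiv ℝ (b i) z :=
    G2_fadd (V := H) (W := Bil H) (f := a i) (g := b i) (G2_diff B ha hz) (G2_diff B hb hz)
  unfold ext2 at h1 h2 ⊢
  rw [h3]
  simp only [add_apply]
  linarith

theorem ClT_smul {a : B.I → H → Bil H} (ha : B.IsT a) (ha' : B.ClT a) (c : ℝ) : B.ClT (c • a) := by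
  intro i z hz u v w
  have h1 := ha' i z hz u v w
  have h3 : fderiv ℝ ((c • a) i) z = c • fderiv ℝ (a i) z :=
    G2_fsmul (V := H) (W := Bil H) (f := a i) c (G2_diff B ha hz)
  unfold ext2 at h1 ⊢
  rw [h3]
  simp only [smul_apply, smul_eq_mul]
  linear_combination c * h1

theorem ClT_dd {f : Y → ℝ} (hf : B.Sm f) : B.ClT (B.dd f) :=
  fun _ _ hz u v w => ddc_closed (G2_cd B hf hz) u v w

theorem dd_const (c : ℝ) {i : B.I} {z : H} (hz : z ∈ qb e 4) : B.dd (fun _ => c) i z = 0 := by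
  show ddc (fun _ : H => c) z = 0
  ext u v
  rw [ddc_apply]
  have h1 : fderiv ℝ (fun _ : H => c) = fun _ => 0 := by
    funext x
    exact fderiv_const_apply c
  rw [h1, fderiv_const_apply]
  simp

theorem dd_add {f g : Y → ℝ} (hf : B.Sm f) (hg : B.Sm g) {i : B.I} {z : H} (hz : z ∈ qb e 4) :
    B.dd (fun y => f y + g y) i z = B.dd f i z + B.dd g i z :=
  ddc_add (G2_cd2 B hf hz) (G2_cd2 B hg hz)

theorem dd_smul {f : Y → ℝ} (hf : B.Sm f) (c : ℝ) {i : B.I} {z : H} (hz : z ∈ qb e 4) :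
    B.dd (fun y => c * f y) i z = c • B.dd f i z :=
  ddc_smul c (G2_cd2 B hf hz)

theorem dd_sum {ι : Type*} (s : Finset ι) {f : ι → Y → ℝ} (hf : ∀ i ∈ s, B.Sm (f i)) {i : B.I} {z : H}
    (hz : z ∈ qb e 4) : B.dd (fun y => ∑ k ∈ s, f k y) i z = ∑ k ∈ s, B.dd (f k) i z := by
  classical
  induction s using Finset.induction_on with
  | empty =>
    simp only [Finset.sum_empty]
    exact B.dd_const 0 hz
  | insert k s hk ih =>
    have h1 : (fun y => ∑ l ∈ insert k s, f l y) = fun y => f k y + ∑ l ∈ s, f l y := by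
      funext y
      rw [Finset.sum_insert hk]
    have h2 : ∀ l ∈ s, B.Sm (f l) := fun l hl => hf l (Finset.mem_insert_of_mem hl)
    rw [h1, Finset.sum_insert hk, ← ih h2]
    exact B.dd_add (hf k (Finset.mem_insert_self k s)) (B.Sm_sum s h2) hz

theorem nn_dd_rm {δ : ℝ} (hδ : 0 < δ) {f g : Y → ℝ} (hf : B.Sm f) (hg : B.Sm g) {i : B.I} {z : H} (hz : z ∈ qb e 4)
    {c : Bil H} (h : Nn (c + B.dd f i z)) (h' : Nn (c + B.dd g i z)) :
    Nn (c + B.dd (fun y => rm δ (f y) (g y)) i z) :=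
  nn_rm hδ (G2_cd B hf hz) (G2_cd B hg hz) h h'

theorem IsT_bd {a : B.I → H → Bil H} (ha : B.IsT a) {r : ℝ} (hr : 0 ≤ r) (hr' : r < 4) :
    ∃ C : ℝ, 0 ≤ C ∧ ∀ i z, qf e z ≤ r ^ 2 → ‖a i z‖ ≤ C := by
  have h1 : ∀ i, ∃ C : ℝ, ∀ z ∈ {z : H | qf e z ≤ r ^ 2}, ‖a i z‖ ≤ C := fun i =>
    IsCompact.exists_bound_of_continuousOn (E := Bil H) (f := a i) (isCompact_qb e r)
      ((ha.sm i).continuousOn.mono (G2_sub hr hr'))
  choose C hC using h1
  refine ⟨∑ i, |C i|, Finset.sum_nonneg fun i _ => abs_nonneg _, fun i z hz => ?_⟩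
  calc ‖a i z‖ ≤ C i := hC i z hz
    _ ≤ |C i| := le_abs_self _
    _ ≤ ∑ i, |C i| := Finset.single_le_sum (f := fun i => |C i|) (fun i _ => abs_nonneg _)
        (Finset.mem_univ i)

private theorem G2_scale (a : Bil H) (s : ℝ) (v : H) :
    a ((s : ℂ) • v) (Complex.I • ((s : ℂ) • v)) = s ^ 2 * a v (Complex.I • v) := by
  have h1 : ((s : ℂ) • v) = s • v := Complex.coe_smul s v
  have h2 : Complex.I • ((s : ℂ) • v) = s • (Complex.I • v) := by
    rw [smul_comm, Complex.coe_smul]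
  have h3 : a (s • v) = s • a v := map_smul a s v
  have h4 : (a v) (s • (Complex.I • v)) = s • (a v) (Complex.I • v) := map_smul (a v) s _
  rw [h2, h1, h3, smul_apply, h4, smul_eq_mul, smul_eq_mul]
  ring

private theorem G2_ge {w : H → Bil H} {K : Set H} (hK : IsCompact K) (hw : ContinuousOn w K)
    (hp : ∀ z ∈ K, ∀ v : H, v ≠ 0 → 0 < w z v (Complex.I • v)) :
    ∃ c : ℝ, 0 < c ∧ ∀ z ∈ K, ∀ v : H, c * qf e v ≤ w z v (Complex.I • v) := by
  have hSc : IsCompact {v : H | qf e v = 1} := by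
    refine IsCompact.of_isClosed_subset (isCompact_qb e 1)
      (isClosed_eq (qf_smooth e).continuous continuous_const) ?_
    intro v hv
    have h1 : qf e v = 1 := hv
    show qf e v ≤ 1 ^ 2
    rw [h1]
    norm_num
  have hne : ∀ v : H, qf e v = 1 → v ≠ 0 := by
    intro v hv h0
    rw [h0, qf_zero] at hv
    exact zero_ne_one hv
  have hred : ∀ c : ℝ, (∀ z ∈ K, ∀ v : H, qf e v = 1 → c ≤ w z v (Complex.I • v)) →
      ∀ z ∈ K, ∀ v : H, c * qf e v ≤ w z v (Complex.I • v) := by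
    intro c hc z hz v
    by_cases hv : v = 0
    · rw [hv, qf_zero, map_zero, zero_apply, mul_zero]
    · have hq : 0 < qf e v := qf_pos e hv
      have hs : 0 < Real.sqrt (qf e v) := Real.sqrt_pos.2 hq
      have hsq : Real.sqrt (qf e v) ^ 2 = qf e v := Real.sq_sqrt hq.le
      have h1 : qf e ((((Real.sqrt (qf e v))⁻¹ : ℝ) : ℂ) • v) = 1 := by
        rw [qf_smul, Complex.norm_real, Real.norm_eq_abs, sq_abs, inv_pow, hsq,
          inv_mul_cancel₀ hq.ne']
      have h2 := hc z hz _ h1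
      rw [G2_scale, inv_pow, hsq] at h2
      have h3 := mul_le_mul_of_nonneg_left h2 hq.le
      rw [← mul_assoc, mul_inv_cancel₀ hq.ne', one_mul] at h3
      linarith
  rcases (K ×ˢ {v : H | qf e v = 1}).eq_empty_or_nonempty with hE | hE
  · refine ⟨1, one_pos, hred 1 ?_⟩
    intro z hz v hv
    have h1 : (z, v) ∈ K ×ˢ {v : H | qf e v = 1} := ⟨hz, hv⟩
    rw [hE] at h1
    exact absurd h1 (Set.notMem_empty _)
  · have hcont : ContinuousOn (fun p : H × H => w p.1 p.2 (Complex.I • p.2))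
        (K ×ˢ {v : H | qf e v = 1}) := by
      have h1 : ContinuousOn (fun p : H × H => w p.1) (K ×ˢ {v : H | qf e v = 1}) :=
        hw.comp continuousOn_fst fun p hp => hp.1
      have h2 : ContinuousOn (fun p : H × H => w p.1 p.2) (K ×ˢ {v : H | qf e v = 1}) :=
        h1.clm_apply continuousOn_snd
      exact h2.clm_apply (continuousOn_snd.const_smul Complex.I)
    obtain ⟨p, hp1, hp2⟩ := (hK.prod hSc).exists_isMinOn hE hcont
    refine ⟨w p.1 p.2 (Complex.I • p.2), hp p.1 hp1.1 p.2 (hne p.2 hp1.2), hred _ ?_⟩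
    intro z hz v hv
    exact hp2 (show (z, v) ∈ K ×ˢ {v : H | qf e v = 1} from ⟨hz, hv⟩)

theorem Met_ge {w : B.I → H → Bil H} (hw : B.Met w) {r : ℝ} (hr : 0 ≤ r) (hr' : r < 4) :
    ∃ c : ℝ, 0 < c ∧ ∀ i z, qf e z ≤ r ^ 2 → Nn (w i z - c • w0 e) := by
  have h1 : ∀ i, ∃ c : ℝ, 0 < c ∧ ∀ z ∈ {z : H | qf e z ≤ r ^ 2}, ∀ v : H,
      c * qf e v ≤ w i z v (Complex.I • v) := fun i =>
    G2_ge (isCompact_qb e r) ((hw.t.sm i).continuousOn.mono (G2_sub hr hr'))
      fun z hz v hv => hw.pos i z (G2_sub hr hr' hz) v hv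
  choose c hc0 hc using h1
  have hS : 0 ≤ ∑ i, (c i)⁻¹ := Finset.sum_nonneg fun i _ => (inv_pos.2 (hc0 i)).le
  refine ⟨(∑ i, (c i)⁻¹ + 1)⁻¹, by positivity, fun i z hz v => ?_⟩
  have h2 : (c i)⁻¹ ≤ ∑ i, (c i)⁻¹ :=
    Finset.single_le_sum (f := fun i => (c i)⁻¹) (fun i _ => (inv_pos.2 (hc0 i)).le)
      (Finset.mem_univ i)
  have h3 : (∑ i, (c i)⁻¹ + 1)⁻¹ ≤ c i := by
    refine inv_le_of_inv_le₀ (hc0 i) ?_
    linarith
  have h4 := hc i z hz v
  have h5 := mul_le_mul_of_nonneg_right h3 (qf_nonneg e v)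
  have h6 : (w i z - (∑ i, (c i)⁻¹ + 1)⁻¹ • w0 e) v (Complex.I • v) =
      w i z v (Complex.I • v) - (∑ i, (c i)⁻¹ + 1)⁻¹ * (w0 e v (Complex.I • v)) := rfl
  rw [h6, w0_self]
  linarith

theorem Met_le {w : B.I → H → Bil H} (hw : B.Met w) {r : ℝ} (hr : 0 ≤ r) (hr' : r < 4) :
    ∃ C : ℝ, 0 < C ∧ ∀ i z, qf e z ≤ r ^ 2 → Nn (C • w0 e - w i z) := by
  obtain ⟨C, hC0, hC⟩ := B.IsT_bd hw.t hr hr'
  obtain ⟨C', hC0', hC'⟩ := form_le e
  refine ⟨C' * C + 1, by positivity, fun i z hz v => ?_⟩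
  have h1 := le_of_abs_le (hC' (w i z) v)
  have h2 : C' * ‖w i z‖ * qf e v ≤ C' * C * qf e v :=
    mul_le_mul_of_nonneg_right (mul_le_mul_of_nonneg_left (hC i z hz) hC0'.le) (qf_nonneg e v)
  have h3 : ((C' * C + 1) • w0 e - w i z) v (Complex.I • v) =
      (C' * C + 1) * (w0 e v (Complex.I • v)) - w i z v (Complex.I • v) := rfl
  rw [h3, w0_self]
  have h4 := qf_nonneg e v
  linarith

/-- it suffices to check `a ≥ 0` on the balls of radius 1 -/
theorem NnT_of {a : B.I → H → Bil H} (ha : B.IsT a) (h : ∀ i, ∀ z ∈ qb e 1, Nn (a i z)) : B.NnT a := by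
  intro i z hz v
  obtain ⟨j, x, hx, hy⟩ := B.cov (B.ψ i z)
  have hx4 : x ∈ qb e 4 := qb_mono (by norm_num) (by norm_num) hx
  obtain ⟨h1, h2⟩ := B.T_eq (i := i) (j := j) hz hx4 hy.symm
  rw [ha.co i j z h1, h2, ContinuousLinearMap.bilinearComp_apply, B.T_I h1]
  exact h j x hx _

/-- a tensor is dominated by a multiple of the metric -/
theorem NnT_dom {a w : B.I → H → Bil H} (ha : B.IsT a) (hw : B.Met w) : ∃ C : ℝ, 0 ≤ C ∧ B.NnT (C • w + a) := by
  obtain ⟨c, hc0, hc⟩ := B.Met_ge hw (r := 1) (by norm_num) (by norm_num)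
  obtain ⟨A, hA0, hA⟩ := B.IsT_bd ha (r := 1) (by norm_num) (by norm_num)
  obtain ⟨C', hC0', hC'⟩ := form_le e
  refine ⟨C' * A / c, by positivity, B.NnT_of (B.IsT_add (B.IsT_smul hw.t _) ha) ?_⟩
  intro i z hz v
  have hz1 : qf e z ≤ 1 ^ 2 := le_of_lt hz
  have h1 := neg_le_of_abs_le (hC' (a i z) v)
  have h2 : C' * ‖a i z‖ * qf e v ≤ C' * A * qf e v :=
    mul_le_mul_of_nonneg_right (mul_le_mul_of_nonneg_left (hA i z hz1) hC0'.le) (qf_nonneg e v)
  have h3 : 0 ≤ w i z v (Complex.I • v) - c * (w0 e v (Complex.I • v)) := hc i z hz1 v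
  rw [w0_self] at h3
  have h4 : ((C' * A / c) • w + a) i z v (Complex.I • v) =
      C' * A / c * (w i z v (Complex.I • v)) + a i z v (Complex.I • v) := rfl
  rw [h4]
  have h5 : C' * A / c * (c * qf e v) ≤ C' * A / c * (w i z v (Complex.I • v)) :=
    mul_le_mul_of_nonneg_left (by linarith) (by positivity)
  have h6 : C' * A / c * (c * qf e v) = C' * A * qf e v := by
    field_simp
  linarith

end BM

end HDG
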