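import Pool.Agent.HDG.LA2

/-!
# HDG/LA6: change of coordinates

A complex linear change of coordinates with matrix `M` changes the Hermitian matrix `A` of a form into `Mᵀ A (conj M)`; the determinant is
multiplied by `|det M|²`, which is the real determinant.
-/

set_option autoImplicit false

noncomputable section

open scoped ContDiff ComplexOrder

namespace HDG

open Pool.Agent.FBR

variable {H : Type*} [NormedAddCommGroup H] [NormedSpace ℂ H] [FiniteDimensional ℂ H] {n : ℕ}
  (e : Module.Basis (Fin n) ℂ H)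

omit [FiniteDimensional ℂ H] in
private theorem LA6_split (c : ℂ) (v : H) : c • v = c.re • v + c.im • (Complex.I • v) := by
  conv_lhs => rw [← Complex.re_add_im c]
  rw [add_smul, mul_smul, Complex.coe_smul, Complex.coe_smul]

omit [FiniteDimensional ℂ H] in
private theorem LA6_cplx {T : H →L[ℝ] H} (hT : ∀ v, T (Complex.I • v) = Complex.I • T v) :
    ∃ g : H →ₗ[ℂ] H, ∀ v, g v = T v := by
  refine ⟨{ toFun := T, map_add' := fun u v => map_add T u v, map_smul' := ?_ }, fun v => rfl⟩
  intro c v
  rw [LA6_split c v, map_add, map_smul, map_smul, hT, RingHom.id_apply, LA6_split c (T v)]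

private theorem LA6_det {T : H →L[ℝ] H} {g : H →ₗ[ℂ] H} (hg : ∀ v, g v = T v) :
    T.det = Complex.normSq (LinearMap.det g) := by
  have h1 : (T : H →ₗ[ℝ] H) = g.restrictScalars ℝ := LinearMap.ext fun v => (hg v).symm
  have h2 : T.det = LinearMap.det (T : H →ₗ[ℝ] H) := rfl
  rw [h2, h1, LinearMap.det_restrictScalars, Algebra.norm_complex_apply]

/-- the Hermitian form of `a` -/
private def LA6_h (a : Bil H) (u v : H) : ℂ :=
  ((a u (Complex.I • v) : ℝ) : ℂ) - Complex.I * ((a u v : ℝ) : ℂ)

omit [FiniteDimensional ℂ H] in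
private theorem LA6_addl (a : Bil H) (u u' v : H) : LA6_h a (u + u') v = LA6_h a u v + LA6_h a u' v := by
  unfold LA6_h
  rw [map_add, _root_.add_apply, _root_.add_apply]
  push_cast
  ring

omit [FiniteDimensional ℂ H] in
private theorem LA6_addr (a : Bil H) (u v v' : H) : LA6_h a u (v + v') = LA6_h a u v + LA6_h a u v' := by
  unfold LA6_h
  rw [smul_add, map_add, map_add]
  push_cast
  ring

omit [FiniteDimensional ℂ H] in
private theorem LA6_Il {a : Bil H} (ha : O11 a) (u v : H) : a (Complex.I • u) v = - a u (Complex.I • v) := by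
  have h := ha.2 (Complex.I • u) v
  rw [smul_smul, Complex.I_mul_I, neg_smul, one_smul, map_neg, _root_.neg_apply] at h
  exact h.symm

omit [FiniteDimensional ℂ H] in
private theorem LA6_II (v : H) : Complex.I • Complex.I • v = -v := by
  rw [smul_smul, Complex.I_mul_I, neg_smul, one_smul]

omit [FiniteDimensional ℂ H] in
private theorem LA6_smull {a : Bil H} (ha : O11 a) (c : ℂ) (u v : H) : LA6_h a (c • u) v = c * LA6_h a u v := by
  unfold LA6_h
  rw [LA6_split c u]
  simp only [map_add, map_smul, _root_.add_apply, _root_.smul_apply, smul_eq_mul]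
  rw [LA6_Il ha u v, LA6_Il ha u (Complex.I • v), LA6_II, map_neg]
  apply Complex.ext
  · simp
  · simp
    ring

omit [FiniteDimensional ℂ H] in
private theorem LA6_smulr (a : Bil H) (c : ℂ) (u v : H) :
    LA6_h a u (c • v) = (starRingEnd ℂ) c * LA6_h a u v := by
  unfold LA6_h
  rw [smul_comm Complex.I c v, LA6_split c v, LA6_split c (Complex.I • v), LA6_II]
  simp only [map_add, map_smul, map_neg, smul_neg, smul_eq_mul]
  apply Complex.ext <;> simp <;> ring

omit [FiniteDimensional ℂ H] in
private theorem LA6_suml {a : Bil H} (ha : O11 a) (s : Finset (Fin n)) (c : Fin n → ℂ) (v : H) :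
    LA6_h a (∑ p ∈ s, c p • e p) v = ∑ p ∈ s, c p * LA6_h a (e p) v := by
  classical
  induction s using Finset.induction_on with
  | empty =>
    rw [Finset.sum_empty, Finset.sum_empty]
    have h := LA6_smull ha 0 (0 : H) v
    rwa [smul_zero, zero_mul] at h
  | insert i s hi ih =>
    rw [Finset.sum_insert hi, Finset.sum_insert hi, LA6_addl, LA6_smull ha, ih]

omit [FiniteDimensional ℂ H] in
private theorem LA6_sumr (a : Bil H) (s : Finset (Fin n)) (c : Fin n → ℂ) (u : H) :
    LA6_h a u (∑ q ∈ s, c q • e q) = ∑ q ∈ s, (starRingEnd ℂ) (c q) * LA6_h a u (e q) := by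
  classical
  induction s using Finset.induction_on with
  | empty =>
    rw [Finset.sum_empty, Finset.sum_empty]
    have h := LA6_smulr a 0 u (0 : H)
    rwa [smul_zero, map_zero, zero_mul] at h
  | insert i s hi ih =>
    rw [Finset.sum_insert hi, Finset.sum_insert hi, LA6_addr, LA6_smulr, ih]

omit [FiniteDimensional ℂ H] in
private theorem LA6_Mt {a : Bil H} (ha : O11 a) {T : H →L[ℝ] H}
    (hT : ∀ v, T (Complex.I • v) = Complex.I • T v) {g : H →ₗ[ℂ] H} (hg : ∀ v, g v = T v) :
    Mt e (a.bilinearComp T T) =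
      (LinearMap.toMatrix e e g).transpose * Mt e a * (LinearMap.toMatrix e e g).map (starRingEnd ℂ) := by
  ext j k
  have h1 : Mt e (a.bilinearComp T T) j k = LA6_h a (g (e j)) (g (e k)) := by
    unfold Mt LA6_h
    rw [hg, hg]
    show ((a (T (e j)) (T (Complex.I • e k)) : ℝ) : ℂ) - Complex.I * ((a (T (e j)) (T (e k)) : ℝ) : ℂ) = _
    rw [hT]
  have h2 : ∀ l, g (e l) = ∑ p, (LinearMap.toMatrix e e g) p l • e p := by
    intro l
    have h := e.sum_repr (g (e l))
    rw [← h]
    refine Finset.sum_congr rfl fun p _ => ?_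
    rw [LinearMap.toMatrix_apply]
  rw [h1, h2 j, h2 k, LA6_suml e ha, Matrix.mul_apply]
  simp only [LA6_sumr, Matrix.mul_apply, Matrix.transpose_apply, Matrix.map_apply, Finset.mul_sum, Finset.sum_mul]
  rw [Finset.sum_comm]
  refine Finset.sum_congr rfl fun q _ => Finset.sum_congr rfl fun p _ => ?_
  show _ = LinearMap.toMatrix e e g p j * LA6_h a (e p) (e q) * _
  ring

theorem O11_comp {a : Bil H} (ha : O11 a) {T : H →L[ℝ] H} (hT : ∀ v, T (Complex.I • v) = Complex.I • T v) :
    O11 (a.bilinearComp T T) := by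
  refine ⟨fun v => ha.1 (T v), fun u v => ?_⟩
  show a (T (Complex.I • u)) (T (Complex.I • v)) = a (T u) (T v)
  rw [hT, hT, ha.2]

private theorem LA6_detmul (M : Matrix (Fin n) (Fin n) ℂ) :
    M.det * (M.map (starRingEnd ℂ)).det = ((Complex.normSq M.det : ℝ) : ℂ) := by
  have h : (M.map (starRingEnd ℂ)).det = (starRingEnd ℂ) M.det := (RingHom.map_det _ _).symm
  rw [h, Complex.mul_conj]

theorem dt_comp {a : Bil H} (ha : O11 a) {T : H →L[ℝ] H} (hT : ∀ v, T (Complex.I • v) = Complex.I • T v) :
    dt e (a.bilinearComp T T) = |T.det| * dt e a := by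
  obtain ⟨g, hg⟩ := LA6_cplx hT
  have h1 : T.det = Complex.normSq (LinearMap.toMatrix e e g).det := by
    rw [LA6_det hg, LinearMap.det_toMatrix]
  unfold dt
  rw [h1, abs_of_nonneg (Complex.normSq_nonneg _), LA6_Mt e ha hT hg, Matrix.det_mul, Matrix.det_mul,
    Matrix.det_transpose]
  have h2 := LA6_detmul (LinearMap.toMatrix e e g)
  rw [show (LinearMap.toMatrix e e g).det * (Mt e a).det * ((LinearMap.toMatrix e e g).map (starRingEnd ℂ)).det =
    ((LinearMap.toMatrix e e g).det * ((LinearMap.toMatrix e e g).map (starRingEnd ℂ)).det) * (Mt e a).det by ring,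
    h2, Complex.re_ofReal_mul]

theorem cf_comp {a s : Bil H} (ha : O11 a) (hs : O11 s) {T : H →L[ℝ] H} (hT : ∀ v, T (Complex.I • v) = Complex.I • T v) :
    cf e (a.bilinearComp T T) (s.bilinearComp T T) = |T.det| * cf e a s := by
  obtain ⟨g, hg⟩ := LA6_cplx hT
  have h1 : T.det = Complex.normSq (LinearMap.toMatrix e e g).det := by
    rw [LA6_det hg, LinearMap.det_toMatrix]
  unfold cf
  rw [h1, abs_of_nonneg (Complex.normSq_nonneg _), LA6_Mt e ha hT hg, LA6_Mt e hs hT hg]
  have h2 := LA6_detmul (LinearMap.toMatrix e e g)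
  generalize LinearMap.toMatrix e e g = M at h2 ⊢
  generalize M.map (starRingEnd ℂ) = N at h2 ⊢
  generalize Mt e a = A
  generalize Mt e s = S
  have h3 : (M.transpose * A * N).adjugate * (M.transpose * S * N) =
      N.adjugate * (A.adjugate * (M.transpose.adjugate * M.transpose) * S * N) := by
    rw [Matrix.adjugate_mul_distrib, Matrix.adjugate_mul_distrib]
    simp only [Matrix.mul_assoc]
  rw [h3, Matrix.trace_mul_comm, Matrix.adjugate_mul, Matrix.det_transpose]
  have h4 : A.adjugate * (M.det • (1 : Matrix (Fin n) (Fin n) ℂ)) * S * N * N.adjugate =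
      (M.det * N.det) • (A.adjugate * S) := by
    rw [Matrix.mul_assoc _ N N.adjugate, Matrix.mul_adjugate, Matrix.mul_smul, Matrix.mul_one, Matrix.mul_smul,
      Matrix.mul_one, Matrix.smul_mul, smul_smul, mul_comm N.det]
  rw [h4, Matrix.trace_smul, h2, smul_eq_mul, Complex.re_ofReal_mul]

theorem nn_comp {a : Bil H} {T : H →L[ℝ] H} (hT : ∀ v, T (Complex.I • v) = Complex.I • T v)
    (hb : Function.Surjective T) : Nn (a.bilinearComp T T) ↔ Nn a := by
  constructor
  · intro h v
    obtain ⟨u, rfl⟩ := hb v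
    have h1 : 0 ≤ a (T u) (T (Complex.I • u)) := h u
    rwa [hT] at h1
  · intro h v
    show 0 ≤ a (T v) (T (Complex.I • v))
    rw [hT]
    exact h (T v)

theorem pl_comp {a : Bil H} (ha : O11 a) {T : H →L[ℝ] H} (hT : ∀ v, T (Complex.I • v) = Complex.I • T v)
    (hb : Function.Surjective T) : pl e (a.bilinearComp T T) = |T.det| * pl e a := by
  unfold pl
  by_cases h : Nn a
  · rw [if_pos h, if_pos ((nn_comp hT hb).2 h), dt_comp e ha hT]
  · rw [if_neg h, if_neg (fun h' => h ((nn_comp hT hb).1 h')), mul_zero]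

end HDG
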