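import Pool.Agent.HDG.G2
import Pool.Agent.HDG.LA5
import Pool.Agent.HDG.LA6

/-!
# HDG/G4: densities

The densities `den`, `denp`, `dcf` are computed in any parametrized ball (`dt_comp`, `pl_comp`, `cf_comp`: both determinants are
multiplied by `|det|` of the derivative of the transition map); hence they are continuous resp. measurable.
-/

set_option autoImplicit false
set_option maxSynthPendingDepth 3

noncomputable section

open scoped ContDiff Topology

namespace HDG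

open Pool.Agent.FBR

variable {H : Type*} [NormedAddCommGroup H] [NormedSpace ℂ H] {n : ℕ} {e : Module.Basis (Fin n) ℂ H}
  [FiniteDimensional ℂ H] {Y : Type*} [TopologicalSpace Y] (B : BM e Y) {w a s : B.I → H → Bil H}

namespace BM

private theorem G4_cd (y : Y) : B.cd y ∈ qb e 4 := qb_mono (by norm_num) (by norm_num) (B.cd_mem y)

private theorem G4_key {y : Y} {i : B.I} {z : H} (hz : z ∈ qb e 4) (hy : B.ψ i z = y) :
    ∃ L : H →L[ℝ] H, (∀ v, L (Complex.I • v) = Complex.I • L v) ∧ Function.Surjective L ∧ |L.det| ≠ 0 ∧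
      ∀ a : B.I → H → Bil H, B.IsT a → a (B.ix y) (B.cd y) = (a i z).bilinearComp L L := by
  obtain ⟨hD, hT⟩ := B.T_eq (i := B.ix y) (j := i) (G4_cd B y) hz (by rw [B.ψ_cd, hy])
  refine ⟨fderiv ℝ (B.T (B.ix y) i) (B.cd y), fun v => B.T_I hD v, (B.T_bij hD).2, ?_, ?_⟩
  · have h1 := B.T_inv hD
    rw [abs_ne_zero]
    intro h0
    have h2 : LinearMap.det (((fderiv ℝ (B.T i (B.ix y)) (B.T (B.ix y) i (B.cd y))).comp
        (fderiv ℝ (B.T (B.ix y) i) (B.cd y)) : H →L[ℝ] H) : H →ₗ[ℝ] H) = 1 := by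
      rw [h1]
      exact LinearMap.det_id
    have h4 : LinearMap.det (((fderiv ℝ (B.T i (B.ix y)) (B.T (B.ix y) i (B.cd y))).comp
        (fderiv ℝ (B.T (B.ix y) i) (B.cd y)) : H →L[ℝ] H) : H →ₗ[ℝ] H) =
        LinearMap.det (fderiv ℝ (B.T i (B.ix y)) (B.T (B.ix y) i (B.cd y)) : H →ₗ[ℝ] H) *
          LinearMap.det (fderiv ℝ (B.T (B.ix y) i) (B.cd y) : H →ₗ[ℝ] H) := LinearMap.det_comp _ _
    have h3 : LinearMap.det (fderiv ℝ (B.T (B.ix y) i) (B.cd y) : H →ₗ[ℝ] H) = 0 := h0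
    rw [h3, mul_zero, h2] at h4
    exact one_ne_zero h4
  · intro a ha
    have h1 := ha.co _ _ _ hD
    rw [hT] at h1
    exact h1

theorem dt_w_pos (hw : B.Met w) {i : B.I} {z : H} (hz : z ∈ qb e 4) : 0 < dt e (w i z) := by
  refine (dt_pos e (hw.t.oo i z hz) ?_).2 fun v hv => hw.pos i z hz v hv
  intro v
  by_cases hv : v = 0
  · rw [hv, smul_zero, map_zero]
  · exact (hw.pos i z hz v hv).le

theorem den_box (hw : B.Met w) (ha : B.IsT a) {i : B.I} {z : H} (hz : z ∈ qb e 4) :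
    B.den w a (B.ψ i z) = dt e (a i z) / dt e (w i z) := by
  obtain ⟨L, hI, _, hd, hL⟩ := G4_key B hz (rfl : B.ψ i z = B.ψ i z)
  unfold den
  rw [hL a ha, hL w hw.t, dt_comp e (ha.oo i z hz) hI, dt_comp e (hw.t.oo i z hz) hI, mul_div_mul_left _ _ hd]

theorem denp_box (hw : B.Met w) (ha : B.IsT a) {i : B.I} {z : H} (hz : z ∈ qb e 4) :
    B.denp w a (B.ψ i z) = pl e (a i z) / dt e (w i z) := by
  obtain ⟨L, hI, hs, hd, hL⟩ := G4_key B hz (rfl : B.ψ i z = B.ψ i z)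
  unfold denp
  rw [hL a ha, hL w hw.t, pl_comp e (ha.oo i z hz) hI hs, dt_comp e (hw.t.oo i z hz) hI, mul_div_mul_left _ _ hd]

theorem dcf_box (hw : B.Met w) (ha : B.IsT a) (hs : B.IsT s) {i : B.I} {z : H} (hz : z ∈ qb e 4) :
    B.dcf w a s (B.ψ i z) = cf e (a i z) (s i z) / dt e (w i z) := by
  obtain ⟨L, hI, _, hd, hL⟩ := G4_key B hz (rfl : B.ψ i z = B.ψ i z)
  unfold dcf
  rw [hL a ha, hL w hw.t, hL s hs, cf_comp e (ha.oo i z hz) (hs.oo i z hz) hI, dt_comp e (hw.t.oo i z hz) hI,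
    mul_div_mul_left _ _ hd]

private theorem G4_cont {P : Type*} [TopologicalSpace P] (f : P × Y → ℝ) (F : B.I → P × H → ℝ)
    (hF : ∀ i, ContinuousOn (F i) (Set.univ ×ˢ qb e 4))
    (h : ∀ i (p : P) (z : H), z ∈ qb e 4 → f (p, B.ψ i z) = F i (p, z)) : Continuous f := by
  rw [continuous_iff_continuousAt]
  rintro ⟨p, y⟩
  obtain ⟨i, z, hz1, hy⟩ := B.cov y
  have hz : z ∈ qb e 4 := qb_mono (by norm_num) (by norm_num) hz1
  subst hy
  have hopen : IsOpen ((Set.univ : Set P) ×ˢ (qb e 4 : Set H)) := isOpen_univ.prod (isOpen_qb e 4)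
  have hc : ContinuousAt (F i) (p, z) := (hF i).continuousAt (hopen.mem_nhds ⟨Set.mem_univ _, hz⟩)
  rw [ContinuousAt, Filter.tendsto_def]
  intro V hV
  rw [h i p z hz] at hV
  have h1 : F i ⁻¹' V ∩ (Set.univ ×ˢ qb e 4) ∈ 𝓝 (p, z) :=
    Filter.inter_mem (hc hV) (hopen.mem_nhds ⟨Set.mem_univ _, hz⟩)
  obtain ⟨S, U, hS, hpS, hU, hzU, hsub⟩ := mem_nhds_prod_iff'.1 h1
  have hUq : U ⊆ qb e 4 := by
    intro z' hz'
    exact (hsub (show (p, z') ∈ S ×ˢ U from ⟨hpS, hz'⟩)).2.2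
  have h2 : S ×ˢ (B.ψ i '' U) ∈ 𝓝 (p, B.ψ i z) :=
    prod_mem_nhds (hS.mem_nhds hpS) ((B.opn i U hUq hU).mem_nhds ⟨z, hzU, rfl⟩)
  refine Filter.mem_of_superset h2 ?_
  rintro ⟨p', y'⟩ ⟨hp', z', hz', rfl⟩
  show f (p', B.ψ i z') ∈ V
  rw [h i p' z' (hUq hz')]
  exact (hsub (show (p', z') ∈ S ×ˢ U from ⟨hp', hz'⟩)).1

private theorem G4_snd {a : B.I → H → Bil H} (ha : B.IsT a) (i : B.I) :
    ContinuousOn (fun q : ℝ × H => a i q.2) (Set.univ ×ˢ qb e 4) :=
  (ha.sm i).continuousOn.comp continuousOn_snd fun _ hq => hq.2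

private theorem G4_seg (ha : B.IsT a) (hs : B.IsT s) (i : B.I) :
    ContinuousOn (fun q : ℝ × H => a i q.2 + q.1 • s i q.2) (Set.univ ×ˢ qb e 4) :=
  (G4_snd B ha i).add (continuousOn_fst.smul (G4_snd B hs i))

private theorem G4_w (hw : B.Met w) (i : B.I) :
    ContinuousOn (fun q : ℝ × H => dt e (w i q.2)) (Set.univ ×ˢ qb e 4) :=
  (dt_smooth e).continuous.comp_continuousOn (G4_snd B hw.t i)

private theorem G4_cont' (f : Y → ℝ) (F : B.I → H → ℝ) (hF : ∀ i, ContinuousOn (F i) (qb e 4))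
    (h : ∀ i (z : H), z ∈ qb e 4 → f (B.ψ i z) = F i z) : Continuous f := by
  have h1 : Continuous fun p : ℝ × Y => f p.2 :=
    G4_cont B (fun p : ℝ × Y => f p.2) (fun i (q : ℝ × H) => F i q.2)
      (fun i => (hF i).comp continuousOn_snd fun _ hq => hq.2) fun i _ z hz => h i z hz
  have h2 : Continuous fun y : Y => ((0 : ℝ), y) := continuous_const.prodMk continuous_id
  exact h1.comp h2

private theorem G4_w' (hw : B.Met w) (i : B.I) : ContinuousOn (fun z : H => dt e (w i z)) (qb e 4) :=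
  (dt_smooth e).continuous.comp_continuousOn (hw.t.sm i).continuousOn

theorem den_cont (hw : B.Met w) (ha : B.IsT a) : Continuous (B.den w a) := by
  have h1 : ∀ i, ContinuousOn (fun z : H => dt e (a i z) / dt e (w i z)) (qb e 4) := fun i =>
    ((dt_smooth e).continuous.comp_continuousOn (ha.sm i).continuousOn).div (G4_w' B hw i)
      fun z hz => (B.dt_w_pos hw hz).ne'
  exact G4_cont' B (B.den w a) _ h1 fun i z hz => B.den_box hw ha hz

theorem dcf_cont (hw : B.Met w) (ha : B.IsT a) (hs : B.IsT s) : Continuous (B.dcf w a s) := by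
  have h1 : ∀ i, ContinuousOn (fun z : H => cf e (a i z) (s i z) / dt e (w i z)) (qb e 4) := fun i =>
    ((cf_smooth e).continuous.comp_continuousOn ((ha.sm i).continuousOn.prodMk (hs.sm i).continuousOn)).div
      (G4_w' B hw i) fun z hz => (B.dt_w_pos hw hz).ne'
  exact G4_cont' B (B.dcf w a s) _ h1 fun i z hz => B.dcf_box hw ha hs hz

private theorem G4_app (a s : B.I → H → Bil H) (p : ℝ) (i : B.I) (z : H) :
    (a + p • s) i z = a i z + p • s i z := rfl

private theorem G4_den (hw : B.Met w) (ha : B.IsT a) (hs : B.IsT s) (i : B.I) (p : ℝ) (z : H) (hz : z ∈ qb e 4) :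
    B.den w (a + p • s) (B.ψ i z) = dt e (a i z + p • s i z) / dt e (w i z) := by
  rw [B.den_box hw (B.IsT_add ha (B.IsT_smul hs p)) (i := i) hz, G4_app]

private theorem G4_dcf (hw : B.Met w) (ha : B.IsT a) (hs : B.IsT s) (i : B.I) (p : ℝ) (z : H) (hz : z ∈ qb e 4) :
    B.dcf w (a + p • s) s (B.ψ i z) = cf e (a i z + p • s i z) (s i z) / dt e (w i z) := by
  rw [B.dcf_box hw (B.IsT_add ha (B.IsT_smul hs p)) hs (i := i) hz, G4_app]

/-- `den` along a segment is jointly continuous -/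
theorem den_cont₂ (hw : B.Met w) (ha : B.IsT a) (hs : B.IsT s) :
    Continuous fun p : ℝ × Y => B.den w (a + p.1 • s) p.2 := by
  have h1 : ∀ i, ContinuousOn (fun q : ℝ × H => dt e (a i q.2 + q.1 • s i q.2) / dt e (w i q.2))
      (Set.univ ×ˢ qb e 4) := fun i =>
    ((dt_smooth e).continuous.comp_continuousOn (G4_seg B ha hs i)).div (G4_w B hw i)
      fun q hq => (B.dt_w_pos hw hq.2).ne'
  exact G4_cont B (fun p : ℝ × Y => B.den w (a + p.1 • s) p.2)
    (fun i (q : ℝ × H) => dt e (a i q.2 + q.1 • s i q.2) / dt e (w i q.2)) h1 (G4_den B hw ha hs)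

theorem dcf_cont₂ (hw : B.Met w) (ha : B.IsT a) (hs : B.IsT s) :
    Continuous fun p : ℝ × Y => B.dcf w (a + p.1 • s) s p.2 := by
  have h1 : ∀ i, ContinuousOn (fun q : ℝ × H => cf e (a i q.2 + q.1 • s i q.2) (s i q.2) / dt e (w i q.2))
      (Set.univ ×ˢ qb e 4) := fun i =>
    ((cf_smooth e).continuous.comp_continuousOn ((G4_seg B ha hs i).prodMk (G4_snd B hs i))).div (G4_w B hw i)
      fun q hq => (B.dt_w_pos hw hq.2).ne'
  exact G4_cont B (fun p : ℝ × Y => B.dcf w (a + p.1 • s) s p.2)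
    (fun i (q : ℝ × H) => cf e (a i q.2 + q.1 • s i q.2) (s i q.2) / dt e (w i q.2)) h1 (G4_dcf B hw ha hs)

theorem hasDerivAt_den (ha : B.IsT a) (hs : B.IsT s) (y : Y) (t : ℝ) :
    HasDerivAt (fun t : ℝ => B.den w (a + t • s) y) (B.dcf w (a + t • s) s y) t :=
  (hasDerivAt_dt e (a (B.ix y) (B.cd y)) (s (B.ix y) (B.cd y)) t).div_const _

private theorem G4_closed (ha : B.IsT a) : IsClosed {y : Y | Nn (a (B.ix y) (B.cd y))} := by
  have hiff : ∀ i (z : H), z ∈ qb e 4 → (Nn (a (B.ix (B.ψ i z)) (B.cd (B.ψ i z))) ↔ Nn (a i z)) := by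
    intro i z hz
    obtain ⟨L, hI, hs, _, hL⟩ := G4_key B hz (rfl : B.ψ i z = B.ψ i z)
    rw [hL a ha]
    exact nn_comp hI hs
  rw [← isOpen_compl_iff, isOpen_iff_mem_nhds]
  intro y hy
  obtain ⟨i, z, hz1, hyz⟩ := B.cov y
  have hz : z ∈ qb e 4 := qb_mono (by norm_num) (by norm_num) hz1
  subst hyz
  have h1 : ¬ Nn (a i z) := fun h => hy ((hiff i z hz).2 h)
  unfold Nn at h1
  push Not at h1
  obtain ⟨v, hv⟩ := h1
  have hc : ContinuousOn (fun z => a i z v (Complex.I • v)) (qb e 4) :=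
    ((ha.sm i).continuousOn.clm_apply continuousOn_const).clm_apply continuousOn_const
  have hU : IsOpen ((qb e 4 : Set H) ∩ (fun z => a i z v (Complex.I • v)) ⁻¹' Set.Iio 0) :=
    hc.isOpen_inter_preimage (isOpen_qb e 4) isOpen_Iio
  refine Filter.mem_of_superset ((B.opn i _ Set.inter_subset_left hU).mem_nhds ⟨z, ⟨hz, hv⟩, rfl⟩) ?_
  rintro _ ⟨z', ⟨hz', hv'⟩, rfl⟩ hn
  have h2 := (hiff i z' hz').1 hn v
  have h3 : a i z' v (Complex.I • v) < 0 := hv'
  exact absurd h2 (not_le.2 h3)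

theorem denp_meas [MeasurableSpace Y] [BorelSpace Y] (hw : B.Met w) (ha : B.IsT a) : Measurable (B.denp w a) := by
  classical
  have h1 : B.denp w a = fun y => if y ∈ {y : Y | Nn (a (B.ix y) (B.cd y))} then B.den w a y else 0 := by
    funext y
    simp only [Set.mem_ofPred_eq]
    by_cases h : Nn (a (B.ix y) (B.cd y))
    · rw [if_pos h]
      unfold denp den
      rw [pl_of_nn e h]
    · rw [if_neg h]
      unfold denp pl
      rw [if_neg h, zero_div]
  rw [h1]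
  exact Measurable.ite (G4_closed B ha).measurableSet (B.den_cont hw ha).measurable measurable_const

theorem denp_nonneg (hw : B.Met w) (ha : B.IsT a) (y : Y) : 0 ≤ B.denp w a y :=
  div_nonneg (pl_nonneg e (ha.oo _ _ (G4_cd B y))) (B.dt_w_pos hw (G4_cd B y)).le

theorem denp_bd (hw : B.Met w) (ha : B.IsT a) : ∃ C : ℝ, 0 ≤ C ∧ ∀ y, B.denp w a y ≤ C := by
  obtain ⟨C1, _, h1⟩ := B.IsT_bd ha (r := 1) (by norm_num) (by norm_num)
  obtain ⟨C2, hC2, h2⟩ := pl_bound (H := H) e C1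
  obtain ⟨c, hc, h3⟩ := B.Met_ge hw (r := 1) (by norm_num) (by norm_num)
  refine ⟨C2 / c ^ n, by positivity, fun y => ?_⟩
  have hq : qf e (B.cd y) ≤ 1 ^ 2 := le_of_lt (B.cd_mem y)
  have h4 : c ^ n ≤ dt e (w (B.ix y) (B.cd y)) := by
    have h5 : dt e (c • w0 e : Bil H) = c ^ n := by rw [dt_zero_smul, dt_w0, mul_one]
    rw [← h5]
    refine dt_mono e (O11_smul c (w0_O11 e)) (hw.t.oo _ _ (G4_cd B y)) ?_ (h3 _ _ hq)
    intro v
    have h6 : (c • w0 e : Bil H) v (Complex.I • v) = c * w0 e v (Complex.I • v) := rfl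
    rw [h6, w0_self]
    exact mul_nonneg hc.le (qf_nonneg e v)
  exact div_le_div₀ hC2 ((le_abs_self _).trans (h2 _ (h1 _ _ hq))) (by positivity) h4

theorem denp_of_nn {y : Y} (hw : B.Met w) (ha : B.IsT a) (h : B.NnT a) : B.denp w a y = B.den w a y := by
  unfold denp den
  rw [pl_of_nn e (h _ _ (G4_cd B y))]

theorem dcf_add (w a s s' : B.I → H → Bil H) (y : Y) : B.dcf w a (s + s') y = B.dcf w a s y + B.dcf w a s' y := by
  have h : (s + s') (B.ix y) (B.cd y) = s (B.ix y) (B.cd y) + s' (B.ix y) (B.cd y) := rfl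
  unfold dcf
  rw [h, cf_add, add_div]

theorem dcf_smul (w a s : B.I → H → Bil H) (c : ℝ) (y : Y) : B.dcf w a (c • s) y = c * B.dcf w a s y := by
  have h : (c • s) (B.ix y) (B.cd y) = c • s (B.ix y) (B.cd y) := rfl
  unfold dcf
  rw [h, cf_smul, mul_div_assoc]

/-- `dcf` only depends on the values of the tensors on the balls -/
theorem dcf_congr {s s' : B.I → H → Bil H} (h : ∀ i, ∀ z ∈ qb e 4, s i z = s' i z) (y : Y) :
    B.dcf w a s y = B.dcf w a s' y := by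
  unfold dcf
  rw [h _ _ (G4_cd B y)]

theorem den_congr {a a' : B.I → H → Bil H} (h : ∀ i, ∀ z ∈ qb e 4, a i z = a' i z) (y : Y) :
    B.den w a y = B.den w a' y := by
  unfold den
  rw [h _ _ (G4_cd B y)]

theorem denp_congr {a a' : B.I → H → Bil H} (h : ∀ i, ∀ z ∈ qb e 4, a i z = a' i z) (y : Y) :
    B.denp w a y = B.denp w a' y := by
  unfold denp
  rw [h _ _ (G4_cd B y)]

end BM

end HDG
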