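import Pool.Agent.HDG.G4

/-!
# HDG/G6: integrals in a ball

The volume measure restricted to the ball `i` is the image of the measure with density `dt (w i)` (`g6_meas`); integrals of functions supported in a ball
(`box_int`), of densities (`int_den`, `int_denp`, `int_dcf`), positivity on open sets, integrability of bounded functions.
-/

set_option autoImplicit false

noncomputable section

open scoped ContDiff Topology ENNReal

open MeasureTheory

namespace HDG

open Pool.Agent.FBR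

variable {H : Type*} [NormedAddCommGroup H] [NormedSpace ℂ H] {n : ℕ} {e : Module.Basis (Fin n) ℂ H}
  [FiniteDimensional ℂ H] [MeasurableSpace H] [BorelSpace H] {μ : Measure H} [μ.IsAddHaarMeasure]
  {Y : Type*} [TopologicalSpace Y] [MeasurableSpace Y] [BorelSpace Y] (B : BM e Y) {w a s : B.I → H → Bil H}
  {ν : Measure Y}

namespace BM

private theorem g6_qb_meas : MeasurableSet (qb e 4 : Set H) := (isOpen_qb e 4).measurableSet

private theorem g6_img_open (i : B.I) : IsOpen (B.ψ i '' (qb e 4 : Set H)) :=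
  B.opn i _ subset_rfl (isOpen_qb e 4)

private theorem g6_ψ (i : B.I) : AEMeasurable (B.ψ i) (μ.restrict (qb e 4)) :=
  (B.cont i).aemeasurable g6_qb_meas

private theorem g6_dt (hw : B.Met w) (i : B.I) : AEMeasurable (fun z => dt e (w i z)) (μ.restrict (qb e 4)) :=
  ((dt_smooth e).continuous.comp_continuousOn (hw.t.sm i).continuousOn).aemeasurable g6_qb_meas

private theorem g6_meas (hw : B.Met w) (hν : B.IsVol μ w ν) (i : B.I) :
    ν.restrict (B.ψ i '' qb e 4) =
      ((μ.restrict (qb e 4)).withDensity fun z => ENNReal.ofReal (dt e (w i z))).map (B.ψ i) := by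
  have : ProperSpace H := FiniteDimensional.proper ℂ H
  have hψ : AEMeasurable (B.ψ i) ((μ.restrict (qb e 4)).withDensity fun z => ENNReal.ofReal (dt e (w i z))) :=
    (g6_ψ B i).mono_ac (withDensity_absolutelyContinuous _ _)
  ext A hA
  have h1 := hν.box i (A.indicator 1) (measurable_one.indicator hA)
  rw [lintegral_indicator_one hA] at h1
  have hN : NullMeasurableSet (B.ψ i ⁻¹' A) (μ.restrict (qb e 4)) := (g6_ψ B i).nullMeasurableSet_preimage hA
  rw [h1, Measure.map_apply_of_aemeasurable hψ hA, withDensity_apply', ← lintegral_indicator₀ hN]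
  refine lintegral_congr fun z => ?_
  by_cases hz : B.ψ i z ∈ A
  · rw [Set.indicator_of_mem hz, Set.indicator_of_mem (show z ∈ B.ψ i ⁻¹' A from hz), Pi.one_apply, one_mul]
  · rw [Set.indicator_of_notMem hz, Set.indicator_of_notMem (show z ∉ B.ψ i ⁻¹' A from hz), zero_mul]

theorem box_int (hw : B.Met w) (hν : B.IsVol μ w ν) (i : B.I) {f : Y → ℝ} (hf : Measurable f)
    (h0 : ∀ y, (∀ z ∈ qb e 4, B.ψ i z ≠ y) → f y = 0) :
    ∫ y, f y ∂ν = ∫ z in qb e 4, f (B.ψ i z) * dt e (w i z) ∂μ := by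
  have hψ : AEMeasurable (B.ψ i) ((μ.restrict (qb e 4)).withDensity fun z => ENNReal.ofReal (dt e (w i z))) :=
    (g6_ψ B i).mono_ac (withDensity_absolutelyContinuous _ _)
  have h1 : ∫ y, f y ∂ν = ∫ y in B.ψ i '' qb e 4, f y ∂ν := by
    refine (setIntegral_eq_integral_of_forall_compl_eq_zero fun y hy => h0 y fun z hz he => ?_).symm
    exact hy ⟨z, hz, he⟩
  rw [h1, g6_meas B hw hν i, integral_map hψ hf.aestronglyMeasurable,
    integral_withDensity_eq_integral_toReal_smul₀ (g6_dt B hw i).ennreal_ofReal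
      (Filter.Eventually.of_forall fun z => ENNReal.ofReal_lt_top)]
  refine setIntegral_congr_fun g6_qb_meas fun z hz => ?_
  show (ENNReal.ofReal (dt e (w i z))).toReal • f (B.ψ i z) = f (B.ψ i z) * dt e (w i z)
  rw [ENNReal.toReal_ofReal (B.dt_w_pos hw hz).le, smul_eq_mul, mul_comm]

theorem int_den (hw : B.Met w) (hν : B.IsVol μ w ν) (ha : B.IsT a) (i : B.I) {f : Y → ℝ} (hf : Measurable f)
    (h0 : ∀ y, (∀ z ∈ qb e 4, B.ψ i z ≠ y) → f y = 0) :
    ∫ y, f y * B.den w a y ∂ν = ∫ z in qb e 4, f (B.ψ i z) * dt e (a i z) ∂μ := by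
  rw [B.box_int hw hν i (f := fun y => f y * B.den w a y) (hf.mul (B.den_cont hw ha).measurable)
    fun y hy => by rw [h0 y hy, zero_mul]]
  refine setIntegral_congr_fun g6_qb_meas fun z hz => ?_
  show f (B.ψ i z) * B.den w a (B.ψ i z) * dt e (w i z) = f (B.ψ i z) * dt e (a i z)
  rw [B.den_box hw ha hz, mul_assoc, div_mul_cancel₀ _ (B.dt_w_pos hw hz).ne']

theorem int_denp (hw : B.Met w) (hν : B.IsVol μ w ν) (ha : B.IsT a) (i : B.I) {f : Y → ℝ} (hf : Measurable f)
    (h0 : ∀ y, (∀ z ∈ qb e 4, B.ψ i z ≠ y) → f y = 0) :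
    ∫ y, f y * B.denp w a y ∂ν = ∫ z in qb e 4, f (B.ψ i z) * pl e (a i z) ∂μ := by
  rw [B.box_int hw hν i (f := fun y => f y * B.denp w a y) (hf.mul (B.denp_meas hw ha))
    fun y hy => by rw [h0 y hy, zero_mul]]
  refine setIntegral_congr_fun g6_qb_meas fun z hz => ?_
  show f (B.ψ i z) * B.denp w a (B.ψ i z) * dt e (w i z) = f (B.ψ i z) * pl e (a i z)
  rw [B.denp_box hw ha hz, mul_assoc, div_mul_cancel₀ _ (B.dt_w_pos hw hz).ne']

theorem int_dcf (hw : B.Met w) (hν : B.IsVol μ w ν) (ha : B.IsT a) (hs : B.IsT s) (i : B.I) {f : Y → ℝ}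
    (hf : Measurable f) (h0 : ∀ y, (∀ z ∈ qb e 4, B.ψ i z ≠ y) → f y = 0) :
    ∫ y, f y * B.dcf w a s y ∂ν = ∫ z in qb e 4, f (B.ψ i z) * cf e (a i z) (s i z) ∂μ := by
  rw [B.box_int hw hν i (f := fun y => f y * B.dcf w a s y) (hf.mul (B.dcf_cont hw ha hs).measurable)
    fun y hy => by rw [h0 y hy, zero_mul]]
  refine setIntegral_congr_fun g6_qb_meas fun z hz => ?_
  show f (B.ψ i z) * B.dcf w a s (B.ψ i z) * dt e (w i z) = f (B.ψ i z) * cf e (a i z) (s i z)
  rw [B.dcf_box hw ha hs hz, mul_assoc, div_mul_cancel₀ _ (B.dt_w_pos hw hz).ne']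

theorem vol_open (hw : B.Met w) (hν : B.IsVol μ w ν) {U : Set Y} (hU : IsOpen U) (hne : U.Nonempty) : 0 < ν U := by
  obtain ⟨y, hy⟩ := hne
  obtain ⟨i, z, hz, rfl⟩ := B.cov y
  have hz4 : z ∈ qb e 4 := BM.qb_mono zero_le_one (by norm_num) hz
  have hV : IsOpen ((qb e 4 : Set H) ∩ B.ψ i ⁻¹' U) := (B.cont i).isOpen_inter_preimage (isOpen_qb e 4) hU
  have hμ : 0 < μ ((qb e 4 : Set H) ∩ B.ψ i ⁻¹' U) := hV.measure_pos μ ⟨z, hz4, hy⟩
  refine pos_iff_ne_zero.mpr fun h0 => hμ.ne' ?_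
  have h1 : ((μ.restrict (qb e 4)).withDensity fun z => ENNReal.ofReal (dt e (w i z))) (B.ψ i ⁻¹' U) = 0 := by
    have h2 : (ν.restrict (B.ψ i '' qb e 4)) U = 0 :=
      le_antisymm ((Measure.restrict_apply_le _ _).trans h0.le) (zero_le)
    rw [g6_meas B hw hν i, Measure.map_apply_of_aemeasurable
      ((g6_ψ B i).mono_ac (withDensity_absolutelyContinuous _ _)) hU.measurableSet] at h2
    exact h2
  have h3 := (withDensity_apply_eq_zero' (g6_dt (μ := μ) B hw i).ennreal_ofReal).1 h1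
  have h4 := (Measure.le_restrict_apply (qb e 4) _).trans h3.le
  refine le_antisymm ((measure_mono fun z hz => ?_).trans h4) (zero_le)
  exact ⟨⟨(ENNReal.ofReal_pos.mpr (B.dt_w_pos hw hz.1)).ne', hz.2⟩, hz.1⟩

theorem bd_int (hν : B.IsVol μ w ν) {f : Y → ℝ} (hf : Measurable f) {C : ℝ} (hC : ∀ y, |f y| ≤ C) : Integrable f ν := by
  have := hν.fin
  exact Integrable.of_bound hf.aestronglyMeasurable C (Filter.Eventually.of_forall hC)

end BM

end HDG
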