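import Pool.Agent.HDG.G3
import Pool.Agent.HDG.G6
import Pool.Agent.HDG.LC5

/-!
# HDG/G7: Stokes on a compact manifold

`glob_S1` is the symmetry of the pairing `(f, g) ↦ ∫ f dcf(a)(dd^c g)` on a compact complex manifold, for a closed tensor `a`:
with a partition of unity it reduces to the local statement `S1`. Consequences: exact tensors have integral zero against closed
ones (`int_dcf_dd`), and the mass `∫ a ^ n` does not change along directions with vanishing derivative (`mass_exact`, `mass_dd`).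
-/

set_option autoImplicit false

noncomputable section

open scoped ContDiff Topology ENNReal

open MeasureTheory

namespace HDG

open Pool.Agent.FBR

variable {H : Type*} [NormedAddCommGroup H] [NormedSpace ℂ H] {n : ℕ} {e : Module.Basis (Fin n) ℂ H}
  [FiniteDimensional ℂ H] [MeasurableSpace H] [BorelSpace H] {μ : Measure H} [μ.IsAddHaarMeasure]
  {Y : Type*} [TopologicalSpace Y] [CompactSpace Y] [T2Space Y] [MeasurableSpace Y] [BorelSpace Y]
  (B : BM e Y) {w a : B.I → H → Bil H} {ν : Measure Y}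

namespace BM

omit [FiniteDimensional ℂ H] [MeasurableSpace H] [BorelSpace H] in
private theorem G7_zs (x : Bil H) : (0 : ℝ) • x = 0 :=
  ContinuousLinearMap.ext fun u => ContinuousLinearMap.ext fun v => zero_mul (x u v)

omit [FiniteDimensional ℂ H] [MeasurableSpace H] [BorelSpace H] in
private theorem G7_add0 (x : Bil H) : x + 0 = x :=
  ContinuousLinearMap.ext fun u => ContinuousLinearMap.ext fun v => add_zero (x u v)

omit [FiniteDimensional ℂ H] [MeasurableSpace H] [BorelSpace H] in
private theorem G7_ddc_zero {f : H → ℝ} {z : H} (h : f =ᶠ[𝓝 z] fun _ => (0 : ℝ)) : ddc f z = 0 := by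
  have h2 : ddc (fun _ : H => (0 : ℝ)) z = 0 := by
    have h3 := ddc_smul (H := H) (0 : ℝ) (φ := fun _ => (0 : ℝ)) (q := z) contDiffAt_const
    have h4 : (fun x : H => (0 : ℝ) * (fun _ : H => (0 : ℝ)) x) = fun _ => 0 := by
      funext x
      simp
    rw [h4] at h3
    exact h3.trans (G7_zs _)
  rw [ddc_congr h, h2]

omit [MeasurableSpace H] [BorelSpace H] in
private theorem G7_cf_zero (b : Bil H) : cf e b 0 = 0 := by
  have h := cf_smul e b 0 (0 : Bil H)
  have h1 : (0 : ℝ) • (0 : Bil H) = 0 := G7_zs _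
  rw [h1, zero_mul] at h
  exact h

omit [MeasurableSpace H] [BorelSpace H] [CompactSpace Y] [T2Space Y] [MeasurableSpace Y] [BorelSpace Y] in
private theorem G7_dcf_sum (w a : B.I → H → Bil H) {ι : Type*} (t : Finset ι) (S : ι → B.I → H → Bil H) (y : Y) :
    B.dcf w a (∑ k ∈ t, S k) y = ∑ k ∈ t, B.dcf w a (S k) y := by
  classical
  induction t using Finset.induction_on with
  | empty =>
    rw [Finset.sum_empty, Finset.sum_empty]
    have h := B.dcf_smul w a (0 : B.I → H → Bil H) 0 y
    have h1 : (0 : ℝ) • (0 : B.I → H → Bil H) = 0 := funext fun _ => funext fun _ => G7_zs _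
    rw [h1, zero_mul] at h
    exact h
  | insert k t hk ih =>
    rw [Finset.sum_insert hk, Finset.sum_insert hk, B.dcf_add, ih]

omit [T2Space Y] in
private theorem G7_int {ν : Measure Y} (hν : IsFiniteMeasure ν) {f : Y → ℝ} (hf : Continuous f) : Integrable f ν := by
  have := hν
  exact hf.integrable_of_hasCompactSupport (HasCompactSupport.of_compactSpace f)

theorem glob_S1 (hw : B.Met w) (hν : B.IsVol μ w ν) (ha : B.IsT a) (hc : B.ClT a) {f g : Y → ℝ} (hf : B.Sm f)
    (hg : B.Sm g) : ∫ y, f y * B.dcf w a (B.dd g) y ∂ν = ∫ y, g y * B.dcf w a (B.dd f) y ∂ν := by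
  obtain ⟨χ, c, hχ⟩ := B.exists_pou (e := e) (Y := Y)
  have hsub1 : ∀ i, tsupport (c i) ⊆ qb e (7 / 2) := by
    intro i z hz
    have h1 : qf e z ≤ (3 / 2) ^ 2 := hχ.cs i hz
    show qf e z < (7 / 2) ^ 2
    exact lt_of_le_of_lt h1 (by norm_num)
  have hsub2 : (qb e (7 / 2) : Set H) ⊆ qb e 4 := qb_mono (by norm_num) (by norm_num)
  have hcc : ∀ i, HasCompactSupport (c i) := fun i =>
    (isCompact_qb e (3 / 2)).of_isClosed_subset (isClosed_tsupport _) (hχ.cs i)
  -- the local identities
  have hloc : ∀ i, ∫ y, (χ i y * f y) * B.dcf w a (B.dd g) y ∂ν =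
      ∫ y, g y * B.dcf w a (B.dd fun y => χ i y * f y) y ∂ν := by
    intro i
    obtain ⟨φ, hφ, hφ1, hφ2⟩ := B.loc_fun hf i
    obtain ⟨γ, hγ, hγ1, hγ2⟩ := B.loc_fun hg i
    obtain ⟨b, hb, hb1, hb2, hb3⟩ := B.loc_ten ha i
    have hle : ∀ z ∈ tsupport (c i), qf e z ≤ (7 / 2) ^ 2 := fun z hz => le_of_lt (hsub1 i hz)
    set Q : Set Y := B.ψ i '' tsupport (c i) with hQdef
    have hQc : IsCompact Q := (hcc i).image_of_continuousOn ((B.cont i).mono ((hsub1 i).trans hsub2))
    have hQ : IsClosed Q := hQc.isClosed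
    have hQmem : ∀ z ∈ qb e 4, B.ψ i z ∈ Q → z ∈ tsupport (c i) := by
      rintro z hz ⟨z', hz', h⟩
      have h1 : z' = z := B.inj i (hsub2 (hsub1 i hz')) hz h
      rwa [← h1]
    -- left side
    have hL : ∫ y, (χ i y * f y) * B.dcf w a (B.dd g) y ∂ν = ∫ z, (c i z * φ z) * cf e (b z) (ddc γ z) ∂μ := by
      have hm : Measurable fun y => χ i y * f y := ((B.Sm_cont (hχ.sm i)).mul (B.Sm_cont hf)).measurable
      have h0 : ∀ y, (∀ z ∈ qb e 4, B.ψ i z ≠ y) → χ i y * f y = 0 := by
        intro y hy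
        rw [hχ.out i y hy, zero_mul]
      rw [B.int_dcf hw hν ha (B.IsT_dd hg) i hm h0]
      have hz0 : ∀ z ∉ (qb e 4 : Set H), (c i z * φ z) * cf e (b z) (ddc γ z) = 0 := by
        intro z hz
        have h1 : z ∉ tsupport (c i) := fun h => hz (hsub2 (hsub1 i h))
        rw [image_eq_zero_of_notMem_tsupport h1, zero_mul, zero_mul]
      rw [← setIntegral_eq_integral_of_forall_compl_eq_zero hz0]
      refine setIntegral_congr_fun (isOpen_qb e 4).measurableSet fun z hz => ?_
      show (χ i (B.ψ i z) * f (B.ψ i z)) * cf e (a i z) (B.dd g i z) = (c i z * φ z) * cf e (b z) (ddc γ z)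
      rw [hχ.eq i z hz]
      by_cases hzt : z ∈ tsupport (c i)
      · rw [hφ1 z (hle z hzt), hb2 z (hle z hzt), hγ2 z (hsub1 i hzt)]
      · rw [image_eq_zero_of_notMem_tsupport hzt]
        simp only [zero_mul]
    -- right side
    have hR : ∫ y, g y * B.dcf w a (B.dd fun y => χ i y * f y) y ∂ν =
        ∫ z, γ z * cf e (b z) (ddc (fun z => c i z * φ z) z) ∂μ := by
      have hsm : B.Sm fun y => χ i y * f y := B.Sm_mul (hχ.sm i) hf
      have hvan : ∀ y ∉ Q, B.dcf w a (B.dd fun y => χ i y * f y) y = 0 := by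
        intro y hy
        have hcd : B.cd y ∈ qb e 4 := qb_mono (by norm_num) (by norm_num) (B.cd_mem y)
        have hdd : B.dd (fun y => χ i y * f y) (B.ix y) (B.cd y) = 0 := by
          unfold dd
          refine G7_ddc_zero ?_
          have hcont : ContinuousAt (B.ψ (B.ix y)) (B.cd y) :=
            (B.cont (B.ix y)).continuousAt ((isOpen_qb e 4).mem_nhds hcd)
          have hmem : Qᶜ ∈ 𝓝 (B.ψ (B.ix y) (B.cd y)) := by
            rw [B.ψ_cd y]
            exact hQ.isOpen_compl.mem_nhds hy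
          filter_upwards [hcont hmem] with z' hz'
          have hz2 : B.ψ (B.ix y) z' ∉ Q := hz'
          have h1 : χ i (B.ψ (B.ix y) z') = 0 := by
            by_cases hex : ∀ z ∈ qb e 4, B.ψ i z ≠ B.ψ (B.ix y) z'
            · exact hχ.out i _ hex
            · push Not at hex
              obtain ⟨z, hz, h2⟩ := hex
              rw [← h2, hχ.eq i z hz]
              refine image_eq_zero_of_notMem_tsupport fun h3 => hz2 ?_
              exact ⟨z, h3, h2⟩
          rw [h1, zero_mul]
        unfold dcf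
        rw [hdd, G7_cf_zero, zero_div]
      have hfun : ∀ y, g y * B.dcf w a (B.dd fun y => χ i y * f y) y =
          Q.indicator g y * B.dcf w a (B.dd fun y => χ i y * f y) y := by
        intro y
        by_cases hy : y ∈ Q
        · rw [Set.indicator_of_mem hy]
        · rw [hvan y hy, mul_zero, mul_zero]
      rw [integral_congr_ae (Filter.Eventually.of_forall hfun)]
      have hm : Measurable (Q.indicator g) := (B.Sm_cont hg).measurable.indicator hQ.measurableSet
      have h0 : ∀ y, (∀ z ∈ qb e 4, B.ψ i z ≠ y) → Q.indicator g y = 0 := by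
        intro y hy
        refine Set.indicator_of_notMem ?_ g
        rintro ⟨z, hz, h⟩
        exact hy z (hsub2 (hsub1 i hz)) h
      rw [B.int_dcf hw hν ha (B.IsT_dd hsm) i hm h0]
      have hev0 : ∀ z ∉ tsupport (c i), ddc (fun z => c i z * φ z) z = 0 := by
        intro z hz
        refine G7_ddc_zero ?_
        filter_upwards [(isClosed_tsupport (c i)).isOpen_compl.mem_nhds hz] with z' hz'
        have h1 : c i z' = 0 := image_eq_zero_of_notMem_tsupport hz'
        rw [h1, zero_mul]
      have hz0 : ∀ z ∉ (qb e 4 : Set H), γ z * cf e (b z) (ddc (fun z => c i z * φ z) z) = 0 := by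
        intro z hz
        rw [hev0 z fun h => hz (hsub2 (hsub1 i h)), G7_cf_zero, mul_zero]
      rw [← setIntegral_eq_integral_of_forall_compl_eq_zero hz0]
      refine setIntegral_congr_fun (isOpen_qb e 4).measurableSet fun z hz => ?_
      show Q.indicator g (B.ψ i z) * cf e (a i z) (B.dd (fun y => χ i y * f y) i z) =
        γ z * cf e (b z) (ddc (fun z => c i z * φ z) z)
      by_cases hzt : z ∈ tsupport (c i)
      · have h1 : B.ψ i z ∈ Q := ⟨z, hzt, rfl⟩
        have h2 : B.dd (fun y => χ i y * f y) i z = ddc (fun z => c i z * φ z) z := by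
          unfold dd
          refine ddc_congr ?_
          filter_upwards [(isOpen_qb e (7 / 2)).mem_nhds (hsub1 i hzt)] with z' hz'
          rw [hχ.eq i z' (hsub2 hz'), hφ1 z' (le_of_lt hz')]
        rw [Set.indicator_of_mem h1, h2, hb2 z (hle z hzt), hγ1 z (hle z hzt)]
      · have h1 : B.ψ i z ∉ Q := fun h => hzt (hQmem z hz h)
        rw [Set.indicator_of_notMem h1, hev0 z hzt, G7_cf_zero, zero_mul, mul_zero]
    rw [hL, hR]
    have hs : HasCompactSupport fun z => c i z * φ z := (hcc i).mul_right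
    have ht : tsupport (fun z => c i z * φ z) ⊆ qb e (7 / 2) := (tsupport_mul_subset_left).trans (hsub1 i)
    exact S1 e μ hb hb1 (isOpen_qb e (7 / 2)) (hb3 hc) ((hχ.csm i).mul hφ) hγ hs ht
  have hdg : Continuous (B.dcf w a (B.dd g)) := B.dcf_cont hw ha (B.IsT_dd hg)
  have hL : ∫ y, f y * B.dcf w a (B.dd g) y ∂ν = ∑ i, ∫ y, (χ i y * f y) * B.dcf w a (B.dd g) y ∂ν := by
    rw [← integral_finsetSum]
    · refine integral_congr_ae (Filter.Eventually.of_forall fun y => ?_)
      show f y * B.dcf w a (B.dd g) y = ∑ i, (χ i y * f y) * B.dcf w a (B.dd g) y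
      rw [← Finset.sum_mul, ← Finset.sum_mul, hχ.sum y, one_mul]
    · intro i _
      exact G7_int hν.fin (((B.Sm_cont (hχ.sm i)).mul (B.Sm_cont hf)).mul hdg)
  have hR : ∫ y, g y * B.dcf w a (B.dd f) y ∂ν =
      ∑ i, ∫ y, g y * B.dcf w a (B.dd fun y => χ i y * f y) y ∂ν := by
    rw [← integral_finsetSum]
    · refine integral_congr_ae (Filter.Eventually.of_forall fun y => ?_)
      show g y * B.dcf w a (B.dd f) y = ∑ i, g y * B.dcf w a (B.dd fun y => χ i y * f y) y
      rw [← Finset.mul_sum, ← G7_dcf_sum]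
      have h1 : B.dcf w a (B.dd f) y = B.dcf w a (∑ k, B.dd fun y => χ k y * f y) y := by
        refine B.dcf_congr (fun j z hz => ?_) y
        have h2 : f = fun y => ∑ k, χ k y * f y := by
          funext y
          rw [← Finset.sum_mul, hχ.sum y, one_mul]
        have h3 : B.dd f j z = ∑ k, B.dd (fun y => χ k y * f y) j z := by
          have h4 := B.dd_sum Finset.univ (f := fun k y => χ k y * f y)
            (fun k _ => B.Sm_mul (hχ.sm k) hf) (i := j) hz
          rw [← h2] at h4
          exact h4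
        rw [h3, Finset.sum_apply, Finset.sum_apply]
      rw [h1]
    · intro i _
      exact G7_int hν.fin ((B.Sm_cont hg).mul (B.dcf_cont hw ha (B.IsT_dd (B.Sm_mul (hχ.sm i) hf))))
  rw [hL, hR]
  exact Finset.sum_congr rfl fun i _ => hloc i

theorem int_dcf_dd (hw : B.Met w) (hν : B.IsVol μ w ν) (ha : B.IsT a) (hc : B.ClT a) {f : Y → ℝ} (hf : B.Sm f) :
    ∫ y, B.dcf w a (B.dd f) y ∂ν = 0 := by
  have h := B.glob_S1 hw hν ha hc (f := fun _ => (1 : ℝ)) (g := f) (B.Sm_const 1) hf
  have h1 : ∀ y, B.dcf w a (B.dd fun _ => (1 : ℝ)) y = 0 := by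
    intro y
    have h2 : B.dcf w a (B.dd fun _ => (1 : ℝ)) y = B.dcf w a (∑ k ∈ (∅ : Finset ℕ), fun _ _ => (0 : Bil H)) y := by
      refine B.dcf_congr (fun j z hz => ?_) y
      rw [Finset.sum_empty]
      exact B.dd_const 1 hz
    rw [h2, G7_dcf_sum, Finset.sum_empty]
  have h3 : (fun y => f y * B.dcf w a (B.dd fun _ => (1 : ℝ)) y) = fun _ => 0 := by
    funext y
    rw [h1 y, mul_zero]
  rw [h3, integral_zero] at h
  rw [← h]
  refine integral_congr_ae (Filter.Eventually.of_forall fun y => ?_)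
  show B.dcf w a (B.dd f) y = 1 * B.dcf w a (B.dd f) y
  rw [one_mul]

theorem mass_exact (hw : B.Met w) (hν : B.IsVol μ w ν) (ha : B.IsT a) (hc : B.ClT a) {T : B.I → H → Bil H}
    (hT : B.IsT T) (hTc : B.ClT T) (h : ∀ a' : B.I → H → Bil H, B.IsT a' → B.ClT a' → ∫ y, B.dcf w a' T y ∂ν = 0) (s : ℝ) :
    ∫ y, B.den w (a + s • T) y ∂ν = ∫ y, B.den w a y ∂ν := by
  have := hν.fin
  have hd : ∀ s0 : ℝ, HasDerivAt (fun s : ℝ => ∫ y, B.den w (a + s • T) y ∂ν) 0 s0 := by
    intro s0
    have hK : IsCompact (Set.Icc (s0 - 1) (s0 + 1) ×ˢ (Set.univ : Set Y)) := isCompact_Icc.prod isCompact_univ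
    obtain ⟨C, hC⟩ := hK.exists_bound_of_continuousOn (B.dcf_cont₂ hw ha hT).continuousOn
    have hden : ∀ s : ℝ, Continuous (B.den w (a + s • T)) := fun s => B.den_cont hw (B.IsT_add ha (B.IsT_smul hT s))
    have hdcf : ∀ s : ℝ, Continuous (B.dcf w (a + s • T) T) := fun s =>
      B.dcf_cont hw (B.IsT_add ha (B.IsT_smul hT s)) hT
    have hmem : Set.Icc (s0 - 1) (s0 + 1) ∈ 𝓝 s0 := Icc_mem_nhds (by linarith) (by linarith)
    have h1 := hasDerivAt_integral_of_dominated_loc_of_deriv_le (μ := ν) (𝕜 := ℝ)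
      (F := fun s y => B.den w (a + s • T) y) (F' := fun s y => B.dcf w (a + s • T) T y) (x₀ := s0)
      (bound := fun _ => C) hmem
      (Filter.Eventually.of_forall fun s => (hden s).aestronglyMeasurable)
      (G7_int hν.fin (hden s0)) (hdcf s0).aestronglyMeasurable
      (Filter.Eventually.of_forall fun y s hs => hC (s, y) ⟨hs, Set.mem_univ y⟩)
      (integrable_const C)
      (Filter.Eventually.of_forall fun y s _ => B.hasDerivAt_den ha hT y s)
    have h2 := h1.2
    rw [h (a + s0 • T) (B.IsT_add ha (B.IsT_smul hT s0)) (B.ClT_add ha (B.IsT_smul hT s0) hc (B.ClT_smul hT hTc s0))] at h2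
    exact h2
  have h1 := is_const_of_deriv_eq_zero (f := fun s : ℝ => ∫ y, B.den w (a + s • T) y ∂ν)
    (fun s => (hd s).differentiableAt) (fun s => (hd s).deriv) s 0
  have h2 : a + (0 : ℝ) • T = a := by
    have h3 : (0 : ℝ) • T = 0 := funext fun _ => funext fun _ => G7_zs _
    rw [h3]
    exact funext fun i => funext fun z => G7_add0 (a i z)
  simp only [h2] at h1
  exact h1

theorem mass_dd (hw : B.Met w) (hν : B.IsVol μ w ν) (ha : B.IsT a) (hc : B.ClT a) {f : Y → ℝ} (hf : B.Sm f) :
    ∫ y, B.den w (a + B.dd f) y ∂ν = ∫ y, B.den w a y ∂ν := by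
  have h := B.mass_exact hw hν ha hc (B.IsT_dd hf) (B.ClT_dd hf) (fun a' ha' hc' => B.int_dcf_dd hw hν ha' hc' hf) 1
  rw [one_smul] at h
  exact h

end BM

end HDG
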