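import Pool.Agent.HDG.G7

/-!
# HDG/G8: multivalued functions with integral periods

In two charts `t` differs by an integer which is locally constant, so `dd^c t` is a tensor. The functions `cos (2π t)` and
`sin (2π t)` are smooth on `Y`, and `2π dd^c t = cos (2π t) dd^c sin (2π t) - sin (2π t) dd^c cos (2π t)`, so Stokes gives
`∫ n a ^ (n-1) ∧ dd^c t = 0`.
-/

set_option autoImplicit false

noncomputable section

open scoped ContDiff Topology ENNReal

open MeasureTheory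

namespace HDG

open Pool.Agent.FBR

section
variable {H : Type*} [NormedAddCommGroup H] [NormedSpace ℂ H] {n : ℕ} {e : Module.Basis (Fin n) ℂ H}
  {Y : Type*} [TopologicalSpace Y] (B : BM e Y)

/-- `t` is a multivalued function on `Y`, its values are determined up to integers -/
structure BM.Per (t : B.I → H → ℝ) : Prop where
  sm : ∀ i, ContDiffOn ℝ ∞ (t i) (qb e 4)
  tr : ∀ i j, ∀ z ∈ B.D i j, ∃ k : ℤ, t i z - t j (B.T i j z) = k

/-- `dd^c t` -/
def BM.ddt (t : B.I → H → ℝ) (i : B.I) (z : H) : Bil H := ddc (t i) z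

end

variable {H : Type*} [NormedAddCommGroup H] [NormedSpace ℂ H] {n : ℕ} {e : Module.Basis (Fin n) ℂ H}
  [FiniteDimensional ℂ H] {Y : Type*} [TopologicalSpace Y] (B : BM e Y) {t : B.I → H → ℝ}

private theorem G8_cst (φ : H → ℝ) (c : ℝ) (q : H) : ddc (fun x => φ x + c) q = ddc φ q := by
  have h1 : fderiv ℝ (fun x => φ x + c) = fderiv ℝ φ := funext fun x => fderiv_add_const c
  ext u v
  rw [ddc_apply, ddc_apply, h1]

private theorem G8_two {φ : H → ℝ} {q : H} (h : ContDiffAt ℝ ∞ φ q) : ContDiffAt ℝ 2 φ q :=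
  h.of_le (by norm_cast)

omit [FiniteDimensional ℂ H] in
private theorem G8_D2 {φ : H → ℝ} {z : H} (hφ : ContDiffAt ℝ ∞ φ z) {g g' g'' : ℝ → ℝ}
    (h1 : ∀ x, HasDerivAt g (g' x) x) (h2 : ∀ x, HasDerivAt g' (g'' x) x) (a b : H) :
    fderiv ℝ (fderiv ℝ (fun z => g (φ z))) z a b =
      g'' (φ z) * fderiv ℝ φ z a * fderiv ℝ φ z b + g' (φ z) * fderiv ℝ (fderiv ℝ φ) z a b := by
  have hd : ∀ᶠ x in nhds z, DifferentiableAt ℝ φ x := by
    have h3 : ContDiffAt ℝ 1 φ z := hφ.of_le (by norm_cast)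
    have h4 := h3.eventually (by simp)
    filter_upwards [h4] with x hx
    exact hx.differentiableAt (by simp)
  have he : fderiv ℝ (fun z => g (φ z)) =ᶠ[nhds z] fun x => g' (φ x) • fderiv ℝ φ x := by
    filter_upwards [hd] with x hx
    exact ((h1 (φ x)).comp_hasFDerivAt x hx.hasFDerivAt).fderiv
  have h5 : ContDiffAt ℝ ∞ (fderiv ℝ φ) z := hφ.fderiv_right (by norm_num)
  have h6 : HasFDerivAt (fderiv ℝ φ) (fderiv ℝ (fderiv ℝ φ) z) z := (h5.differentiableAt (by norm_num)).hasFDerivAt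
  have h7 : HasFDerivAt (fun x => g' (φ x)) (g'' (φ z) • fderiv ℝ φ z) z :=
    (h2 (φ z)).comp_hasFDerivAt z hd.self_of_nhds.hasFDerivAt
  have h8 : HasFDerivAt (fun x => g' (φ x) • fderiv ℝ φ x)
      (g' (φ z) • fderiv ℝ (fderiv ℝ φ) z + (g'' (φ z) • fderiv ℝ φ z).smulRight (fderiv ℝ φ z)) z := h7.smul h6
  rw [he.fderiv_eq, h8.fderiv]
  simp only [add_apply, smul_apply, ContinuousLinearMap.smulRight_apply, smul_eq_mul]
  ring

private theorem G8_sin (x : ℝ) : HasDerivAt (fun x : ℝ => Real.sin (2 * Real.pi * x)) (2 * Real.pi * Real.cos (2 * Real.pi * x)) x := by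
  have h1 : HasDerivAt (fun x : ℝ => 2 * Real.pi * x) (2 * Real.pi) x := by
    simpa using (hasDerivAt_id x).const_mul (2 * Real.pi)
  have h2 := (Real.hasDerivAt_sin (2 * Real.pi * x)).comp x h1
  exact h2.congr_deriv (by ring)

private theorem G8_cos (x : ℝ) : HasDerivAt (fun x : ℝ => Real.cos (2 * Real.pi * x)) (-(2 * Real.pi * Real.sin (2 * Real.pi * x))) x := by
  have h1 : HasDerivAt (fun x : ℝ => 2 * Real.pi * x) (2 * Real.pi) x := by
    simpa using (hasDerivAt_id x).const_mul (2 * Real.pi)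
  have h2 := (Real.hasDerivAt_cos (2 * Real.pi * x)).comp x h1
  exact h2.congr_deriv (by ring)

private theorem G8_sin2 (x : ℝ) : HasDerivAt (fun x : ℝ => 2 * Real.pi * Real.cos (2 * Real.pi * x))
    (-((2 * Real.pi) ^ 2 * Real.sin (2 * Real.pi * x))) x :=
  ((G8_cos x).const_mul (2 * Real.pi)).congr_deriv (by ring)

private theorem G8_cos2 (x : ℝ) : HasDerivAt (fun x : ℝ => -(2 * Real.pi * Real.sin (2 * Real.pi * x)))
    (-((2 * Real.pi) ^ 2 * Real.cos (2 * Real.pi * x))) x :=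
  ((G8_sin x).const_mul (2 * Real.pi)).neg.congr_deriv (by ring)

private theorem G8_id {φ : H → ℝ} {z : H} (hφ : ContDiffAt ℝ ∞ φ z) :
    ddc φ z = ((2 * Real.pi)⁻¹ * Real.cos (2 * Real.pi * φ z)) • ddc (fun z => Real.sin (2 * Real.pi * φ z)) z +
      (-((2 * Real.pi)⁻¹ * Real.sin (2 * Real.pi * φ z))) • ddc (fun z => Real.cos (2 * Real.pi * φ z)) z := by
  have hs : ContDiffAt ℝ ∞ (fun z => Real.sin (2 * Real.pi * φ z)) z :=
    Real.contDiff_sin.contDiffAt.comp z (contDiffAt_const.mul hφ)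
  have hc : ContDiffAt ℝ ∞ (fun z => Real.cos (2 * Real.pi * φ z)) z :=
    Real.contDiff_cos.contDiffAt.comp z (contDiffAt_const.mul hφ)
  refine O11_ext (O11_ddc (G8_two hφ)) (O11_add (O11_smul _ (O11_ddc (G8_two hs))) (O11_smul _ (O11_ddc (G8_two hc)))) ?_
  intro v
  have e1 := fun a b => G8_D2 hφ G8_sin G8_sin2 a b
  have e2 := fun a b => G8_D2 hφ G8_cos G8_cos2 a b
  simp only [add_apply, smul_apply, smul_eq_mul, ddc_self, e1, e2]
  have hp : (2 * Real.pi)⁻¹ * (2 * Real.pi) = 1 := inv_mul_cancel₀ (by positivity)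
  have ht := Real.sin_sq_add_cos_sq (2 * Real.pi * φ z)
  generalize Real.sin (2 * Real.pi * φ z) = S at *
  generalize Real.cos (2 * Real.pi * φ z) = Cc at *
  generalize (2 * Real.pi)⁻¹ = w at *
  generalize 2 * Real.pi = p at *
  generalize fderiv ℝ (fderiv ℝ φ) z v v = A at *
  generalize fderiv ℝ (fderiv ℝ φ) z (Complex.I • v) (Complex.I • v) = A' at *
  generalize fderiv ℝ φ z v = d at *
  generalize fderiv ℝ φ z (Complex.I • v) = d' at *
  linear_combination (-(1 / 2) * (A + A') * (S ^ 2 + Cc ^ 2)) * hp - (1 / 2) * (A + A') * ht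

private theorem G8_cf (a s1 s2 : Bil H) (x y : ℝ) :
    cf e a (x • s1 + y • s2) = x * cf e a s1 + y * cf e a s2 := by
  unfold cf
  rw [Mt_add, Mt_smul, Mt_smul, Matrix.mul_add, Matrix.trace_add, Matrix.mul_smul, Matrix.mul_smul, Matrix.trace_smul,
    Matrix.trace_smul, Complex.add_re, smul_eq_mul, smul_eq_mul, Complex.re_ofReal_mul, Complex.re_ofReal_mul]

namespace BM

private theorem G8_at (ht : B.Per t) {i : B.I} {z : H} (hz : z ∈ qb e 4) : ContDiffAt ℝ ∞ (t i) z :=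
  (ht.sm i).contDiffAt ((isOpen_qb e 4).mem_nhds hz)

private theorem G8_loc (ht : B.Per t) {i j : B.I} {z : H} (hz : z ∈ B.D i j) :
    t i =ᶠ[nhds z] fun x => (t j ∘ B.T i j) x + (t i z - t j (B.T i j z)) := by
  have c1 : ContinuousAt (t i) z := (G8_at B ht hz.1).continuousAt
  have c2 : ContinuousAt (t j ∘ B.T i j) z :=
    ContinuousAt.comp (G8_at B ht (B.T_mem hz)).continuousAt (B.T_cd hz).continuousAt
  have c3 : ContinuousAt (fun x => t i x - (t j ∘ B.T i j) x) z := c1.sub c2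
  have h1 := Metric.continuousAt_iff.1 c3 1 one_pos
  obtain ⟨r, hr, h2⟩ := h1
  filter_upwards [Metric.ball_mem_nhds z hr, (B.D_open i j).mem_nhds hz] with x hx hxD
  have h3 := h2 hx
  obtain ⟨k, hk⟩ := ht.tr i j x hxD
  obtain ⟨l, hl⟩ := ht.tr i j z hz
  rw [Real.dist_eq] at h3
  simp only [Function.comp_apply] at h3 ⊢
  rw [hk, hl] at h3
  have h4 : |k - l| < 1 := by exact_mod_cast h3
  have h5 : k = l := by
    rw [Int.abs_lt_one_iff] at h4
    omega
  rw [hl, ← h5, ← hk]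
  ring

theorem Per.IsT (ht : B.Per t) : B.IsT (B.ddt t) := by
  refine ⟨fun i z hz => ?_, fun i z hz => ?_, fun i j z hz => ?_⟩
  · exact (ddc_smooth (G8_at B ht hz)).contDiffWithinAt
  · exact O11_ddc (G8_two (G8_at B ht hz))
  · have h1 : B.ddt t i z = ddc (t j ∘ B.T i j) z := by
      unfold ddt
      rw [ddc_congr (G8_loc B ht hz), G8_cst]
    rw [h1]
    exact ddc_comp (G8_two (G8_at B ht (B.T_mem hz))) (B.tr i j z hz.1 hz.2)

theorem Per.ClT (ht : B.Per t) : B.ClT (B.ddt t) := by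
  intro i z hz u v w
  exact ddc_closed (G8_at B ht hz) u v w

theorem Per.neg (ht : B.Per t) : B.Per fun i z => - t i z := by
  refine ⟨fun i => (ht.sm i).neg, fun i j z hz => ?_⟩
  obtain ⟨k, hk⟩ := ht.tr i j z hz
  refine ⟨-k, ?_⟩
  push_cast
  rw [← hk]
  ring

theorem Per.add (ht : B.Per t) {f : Y → ℝ} (hf : B.Sm f) : B.Per fun i z => t i z + f (B.ψ i z) := by
  refine ⟨fun i => (ht.sm i).add (hf i), fun i j z hz => ?_⟩
  obtain ⟨k, hk⟩ := ht.tr i j z hz
  refine ⟨k, ?_⟩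
  rw [B.ψ_T hz, ← hk]
  ring

theorem ddt_add (ht : B.Per t) {f : Y → ℝ} (hf : B.Sm f) {i : B.I} {z : H} (hz : z ∈ qb e 4) :
    B.ddt (fun i z => t i z + f (B.ψ i z)) i z = B.ddt t i z + B.dd f i z := by
  have hf' : ContDiffAt ℝ ∞ (fun z => f (B.ψ i z)) z := (hf i).contDiffAt ((isOpen_qb e 4).mem_nhds hz)
  exact ddc_add (G8_two (G8_at B ht hz)) (G8_two hf')

private theorem G8_box (ht : B.Per t) {g : ℝ → ℝ} (hg : ∀ (x : ℝ) (k : ℤ), g (x + k) = g x) {i : B.I} {z : H}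
    (hz : z ∈ qb e 4) : g (t (B.ix (B.ψ i z)) (B.cd (B.ψ i z))) = g (t i z) := by
  have h1 : B.cd (B.ψ i z) ∈ qb e 4 := qb_mono (by norm_num) (by norm_num) (B.cd_mem (B.ψ i z))
  obtain ⟨h2, h3⟩ := B.T_eq hz h1 (B.ψ_cd (B.ψ i z)).symm
  obtain ⟨k, hk⟩ := ht.tr i _ z h2
  rw [h3] at hk
  have h4 : t i z = t (B.ix (B.ψ i z)) (B.cd (B.ψ i z)) + k := by linarith
  rw [h4, hg]

theorem Per.int_dcf [MeasurableSpace H] [BorelSpace H] {μ : Measure H} [μ.IsAddHaarMeasure] [CompactSpace Y] [T2Space Y]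
    [MeasurableSpace Y] [BorelSpace Y] {w a : B.I → H → Bil H} {ν : Measure Y} (hw : B.Met w) (hν : B.IsVol μ w ν)
    (ht : B.Per t) (ha : B.IsT a) (hc : B.ClT a) : ∫ y, B.dcf w a (B.ddt t) y ∂ν = 0 := by
  have hgs : ∀ (x : ℝ) (k : ℤ), Real.sin (2 * Real.pi * (x + k)) = Real.sin (2 * Real.pi * x) := by
    intro x k
    rw [mul_add, mul_comm (2 * Real.pi) (k : ℝ)]
    exact Real.sin_add_int_mul_two_pi _ _
  have hgc : ∀ (x : ℝ) (k : ℤ), Real.cos (2 * Real.pi * (x + k)) = Real.cos (2 * Real.pi * x) := by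
    intro x k
    rw [mul_add, mul_comm (2 * Real.pi) (k : ℝ)]
    exact Real.cos_add_int_mul_two_pi _ _
  set S : Y → ℝ := fun y => Real.sin (2 * Real.pi * t (B.ix y) (B.cd y)) with hSdef
  set K : Y → ℝ := fun y => Real.cos (2 * Real.pi * t (B.ix y) (B.cd y)) with hKdef
  have hS : ∀ i, ∀ z ∈ qb e 4, S (B.ψ i z) = Real.sin (2 * Real.pi * t i z) := fun i z hz =>
    G8_box B ht (g := fun x => Real.sin (2 * Real.pi * x)) hgs hz
  have hK : ∀ i, ∀ z ∈ qb e 4, K (B.ψ i z) = Real.cos (2 * Real.pi * t i z) := fun i z hz =>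
    G8_box B ht (g := fun x => Real.cos (2 * Real.pi * x)) hgc hz
  have smS : B.Sm S := by
    intro i
    refine ContDiffOn.congr (f := fun z => Real.sin (2 * Real.pi * t i z)) ?_ fun z hz => hS i z hz
    exact Real.contDiff_sin.comp_contDiffOn (contDiffOn_const.mul (ht.sm i))
  have smK : B.Sm K := by
    intro i
    refine ContDiffOn.congr (f := fun z => Real.cos (2 * Real.pi * t i z)) ?_ fun z hz => hK i z hz
    exact Real.contDiff_cos.comp_contDiffOn (contDiffOn_const.mul (ht.sm i))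
  have hdS : ∀ i, ∀ z ∈ qb e 4, B.dd S i z = ddc (fun z => Real.sin (2 * Real.pi * t i z)) z := by
    intro i z hz
    refine ddc_congr ?_
    filter_upwards [(isOpen_qb e 4).mem_nhds hz] with x hx
    exact hS i x hx
  have hdK : ∀ i, ∀ z ∈ qb e 4, B.dd K i z = ddc (fun z => Real.cos (2 * Real.pi * t i z)) z := by
    intro i z hz
    refine ddc_congr ?_
    filter_upwards [(isOpen_qb e 4).mem_nhds hz] with x hx
    exact hK i x hx
  have hpt : ∀ y, B.dcf w a (B.ddt t) y =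
      (2 * Real.pi)⁻¹ * (K y * B.dcf w a (B.dd S) y) + (-(2 * Real.pi)⁻¹) * (S y * B.dcf w a (B.dd K) y) := by
    intro y
    have h1 : B.cd y ∈ qb e 4 := qb_mono (by norm_num) (by norm_num) (B.cd_mem y)
    have h2 : B.ddt t (B.ix y) (B.cd y) = ((2 * Real.pi)⁻¹ * K y) • B.dd S (B.ix y) (B.cd y) +
        (-((2 * Real.pi)⁻¹ * S y)) • B.dd K (B.ix y) (B.cd y) := by
      rw [hdS _ _ h1, hdK _ _ h1]
      exact G8_id (G8_at B ht h1)
    unfold dcf
    rw [h2, G8_cf]
    ring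
  have hfin := hν.fin
  have i1 : Integrable (fun y => K y * B.dcf w a (B.dd S) y) ν :=
    ((B.Sm_cont smK).mul (B.dcf_cont hw ha (B.IsT_dd smS))).integrable_of_hasCompactSupport
      (HasCompactSupport.of_compactSpace _)
  have i2 : Integrable (fun y => S y * B.dcf w a (B.dd K) y) ν :=
    ((B.Sm_cont smS).mul (B.dcf_cont hw ha (B.IsT_dd smK))).integrable_of_hasCompactSupport
      (HasCompactSupport.of_compactSpace _)
  have h3 := B.glob_S1 hw hν ha hc smK smS
  rw [integral_congr_ae (Filter.Eventually.of_forall hpt), integral_add (i1.const_mul _) (i2.const_mul _),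
    integral_const_mul, integral_const_mul, h3]
  ring

end BM

end HDG
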