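import Pool.Agent.HDG.G7

/-!
# HDG/G9: the energy

The energy `En φ` of a smooth function on a compact complex manifold. `En_diff`: its change along `φ + a f`, by
differentiation in `a` and in the scaling parameter `r` (the two derivatives agree by the symmetry `glob_S1`) and
integration (`G9_core`). `En_const`: adding a constant. `En_bd`: bounds for bounded `φ` with `b + dd φ + ε0 w ≥ 0`, by a
partition of unity and `abs_mass`.
-/

set_option autoImplicit false

noncomputable section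

open scoped ContDiff Topology ENNReal

open MeasureTheory

namespace HDG

open Pool.Agent.FBR

/-- the energy of `φ` -/
def BM.En {H : Type*} [NormedAddCommGroup H] [NormedSpace ℂ H] {n : ℕ} {e : Module.Basis (Fin n) ℂ H}
    {Y : Type*} [TopologicalSpace Y] [MeasurableSpace Y] (B : BM e Y) (w b : B.I → H → Bil H) (ν : Measure Y)
    (φ : Y → ℝ) : ℝ := ∫ r in (0 : ℝ)..1, ∫ y, φ y * B.den w (b + r • B.dd φ) y ∂ν

variable {H : Type*} [NormedAddCommGroup H] [NormedSpace ℂ H] {n : ℕ} {e : Module.Basis (Fin n) ℂ H}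
  [FiniteDimensional ℂ H] [MeasurableSpace H] [BorelSpace H] {μ : Measure H} [μ.IsAddHaarMeasure]
  {Y : Type*} [TopologicalSpace Y] [CompactSpace Y] [T2Space Y] [MeasurableSpace Y] [BorelSpace Y]
  (B : BM e Y) {w b : B.I → H → Bil H} {ν : Measure Y}

namespace BM

omit [MeasurableSpace H] [BorelSpace H] [CompactSpace Y] [T2Space Y] [MeasurableSpace Y] [BorelSpace Y] in
private lemma G9_cont {P : Type*} [TopologicalSpace P] {g : P × Y → ℝ}
    (h : ∀ (j : B.I) (p : P) (z : H), z ∈ qb e 4 → ContinuousAt (fun q : P × H => g (q.1, B.ψ j q.2)) (p, z)) :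
    Continuous g := by
  rw [continuous_iff_continuousAt]
  rintro ⟨p, y⟩
  obtain ⟨j, z, hz, rfl⟩ := B.cov y
  have hz4 : z ∈ qb e 4 := qb_mono (by norm_num) (by norm_num) hz
  have h1 : 𝓝 (B.ψ j z) ≤ Filter.map (B.ψ j) (𝓝 z) := by
    intro s hs
    rw [Filter.mem_map] at hs
    obtain ⟨U, hU, hUo, hzU⟩ := mem_nhds_iff.1 (Filter.inter_mem hs ((isOpen_qb e 4).mem_nhds hz4))
    refine Filter.mem_of_superset ((B.opn j U (fun x hx => (hU hx).2) hUo).mem_nhds ⟨z, hzU, rfl⟩) ?_
    rintro _ ⟨x, hx, rfl⟩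
    exact (hU hx).1
  have h2 := h j p z hz4
  unfold ContinuousAt at h2 ⊢
  rw [nhds_prod_eq] at h2 ⊢
  refine Filter.Tendsto.mono_left ?_ (Filter.prod_mono le_rfl h1)
  rw [Filter.prod_map_right, Filter.tendsto_map'_iff]
  exact h2

omit [MeasurableSpace H] [BorelSpace H] [CompactSpace Y] [T2Space Y] [MeasurableSpace Y] [BorelSpace Y] in
private lemma G9_cda {a : B.I → H → Bil H} (ha : B.IsT a) (j : B.I) (p : ℝ × ℝ) {z : H} (hz : z ∈ qb e 4) :
    ContDiffAt ℝ ∞ (fun q : (ℝ × ℝ) × H => a j q.2) (p, z) := by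
  have h1 : ContDiffAt ℝ ∞ (a j) z := (ha.sm j).contDiffAt ((isOpen_qb e 4).mem_nhds hz)
  exact ContDiffAt.comp (p, z) h1 contDiffAt_snd

private lemma G9_smul {X V : Type*} [NormedAddCommGroup X] [NormedSpace ℝ X] [NormedAddCommGroup V] [NormedSpace ℝ V]
    {f : X → ℝ} {g : X → V} {x : X} (hf : ContDiffAt ℝ ∞ f x) (hg : ContDiffAt ℝ ∞ g x) :
    ContDiffAt ℝ ∞ (fun x => f x • g x) x := hf.smul hg

omit [MeasurableSpace H] [BorelSpace H] [CompactSpace Y] [T2Space Y] [MeasurableSpace Y] [BorelSpace Y] in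
private lemma G9_cdb {s t : B.I → H → Bil H} (hb : B.IsT b) (hs : B.IsT s) (ht : B.IsT t) (j : B.I) (p : ℝ × ℝ) {z : H}
    (hz : z ∈ qb e 4) : ContDiffAt ℝ ∞ (fun q : (ℝ × ℝ) × H => b j q.2 + q.1.1 • s j q.2 + q.1.2 • t j q.2) (p, z) :=
  ((G9_cda B hb j p hz).add (G9_smul (contDiffAt_fst.fst) (G9_cda B hs j p hz))).add
    (G9_smul (contDiffAt_fst.snd) (G9_cda B ht j p hz))

omit [MeasurableSpace H] [BorelSpace H] [CompactSpace Y] [T2Space Y] [MeasurableSpace Y] [BorelSpace Y] in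
private lemma G9_IsT {s t : B.I → H → Bil H} (hb : B.IsT b) (hs : B.IsT s) (ht : B.IsT t) (x x' : ℝ) :
    B.IsT (b + x • s + x' • t) :=
  B.IsT_add (B.IsT_add hb (B.IsT_smul hs _)) (B.IsT_smul ht _)

omit [MeasurableSpace H] [BorelSpace H] [CompactSpace Y] [T2Space Y] [MeasurableSpace Y] [BorelSpace Y] in
private lemma G9_den (hw : B.Met w) (hb : B.IsT b) {s t : B.I → H → Bil H} (hs : B.IsT s) (ht : B.IsT t) :
    Continuous fun q : (ℝ × ℝ) × Y => B.den w (b + q.1.1 • s + q.1.2 • t) q.2 := by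
  refine G9_cont B fun j p z hz => ?_
  have h1 : (fun q : (ℝ × ℝ) × H => B.den w (b + q.1.1 • s + q.1.2 • t) (B.ψ j q.2)) =ᶠ[𝓝 (p, z)]
      fun q => dt e (b j q.2 + q.1.1 • s j q.2 + q.1.2 • t j q.2) / dt e (w j q.2) := by
    filter_upwards [continuousAt_snd.preimage_mem_nhds ((isOpen_qb e 4).mem_nhds hz)] with q hq
    exact B.den_box hw (G9_IsT B hb hs ht q.1.1 q.1.2) hq
  refine ContinuousAt.congr ?_ h1.symm
  refine ContinuousAt.div ?_ ?_ (B.dt_w_pos hw hz).ne'
  · exact (ContDiffAt.comp (p, z) (dt_smooth e).contDiffAt (G9_cdb B hb hs ht j p hz)).continuousAt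
  · exact (ContDiffAt.comp (p, z) (dt_smooth e).contDiffAt (G9_cda B hw.t j p hz)).continuousAt

omit [MeasurableSpace H] [BorelSpace H] [CompactSpace Y] [T2Space Y] [MeasurableSpace Y] [BorelSpace Y] in
private lemma G9_dcf (hw : B.Met w) (hb : B.IsT b) {s t u : B.I → H → Bil H} (hs : B.IsT s) (ht : B.IsT t)
    (hu : B.IsT u) :
    Continuous fun q : (ℝ × ℝ) × Y => B.dcf w (b + q.1.1 • s + q.1.2 • t) u q.2 := by
  refine G9_cont B fun j p z hz => ?_
  have h1 : (fun q : (ℝ × ℝ) × H => B.dcf w (b + q.1.1 • s + q.1.2 • t) u (B.ψ j q.2)) =ᶠ[𝓝 (p, z)]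
      fun q => cf e (b j q.2 + q.1.1 • s j q.2 + q.1.2 • t j q.2) (u j q.2) / dt e (w j q.2) := by
    filter_upwards [continuousAt_snd.preimage_mem_nhds ((isOpen_qb e 4).mem_nhds hz)] with q hq
    exact B.dcf_box hw (G9_IsT B hb hs ht q.1.1 q.1.2) hu hq
  refine ContinuousAt.congr ?_ h1.symm
  refine ContinuousAt.div ?_ ?_ (B.dt_w_pos hw hz).ne'
  · have h2 : ContDiffAt ℝ ∞ (fun q : (ℝ × ℝ) × H =>
        (b j q.2 + q.1.1 • s j q.2 + q.1.2 • t j q.2, u j q.2)) (p, z) :=
      (G9_cdb B hb hs ht j p hz).prodMk (G9_cda B hu j p hz)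
    exact (ContDiffAt.comp (p, z) (cf_smooth e).contDiffAt h2).continuousAt
  · exact (ContDiffAt.comp (p, z) (dt_smooth e).contDiffAt (G9_cda B hw.t j p hz)).continuousAt

omit [MeasurableSpace H] [BorelSpace H] [FiniteDimensional ℂ H] [NormedSpace ℂ H] [NormedAddCommGroup H] [T2Space Y] in
private lemma G9_deriv {Y : Type*} [TopologicalSpace Y] [CompactSpace Y] [MeasurableSpace Y] [BorelSpace Y]
    {ν : Measure Y} [IsFiniteMeasure ν] {F F' : ℝ → Y → ℝ}
    (hF : Continuous fun q : ℝ × Y => F q.1 q.2) (hF' : Continuous fun q : ℝ × Y => F' q.1 q.2)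
    (hd : ∀ x y, HasDerivAt (fun x => F x y) (F' x y) x) (x₀ : ℝ) :
    HasDerivAt (fun x => ∫ y, F x y ∂ν) (∫ y, F' x₀ y ∂ν) x₀ := by
  have hc : ∀ {G : ℝ → Y → ℝ}, (Continuous fun q : ℝ × Y => G q.1 q.2) → ∀ x, Continuous (G x) :=
    fun hG x => hG.comp (Continuous.prodMk continuous_const continuous_id)
  obtain ⟨M, hM⟩ := ((isCompact_Icc (a := x₀ - 1) (b := x₀ + 1)).prod (isCompact_univ (X := Y))).bddAbove_image
    hF'.norm.continuousOn
  have hM' : ∀ x ∈ Set.Icc (x₀ - 1) (x₀ + 1), ∀ y, ‖F' x y‖ ≤ M := fun x hx y =>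
    hM ⟨(x, y), ⟨hx, Set.mem_univ _⟩, rfl⟩
  refine (hasDerivAt_integral_of_dominated_loc_of_deriv_le (s := Set.Icc (x₀ - 1) (x₀ + 1)) (bound := fun _ => M)
    (Icc_mem_nhds (by linarith) (by linarith)) (Filter.Eventually.of_forall fun x => (hc hF x).aestronglyMeasurable)
    ?_ (hc hF' x₀).aestronglyMeasurable ?_ (integrable_const _) ?_).2
  · exact (hc hF x₀).integrable_of_hasCompactSupport (HasCompactSupport.of_compactSpace _)
  · exact Filter.Eventually.of_forall fun y x hx => hM' x hx y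
  · exact Filter.Eventually.of_forall fun y x _ => hd x y

omit [MeasurableSpace H] [BorelSpace H] [FiniteDimensional ℂ H] [NormedSpace ℂ H] [NormedAddCommGroup H] [T2Space Y] in
private lemma G9_param {Y : Type*} [TopologicalSpace Y] [CompactSpace Y] [MeasurableSpace Y] [BorelSpace Y]
    {ν : Measure Y} [IsFiniteMeasure ν] {P : Type*} [TopologicalSpace P] [FirstCountableTopology P]
    [LocallyCompactSpace P] {F : P → Y → ℝ}
    (hF : Continuous fun q : P × Y => F q.1 q.2) : Continuous fun p => ∫ y, F p y ∂ν := by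
  have h := continuous_parametric_integral_of_continuous (μ := ν) (f := F) hF (isCompact_univ (X := Y))
  simpa only [Measure.restrict_univ] using h


private lemma G9_fub {h : ℝ × ℝ → ℝ} (hh : Continuous h) :
    ∫ r in (0 : ℝ)..1, ∫ a in (0 : ℝ)..1, h (a, r) = ∫ a in (0 : ℝ)..1, ∫ r in (0 : ℝ)..1, h (a, r) := by
  simp only [intervalIntegral.integral_of_le (zero_le_one (α := ℝ))]
  refine integral_integral_swap (f := fun r a => h (a, r)) ?_
  rw [Measure.prod_restrict]
  have h1 : IntegrableOn (Function.uncurry fun r a : ℝ => h (a, r)) (Set.Icc (0 : ℝ) 1 ×ˢ Set.Icc (0 : ℝ) 1)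
      (volume.prod volume) :=
    (hh.comp (continuous_snd.prodMk continuous_fst)).continuousOn.integrableOn_compact (isCompact_Icc.prod isCompact_Icc)
  exact h1.mono_set (Set.prod_mono Set.Ioc_subset_Icc_self Set.Ioc_subset_Icc_self)

private lemma G9_ss {I X V : Type*} [NormedAddCommGroup V] [NormedSpace ℝ V] (a r : ℝ) (t : I → X → V) :
    a • (r • t) = (r * a) • t := by
  rw [smul_smul, mul_comm]

private lemma G9_sa {I X V : Type*} [NormedAddCommGroup V] [NormedSpace ℝ V] (a r : ℝ) (b s t : I → X → V) :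
    b + r • (s + a • t) = b + r • s + (r * a) • t := by
  rw [smul_add, smul_smul, add_assoc]

private lemma G9_10 {I X V : Type*} [NormedAddCommGroup V] [NormedSpace ℝ V] (a : ℝ) (b s t : I → X → V) :
    b + (1 : ℝ) • s + (1 * a) • t = b + s + a • t := by
  rw [one_smul, one_mul]

private lemma G9_r0 {I X V : Type*} [NormedAddCommGroup V] [NormedSpace ℝ V] (r : ℝ) (b s t : I → X → V) :
    b + r • s + (r * 0) • t = b + r • s := by
  rw [mul_zero, zero_smul, add_zero]

private lemma G9_e1 {V : Type*} [NormedAddCommGroup V] [NormedSpace ℝ V] (r : ℝ) (b s t : V) :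
    b + r • (s + t) = b + r • s + (r * 1) • t := by
  rw [mul_one, smul_add, add_assoc]

private lemma G9_e0 {V : Type*} [NormedAddCommGroup V] [NormedSpace ℝ V] (a : ℝ) (b : V) :
    b + a • (0 : V) = b := by
  rw [smul_zero, add_zero]

omit [MeasurableSpace H] [BorelSpace H] [CompactSpace Y] [T2Space Y] [MeasurableSpace Y] [BorelSpace Y] in
private lemma G9_d1 {s t : B.I → H → Bil H} (hb : B.IsT b) (hs : B.IsT s) (ht : B.IsT t) (y : Y) (r a : ℝ) :
    HasDerivAt (fun a => B.den w (b + r • s + (r * a) • t) y) (r * B.dcf w (b + r • s + (r * a) • t) t y) a := by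
  have h := B.hasDerivAt_den (w := w) (B.IsT_add hb (B.IsT_smul hs r)) (B.IsT_smul ht r) y a
  have h1 : ∀ a : ℝ, a • (r • t) = (r * a) • t := fun a => G9_ss a r t
  rw [dcf_smul] at h
  simpa only [h1] using h

omit [MeasurableSpace H] [BorelSpace H] [CompactSpace Y] [T2Space Y] [MeasurableSpace Y] [BorelSpace Y] in
private lemma G9_d2 {s t : B.I → H → Bil H} (hb : B.IsT b) (hs : B.IsT s) (ht : B.IsT t) (y : Y) (a r : ℝ) :
    HasDerivAt (fun r => B.den w (b + r • s + (r * a) • t) y)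
      (B.dcf w (b + r • s + (r * a) • t) s y + a * B.dcf w (b + r • s + (r * a) • t) t y) r := by
  have h := B.hasDerivAt_den (w := w) hb (B.IsT_add hs (B.IsT_smul ht a)) y r
  have h1 : ∀ r : ℝ, b + r • (s + a • t) = b + r • s + (r * a) • t := fun r => G9_sa a r b s t
  rw [dcf_add, dcf_smul] at h
  simpa only [h1] using h

omit [MeasurableSpace H] [BorelSpace H] [FiniteDimensional ℂ H] [NormedSpace ℂ H] [NormedAddCommGroup H] [T2Space Y] in
private lemma G9_core {Y : Type*} [TopologicalSpace Y] [CompactSpace Y] [MeasurableSpace Y] [BorelSpace Y]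
    {ν : Measure Y} [IsFiniteMeasure ν] {φ f : Y → ℝ} (hφc : Continuous φ) (hfc : Continuous f)
    {D Cs Ct : ℝ → ℝ → Y → ℝ}
    (hD : Continuous fun q : (ℝ × ℝ) × Y => D q.1.1 q.1.2 q.2)
    (hCs : Continuous fun q : (ℝ × ℝ) × Y => Cs q.1.1 q.1.2 q.2)
    (hCt : Continuous fun q : (ℝ × ℝ) × Y => Ct q.1.1 q.1.2 q.2)
    (h1 : ∀ y r a, HasDerivAt (fun a => D r (r * a) y) (r * Ct r (r * a) y) a)
    (h2 : ∀ y a r, HasDerivAt (fun r => D r (r * a) y) (Cs r (r * a) y + a * Ct r (r * a) y) r)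
    (h3 : ∀ a r, ∫ y, f y * (Cs r (r * a) y + a * Ct r (r * a) y) ∂ν =
      ∫ y, (φ y + a * f y) * Ct r (r * a) y ∂ν) :
    (∫ r in (0 : ℝ)..1, ∫ y, (φ y + 1 * f y) * D r (r * 1) y ∂ν) -
      (∫ r in (0 : ℝ)..1, ∫ y, (φ y + 0 * f y) * D r (r * 0) y ∂ν) =
      ∫ a in (0 : ℝ)..1, ∫ y, f y * D 1 (1 * a) y ∂ν := by
  have hm : Continuous fun q : (ℝ × ℝ) × Y => ((q.1.2, q.1.2 * q.1.1), q.2) := by fun_prop
  have hD' : Continuous fun q : (ℝ × ℝ) × Y => D q.1.2 (q.1.2 * q.1.1) q.2 := hD.comp hm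
  have hCs' : Continuous fun q : (ℝ × ℝ) × Y => Cs q.1.2 (q.1.2 * q.1.1) q.2 := hCs.comp hm
  have hCt' : Continuous fun q : (ℝ × ℝ) × Y => Ct q.1.2 (q.1.2 * q.1.1) q.2 := hCt.comp hm
  have hφq : Continuous fun q : (ℝ × ℝ) × Y => φ q.2 := hφc.comp continuous_snd
  have hfq : Continuous fun q : (ℝ × ℝ) × Y => f q.2 := hfc.comp continuous_snd
  have hq1 : Continuous fun q : (ℝ × ℝ) × Y => q.1.1 := continuous_fst.fst
  have hq2 : Continuous fun q : (ℝ × ℝ) × Y => q.1.2 := continuous_fst.snd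
  have hG : Continuous fun q : (ℝ × ℝ) × Y => (φ q.2 + q.1.1 * f q.2) * D q.1.2 (q.1.2 * q.1.1) q.2 :=
    (hφq.add (hq1.mul hfq)).mul hD'
  have hG' : Continuous fun q : (ℝ × ℝ) × Y => f q.2 * D q.1.2 (q.1.2 * q.1.1) q.2 +
      (φ q.2 + q.1.1 * f q.2) * (q.1.2 * Ct q.1.2 (q.1.2 * q.1.1) q.2) :=
    (hfq.mul hD').add ((hφq.add (hq1.mul hfq)).mul (hq2.mul hCt'))
  have hK : Continuous fun q : (ℝ × ℝ) × Y => f q.2 * D q.1.2 (q.1.2 * q.1.1) q.2 := hfq.mul hD'
  have hK' : Continuous fun q : (ℝ × ℝ) × Y => f q.2 * (Cs q.1.2 (q.1.2 * q.1.1) q.2 +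
      q.1.1 * Ct q.1.2 (q.1.2 * q.1.1) q.2) := hfq.mul (hCs'.add (hq1.mul hCt'))
  have hm1 : ∀ r : ℝ, Continuous fun q : ℝ × Y => ((q.1, r), q.2) := fun r => by fun_prop
  have hm2 : ∀ a : ℝ, Continuous fun q : ℝ × Y => ((a, q.1), q.2) := fun a => by fun_prop
  have hm3 : ∀ a r : ℝ, Continuous fun y : Y => ((a, r), y) := fun a r => by fun_prop
  have hint : ∀ {G : Y → ℝ}, Continuous G → Integrable G ν := fun hG =>
    hG.integrable_of_hasCompactSupport (HasCompactSupport.of_compactSpace _)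
  -- derivative in `a`
  have hda : ∀ a r : ℝ, HasDerivAt (fun a => ∫ y, (φ y + a * f y) * D r (r * a) y ∂ν)
      (∫ y, (f y * D r (r * a) y + (φ y + a * f y) * (r * Ct r (r * a) y)) ∂ν) a := by
    intro a r
    refine G9_deriv (F := fun a y => (φ y + a * f y) * D r (r * a) y)
      (F' := fun a y => f y * D r (r * a) y + (φ y + a * f y) * (r * Ct r (r * a) y))
      (hG.comp (hm1 r)) (hG'.comp (hm1 r)) ?_ a
    intro a y
    have h1' : HasDerivAt (fun a => φ y + a * f y) (f y) a := by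
      simpa using ((hasDerivAt_id a).mul_const (f y)).const_add (φ y)
    exact h1'.mul (h1 y r a)
  -- derivative in `r`
  have hdr : ∀ a r : ℝ, HasDerivAt (fun r => r * ∫ y, f y * D r (r * a) y ∂ν)
      (∫ y, (f y * D r (r * a) y + (φ y + a * f y) * (r * Ct r (r * a) y)) ∂ν) r := by
    intro a r
    have h1' : HasDerivAt (fun r => ∫ y, f y * D r (r * a) y ∂ν)
        (∫ y, f y * (Cs r (r * a) y + a * Ct r (r * a) y) ∂ν) r := by
      refine G9_deriv (F := fun r y => f y * D r (r * a) y)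
        (F' := fun r y => f y * (Cs r (r * a) y + a * Ct r (r * a) y)) (hK.comp (hm2 a)) (hK'.comp (hm2 a)) ?_ r
      intro r y
      exact (h2 y a r).const_mul (f y)
    have h2' := (hasDerivAt_id r).mul h1'
    have h5 : (∫ y, (f y * D r (r * a) y + (φ y + a * f y) * (r * Ct r (r * a) y)) ∂ν) =
        1 * (∫ y, f y * D r (r * a) y ∂ν) +
        id r * ∫ y, f y * (Cs r (r * a) y + a * Ct r (r * a) y) ∂ν := by
      have h7 : Continuous fun y => r * ((φ y + a * f y) * Ct r (r * a) y) :=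
        continuous_const.mul ((hφc.add (continuous_const.mul hfc)).mul (hCt'.comp (hm3 a r)))
      have i1 : Integrable (fun y => f y * D r (r * a) y) ν := hint (hK.comp (hm3 a r))
      rw [h3, one_mul, id, ← integral_const_mul, ← integral_add i1 (hint h7)]
      refine integral_congr_ae (Filter.Eventually.of_forall fun y => ?_)
      show _ = _
      ring
    rw [h5]
    exact h2'
  have hgc : ∀ a : ℝ, Continuous fun r => ∫ y, (φ y + a * f y) * D r (r * a) y ∂ν :=
    fun a => G9_param (F := fun r y => (φ y + a * f y) * D r (r * a) y) (hG.comp (hm2 a))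
  have hhc : Continuous fun p : ℝ × ℝ => ∫ y, (f y * D p.2 (p.2 * p.1) y +
        (φ y + p.1 * f y) * (p.2 * Ct p.2 (p.2 * p.1) y)) ∂ν :=
    G9_param (F := fun (p : ℝ × ℝ) y => f y * D p.2 (p.2 * p.1) y +
        (φ y + p.1 * f y) * (p.2 * Ct p.2 (p.2 * p.1) y)) hG'
  rw [← intervalIntegral.integral_sub ((hgc 1).intervalIntegrable _ _) ((hgc 0).intervalIntegrable _ _)]
  have e2 : ∀ r : ℝ, (∫ y, (φ y + 1 * f y) * D r (r * 1) y ∂ν) - (∫ y, (φ y + 0 * f y) * D r (r * 0) y ∂ν) =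
      ∫ a in (0 : ℝ)..1, ∫ y, (f y * D r (r * a) y + (φ y + a * f y) * (r * Ct r (r * a) y)) ∂ν := by
    intro r
    rw [intervalIntegral.integral_eq_sub_of_hasDerivAt (fun a _ => hda a r)]
    have h1 : Continuous fun a : ℝ => ((a, r) : ℝ × ℝ) := by fun_prop
    exact (hhc.comp h1).intervalIntegrable _ _
  simp only [e2]
  rw [G9_fub hhc]
  refine intervalIntegral.integral_congr fun a _ => ?_
  show (∫ r in (0 : ℝ)..1, ∫ y, (f y * D r (r * a) y + (φ y + a * f y) * (r * Ct r (r * a) y)) ∂ν) = _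
  rw [intervalIntegral.integral_eq_sub_of_hasDerivAt (fun r _ => hdr a r)]
  · rw [zero_mul, sub_zero, one_mul]
  · have h1 : Continuous fun r : ℝ => ((a, r) : ℝ × ℝ) := by fun_prop
    exact (hhc.comp h1).intervalIntegrable _ _

theorem En_diff (hw : B.Met w) (hν : B.IsVol μ w ν) (hb : B.IsT b) (hc : B.ClT b) {φ f : Y → ℝ} (hφ : B.Sm φ)
    (hf : B.Sm f) : B.En w b ν (fun y => φ y + f y) - B.En w b ν φ =
      ∫ a in (0 : ℝ)..1, ∫ y, f y * B.den w (b + B.dd φ + a • B.dd f) y ∂ν := by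
  have := hν.fin
  have hs := B.IsT_dd hφ
  have ht := B.IsT_dd hf
  have hsc := B.ClT_dd hφ
  have htc := B.ClT_dd hf
  have h3 : ∀ a r : ℝ, ∫ y, f y * (B.dcf w (b + r • B.dd φ + (r * a) • B.dd f) (B.dd φ) y +
      a * B.dcf w (b + r • B.dd φ + (r * a) • B.dd f) (B.dd f) y) ∂ν =
      ∫ y, (φ y + a * f y) * B.dcf w (b + r • B.dd φ + (r * a) • B.dd f) (B.dd f) y ∂ν := by
    intro a r
    have hA := G9_IsT B hb hs ht r (r * a)
    have hAc : B.ClT (b + r • B.dd φ + (r * a) • B.dd f) :=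
      B.ClT_add (B.IsT_add hb (B.IsT_smul hs r)) (B.IsT_smul ht _)
        (B.ClT_add hb (B.IsT_smul hs r) hc (B.ClT_smul hs hsc r)) (B.ClT_smul ht htc _)
    rw [← B.glob_S1 hw hν hA hAc hf (B.Sm_add hφ (B.Sm_mul (B.Sm_const a) hf))]
    refine integral_congr_ae (Filter.Eventually.of_forall fun y => ?_)
    refine congrArg _ ?_
    have h5 : ∀ i, ∀ z ∈ qb e 4, B.dd (fun y => φ y + a * f y) i z = (B.dd φ + a • B.dd f) i z := by
      intro i z hz
      rw [B.dd_add hφ (B.Sm_mul (B.Sm_const a) hf) hz, B.dd_smul hf a hz]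
      rfl
    rw [B.dcf_congr h5 y, dcf_add, dcf_smul]
  have h := G9_core (ν := ν) (B.Sm_cont hφ) (B.Sm_cont hf)
    (D := fun x x' y => B.den w (b + x • B.dd φ + x' • B.dd f) y)
    (Cs := fun x x' y => B.dcf w (b + x • B.dd φ + x' • B.dd f) (B.dd φ) y)
    (Ct := fun x x' y => B.dcf w (b + x • B.dd φ + x' • B.dd f) (B.dd f) y)
    (G9_den B hw hb hs ht) (G9_dcf B hw hb hs ht hs) (G9_dcf B hw hb hs ht ht)
    (fun y r a => G9_d1 B hb hs ht y r a) (fun y a r => G9_d2 B hb hs ht y a r) h3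
  have e1 : B.En w b ν (fun y => φ y + f y) =
      ∫ r in (0 : ℝ)..1, ∫ y, (φ y + 1 * f y) * B.den w (b + r • B.dd φ + (r * 1) • B.dd f) y ∂ν := by
    unfold En
    refine intervalIntegral.integral_congr fun r _ => ?_
    refine integral_congr_ae (Filter.Eventually.of_forall fun y => ?_)
    show (φ y + f y) * _ = (φ y + 1 * f y) * _
    rw [one_mul]
    refine congrArg _ (B.den_congr (fun i z hz => ?_) y)
    have h1 : (b + r • B.dd (fun y => φ y + f y)) i z = b i z + r • (B.dd (fun y => φ y + f y) i z) := rfl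
    have h2 : (b + r • B.dd φ + (r * 1) • B.dd f) i z = b i z + r • B.dd φ i z + (r * 1) • B.dd f i z := rfl
    rw [h1, h2, B.dd_add hφ hf hz]
    exact G9_e1 (V := Bil H) _ _ _ _
  have e0 : B.En w b ν φ =
      ∫ r in (0 : ℝ)..1, ∫ y, (φ y + 0 * f y) * B.den w (b + r • B.dd φ + (r * 0) • B.dd f) y ∂ν := by
    unfold En
    refine intervalIntegral.integral_congr fun r _ => ?_
    refine integral_congr_ae (Filter.Eventually.of_forall fun y => ?_)
    have h1 : b + r • B.dd φ + (r * 0) • B.dd f = b + r • B.dd φ := G9_r0 r b _ _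
    show φ y * B.den w (b + r • B.dd φ) y = (φ y + 0 * f y) * B.den w (b + r • B.dd φ + (r * 0) • B.dd f) y
    rw [h1, zero_mul, add_zero]
  rw [e1, e0, h]
  refine intervalIntegral.integral_congr fun a _ => ?_
  refine integral_congr_ae (Filter.Eventually.of_forall fun y => ?_)
  have h1 : b + (1 : ℝ) • B.dd φ + (1 * a) • B.dd f = b + B.dd φ + a • B.dd f := G9_10 a b _ _
  show f y * B.den w (b + (1 : ℝ) • B.dd φ + (1 * a) • B.dd f) y = _
  rw [h1]

theorem En_const (hw : B.Met w) (hν : B.IsVol μ w ν) (hb : B.IsT b) (hc : B.ClT b) {φ : Y → ℝ} (hφ : B.Sm φ)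
    (c : ℝ) : B.En w b ν (fun y => φ y + c) = B.En w b ν φ + c * ∫ y, B.den w b y ∂ν := by
  have h1 := B.En_diff hw hν hb hc hφ (B.Sm_const c)
  have h2 : ∀ a : ℝ, ∫ y, c * B.den w (b + B.dd φ + a • B.dd (fun _ => c)) y ∂ν = c * ∫ y, B.den w b y ∂ν := by
    intro a
    rw [integral_const_mul, ← B.mass_dd hw hν hb hc hφ]
    refine congrArg _ (integral_congr_ae (Filter.Eventually.of_forall fun y => ?_))
    refine B.den_congr (fun i z hz => ?_) y
    have h3 : (b + B.dd φ + a • B.dd (fun _ => c)) i z = b i z + B.dd φ i z + a • B.dd (fun _ => c) i z := rfl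
    have h4 : (b + B.dd φ) i z = b i z + B.dd φ i z := rfl
    rw [h3, h4, B.dd_const c hz]
    exact G9_e0 (V := Bil H) _ _
  simp only [h2, intervalIntegral.integral_const, sub_zero, one_smul] at h1
  linarith

omit [FiniteDimensional ℂ H] [MeasurableSpace H] [BorelSpace H] in
private lemma G9_nn {b d v w : Bil H} {r t : ℝ} (hr0 : 0 ≤ r) (hr1 : r ≤ 1) (hb : Nn b) (hv : Nn v)
    (h1 : Nn (b + d + t • w)) (h2 : Nn (v - t • w)) : Nn (b + r • d + v) := by
  intro x
  have k1 := hb x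
  have k2 := hv x
  have k3 := h1 x
  have k4 := h2 x
  have e1 : (b + d + t • w) x (Complex.I • x) = b x (Complex.I • x) + d x (Complex.I • x) + t * w x (Complex.I • x) := rfl
  have e2 : (v - t • w) x (Complex.I • x) = v x (Complex.I • x) - t * w x (Complex.I • x) := rfl
  have e3 : (b + r • d + v) x (Complex.I • x) = b x (Complex.I • x) + r * d x (Complex.I • x) + v x (Complex.I • x) := rfl
  rw [e1] at k3
  rw [e2] at k4
  rw [e3]
  have k5 : 0 ≤ 1 - r := by linarith
  have k6 := mul_nonneg k5 k1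
  have k7 := mul_nonneg k5 k2
  have k8 := mul_nonneg hr0 k3
  have k9 := mul_nonneg hr0 k4
  nlinarith

theorem En_bd (hw : B.Met w) (hν : B.IsVol μ w ν) (hb : B.IsT b) (hc : B.ClT b) (hn : B.NnT b) (A : ℝ) :
    ∃ ε0 C : ℝ, 0 < ε0 ∧ 0 ≤ C ∧ ∀ φ : Y → ℝ, B.Sm φ → B.NnT (b + B.dd φ + ε0 • w) → (∀ y, |φ y| ≤ A) →
      |B.En w b ν φ| ≤ C := by
  have := hν.fin
  obtain ⟨χ, c, hp⟩ := B.exists_pou
  obtain ⟨Cw, hCw, hCw'⟩ := B.Met_le hw (r := 3) (by norm_num) (by norm_num)
  obtain ⟨Ab, hAb, hAb'⟩ := B.IsT_bd hb (r := 3) (by norm_num) (by norm_num)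
  choose bl hbl1 hbl2 hbl3 hbl4 using fun i => B.loc_ten hb i
  obtain ⟨K, hK, hK'⟩ := abs_mass e μ (r := 2) (R := 3) (by norm_num) (by norm_num) |A| Ab
  have hC0 : 0 ≤ |A| * (Fintype.card B.I * K) := by positivity
  refine ⟨Cw⁻¹, |A| * (Fintype.card B.I * K), inv_pos.2 hCw, hC0, ?_⟩
  intro φ hφ hφn hφA
  have hφc : Continuous φ := B.Sm_cont hφ
  have hint : ∀ {G : Y → ℝ}, Continuous G → Integrable G ν := fun hG =>
    hG.integrable_of_hasCompactSupport (HasCompactSupport.of_compactSpace _)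
  have key : ∀ r : ℝ, 0 ≤ r → r ≤ 1 →
      |∫ y, φ y * B.den w (b + r • B.dd φ) y ∂ν| ≤ |A| * (Fintype.card B.I * K) := by
    intro r hr0 hr1
    have hA : B.IsT (b + r • B.dd φ) := B.IsT_add hb (B.IsT_smul (B.IsT_dd hφ) r)
    have hden : Continuous (B.den w (b + r • B.dd φ)) := B.den_cont hw hA
    have h1 : ∫ y, φ y * B.den w (b + r • B.dd φ) y ∂ν =
        ∑ i, ∫ y, (χ i y * φ y) * B.den w (b + r • B.dd φ) y ∂ν := by
      rw [← integral_finsetSum]
      · refine integral_congr_ae (Filter.Eventually.of_forall fun y => ?_)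
        show φ y * B.den w (b + r • B.dd φ) y = ∑ i, (χ i y * φ y) * B.den w (b + r • B.dd φ) y
        simp only [mul_assoc]
        rw [← Finset.sum_mul, hp.sum, one_mul]
      · intro i _
        exact hint (((B.Sm_cont (hp.sm i)).mul hφc).mul hden)
    rw [h1]
    refine (Finset.abs_sum_le_sum_abs _ _).trans ?_
    have h2 : ∀ i, |∫ y, (χ i y * φ y) * B.den w (b + r • B.dd φ) y ∂ν| ≤ |A| * K := by
      intro i
      rw [B.int_den hw hν hA i (f := fun y => χ i y * φ y) (((B.Sm_cont (hp.sm i)).mul hφc).measurable)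
        (fun y hy => by rw [hp.out i y hy, zero_mul])]
      obtain ⟨φl, hφ1, hφ2, hφ3⟩ := B.loc_fun hφ i
      have hz : ∀ z ∈ qb e 4 \ qb e 2, χ i (B.ψ i z) * φ (B.ψ i z) * dt e ((b + r • B.dd φ) i z) = 0 := by
        rintro z ⟨hz4, hz2⟩
        have h5 : c i z = 0 := by
          by_contra h6
          have h7 : z ∈ tsupport (c i) := subset_tsupport _ h6
          have h8 : qf e z ≤ (3 / 2) ^ 2 := hp.cs i h7
          exact hz2 (show qf e z < 2 ^ 2 from lt_of_le_of_lt h8 (by norm_num))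
        rw [hp.eq i z hz4, h5, zero_mul, zero_mul]
      rw [setIntegral_eq_of_subset_of_forall_sdiff_eq_zero (isOpen_qb e 4).measurableSet
        (qb_mono (by norm_num) (by norm_num)) hz]
      have hfl : ContDiff ℝ ∞ fun z => r * φl z := contDiff_const.mul hφ1
      have hgl : ∫ z in qb e 2, |A| * |dt e (bl i z + ddc (fun z => r * φl z) z)| ∂μ ≤ |A| * K := by
        rw [integral_const_mul]
        refine mul_le_mul_of_nonneg_left (hK' (bl i) (fun z => r * φl z) ⟨hbl1 i, hbl2 i, ?_⟩ ?_ hfl ?_ ?_) (abs_nonneg A)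
        · intro z hz
          exact hbl4 i hc z (qb_mono (by norm_num) (by norm_num) hz)
        · intro z hz
          have h9 : qf e z ≤ 3 ^ 2 := le_of_lt hz
          rw [hbl3 i z (h9.trans (by norm_num))]
          exact hAb' i z h9
        · intro z hz
          have h9 : qf e z ≤ 3 ^ 2 := le_of_lt hz
          have h10 : z ∈ qb e 4 := qb_mono (by norm_num) (by norm_num) hz
          have h11 : ddc (fun z => r * φl z) z = r • B.dd φ i z := by
            rw [ddc_smul r (hφ1.contDiffAt.of_le (by norm_cast)), hφ3 z (qb_mono (by norm_num) (by norm_num) hz)]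
          rw [h11, hbl3 i z (h9.trans (by norm_num))]
          refine G9_nn (t := Cw⁻¹) (w := w i z) hr0 hr1 (hn i z h10) (fun v => ?_) (hφn i z h10) (fun v => ?_)
          · rw [w0_self]
            exact qf_nonneg e v
          · have h12 := hCw' i z h9 v
            have e1 : (Cw • w0 e - w i z) v (Complex.I • v) =
              Cw * w0 e v (Complex.I • v) - w i z v (Complex.I • v) := rfl
            have e2 : (w0 e - Cw⁻¹ • w i z) v (Complex.I • v) =
              w0 e v (Complex.I • v) - Cw⁻¹ * w i z v (Complex.I • v) := rfl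
            rw [e1] at h12
            rw [e2]
            have h13 := mul_nonneg (inv_pos.2 hCw).le h12
            rw [mul_sub, inv_mul_cancel_left₀ hCw.ne'] at h13
            exact h13
        · intro z hz
          have h9 : qf e z ≤ 3 ^ 2 := le_of_lt hz
          rw [hφ2 z (h9.trans (by norm_num)), abs_mul, abs_of_nonneg hr0]
          calc r * |φ (B.ψ i z)| ≤ 1 * |φ (B.ψ i z)| := mul_le_mul_of_nonneg_right hr1 (abs_nonneg _)
            _ ≤ |A| := by rw [one_mul]; exact (hφA _).trans (le_abs_self A)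
      refine le_trans ?_ hgl
      have hcont : Continuous fun z => |A| * |dt e (bl i z + ddc (fun z => r * φl z) z)| := by
        have h12 : ContDiff ℝ ∞ (fun z => bl i z + ddc (fun z => r * φl z) z) :=
          (hbl1 i).add (contDiff_iff_contDiffAt.2 fun z => ddc_smooth hfl.contDiffAt)
        exact continuous_const.mul ((dt_smooth e).continuous.comp h12.continuous).abs
      rw [← Real.norm_eq_abs]
      refine norm_integral_le_of_norm_le ?_ ?_
      · exact (hcont.continuousOn.integrableOn_compact (isCompact_qb e 2)).mono_set fun z hz =>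
          show qf e z ≤ 2 ^ 2 from le_of_lt hz
      · filter_upwards [ae_restrict_mem (isOpen_qb e 2).measurableSet] with z hz
        have h9 : qf e z < 2 ^ 2 := hz
        have h10 : z ∈ qb e 4 := qb_mono (by norm_num) (by norm_num) hz
        have h11 : ddc (fun z => r * φl z) z = r • B.dd φ i z := by
          rw [ddc_smul r (hφ1.contDiffAt.of_le (by norm_cast)), hφ3 z (qb_mono (by norm_num) (by norm_num) hz)]
        have h12 : (b + r • B.dd φ) i z = b i z + r • B.dd φ i z := rfl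
        rw [h11, hbl3 i z (h9.le.trans (by norm_num)), h12, Real.norm_eq_abs, abs_mul]
        refine mul_le_mul_of_nonneg_right ?_ (abs_nonneg _)
        rw [abs_mul]
        have h13 : χ i (B.ψ i z) ≤ 1 := by
          rw [← hp.sum (B.ψ i z)]
          exact Finset.single_le_sum (f := fun i' => χ i' (B.ψ i z)) (fun i' _ => hp.nn i' _) (Finset.mem_univ i)
        calc |χ i (B.ψ i z)| * |φ (B.ψ i z)| ≤ 1 * |φ (B.ψ i z)| := by
              rw [abs_of_nonneg (hp.nn i _)]
              exact mul_le_mul_of_nonneg_right h13 (abs_nonneg _)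
          _ ≤ |A| := by rw [one_mul]; exact (hφA _).trans (le_abs_self A)
    calc ∑ i, |∫ y, (χ i y * φ y) * B.den w (b + r • B.dd φ) y ∂ν| ≤ ∑ _i : B.I, |A| * K :=
          Finset.sum_le_sum fun i _ => h2 i
      _ = |A| * (Fintype.card B.I * K) := by
          rw [Finset.sum_const, Finset.card_univ, nsmul_eq_mul]
          ring
  have h3 := intervalIntegral.norm_integral_le_of_norm_le_const (a := (0 : ℝ)) (b := 1)
    (f := fun r => ∫ y, φ y * B.den w (b + r • B.dd φ) y ∂ν) (C := |A| * (Fintype.card B.I * K)) (fun r hr => by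
      rw [Set.uIoc_of_le zero_le_one] at hr
      rw [Real.norm_eq_abs]
      exact key r hr.1.le hr.2)
  rw [sub_zero, abs_one, mul_one, Real.norm_eq_abs] at h3
  exact h3

end BM

end HDG
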