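import Pool.Agent.HDG.LDefs

/-!
# HDG: compact complex manifolds given by finitely many parametrizations (definitions)

`B : BM e Y` is a compact complex manifold `Y`, given by finitely many holomorphic parametrizations `B.ψ i : H → Y` of open
subsets, defined on the ball `qb e 4` (the values off this ball do not matter), such that the images of `qb e 1` cover `Y`. A tensor on `Y` is a family `a : B.I → H → Bil H` (`a i z` for
`z ∈ qb e 4`) with `IsT`.
-/

set_option autoImplicit false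

noncomputable section

open scoped ContDiff Topology ENNReal

open MeasureTheory

namespace HDG

open Pool.Agent.FBR

variable {H : Type*} [NormedAddCommGroup H] [NormedSpace ℂ H] {n : ℕ} (e : Module.Basis (Fin n) ℂ H)

/-- a complex manifold covered by finitely many parametrized balls -/
structure BM (Y : Type*) [TopologicalSpace Y] where
  I : Type
  fin : Fintype I
  ψ : I → H → Y
  cont : ∀ i, ContinuousOn (ψ i) (qb e 4)
  inj : ∀ i, Set.InjOn (ψ i) (qb e 4)
  opn : ∀ i (U : Set H), U ⊆ qb e 4 → IsOpen U → IsOpen (ψ i '' U)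
  cov : ∀ y, ∃ i, ∃ z ∈ qb e 1, ψ i z = y
  tr : ∀ i j (z : H), z ∈ qb e 4 → ψ i z ∈ ψ j '' qb e 4 →
    ContDiffAt ℂ ∞ (fun z => Function.invFunOn (ψ j) (qb e 4) (ψ i z)) z

attribute [instance] BM.fin

variable {e} {Y : Type*} [TopologicalSpace Y] (B : BM e Y)

namespace BM

/-- the transition map -/
def T (i j : B.I) (z : H) : H := Function.invFunOn (B.ψ j) (qb e 4) (B.ψ i z)

/-- the domain of the transition map -/
def D (i j : B.I) : Set H := {z | z ∈ qb e 4 ∧ B.ψ i z ∈ B.ψ j '' qb e 4}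

/-- `a` is a smooth real tensor of type `(1,1)` -/
structure IsT (a : B.I → H → Bil H) : Prop where
  sm : ∀ i, ContDiffOn ℝ ∞ (a i) (qb e 4)
  oo : ∀ i, ∀ z ∈ qb e 4, O11 (a i z)
  co : ∀ i j, ∀ z ∈ B.D i j, a i z = (a j (B.T i j z)).bilinearComp (fderiv ℝ (B.T i j) z) (fderiv ℝ (B.T i j) z)

/-- the form `a` is closed -/
def ClT (a : B.I → H → Bil H) : Prop := ∀ i, ∀ z ∈ qb e 4, ∀ u v w : H, ext2 (a i) z u v w = 0

/-- `a ≥ 0` -/
def NnT (a : B.I → H → Bil H) : Prop := ∀ i, ∀ z ∈ qb e 4, Nn (a i z)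

/-- `w` is a Hermitian metric -/
structure Met (w : B.I → H → Bil H) : Prop where
  t : B.IsT w
  pos : ∀ i, ∀ z ∈ qb e 4, ∀ v : H, v ≠ 0 → 0 < w i z v (Complex.I • v)

/-- `f : Y → ℝ` is smooth -/
def Sm (f : Y → ℝ) : Prop := ∀ i, ContDiffOn ℝ ∞ (fun z => f (B.ψ i z)) (qb e 4)

/-- `dd^c f` -/
def dd (f : Y → ℝ) (i : B.I) (z : H) : Bil H := ddc (fun z => f (B.ψ i z)) z

/-- the index of a parametrized ball around `y` -/
def ix (y : Y) : B.I := (B.cov y).choose

/-- the coordinates of `y` in this ball -/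
def cd (y : Y) : H := (B.cov y).choose_spec.choose

/-- the density `a ^ n / w ^ n` -/
def den (w a : B.I → H → Bil H) (y : Y) : ℝ := dt e (a (B.ix y) (B.cd y)) / dt e (w (B.ix y) (B.cd y))

/-- the positive part of `a ^ n / w ^ n`: `0` where `a` is not `≥ 0` -/
def denp (w a : B.I → H → Bil H) (y : Y) : ℝ := pl e (a (B.ix y) (B.cd y)) / dt e (w (B.ix y) (B.cd y))

/-- the density `n a ^ (n-1) ∧ s / w ^ n` -/
def dcf (w a s : B.I → H → Bil H) (y : Y) : ℝ :=
  cf e (a (B.ix y) (B.cd y)) (s (B.ix y) (B.cd y)) / dt e (w (B.ix y) (B.cd y))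

/-- the extension by `0` of the function `f` on the ball with index `i` -/
def ext (i : B.I) (f : H → ℝ) (y : Y) : ℝ :=
  open Classical in if y ∈ B.ψ i '' qb e 4 then f (Function.invFunOn (B.ψ i) (qb e 4) y) else 0

/-- `ν` is the volume measure of the metric `w` -/
structure IsVol [MeasurableSpace H] (μ : Measure H) [MeasurableSpace Y] (w : B.I → H → Bil H) (ν : Measure Y) : Prop where
  fin : IsFiniteMeasure ν
  box : ∀ i (f : Y → ℝ≥0∞), Measurable f →
    ∫⁻ y in B.ψ i '' qb e 4, f y ∂ν = ∫⁻ z in qb e 4, f (B.ψ i z) * ENNReal.ofReal (dt e (w i z)) ∂μ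

end BM

end HDG
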