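import Pool.Agent.HDG.LA1

/-!
# HDG/LA3: the derivative of the determinant

`dt` and `cf` are real parts of polynomials in the entries of the matrices of the forms, hence smooth; `cf` is linear in the direction.
`hasDerivAt_dt` is the formula `d/dt det (A + t S) = tr (adj (A + t S) S)`: the Leibniz expansion is differentiated termwise and compared
with the sum of the determinants in which one column is replaced by the column of `S`. The bounds hold by compactness of the balls
of the finite dimensional space of forms, the Lipschitz bound by the mean value inequality on a segment.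
-/

set_option autoImplicit false
set_option maxSynthPendingDepth 3

noncomputable section

open scoped ContDiff ComplexOrder

namespace HDG

open Pool.Agent.FBR

variable {H : Type*} [NormedAddCommGroup H] [NormedSpace ℂ H] [FiniteDimensional ℂ H] {n : ℕ}
  (e : Module.Basis (Fin n) ℂ H)

section

variable {G : Type*} [NormedAddCommGroup G] [NormedSpace ℝ G]

private theorem LA3_zero (s : Bil G) : (0 : ℝ) • s = 0 := zero_smul ℝ s

private theorem LA3_pos {s : Bil G} (hs : s ≠ 0) : 0 < ‖s‖ := norm_pos_iff.2 hs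

private theorem LA3_unit {s : Bil G} (hs : s ≠ 0) : ‖‖s‖⁻¹ • s‖ ≤ 1 ∧ ‖s‖ • (‖s‖⁻¹ • s) = s := by
  have h := (LA3_pos hs).ne'
  constructor
  · rw [norm_smul, norm_inv, norm_norm, inv_mul_cancel₀ h]
  · rw [smul_smul, mul_inv_cancel₀ h, one_smul]

private theorem LA3_seg (a b : Bil G) {R t : ℝ} (ha : ‖a‖ ≤ R) (hb : ‖b‖ ≤ R) (h0 : 0 ≤ t) (h1 : t < 1) :
    ‖b + t • (a - b)‖ ≤ R := by
  have e1 : b + t • (a - b) = (1 - t) • b + t • a := by
    rw [smul_sub, sub_smul, one_smul]
    abel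
  rw [e1]
  refine (norm_add_le _ _).trans ?_
  rw [norm_smul, norm_smul, Real.norm_of_nonneg h0, Real.norm_of_nonneg (sub_nonneg.2 h1.le)]
  have h3 : (1 - t) * ‖b‖ ≤ (1 - t) * R := mul_le_mul_of_nonneg_left hb (sub_nonneg.2 h1.le)
  have h4 : t * ‖a‖ ≤ t * R := mul_le_mul_of_nonneg_left ha h0
  linarith

private theorem LA3_end (a b : Bil G) : b + (1 : ℝ) • (a - b) = a ∧ b + (0 : ℝ) • (a - b) = b := by
  constructor
  · rw [one_smul]; abel
  · rw [zero_smul, add_zero]

private theorem LA3_ball [FiniteDimensional ℝ G] (R : ℝ) : IsCompact {a : Bil G | ‖a‖ ≤ R} := by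
  haveI : ProperSpace (Bil G) := FiniteDimensional.proper_real _
  have e1 : {a : Bil G | ‖a‖ ≤ R} = Metric.closedBall 0 R := by
    ext a
    simp
  rw [e1]
  exact isCompact_closedBall _ _

end

private theorem LA3_app (u v : H) : ContDiff ℝ ∞ fun a : Bil H => a u v :=
  (contDiff_id.clm_apply contDiff_const).clm_apply contDiff_const

private theorem LA3_entry (j k : Fin n) : ContDiff ℝ ∞ fun a : Bil H => Mt e a j k := by
  have h1 : ContDiff ℝ ∞ fun a : Bil H => ((a (e j) (Complex.I • e k) : ℝ) : ℂ) :=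
    Complex.ofRealCLM.contDiff.comp (LA3_app (e j) (Complex.I • e k))
  have h2 : ContDiff ℝ ∞ fun a : Bil H => ((a (e j) (e k) : ℝ) : ℂ) :=
    Complex.ofRealCLM.contDiff.comp (LA3_app (e j) (e k))
  exact h1.sub (contDiff_const.mul h2)

private theorem LA3_det {X : Type*} [NormedAddCommGroup X] [NormedSpace ℝ X] (M : X → Matrix (Fin n) (Fin n) ℂ)
    (h : ∀ i j, ContDiff ℝ ∞ fun x => M x i j) : ContDiff ℝ ∞ fun x => (M x).det := by
  have e1 : (fun x => (M x).det) = fun x => ∑ σ : Equiv.Perm (Fin n), ((Equiv.Perm.sign σ : ℤ) : ℂ) * ∏ i, M x (σ i) i := by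
    funext x
    exact Matrix.det_apply' (M x)
  rw [e1]
  refine ContDiff.sum fun σ _ => contDiff_const.mul ?_
  exact contDiff_prod fun i _ => h (σ i) i

private theorem LA3_adj {X : Type*} [NormedAddCommGroup X] [NormedSpace ℝ X] (M : X → Matrix (Fin n) (Fin n) ℂ)
    (h : ∀ i j, ContDiff ℝ ∞ fun x => M x i j) (i j : Fin n) : ContDiff ℝ ∞ fun x => (M x).adjugate i j := by
  have e1 : (fun x => (M x).adjugate i j) = fun x => ((M x).updateRow j (Pi.single i 1)).det := by
    funext x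
    exact Matrix.adjugate_apply (M x) i j
  rw [e1]
  refine LA3_det _ fun k l => ?_
  by_cases hk : k = j
  · have e2 : (fun x => (M x).updateRow j (Pi.single i 1) k l) = fun _ => (Pi.single i 1 : Fin n → ℂ) l := by
      funext x
      rw [hk, Matrix.updateRow_self]
    rw [e2]
    exact contDiff_const
  · have e2 : (fun x => (M x).updateRow j (Pi.single i 1) k l) = fun x => M x k l := by
      funext x
      rw [Matrix.updateRow_ne hk]
    rw [e2]
    exact h k l

theorem dt_smooth : ContDiff ℝ ∞ (dt e : Bil H → ℝ) :=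
  Complex.reCLM.contDiff.comp (LA3_det (fun a : Bil H => Mt e a) (LA3_entry e))

theorem cf_smooth : ContDiff ℝ ∞ fun p : Bil H × Bil H => cf e p.1 p.2 := by
  have h1 : ∀ i j, ContDiff ℝ ∞ fun p : Bil H × Bil H => Mt e p.1 i j := fun i j => (LA3_entry e i j).comp contDiff_fst
  have h2 : ∀ i j, ContDiff ℝ ∞ fun p : Bil H × Bil H => Mt e p.2 i j := fun i j => (LA3_entry e i j).comp contDiff_snd
  have h3 : ContDiff ℝ ∞ fun p : Bil H × Bil H => ∑ i, ∑ j, (Mt e p.1).adjugate i j * Mt e p.2 j i := by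
    refine ContDiff.sum fun i _ => ContDiff.sum fun j _ => ?_
    exact (LA3_adj (fun p : Bil H × Bil H => Mt e p.1) h1 i j).mul (h2 j i)
  exact Complex.reCLM.contDiff.comp h3

theorem cf_add (a s s' : Bil H) : cf e a (s + s') = cf e a s + cf e a s' := by
  unfold cf
  rw [Mt_add, Matrix.mul_add, Matrix.trace_add, Complex.add_re]

theorem cf_sub (a s s' : Bil H) : cf e a (s - s') = cf e a s - cf e a s' := by
  unfold cf
  rw [Mt_sub, Matrix.mul_sub, Matrix.trace_sub, Complex.sub_re]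

theorem cf_smul (a : Bil H) (c : ℝ) (s : Bil H) : cf e a (c • s) = c * cf e a s := by
  unfold cf
  rw [Mt_smul, Matrix.mul_smul, Matrix.trace_smul, smul_eq_mul, Complex.re_ofReal_mul]

theorem cf_sum {ι : Type*} (t : Finset ι) (a : Bil H) (s : ι → Bil H) :
    cf e a (∑ i ∈ t, s i) = ∑ i ∈ t, cf e a (s i) := by
  classical
  induction t using Finset.induction_on with
  | empty =>
    have h := cf_smul e a 0 (0 : Bil H)
    rw [LA3_zero, zero_mul] at h
    rw [Finset.sum_empty, Finset.sum_empty]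
    exact h
  | insert i t hi ih => rw [Finset.sum_insert hi, Finset.sum_insert hi, cf_add, ih]

private theorem LA3_updateCol (A S : Matrix (Fin n) (Fin n) ℂ) :
    ∑ σ : Equiv.Perm (Fin n), ((Equiv.Perm.sign σ : ℤ) : ℂ) *
      ∑ i, (∏ j ∈ Finset.univ.erase i, A (σ j) j) • S (σ i) i = (A.adjugate * S).trace := by
  have h1 : (A.adjugate * S).trace = ∑ i, (A.updateCol i (fun k => S k i)).det := by
    unfold Matrix.trace
    refine Finset.sum_congr rfl fun i _ => ?_
    rw [← Matrix.cramer_apply, Matrix.cramer_eq_adjugate_mulVec]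
    rfl
  rw [h1]
  have h2 : ∀ i, (A.updateCol i (fun k => S k i)).det = ∑ σ : Equiv.Perm (Fin n), ((Equiv.Perm.sign σ : ℤ) : ℂ) *
      ((∏ j ∈ Finset.univ.erase i, A (σ j) j) • S (σ i) i) := by
    intro i
    rw [Matrix.det_apply']
    refine Finset.sum_congr rfl fun σ _ => ?_
    congr 1
    rw [← Finset.prod_erase_mul Finset.univ _ (Finset.mem_univ i), smul_eq_mul, Matrix.updateCol_self]
    congr 1
    refine Finset.prod_congr rfl fun j hj => ?_
    rw [Matrix.updateCol_ne (Finset.ne_of_mem_erase hj)]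
  simp_rw [h2, Finset.mul_sum]
  exact Finset.sum_comm

theorem hasDerivAt_dt (a s : Bil H) (t : ℝ) :
    HasDerivAt (fun t : ℝ => dt e (a + t • s)) (cf e (a + t • s) s) t := by
  have hM : ∀ t : ℝ, ∀ i j, Mt e (a + t • s) i j = Mt e a i j + (t : ℂ) * Mt e s i j := by
    intro t i j
    rw [Mt_add, Mt_smul]
    rfl
  have h1 : ∀ i j, HasDerivAt (fun t : ℝ => Mt e (a + t • s) i j) (Mt e s i j) t := by
    intro i j
    have e1 : (fun t : ℝ => Mt e (a + t • s) i j) = fun t : ℝ => Mt e a i j + (t : ℂ) * Mt e s i j := by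
      funext t
      exact hM t i j
    rw [e1]
    have h2 : HasDerivAt (fun t : ℝ => (t : ℂ)) 1 t := Complex.ofRealCLM.hasDerivAt
    simpa using (h2.mul_const (Mt e s i j)).const_add (Mt e a i j)
  have h2 : HasDerivAt (fun t : ℝ => (Mt e (a + t • s)).det) (((Mt e (a + t • s)).adjugate * Mt e s).trace) t := by
    rw [← LA3_updateCol]
    have e1 : (fun t : ℝ => (Mt e (a + t • s)).det) = fun t : ℝ => ∑ σ : Equiv.Perm (Fin n),
        ((Equiv.Perm.sign σ : ℤ) : ℂ) * ∏ i, Mt e (a + t • s) (σ i) i := by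
      funext t
      exact Matrix.det_apply' _
    rw [e1]
    refine HasDerivAt.fun_sum fun σ _ => ?_
    refine HasDerivAt.const_mul _ ?_
    exact HasDerivAt.fun_finsetProd fun i _ => h1 (σ i) i
  exact (Complex.reCLM.hasFDerivAt.comp_hasDerivAt t h2)

private theorem LA3_cpt (R : ℝ) : IsCompact {a : Bil H | ‖a‖ ≤ R} :=
  haveI : FiniteDimensional ℝ H := FiniteDimensional.complexToReal H
  LA3_ball R

theorem bd_dt (R : ℝ) : ∃ C : ℝ, 0 ≤ C ∧ ∀ a : Bil H, ‖a‖ ≤ R → |dt e a| ≤ C := by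
  obtain ⟨C, hC⟩ := (LA3_cpt (H := H) R).exists_bound_of_continuousOn (dt_smooth e).continuous.continuousOn
  refine ⟨max C 0, le_max_right _ _, fun a ha => ?_⟩
  have h := hC a ha
  rw [Real.norm_eq_abs] at h
  exact h.trans (le_max_left _ _)

theorem bd_cf (R : ℝ) : ∃ C : ℝ, 0 ≤ C ∧ ∀ a s : Bil H, ‖a‖ ≤ R → |cf e a s| ≤ C * ‖s‖ := by
  obtain ⟨C, hC⟩ := ((LA3_cpt (H := H) R).prod (LA3_cpt (H := H) 1)).exists_bound_of_continuousOn
    (cf_smooth e).continuous.continuousOn
  refine ⟨max C 0, le_max_right _ _, fun a s ha => ?_⟩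
  by_cases hs : s = 0
  · have h := cf_smul e a 0 s
    rw [LA3_zero, zero_mul] at h
    rw [hs, h, abs_zero]
    exact mul_nonneg (le_max_right _ _) (norm_nonneg _)
  · have hs' : 0 < ‖s‖ := LA3_pos hs
    obtain ⟨h1, h4⟩ := LA3_unit hs
    have h2 := hC (a, ‖s‖⁻¹ • s) ⟨ha, h1⟩
    rw [Real.norm_eq_abs] at h2
    have h3 : cf e a s = ‖s‖ * cf e a (‖s‖⁻¹ • s) := by
      rw [← cf_smul, h4]
    rw [h3, abs_mul, abs_of_pos hs', mul_comm]
    exact mul_le_mul_of_nonneg_right (h2.trans (le_max_left _ _)) hs'.le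

theorem lip_dt (R : ℝ) : ∃ C : ℝ, 0 ≤ C ∧ ∀ a b : Bil H, ‖a‖ ≤ R → ‖b‖ ≤ R → |dt e a - dt e b| ≤ C * ‖a - b‖ := by
  obtain ⟨C, hC0, hC⟩ := bd_cf (H := H) e R
  refine ⟨C, hC0, fun a b ha hb => ?_⟩
  have h1 : ∀ t ∈ Set.Icc (0 : ℝ) 1, HasDerivWithinAt (fun t : ℝ => dt e (b + t • (a - b)))
      (cf e (b + t • (a - b)) (a - b)) (Set.Icc 0 1) t := fun t _ => (hasDerivAt_dt e b (a - b) t).hasDerivWithinAt
  have h2 : ∀ t ∈ Set.Ico (0 : ℝ) 1, ‖cf e (b + t • (a - b)) (a - b)‖ ≤ C * ‖a - b‖ := by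
    intro t ht
    rw [Real.norm_eq_abs]
    exact hC _ _ (LA3_seg a b ha hb ht.1 ht.2)
  have h3 := norm_image_sub_le_of_norm_deriv_le_segment_01' h1 h2
  rw [Real.norm_eq_abs, (LA3_end a b).1, (LA3_end a b).2] at h3
  exact h3

end HDG
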