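import Pool.Agent.HDG.LA2
import Pool.Agent.HDG.LA3

/-!
# HDG/LA4: positivity of `cf` and perturbation estimates

`cf_nonneg`: `cf e a s` is the derivative at `0` of `t ↦ dt e (a + t • s)`, which is at least its value at `0` for `t ≥ 0`.
The other statements follow from the eigenvalues `exists_eig` and elementary inequalities for finite products.
-/

set_option autoImplicit false

noncomputable section

open scoped ContDiff ComplexOrder

namespace HDG

open Pool.Agent.FBR

variable {H : Type*} [NormedAddCommGroup H] [NormedSpace ℂ H] [FiniteDimensional ℂ H] {n : ℕ}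
  (e : Module.Basis (Fin n) ℂ H)

omit [FiniteDimensional ℂ H] in
private lemma LA4_zero (a s : Bil H) : a + (0 : ℝ) • s = a := by
  ext u v
  rw [add_apply, add_apply, smul_apply, smul_apply, smul_eq_mul]
  ring

private lemma LA4_sum_prod {ι : Type*} [DecidableEq ι] (s : Finset ι) (l : ι → ℝ) (hl : ∀ i, 0 ≤ l i) :
    ∑ i ∈ s, ∏ j ∈ s.erase i, l j ≤ ∏ i ∈ s, (l i + 1) := by
  induction s using Finset.induction_on with
  | empty => simp
  | insert a s ha ih =>
    rw [Finset.sum_insert ha, Finset.prod_insert ha, Finset.erase_insert ha]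
    have h1 : ∑ i ∈ s, ∏ j ∈ (insert a s).erase i, l j = l a * ∑ i ∈ s, ∏ j ∈ s.erase i, l j := by
      rw [Finset.mul_sum]
      refine Finset.sum_congr rfl fun i hi => ?_
      have hai : a ≠ i := fun h => ha (h ▸ hi)
      rw [Finset.erase_insert_of_ne hai, Finset.prod_insert (fun h => ha (Finset.mem_of_mem_erase h))]
    have h2 : ∏ j ∈ s, l j ≤ ∏ j ∈ s, (l j + 1) :=
      Finset.prod_le_prod (fun i _ => hl i) (fun i _ => by linarith)
    have h3 := mul_le_mul_of_nonneg_left ih (hl a)
    rw [h1]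
    linarith

private lemma LA4_abs_prod {ι : Type*} (s : Finset ι) (l : ι → ℝ) (hl : ∀ i, -1 ≤ l i) :
    |∏ i ∈ s, l i| ≤ ∏ i ∈ s, (l i + 2) := by
  rw [Finset.abs_prod]
  refine Finset.prod_le_prod (fun i _ => abs_nonneg _) (fun i _ => ?_)
  have h1 := hl i
  rw [abs_le]
  constructor <;> linarith

private lemma LA4_pert {ι : Type*} (s : Finset ι) (l : ι → ℝ) (hl : ∀ i, -1 ≤ l i) {r : ℝ} (hr : 0 ≤ r)
    (hr' : r ≤ 1) :
    |∏ i ∈ s, (l i + r) - ∏ i ∈ s, l i| ≤ s.card * r * ∏ i ∈ s, (l i + 2) := by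
  classical
  induction s using Finset.induction_on with
  | empty => simp
  | insert a s ha ih =>
    rw [Finset.prod_insert ha, Finset.prod_insert ha, Finset.prod_insert ha, Finset.card_insert_of_notMem ha]
    set P := ∏ i ∈ s, (l i + r) with hP
    set P0 := ∏ i ∈ s, l i with hP0
    set Q := ∏ i ∈ s, (l i + 2) with hQ
    have hQ0 : 0 ≤ Q := Finset.prod_nonneg fun i _ => by linarith [hl i]
    have h1 : |P0| ≤ Q := LA4_abs_prod s l hl
    have h2 : (l a + r) * P - l a * P0 = (l a + r) * (P - P0) + r * P0 := by ring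
    have h3 : |l a + r| ≤ l a + 2 := by
      rw [abs_le]
      constructor <;> linarith [hl a]
    have h4 : 1 ≤ l a + 2 := by linarith [hl a]
    have h5 : |(l a + r) * (P - P0)| ≤ (l a + 2) * (s.card * r * Q) := by
      rw [abs_mul]
      exact mul_le_mul h3 ih (abs_nonneg _) (by linarith)
    have h6 : |r * P0| ≤ r * ((l a + 2) * Q) := by
      rw [abs_mul, abs_of_nonneg hr]
      refine mul_le_mul_of_nonneg_left (h1.trans ?_) hr
      nlinarith
    rw [h2]
    push_cast
    calc |(l a + r) * (P - P0) + r * P0| ≤ |(l a + r) * (P - P0)| + |r * P0| := abs_add_le _ _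
      _ ≤ (l a + 2) * (s.card * r * Q) + r * ((l a + 2) * Q) := add_le_add h5 h6
      _ = (s.card + 1) * r * ((l a + 2) * Q) := by ring

theorem cf_nonneg {a s : Bil H} (ha : O11 a) (hs : O11 s) (h : Nn a) (h' : Nn s) : 0 ≤ cf e a s := by
  have hd := hasDerivAt_dt e a s 0
  rw [LA4_zero] at hd
  have h1 := hd.tendsto_slope
  have h2 : Filter.Tendsto (slope (fun t : ℝ => dt e (a + t • s)) 0) (nhdsWithin 0 (Set.Ioi 0))
      (nhds (cf e a s)) := h1.mono_left (nhdsWithin_mono _ fun t ht => ne_of_gt ht)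
  refine ge_of_tendsto h2 ?_
  filter_upwards [self_mem_nhdsWithin] with t ht
  have ht' : 0 < t := ht
  have h3 : dt e (a + (0 : ℝ) • s) ≤ dt e (a + t • s) := by
    rw [LA4_zero]
    refine dt_mono e ha (O11_add ha (O11_smul t hs)) h ?_
    intro v
    rw [sub_apply, sub_apply, add_apply, add_apply, smul_apply, smul_apply, smul_eq_mul]
    have h4 := mul_nonneg ht'.le (h' v)
    linarith
  rw [slope_def_field]
  exact div_nonneg (by linarith) (by linarith)

theorem cf_abs_le {a s : Bil H} (ha : O11 a) (hs : O11 s) (h : Nn a) {c : ℝ}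
    (hc : ∀ v : H, |s v (Complex.I • v)| ≤ c * qf e v) : |cf e a s| ≤ c * cf e a (w0 e) := by
  have h1 : Nn (c • w0 e - s) := by
    intro v
    have h2 := (abs_le.mp (hc v)).2
    rw [sub_apply, sub_apply, smul_apply, smul_apply, smul_eq_mul, w0_self]
    linarith
  have h3 : Nn (c • w0 e + s) := by
    intro v
    have h2 := (abs_le.mp (hc v)).1
    rw [add_apply, add_apply, smul_apply, smul_apply, smul_eq_mul, w0_self]
    linarith
  have hw : O11 (c • w0 e : Bil H) := O11_smul c (w0_O11 e)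
  have h4 := cf_nonneg e ha (O11_sub hw hs) h h1
  have h5 := cf_nonneg e ha (O11_add hw hs) h h3
  rw [cf_sub, cf_smul] at h4
  rw [cf_add, cf_smul] at h5
  rw [abs_le]
  constructor <;> linarith

theorem cf_w0_le {a : Bil H} (ha : O11 a) (h : Nn a) : cf e a (w0 e) ≤ dt e (a + w0 e) := by
  obtain ⟨l, h1, h2, h3⟩ := exists_eig e ha
  have k1 : ∀ i, 0 ≤ l i := by
    have := (h3 0).mp (by rwa [LA4_zero])
    intro i
    have := this i
    linarith
  have k2 := h1 1
  have k3 := h2 0
  rw [one_smul] at k2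
  rw [LA4_zero] at k3
  rw [k2, k3]
  have k4 := LA4_sum_prod Finset.univ l k1
  simp only [add_zero]
  exact k4

theorem abs_dt_le {a : Bil H} (ha : O11 a) (h : Nn (a + w0 e)) : |dt e a| ≤ dt e (a + (2 : ℝ) • w0 e) := by
  obtain ⟨l, h1, h2, h3⟩ := exists_eig e ha
  have k1 : ∀ i, -1 ≤ l i := by
    have := (h3 1).mp (by rwa [one_smul])
    intro i
    have := this i
    linarith
  have k2 := h1 0
  rw [LA4_zero] at k2
  rw [h1 2, k2]
  simp only [add_zero]
  exact LA4_abs_prod Finset.univ l k1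

theorem pert {a : Bil H} (ha : O11 a) (h : Nn (a + w0 e)) {r : ℝ} (hr : 0 ≤ r) (hr' : r ≤ 1) :
    |dt e (a + r • w0 e) - dt e a| ≤ n * r * dt e (a + (2 : ℝ) • w0 e) := by
  obtain ⟨l, h1, h2, h3⟩ := exists_eig e ha
  have k1 : ∀ i, -1 ≤ l i := by
    have := (h3 1).mp (by rwa [one_smul])
    intro i
    have := this i
    linarith
  have k2 := h1 0
  rw [LA4_zero] at k2
  rw [h1 2, h1 r, k2]
  simp only [add_zero]
  have k3 := LA4_pert Finset.univ l k1 hr hr'
  rwa [Finset.card_univ, Fintype.card_fin] at k3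

end HDG
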