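import Pool.Agent.HDG.OB9
import Pool.Agent.HDG.LA4

/-!
# HDG/GL1: limits of integrals for the solution of the obstacle problem

The determinants `dt (c + ddc (Pk k))` are bounded on `qb e 3` uniformly in `k`, so their limit `m` is bounded there, measurable and
integrable; `m ≥ 0` by the perturbation estimate `pert`. The limits of the integrals follow by dominated convergence on `qb e 3`.
-/

set_option autoImplicit false

noncomputable section

open scoped ContDiff ComplexOrder Topology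

open MeasureTheory Filter

namespace HDG

open Pool.Agent.FBR

variable {H : Type*} [NormedAddCommGroup H] [NormedSpace ℂ H] {n : ℕ} (e : Module.Basis (Fin n) ℂ H)
  [FiniteDimensional ℂ H] [MeasurableSpace H] [BorelSpace H] (μ : Measure H) [μ.IsAddHaarMeasure]
  {c : H → Bil H} {ρ u : H → ℝ} {τ : ℝ} {P m : H → ℝ} {Pk : ℕ → H → ℝ} {B : ℝ}

private theorem GL1_sub {z : H} (hz : z ∈ qb e 3) : z ∈ {z : H | qf e z ≤ (3 : ℝ) ^ 2} :=
  le_of_lt (show qf e z < (3 : ℝ) ^ 2 from hz)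

set_option maxSynthPendingDepth 3 in
private theorem GL1_cont {c : H → Bil H} (hc : ContDiff ℝ ∞ c) {f : H → ℝ} (hf : ContDiff ℝ ∞ f) :
    Continuous fun z => dt e (c z + ddc f z) := by
  have h1 : Continuous (ddc f) :=
    continuous_iff_continuousAt.2 fun z => (ddc_smooth hf.contDiffAt).continuousAt
  exact (dt_smooth e).continuous.comp (hc.continuous.add h1)

set_option maxSynthPendingDepth 3 in
private theorem GL1_bd (h : ObSol e μ c ρ u τ P m Pk B) (hc : ContDiff ℝ ∞ c) :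
    ∃ C : ℝ, 0 ≤ C ∧ ∀ k z, z ∈ qb e 3 → |dt e (c z + ddc (Pk k) z)| ≤ C ∧
      |dt e (c z + ddc (Pk k) z + (2 : ℝ) • w0 e)| ≤ C := by
  obtain ⟨K, hK⟩ := (isCompact_qb e 3).exists_bound_of_continuousOn hc.continuous.continuousOn
  obtain ⟨C, hC0, hC⟩ := bd_dt (H := H) e (K + B + 2 * ‖(w0 e : Bil H)‖)
  refine ⟨C, hC0, fun k z hz => ?_⟩
  have h1 : ‖c z‖ ≤ K := hK z (GL1_sub e hz)
  have h2 := h.bd k z
  have h3 : ‖c z + ddc (Pk k) z‖ ≤ K + B := (norm_add_le _ _).trans (add_le_add h1 h2)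
  have h4 : 0 ≤ ‖(w0 e : Bil H)‖ := norm_nonneg _
  refine ⟨hC _ (h3.trans (by linarith)), hC _ ?_⟩
  refine (norm_add_le _ _).trans (add_le_add h3 ?_)
  rw [norm_smul, Real.norm_ofNat]

private theorem GL1_fin : IsFiniteMeasure (μ.restrict (qb e 3)) := by
  refine ⟨?_⟩
  rw [Measure.restrict_apply_univ]
  refine lt_of_le_of_lt (measure_mono fun z hz => ?_) (isCompact_qb e 3).measure_lt_top
  exact GL1_sub e hz

private theorem GL1_ae (h : ObSol e μ c ρ u τ P m Pk B) :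
    ∀ᵐ z ∂(μ.restrict (qb e 3)), Tendsto (fun k => dt e (c z + ddc (Pk k) z)) atTop (𝓝 (m z)) :=
  (ae_restrict_iff' (isOpen_qb e 3).measurableSet).2 h.ae

private theorem GL1_ms (h : ObSol e μ c ρ u τ P m Pk B) (hc : ContDiff ℝ ∞ c) :
    AEStronglyMeasurable m (μ.restrict (qb e 3)) :=
  aestronglyMeasurable_of_tendsto_ae atTop
    (fun k => (GL1_cont e hc (h.smk k)).aestronglyMeasurable) (GL1_ae e μ h)

private theorem GL1_dom (h : ObSol e μ c ρ u τ P m Pk B) (hc : ContDiff ℝ ∞ c) {χk : ℕ → H → ℝ} {χ : H → ℝ}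
    {X : ℝ} (hχ : ∀ k, Continuous (χk k)) (hz : ∀ k z, z ∉ qb e 3 → χk k z = 0)
    (hb : ∀ᶠ k in atTop, ∀ z ∈ qb e 3, |χk k z| ≤ X)
    (hl : ∀ z ∈ qb e 3, Tendsto (fun k => χk k z) atTop (𝓝 (χ z))) :
    Tendsto (fun k => ∫ z, χk k z * dt e (c z + ddc (Pk k) z) ∂μ) atTop (𝓝 (∫ z in qb e 3, χ z * m z ∂μ)) := by
  have hfin := GL1_fin e μ
  obtain ⟨C, hC0, hC⟩ := GL1_bd e μ h hc
  have h1 : ∀ k, ∫ z, χk k z * dt e (c z + ddc (Pk k) z) ∂μ =
      ∫ z in qb e 3, χk k z * dt e (c z + ddc (Pk k) z) ∂μ := by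
    intro k
    refine (setIntegral_eq_integral_of_forall_compl_eq_zero fun z hz' => ?_).symm
    rw [hz k z hz', zero_mul]
  simp_rw [h1]
  refine tendsto_integral_filter_of_dominated_convergence (fun _ => X * C) ?_ ?_ (integrable_const _) ?_
  · exact Eventually.of_forall fun k => ((hχ k).mul (GL1_cont e hc (h.smk k))).aestronglyMeasurable
  · filter_upwards [hb] with k hk
    refine (ae_restrict_iff' (isOpen_qb e 3).measurableSet).2 (Eventually.of_forall fun z hz' => ?_)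
    rw [Real.norm_eq_abs, abs_mul]
    exact mul_le_mul (hk z hz') (hC k z hz').1 (abs_nonneg _) ((abs_nonneg _).trans (hk z hz'))
  · refine (ae_restrict_iff' (isOpen_qb e 3).measurableSet).2 ?_
    filter_upwards [h.ae] with z h2 hz'
    exact (hl z hz').mul (h2 hz')

theorem ObSol.m_nn (h : ObSol e μ c ρ u τ P m Pk B) (hc : ContDiff ℝ ∞ c) (hoo : ∀ z, O11 (c z)) :
    ∀ᵐ z ∂μ, z ∈ qb e 3 → 0 ≤ m z := by
  obtain ⟨C, hC0, hC⟩ := GL1_bd e μ h hc
  filter_upwards [h.ae] with z hz hz3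
  have hlim : Tendsto (fun ε : ℝ => -((n : ℝ) * ε * C)) (𝓝[>] 0) (𝓝 0) := by
    have h1 : Continuous fun ε : ℝ => -((n : ℝ) * ε * C) := by fun_prop
    have h2 := h1.tendsto 0
    rw [mul_zero, zero_mul, neg_zero] at h2
    exact h2.mono_left nhdsWithin_le_nhds
  refine le_of_tendsto hlim ?_
  filter_upwards [Ioc_mem_nhdsGT (zero_lt_one (α := ℝ))] with ε hε
  refine ge_of_tendsto (hz hz3) ?_
  filter_upwards [h.nn ε hε.1] with k hk
  have hN := hk z hz3
  have hO : O11 (c z + ddc (Pk k) z) :=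
    O11_add (hoo z) (O11_ddc ((h.smk k).contDiffAt.of_le (by norm_cast)))
  have hO2 : O11 (c z + ddc (Pk k) z + ε • w0 e) := O11_add hO (O11_smul ε (w0_O11 e))
  have h1 := dt_nonneg e hO2 hN
  have hN1 : Nn (c z + ddc (Pk k) z + w0 e) := by
    intro v
    have h2 := hN v
    have h3 := qf_nonneg e v
    rw [add_apply, add_apply, smul_apply, smul_apply, smul_eq_mul, w0_self] at h2
    rw [add_apply, add_apply, w0_self]
    have h4 : ε * qf e v ≤ 1 * qf e v := mul_le_mul_of_nonneg_right hε.2 h3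
    linarith
  have h2 := pert e hO hN1 hε.1.le hε.2
  have h3 := (abs_le.1 h2).2
  have h4 := (hC k z hz3).2
  have h5 : (n : ℝ) * ε * dt e (c z + ddc (Pk k) z + (2 : ℝ) • w0 e) ≤ (n : ℝ) * ε * C :=
    mul_le_mul_of_nonneg_left ((le_abs_self _).trans h4) (mul_nonneg (Nat.cast_nonneg n) hε.1.le)
  linarith

theorem ObSol.m_bd (h : ObSol e μ c ρ u τ P m Pk B) (hc : ContDiff ℝ ∞ c) (hoo : ∀ z, O11 (c z)) :
    (∃ C : ℝ, ∀ᵐ z ∂μ, z ∈ qb e 3 → |m z| ≤ C) ∧ IntegrableOn m (qb e 3) μ := by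
  have hfin := GL1_fin e μ
  obtain ⟨C, hC0, hC⟩ := GL1_bd e μ h hc
  have h1 : ∀ᵐ z ∂μ, z ∈ qb e 3 → |m z| ≤ C := by
    filter_upwards [h.ae] with z hz hz3
    exact le_of_tendsto (hz hz3).abs (Eventually.of_forall fun k => (hC k z hz3).1)
  refine ⟨⟨C, h1⟩, ?_⟩
  have h2 : ∀ᵐ z ∂(μ.restrict (qb e 3)), ‖m z‖ ≤ C :=
    (ae_restrict_iff' (isOpen_qb e 3).measurableSet).2 h1
  exact (integrable_const C).mono' (GL1_ms e μ h hc) h2

theorem ObSol.tend (h : ObSol e μ c ρ u τ P m Pk B) (hc : ContDiff ℝ ∞ c) (hoo : ∀ z, O11 (c z)) {χ : H → ℝ}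
    (hχ : Continuous χ) (hs : tsupport χ ⊆ qb e 3) :
    Tendsto (fun k => ∫ z, χ z * dt e (c z + ddc (Pk k) z) ∂μ) atTop (𝓝 (∫ z in qb e 3, χ z * m z ∂μ)) := by
  obtain ⟨X, hX⟩ := (isCompact_qb e 3).exists_bound_of_continuousOn hχ.continuousOn
  refine GL1_dom e μ h hc (X := X) (fun _ => hχ) (fun _ z hz => ?_) (Eventually.of_forall fun _ z hz => ?_)
    fun _ _ => tendsto_const_nhds
  · by_contra h1
    exact hz (hs (subset_tsupport χ h1))
  · exact hX z (GL1_sub e hz)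

theorem ObSol.tendP (h : ObSol e μ c ρ u τ P m Pk B) (hc : ContDiff ℝ ∞ c) (hoo : ∀ z, O11 (c z))
    (hu1 : ∀ z, u z ≤ 1) (hτ : 0 < τ) :
    Tendsto (fun k => ∫ z, Pk k z * dt e (c z + ddc (Pk k) z) ∂μ) atTop (𝓝 (∫ z in qb e 3, P z * m z ∂μ)) := by
  refine GL1_dom e μ h hc (X := τ + 1) (fun k => (h.smk k).continuous) (fun k z hz => ?_) ?_ fun z _ => ?_
  · by_contra h1
    have h2 : qf e z < (5 / 2 : ℝ) ^ 2 := h.supk k (subset_tsupport (Pk k) h1)
    refine hz ?_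
    show qf e z < (3 : ℝ) ^ 2
    norm_num at h2 ⊢
    linarith
  · filter_upwards [h.lim 1 one_pos] with k hk z _
    have h1 := hk z
    have h2 := h.p0 z
    have h3 : P z ≤ τ := (h.pu z).trans (mul_le_of_le_one_right hτ.le (hu1 z))
    rw [abs_le] at h1 ⊢
    constructor
    · linarith [h1.1]
    · linarith [h1.2]
  · rw [Metric.tendsto_atTop]
    intro ε hε
    obtain ⟨N, hN⟩ := eventually_atTop.1 (h.lim (ε / 2) (half_pos hε))
    refine ⟨N, fun k hk => ?_⟩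
    rw [Real.dist_eq]
    exact lt_of_le_of_lt (hN k hk z) (half_lt_self hε)

end HDG
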