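import Pool.Agent.HDG.LA1

/-!
# HDG/H1: sub-mean value inequality

`circ`: for `F r = ∫ f (z + (r e^{iθ}) v) dθ` the function `A r = r F' r` has `r A' r = r² ∫ Δ ≥ 0` (the second derivative with
respect to `θ` has mean zero), so `A` and `F` are nondecreasing on `[0, 1]`. `int_rot`: a rotation multiplies the Haar measure by a
constant and preserves the ball `qb e 1`, so the constant is one. `ball_mean`: integrate `circ` over the ball.
-/

set_option autoImplicit false

noncomputable section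

open scoped ContDiff Topology

open MeasureTheory

namespace HDG

open Pool.Agent.FBR

/-- differentiation under the integral sign -/
private theorem H1_diff {F F' : ℝ → ℝ → ℝ} (hF : Continuous (Function.uncurry F))
    (hF' : Continuous (Function.uncurry F')) (hd : ∀ x t, HasDerivAt (fun x => F x t) (F' x t) x) (a b x₀ : ℝ) :
    HasDerivAt (fun x => ∫ t in a..b, F x t) (∫ t in a..b, F' x₀ t) x₀ := by
  have hc : ∀ x, Continuous (F x) := fun x => hF.comp (Continuous.prodMk_right x)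
  have hc' : ∀ x, Continuous (F' x) := fun x => hF'.comp (Continuous.prodMk_right x)
  have hK : IsCompact (Metric.closedBall x₀ 1 ×ˢ Set.uIcc a b) :=
    (isCompact_closedBall x₀ 1).prod isCompact_uIcc
  obtain ⟨C, hC⟩ := hK.exists_bound_of_continuousOn (f := Function.uncurry F') hF'.continuousOn
  refine (intervalIntegral.hasDerivAt_integral_of_dominated_loc_of_deriv_le (s := Metric.closedBall x₀ 1)
    (bound := fun _ => C) (Metric.closedBall_mem_nhds x₀ one_pos)
    (Filter.Eventually.of_forall fun x => (hc x).aestronglyMeasurable)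
    ((hc x₀).intervalIntegrable a b) (hc' x₀).aestronglyMeasurable ?_ intervalIntegrable_const ?_).2
  · refine Filter.Eventually.of_forall fun t ht x hx => ?_
    exact hC (x, t) ⟨hx, Set.uIoc_subset_uIcc ht⟩
  · exact Filter.Eventually.of_forall fun t _ x _ => hd x t

variable {H : Type*} [NormedAddCommGroup H] [NormedSpace ℂ H] {n : ℕ} (e : Module.Basis (Fin n) ℂ H)
  [FiniteDimensional ℂ H] [MeasurableSpace H] [BorelSpace H] (μ : Measure H) [μ.IsAddHaarMeasure]

omit [FiniteDimensional ℂ H] [MeasurableSpace H] [BorelSpace H] in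
private theorem H1_self {a : Bil H} (ha : O11 a) (v : H) (x y : ℝ) :
    a (((x : ℂ) + y * Complex.I) • v) (Complex.I • (((x : ℂ) + y * Complex.I) • v)) =
      (x ^ 2 + y ^ 2) * a v (Complex.I • v) := by
  have e1 : ((x : ℂ) + y * Complex.I) • v = x • v + y • (Complex.I • v) := by
    rw [add_smul, mul_smul]
    rfl
  have e2 : Complex.I • (x • v + y • (Complex.I • v)) = x • (Complex.I • v) - y • v := by
    rw [smul_add, smul_comm Complex.I x v, smul_comm Complex.I y, smul_smul, Complex.I_mul_I, neg_one_smul,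
      smul_neg, ← sub_eq_add_neg]
  have h1 : a v v = 0 := ha.1 v
  have h2 : a (Complex.I • v) (Complex.I • v) = 0 := ha.1 _
  have h3 : a (Complex.I • v) v = - a v (Complex.I • v) := by
    have h4 := ha.1 (v + Complex.I • v)
    simp only [map_add, _root_.add_apply] at h4
    rw [h1, h2] at h4
    linarith
  rw [e1, e2]
  simp only [map_add, map_sub, map_smul, _root_.add_apply, _root_.smul_apply,
    smul_eq_mul]
  rw [h1, h2, h3]
  ring

theorem circ {f : H → ℝ} (hf : ContDiff ℝ ∞ f) (z v : H)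
    (h : ∀ ζ : ℂ, ‖ζ‖ ≤ 1 → 0 ≤ ddc f (z + ζ • v) v (Complex.I • v)) :
    f z ≤ (2 * Real.pi)⁻¹ * ∫ θ in (0 : ℝ)..(2 * Real.pi), f (z + Complex.exp (θ * Complex.I) • v) := by
  have hf1 : ContDiff ℝ ∞ (fderiv ℝ f) := hf.fderiv_right (by norm_num)
  have hf2 : ContDiff ℝ ∞ (fderiv ℝ (fderiv ℝ f)) := hf1.fderiv_right (by norm_num)
  have cf0 : Continuous f := hf.continuous
  have cf1 : Continuous (fderiv ℝ f) := hf1.continuous
  have cf2 : Continuous (fderiv ℝ (fderiv ℝ f)) := hf2.continuous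
  have df0 : ∀ w, HasFDerivAt f (fderiv ℝ f w) w := fun w => (hf.differentiable (by norm_num) w).hasFDerivAt
  have df1 : ∀ w, HasFDerivAt (fderiv ℝ f) (fderiv ℝ (fderiv ℝ f) w) w := fun w =>
    (hf1.differentiable (by norm_num) w).hasFDerivAt
  obtain ⟨u, hu⟩ : ∃ u : ℝ → H, u = fun θ : ℝ => Complex.exp (θ * Complex.I) • v := ⟨_, rfl⟩
  have cu : Continuous u := by
    rw [hu]
    exact (Complex.continuous_exp.comp (Complex.continuous_ofReal.mul continuous_const)).smul continuous_const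
  have du : ∀ θ, HasDerivAt u (Complex.I • u θ) θ := by
    intro θ
    have h1 : HasDerivAt (fun θ : ℝ => Complex.exp ((θ : ℂ) * Complex.I))
        (Complex.exp (θ * Complex.I) * (1 * Complex.I)) θ :=
      ((Complex.ofRealCLM.hasDerivAt (x := θ)).mul_const Complex.I).cexp
    have h2 := h1.smul_const v
    rw [hu]
    have h3 : (Complex.exp (θ * Complex.I) * (1 * Complex.I)) • v = Complex.I • (Complex.exp (θ * Complex.I) • v) := by
      rw [smul_smul, one_mul, mul_comm]
    rw [h3] at h2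
    exact h2
  -- the function and its derivatives
  obtain ⟨F, hF⟩ : ∃ F : ℝ → ℝ → ℝ, F = fun r θ => f (z + r • u θ) := ⟨_, rfl⟩
  obtain ⟨F', hF'⟩ : ∃ F' : ℝ → ℝ → ℝ, F' = fun r θ => fderiv ℝ f (z + r • u θ) (u θ) := ⟨_, rfl⟩
  obtain ⟨P, hP⟩ : ∃ P : ℝ → ℝ → ℝ, P = fun r θ => fderiv ℝ f (z + r • u θ) (r • u θ) := ⟨_, rfl⟩
  obtain ⟨P', hP'⟩ : ∃ P' : ℝ → ℝ → ℝ, P' = fun r θ => fderiv ℝ (fderiv ℝ f) (z + r • u θ) (u θ) (r • u θ) +
    fderiv ℝ f (z + r • u θ) (u θ) := ⟨_, rfl⟩
  have cw : Continuous fun q : ℝ × ℝ => z + q.1 • u q.2 :=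
    continuous_const.add (continuous_fst.smul (cu.comp continuous_snd))
  have cru : Continuous fun q : ℝ × ℝ => q.1 • u q.2 := continuous_fst.smul (cu.comp continuous_snd)
  have cuu : Continuous fun q : ℝ × ℝ => u q.2 := cu.comp continuous_snd
  have cF : Continuous (Function.uncurry F) := by
    rw [hF]
    exact cf0.comp cw
  have cF' : Continuous (Function.uncurry F') := by
    rw [hF']
    exact (cf1.comp cw).clm_apply cuu
  have cP : Continuous (Function.uncurry P) := by
    rw [hP]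
    exact (cf1.comp cw).clm_apply cru
  have cP' : Continuous (Function.uncurry P') := by
    rw [hP']
    exact (((cf2.comp cw).clm_apply cuu).clm_apply cru).add ((cf1.comp cw).clm_apply cuu)
  have dru : ∀ r θ : ℝ, HasDerivAt (fun r : ℝ => r • u θ) (u θ) r := by
    intro r θ
    have := (hasDerivAt_id r).smul_const (u θ)
    rwa [one_smul] at this
  have dw : ∀ r θ : ℝ, HasDerivAt (fun r : ℝ => z + r • u θ) (u θ) r := fun r θ => (dru r θ).const_add z
  have dF : ∀ r θ, HasDerivAt (fun r => F r θ) (F' r θ) r := by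
    intro r θ
    rw [hF, hF']
    exact (df0 _).comp_hasDerivAt r (dw r θ)
  have dP : ∀ r θ, HasDerivAt (fun r => P r θ) (P' r θ) r := by
    intro r θ
    rw [hP, hP']
    have h1 : HasDerivAt (fun r : ℝ => fderiv ℝ f (z + r • u θ)) (fderiv ℝ (fderiv ℝ f) (z + r • u θ) (u θ)) r :=
      (df1 _).comp_hasDerivAt r (dw r θ)
    exact h1.clm_apply (dru r θ)
  obtain ⟨I, hI⟩ : ∃ I : ℝ → ℝ, I = fun r => ∫ θ in (0 : ℝ)..(2 * Real.pi), F r θ := ⟨_, rfl⟩
  obtain ⟨A, hA⟩ : ∃ A : ℝ → ℝ, A = fun r => ∫ θ in (0 : ℝ)..(2 * Real.pi), P r θ := ⟨_, rfl⟩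
  have dI : ∀ r, HasDerivAt I (∫ θ in (0 : ℝ)..(2 * Real.pi), F' r θ) r := by
    intro r
    rw [hI]
    exact H1_diff cF cF' dF _ _ r
  have dA : ∀ r, HasDerivAt A (∫ θ in (0 : ℝ)..(2 * Real.pi), P' r θ) r := by
    intro r
    rw [hA]
    exact H1_diff cP cP' dP _ _ r
  have hper : u (2 * Real.pi) = u 0 := by
    rw [hu]
    simp only [Complex.ofReal_mul, Complex.ofReal_ofNat, Complex.ofReal_zero, zero_mul, Complex.exp_zero]
    rw [Complex.exp_two_pi_mul_I]
  -- the inequality for `A'`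
  have keyA : ∀ r : ℝ, 0 ≤ r → r ≤ 1 → 0 ≤ r * ∫ θ in (0 : ℝ)..(2 * Real.pi), P' r θ := by
    intro r hr0 hr1
    obtain ⟨G, hG⟩ : ∃ G : ℝ → ℝ, G = fun θ => fderiv ℝ f (z + r • u θ) (r • (Complex.I • u θ)) := ⟨_, rfl⟩
    obtain ⟨G', hG'⟩ : ∃ G' : ℝ → ℝ, G' = fun θ =>
      fderiv ℝ (fderiv ℝ f) (z + r • u θ) (r • (Complex.I • u θ)) (r • (Complex.I • u θ)) +
      fderiv ℝ f (z + r • u θ) (r • (Complex.I • (Complex.I • u θ))) := ⟨_, rfl⟩
    have cIu : Continuous fun θ => r • (Complex.I • u θ) := (cu.const_smul Complex.I).const_smul r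
    have cIIu : Continuous fun θ => r • (Complex.I • (Complex.I • u θ)) :=
      ((cu.const_smul Complex.I).const_smul Complex.I).const_smul r
    have cwθ : Continuous fun θ => z + r • u θ := continuous_const.add (cu.const_smul r)
    have cG' : Continuous G' := by
      rw [hG']
      exact (((cf2.comp cwθ).clm_apply cIu).clm_apply cIu).add ((cf1.comp cwθ).clm_apply cIIu)
    have dG : ∀ θ, HasDerivAt G (G' θ) θ := by
      intro θ
      rw [hG, hG']
      have h1 : HasDerivAt (fun θ : ℝ => z + r • u θ) (r • (Complex.I • u θ)) θ :=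
        ((du θ).const_smul r).const_add z
      have h2 : HasDerivAt (fun θ : ℝ => fderiv ℝ f (z + r • u θ))
          (fderiv ℝ (fderiv ℝ f) (z + r • u θ) (r • (Complex.I • u θ))) θ := (df1 _).comp_hasDerivAt θ h1
      have h3 : HasDerivAt (fun θ : ℝ => r • (Complex.I • u θ)) (r • (Complex.I • (Complex.I • u θ))) θ :=
        (((du θ).const_smul Complex.I)).const_smul r
      exact h2.clm_apply h3
    have hG0 : ∫ θ in (0 : ℝ)..(2 * Real.pi), G' θ = 0 := by
      rw [intervalIntegral.integral_eq_sub_of_hasDerivAt (fun θ _ => dG θ) (cG'.intervalIntegrable _ _), hG]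
      simp only [hper, sub_self]
    have hpt : ∀ θ, 0 ≤ r * P' r θ + G' θ := by
      intro θ
      have e1 : r * P' r θ = fderiv ℝ (fderiv ℝ f) (z + r • u θ) (r • u θ) (r • u θ) +
          fderiv ℝ f (z + r • u θ) (r • u θ) := by
        rw [hP']
        simp only [map_smul, _root_.smul_apply, smul_eq_mul]
        ring
      have e2 : r • (Complex.I • (Complex.I • u θ)) = -(r • u θ) := by
        rw [smul_smul Complex.I, Complex.I_mul_I, neg_one_smul, smul_neg]
      have e3 : r • (Complex.I • u θ) = Complex.I • (r • u θ) := smul_comm _ _ _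
      have e4 : r * P' r θ + G' θ = 2 * ddc f (z + r • u θ) (r • u θ) (Complex.I • (r • u θ)) := by
        rw [ddc_self, e1, hG']
        simp only [e2, e3, map_neg]
        ring
      rw [e4]
      have e5 : r • u θ = (((r * Real.cos θ : ℝ) : ℂ) + ((r * Real.sin θ : ℝ) : ℂ) * Complex.I) • v := by
        rw [hu]
        have h1 : (r • (Complex.exp (θ * Complex.I) • v) : H) = ((r : ℂ) * Complex.exp (θ * Complex.I)) • v := by
          rw [mul_smul]
          rfl
        simp only [h1]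
        congr 1
        rw [Complex.exp_mul_I]
        push_cast
        ring
      have e6 : z + r • u θ = z + (((r * Real.cos θ : ℝ) : ℂ) + ((r * Real.sin θ : ℝ) : ℂ) * Complex.I) • v := by
        rw [e5]
      have e7 : ‖((r * Real.cos θ : ℝ) : ℂ) + ((r * Real.sin θ : ℝ) : ℂ) * Complex.I‖ ≤ 1 := by
        rw [← sq_le_one_iff₀ (norm_nonneg _), Complex.sq_norm, Complex.normSq_add_mul_I]
        have h1 : (r * Real.cos θ) ^ 2 + (r * Real.sin θ) ^ 2 = r ^ 2 * (Real.cos θ ^ 2 + Real.sin θ ^ 2) := by ring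
        rw [h1, Real.cos_sq_add_sin_sq, mul_one]
        nlinarith
      have e8 := h _ e7
      have e9 : O11 (ddc f (z + r • u θ)) := O11_ddc (hf.contDiffAt.of_le (by norm_cast))
      have e10 := H1_self e9 v (r * Real.cos θ) (r * Real.sin θ)
      rw [← e5, e6] at e10
      rw [e6, e10]
      have h2 : 0 ≤ (r * Real.cos θ) ^ 2 + (r * Real.sin θ) ^ 2 := by positivity
      have h3 := mul_nonneg h2 e8
      linarith
    have cP'r : Continuous fun θ => P' r θ := cP'.comp (Continuous.prodMk_right r)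
    have h1 : 0 ≤ ∫ θ in (0 : ℝ)..(2 * Real.pi), (r * P' r θ + G' θ) :=
      intervalIntegral.integral_nonneg (by positivity) fun θ _ => hpt θ
    rw [intervalIntegral.integral_add ((cP'r.const_mul r).intervalIntegrable _ _) (cG'.intervalIntegrable _ _),
      hG0, add_zero, intervalIntegral.integral_const_mul] at h1
    exact h1
  have hA0 : A 0 = 0 := by
    rw [hA, hP]
    simp
  have mA : MonotoneOn A (Set.Icc 0 1) := by
    refine monotoneOn_of_deriv_nonneg (convex_Icc 0 1) (fun r _ => (dA r).continuousAt.continuousWithinAt)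
      (fun r _ => (dA r).differentiableAt.differentiableWithinAt) fun r hr => ?_
    rw [interior_Icc] at hr
    rw [(dA r).deriv]
    have h1 := keyA r hr.1.le hr.2.le
    exact (mul_nonneg_iff_of_pos_left hr.1).1 h1
  have mI : MonotoneOn I (Set.Icc 0 1) := by
    refine monotoneOn_of_deriv_nonneg (convex_Icc 0 1) (fun r _ => (dI r).continuousAt.continuousWithinAt)
      (fun r _ => (dI r).differentiableAt.differentiableWithinAt) fun r hr => ?_
    rw [interior_Icc] at hr
    rw [(dI r).deriv]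
    have h1 := mA ⟨le_rfl, zero_le_one⟩ ⟨hr.1.le, hr.2.le⟩ hr.1.le
    rw [hA0, hA, hP] at h1
    beta_reduce at h1
    have h2 : (∫ θ in (0 : ℝ)..(2 * Real.pi), fderiv ℝ f (z + r • u θ) (r • u θ)) =
        r * ∫ θ in (0 : ℝ)..(2 * Real.pi), F' r θ := by
      rw [← intervalIntegral.integral_const_mul, hF']
      refine intervalIntegral.integral_congr fun θ _ => ?_
      simp only [map_smul, smul_eq_mul]
    rw [h2] at h1
    exact (mul_nonneg_iff_of_pos_left hr.1).1 h1
  have h3 := mI ⟨le_rfl, zero_le_one⟩ ⟨zero_le_one, le_rfl⟩ zero_le_one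
  have h4 : I 0 = 2 * Real.pi * f z := by
    rw [hI, hF]
    simp
  have h5 : I 1 = ∫ θ in (0 : ℝ)..(2 * Real.pi), f (z + Complex.exp (θ * Complex.I) • v) := by
    rw [hI, hF, hu]
    simp only [one_smul]
  rw [h4, h5] at h3
  have hpi : 0 < 2 * Real.pi := by positivity
  rw [inv_mul_eq_div, le_div_iff₀ hpi]
  linarith

/-- invariance of the measure -/
theorem int_rot (f : H → ℝ) (ζ : ℂ) (hζ : ‖ζ‖ = 1) : ∫ v, f (ζ • v) ∂μ = ∫ v, f v ∂μ := by
  have hζ0 : ζ ≠ 0 := by
    rintro rfl
    rw [norm_zero] at hζ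
    exact zero_ne_one hζ
  obtain ⟨L, hL⟩ : ∃ L : H →ₗ[ℝ] H, ∀ v, L v = ζ • v :=
    ⟨(LinearMap.lsmul ℂ H ζ).restrictScalars ℝ, fun v => rfl⟩
  have hdet : LinearMap.det L ≠ 0 := by
    have hinj : Function.Injective L := by
      intro a b hab
      rw [hL, hL] at hab
      exact smul_right_injective H hζ0 hab
    have h1 : L.ker = ⊥ := LinearMap.ker_eq_bot.2 hinj
    intro h2
    have h3 := LinearMap.bot_lt_ker_of_det_eq_zero h2
    rw [h1] at h3
    exact lt_irrefl _ h3
  have hmap := Measure.map_linearMap_addHaar_eq_smul_addHaar μ hdet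
  have hLf : (⇑L : H → H) = fun v => ζ • v := funext hL
  have hemb : MeasurableEmbedding fun v : H => ζ • v := (Homeomorph.smulOfNeZero ζ hζ0).measurableEmbedding
  obtain ⟨e, -⟩ : ∃ e : Module.Basis (Fin (Module.finrank ℂ H)) ℂ H, e = e := ⟨Module.finBasis ℂ H, rfl⟩
  have hpre : (⇑L) ⁻¹' (qb e 1 : Set H) = qb e 1 := by
    ext v
    rw [Set.mem_preimage, hL]
    unfold qb
    rw [Set.mem_ofPred_eq, Set.mem_ofPred_eq, qf_smul, hζ, one_pow, one_mul]
  have hmeas : MeasurableSet (qb e 1 : Set H) := (isOpen_qb e 1).measurableSet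
  have hpos : 0 < μ (qb e 1) := by
    refine (isOpen_qb e 1).measure_pos μ ⟨0, ?_⟩
    unfold qb
    rw [Set.mem_ofPred_eq, qf_zero]
    norm_num
  have hfin : μ (qb e 1) < ⊤ := by
    refine lt_of_le_of_lt (measure_mono ?_) (isCompact_qb e 1).measure_lt_top
    intro v hv
    exact le_of_lt (show qf e v < 1 ^ 2 from hv)
  have h1 : (Measure.map L μ) (qb e 1) = μ (qb e 1) := by
    rw [Measure.map_apply (by rw [hLf]; exact hemb.measurable) hmeas, hpre]
  rw [hmap, Measure.smul_apply, smul_eq_mul] at h1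
  have h2 : ENNReal.ofReal |(LinearMap.det L)⁻¹| = 1 := by
    have h3 : ENNReal.ofReal |(LinearMap.det L)⁻¹| * μ (qb e 1) = 1 * μ (qb e 1) := by rw [h1, one_mul]
    exact (ENNReal.mul_left_inj hpos.ne' hfin.ne).1 h3
  rw [h2, one_smul, hLf] at hmap
  rw [← hemb.integral_map, hmap]

theorem ball_mean {f : H → ℝ} (hf : ContDiff ℝ ∞ f) (z : H) {r : ℝ} (hr : 0 < r)
    (h : ∀ v ∈ qb e r, Nn (ddc f (z + v))) : f z * (μ (qb e r)).toReal ≤ ∫ v in qb e r, f (z + v) ∂μ := by
  have hK : IsCompact {v : H | qf e v ≤ r ^ 2} := isCompact_qb e r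
  have hsub : (qb e r : Set H) ⊆ {v : H | qf e v ≤ r ^ 2} := fun v hv =>
    le_of_lt (show qf e v < r ^ 2 from hv)
  have hmeas : MeasurableSet (qb e r : Set H) := (isOpen_qb e r).measurableSet
  have hfin : μ (qb e r) ≠ ⊤ := (lt_of_le_of_lt (measure_mono hsub) hK.measure_lt_top).ne
  have hpi : 0 < 2 * Real.pi := by positivity
  obtain ⟨Φ, hΦ⟩ : ∃ Φ : H → ℝ → ℝ, Φ = fun (v : H) (θ : ℝ) => f (z + Complex.exp (θ * Complex.I) • v) := ⟨_, rfl⟩
  have cΦ : Continuous (Function.uncurry Φ) := by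
    rw [hΦ]
    refine hf.continuous.comp (continuous_const.add ?_)
    exact (Complex.continuous_exp.comp ((Complex.continuous_ofReal.comp continuous_snd).mul continuous_const)).smul
      continuous_fst
  have hint : Integrable (Function.uncurry Φ) ((μ.restrict (qb e r)).prod
      (volume.restrict (Set.Ioc 0 (2 * Real.pi)))) := by
    rw [Measure.prod_restrict]
    have h1 : IntegrableOn (Function.uncurry Φ) ({v : H | qf e v ≤ r ^ 2} ×ˢ Set.Icc 0 (2 * Real.pi))
        (μ.prod volume) := cΦ.continuousOn.integrableOn_compact (hK.prod isCompact_Icc)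
    exact h1.mono_set (Set.prod_mono hsub Set.Ioc_subset_Icc_self)
  have h1 : ∀ v ∈ qb e r, f z ≤ (2 * Real.pi)⁻¹ * ∫ θ in (0 : ℝ)..(2 * Real.pi), Φ v θ := by
    intro v hv
    rw [hΦ]
    refine circ hf z v fun ζ hζ => h _ ?_ v
    unfold qb at hv ⊢
    rw [Set.mem_ofPred_eq] at hv ⊢
    rw [qf_smul]
    have h2 : ‖ζ‖ ^ 2 ≤ 1 := by
      rw [sq_le_one_iff₀ (norm_nonneg _)]
      exact hζ
    have h3 := qf_nonneg e v
    nlinarith
  have h2 : ∀ v, (∫ θ in (0 : ℝ)..(2 * Real.pi), Φ v θ) = ∫ θ in Set.Ioc 0 (2 * Real.pi), Φ v θ := fun v =>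
    intervalIntegral.integral_of_le hpi.le
  have hrot : ∀ θ : ℝ, (∫ v in qb e r, Φ v θ ∂μ) = ∫ v in qb e r, f (z + v) ∂μ := by
    intro θ
    have hn : ‖Complex.exp (θ * Complex.I)‖ = 1 := Complex.norm_exp_ofReal_mul_I θ
    rw [← integral_indicator hmeas, ← integral_indicator hmeas,
      ← int_rot μ ((qb e r : Set H).indicator fun v => f (z + v)) _ hn]
    refine integral_congr_ae (Filter.Eventually.of_forall fun v => ?_)
    have hm : Complex.exp (θ * Complex.I) • v ∈ (qb e r : Set H) ↔ v ∈ (qb e r : Set H) := by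
      unfold qb
      rw [Set.mem_ofPred_eq, Set.mem_ofPred_eq, qf_smul, hn, one_pow, one_mul]
    by_cases hv : v ∈ (qb e r : Set H)
    · simp only [Set.indicator_of_mem hv, Set.indicator_of_mem (hm.2 hv), hΦ]
    · simp only [Set.indicator_of_notMem hv, Set.indicator_of_notMem (fun h' => hv (hm.1 h'))]
  have hswap := integral_integral_swap hint
  have h4 : (∫ v in qb e r, (∫ θ in Set.Ioc 0 (2 * Real.pi), Φ v θ) ∂μ) =
      2 * Real.pi * ∫ v in qb e r, f (z + v) ∂μ := by
    rw [hswap]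
    simp only [hrot]
    rw [setIntegral_const, smul_eq_mul]
    simp [Real.volume_real_Ioc_of_le hpi.le]
  have h5 : f z * (μ (qb e r)).toReal = ∫ _v in qb e r, f z ∂μ := by
    rw [setIntegral_const, smul_eq_mul, mul_comm]
    rfl
  have hint2 : Integrable (fun v => ∫ θ in Set.Ioc 0 (2 * Real.pi), Φ v θ) (μ.restrict (qb e r)) :=
    hint.integral_prod_left
  rw [h5]
  calc (∫ _v in qb e r, f z ∂μ) ≤ ∫ v in qb e r, ((2 * Real.pi)⁻¹ * ∫ θ in Set.Ioc 0 (2 * Real.pi), Φ v θ) ∂μ := by
        refine setIntegral_mono_on ?_ (hint2.const_mul _) hmeas fun v hv => ?_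
        · exact integrableOn_const hfin
        · rw [← h2]
          exact h1 v hv
    _ = (2 * Real.pi)⁻¹ * ∫ v in qb e r, (∫ θ in Set.Ioc 0 (2 * Real.pi), Φ v θ) ∂μ := integral_const_mul _ _
    _ = ∫ v in qb e r, f (z + v) ∂μ := by
        rw [h4, ← mul_assoc, inv_mul_cancel₀ hpi.ne', one_mul]

end HDG
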