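import Pool.Agent.HDG.H1

/-!
# HDG/H2: Harnack type inequality in a ball

`g = f + (A/2) qf e` has `ddc g ≥ 0` on `qb e 3`; the sub-mean value inequality `ball_mean` for `g` at `z0` with radius `2`
bounds the integral of `f (z0 + v)` over `qb e 2` from below, and `qb e 1 ⊆ z0 + qb e 2 ⊆ qb e 3`.
-/

set_option autoImplicit false

noncomputable section

open scoped ContDiff Topology

open MeasureTheory

namespace HDG

open Pool.Agent.FBR

variable {H : Type*} [NormedAddCommGroup H] [NormedSpace ℂ H] {n : ℕ} (e : Module.Basis (Fin n) ℂ H)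
  [FiniteDimensional ℂ H] [MeasurableSpace H] [BorelSpace H] (μ : Measure H) [μ.IsAddHaarMeasure]

omit [FiniteDimensional ℂ H] [MeasurableSpace H] [BorelSpace H] in
private lemma H2_add {u v : H} {r s : ℝ} (hr : 0 < r) (hs : 0 < s) (hu : u ∈ qb e r) (hv : v ∈ qb e s) :
    u + v ∈ qb e (r + s) := by
  have h1 : qf e u < r ^ 2 := hu
  have h2 : qf e v < s ^ 2 := hv
  set S : ℝ := ∑ j, ‖e.repr u j‖ * ‖e.repr v j‖ with hS
  have h3 : S ^ 2 ≤ qf e u * qf e v := Finset.sum_mul_sq_le_sq_mul_sq _ _ _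
  have h4 : S ≤ r * s := by
    by_contra hc
    push Not at hc
    have h5 : (r * s) ^ 2 < S ^ 2 := pow_lt_pow_left₀ hc (by positivity) two_ne_zero
    have h6 : qf e u * qf e v ≤ r ^ 2 * s ^ 2 :=
      mul_le_mul h1.le h2.le (qf_nonneg e v) (by positivity)
    rw [mul_pow] at h5
    linarith
  have h7 : qf e (u + v) ≤ qf e u + 2 * S + qf e v := by
    unfold qf
    rw [hS, Finset.mul_sum, ← Finset.sum_add_distrib, ← Finset.sum_add_distrib]
    refine Finset.sum_le_sum fun j _ => ?_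
    have h8 : ‖e.repr (u + v) j‖ ≤ ‖e.repr u j‖ + ‖e.repr v j‖ := by
      rw [map_add]
      exact norm_add_le _ _
    calc ‖e.repr (u + v) j‖ ^ 2 ≤ (‖e.repr u j‖ + ‖e.repr v j‖) ^ 2 := pow_le_pow_left₀ (norm_nonneg _) h8 2
      _ = _ := by ring
  show qf e (u + v) < (r + s) ^ 2
  nlinarith

omit [FiniteDimensional ℂ H] [MeasurableSpace H] [BorelSpace H] in
private lemma H2_neg {u : H} {r : ℝ} (hu : u ∈ qb e r) : -u ∈ qb e r := by
  have h1 : qf e (-u) = qf e u := by
    have h2 := qf_smul e (-1) u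
    rw [neg_one_smul, norm_neg, norm_one] at h2
    rw [h2]
    ring
  show qf e (-u) < r ^ 2
  rw [h1]
  exact hu

theorem loc_harnack : ∃ C : ℝ, 0 ≤ C ∧ ∀ (f : H → ℝ) (A M : ℝ) (z0 : H), ContDiff ℝ ∞ f → 0 ≤ A → 0 ≤ M →
    (∀ z ∈ qb e 3, Nn (ddc f z + A • w0 e)) → (∀ z ∈ qb e 3, f z ≤ 0) → z0 ∈ qb e 1 → -M ≤ f z0 →
    ∫ z in qb e 1, |f z| ∂μ ≤ C * (A + M) := by
  have hms : ∀ r : ℝ, MeasurableSet (qb e r : Set H) := fun r => (isOpen_qb e r).measurableSet
  have hsub : ∀ r : ℝ, (qb e r : Set H) ⊆ {z : H | qf e z ≤ r ^ 2} := fun r z hz => (show qf e z < r ^ 2 from hz).le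
  have hfin : ∀ r : ℝ, μ (qb e r) ≠ ⊤ := fun r =>
    ne_top_of_le_ne_top (isCompact_qb e r).measure_lt_top.ne (measure_mono (hsub r))
  have hint : ∀ (r : ℝ) (F : H → ℝ), Continuous F → IntegrableOn F (qb e r) μ := fun r F hF =>
    (hF.continuousOn.integrableOn_compact (isCompact_qb e r)).mono_set (hsub r)
  set m : ℝ := (μ (qb e 2)).toReal with hm
  have hm0 : 0 ≤ m := ENNReal.toReal_nonneg
  refine ⟨9 / 2 * m, by positivity, fun f A M z0 hf hA hM hN hneg hz0 hfz => ?_⟩
  have hfc : Continuous f := hf.continuous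
  have hadd : Continuous fun v : H => z0 + v := continuous_const.add continuous_id
  have h3 : ∀ v ∈ qb e 2, z0 + v ∈ qb e 3 := by
    intro v hv
    have h := H2_add e one_pos two_pos hz0 hv
    norm_num at h
    exact h
  -- the correction
  set g : H → ℝ := fun z => f z + (A / 2) * qf e z with hg
  have hgs : ContDiff ℝ ∞ g := hf.add (contDiff_const.mul (qf_smooth e))
  have hgn : ∀ v ∈ qb e 2, Nn (ddc g (z0 + v)) := by
    intro v hv
    have h1 : ContDiffAt ℝ 2 f (z0 + v) := hf.contDiffAt.of_le (by norm_cast)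
    have h2 : ContDiffAt ℝ 2 (qf e) (z0 + v) := (qf_smooth e).contDiffAt.of_le (by norm_cast)
    have h4 : ddc g (z0 + v) = ddc f (z0 + v) + A • w0 e := by
      have h5 : ddc g (z0 + v) = ddc f (z0 + v) + ddc (fun z => (A / 2) * qf e z) (z0 + v) :=
        ddc_add h1 (contDiffAt_const.mul h2)
      have h6 : ddc (fun z => (A / 2) * qf e z) (z0 + v) = (A / 2) • ddc (qf e) (z0 + v) := ddc_smul (A / 2) h2
      rw [h5, h6, ddc_qf, smul_smul]
      congr 2
      ring
    rw [h4]
    exact hN _ (h3 v hv)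
  have hbm := ball_mean e μ hgs z0 (r := 2) two_pos hgn
  have hgz : -M ≤ g z0 := by
    have h1 : 0 ≤ (A / 2) * qf e z0 := mul_nonneg (by linarith) (qf_nonneg e z0)
    show -M ≤ f z0 + (A / 2) * qf e z0
    linarith
  have hup : ∫ v in qb e 2, g (z0 + v) ∂μ ≤ (∫ v in qb e 2, f (z0 + v) ∂μ) + 9 / 2 * A * m := by
    have h1 : ∫ v in qb e 2, (f (z0 + v) + 9 / 2 * A) ∂μ =
        (∫ v in qb e 2, f (z0 + v) ∂μ) + 9 / 2 * A * m := by
      have k1 : Integrable (fun v => f (z0 + v)) (μ.restrict (qb e 2)) := hint 2 _ (hfc.comp hadd)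
      have k2 : Integrable (fun _ : H => 9 / 2 * A) (μ.restrict (qb e 2)) := hint 2 _ continuous_const
      rw [integral_add k1 k2, setIntegral_const, smul_eq_mul, measureReal_def]
      ring
    rw [← h1]
    refine setIntegral_mono_on (hint 2 _ (hgs.continuous.comp hadd))
      (hint 2 _ ((hfc.comp hadd).add continuous_const)) (hms 2) fun v hv => ?_
    have h4 : qf e (z0 + v) < 3 ^ 2 := h3 v hv
    show f (z0 + v) + (A / 2) * qf e (z0 + v) ≤ f (z0 + v) + 9 / 2 * A
    nlinarith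
  have hlow : -(M * m) ≤ (∫ v in qb e 2, f (z0 + v) ∂μ) + 9 / 2 * A * m := by
    have h1 : -M * m ≤ g z0 * m := mul_le_mul_of_nonneg_right hgz hm0
    linarith [hbm.trans hup]
  -- comparison of the integrals
  have hcmp : ∫ z in qb e 1, |f z| ∂μ ≤ -∫ v in qb e 2, f (z0 + v) ∂μ := by
    have h1 : ∫ z in qb e 1, |f z| ∂μ = ∫ v, (qb e 1).indicator (fun z => |f z|) (z0 + v) ∂μ := by
      rw [integral_add_left_eq_self (μ := μ) ((qb e 1).indicator fun z => |f z|) z0, integral_indicator (hms 1)]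
    have h2 : -∫ v in qb e 2, f (z0 + v) ∂μ = ∫ v, (qb e 2).indicator (fun v => |f (z0 + v)|) v ∂μ := by
      rw [integral_indicator (hms 2), ← integral_neg]
      refine setIntegral_congr_fun (hms 2) fun v hv => ?_
      exact (abs_of_nonpos (hneg _ (h3 v hv))).symm
    rw [h1, h2]
    refine integral_mono_of_nonneg (Filter.Eventually.of_forall fun v => ?_)
      ((integrable_indicator_iff (hms 2)).2 (hint 2 _ (hfc.comp hadd).abs)) (Filter.Eventually.of_forall fun v => ?_)
    · exact Set.indicator_nonneg (fun z _ => abs_nonneg _) _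
    · by_cases hv : z0 + v ∈ qb e 1
      · have h4 : v ∈ qb e 2 := by
          have h5 := H2_add e one_pos one_pos hv (H2_neg e hz0)
          have h6 : z0 + v + -z0 = v := by abel
          rw [h6] at h5
          norm_num at h5
          exact h5
        show (qb e 1).indicator (fun z => |f z|) (z0 + v) ≤ (qb e 2).indicator (fun v => |f (z0 + v)|) v
        rw [Set.indicator_of_mem hv, Set.indicator_of_mem h4]
      · show (qb e 1).indicator (fun z => |f z|) (z0 + v) ≤ (qb e 2).indicator (fun v => |f (z0 + v)|) v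
        rw [Set.indicator_of_notMem hv]
        exact Set.indicator_nonneg (fun z _ => abs_nonneg _) _
  have hMm : 0 ≤ M * m := mul_nonneg hM hm0
  nlinarith

end HDG
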