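import Pool.Agent.HDG.H2
import Pool.Agent.HDG.G3
import Pool.Agent.HDG.G6

/-!
# HDG/H3: Harnack type inequality in a parametrized ball

The local inequality `loc_harnack` is applied to the function `f ∘ ψ i` (modified near the boundary of the ball); the integral over the
image of `qb e 1` is computed with `box_int`.
-/

set_option autoImplicit false

noncomputable section

open scoped ContDiff Topology

open MeasureTheory

namespace HDG

open Pool.Agent.FBR

variable {H : Type*} [NormedAddCommGroup H] [NormedSpace ℂ H] {n : ℕ} {e : Module.Basis (Fin n) ℂ H}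
  [FiniteDimensional ℂ H] [MeasurableSpace H] [BorelSpace H] {μ : Measure H} [μ.IsAddHaarMeasure]
  {X : Type*} [TopologicalSpace X] [CompactSpace X] [T2Space X] [MeasurableSpace X] [BorelSpace X]
  (B : BM e X) {w b : B.I → H → Bil H} {ν : Measure X}

namespace BM

theorem box_harnack (hw : B.Met w) (hν : B.IsVol μ w ν) : ∃ C : ℝ, 0 ≤ C ∧ ∀ (f : X → ℝ) (M : ℝ) (i : B.I) (z0 : H),
    B.Sm f → B.NnT (B.dd f + w) → (∀ x, f x ≤ 0) → 0 ≤ M → z0 ∈ qb e 1 → -M ≤ f (B.ψ i z0) →
    ∫ x in B.ψ i '' qb e 1, |f x| ∂ν ≤ C * (1 + M) := by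
  classical
  obtain ⟨C0, hC0, hH⟩ := loc_harnack e μ
  obtain ⟨C1, hC1, hM1⟩ := B.Met_le hw (r := 3) (by norm_num) (by norm_num)
  obtain ⟨R, hR, hR'⟩ := B.IsT_bd hw.t (r := 1) zero_le_one (by norm_num)
  obtain ⟨C2, hC2, hC2'⟩ := bd_dt e R
  refine ⟨C2 * (C0 * (C1 + 1)), by positivity, ?_⟩
  intro f M i z0 hf hN hf0 hM hz0 hfz
  obtain ⟨φ, hφ, hφf, hφd⟩ := B.loc_fun hf i
  have h34 : (qb e 3 : Set H) ⊆ qb e 4 := qb_mono (by norm_num) (by norm_num)
  have h14 : (qb e 1 : Set H) ⊆ qb e 4 := qb_mono (by norm_num) (by norm_num)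
  have h13 : (qb e 1 : Set H) ⊆ qb e 3 := qb_mono (by norm_num) (by norm_num)
  have h37 : (qb e 3 : Set H) ⊆ qb e (7 / 2) := qb_mono (by norm_num) (by norm_num)
  have hφ3 : ∀ z ∈ qb e 3, φ z = f (B.ψ i z) := fun z hz => hφf z (show qf e z < (7 / 2) ^ 2 from h37 hz).le
  have h1 : ∫ z in qb e 1, |φ z| ∂μ ≤ C0 * (C1 + M) := by
    refine hH φ C1 M z0 hφ hC1.le hM ?_ ?_ hz0 ?_
    · intro z hz v
      have h2 : 0 ≤ B.dd f i z v (Complex.I • v) + w i z v (Complex.I • v) := hN i z (h34 hz) v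
      have h3 : 0 ≤ C1 * w0 e v (Complex.I • v) - w i z v (Complex.I • v) :=
        hM1 i z (show qf e z < 3 ^ 2 from hz).le v
      show 0 ≤ ddc φ z v (Complex.I • v) + C1 * w0 e v (Complex.I • v)
      rw [hφd z (h37 hz)]
      linarith
    · intro z hz
      rw [hφ3 z hz]
      exact hf0 _
    · rw [hφ3 z0 (h13 hz0)]
      exact hfz
  have hV : MeasurableSet (B.ψ i '' qb e 1) := (B.opn i _ h14 (isOpen_qb e 1)).measurableSet
  have hq1 : MeasurableSet (qb e 1 : Set H) := (isOpen_qb e 1).measurableSet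
  have hI1 : IntegrableOn (fun z => |φ z|) (qb e 1) μ := by
    have hc : ContinuousOn (fun z => |φ z|) {z : H | qf e z ≤ 1 ^ 2} := hφ.continuous.abs.continuousOn
    refine (hc.integrableOn_compact (isCompact_qb e 1)).mono_set fun z hz => ?_
    exact (show qf e z < 1 ^ 2 from hz).le
  rw [← integral_indicator hV, B.box_int hw hν i (((B.Sm_cont hf).abs.measurable).indicator hV) ?_]
  · have h2 : ∫ z in qb e 4, (B.ψ i '' qb e 1).indicator (fun x => |f x|) (B.ψ i z) * dt e (w i z) ∂μ =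
        ∫ z in qb e 4, (qb e 1 : Set H).indicator (fun z => |φ z| * dt e (w i z)) z ∂μ := by
      refine setIntegral_congr_fun (isOpen_qb e 4).measurableSet fun z hz => ?_
      show (B.ψ i '' qb e 1).indicator (fun x => |f x|) (B.ψ i z) * dt e (w i z) =
        (qb e 1 : Set H).indicator (fun z => |φ z| * dt e (w i z)) z
      by_cases hz1 : z ∈ (qb e 1 : Set H)
      · have h3 : B.ψ i z ∈ B.ψ i '' qb e 1 := ⟨z, hz1, rfl⟩
        rw [Set.indicator_of_mem h3, Set.indicator_of_mem hz1, hφ3 z (h13 hz1)]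
      · have h3 : B.ψ i z ∉ B.ψ i '' qb e 1 := by
          rintro ⟨z', hz', he⟩
          rw [B.inj i (h14 hz') hz he] at hz'
          exact hz1 hz'
        rw [Set.indicator_of_notMem h3, Set.indicator_of_notMem hz1, zero_mul]
    rw [h2, setIntegral_indicator hq1, Set.inter_eq_self_of_subset_right h14]
    calc ∫ z in qb e 1, |φ z| * dt e (w i z) ∂μ ≤ ∫ z in qb e 1, C2 * |φ z| ∂μ := by
          refine integral_mono_of_nonneg ?_ (hI1.const_mul C2) ?_
          · refine ae_restrict_of_forall_mem hq1 fun z hz => ?_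
            exact mul_nonneg (abs_nonneg _) (B.dt_w_pos hw (h14 hz)).le
          · refine ae_restrict_of_forall_mem hq1 fun z hz => ?_
            show |φ z| * dt e (w i z) ≤ C2 * |φ z|
            rw [mul_comm]
            refine mul_le_mul_of_nonneg_right ?_ (abs_nonneg _)
            exact (le_abs_self _).trans (hC2' _ (hR' i z (show qf e z < 1 ^ 2 from hz).le))
      _ = C2 * ∫ z in qb e 1, |φ z| ∂μ := integral_const_mul _ _
      _ ≤ C2 * (C0 * (C1 + M)) := mul_le_mul_of_nonneg_left h1 hC2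
      _ ≤ C2 * (C0 * (C1 + 1)) * (1 + M) := by
          have h3 : C1 + M ≤ (C1 + 1) * (1 + M) := by nlinarith
          have h4 : C0 * (C1 + M) ≤ C0 * ((C1 + 1) * (1 + M)) := mul_le_mul_of_nonneg_left h3 hC0
          have h5 := mul_le_mul_of_nonneg_left h4 hC2
          nlinarith
  · intro x hx
    refine Set.indicator_of_notMem ?_ _
    rintro ⟨z, hz, he⟩
    exact hx z (h14 hz) he

end BM

end HDG
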