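import Pool.Agent.HDG.D0

/-!
# HDG/K5: from P(s), s large, to functions u <= y

The functions `F` of `P(s)` divided by `s`: `dd^c (F / s) ≥ - (b + w) / s ≥ - ε w` for large `s`, and `F / s ≤ y`.
-/

set_option autoImplicit false

noncomputable section

open scoped ContDiff Topology

open MeasureTheory

namespace HDG

open Pool.Agent.FBR

variable {H : Type*} [NormedAddCommGroup H] [NormedSpace ℂ H] {n : ℕ} {e : Module.Basis (Fin n) ℂ H}
  [FiniteDimensional ℂ H] {X : Type*} [TopologicalSpace X] [CompactSpace X] (B : BM e X) {t : B.I → H → ℝ}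
  {w b : B.I → H → Bil H}

namespace BM

omit [FiniteDimensional ℂ H] [CompactSpace X] in
private theorem K5_pos (hw : B.Met w) (i : B.I) {z : H} (hz : z ∈ qb e 4) (v : H) :
    0 ≤ w i z v (Complex.I • v) := by
  by_cases hv : v = 0
  · rw [hv]
    simp
  · exact (hw.pos i z hz v hv).le

theorem exists_u (hw : B.Met w) (hb : B.IsT b) (h : ∀ S : ℝ, ∃ s : ℝ, S ≤ s ∧ B.PP t w b s) {R ε : ℝ} (hR : 0 < R)
    (hε : 0 < ε) : ∃ u : X → ℝ → ℝ, B.Gd t w 0 (Set.Ioo (-R) R) ε u ∧ (∀ x y, B.On t x y → |y| < R → u x y ≤ y) ∧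
      ∃ x y, B.On t x y ∧ |y| ≤ 1 ∧ -4 ≤ u x y := by
  obtain ⟨C, hC0, hC⟩ := B.NnT_dom (B.IsT_smul hb (-1)) hw
  obtain ⟨s, hs, hP⟩ := h (max 1 ((C + 1) / ε))
  have hs1 : 1 ≤ s := (le_max_left _ _).trans hs
  have hs0 : 0 < s := lt_of_lt_of_le one_pos hs1
  have hs2 : (C + 1) / ε ≤ s := (le_max_right _ _).trans hs
  have hs3 : (C + 1) / s ≤ ε := by
    rw [div_le_iff₀ hε] at hs2
    rw [div_le_iff₀ hs0]
    linarith
  obtain ⟨F, hF, hle, x₀, y₀, hon, hy₀, hF₀⟩ := hP R 1 hR one_pos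
  have hlf : ∀ (i : B.I) (k : ℤ), B.lf t (fun x y => s⁻¹ * F x y) i k =
      fun z => s⁻¹ * B.lf t F i k z := fun i k => rfl
  refine ⟨fun x y => s⁻¹ * F x y, ⟨?_, ?_⟩, ?_, x₀, y₀, hon, hy₀, ?_⟩
  · intro i k z hz hk
    rw [hlf]
    exact contDiffAt_const.mul (hF.sm i k z hz hk)
  · intro i k z hz hk v
    have h2 : ContDiffAt ℝ 2 (B.lf t F i k) z := (hF.sm i k z hz hk).of_le (by norm_cast)
    rw [hlf, ddc_smul s⁻¹ h2]
    have h3 := hF.nn i k z hz hk v
    have h4 := hC i z hz v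
    have h5 := B.K5_pos hw i hz v
    simp only [Pi.add_apply, Pi.smul_apply, Pi.zero_apply, add_apply, smul_apply,
      zero_apply, smul_eq_mul] at h3 h4 ⊢
    have h6 : -(C + 1) * w i z v (Complex.I • v) ≤ ddc (B.lf t F i k) z v (Complex.I • v) := by
      linarith
    have h7 : s⁻¹ * (-(C + 1) * w i z v (Complex.I • v)) ≤
        s⁻¹ * ddc (B.lf t F i k) z v (Complex.I • v) :=
      mul_le_mul_of_nonneg_left h6 (inv_nonneg.2 hs0.le)
    have h8 : (C + 1) / s * w i z v (Complex.I • v) ≤ ε * w i z v (Complex.I • v) :=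
      mul_le_mul_of_nonneg_right hs3 h5
    have h9 : s⁻¹ * (-(C + 1) * w i z v (Complex.I • v)) =
        -((C + 1) / s * w i z v (Complex.I • v)) := by
      rw [div_eq_inv_mul]
      ring
    rw [h9] at h7
    linarith
  · intro x y hxy hy
    have h1 := hle x y hxy hy
    show s⁻¹ * F x y ≤ y
    rw [inv_mul_le_iff₀ hs0]
    exact h1
  · show -4 ≤ s⁻¹ * F x₀ y₀
    rw [abs_of_pos hs0] at hF₀
    rw [le_inv_mul_iff₀ hs0]
    linarith

end BM

end HDG
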