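import Pool.Agent.HDG.K5
import Pool.Agent.HDG.K1
import Pool.Agent.HDG.D0
import Pool.Agent.HDG.RMd

/-!
# HDG/K6: the function of the gauge lemma

`f x = rml δ (-N) (v x (fr x + k), |k| ≤ K) - 1` with `v x y = u x y - y - c y²` for `|y| < R` and `v x y = -N-2` for `|y| ≥ R`, the function `u`
of `exists_u`. Entries with `|y| ≥ R/2` are at most `-N-2` and do not matter, so in a ball `f` is the regularised maximum over a
fixed finite list of sheets.
-/

set_option autoImplicit false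

noncomputable section

open scoped ContDiff Topology

open MeasureTheory

namespace HDG

open Pool.Agent.FBR

variable {H : Type*} [NormedAddCommGroup H] [NormedSpace ℂ H] {n : ℕ} {e : Module.Basis (Fin n) ℂ H}
  [FiniteDimensional ℂ H] {X : Type*} [TopologicalSpace X] [CompactSpace X] (B : BM e X) {t : B.I → H → ℝ}
  {w b : B.I → H → Bil H}


/-- the list of the integers `a, a + 1, ..., a + n - 1` -/
private def K6_I (a : ℤ) (n : ℕ) : List ℤ := (List.range n).map fun j : ℕ => a + (j : ℤ)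

private theorem K6_mem (a : ℤ) (n : ℕ) (k : ℤ) : k ∈ K6_I a n ↔ a ≤ k ∧ k < a + n := by
  unfold K6_I
  rw [List.mem_map]
  constructor
  · rintro ⟨j, hj, rfl⟩
    rw [List.mem_range] at hj
    omega
  · rintro ⟨h1, h2⟩
    refine ⟨(k - a).toNat, ?_, ?_⟩
    · rw [List.mem_range]
      omega
    · omega

private theorem K6_len (a : ℤ) (n : ℕ) : (K6_I a n).length = n := by
  unfold K6_I
  rw [List.length_map, List.length_range]

private theorem K6_shift (a l : ℤ) (n : ℕ) : K6_I (l + a) n = (K6_I a n).map fun k => l + k := by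
  unfold K6_I
  rw [List.map_map]
  refine List.map_congr_left fun j _ => ?_
  simp only [Function.comp_apply]
  ring

private theorem K6_sorted (a : ℤ) (n : ℕ) : (K6_I a n).Pairwise (· < ·) := by
  unfold K6_I
  rw [List.pairwise_map]
  refine List.Pairwise.imp ?_ (List.pairwise_lt_range (n := n))
  intro x y hxy
  omega

private theorem K6_filter (a a' : ℤ) (n n' : ℕ) (q : ℤ → Bool)
    (h : ∀ k, q k = true → a ≤ k ∧ k < a + n ∧ a' ≤ k ∧ k < a' + n') :
    (K6_I a n).filter q = (K6_I a' n').filter q := by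
  have h1 : ((K6_I a n).filter q).Pairwise (· < ·) := (K6_sorted a n).filter q
  have h2 : ((K6_I a' n').filter q).Pairwise (· < ·) := (K6_sorted a' n').filter q
  have hp : ((K6_I a n).filter q).Perm ((K6_I a' n').filter q) := by
    refine (List.perm_ext_iff_of_nodup (h1.imp fun h => ne_of_lt h) (h2.imp fun h => ne_of_lt h)).2 ?_
    intro k
    rw [List.mem_filter, List.mem_filter, K6_mem, K6_mem]
    constructor
    · rintro ⟨_, h4⟩
      obtain ⟨_, _, h5, h6⟩ := h k h4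
      exact ⟨⟨h5, h6⟩, h4⟩
    · rintro ⟨_, h4⟩
      obtain ⟨h5, h6, _, _⟩ := h k h4
      exact ⟨⟨h5, h6⟩, h4⟩
  exact hp.eq_of_pairwise (fun a b _ _ h3 h4 => absurd (h3.trans h4) (lt_irrefl _)) h1 h2

private theorem K6_drop {δ : ℝ} (hδ : 0 < δ) {ι : Type*} (a : ℝ) (l : List ι) (g : ι → ℝ) (q : ι → Bool)
    (h : ∀ b ∈ l, q b = false → g b + δ ≤ a) : rml δ a ((l.filter q).map g) = rml δ a (l.map g) := by
  induction l generalizing a with
  | nil => rfl
  | cons b l ih =>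
    have hl : ∀ c ∈ l, q c = false → g c + δ ≤ a := fun c hc => h c (List.mem_cons_of_mem _ hc)
    have h1 : rml δ a ((b :: l).map g) = rml δ (rm δ a (g b)) (l.map g) := rfl
    cases hb : q b with
    | true =>
      rw [List.filter_cons_of_pos hb]
      have h2 : rml δ a ((b :: l.filter q).map g) = rml δ (rm δ a (g b)) ((l.filter q).map g) := rfl
      rw [h1, h2]
      exact ih (rm δ a (g b)) fun c hc hc' => (hl c hc hc').trans (left_le_rm hδ a (g b))
    | false =>
      rw [List.filter_cons_of_neg (by rw [hb]; exact Bool.false_ne_true), h1,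
        rm_left hδ (h b (List.mem_cons_self) hb)]
      exact ih a hl

namespace BM

/-- the function on the covering -/
private def K6_v (N c R : ℝ) (u : X → ℝ → ℝ) (x : X) (y : ℝ) : ℝ :=
  open Classical in if |y| < R then u x y - y - c * y ^ 2 else -N - 2

/-- the width of the regularisation -/
private def K6_d (K : ℕ) : ℝ := 1 / (2 * K + 2)

/-- the function of the gauge lemma -/
private def K6_f (t : B.I → H → ℝ) (N c R : ℝ) (K : ℕ) (u : X → ℝ → ℝ) (x : X) : ℝ :=
  rml (K6_d K) (-N) ((K6_I (-(K : ℤ)) (2 * K + 1)).map fun k : ℤ => K6_v N c R u x (B.fr t x + k)) - 1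

private theorem K6_d_pos (K : ℕ) : 0 < K6_d K := by
  unfold K6_d
  positivity

private theorem K6_d_mul (K : ℕ) : ((2 * K + 1 : ℕ) + 1 : ℝ) * K6_d K = 1 := by
  unfold K6_d
  push_cast
  field_simp
  ring

private theorem K6_d_le (K : ℕ) : K6_d K ≤ 1 := by
  have h1 := K6_d_mul K
  have h2 := K6_d_pos K
  have h3 : (0 : ℝ) ≤ ((2 * K + 1 : ℕ) : ℝ) := Nat.cast_nonneg _
  nlinarith [mul_nonneg h3 h2.le]

omit [FiniteDimensional ℂ H] [CompactSpace X] in
private theorem K6_v_le {N c R : ℝ} {u : X → ℝ → ℝ} (hN : 1 ≤ N) (hR : 2 ≤ R) (hc : c * R ^ 2 = 4 * (N + 2))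
    (hu : ∀ x y, B.On t x y → |y| < R → u x y ≤ y) {x : X} {y : ℝ} (hxy : B.On t x y) :
    K6_v N c R u x y ≤ 0 ∧ (R / 2 ≤ |y| → K6_v N c R u x y ≤ -N - 2) := by
  have hR2 : 0 < R ^ 2 := by positivity
  have hc0 : 0 < c := by
    by_contra hcon
    have h1 : c * R ^ 2 ≤ 0 := mul_nonpos_of_nonpos_of_nonneg (not_lt.1 hcon) hR2.le
    linarith
  unfold K6_v
  split_ifs with h
  · have h1 := hu x y hxy h
    have h2 : 0 ≤ c * y ^ 2 := by positivity
    refine ⟨by linarith, fun h3 => ?_⟩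
    have h4 : (R / 2) ^ 2 ≤ y ^ 2 := by
      rw [← sq_abs y]
      exact pow_le_pow_left₀ (by linarith) h3 2
    have h5 : c * (R / 2) ^ 2 ≤ c * y ^ 2 := mul_le_mul_of_nonneg_left h4 hc0.le
    have h6 : c * (R / 2) ^ 2 = N + 2 := by
      have h7 : c * (R / 2) ^ 2 = c * R ^ 2 / 4 := by ring
      rw [h7, hc]
      ring
    linarith
  · exact ⟨by linarith, fun _ => le_rfl⟩

omit [CompactSpace X] in
private theorem K6_loc (ht : B.Per t) {N c R : ℝ} {K : ℕ} {u : X → ℝ → ℝ} (hN : 1 ≤ N) (hR : 2 ≤ R)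
    (hc : c * R ^ 2 = 4 * (N + 2)) (hK : R + 2 ≤ K) (hu : ∀ x y, B.On t x y → |y| < R → u x y ≤ y) (i : B.I) {z0 : H}
    (hz0 : z0 ∈ qb e 4) : ∃ G : List ℤ, (∀ k ∈ G, |t i z0 + k| < R) ∧ G.length ≤ 2 * K + 1 ∧
      ∀ᶠ z in 𝓝 z0, B.K6_f t N c R K u (B.ψ i z) = rml (K6_d K) (-N)
        (G.map fun k : ℤ => B.lf t u i k z - (t i z + k) - c * (t i z + k) ^ 2) - 1 := by
  classical
  obtain ⟨l0, hl0⟩ := (B.On_iff ht hz0 _).1 (B.On_fr (t := t) (B.ψ i z0))
  refine ⟨(K6_I (l0 + -(K : ℤ)) (2 * K + 1)).filter fun k : ℤ => decide (|t i z0 + k| < 3 * R / 4), ?_, ?_, ?_⟩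
  · intro k hk
    have h1 := (List.mem_filter.1 hk).2
    have h2 := of_decide_eq_true h1
    linarith
  · refine (List.length_filter_le _ _).trans ?_
    rw [K6_len]
  · have c1 : ContinuousAt (t i) z0 := ((ht.sm i).contDiffAt ((isOpen_qb e 4).mem_nhds hz0)).continuousAt
    have c2 : ∀ᶠ z in 𝓝 z0, |t i z - t i z0| < 1 / 2 := by
      have h1 := Metric.tendsto_nhds.1 c1 (1 / 2) (by norm_num)
      filter_upwards [h1] with z hz
      rw [Real.dist_eq] at hz
      exact hz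
    filter_upwards [c2, (isOpen_qb e 4).mem_nhds hz0] with z hz1 hz2
    obtain ⟨l, hl⟩ := (B.On_iff ht hz2 _).1 (B.On_fr (t := t) (B.ψ i z))
    have hfr := B.fr_mem (t := t) (B.ψ i z)
    have hfr0 := B.fr_mem (t := t) (B.ψ i z0)
    rw [abs_lt] at hz1
    have hon : ∀ k : ℤ, B.On t (B.ψ i z) (t i z + k) := fun k => (B.On_iff ht hz2 _).2 ⟨k, rfl⟩
    unfold K6_f
    rw [sub_left_inj]
    have e1 : ((K6_I (-(K : ℤ)) (2 * K + 1)).map fun k : ℤ => K6_v N c R u (B.ψ i z) (B.fr t (B.ψ i z) + k)) =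
        (K6_I (l + -(K : ℤ)) (2 * K + 1)).map fun k : ℤ => K6_v N c R u (B.ψ i z) (t i z + k) := by
      rw [K6_shift, List.map_map]
      refine List.map_congr_left fun k _ => ?_
      simp only [Function.comp_apply]
      rw [hl]
      push_cast
      rw [add_assoc]
    rw [e1, ← K6_drop (K6_d_pos K) (-N) (K6_I (l + -(K : ℤ)) (2 * K + 1))
      (fun k : ℤ => K6_v N c R u (B.ψ i z) (t i z + k)) (fun k : ℤ => decide (|t i z0 + k| < 3 * R / 4)) ?_]
    · rw [K6_filter (l + -(K : ℤ)) (l0 + -(K : ℤ)) (2 * K + 1) (2 * K + 1)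
        (fun k : ℤ => decide (|t i z0 + k| < 3 * R / 4)) ?_]
      · congr 1
        refine List.map_congr_left fun k hk => ?_
        have h1 := of_decide_eq_true (List.mem_filter.1 hk).2
        have h2 : |t i z + k| < R := by
          rw [abs_lt] at h1 ⊢
          constructor <;> linarith
        unfold K6_v lf
        rw [if_pos h2]
      · intro k hk
        have h1 := of_decide_eq_true hk
        rw [abs_lt] at h1
        have g1 : -(K : ℝ) < (k : ℝ) - l := by linarith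
        have g2 : (k : ℝ) - l < K := by linarith
        have g3 : -(K : ℝ) < (k : ℝ) - l0 := by linarith
        have g4 : (k : ℝ) - l0 < K := by linarith
        have g1' : -(K : ℤ) < k - l := by exact_mod_cast g1
        have g2' : k - l < (K : ℤ) := by exact_mod_cast g2
        have g3' : -(K : ℤ) < k - l0 := by exact_mod_cast g3
        have g4' : k - l0 < (K : ℤ) := by exact_mod_cast g4
        push_cast
        refine ⟨by linarith, by linarith, by linarith, by linarith⟩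
    · intro k _ hk
      have h1 : ¬ |t i z0 + k| < 3 * R / 4 := of_decide_eq_false hk
      have h2 : R / 2 ≤ |t i z + k| := by
        rw [not_lt] at h1
        have h3 : |t i z0 + k| ≤ |t i z + k| + 1 / 2 := by
          have h4 : t i z0 + k = (t i z + k) + (t i z0 - t i z) := by ring
          rw [h4]
          refine (abs_add_le _ _).trans ?_
          have h5 : |t i z0 - t i z| ≤ 1 / 2 := by
            rw [abs_le]
            constructor <;> linarith
          linarith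
        linarith
      have h3 := (B.K6_v_le hN hR hc hu (hon k)).2 h2
      have h4 := K6_d_le K
      linarith


omit [FiniteDimensional ℂ H] in
private theorem K6_cst (φ : H → ℝ) (c : ℝ) (q : H) : ddc (fun x => φ x + c) q = ddc φ q := by
  have h1 : fderiv ℝ (fun x => φ x + c) = fderiv ℝ φ := funext fun x => fderiv_add_const c
  ext u v
  rw [ddc_apply, ddc_apply, h1]

omit [FiniteDimensional ℂ H] in
private theorem K6_zero (c : ℝ) (q : H) : ddc (fun _ : H => c) q = 0 := by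
  have h1 : fderiv ℝ (fun _ : H => c) = fun _ => 0 := funext fun x => fderiv_const_apply c
  ext u v
  rw [ddc_apply, h1, fderiv_const_apply]
  simp

omit [CompactSpace X] in
private theorem K6_V (ht : B.Per t) (c : ℝ) {u : X → ℝ → ℝ} {i : B.I} {k : ℤ} {z0 : H} (hz0 : z0 ∈ qb e 4)
    (hs : ContDiffAt ℝ ∞ (B.lf t u i k) z0) :
    ContDiffAt ℝ ∞ (fun z => B.lf t u i k z - (t i z + k) - c * (t i z + k) ^ 2) z0 ∧
      ∀ v : H, ddc (fun z => B.lf t u i k z - (t i z + k) - c * (t i z + k) ^ 2) z0 v (Complex.I • v) =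
        ddc (B.lf t u i k) z0 v (Complex.I • v) - B.ddt t i z0 v (Complex.I • v) -
          c * (2 * B.gr t i z0 v (Complex.I • v) + 2 * (t i z0 + k) * B.ddt t i z0 v (Complex.I • v)) := by
  have h1 : ContDiffAt ℝ ∞ (fun z => t i z + k) z0 :=
    ((ht.sm i).contDiffAt ((isOpen_qb e 4).mem_nhds hz0)).add contDiffAt_const
  have h2 : ContDiffAt ℝ ∞ (fun z => (t i z + k) ^ 2) z0 := h1.pow 2
  have h3 : ContDiffAt ℝ ∞ (fun z => (-1 : ℝ) * (t i z + k)) z0 := contDiffAt_const.mul h1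
  have h4 : ContDiffAt ℝ ∞ (fun z => (-c) * (t i z + k) ^ 2) z0 := contDiffAt_const.mul h2
  have h5 : ContDiffAt ℝ ∞ (fun z => B.lf t u i k z + (-1 : ℝ) * (t i z + k)) z0 := hs.add h3
  have e1 : (fun z => B.lf t u i k z - (t i z + k) - c * (t i z + k) ^ 2) =
      fun z => (B.lf t u i k z + (-1 : ℝ) * (t i z + k)) + (-c) * (t i z + k) ^ 2 := by
    funext z
    ring
  have two : ∀ {φ : H → ℝ}, ContDiffAt ℝ ∞ φ z0 → ContDiffAt ℝ 2 φ z0 := fun h => h.of_le (by norm_cast)
  refine ⟨(hs.sub h1).sub (contDiffAt_const.mul h2), fun v => ?_⟩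
  rw [e1, ddc_add (two h5) (two h4), ddc_add (two hs) (two h3), ddc_smul _ (two h1), ddc_smul _ (two h2),
    B.ddc_sq ht hz0, K6_cst]
  simp only [add_apply, smul_apply, smul_eq_mul]
  unfold ddt
  ring

theorem gauge_fun (hw : B.Met w) (hb : B.IsT b) (ht : B.Per t) (h : ∀ S : ℝ, ∃ s : ℝ, S ≤ s ∧ B.PP t w b s) :
    ∃ C1 : ℝ, 0 ≤ C1 ∧ ∀ N ε : ℝ, 1 ≤ N → 0 < ε → ∃ f : X → ℝ, B.Sm f ∧ (∀ x, f x ≤ 0) ∧ (∀ x, -N - 1 ≤ f x) ∧
      (∃ x, -7 ≤ f x) ∧ B.NnT (B.ddt t + B.dd f + C1 • w) ∧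
      ∀ i, ∀ z ∈ qb e 4, -N + 1 < f (B.ψ i z) → Nn (B.ddt t i z + B.dd f i z + ε • w i z) := by
  have two : ∀ {φ : H → ℝ} {z0 : H}, ContDiffAt ℝ ∞ φ z0 → ContDiffAt ℝ 2 φ z0 := fun h => h.of_le (by norm_cast)
  obtain ⟨A1, hA10, hA1⟩ := B.NnT_dom (Per.IsT B ht) hw
  obtain ⟨A2, hA20, hA2⟩ := B.NnT_dom (B.IsT_smul (Per.IsT B ht) (-1)) hw
  obtain ⟨A3, hA30, hA3⟩ := B.NnT_dom (B.IsT_smul (B.IsT_gr ht) (-1)) hw
  have hw0 : ∀ i, ∀ z ∈ qb e 4, ∀ v : H, 0 ≤ w i z v (Complex.I • v) := by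
    intro i z hz v
    by_cases hv : v = 0
    · rw [hv]
      simp
    · exact (hw.pos i z hz v hv).le
  obtain ⟨C1, hC1, hb1⟩ : ∃ C1 : ℝ, 0 < C1 ∧ ∀ i, ∀ z ∈ qb e 4, ∀ v : H,
      -(C1 * w i z v (Complex.I • v)) ≤ B.ddt t i z v (Complex.I • v) ∧
      B.ddt t i z v (Complex.I • v) ≤ C1 * w i z v (Complex.I • v) ∧
      B.gr t i z v (Complex.I • v) ≤ C1 * w i z v (Complex.I • v) := by
    refine ⟨A1 + A2 + A3 + 1, by positivity, fun i z hz v => ?_⟩
    have h1 := hA1 i z hz v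
    have h2 := hA2 i z hz v
    have h3 := hA3 i z hz v
    have h0 := hw0 i z hz v
    simp only [Pi.add_apply, Pi.smul_apply, add_apply, smul_apply, smul_eq_mul] at h1 h2 h3
    have g1 := mul_nonneg hA10 h0
    have g2 := mul_nonneg hA20 h0
    have g3 := mul_nonneg hA30 h0
    refine ⟨?_, ?_, ?_⟩ <;> linarith
  refine ⟨C1 + 1, by positivity, fun N ε hN hε => ?_⟩
  obtain ⟨ε', hε', hε1, hε2⟩ : ∃ ε' : ℝ, 0 < ε' ∧ ε' ≤ ε ∧ ε' ≤ 1 :=
    ⟨min ε 1, lt_min hε one_pos, min_le_left _ _, min_le_right _ _⟩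
  obtain ⟨R, hR⟩ : ∃ R : ℝ, R = 2 + 4 * (N + 2) + 32 * (N + 2) * C1 / ε' := ⟨_, rfl⟩
  have hq : 0 < 32 * (N + 2) * C1 / ε' := by positivity
  have hR2 : 2 ≤ R := by linarith
  have hR4 : 4 * (N + 2) ≤ R := by linarith
  have hR32 : 32 * (N + 2) * C1 ≤ R * ε' := by
    have h1 : 32 * (N + 2) * C1 / ε' ≤ R := by linarith
    rwa [div_le_iff₀ hε'] at h1
  obtain ⟨c, hcdef⟩ : ∃ c : ℝ, c = 4 * (N + 2) / R ^ 2 := ⟨_, rfl⟩
  have hRpos : 0 < R := by linarith
  have hcR : c * R ^ 2 = 4 * (N + 2) := by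
    rw [hcdef]
    field_simp
  have hc0 : 0 < c := by
    rw [hcdef]
    positivity
  have hc1 : c ≤ 1 := by
    rw [hcdef, div_le_one (by positivity)]
    nlinarith
  have hc2 : 2 * c * (1 + R) * C1 ≤ ε' / 2 := by
    have h1 : 2 * c * (1 + R) * C1 ≤ 2 * c * (2 * R) * C1 := by
      have h2 : 0 < 2 * c * C1 := by positivity
      nlinarith
    have h3 : c * R = 4 * (N + 2) / R := by
      rw [hcdef]
      field_simp
    have h4 : 2 * c * (2 * R) * C1 = 16 * (N + 2) * C1 / R := by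
      have h5 : 2 * c * (2 * R) * C1 = 4 * (c * R) * C1 := by ring
      rw [h5, h3]
      ring
    have h6 : 16 * (N + 2) * C1 / R ≤ ε' / 2 := by
      rw [div_le_iff₀ hRpos]
      linarith
    linarith
  obtain ⟨u, hGd, hu, x0, y0, hxy, hy, hval⟩ := B.exists_u hw hb h hRpos (half_pos hε')
  obtain ⟨K, hK⟩ := exists_nat_ge (R + 2)
  have hδ := K6_d_pos K
  have hδ1 := K6_d_le K
  have hδ2 := K6_d_mul K
  -- the local description
  have hkey : ∀ i, ∀ z0 ∈ qb e 4, ∃ G : List ℤ, G.length ≤ 2 * K + 1 ∧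
      (∀ k ∈ G, ContDiffAt ℝ ∞ (fun z => B.lf t u i k z - (t i z + k) - c * (t i z + k) ^ 2) z0) ∧
      (∀ k ∈ G, ∀ v : H, 0 ≤ B.ddt t i z0 v (Complex.I • v) +
        ddc (fun z => B.lf t u i k z - (t i z + k) - c * (t i z + k) ^ 2) z0 v (Complex.I • v) +
          ε' * w i z0 v (Complex.I • v)) ∧
      (∀ᶠ z in 𝓝 z0, B.K6_f t N c R K u (B.ψ i z) = rml (K6_d K) (-N)
        (G.map fun k : ℤ => B.lf t u i k z - (t i z + k) - c * (t i z + k) ^ 2) - 1) ∧
      B.dd (B.K6_f t N c R K u) i z0 = ddc (fun z => rml (K6_d K) (-N)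
        (G.map fun k : ℤ => B.lf t u i k z - (t i z + k) - c * (t i z + k) ^ 2)) z0 := by
    intro i z0 hz0
    obtain ⟨G, hG1, hG2, hG3⟩ := B.K6_loc ht hN hR2 hcR hK hu i hz0
    have hmem : ∀ k ∈ G, t i z0 + (k : ℝ) ∈ Set.Ioo (-R) R := fun k hk => abs_lt.1 (hG1 k hk)
    refine ⟨G, hG2, fun k hk => (B.K6_V ht c hz0 (hGd.sm i k z0 hz0 (hmem k hk))).1, ?_, hG3, ?_⟩
    · intro k hk v
      rw [(B.K6_V ht c hz0 (hGd.sm i k z0 hz0 (hmem k hk))).2 v]
      have h1 := hGd.nn i k z0 hz0 (hmem k hk) v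
      obtain ⟨h2, h3, h4⟩ := hb1 i z0 hz0 v
      have h0 := hw0 i z0 hz0 v
      simp only [Pi.zero_apply, zero_apply, add_apply, smul_apply, smul_eq_mul, zero_add] at h1
      generalize w i z0 v (Complex.I • v) = W at *
      generalize B.ddt t i z0 v (Complex.I • v) = D at *
      generalize B.gr t i z0 v (Complex.I • v) = g at *
      generalize ddc (B.lf t u i k) z0 v (Complex.I • v) = U at *
      have hy1 := abs_lt.2 (hmem k hk)
      generalize t i z0 + (k : ℝ) = y at *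
      have h5 : y * D ≤ R * (C1 * W) := by
        have h6 : |D| ≤ C1 * W := abs_le.2 ⟨by linarith, h3⟩
        calc y * D ≤ |y * D| := le_abs_self _
          _ = |y| * |D| := abs_mul _ _
          _ ≤ R * (C1 * W) := mul_le_mul hy1.le h6 (abs_nonneg _) hRpos.le
      have h7 : c * (2 * g + 2 * y * D) ≤ c * (2 * (C1 * W) + 2 * (R * (C1 * W))) := by
        refine mul_le_mul_of_nonneg_left ?_ hc0.le
        linarith
      have h8 : c * (2 * (C1 * W) + 2 * (R * (C1 * W))) = (2 * c * (1 + R) * C1) * W := by ring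
      have h9 : (2 * c * (1 + R) * C1) * W ≤ (ε' / 2) * W := mul_le_mul_of_nonneg_right hc2 h0
      linarith
    · unfold dd
      have h1 : (fun z => B.K6_f t N c R K u (B.ψ i z)) =ᶠ[𝓝 z0] fun z => rml (K6_d K) (-N)
          (G.map fun k : ℤ => B.lf t u i k z - (t i z + k) - c * (t i z + k) ^ 2) + (-1) := by
        filter_upwards [hG3] with z hz
        rw [hz]
        ring
      rw [ddc_congr h1, K6_cst]
  refine ⟨B.K6_f t N c R K u, ?_, ?_, ?_, ?_, ?_, ?_⟩
  · intro i z0 hz0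
    obtain ⟨G, -, hs, -, hl, -⟩ := hkey i z0 hz0
    have h1 : ContDiffAt ℝ ∞ (fun z => rml (K6_d K) (-N)
        (G.map fun k : ℤ => B.lf t u i k z - (t i z + k) - c * (t i z + k) ^ 2)) z0 :=
      rml_cd (a := fun _ => -N) G contDiffAt_const hs
    have h2 : ContDiffAt ℝ ∞ (fun z => B.K6_f t N c R K u (B.ψ i z)) z0 :=
      (h1.sub contDiffAt_const).congr_of_eventuallyEq hl
    exact h2.contDiffWithinAt
  · intro x
    have h1 : ∀ b ∈ (K6_I (-(K : ℤ)) (2 * K + 1)).map fun k : ℤ => K6_v N c R u x (B.fr t x + k), b ≤ 0 := by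
      intro b hb'
      obtain ⟨k, -, rfl⟩ := List.mem_map.1 hb'
      exact (B.K6_v_le hN hR2 hcR hu (B.On_add (B.On_fr x) k)).1
    have h2 := rml_le hδ (show -N ≤ 0 by linarith) h1
    rw [List.length_map, K6_len] at h2
    unfold K6_f
    have h3 : ((2 * K + 1 : ℕ) : ℝ) * K6_d K ≤ 1 := by
      have h4 : ((2 * K + 1 : ℕ) + 1 : ℝ) * K6_d K = ((2 * K + 1 : ℕ) : ℝ) * K6_d K + K6_d K := by ring
      linarith
    linarith
  · intro x
    have h1 := rml_base_le hδ (-N) ((K6_I (-(K : ℤ)) (2 * K + 1)).map fun k : ℤ => K6_v N c R u x (B.fr t x + k))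
    unfold K6_f
    linarith
  · refine ⟨x0, ?_⟩
    obtain ⟨k, hk⟩ := (B.On_fr_iff ht x0 y0).1 hxy
    have hfr := B.fr_mem (t := t) x0
    rw [abs_le] at hy
    have hk1 : -(K : ℤ) ≤ k ∧ k < -(K : ℤ) + (2 * K + 1 : ℕ) := by
      have g1 : -(K : ℝ) ≤ (k : ℝ) := by linarith
      have g2 : (k : ℝ) ≤ K := by linarith
      have g1' : -(K : ℤ) ≤ k := by exact_mod_cast g1
      have g2' : k ≤ (K : ℤ) := by exact_mod_cast g2
      push_cast
      constructor <;> linarith
    have h1 : K6_v N c R u x0 (B.fr t x0 + k) ∈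
        (K6_I (-(K : ℤ)) (2 * K + 1)).map fun k : ℤ => K6_v N c R u x0 (B.fr t x0 + k) :=
      List.mem_map.2 ⟨k, (K6_mem _ _ _).2 hk1, rfl⟩
    have h2 := le_rml hδ (-N) h1
    have h3 : -6 ≤ K6_v N c R u x0 (B.fr t x0 + k) := by
      rw [← hk]
      unfold K6_v
      rw [if_pos (by rw [abs_lt]; constructor <;> linarith)]
      have h4 : y0 ^ 2 ≤ 1 := by
        rw [sq_le_one_iff_abs_le_one, abs_le]
        exact hy
      have h5 : c * y0 ^ 2 ≤ 1 := by
        have h6 : c * y0 ^ 2 ≤ 1 * 1 := mul_le_mul hc1 h4 (sq_nonneg _) zero_le_one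
        linarith
      linarith
    unfold K6_f
    linarith
  · intro i z0 hz0
    obtain ⟨G, -, hs, hn, -, hd⟩ := hkey i z0 hz0
    have h0 := hw0 i z0 hz0
    have h1 : Nn ((B.ddt t i z0 + (C1 + 1) • w i z0) + ddc (fun z => rml (K6_d K) (-N)
        (G.map fun k : ℤ => B.lf t u i k z - (t i z + k) - c * (t i z + k) ^ 2)) z0) := by
      refine nn_rml (a := fun _ => -N) hδ G contDiffAt_const hs ?_ ?_
      · intro v
        have h2 := (hb1 i z0 hz0 v).1
        have h3 := h0 v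
        have h4 : ddc (fun _ : H => -N) z0 v (Complex.I • v) = 0 := by
          rw [K6_zero]
          rfl
        simp only [add_apply, smul_apply, smul_eq_mul]
        linarith
      · intro k hk v
        have h2 := hn k hk v
        have h3 := h0 v
        simp only [add_apply, smul_apply, smul_eq_mul]
        have h4 : ε' * w i z0 v (Complex.I • v) ≤ (C1 + 1) * w i z0 v (Complex.I • v) :=
          mul_le_mul_of_nonneg_right (by linarith) h3
        linarith
    intro v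
    have h2 := h1 v
    simp only [Pi.add_apply, Pi.smul_apply, add_apply, smul_apply, smul_eq_mul] at h2 ⊢
    rw [hd]
    linarith
  · intro i z0 hz0 hact
    obtain ⟨G, hlen, hs, hn, hl, hd⟩ := hkey i z0 hz0
    have h0 := hw0 i z0 hz0
    have hl0 := hl.self_of_nhds
    have h1 : Nn ((B.ddt t i z0 + ε' • w i z0) + ddc (fun z => rml (K6_d K) (-N)
        (G.map fun k : ℤ => B.lf t u i k z - (t i z + k) - c * (t i z + k) ^ 2)) z0) := by
      refine nn_rml_act (a := fun _ => -N) hδ G contDiffAt_const hs ?_ ?_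
      · intro k hk v
        have h2 := hn k hk v
        simp only [add_apply, smul_apply, smul_eq_mul]
        linarith
      · have h2 : ((G.length : ℝ) + 1) * K6_d K ≤ 1 := by
          rw [← hδ2]
          refine mul_le_mul_of_nonneg_right ?_ hδ.le
          have h3 : (G.length : ℝ) ≤ ((2 * K + 1 : ℕ) : ℝ) := by exact_mod_cast hlen
          linarith
        linarith
    intro v
    have h2 := h1 v
    have h3 := h0 v
    have h4 : ε' * w i z0 v (Complex.I • v) ≤ ε * w i z0 v (Complex.I • v) :=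
      mul_le_mul_of_nonneg_right hε1 h3
    simp only [add_apply, smul_apply, smul_eq_mul] at h2 ⊢
    rw [hd]
    linarith

end BM

end HDG
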