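import Pool.Agent.HDG.LDefs

/-!
# HDG/LA0: real (1,1)-forms and their matrices

Linear algebra of real forms of type (1,1) on a complex vector space: closure properties of `O11`, symmetry of
`a u (i v)`, polarization, additivity of the matrix `Mt`, the Hermitian form of `a` (complex linear in the first,
conjugate linear in the second variable) and its matrix, positive semidefiniteness, reality of the determinant.
-/

set_option autoImplicit false

noncomputable section

open scoped ContDiff ComplexOrder

namespace HDG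

open Pool.Agent.FBR

variable {H : Type*} [NormedAddCommGroup H] [NormedSpace ℂ H] {n : ℕ} (e : Module.Basis (Fin n) ℂ H)

theorem qf_nonneg (z : H) : 0 ≤ qf e z := by
  unfold qf
  positivity

theorem qf_smul (c : ℂ) (z : H) : qf e (c • z) = ‖c‖ ^ 2 * qf e z := by
  unfold qf
  rw [Finset.mul_sum]
  refine Finset.sum_congr rfl fun j _ => ?_
  rw [map_smul, Finsupp.smul_apply, smul_eq_mul, norm_mul, mul_pow]

theorem qf_zero : qf e (0 : H) = 0 := by
  have h := qf_smul e 0 0
  rw [zero_smul, norm_zero] at h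
  rw [h]
  ring

theorem O11_add {a b : Bil H} (ha : O11 a) (hb : O11 b) : O11 (a + b) := by
  constructor
  · intro v
    rw [_root_.add_apply, _root_.add_apply, ha.1, hb.1, add_zero]
  · intro u v
    rw [_root_.add_apply, _root_.add_apply, _root_.add_apply, _root_.add_apply, ha.2, hb.2]

theorem O11_sub {a b : Bil H} (ha : O11 a) (hb : O11 b) : O11 (a - b) := by
  constructor
  · intro v
    rw [_root_.sub_apply, _root_.sub_apply, ha.1, hb.1, sub_zero]
  · intro u v
    rw [_root_.sub_apply, _root_.sub_apply, _root_.sub_apply, _root_.sub_apply, ha.2, hb.2]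

theorem O11_smul (c : ℝ) {a : Bil H} (ha : O11 a) : O11 (c • a) := by
  constructor
  · intro v
    rw [_root_.smul_apply, _root_.smul_apply, ha.1, smul_zero]
  · intro u v
    rw [_root_.smul_apply, _root_.smul_apply, _root_.smul_apply,
      _root_.smul_apply, ha.2]

theorem O11_zero : O11 (0 : Bil H) := by
  constructor
  · intro v
    rfl
  · intro u v
    rfl

theorem O11_ddc {f : H → ℝ} {z : H} (hf : ContDiffAt ℝ 2 f z) : O11 (ddc f z) := by
  exact ⟨fun v => ddc_alt f z v, fun u v => ddc_I hf u v⟩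

private theorem LA0_II (v : H) : Complex.I • Complex.I • v = -v := by
  rw [smul_smul, Complex.I_mul_I, neg_smul, one_smul]

private theorem LA0_neg {a : Bil H} (ha : O11 a) (u v : H) : a u (Complex.I • v) = - a (Complex.I • u) v := by
  rw [← ha.2 u (Complex.I • v), LA0_II, map_neg]

private theorem LA0_symm {a : Bil H} (ha : O11 a) (u v : H) : a u (Complex.I • v) = a v (Complex.I • u) := by
  have h1 := LA0_neg ha u v
  rw [antisymm_of_alt ha.1 (Complex.I • u) v] at h1
  linarith

/-- a form of type `(1,1)` is determined by its values at `(v, i v)` -/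
theorem O11_ext {a b : Bil H} (ha : O11 a) (hb : O11 b) (h : ∀ v, a v (Complex.I • v) = b v (Complex.I • v)) :
    a = b := by
  have hS : ∀ u v, a u (Complex.I • v) = b u (Complex.I • v) := by
    intro u v
    have h1 := h (u + v)
    rw [smul_add, map_add, map_add, _root_.add_apply, _root_.add_apply, map_add, map_add, _root_.add_apply,
      _root_.add_apply, LA0_symm ha v u, LA0_symm hb v u, h u, h v] at h1
    linarith
  refine ContinuousLinearMap.ext fun u => ContinuousLinearMap.ext fun v => ?_
  have h2 := hS u (-(Complex.I • v))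
  rw [smul_neg, smul_smul, Complex.I_mul_I, neg_smul, one_smul, neg_neg] at h2
  exact h2

/-- the symmetric form `S u v = a u (i v)` -/
theorem O11_symm {a : Bil H} (ha : O11 a) (u v : H) : a u (Complex.I • v) = a v (Complex.I • u) :=
  LA0_symm ha u v

theorem Mt_add (a b : Bil H) : Mt e (a + b) = Mt e a + Mt e b := by
  ext j k
  simp only [Mt, Matrix.add_apply, _root_.add_apply, Complex.ofReal_add]
  ring

theorem Mt_sub (a b : Bil H) : Mt e (a - b) = Mt e a - Mt e b := by
  ext j k
  simp only [Mt, Matrix.sub_apply, _root_.sub_apply, Complex.ofReal_sub]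
  ring

theorem Mt_smul (c : ℝ) (a : Bil H) : Mt e (c • a) = (c : ℂ) • Mt e a := by
  ext j k
  simp only [Mt, Matrix.smul_apply, _root_.smul_apply, smul_eq_mul, Complex.ofReal_mul]
  ring

theorem Mt_herm {a : Bil H} (ha : O11 a) : (Mt e a).IsHermitian := by
  ext j k
  simp only [Matrix.conjTranspose_apply, Mt, star_sub, star_mul', Complex.star_def, Complex.conj_ofReal,
    Complex.conj_I]
  rw [LA0_symm ha (e k) (e j), antisymm_of_alt ha.1 (e k) (e j)]
  push_cast
  ring

/-- the Hermitian form of `a` -/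
private def LA0_h (a : Bil H) (u v : H) : ℂ := ((a u (Complex.I • v) : ℝ) : ℂ) - Complex.I * ((a u v : ℝ) : ℂ)

private theorem LA0_h_addl (a : Bil H) (u v w : H) : LA0_h a (u + v) w = LA0_h a u w + LA0_h a v w := by
  simp only [LA0_h, map_add, _root_.add_apply, Complex.ofReal_add]
  ring

private theorem LA0_h_addr (a : Bil H) (u v w : H) : LA0_h a u (v + w) = LA0_h a u v + LA0_h a u w := by
  simp only [LA0_h, smul_add, map_add, Complex.ofReal_add]
  ring

private theorem LA0_h_rl (a : Bil H) (r : ℝ) (u v : H) : LA0_h a (r • u) v = r * LA0_h a u v := by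
  simp only [LA0_h, map_smul, _root_.smul_apply, smul_eq_mul, Complex.ofReal_mul]
  ring

private theorem LA0_h_rr (a : Bil H) (r : ℝ) (u v : H) : LA0_h a u (r • v) = r * LA0_h a u v := by
  simp only [LA0_h]
  rw [smul_comm Complex.I r v]
  simp only [map_smul, smul_eq_mul, Complex.ofReal_mul]
  ring

private theorem LA0_h_Il {a : Bil H} (ha : O11 a) (u v : H) : LA0_h a (Complex.I • u) v = Complex.I * LA0_h a u v := by
  simp only [LA0_h]
  rw [ha.2, LA0_neg ha u v]
  push_cast
  linear_combination ((a u v : ℂ)) * Complex.I_mul_I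

private theorem LA0_h_Ir {a : Bil H} (u v : H) : LA0_h a u (Complex.I • v) = -Complex.I * LA0_h a u v := by
  simp only [LA0_h]
  rw [LA0_II, map_neg]
  push_cast
  linear_combination (-(a u v : ℂ)) * Complex.I_mul_I

private theorem LA0_split (c : ℂ) (u : H) : c • u = c.re • u + c.im • Complex.I • u := by
  rw [← Complex.coe_smul c.re u, ← Complex.coe_smul c.im (Complex.I • u), smul_smul, ← add_smul, Complex.re_add_im]

private theorem LA0_h_smull {a : Bil H} (ha : O11 a) (c : ℂ) (u v : H) : LA0_h a (c • u) v = c * LA0_h a u v := by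
  rw [LA0_split c u, LA0_h_addl, LA0_h_rl, LA0_h_rl, LA0_h_Il ha]
  conv_rhs => rw [← Complex.re_add_im c]
  ring

private theorem LA0_h_smulr (a : Bil H) (c : ℂ) (u v : H) :
    LA0_h a u (c • v) = (starRingEnd ℂ) c * LA0_h a u v := by
  rw [LA0_split c v, LA0_h_addr, LA0_h_rr, LA0_h_rr, LA0_h_Ir]
  conv_rhs => rw [← Complex.re_add_im c]
  simp only [map_add, map_mul, Complex.conj_ofReal, Complex.conj_I]
  ring

private theorem LA0_h_suml {a : Bil H} (ha : O11 a) (c : Fin n → ℂ) (w : H) :
    LA0_h a (∑ j, c j • e j) w = ∑ j, c j * LA0_h a (e j) w := by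
  let F : H →+ ℂ := ⟨⟨fun u => LA0_h a u w, by
    have h0 := LA0_h_smull ha 0 0 w
    rw [zero_smul, zero_mul] at h0
    exact h0⟩, fun u v => LA0_h_addl a u v w⟩
  have h1 : F (∑ j, c j • e j) = ∑ j, F (c j • e j) := map_sum F _ _
  refine h1.trans (Finset.sum_congr rfl fun j _ => ?_)
  exact LA0_h_smull ha (c j) (e j) w

private theorem LA0_h_sumr (a : Bil H) (c : Fin n → ℂ) (w : H) :
    LA0_h a w (∑ j, c j • e j) = ∑ j, (starRingEnd ℂ) (c j) * LA0_h a w (e j) := by
  let F : H →+ ℂ := ⟨⟨fun u => LA0_h a w u, by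
    have h0 := LA0_h_smulr a 0 w 0
    rw [zero_smul, map_zero, zero_mul] at h0
    exact h0⟩, fun u v => LA0_h_addr a w u v⟩
  have h1 : F (∑ j, c j • e j) = ∑ j, F (c j • e j) := map_sum F _ _
  refine h1.trans (Finset.sum_congr rfl fun j _ => ?_)
  exact LA0_h_smulr a (c j) w (e j)

/-- the Hermitian form -/
theorem Mt_form {a : Bil H} (ha : O11 a) (c : Fin n → ℂ) :
    ∑ j, ∑ k, Mt e a j k * c j * (starRingEnd ℂ) (c k) =
      ((a (∑ j, c j • e j) (Complex.I • ∑ j, c j • e j) : ℝ) : ℂ) := by
  have h1 : ((a (∑ j, c j • e j) (Complex.I • ∑ j, c j • e j) : ℝ) : ℂ) =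
      LA0_h a (∑ j, c j • e j) (∑ j, c j • e j) := by
    rw [LA0_h, ha.1, Complex.ofReal_zero, mul_zero, sub_zero]
  rw [h1, LA0_h_suml e ha]
  refine Finset.sum_congr rfl fun j _ => ?_
  rw [LA0_h_sumr, Finset.mul_sum]
  refine Finset.sum_congr rfl fun k _ => ?_
  rw [LA0_h, Mt]
  ring

theorem Mt_psd {a : Bil H} (ha : O11 a) : (Mt e a).PosSemidef ↔ Nn a := by
  have key : ∀ c : Fin n → ℂ, dotProduct (star (star c)) (Matrix.mulVec (Mt e a) (star c)) =
      ((a (∑ j, c j • e j) (Complex.I • ∑ j, c j • e j) : ℝ) : ℂ) := by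
    intro c
    rw [← Mt_form e ha c, star_star]
    simp only [dotProduct, Matrix.mulVec, Finset.mul_sum, Pi.star_apply]
    refine Finset.sum_congr rfl fun j _ => Finset.sum_congr rfl fun k _ => ?_
    rw [Complex.star_def]
    ring
  rw [Matrix.posSemidef_iff_dotProduct_mulVec]
  constructor
  · intro h v
    have h1 := h.2 (star (fun j => e.repr v j))
    rw [key, e.sum_repr, Complex.zero_le_real] at h1
    exact h1
  · intro h
    refine ⟨Mt_herm e ha, fun x => ?_⟩
    have h1 := key (star x)
    rw [star_star x] at h1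
    rw [h1, Complex.zero_le_real]
    exact h _

theorem dt_eq {a : Bil H} (ha : O11 a) : ((dt e a : ℝ) : ℂ) = (Mt e a).det := by
  have h1 : (starRingEnd ℂ) (Mt e a).det = (Mt e a).det := by
    have h2 := Matrix.det_conjTranspose (Mt e a)
    rw [(Mt_herm e ha).eq] at h2
    exact h2.symm
  exact Complex.conj_eq_iff_re.mp h1

end HDG
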