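import Pool.Agent.HDG.LA1

/-!
# HDG/LA2: determinants of forms, positivity

The matrix of a form is Hermitian, so it is `U D Uᴴ` with `U` unitary and `D` diagonal and real; this gives the
eigenvalues with respect to the standard form, and positivity and monotonicity of the determinant.
-/

set_option autoImplicit false

noncomputable section

open scoped ContDiff ComplexOrder

namespace HDG

open Pool.Agent.FBR

variable {H : Type*} [NormedAddCommGroup H] [NormedSpace ℂ H] [FiniteDimensional ℂ H] {n : ℕ}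
  (e : Module.Basis (Fin n) ℂ H)

open Matrix in
private theorem LA2_spec {A : Matrix (Fin n) (Fin n) ℂ} (hA : A.IsHermitian) :
    ∃ (U : Matrix (Fin n) (Fin n) ℂ) (l : Fin n → ℝ), U * Uᴴ = 1 ∧ Uᴴ * U = 1 ∧
      A = U * diagonal (fun i => ((l i : ℝ) : ℂ)) * Uᴴ := by
  refine ⟨(hA.eigenvectorUnitary : Matrix (Fin n) (Fin n) ℂ), hA.eigenvalues, ?_, ?_, ?_⟩
  · exact Unitary.coe_mul_star_self hA.eigenvectorUnitary
  · exact Unitary.coe_star_mul_self hA.eigenvectorUnitary
  · have h := hA.spectral_theorem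
    rw [Unitary.conjStarAlgAut_apply] at h
    exact h

open Matrix in
private theorem LA2_det {U : Matrix (Fin n) (Fin n) ℂ} (hU : U * Uᴴ = 1) (D : Matrix (Fin n) (Fin n) ℂ) :
    (U * D * Uᴴ).det = D.det := by
  have h : U.det * Uᴴ.det = 1 := by rw [← det_mul, hU, det_one]
  rw [det_mul, det_mul]
  calc U.det * D.det * Uᴴ.det = D.det * (U.det * Uᴴ.det) := by ring
    _ = D.det := by rw [h, mul_one]

open Matrix in
private theorem LA2_adj {U : Matrix (Fin n) (Fin n) ℂ} (hU : Uᴴ * U = 1) (D : Matrix (Fin n) (Fin n) ℂ) :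
    (U * D * Uᴴ).adjugate.trace = D.adjugate.trace := by
  rw [adjugate_mul_distrib, adjugate_mul_distrib, trace_mul_comm, Matrix.mul_assoc,
    ← adjugate_mul_distrib, hU, adjugate_one, Matrix.mul_one]

open Matrix in
private theorem LA2_psd {U : Matrix (Fin n) (Fin n) ℂ} (hU' : Uᴴ * U = 1)
    (D : Matrix (Fin n) (Fin n) ℂ) : (U * D * Uᴴ).PosSemidef ↔ D.PosSemidef := by
  constructor
  · intro h
    have h1 := h.conjTranspose_mul_mul_same U
    have h2 : Uᴴ * (U * D * Uᴴ) * U = (Uᴴ * U) * D * (Uᴴ * U) := by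
      simp only [Matrix.mul_assoc]
    rw [h2, hU', Matrix.one_mul, Matrix.mul_one] at h1
    exact h1
  · intro h
    exact h.mul_mul_conjTranspose_same U

private theorem LA2_zero (a : Bil H) : a + (0 : ℝ) • w0 e = a := by
  refine ContinuousLinearMap.ext fun u => ContinuousLinearMap.ext fun v => ?_
  have h : (a + (0 : ℝ) • w0 e) u v = a u v + 0 * w0 e u v := rfl
  rw [h, zero_mul, add_zero]

private theorem LA2_neg (a : Bil H) (c : ℝ) : a + (-c) • w0 e = a - c • w0 e := by
  refine ContinuousLinearMap.ext fun u => ContinuousLinearMap.ext fun v => ?_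
  have h : (a + (-c) • w0 e) u v = a u v + (-c) * w0 e u v := rfl
  have h' : (a - c • w0 e) u v = a u v - c * w0 e u v := rfl
  rw [h, h']
  ring

private theorem LA2_O11 {a : Bil H} (ha : O11 a) (c : ℝ) : O11 (a + c • w0 e) :=
  O11_add ha (O11_smul c (w0_O11 e))

/-- a positive lower bound of finitely many positive numbers -/
private theorem LA2_min (l : Fin n → ℝ) (h : ∀ i, 0 < l i) : ∃ c : ℝ, 0 < c ∧ ∀ i, c ≤ l i := by
  rcases isEmpty_or_nonempty (Fin n) with hn | hn
  · exact ⟨1, one_pos, fun i => (hn.false i).elim⟩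
  · obtain ⟨i, hi⟩ := Finite.exists_min l
    exact ⟨l i, h i, hi⟩

open Matrix in
private theorem LA2_one_add {S : Matrix (Fin n) (Fin n) ℂ} (hS : S.PosSemidef) :
    ∃ r : ℝ, 1 ≤ r ∧ (1 + S).det = ((r : ℝ) : ℂ) := by
  obtain ⟨U, l, hU, hU', hA⟩ := LA2_spec hS.isHermitian
  have hl : ∀ i, 0 ≤ l i := by
    rw [hA, LA2_psd hU', posSemidef_diagonal_iff] at hS
    intro i
    exact_mod_cast hS i
  refine ⟨∏ i, (1 + l i), ?_, ?_⟩
  · calc (1 : ℝ) = ∏ _i : Fin n, (1 : ℝ) := by rw [Finset.prod_const_one]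
      _ ≤ ∏ i, (1 + l i) := Finset.prod_le_prod (fun _ _ => zero_le_one) fun i _ => by linarith [hl i]
  · have h1 : (1 : Matrix (Fin n) (Fin n) ℂ) + S = U * diagonal (fun i => (((1 + l i : ℝ)) : ℂ)) * Uᴴ := by
      have h2 : (diagonal (fun i => (((1 + l i : ℝ)) : ℂ)) : Matrix (Fin n) (Fin n) ℂ) =
          1 + diagonal (fun i => ((l i : ℝ) : ℂ)) := by
        rw [← diagonal_one, diagonal_add]
        congr 1
        funext i
        push_cast
        rfl
      rw [h2, Matrix.mul_add, Matrix.add_mul, Matrix.mul_one, hU, ← hA]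
    rw [h1, LA2_det hU, det_diagonal]
    push_cast
    rfl

/-- the eigenvalues of `a` with respect to `w0` -/
theorem exists_eig {a : Bil H} (ha : O11 a) : ∃ l : Fin n → ℝ,
    (∀ c : ℝ, dt e (a + c • w0 e) = ∏ i, (l i + c)) ∧
    (∀ c : ℝ, cf e (a + c • w0 e) (w0 e) = ∑ i, ∏ j ∈ Finset.univ.erase i, (l j + c)) ∧
    ∀ c : ℝ, Nn (a + c • w0 e) ↔ ∀ i, 0 ≤ l i + c := by
  classical
  obtain ⟨U, l, hU, hU', hA⟩ := LA2_spec (Mt_herm e ha)
  have key : ∀ c : ℝ, Mt e (a + c • w0 e) =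
      U * Matrix.diagonal (fun i => (((l i + c : ℝ)) : ℂ)) * U.conjTranspose := by
    intro c
    have h2 : (Matrix.diagonal (fun i => (((l i + c : ℝ)) : ℂ)) : Matrix (Fin n) (Fin n) ℂ) =
        Matrix.diagonal (fun i => ((l i : ℝ) : ℂ)) + ((c : ℝ) : ℂ) • (1 : Matrix (Fin n) (Fin n) ℂ) := by
      rw [← Matrix.diagonal_one, ← Matrix.diagonal_smul, Matrix.diagonal_add]
      congr 1
      funext i
      simp
    rw [Mt_add, Mt_smul, Mt_w0, h2, Matrix.mul_add, Matrix.add_mul, ← hA]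
    congr 1
    rw [Matrix.mul_smul, Matrix.smul_mul, Matrix.mul_one, hU]
  refine ⟨l, fun c => ?_, fun c => ?_, fun c => ?_⟩
  · unfold dt
    rw [key c, LA2_det hU, Matrix.det_diagonal, ← Complex.ofReal_prod, Complex.ofReal_re]
  · unfold cf
    rw [Mt_w0, Matrix.mul_one, key c, LA2_adj hU', Matrix.adjugate_diagonal, Matrix.trace_diagonal]
    rw [Complex.re_sum]
    refine Finset.sum_congr rfl fun i _ => ?_
    rw [← Complex.ofReal_prod, Complex.ofReal_re]
  · rw [← Mt_psd e (LA2_O11 e ha c), key c, LA2_psd hU', Matrix.posSemidef_diagonal_iff]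
    constructor
    · intro h i
      exact_mod_cast h i
    · intro h i
      exact_mod_cast h i

theorem dt_nonneg {a : Bil H} (ha : O11 a) (h : Nn a) : 0 ≤ dt e a := by
  obtain ⟨l, h1, -, h3⟩ := exists_eig e ha
  have h4 := h1 0
  have h5 := (h3 0).1
  rw [LA2_zero] at h4 h5
  rw [h4]
  exact Finset.prod_nonneg fun i _ => h5 h i

theorem dt_mono {a b : Bil H} (ha : O11 a) (hb : O11 b) (h : Nn a) (hab : Nn (b - a)) : dt e a ≤ dt e b := by
  have hbn : Nn b := by
    intro v
    have h1 := h v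
    have h2 := hab v
    have h3 : (b - a) v (Complex.I • v) = b v (Complex.I • v) - a v (Complex.I • v) := rfl
    rw [h3] at h2
    linarith
  rcases eq_or_lt_of_le (dt_nonneg e ha h) with h0 | h0
  · rw [← h0]
    exact dt_nonneg e hb hbn
  obtain ⟨U, l, hU, hU', hA⟩ := LA2_spec (Mt_herm e ha)
  have hpos : ∀ i, 0 ≤ l i := by
    have h1 := (Mt_psd e ha).2 h
    rw [hA, LA2_psd hU', Matrix.posSemidef_diagonal_iff] at h1
    intro i
    exact_mod_cast h1 i
  have hdet : dt e a = ∏ i, l i := by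
    unfold dt
    rw [hA, LA2_det hU, Matrix.det_diagonal, ← Complex.ofReal_prod, Complex.ofReal_re]
  have hl : ∀ i, 0 < l i := by
    intro i
    refine lt_of_le_of_ne (hpos i) fun h1 => ?_
    rw [hdet, Finset.prod_eq_zero (Finset.mem_univ i) h1.symm] at h0
    exact lt_irrefl _ h0
  -- the square root of the matrix and its inverse
  obtain ⟨R, hR⟩ : ∃ R : Matrix (Fin n) (Fin n) ℂ, R = U * Matrix.diagonal (fun i => ((Real.sqrt (l i) : ℝ) : ℂ)) :=
    ⟨_, rfl⟩
  obtain ⟨Q, hQ⟩ : ∃ Q : Matrix (Fin n) (Fin n) ℂ, Q = Matrix.diagonal (fun i => (((Real.sqrt (l i))⁻¹ : ℝ) : ℂ)) *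
      U.conjTranspose := ⟨_, rfl⟩
  have hdd : (Matrix.diagonal (fun i => ((Real.sqrt (l i) : ℝ) : ℂ)) *
      Matrix.diagonal (fun i => (((Real.sqrt (l i))⁻¹ : ℝ) : ℂ)) : Matrix (Fin n) (Fin n) ℂ) = 1 := by
    rw [Matrix.diagonal_mul_diagonal, ← Matrix.diagonal_one]
    congr 1
    funext i
    rw [← Complex.ofReal_mul, mul_inv_cancel₀ (Real.sqrt_pos.2 (hl i)).ne', Complex.ofReal_one]
  have hRQ : R * Q = 1 := by
    rw [hR, hQ]
    calc U * Matrix.diagonal (fun i => ((Real.sqrt (l i) : ℝ) : ℂ)) *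
          (Matrix.diagonal (fun i => (((Real.sqrt (l i))⁻¹ : ℝ) : ℂ)) * U.conjTranspose) =
          U * (Matrix.diagonal (fun i => ((Real.sqrt (l i) : ℝ) : ℂ)) *
          Matrix.diagonal (fun i => (((Real.sqrt (l i))⁻¹ : ℝ) : ℂ))) * U.conjTranspose := by
          simp only [Matrix.mul_assoc]
      _ = 1 := by rw [hdd, Matrix.mul_one, hU]
  have hRR : R * R.conjTranspose = Mt e a := by
    rw [hR, Matrix.conjTranspose_mul, Matrix.diagonal_conjTranspose, hA]
    have h1 : star (fun i => ((Real.sqrt (l i) : ℝ) : ℂ)) = fun i => ((Real.sqrt (l i) : ℝ) : ℂ) := by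
      funext i
      exact Complex.conj_ofReal _
    rw [h1]
    have h2 : (Matrix.diagonal (fun i => ((Real.sqrt (l i) : ℝ) : ℂ)) *
        Matrix.diagonal (fun i => ((Real.sqrt (l i) : ℝ) : ℂ)) : Matrix (Fin n) (Fin n) ℂ) =
        Matrix.diagonal (fun i => ((l i : ℝ) : ℂ)) := by
      rw [Matrix.diagonal_mul_diagonal]
      congr 1
      funext i
      rw [← Complex.ofReal_mul, Real.mul_self_sqrt (hpos i)]
    rw [← h2]
    simp only [Matrix.mul_assoc]
  obtain ⟨S, hS⟩ : ∃ S : Matrix (Fin n) (Fin n) ℂ, S = Q * Mt e (b - a) * Q.conjTranspose := ⟨_, rfl⟩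
  have hSp : S.PosSemidef := by
    rw [hS]
    exact ((Mt_psd e (O11_sub hb ha)).2 hab).mul_mul_conjTranspose_same Q
  obtain ⟨r, hr1, hr⟩ := LA2_one_add hSp
  have hQR : Q.conjTranspose * R.conjTranspose = 1 := by
    rw [← Matrix.conjTranspose_mul, hRQ, Matrix.conjTranspose_one]
  have hB : Mt e b = R * (1 + S) * R.conjTranspose := by
    rw [Matrix.mul_add, Matrix.add_mul, Matrix.mul_one, hRR, hS]
    have h1 : R * (Q * Mt e (b - a) * Q.conjTranspose) * R.conjTranspose =
        (R * Q) * Mt e (b - a) * (Q.conjTranspose * R.conjTranspose) := by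
      simp only [Matrix.mul_assoc]
    rw [h1, hRQ, hQR, Matrix.one_mul, Matrix.mul_one, Mt_sub, add_sub_cancel]
  have hdB : (Mt e b).det = (Mt e a).det * ((r : ℝ) : ℂ) := by
    rw [hB, Matrix.det_mul, Matrix.det_mul, hr, ← hRR, Matrix.det_mul]
    ring
  have hfin : dt e b = dt e a * r := by
    rw [← dt_eq e ha, ← Complex.ofReal_mul] at hdB
    unfold dt at hdB ⊢
    rw [hdB, Complex.ofReal_re]
  rw [hfin]
  nlinarith

theorem dt_pos {a : Bil H} (ha : O11 a) (h : Nn a) :
    0 < dt e a ↔ ∀ v : H, v ≠ 0 → 0 < a v (Complex.I • v) := by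
  classical
  obtain ⟨l, h1, -, h3⟩ := exists_eig e ha
  have h4 := h1 0
  have h5 := (h3 0).1
  rw [LA2_zero] at h4 h5
  have hl := h5 h
  simp only [add_zero] at h4 hl
  constructor
  · intro hd v hv
    have hpos : ∀ i, 0 < l i := by
      intro i
      refine lt_of_le_of_ne (hl i) fun h6 => ?_
      rw [h4, Finset.prod_eq_zero (Finset.mem_univ i) h6.symm] at hd
      exact lt_irrefl _ hd
    obtain ⟨c, hc, hcl⟩ := LA2_min l hpos
    have h7 := (h3 (-c)).2 (fun i => by linarith [hcl i]) v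
    have h8 : (a + (-c) • w0 e) v (Complex.I • v) = a v (Complex.I • v) + (-c) * w0 e v (Complex.I • v) := rfl
    rw [h8, w0_self] at h7
    have h9 := mul_pos hc (qf_pos e hv)
    linarith
  · intro hv
    refine lt_of_le_of_ne (dt_nonneg e ha h) fun hd => ?_
    have hdet : (Mt e a).det = 0 := by
      rw [← dt_eq e ha, ← hd, Complex.ofReal_zero]
    obtain ⟨x, hx0, hx⟩ := Matrix.exists_mulVec_eq_zero_iff.2 hdet
    obtain ⟨c, hc⟩ : ∃ c : Fin n → ℂ, c = fun j => (starRingEnd ℂ) (x j) := ⟨_, rfl⟩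
    have hform := Mt_form e ha c
    have hz : ∑ j, ∑ k, Mt e a j k * c j * (starRingEnd ℂ) (c k) = 0 := by
      refine Finset.sum_eq_zero fun j _ => ?_
      have h6 : ∑ k, Mt e a j k * x k = 0 := by
        have := congrFun hx j
        simpa [Matrix.mulVec, dotProduct] using this
      have h7 : ∀ k, Mt e a j k * c j * (starRingEnd ℂ) (c k) = c j * (Mt e a j k * x k) := by
        intro k
        rw [hc]
        simp only [Complex.conj_conj]
        ring
      simp only [h7]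
      rw [← Finset.mul_sum, h6, mul_zero]
    rw [hz] at hform
    have hne : (∑ j, c j • e j) ≠ 0 := by
      intro h0
      have h6 := Fintype.linearIndependent_iff.1 e.linearIndependent c h0
      apply hx0
      funext j
      have h7 := h6 j
      rw [hc] at h7
      simpa using h7
    have h8 := hv _ hne
    have h9 : ((a (∑ j, c j • e j) (Complex.I • ∑ j, c j • e j) : ℝ) : ℂ) = 0 := hform.symm
    rw [Complex.ofReal_eq_zero] at h9
    linarith

theorem dt_pos_ge {a : Bil H} (ha : O11 a) (h : Nn a) (hd : 0 < dt e a) : ∃ c : ℝ, 0 < c ∧ Nn (a - c • w0 e) := by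
  obtain ⟨l, h1, -, h3⟩ := exists_eig e ha
  have h4 := h1 0
  have h5 := (h3 0).1
  rw [LA2_zero] at h4 h5
  have hl := h5 h
  simp only [add_zero] at h4 hl
  have hpos : ∀ i, 0 < l i := by
    intro i
    refine lt_of_le_of_ne (hl i) fun h6 => ?_
    rw [h4, Finset.prod_eq_zero (Finset.mem_univ i) h6.symm] at hd
    exact lt_irrefl _ hd
  obtain ⟨c, hc, hcl⟩ := LA2_min l hpos
  refine ⟨c, hc, ?_⟩
  have h7 := (h3 (-c)).2 (fun i => by linarith [hcl i])
  rw [LA2_neg] at h7
  exact h7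

theorem dt_w0 : dt e (w0 e : Bil H) = 1 := by
  unfold dt
  rw [Mt_w0, Matrix.det_one, Complex.one_re]

theorem dt_zero_smul (c : ℝ) (a : Bil H) : dt e (c • a) = c ^ n * dt e a := by
  unfold dt
  rw [Mt_smul, Matrix.det_smul, Fintype.card_fin, ← Complex.ofReal_pow, Complex.re_ofReal_mul]

end HDG
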