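import Pool.Agent.HDG.LA3

/-!
# HDG/LC1: Piola's identity

`β = b` closed of type `(1,1)`, with the matrix `m_{jk} = Mt e (b z) j k`: `closed_dz` is `∂_l m_{jk} = ∂_j m_{lk}` (the values of `dβ` at the triples
`(l, j, i k)`, `(i l, i j, i k)` give the real part, the triples `(l, j, k)`, `(i l, i j, k)` the imaginary part).
`piola`: `adj m_{kj}` is the determinant of `m` with the row `j` replaced by the unit vector `k`; its derivative is the sum over the rows `r ≠ j` of
the determinants where moreover the row `r` is replaced by `∂_j m_r = ∂_r m_j`; exchanging `j` and `r` exchanges two rows, so the sum over `j` and `r` vanishes.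
-/

set_option autoImplicit false

noncomputable section

open scoped ContDiff ComplexOrder Topology

namespace HDG

open Pool.Agent.FBR

section
variable {H : Type*} [NormedAddCommGroup H] [NormedSpace ℂ H]

/-- the derivative `∂_v` of a complex valued function -/
def dz (v : H) (F : H → ℂ) (z : H) : ℂ :=
  (1 / 2 : ℂ) * (fderiv ℝ F z v - Complex.I * fderiv ℝ F z (Complex.I • v))

/-- the derivative `∂̄_v` of a complex valued function -/
def dzb (v : H) (F : H → ℂ) (z : H) : ℂ :=
  (1 / 2 : ℂ) * (fderiv ℝ F z v + Complex.I * fderiv ℝ F z (Complex.I • v))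

private theorem LC1_hasApp {b : H → Bil H} {z : H} (hb : DifferentiableAt ℝ b z) (u w : H) :
    HasFDerivAt (fun z' => b z' u w) (((fderiv ℝ b z).flip u).flip w) z := by
  have h := (hb.hasFDerivAt.clm_apply (hasFDerivAt_const u z)).clm_apply (hasFDerivAt_const w z)
  refine h.congr_fderiv ?_
  ext v
  simp

private theorem LC1_app {b : H → Bil H} {z : H} (hb : DifferentiableAt ℝ b z) (u w v : H) :
    fderiv ℝ (fun z' => b z' u w) z v = fderiv ℝ b z v u w := by
  rw [(LC1_hasApp hb u w).fderiv]
  rfl

private theorem LC1_self {b : H → Bil H} {z : H} (hb : DifferentiableAt ℝ b z) (h11 : ∀ᶠ z' in 𝓝 z, O11 (b z')) (v u : H) :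
    fderiv ℝ b z v u u = 0 := by
  rw [← LC1_app hb]
  have h : (fun z' => b z' u u) =ᶠ[𝓝 z] fun _ => (0 : ℝ) := by
    filter_upwards [h11] with z' hz'
    exact hz'.1 u
  rw [h.fderiv_eq, fderiv_fun_const]
  rfl

private theorem LC1_anti {b : H → Bil H} {z : H} (hb : DifferentiableAt ℝ b z) (h11 : ∀ᶠ z' in 𝓝 z, O11 (b z')) (v u w : H) :
    fderiv ℝ b z v w u = - fderiv ℝ b z v u w := by
  have h := LC1_self hb h11 v (u + w)
  rw [map_add, map_add, add_apply, add_apply, LC1_self hb h11 v u, LC1_self hb h11 v w] at h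
  linarith

private theorem LC1_I {b : H → Bil H} {z : H} (hb : DifferentiableAt ℝ b z) (h11 : ∀ᶠ z' in 𝓝 z, O11 (b z')) (v u w : H) :
    fderiv ℝ b z v (Complex.I • u) (Complex.I • w) = fderiv ℝ b z v u w := by
  rw [← LC1_app hb, ← LC1_app hb]
  have h : (fun z' => b z' (Complex.I • u) (Complex.I • w)) =ᶠ[𝓝 z] fun z' => b z' u w := by
    filter_upwards [h11] with z' hz'
    exact hz'.2 u w
  rw [h.fderiv_eq]

private theorem LC1_II (u : H) : Complex.I • Complex.I • u = -u := by
  rw [smul_smul, Complex.I_mul_I, neg_one_smul]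

private theorem LC1_I2 {b : H → Bil H} {z : H} (hb : DifferentiableAt ℝ b z) (h11 : ∀ᶠ z' in 𝓝 z, O11 (b z')) (v u w : H) :
    fderiv ℝ b z v (Complex.I • u) w = - fderiv ℝ b z v u (Complex.I • w) := by
  rw [← LC1_I hb h11 v (Complex.I • u) w, LC1_II, map_neg]
  rfl

private theorem LC1_add {F G : H → ℂ} {z : H} (hF : DifferentiableAt ℝ F z) (hG : DifferentiableAt ℝ G z) (v : H) :
    dz v (fun z => F z + G z) z = dz v F z + dz v G z := by
  unfold dz
  rw [fderiv_fun_add hF hG]
  simp only [add_apply]
  ring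

private theorem LC1_const (c : ℂ) (v z : H) : dz v (fun _ => c) z = 0 := by
  unfold dz
  simp

private theorem LC1_mul {F G : H → ℂ} {z : H} (hF : DifferentiableAt ℝ F z) (hG : DifferentiableAt ℝ G z) (v : H) :
    dz v (fun z => F z * G z) z = F z * dz v G z + G z * dz v F z := by
  unfold dz
  rw [fderiv_fun_mul hF hG]
  simp only [add_apply, smul_apply, smul_eq_mul]
  ring

private theorem LC1_sum {ι : Type*} [DecidableEq ι] (t : Finset ι) {F : ι → H → ℂ} {z : H} (hF : ∀ i, DifferentiableAt ℝ (F i) z) (v : H) :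
    dz v (fun z => ∑ i ∈ t, F i z) z = ∑ i ∈ t, dz v (F i) z := by
  induction t using Finset.induction_on with
  | empty =>
    simp only [Finset.sum_empty]
    exact LC1_const 0 v z
  | insert i t hi ih =>
    simp only [Finset.sum_insert hi]
    rw [← ih]
    exact LC1_add (hF i) (DifferentiableAt.fun_sum fun j _ => hF j) v

private theorem LC1_dprod {ι : Type*} [DecidableEq ι] (t : Finset ι) {F : ι → H → ℂ} {z : H} (hF : ∀ i, DifferentiableAt ℝ (F i) z) :
    DifferentiableAt ℝ (fun z => ∏ i ∈ t, F i z) z := by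
  induction t using Finset.induction_on with
  | empty =>
    simp only [Finset.prod_empty]
    exact differentiableAt_const _
  | insert i t hi ih =>
    simp only [Finset.prod_insert hi]
    exact (hF i).mul ih

private theorem LC1_prod {ι : Type*} [DecidableEq ι] (t : Finset ι) {F : ι → H → ℂ} {z : H} (hF : ∀ i, DifferentiableAt ℝ (F i) z) (v : H) :
    dz v (fun z => ∏ i ∈ t, F i z) z = ∑ i ∈ t, (∏ j ∈ t.erase i, F j z) * dz v (F i) z := by
  induction t using Finset.induction_on with
  | empty =>
    simp only [Finset.prod_empty, Finset.sum_empty]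
    exact LC1_const 1 v z
  | insert i t hi ih =>
    simp only [Finset.prod_insert hi]
    rw [LC1_mul (hF i) (LC1_dprod t hF) v, ih, Finset.sum_insert hi,
      Finset.erase_insert hi, Finset.mul_sum, add_comm]
    congr 1
    refine Finset.sum_congr rfl fun j hj => ?_
    have hij : i ≠ j := fun h => hi (h ▸ hj)
    rw [Finset.erase_insert_of_ne hij, Finset.prod_insert (fun h => hi (Finset.mem_of_mem_erase h)), mul_assoc]

private theorem LC1_det {n : ℕ} {M : H → Matrix (Fin n) (Fin n) ℂ} {z : H} (hM : ∀ i c, DifferentiableAt ℝ (fun z => M z i c) z) (v : H) :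
    dz v (fun z => (M z).det) z = ∑ r, ((M z).updateRow r (fun c => dz v (fun z => M z r c) z)).det := by
  have e1 : (fun z => (M z).det) = fun z => ∑ σ : Equiv.Perm (Fin n), ((Equiv.Perm.sign σ : ℤ) : ℂ) * ∏ i, M z i (σ i) := by
    funext z
    rw [← Matrix.det_transpose, Matrix.det_apply']
    rfl
  have e2 : ∀ r, ((M z).updateRow r (fun c => dz v (fun z => M z r c) z)).det =
      ∑ σ : Equiv.Perm (Fin n), ((Equiv.Perm.sign σ : ℤ) : ℂ) *
        ((∏ i ∈ Finset.univ.erase r, M z i (σ i)) * dz v (fun z => M z r (σ r)) z) := by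
    intro r
    rw [← Matrix.det_transpose, Matrix.det_apply']
    refine Finset.sum_congr rfl fun σ _ => ?_
    congr 1
    rw [← Finset.prod_erase_mul Finset.univ _ (Finset.mem_univ r)]
    simp only [Matrix.transpose_apply]
    rw [Matrix.updateRow_self]
    congr 1
    refine Finset.prod_congr rfl fun i hi => ?_
    rw [Matrix.updateRow_ne (Finset.ne_of_mem_erase hi)]
  simp_rw [e2]
  rw [Finset.sum_comm, e1]
  have hp : ∀ σ : Equiv.Perm (Fin n), DifferentiableAt ℝ (fun z => ∏ i, M z i (σ i)) z :=
    fun σ => LC1_dprod Finset.univ fun i => hM i (σ i)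
  rw [LC1_sum Finset.univ (F := fun σ z => ((Equiv.Perm.sign σ : ℤ) : ℂ) * ∏ i, M z i (σ i)) (fun σ => (hp σ).const_mul _) v]
  refine Finset.sum_congr rfl fun σ _ => ?_
  rw [LC1_mul (differentiableAt_const _) (hp σ) v, LC1_const, mul_zero, add_zero,
    LC1_prod Finset.univ (fun i => hM i (σ i)) v, Finset.mul_sum]

private theorem LC1_swap {n : ℕ} (A : Matrix (Fin n) (Fin n) ℂ) (x y : Fin n → ℂ) {j r : Fin n} (h : j ≠ r) :
    ((A.updateRow j x).updateRow r y).det = -((A.updateRow r x).updateRow j y).det := by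
  have h1 := Matrix.det_permute (Equiv.swap j r) ((A.updateRow r x).updateRow j y)
  have h2 : ((A.updateRow r x).updateRow j y).submatrix (Equiv.swap j r) id = (A.updateRow j x).updateRow r y := by
    ext i c
    rw [Matrix.submatrix_apply, id]
    by_cases hij : i = j
    · subst hij
      rw [Equiv.swap_apply_left, Matrix.updateRow_ne h.symm, Matrix.updateRow_self, Matrix.updateRow_ne h, Matrix.updateRow_self]
    · by_cases hir : i = r
      · subst hir
        rw [Equiv.swap_apply_right, Matrix.updateRow_self, Matrix.updateRow_self]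
      · rw [Equiv.swap_apply_of_ne_of_ne hij hir, Matrix.updateRow_ne hij, Matrix.updateRow_ne hir, Matrix.updateRow_ne hir,
          Matrix.updateRow_ne hij]
  rw [h2, Equiv.Perm.sign_swap h] at h1
  rw [h1]
  simp

end

variable {H : Type*} [NormedAddCommGroup H] [NormedSpace ℂ H] [FiniteDimensional ℂ H] {n : ℕ}
  (e : Module.Basis (Fin n) ℂ H)

private theorem LC1_hasMt {b : H → Bil H} {z : H} (hb : DifferentiableAt ℝ b z) (j k : Fin n) :
    HasFDerivAt (fun z => Mt e (b z) j k)
      (Complex.ofRealCLM.comp (((fderiv ℝ b z).flip (e j)).flip (Complex.I • e k)) -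
        Complex.I • Complex.ofRealCLM.comp (((fderiv ℝ b z).flip (e j)).flip (e k))) z := by
  have h1 := (Complex.ofRealCLM.hasFDerivAt (x := b z (e j) (Complex.I • e k))).comp z (LC1_hasApp hb (e j) (Complex.I • e k))
  have h2 := (Complex.ofRealCLM.hasFDerivAt (x := b z (e j) (e k))).comp z (LC1_hasApp hb (e j) (e k))
  exact h1.sub (h2.const_mul Complex.I)

private theorem LC1_Mt {b : H → Bil H} {z : H} (hb : DifferentiableAt ℝ b z) (j k : Fin n) (v : H) :
    fderiv ℝ (fun z => Mt e (b z) j k) z v =
      ((fderiv ℝ b z v (e j) (Complex.I • e k) : ℝ) : ℂ) - Complex.I * ((fderiv ℝ b z v (e j) (e k) : ℝ) : ℂ) := by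
  rw [(LC1_hasMt e hb j k).fderiv]
  rfl

theorem closed_dz {b : H → Bil H} {z : H} (hb : ContDiffAt ℝ ∞ b z) (h11 : ∀ᶠ z' in 𝓝 z, O11 (b z'))
    (hcl : ∀ u v w : H, ext2 b z u v w = 0) (j k l : Fin n) :
    dz (e l) (fun z => Mt e (b z) j k) z = dz (e j) (fun z => Mt e (b z) l k) z := by
  have hd : DifferentiableAt ℝ b z := hb.differentiableAt (by simp)
  have hA := LC1_anti hd h11
  have hI := LC1_I hd h11
  have hJ := LC1_I2 hd h11
  have c1 := hcl (e l) (e j) (Complex.I • e k)
  have c2 := hcl (Complex.I • e l) (Complex.I • e j) (Complex.I • e k)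
  have c3 := hcl (e l) (e j) (e k)
  have c4 := hcl (Complex.I • e l) (Complex.I • e j) (e k)
  unfold ext2 at c1 c2 c3 c4
  rw [hI, hI, hI] at c2
  rw [hJ, hI, hA _ (Complex.I • e l) (e k), hJ] at c4
  have hre : fderiv ℝ b z (e l) (e j) (Complex.I • e k) - fderiv ℝ b z (Complex.I • e l) (e j) (e k) =
      fderiv ℝ b z (e j) (e l) (Complex.I • e k) - fderiv ℝ b z (Complex.I • e j) (e l) (e k) := by
    rw [hA (e j) (e l) (Complex.I • e k)] at c1
    rw [hA (Complex.I • e j) (e l) (e k)] at c2
    linarith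
  have him : fderiv ℝ b z (e l) (e j) (e k) + fderiv ℝ b z (Complex.I • e l) (e j) (Complex.I • e k) =
      fderiv ℝ b z (e j) (e l) (e k) + fderiv ℝ b z (Complex.I • e j) (e l) (Complex.I • e k) := by
    rw [hA (e j) (e l) (e k)] at c3
    linarith
  unfold dz
  rw [LC1_Mt e hd, LC1_Mt e hd, LC1_Mt e hd, LC1_Mt e hd]
  congr 1
  have hre' := congrArg (fun x : ℝ => (x : ℂ)) hre
  have him' := congrArg (fun x : ℝ => (x : ℂ)) him
  simp only [Complex.ofReal_sub, Complex.ofReal_add] at hre' him'
  linear_combination hre' - Complex.I * him' + (((fderiv ℝ b z (Complex.I • e l) (e j) (e k) : ℝ) : ℂ) -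
    ((fderiv ℝ b z (Complex.I • e j) (e l) (e k) : ℝ) : ℂ)) * Complex.I_mul_I

theorem piola {b : H → Bil H} {z : H} (hb : ContDiffAt ℝ ∞ b z) (h11 : ∀ᶠ z' in 𝓝 z, O11 (b z'))
    (hcl : ∀ u v w : H, ext2 b z u v w = 0) (k : Fin n) :
    ∑ j, dz (e j) (fun z => (Mt e (b z)).adjugate k j) z = 0 := by
  have hd : DifferentiableAt ℝ b z := hb.differentiableAt (by simp)
  have hM : ∀ j i c, DifferentiableAt ℝ (fun z => (Mt e (b z)).updateRow j (Pi.single k 1) i c) z := by
    intro j i c
    by_cases hij : i = j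
    · subst hij
      simp only [Matrix.updateRow_self]
      exact differentiableAt_const _
    · have e1 : (fun z => (Mt e (b z)).updateRow j (Pi.single k 1) i c) = fun z => Mt e (b z) i c := by
        funext z
        rw [Matrix.updateRow_ne hij]
      rw [e1]
      exact (LC1_hasMt e hd i c).differentiableAt
  have h1 : ∀ j, dz (e j) (fun z => (Mt e (b z)).adjugate k j) z =
      ∑ r, (((Mt e (b z)).updateRow j (Pi.single k 1)).updateRow r
        (fun c => dz (e j) (fun z => (Mt e (b z)).updateRow j (Pi.single k 1) r c) z)).det := by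
    intro j
    have e1 : (fun z => (Mt e (b z)).adjugate k j) = fun z => ((Mt e (b z)).updateRow j (Pi.single k 1)).det := by
      funext z
      exact Matrix.adjugate_apply _ _ _
    rw [e1]
    exact LC1_det (hM j) (e j)
  simp_rw [h1]
  have hT : ∀ j r, (((Mt e (b z)).updateRow j (Pi.single k 1)).updateRow r
        (fun c => dz (e j) (fun z => (Mt e (b z)).updateRow j (Pi.single k 1) r c) z)).det =
      -(((Mt e (b z)).updateRow r (Pi.single k 1)).updateRow j
        (fun c => dz (e r) (fun z => (Mt e (b z)).updateRow r (Pi.single k 1) j c) z)).det := by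
    intro j r
    by_cases hjr : j = r
    · subst hjr
      have e1 : (fun c => dz (e j) (fun z => (Mt e (b z)).updateRow j (Pi.single k 1) j c) z) = fun _ => 0 := by
        funext c
        simp only [Matrix.updateRow_self]
        exact LC1_const _ _ _
      rw [e1]
      have e2 : (((Mt e (b z)).updateRow j (Pi.single k 1)).updateRow j (fun _ => 0)).det = 0 := by
        refine Matrix.det_eq_zero_of_row_eq_zero j fun c => ?_
        rw [Matrix.updateRow_self]
      rw [e2, neg_zero]
    · have e1 : (fun c => dz (e j) (fun z => (Mt e (b z)).updateRow j (Pi.single k 1) r c) z) =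
          fun c => dz (e r) (fun z => (Mt e (b z)).updateRow r (Pi.single k 1) j c) z := by
        funext c
        have e3 : (fun z => (Mt e (b z)).updateRow j (Pi.single k 1) r c) = fun z => Mt e (b z) r c := by
          funext z
          rw [Matrix.updateRow_ne (Ne.symm hjr)]
        have e4 : (fun z => (Mt e (b z)).updateRow r (Pi.single k 1) j c) = fun z => Mt e (b z) j c := by
          funext z
          rw [Matrix.updateRow_ne hjr]
        rw [e3, e4]
        exact closed_dz e hb h11 hcl r c j
      rw [e1]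
      exact LC1_swap _ _ _ hjr
  have h2 : ∀ T : Fin n → Fin n → ℂ, (∀ j r, T j r = -T r j) → ∑ j, ∑ r, T j r = 0 := by
    intro T hTT
    have h3 : ∑ j, ∑ r, T j r = -∑ j, ∑ r, T j r := by
      calc ∑ j, ∑ r, T j r = ∑ j, ∑ r, -T r j := by
            refine Finset.sum_congr rfl fun j _ => Finset.sum_congr rfl fun r _ => hTT j r
        _ = -∑ j, ∑ r, T r j := by simp only [Finset.sum_neg_distrib]
        _ = -∑ j, ∑ r, T j r := by rw [Finset.sum_comm]
    exact self_eq_neg.1 h3
  exact h2 _ hT

end HDG
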