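import Pool.Agent.HDG.LC1
import Pool.Agent.HDG.LA4

/-!
# HDG/LC2: integration by parts

`parts`: integration by parts for `f cf e (b z) (ddc g z)` with `b` a closed field of type `(1,1)`. With `A_{kj} z = (Mt e (b z)).adjugate k j`
the derivatives `∂_j` of the compactly supported functions `f A_{kj} ∂̄_k g` have integral `0`, and `∑_j ∂_j A_{kj} = 0` by `piola`.
-/

set_option autoImplicit false

noncomputable section

open scoped ContDiff ComplexOrder Topology

open MeasureTheory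

namespace HDG

open Pool.Agent.FBR

section aux

variable {H : Type*} [NormedAddCommGroup H] [NormedSpace ℂ H]

private lemma LC2_dz_mul {F G : H → ℂ} {v z : H} (hF : DifferentiableAt ℝ F z) (hG : DifferentiableAt ℝ G z) :
    dz v (fun z => F z * G z) z = dz v F z * G z + F z * dz v G z := by
  have h : fderiv ℝ (fun z => F z * G z) z = F z • fderiv ℝ G z + G z • fderiv ℝ F z :=
    (hF.hasFDerivAt.mul hG.hasFDerivAt).fderiv
  simp only [dz, h, add_apply, smul_apply, smul_eq_mul]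
  ring

private lemma LC2_of {g : H → ℝ} {z : H} (hg : DifferentiableAt ℝ g z) (v : H) :
    fderiv ℝ (fun z => (g z : ℂ)) z v = ((fderiv ℝ g z v : ℝ) : ℂ) := by
  have h : HasFDerivAt (fun z => (g z : ℂ)) (Complex.ofRealCLM.comp (fderiv ℝ g z)) z :=
    Complex.ofRealCLM.hasFDerivAt.comp z hg.hasFDerivAt
  rw [h.fderiv]
  rfl

private lemma LC2_cdof {g : H → ℝ} (hg : ContDiff ℝ ∞ g) : ContDiff ℝ ∞ (fun z => (g z : ℂ)) :=
  Complex.ofRealCLM.contDiff.comp hg

private lemma LC2_cdD {F : Type*} [NormedAddCommGroup F] [NormedSpace ℝ F] {g : H → F} (hg : ContDiff ℝ ∞ g) (v : H) :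
    ContDiff ℝ ∞ (fun z => fderiv ℝ g z v) :=
  (hg.fderiv_right (m := ∞) (by simp)).clm_apply contDiff_const

private lemma LC2_cddz {F : H → ℂ} (hF : ContDiff ℝ ∞ F) (v : H) : ContDiff ℝ ∞ (dz v F) := by
  have h : dz v F = fun z => (1 / 2 : ℂ) * (fderiv ℝ F z v - Complex.I * fderiv ℝ F z (Complex.I • v)) := rfl
  rw [h]
  exact contDiff_const.mul ((LC2_cdD hF v).sub (contDiff_const.mul (LC2_cdD hF _)))

private lemma LC2_cddzb {F : H → ℂ} (hF : ContDiff ℝ ∞ F) (v : H) : ContDiff ℝ ∞ (dzb v F) := by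
  have h : dzb v F = fun z => (1 / 2 : ℂ) * (fderiv ℝ F z v + Complex.I * fderiv ℝ F z (Complex.I • v)) := rfl
  rw [h]
  exact contDiff_const.mul ((LC2_cdD hF v).add (contDiff_const.mul (LC2_cdD hF _)))

private lemma LC2_cdadj {n : ℕ} {M : H → Matrix (Fin n) (Fin n) ℂ} (hM : ∀ i j, ContDiff ℝ ∞ fun z => M z i j)
    (k j : Fin n) : ContDiff ℝ ∞ (fun z => (M z).adjugate k j) := by
  simp only [Matrix.adjugate_apply, Matrix.det_apply']
  refine ContDiff.sum fun σ _ => contDiff_const.mul ?_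
  refine contDiff_prod fun i _ => ?_
  simp only [Matrix.updateRow_apply]
  split_ifs
  · exact contDiff_const
  · exact hM _ _

private lemma LC2_cdMt {n : ℕ} (e : Module.Basis (Fin n) ℂ H) {b : H → Bil H} (hb : ContDiff ℝ ∞ b) (i j : Fin n) :
    ContDiff ℝ ∞ fun z => Mt e (b z) i j := by
  have h : ∀ u v : H, ContDiff ℝ ∞ fun z => ((b z u v : ℝ) : ℂ) := fun u v =>
    LC2_cdof ((hb.clm_apply contDiff_const).clm_apply contDiff_const)
  exact (h _ _).sub (contDiff_const.mul (h _ _))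

private lemma LC2_Mt {n : ℕ} (e : Module.Basis (Fin n) ℂ H) {g : H → ℝ} (hg : ContDiff ℝ ∞ g) (z : H) (j k : Fin n) :
    Mt e (ddc g z) j k = 2 * dz (e j) (dzb (e k) (fun z => (g z : ℂ))) z := by
  have hd : Differentiable ℝ g := hg.differentiable (by simp)
  have hd2 : Differentiable ℝ (fderiv ℝ g) := (hg.fderiv_right (m := ∞) (by simp)).differentiable (by simp)
  have h1 : dzb (e k) (fun z => (g z : ℂ)) = fun z => (1 / 2 : ℂ) * (((fderiv ℝ g z (e k) : ℝ) : ℂ) +
      Complex.I * ((fderiv ℝ g z (Complex.I • e k) : ℝ) : ℂ)) := by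
    funext z
    unfold dzb
    rw [LC2_of (hd z), LC2_of (hd z)]
  have h2 : ∀ v : H, HasFDerivAt (fun z => ((fderiv ℝ g z v : ℝ) : ℂ))
      (Complex.ofRealCLM.comp ((fderiv ℝ (fderiv ℝ g) z).flip v)) z := by
    intro v
    have h3 : HasFDerivAt (fun z => fderiv ℝ g z v) ((fderiv ℝ (fderiv ℝ g) z).flip v) z := by
      have h := (hd2 z).hasFDerivAt.clm_apply (hasFDerivAt_const v z)
      simpa using h
    exact Complex.ofRealCLM.hasFDerivAt.comp z h3
  have h4 : ∀ w : H, fderiv ℝ (dzb (e k) (fun z => (g z : ℂ))) z w = (1 / 2 : ℂ) *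
      (((fderiv ℝ (fderiv ℝ g) z w (e k) : ℝ) : ℂ) + Complex.I * ((fderiv ℝ (fderiv ℝ g) z w (Complex.I • e k) : ℝ) : ℂ)) := by
    intro w
    have h5 : HasFDerivAt (fun z => (1 / 2 : ℂ) * (((fderiv ℝ g z (e k) : ℝ) : ℂ) +
      Complex.I * ((fderiv ℝ g z (Complex.I • e k) : ℝ) : ℂ))) _ z :=
      ((h2 (e k)).add ((h2 (Complex.I • e k)).const_mul Complex.I)).const_mul (1 / 2 : ℂ)
    rw [h1, h5.fderiv]
    simp
    ring
  have hs : ∀ u v : H, fderiv ℝ (fderiv ℝ g) z u v = fderiv ℝ (fderiv ℝ g) z v u := by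
    intro u v
    have h' : ContDiffAt ℝ 2 g z := hg.contDiffAt.of_le (WithTop.coe_le_coe.2 (le_top : (2 : ℕ∞) ≤ ⊤))
    have h : IsSymmSndFDerivAt ℝ g z := h'.isSymmSndFDerivAt (by simp)
    exact h u v
  have hI : Complex.I • Complex.I • e k = - e k := by
    rw [smul_smul, Complex.I_mul_I, neg_smul, one_smul]
  unfold dz
  rw [h4, h4]
  unfold Mt
  rw [ddc_apply, ddc_apply, hI, hs (Complex.I • e k) (e j), map_neg, neg_apply, hs (e k) (e j)]
  push_cast
  linear_combination (1 / 2 : ℂ) * ((fderiv ℝ (fderiv ℝ g) z (Complex.I • e j) (Complex.I • e k) : ℝ) : ℂ) * Complex.I_sq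

end aux

variable {H : Type*} [NormedAddCommGroup H] [NormedSpace ℂ H] [FiniteDimensional ℂ H] {n : ℕ}
  (e : Module.Basis (Fin n) ℂ H) [MeasurableSpace H] [BorelSpace H] (μ : Measure H) [μ.IsAddHaarMeasure]

private lemma LC2_int0 {F : H → ℂ} (hF : ContDiff ℝ ∞ F) (hc : HasCompactSupport F) (v : H) :
    Integrable (fun z => fderiv ℝ F z v) μ ∧ ∫ z, fderiv ℝ F z v ∂μ = 0 := by
  have h1 : Integrable (fun z => fderiv ℝ F z v) μ := by
    refine (LC2_cdD hF v).continuous.integrable_of_hasCompactSupport ?_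
    exact (hc.fderiv (𝕜 := ℝ)).comp_left (g := fun T : H →L[ℝ] ℂ => T v) rfl
  refine ⟨h1, ?_⟩
  have h2 : Integrable F μ := hF.continuous.integrable_of_hasCompactSupport hc
  have h3 := integral_bilinear_hasLineDerivAt_right_eq_neg_left_of_integrable (μ := μ)
    (f := fun _ : H => (1 : ℝ)) (f' := fun _ => (0 : ℝ)) (g := F) (g' := fun z => fderiv ℝ F z v) (v := v)
    (B := ContinuousLinearMap.lsmul ℝ ℝ) (by simp) (by simpa using h1) (by simpa using h2)
    (fun x _ => by
      have := (hasFDerivAt_const (𝕜 := ℝ) (1 : ℝ) x).hasLineDerivAt v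
      simpa using this)
    (fun x _ => ((hF.differentiable (by simp)) x).hasFDerivAt.hasLineDerivAt v)
  simpa using h3

private lemma LC2_dz0 {F : H → ℂ} (hF : ContDiff ℝ ∞ F) (hc : HasCompactSupport F) (v : H) :
    Integrable (dz v F) μ ∧ ∫ z, dz v F z ∂μ = 0 := by
  have h1 := LC2_int0 μ hF hc v
  have h2 := LC2_int0 μ hF hc (Complex.I • v)
  have h : dz v F = fun z => (1 / 2 : ℂ) * (fderiv ℝ F z v - Complex.I * fderiv ℝ F z (Complex.I • v)) := rfl
  rw [h]
  refine ⟨(h1.1.sub (h2.1.const_mul Complex.I)).const_mul _, ?_⟩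
  rw [integral_const_mul, integral_sub h1.1 (h2.1.const_mul Complex.I), integral_const_mul, h1.2, h2.2]
  simp

theorem parts {b : H → Bil H} (hb : ContDiff ℝ ∞ b) (h11 : ∀ z, O11 (b z)) {U : Set H} (hU : IsOpen U)
    (hcl : ∀ z ∈ U, ∀ u v w : H, ext2 b z u v w = 0) {f g : H → ℝ} (hf : ContDiff ℝ ∞ f) (hg : ContDiff ℝ ∞ g)
    (hs : HasCompactSupport fun z => f z * g z) (hfU : tsupport (fun z => f z * g z) ⊆ U)
    (hor : HasCompactSupport f ∧ tsupport f ⊆ U ∨ HasCompactSupport g ∧ tsupport g ⊆ U) :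
    ∫ z, f z * cf e (b z) (ddc g z) ∂μ = ∫ z, - 2 * (∑ j, ∑ k, (Mt e (b z)).adjugate k j *
      dz (e j) (fun z => (f z : ℂ)) z * dzb (e k) (fun z => (g z : ℂ)) z).re ∂μ := by
  classical
  have hfC := LC2_cdof hf
  have hgC := LC2_cdof hg
  have hA : ∀ k j, ContDiff ℝ ∞ (fun z => (Mt e (b z)).adjugate k j) := fun k j =>
    LC2_cdadj (fun i j => LC2_cdMt e hb i j) k j
  -- products of something supported in `f` and something supported in `g`
  have hcs : ∀ (P Q R : H → ℂ), (∀ z, z ∉ tsupport f → P z = 0) → (∀ z, z ∉ tsupport g → R z = 0) →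
      HasCompactSupport (fun z => P z * Q z * R z) := by
    intro P Q R hP hR
    rcases hor with h | h
    · refine HasCompactSupport.intro h.1 fun z hz => ?_
      rw [hP z hz]; ring
    · refine HasCompactSupport.intro h.1 fun z hz => ?_
      rw [hR z hz]; ring
  have hf0 : ∀ z, z ∉ tsupport f → (f z : ℂ) = 0 := by
    intro z hz
    rw [image_eq_zero_of_notMem_tsupport hz]; simp
  have hfd : ∀ (g : H → ℝ) z, z ∉ tsupport g → fderiv ℝ (fun z => (g z : ℂ)) z = 0 := by
    intro g z hz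
    have h1 : g =ᶠ[𝓝 z] fun _ => 0 := notMem_tsupport_iff_eventuallyEq.1 hz
    have h2 : (fun z => (g z : ℂ)) =ᶠ[𝓝 z] fun _ => (0 : ℂ) := by
      filter_upwards [h1] with y hy
      rw [hy]; simp
    rw [h2.fderiv_eq]
    simp
  have hfz : ∀ j z, z ∉ tsupport f → dz (e j) (fun z => (f z : ℂ)) z = 0 := by
    intro j z hz
    unfold dz
    rw [hfd f z hz]; simp
  have hgz : ∀ k z, z ∉ tsupport g → dzb (e k) (fun z => (g z : ℂ)) z = 0 := by
    intro j z hz
    unfold dzb
    rw [hfd g z hz]; simp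
  set F : Fin n → Fin n → H → ℂ := fun j k z =>
    (f z : ℂ) * (Mt e (b z)).adjugate k j * dzb (e k) (fun z => (g z : ℂ)) z with hFdef
  have hFc : ∀ j k, ContDiff ℝ ∞ (F j k) := fun j k => (hfC.mul (hA k j)).mul (LC2_cddzb hgC _)
  have hFs : ∀ j k, HasCompactSupport (F j k) := fun j k => hcs _ _ _ hf0 (hgz k)
  have h0 : ∀ j k, Integrable (dz (e j) (F j k)) μ ∧ ∫ z, dz (e j) (F j k) z ∂μ = 0 := fun j k =>
    LC2_dz0 μ (hFc j k) (hFs j k) (e j)
  -- the pointwise identity
  have hpt : ∀ z, f z * cf e (b z) (ddc g z) = (2 * ∑ k, ∑ j, dz (e j) (F j k) z).re +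
      - 2 * (∑ j, ∑ k, (Mt e (b z)).adjugate k j *
      dz (e j) (fun z => (f z : ℂ)) z * dzb (e k) (fun z => (g z : ℂ)) z).re := by
    intro z
    have h1 : ∀ j k, dz (e j) (F j k) z =
        (Mt e (b z)).adjugate k j * dz (e j) (fun z => (f z : ℂ)) z * dzb (e k) (fun z => (g z : ℂ)) z +
        (f z : ℂ) * dzb (e k) (fun z => (g z : ℂ)) z * dz (e j) (fun z => (Mt e (b z)).adjugate k j) z +
        (1 / 2 : ℂ) * ((f z : ℂ) * ((Mt e (b z)).adjugate k j * Mt e (ddc g z) j k)) := by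
      intro j k
      have d1 := hfC.differentiable (by simp) z
      have d2 := (hA k j).differentiable (by simp) z
      have d3 := (LC2_cddzb hgC (e k)).differentiable (by simp) z
      have h := LC2_dz_mul (v := e j) (d1.mul d2) d3
      have h' := LC2_dz_mul (v := e j) d1 d2
      have h'' := LC2_Mt e hg z j k
      have e1 : dz (e j) (F j k) z = dz (e j) (fun z => ((f z : ℂ) * (Mt e (b z)).adjugate k j) *
        dzb (e k) (fun z => (g z : ℂ)) z) z := rfl
      have e2 : dz (e j) ((fun z => (f z : ℂ)) * fun z => (Mt e (b z)).adjugate k j) z =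
        dz (e j) (fun z => (f z : ℂ) * (Mt e (b z)).adjugate k j) z := rfl
      rw [e1]
      simp only [Pi.mul_apply] at h
      rw [h, e2, h', h'']
      ring
    have h2 : ∀ k, (f z : ℂ) * dzb (e k) (fun z => (g z : ℂ)) z *
        ∑ j, dz (e j) (fun z => (Mt e (b z)).adjugate k j) z = 0 := by
      intro k
      by_cases hz : z ∈ U
      · rw [piola e hb.contDiffAt (Filter.Eventually.of_forall h11) (hcl z hz) k, mul_zero]
      · rcases hor with h | h
        · rw [hf0 z fun h' => hz (h.2 h')]; ring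
        · rw [hgz k z fun h' => hz (h.2 h')]; ring
    have h3 : ∑ k, ∑ j, dz (e j) (F j k) z =
        (∑ j, ∑ k, (Mt e (b z)).adjugate k j *
          dz (e j) (fun z => (f z : ℂ)) z * dzb (e k) (fun z => (g z : ℂ)) z) +
        (1 / 2 : ℂ) * ((f z : ℂ) * ((Mt e (b z)).adjugate * Mt e (ddc g z)).trace) := by
      have h4 : ((Mt e (b z)).adjugate * Mt e (ddc g z)).trace =
          ∑ k, ∑ j, (Mt e (b z)).adjugate k j * Mt e (ddc g z) j k := rfl
      have h5 : ∀ k, ∑ j, dz (e j) (F j k) z = (∑ j, (Mt e (b z)).adjugate k j *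
          dz (e j) (fun z => (f z : ℂ)) z * dzb (e k) (fun z => (g z : ℂ)) z) +
          (1 / 2 : ℂ) * ((f z : ℂ) * ∑ j, ((Mt e (b z)).adjugate k j * Mt e (ddc g z) j k)) := by
        intro k
        simp only [h1, Finset.sum_add_distrib, ← Finset.mul_sum]
        rw [h2 k]; ring
      simp only [h5, Finset.sum_add_distrib, ← Finset.mul_sum]
      rw [h4, Finset.sum_comm (f := fun k j => (Mt e (b z)).adjugate k j *
          dz (e j) (fun z => (f z : ℂ)) z * dzb (e k) (fun z => (g z : ℂ)) z)]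
    unfold cf
    rw [h3]
    have h6 : f z * ((Mt e (b z)).adjugate * Mt e (ddc g z)).trace.re =
        ((f z : ℂ) * ((Mt e (b z)).adjugate * Mt e (ddc g z)).trace).re := by
      rw [Complex.re_ofReal_mul]
    rw [h6]
    generalize (f z : ℂ) * ((Mt e (b z)).adjugate * Mt e (ddc g z)).trace = T
    generalize (∑ j, ∑ k, (Mt e (b z)).adjugate k j *
          dz (e j) (fun z => (f z : ℂ)) z * dzb (e k) (fun z => (g z : ℂ)) z) = S
    simp [Complex.mul_re, Complex.add_re]
    ring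
  simp only [hpt]
  have hI1 : Integrable (fun z => (2 * ∑ k, ∑ j, dz (e j) (F j k) z)) μ := by
    refine Integrable.const_mul ?_ _
    refine integrable_finsetSum _ fun k _ => integrable_finsetSum _ fun j _ => (h0 j k).1
  have hI2 : Integrable (fun z => (∑ j, ∑ k, (Mt e (b z)).adjugate k j *
      dz (e j) (fun z => (f z : ℂ)) z * dzb (e k) (fun z => (g z : ℂ)) z)) μ := by
    refine integrable_finsetSum _ fun j _ => integrable_finsetSum _ fun k _ => ?_
    have hc : HasCompactSupport (fun z => dz (e j) (fun z => (f z : ℂ)) z * (Mt e (b z)).adjugate k j *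
      dzb (e k) (fun z => (g z : ℂ)) z) := hcs _ _ _ (hfz j) (hgz k)
    have hcd : ContDiff ℝ ∞ (fun z => dz (e j) (fun z => (f z : ℂ)) z * (Mt e (b z)).adjugate k j *
      dzb (e k) (fun z => (g z : ℂ)) z) := ((LC2_cddz hfC _).mul (hA k j)).mul (LC2_cddzb hgC _)
    have hi := hcd.continuous.integrable_of_hasCompactSupport (μ := μ) hc
    refine hi.congr (Filter.Eventually.of_forall fun z => ?_)
    simp only
    ring
  have hR1 : Integrable (fun z => (2 * ∑ k, ∑ j, dz (e j) (F j k) z).re) μ := hI1.re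
  have hR2 : Integrable (fun z => - 2 * (∑ j, ∑ k, (Mt e (b z)).adjugate k j *
      dz (e j) (fun z => (f z : ℂ)) z * dzb (e k) (fun z => (g z : ℂ)) z).re) μ := hI2.re.const_mul _
  have h7 : ∫ z, (2 * ∑ k, ∑ j, dz (e j) (F j k) z).re ∂μ = 0 := by
    have h8 : ∫ z, (2 * ∑ k, ∑ j, dz (e j) (F j k) z).re ∂μ = (∫ z, (2 * ∑ k, ∑ j, dz (e j) (F j k) z) ∂μ).re :=
      integral_re hI1
    have h9 : ∫ z, (2 * ∑ k, ∑ j, dz (e j) (F j k) z) ∂μ = 0 := by
      rw [integral_const_mul, integral_finsetSum _ fun k _ => integrable_finsetSum _ fun j _ => (h0 j k).1]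
      have : ∀ k, ∫ z, ∑ j, dz (e j) (F j k) z ∂μ = 0 := by
        intro k
        rw [integral_finsetSum _ fun j _ => (h0 j k).1]
        exact Finset.sum_eq_zero fun j _ => (h0 j k).2
      simp [this]
    rw [h8, h9]; rfl
  rw [integral_add hR1 hR2, h7, zero_add]

end HDG
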