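import Pool.Agent.HDG.LC6

/-!
# HDG/LC3: the determinant along a segment

The derivative of `s ↦ dt (b + s ddc f)` is `cf (b + s ddc f) (ddc f)`; Fubini and the integrations by parts `S1`, `S2`, `S3`
for the closed form `b + s • ddc f`.
-/

set_option autoImplicit false

noncomputable section

open scoped ContDiff ComplexOrder Topology

open MeasureTheory

namespace HDG

open Pool.Agent.FBR

variable {H : Type*} [NormedAddCommGroup H] [NormedSpace ℂ H] [FiniteDimensional ℂ H] {n : ℕ}
  (e : Module.Basis (Fin n) ℂ H) [MeasurableSpace H] [BorelSpace H] (μ : Measure H) [μ.IsAddHaarMeasure]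

/-- `b` is a smooth field of forms, closed on `U` -/
structure Fld (b : H → Bil H) (U : Set H) : Prop where
  sm : ContDiff ℝ ∞ b
  oo : ∀ z, O11 (b z)
  cl : ∀ z ∈ U, ∀ u v w : H, ext2 b z u v w = 0

omit [FiniteDimensional ℂ H] [MeasurableSpace H] [BorelSpace H] in
private theorem LC3_dd {f : H → ℝ} (hf : ContDiff ℝ ∞ f) : ContDiff ℝ ∞ (ddc f) :=
  contDiff_iff_contDiffAt.2 fun _ => ddc_smooth hf.contDiffAt

set_option maxSynthPendingDepth 3 in
theorem Fld.add_ddc {b : H → Bil H} {U : Set H} (hb : Fld b U) {f : H → ℝ} (hf : ContDiff ℝ ∞ f) (s : ℝ) :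
    Fld (fun z => b z + s • ddc f z) U where
  sm := hb.sm.add (show ContDiff ℝ ∞ fun z => s • ddc f z from (LC3_dd hf).const_smul s)
  oo z := O11_add (hb.oo z) (O11_smul s (O11_ddc (hf.contDiffAt.of_le (by norm_cast))))
  cl z hz u v w := by
    have hbd : DifferentiableAt ℝ b z := (hb.sm.differentiable (by simp)) z
    have hdd : DifferentiableAt ℝ (ddc f) z := ((LC3_dd hf).differentiable (by simp)) z
    have h1 : fderiv ℝ (fun z => b z + s • ddc f z) z = fderiv ℝ b z + s • fderiv ℝ (ddc f) z := by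
      have h5 : HasFDerivAt (fun z => s • ddc f z) (s • fderiv ℝ (ddc f) z) z := hdd.hasFDerivAt.const_smul s
      exact (hbd.hasFDerivAt.add h5).fderiv
    have h2 := hb.cl z hz u v w
    have h3 := ddc_closed (hf.contDiffAt (x := z)) u v w
    unfold ext2 at h2 h3 ⊢
    rw [h1]
    have h4 : ∀ x y y' : H, (fderiv ℝ b z + s • fderiv ℝ (ddc f) z) x y y' =
        fderiv ℝ b z x y y' + s * fderiv ℝ (ddc f) z x y y' := fun x y y' => by
      simp
    rw [h4, h4, h4]
    linear_combination h2 + s * h3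

set_option maxSynthPendingDepth 3 in
theorem Fld.add_w0 {b : H → Bil H} {U : Set H} (hb : Fld b U) (s : ℝ) :
    Fld (fun z => b z + s • w0 e) U where
  sm := hb.sm.add contDiff_const
  oo z := O11_add (hb.oo z) (O11_smul s (w0_O11 e))
  cl z hz u v w := by
    have h1 : fderiv ℝ (fun z => b z + s • (w0 e : Bil H)) z = fderiv ℝ b z := by
      rw [fderiv_add_const]
    have h2 := hb.cl z hz u v w
    unfold ext2 at h2 ⊢
    rw [h1]
    exact h2

private theorem LC3_swap {K : Set H} (hK : IsCompact K) {F : ℝ → H → ℝ} (hF : Continuous fun p : ℝ × H => F p.1 p.2)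
    (h0 : ∀ s, ∀ z ∉ K, F s z = 0) {a c : ℝ} (hac : a ≤ c) :
    ∫ z, (∫ s in a..c, F s z) ∂μ = ∫ s in a..c, (∫ z, F s z ∂μ) := by
  have : ProperSpace H := FiniteDimensional.proper ℂ H
  have h1 : ∀ s, ∫ z, F s z ∂μ = ∫ z in K, F s z ∂μ := fun s =>
    (setIntegral_eq_integral_of_forall_compl_eq_zero fun z hz => h0 s z hz).symm
  have h2 : ∫ z, (∫ s in a..c, F s z) ∂μ = ∫ z in K, (∫ s in a..c, F s z) ∂μ :=
    (setIntegral_eq_integral_of_forall_compl_eq_zero fun z hz => by simp [h0 _ z hz]).symm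
  rw [h2]
  simp_rw [h1, intervalIntegral.integral_of_le hac]
  refine integral_integral_swap (f := fun z s => F s z) ?_
  have h3 : IntegrableOn (fun p : H × ℝ => F p.2 p.1) (K ×ˢ Set.Icc a c) (μ.prod volume) :=
    (hF.comp continuous_swap).continuousOn.integrableOn_compact (hK.prod isCompact_Icc)
  have h4 := h3.mono_set (Set.prod_mono_right Set.Ioc_subset_Icc_self)
  rw [IntegrableOn, ← Measure.prod_restrict] at h4
  exact h4

omit [MeasurableSpace H] [BorelSpace H] in
private theorem LC3_ccf {T : Type*} [TopologicalSpace T] {P Q : T → Bil H} (hP : Continuous P) (hQ : Continuous Q) :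
    Continuous fun z => cf e (P z) (Q z) := by
  have h1 : Continuous fun p : Bil H × Bil H => cf e p.1 p.2 := (cf_smooth e).continuous
  have h2 : Continuous fun z => (P z, Q z) := hP.prodMk hQ
  exact Continuous.comp (g := fun p : Bil H × Bil H => cf e p.1 p.2) (f := fun z => (P z, Q z)) h1 h2

omit [MeasurableSpace H] [BorelSpace H] in
set_option maxSynthPendingDepth 3 in
private theorem LC3_ftc (a s : Bil H) (x y : ℝ) :
    dt e (a + y • s) - dt e (a + x • s) = ∫ r in x..y, cf e (a + r • s) s := by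
  refine (intervalIntegral.integral_eq_sub_of_hasDerivAt (fun r _ => hasDerivAt_dt e a s r) ?_).symm
  have h1 : Continuous fun r : ℝ => a + r • s := continuous_const.add (continuous_id.smul continuous_const)
  exact (LC3_ccf e h1 continuous_const).intervalIntegrable _ _

omit [FiniteDimensional ℂ H] [MeasurableSpace H] [BorelSpace H] in
set_option maxSynthPendingDepth 3 in
private theorem LC3_seg {b : H → Bil H} (hb : ContDiff ℝ ∞ b) {f : H → ℝ} (hf : ContDiff ℝ ∞ f) :
    Continuous fun p : ℝ × H => b p.2 + p.1 • ddc f p.2 := by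
  have h1 : Continuous (ddc f) := (LC3_dd hf).continuous
  have h3 : Continuous fun p : ℝ × H => ddc f p.2 := h1.comp continuous_snd
  have h4 : Continuous fun p : ℝ × H => b p.2 := hb.continuous.comp continuous_snd
  exact h4.add (continuous_fst.smul h3)

omit [MeasurableSpace H] [BorelSpace H] in
private theorem LC3_cont {b : H → Bil H} (hb : ContDiff ℝ ∞ b) {f : H → ℝ} (hf : ContDiff ℝ ∞ f) :
    Continuous fun p : ℝ × H => cf e (b p.2 + p.1 • ddc f p.2) (ddc f p.2) :=
  LC3_ccf e (LC3_seg hb hf) ((LC3_dd hf).continuous.comp continuous_snd)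

omit [FiniteDimensional ℂ H] [MeasurableSpace H] [BorelSpace H] in
set_option maxSynthPendingDepth 3 in
private theorem LC3_01 (a s : Bil H) : a + (1 : ℝ) • s = a + s ∧ a + (0 : ℝ) • s = a := by
  constructor
  · rw [one_smul]
  · rw [zero_smul, add_zero]

omit [FiniteDimensional ℂ H] [MeasurableSpace H] [BorelSpace H] in
private theorem LC3_sup {f : H → ℝ} {z : H} (hz : z ∉ tsupport f) : ddc f z = 0 := by
  have h1 : f =ᶠ[𝓝 z] fun _ => (0 : ℝ) := notMem_tsupport_iff_eventuallyEq.1 hz
  rw [ddc_congr h1]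
  ext u v
  rw [ddc_apply]
  simp

omit [MeasurableSpace H] [BorelSpace H] in
set_option maxSynthPendingDepth 3 in
private theorem LC3_z (a : Bil H) : cf e a (0 : Bil H) = 0 := by
  have h := cf_smul e a 0 (0 : Bil H)
  rwa [smul_zero, zero_mul] at h

theorem path {b : H → Bil H} {U : Set H} (hU : IsOpen U) (hb : Fld b U) {f χ : H → ℝ}
    (hf : ContDiff ℝ ∞ f) (hχ : ContDiff ℝ ∞ χ) (hc : HasCompactSupport χ) (hs : tsupport χ ⊆ U) :
    ∫ z, χ z * (dt e (b z + ddc f z) - dt e (b z)) ∂μ =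
      ∫ s in (0 : ℝ)..1, ∫ z, f z * cf e (b z + s • ddc f z) (ddc χ z) ∂μ := by
  have h1 : ∀ z, χ z * (dt e (b z + ddc f z) - dt e (b z)) =
      ∫ s in (0 : ℝ)..1, χ z * cf e (b z + s • ddc f z) (ddc f z) := fun z => by
    rw [intervalIntegral.integral_const_mul, ← LC3_ftc, (LC3_01 _ _).1, (LC3_01 _ _).2]
  simp_rw [h1]
  rw [LC3_swap μ (K := tsupport χ) hc (F := fun s z => χ z * cf e (b z + s • ddc f z) (ddc f z)) ?_ ?_ zero_le_one]
  · refine intervalIntegral.integral_congr fun s _ => ?_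
    have hbs := hb.add_ddc hf s
    exact S1 e μ hbs.sm hbs.oo hU hbs.cl hχ hf hc hs
  · exact (hχ.continuous.comp continuous_snd).mul (LC3_cont e hb.sm hf)
  · intro s z hz
    rw [image_eq_zero_of_notMem_tsupport hz, zero_mul]

theorem path' {b : H → Bil H} {U : Set H} (hU : IsOpen U) (hb : Fld b U) {f : H → ℝ}
    (hf : ContDiff ℝ ∞ f) (hc : HasCompactSupport f) (hs : tsupport f ⊆ U) :
    ∫ z, (dt e (b z + ddc f z) - dt e (b z)) ∂μ = 0 := by
  have h1 : ∀ z, dt e (b z + ddc f z) - dt e (b z) =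
      ∫ s in (0 : ℝ)..1, cf e (b z + s • ddc f z) (ddc f z) := fun z => by
    rw [← LC3_ftc, (LC3_01 _ _).1, (LC3_01 _ _).2]
  simp_rw [h1]
  rw [LC3_swap μ (K := tsupport f) hc (F := fun s z => cf e (b z + s • ddc f z) (ddc f z)) ?_ ?_ zero_le_one]
  · have h2 : ∀ s : ℝ, ∫ z, cf e (b z + s • ddc f z) (ddc f z) ∂μ = 0 := fun s => by
      have hbs := hb.add_ddc hf s
      exact S2 e μ hbs.sm hbs.oo hU hbs.cl hf hc hs
    simp_rw [h2]
    simp
  · exact LC3_cont e hb.sm hf
  · intro s z hz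
    rw [LC3_sup hz]
    exact LC3_z e _

set_option maxSynthPendingDepth 3 in
/-- for `b ≥ 0`, `b + ddc f ≥ 0` the integral of `f dt (b + s ddc f)` is nonincreasing in `s` -/
theorem path_f {b : H → Bil H} {U : Set H} (hU : IsOpen U) (hb : Fld b U) {f : H → ℝ}
    (hf : ContDiff ℝ ∞ f) (hc : HasCompactSupport f) (hs : tsupport f ⊆ U)
    (h0 : ∀ z ∈ U, Nn (b z)) (h1 : ∀ z ∈ U, Nn (b z + ddc f z)) {s : ℝ} (hs0 : 0 ≤ s) (hs1 : s ≤ 1) :
    ∫ z, f z * dt e (b z + ddc f z) ∂μ ≤ ∫ z, f z * dt e (b z + s • ddc f z) ∂μ := by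
  have : ProperSpace H := FiniteDimensional.proper ℂ H
  have hint : ∀ r : ℝ, Integrable (fun z => f z * dt e (b z + r • ddc f z)) μ := fun r => by
    refine Continuous.integrable_of_hasCompactSupport ?_ hc.mul_right
    have h1 : Continuous fun z => b z + r • ddc f z := (hb.add_ddc hf r).sm.continuous
    exact hf.continuous.mul (Continuous.comp (g := dt e) (dt_smooth e).continuous h1)
  have hint1 : Integrable (fun z => f z * dt e (b z + ddc f z)) μ := by
    have h := hint 1
    simp only [(LC3_01 _ _).1] at h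
    exact h
  have h2 : ∫ z, f z * dt e (b z + ddc f z) ∂μ - ∫ z, f z * dt e (b z + s • ddc f z) ∂μ =
      ∫ z, (∫ r in s..1, f z * cf e (b z + r • ddc f z) (ddc f z)) ∂μ := by
    rw [← integral_sub hint1 (hint s)]
    refine integral_congr_ae (Filter.Eventually.of_forall fun z => ?_)
    show f z * dt e (b z + ddc f z) - f z * dt e (b z + s • ddc f z) =
      ∫ (r : ℝ) in s..1, f z * cf e (b z + r • ddc f z) (ddc f z)
    rw [intervalIntegral.integral_const_mul, ← LC3_ftc, (LC3_01 _ _).1]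
    ring
  have h3 : ∫ z, (∫ r in s..1, f z * cf e (b z + r • ddc f z) (ddc f z)) ∂μ =
      ∫ r in s..1, ∫ z, f z * cf e (b z + r • ddc f z) (ddc f z) ∂μ := by
    refine LC3_swap μ (K := tsupport f) hc ?_ ?_ hs1
    · exact (hf.continuous.comp continuous_snd).mul (LC3_cont e hb.sm hf)
    · intro r z hz
      rw [image_eq_zero_of_notMem_tsupport hz, zero_mul]
  have h4 : ∫ r in s..1, ∫ z, f z * cf e (b z + r • ddc f z) (ddc f z) ∂μ ≤ 0 := by
    rw [← neg_nonneg, ← intervalIntegral.integral_neg]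
    refine intervalIntegral.integral_nonneg hs1 fun r hr => neg_nonneg.2 ?_
    have hbs := hb.add_ddc hf r
    refine S3 e μ hbs.sm hbs.oo hU hbs.cl (fun z hz v => ?_) hf hc hs
    have h5 := h0 z hz v
    have h6 := h1 z hz v
    have h7 : (b z + r • ddc f z) v (Complex.I • v) = (1 - r) * b z v (Complex.I • v) +
        r * (b z + ddc f z) v (Complex.I • v) := by
      simp
      ring
    rw [h7]
    have h8 : 0 ≤ r := hs0.trans hr.1
    have h9 : 0 ≤ 1 - r := sub_nonneg.2 hr.2
    positivity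
  linarith [h2, h3, h4]

end HDG
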