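import Pool.Agent.HDG.LC3
import Pool.Agent.HDG.RMd

/-!
# HDG/LC4: the mass bound

The form `b + dd^c φ` is compared with `b + dd^c q`, `q` a multiple of `qf - ρ`: the regularised maximum of `φ` and `q` is `φ`
on the small ball and `q` near the boundary of the large one, so the total masses agree (`path'`).
-/

set_option autoImplicit false

noncomputable section

open scoped ContDiff ComplexOrder Topology

open MeasureTheory

namespace HDG

open Pool.Agent.FBR

variable {H : Type*} [NormedAddCommGroup H] [NormedSpace ℂ H] [FiniteDimensional ℂ H] {n : ℕ}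
  (e : Module.Basis (Fin n) ℂ H) [MeasurableSpace H] [BorelSpace H] (μ : Measure H) [μ.IsAddHaarMeasure]

omit [FiniteDimensional ℂ H] [MeasurableSpace H] [BorelSpace H] in
private theorem LC4_add0 (a : Bil H) : a + 0 = a := by
  ext u v
  show a u v + 0 = a u v
  ring

omit [FiniteDimensional ℂ H] [MeasurableSpace H] [BorelSpace H] in
private theorem LC4_norm (a b : Bil H) : ‖a + b‖ ≤ ‖a‖ + ‖b‖ := norm_add_le a b

omit [MeasurableSpace H] [BorelSpace H] in
/-- the smooth function which is the difference of the regularised maximum and `q` inside the ball -/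
private theorem LC4_glue {R r2 : ℝ} (h2 : 0 < r2) (h2R : r2 < R) {φ q : H → ℝ} (hφ : ContDiff ℝ ∞ φ)
    (hq : ContDiff ℝ ∞ q) (hqr : ∀ z ∈ qb e R, r2 ^ 2 < qf e z → φ z + 1 ≤ q z) :
    ∃ f : H → ℝ, ContDiff ℝ ∞ f ∧ (∀ z ∈ qb e R, f z = rm 1 (φ z) (q z) - q z) ∧
      ∀ z, r2 ^ 2 < qf e z → f z = 0 := by
  classical
  refine ⟨fun z => if z ∈ qb e R then rm 1 (φ z) (q z) - q z else 0, ?_, ?_, ?_⟩
  · rw [contDiff_iff_contDiffAt]
    intro z
    by_cases hz : z ∈ qb e R
    · have h1 : ContDiffAt ℝ ∞ (fun z => rm 1 (φ z) (q z) - q z) z :=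
        (rm_cd hφ.contDiffAt hq.contDiffAt).sub hq.contDiffAt
      refine h1.congr_of_eventuallyEq ?_
      filter_upwards [(isOpen_qb e R).mem_nhds hz] with y hy
      rw [if_pos hy]
    · have h1 : ContDiffAt ℝ ∞ (fun _ : H => (0 : ℝ)) z := contDiffAt_const
      refine h1.congr_of_eventuallyEq ?_
      have hz' : r2 ^ 2 < qf e z := by
        have h3 : ¬ qf e z < R ^ 2 := hz
        have h4 : r2 ^ 2 < R ^ 2 := by
          apply pow_lt_pow_left₀ h2R h2.le (by norm_num)
        linarith [not_lt.1 h3]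
      have h5 : ∀ᶠ y in 𝓝 z, r2 ^ 2 < qf e y :=
        (qf_smooth e).continuous.continuousAt.eventually (lt_mem_nhds hz')
      filter_upwards [h5] with y hy
      by_cases hyR : y ∈ qb e R
      · rw [if_pos hyR, rm_right one_pos (hqr y hyR hy), sub_self]
      · rw [if_neg hyR]
  · intro z hz
    show (if z ∈ qb e R then rm 1 (φ z) (q z) - q z else 0) = _
    rw [if_pos hz]
  · intro z hz
    show (if z ∈ qb e R then rm 1 (φ z) (q z) - q z else 0) = _
    by_cases hzR : z ∈ qb e R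
    · rw [if_pos hzR, rm_right one_pos (hqr z hzR hz), sub_self]
    · rw [if_neg hzR]

omit [FiniteDimensional ℂ H] [MeasurableSpace H] [BorelSpace H] in
/-- `dd^c` of a sum, for two smooth functions which are only compared near a point -/
private theorem LC4_split {f q ψ : H → ℝ} {z : H} (hf : ContDiff ℝ ∞ f) (hq : ContDiff ℝ ∞ q)
    (h : ∀ᶠ y in 𝓝 z, ψ y = f y + q y) : ddc ψ z = ddc f z + ddc q z := by
  have h2 : (2 : WithTop ℕ∞) ≤ ∞ := by norm_cast
  have h1 : ψ =ᶠ[𝓝 z] fun y => f y + q y := h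
  rw [ddc_congr h1, ddc_add (hf.contDiffAt.of_le h2) (hq.contDiffAt.of_le h2)]

theorem mass_bound {r R : ℝ} (hr : 0 < r) (hR : r < R) (O A : ℝ) : ∃ C : ℝ, 0 ≤ C ∧
    ∀ (b : H → Bil H) (φ : H → ℝ), Fld b (qb e R) → (∀ z ∈ qb e R, ‖b z‖ ≤ A) → ContDiff ℝ ∞ φ →
      (∀ z ∈ qb e R, Nn (b z + ddc φ z)) → (∀ z ∈ qb e R, |φ z| ≤ O) →
      ∫ z in qb e r, dt e (b z + ddc φ z) ∂μ ≤ C := by
  obtain ⟨C0, hC0, hle⟩ := form_le e
  -- the radii
  have hr2 : ∃ r2 : ℝ, r < r2 ∧ r2 < R := exists_between hR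
  obtain ⟨r2, hrr2, hr2R⟩ := hr2
  have hr2p : 0 < r2 := hr.trans hrr2
  have hsq : r ^ 2 < r2 ^ 2 := pow_lt_pow_left₀ hrr2 hr.le (by norm_num)
  have hsqR : r2 ^ 2 < R ^ 2 := pow_lt_pow_left₀ hr2R hr2p.le (by norm_num)
  obtain ⟨ρ, hρ1, hρ2⟩ := exists_between hsq
  -- the constant
  set M : ℝ := (|O| + 1) / (ρ - r ^ 2) + (|O| + 1) / (r2 ^ 2 - ρ) + C0 * |A| with hM
  have hO : 0 < |O| + 1 := by positivity
  have hM1 : 0 < (|O| + 1) / (ρ - r ^ 2) := div_pos hO (by linarith)
  have hM2 : 0 < (|O| + 1) / (r2 ^ 2 - ρ) := div_pos hO (by linarith)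
  have hM3 : 0 ≤ C0 * |A| := mul_nonneg hC0.le (abs_nonneg _)
  have hMp : 0 < M := by linarith
  set q : H → ℝ := fun z => M * (qf e z + (-ρ)) with hq
  have hqf : ContDiff ℝ ∞ (qf e) := qf_smooth e
  have hqs : ContDiff ℝ ∞ q := contDiff_const.mul (hqf.add contDiff_const)
  have h2le : (2 : WithTop ℕ∞) ≤ ∞ := by norm_cast
  have hqd : ∀ z, ddc q z = (2 * M) • w0 e := by
    intro z
    have h1 : ContDiffAt ℝ 2 (fun z => qf e z + (-ρ)) z := ((hqf.add contDiff_const).contDiffAt).of_le h2le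
    have h3 : ddc q z = M • ddc (fun z => qf e z + (-ρ)) z := ddc_smul M h1
    have h4 : ddc (fun z => qf e z + (-ρ)) z = ddc (qf e) z + ddc (fun _ : H => -ρ) z :=
      ddc_add (hqf.contDiffAt.of_le h2le) contDiffAt_const
    have h5 : ddc (fun _ : H => -ρ) z = 0 := by
      ext u v
      rw [ddc_apply]
      have h6 : fderiv ℝ (fun _ : H => -ρ) = fun _ => 0 := by
        funext y
        exact fderiv_const_apply _
      rw [h6]
      have h7 : fderiv ℝ (fun _ : H => (0 : H →L[ℝ] ℝ)) z = 0 := fderiv_const_apply _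
      rw [h7]
      simp
    rw [h3, h4, h5, LC4_add0, ddc_qf, smul_smul, mul_comm M 2]
  obtain ⟨C1, hC1, hbd⟩ := bd_dt e (|A| + ‖(2 * M) • (w0 e : Bil H)‖)
  set K : Set H := {z : H | qf e z ≤ r2 ^ 2} with hK
  have hKc : IsCompact K := isCompact_qb e r2
  have hKm : MeasurableSet K := hKc.isClosed.measurableSet
  have hKR : K ⊆ qb e R := fun z hz => lt_of_le_of_lt hz hsqR
  have hKf : μ K < ⊤ := hKc.measure_lt_top
  refine ⟨C1 * (μ K).toReal, mul_nonneg hC1 ENNReal.toReal_nonneg, ?_⟩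
  intro b φ hb hbA hφ hpos hφO
  have hOA : ∀ z ∈ qb e R, -(|O|) ≤ φ z ∧ φ z ≤ |O| := by
    intro z hz
    have h1 := abs_le.1 (hφO z hz)
    have h3 := le_abs_self O
    constructor <;> linarith
  -- `q` is large outside
  have hqr : ∀ z ∈ qb e R, r2 ^ 2 < qf e z → φ z + 1 ≤ q z := by
    intro z hz hz2
    have h1 : (|O| + 1) ≤ M * (qf e z + (-ρ)) := by
      have h3 : (|O| + 1) / (r2 ^ 2 - ρ) ≤ M := by linarith
      have h4 : |O| + 1 = (|O| + 1) / (r2 ^ 2 - ρ) * (r2 ^ 2 - ρ) := by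
        field_simp [(by linarith : r2 ^ 2 - ρ ≠ 0)]
      have h5 : (|O| + 1) / (r2 ^ 2 - ρ) * (r2 ^ 2 - ρ) ≤ M * (qf e z + (-ρ)) :=
        mul_le_mul h3 (by linarith) (by linarith) hMp.le
      linarith
    have h6 := (hOA z hz).2
    show φ z + 1 ≤ M * (qf e z + (-ρ))
    linarith
  -- `q` is small inside
  have hql : ∀ z ∈ qb e r, q z + 1 ≤ φ z := by
    intro z hz
    have hz' : qf e z < r ^ 2 := hz
    have hzR : z ∈ qb e R := hKR (le_of_lt (hz'.trans hsq))
    have h1 : (|O| + 1) ≤ M * (ρ - qf e z) := by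
      have h3 : (|O| + 1) / (ρ - r ^ 2) ≤ M := by linarith
      have h4 : |O| + 1 = (|O| + 1) / (ρ - r ^ 2) * (ρ - r ^ 2) := by
        field_simp [(by linarith : ρ - r ^ 2 ≠ 0)]
      have h5 : (|O| + 1) / (ρ - r ^ 2) * (ρ - r ^ 2) ≤ M * (ρ - qf e z) :=
        mul_le_mul h3 (by linarith) (by linarith) hMp.le
      linarith
    have h6 := (hOA z hzR).1
    have h7 : M * (qf e z + (-ρ)) = -(M * (ρ - qf e z)) := by ring
    show M * (qf e z + (-ρ)) + 1 ≤ φ z
    rw [h7]
    linarith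
  obtain ⟨f, hfs, hf1, hf0⟩ := LC4_glue e hr2p hr2R hφ hqs hqr
  have hfc : HasCompactSupport f := by
    refine HasCompactSupport.intro hKc ?_
    intro z hz
    exact hf0 z (not_le.1 hz)
  have hft : tsupport f ⊆ K := by
    refine closure_minimal ?_ hKc.isClosed
    intro z hz
    by_contra h
    exact hz (hf0 z (not_le.1 h))
  have hb' : Fld (fun z => b z + (1 : ℝ) • ddc q z) (qb e R) := Fld.add_ddc hb hqs 1
  have hpath := path' e μ (isOpen_qb e R) hb' hfs hfc (hft.trans hKR)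
  -- the two descriptions of the form
  have hψ : ∀ z ∈ qb e R, (b z + (1 : ℝ) • ddc q z) + ddc f z =
      b z + ddc (fun z => rm 1 (φ z) (q z)) z := by
    intro z hz
    have h1 : ddc (fun z => rm 1 (φ z) (q z)) z = ddc f z + ddc q z := by
      refine LC4_split hfs hqs ?_
      filter_upwards [(isOpen_qb e R).mem_nhds hz] with y hy
      rw [hf1 y hy]
      ring
    rw [h1, one_smul]
    abel
  have hin : ∀ z ∈ qb e r, b z + ddc φ z = (b z + (1 : ℝ) • ddc q z) + ddc f z := by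
    intro z hz
    have h1 : ddc φ z = ddc f z + ddc q z := by
      refine LC4_split hfs hqs ?_
      filter_upwards [(isOpen_qb e r).mem_nhds hz] with y hy
      have hy' : qf e y < r ^ 2 := hy
      have hyR : y ∈ qb e R := hKR (le_of_lt (hy'.trans hsq))
      rw [hf1 y hyR, rm_left one_pos (hql y hy)]
      ring
    rw [h1, one_smul]
    abel
  have hbq : ∀ z ∈ qb e R, Nn (b z + ddc q z) := by
    intro z hz v
    rw [hqd z]
    have h1 : (b z + (2 * M) • w0 e) v (Complex.I • v) =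
        b z v (Complex.I • v) + (2 * M) * (w0 e : Bil H) v (Complex.I • v) := rfl
    rw [h1, w0_self]
    have h3 := (abs_le.1 (hle (b z) v)).1
    have h4 : C0 * ‖b z‖ * qf e v ≤ C0 * |A| * qf e v := by
      refine mul_le_mul_of_nonneg_right ?_ (qf_nonneg e v)
      exact mul_le_mul_of_nonneg_left ((hbA z hz).trans (le_abs_self A)) hC0.le
    have h5 : C0 * |A| * qf e v ≤ (2 * M) * qf e v := by
      refine mul_le_mul_of_nonneg_right ?_ (qf_nonneg e v)
      linarith
    linarith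
  have hnn : ∀ z ∈ qb e R, Nn ((b z + (1 : ℝ) • ddc q z) + ddc f z) := by
    intro z hz
    rw [hψ z hz]
    exact nn_rm one_pos hφ.contDiffAt hqs.contDiffAt (hpos z hz) (hbq z hz)
  have hO11 : ∀ z, O11 ((b z + (1 : ℝ) • ddc q z) + ddc f z) := by
    intro z
    exact O11_add (hb'.oo z) (O11_ddc (hfs.contDiffAt.of_le h2le))
  -- continuity
  have hb's : ContDiff ℝ ∞ (fun z => b z + (1 : ℝ) • ddc q z) := hb'.sm
  have hfd : ContDiff ℝ ∞ (ddc f) := by
    rw [contDiff_iff_contDiffAt]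
    intro z
    exact ddc_smooth hfs.contDiffAt
  have hc0 : Continuous fun z => (b z + (1 : ℝ) • ddc q z) + ddc f z := (hb's.add hfd).continuous
  have hc1 : Continuous fun z => dt e ((b z + (1 : ℝ) • ddc q z) + ddc f z) :=
    (dt_smooth e).continuous.comp hc0
  have hc2 : Continuous fun z => dt e (b z + (1 : ℝ) • ddc q z) :=
    (dt_smooth e).continuous.comp hb's.continuous
  have hi1 : IntegrableOn (fun z => dt e ((b z + (1 : ℝ) • ddc q z) + ddc f z)) K μ :=
    hc1.continuousOn.integrableOn_compact hKc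
  have hi2 : IntegrableOn (fun z => dt e (b z + (1 : ℝ) • ddc q z)) K μ :=
    hc2.continuousOn.integrableOn_compact hKc
  -- the integral over `K`
  have hoff : ∀ z, z ∉ K → dt e ((b z + (1 : ℝ) • ddc q z) + ddc f z) - dt e (b z + (1 : ℝ) • ddc q z) = 0 := by
    intro z hz
    have hz' : r2 ^ 2 < qf e z := not_le.1 hz
    have h5 : ∀ᶠ y in 𝓝 z, r2 ^ 2 < qf e y := hqf.continuous.continuousAt.eventually (lt_mem_nhds hz')
    have h6 : ddc f z = ddc f z + ddc f z := by
      have h7 : ddc f z = ddc f z + ddc f z := by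
        refine LC4_split hfs hfs ?_
        filter_upwards [h5] with y hy
        rw [hf0 y hy, add_zero]
      exact h7
    have h8 : ddc f z = 0 := by
      ext u v
      have h9 : ddc f z u v = ddc f z u v + ddc f z u v := congrArg (fun a : Bil H => a u v) h6
      show ddc f z u v = 0
      linarith
    rw [h8, LC4_add0, sub_self]
  have hK0 : ∫ z in K, (dt e ((b z + (1 : ℝ) • ddc q z) + ddc f z) - dt e (b z + (1 : ℝ) • ddc q z)) ∂μ = 0 := by
    rw [setIntegral_eq_integral_of_forall_compl_eq_zero hoff]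
    exact hpath
  rw [integral_sub hi1 hi2, sub_eq_zero] at hK0
  have hup : ∫ z in K, dt e (b z + (1 : ℝ) • ddc q z) ∂μ ≤ C1 * (μ K).toReal := by
    have h1 : ‖∫ z in K, dt e (b z + (1 : ℝ) • ddc q z) ∂μ‖ ≤ C1 * (μ K).toReal := by
      refine norm_setIntegral_le_of_norm_le_const hKf ?_
      intro z hz
      rw [Real.norm_eq_abs]
      refine hbd _ ?_
      rw [one_smul, hqd z]
      refine (LC4_norm _ _).trans ?_
      have h3 := (hbA z (hKR hz)).trans (le_abs_self A)
      linarith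
    exact (le_abs_self _).trans h1
  calc ∫ z in qb e r, dt e (b z + ddc φ z) ∂μ
      = ∫ z in qb e r, dt e ((b z + (1 : ℝ) • ddc q z) + ddc f z) ∂μ := by
        refine setIntegral_congr_fun (isOpen_qb e r).measurableSet ?_
        intro z hz
        show dt e (b z + ddc φ z) = _
        rw [hin z hz]
    _ ≤ ∫ z in K, dt e ((b z + (1 : ℝ) • ddc q z) + ddc f z) ∂μ := by
        refine setIntegral_mono_set hi1 ?_ ?_
        · rw [Filter.EventuallyLE, ae_restrict_iff' hKm]
          exact Filter.Eventually.of_forall fun z hz => dt_nonneg e (hO11 z) (hnn z (hKR hz))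
        · exact Filter.Eventually.of_forall fun z (hz : qf e z < r ^ 2) => le_of_lt (hz.trans hsq)
    _ = ∫ z in K, dt e (b z + (1 : ℝ) • ddc q z) ∂μ := hK0
    _ ≤ C1 * (μ K).toReal := hup

end HDG
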