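import Pool.Agent.HDG.LC2

/-!
# HDG/LC6: symmetry and positivity

Integration by parts (`parts`) gives the symmetry `S1` of the pairing, because the adjugate of the Hermitian matrix of
`b z` is Hermitian; `S2` is the case `g = 1`; `S3` follows since the adjugate of a positive semidefinite matrix is positive
semidefinite.
-/

set_option autoImplicit false

noncomputable section

open scoped ContDiff ComplexOrder Topology

open MeasureTheory

namespace HDG

open Pool.Agent.FBR

variable {H : Type*} [NormedAddCommGroup H] [NormedSpace ℂ H] [FiniteDimensional ℂ H] {n : ℕ}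
  (e : Module.Basis (Fin n) ℂ H) [MeasurableSpace H] [BorelSpace H] (μ : Measure H) [μ.IsAddHaarMeasure]

private theorem LC6_fd {E : Type*} [NormedAddCommGroup E] [NormedSpace ℝ E] {f : E → ℝ} {z : E}
    (hf : DifferentiableAt ℝ f z) (v : E) :
    fderiv ℝ (fun z => (f z : ℂ)) z v = ((fderiv ℝ f z v : ℝ) : ℂ) := by
  have h := (Complex.ofRealCLM.hasFDerivAt (x := f z)).comp z hf.hasFDerivAt
  have h2 : fderiv ℝ (fun z => (f z : ℂ)) z = Complex.ofRealCLM.comp (fderiv ℝ f z) := h.fderiv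
  rw [h2]
  rfl

omit [FiniteDimensional ℂ H] [MeasurableSpace H] [BorelSpace H] in
private theorem LC6_conj {f : H → ℝ} {z : H} (hf : DifferentiableAt ℝ f z) (v : H) :
    (starRingEnd ℂ) (dz v (fun z => (f z : ℂ)) z) = dzb v (fun z => (f z : ℂ)) z := by
  rw [dz, dzb, LC6_fd hf, LC6_fd hf]
  simp only [map_mul, map_sub, Complex.conj_I, Complex.conj_ofReal, map_div₀, map_one]
  have h2 : (starRingEnd ℂ) (2 : ℂ) = 2 := Complex.conj_ofNat 2
  rw [h2]
  ring

omit [FiniteDimensional ℂ H] [MeasurableSpace H] [BorelSpace H] in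
private theorem LC6_conj' {f : H → ℝ} {z : H} (hf : DifferentiableAt ℝ f z) (v : H) :
    (starRingEnd ℂ) (dzb v (fun z => (f z : ℂ)) z) = dz v (fun z => (f z : ℂ)) z := by
  rw [← LC6_conj hf, Complex.conj_conj]

private theorem LC6_adj_herm {A : Matrix (Fin n) (Fin n) ℂ} (hA : A.IsHermitian) (j k : Fin n) :
    (starRingEnd ℂ) (A.adjugate k j) = A.adjugate j k := by
  have h := hA.adjugate
  exact h.apply j k

private theorem LC6_psd {A : Matrix (Fin n) (Fin n) ℂ} (hA : A.PosSemidef) (x : Fin n → ℂ) :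
    0 ≤ (∑ j, ∑ k, A.adjugate k j * x j * (starRingEnd ℂ) (x k)).re := by
  have hpos : ∀ ε : ℝ, 0 < ε → 0 ≤ (∑ j, ∑ k, (A + (ε : ℂ) • (1 : Matrix (Fin n) (Fin n) ℂ)).adjugate k j *
      x j * (starRingEnd ℂ) (x k)).re := by
    intro ε hε
    have hεc : (0 : ℂ) < (ε : ℂ) := by exact_mod_cast hε
    have hB : (A + (ε : ℂ) • (1 : Matrix (Fin n) (Fin n) ℂ)).PosDef :=
      Matrix.PosDef.posSemidef_add hA (Matrix.PosDef.one.smul hεc)
    set B := A + (ε : ℂ) • (1 : Matrix (Fin n) (Fin n) ℂ) with hBdef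
    have hdet : 0 < B.det := hB.det_pos
    have hadj : B.adjugate = B.det • B⁻¹ := by
      rw [Matrix.inv_def, smul_smul, Ring.mul_inverse_cancel _ (Ne.isUnit hdet.ne'), one_smul]
    have hps : B.adjugate.PosSemidef := by
      rw [hadj]
      exact hB.inv.posSemidef.smul hdet.le
    have h1 := hps.dotProduct_mulVec_nonneg x
    have h2 := (Complex.le_def.1 h1).1
    have e1 : star x ⬝ᵥ (B.adjugate.mulVec x) = ∑ j, ∑ k, B.adjugate k j * x j * (starRingEnd ℂ) (x k) := by
      rw [dotProduct, Finset.sum_comm]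
      refine Finset.sum_congr rfl fun k _ => ?_
      rw [Matrix.mulVec, dotProduct, Finset.mul_sum]
      refine Finset.sum_congr rfl fun j _ => ?_
      rw [Pi.star_apply, RCLike.star_def]
      ring
    rw [e1] at h2
    simpa using h2
  have hcont : Continuous fun ε : ℝ => (∑ j, ∑ k, (A + (ε : ℂ) • (1 : Matrix (Fin n) (Fin n) ℂ)).adjugate k j *
      x j * (starRingEnd ℂ) (x k)).re := by
    have h1 : Continuous fun ε : ℝ => (A + (ε : ℂ) • (1 : Matrix (Fin n) (Fin n) ℂ)).adjugate := by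
      refine Continuous.matrix_adjugate ?_
      exact continuous_const.add ((Complex.continuous_ofReal).smul continuous_const)
    refine Complex.continuous_re.comp ?_
    refine continuous_finsetSum _ fun j _ => continuous_finsetSum _ fun k _ => ?_
    exact ((h1.matrix_elem k j).mul continuous_const).mul continuous_const
  have hlim : Filter.Tendsto (fun ε : ℝ => (∑ j, ∑ k, (A + (ε : ℂ) • (1 : Matrix (Fin n) (Fin n) ℂ)).adjugate k j *
      x j * (starRingEnd ℂ) (x k)).re) (𝓝[>] (0 : ℝ))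
      (𝓝 (∑ j, ∑ k, A.adjugate k j * x j * (starRingEnd ℂ) (x k)).re) := by
    have h := (hcont.tendsto 0).mono_left (nhdsWithin_le_nhds (s := Set.Ioi (0 : ℝ)))
    simpa using h
  refine ge_of_tendsto hlim ?_
  filter_upwards [self_mem_nhdsWithin] with ε hε
  exact hpos ε hε

theorem S1 {b : H → Bil H} (hb : ContDiff ℝ ∞ b) (h11 : ∀ z, O11 (b z)) {U : Set H} (hU : IsOpen U)
    (hcl : ∀ z ∈ U, ∀ u v w : H, ext2 b z u v w = 0) {f g : H → ℝ} (hf : ContDiff ℝ ∞ f) (hg : ContDiff ℝ ∞ g)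
    (hfc : HasCompactSupport f) (hfU : tsupport f ⊆ U) :
    ∫ z, f z * cf e (b z) (ddc g z) ∂μ = ∫ z, g z * cf e (b z) (ddc f z) ∂μ := by
  have hs1 : HasCompactSupport fun z => f z * g z := hfc.mul_right
  have ht1 : tsupport (fun z => f z * g z) ⊆ U := (tsupport_mul_subset_left).trans hfU
  have hs2 : HasCompactSupport fun z => g z * f z := hfc.mul_left
  have ht2 : tsupport (fun z => g z * f z) ⊆ U := (tsupport_mul_subset_right).trans hfU
  rw [parts e μ hb h11 hU hcl hf hg hs1 ht1 (Or.inl ⟨hfc, hfU⟩),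
    parts e μ hb h11 hU hcl hg hf hs2 ht2 (Or.inr ⟨hfc, hfU⟩)]
  refine integral_congr_ae (Filter.Eventually.of_forall fun z => ?_)
  have hfd : DifferentiableAt ℝ f z := hf.contDiffAt.differentiableAt (by simp)
  have hgd : DifferentiableAt ℝ g z := hg.contDiffAt.differentiableAt (by simp)
  have key : (∑ j, ∑ k, (Mt e (b z)).adjugate k j * dz (e j) (fun z => (g z : ℂ)) z *
      dzb (e k) (fun z => (f z : ℂ)) z) = (starRingEnd ℂ) (∑ j, ∑ k, (Mt e (b z)).adjugate k j *
      dz (e j) (fun z => (f z : ℂ)) z * dzb (e k) (fun z => (g z : ℂ)) z) := by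
    rw [map_sum]
    simp only [map_sum, map_mul]
    rw [Finset.sum_comm]
    refine Finset.sum_congr rfl fun k _ => Finset.sum_congr rfl fun j _ => ?_
    rw [LC6_adj_herm (Mt_herm e (h11 z)), LC6_conj hfd, LC6_conj' hgd]
    ring
  show - 2 * (∑ j, ∑ k, (Mt e (b z)).adjugate k j * dz (e j) (fun z => (f z : ℂ)) z *
      dzb (e k) (fun z => (g z : ℂ)) z).re = - 2 * (∑ j, ∑ k, (Mt e (b z)).adjugate k j *
      dz (e j) (fun z => (g z : ℂ)) z * dzb (e k) (fun z => (f z : ℂ)) z).re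
  rw [key, Complex.conj_re]

theorem S2 {b : H → Bil H} (hb : ContDiff ℝ ∞ b) (h11 : ∀ z, O11 (b z)) {U : Set H} (hU : IsOpen U)
    (hcl : ∀ z ∈ U, ∀ u v w : H, ext2 b z u v w = 0) {f : H → ℝ} (hf : ContDiff ℝ ∞ f)
    (hfc : HasCompactSupport f) (hfU : tsupport f ⊆ U) : ∫ z, cf e (b z) (ddc f z) ∂μ = 0 := by
  have h := S1 e μ hb h11 hU hcl hf (g := fun _ => (1 : ℝ)) contDiff_const hfc hfU
  have h0 : ∀ z : H, ddc (fun _ : H => (1 : ℝ)) z = 0 := by
    intro z
    ext u v
    rw [ddc_apply]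
    have : fderiv ℝ (fun _ : H => (1 : ℝ)) = fun _ => 0 := by
      funext y
      simp
    rw [this]
    simp
  have h1 : ∀ a : Bil H, cf e a 0 = 0 := by
    intro a
    have h2 : Mt e (0 : Bil H) = 0 := by
      ext j k
      simp [Mt]
    rw [cf, h2]
    simp
  simp only [h0, h1, mul_zero, integral_zero, one_mul] at h
  exact h.symm

theorem S3 {b : H → Bil H} (hb : ContDiff ℝ ∞ b) (h11 : ∀ z, O11 (b z)) {U : Set H} (hU : IsOpen U)
    (hcl : ∀ z ∈ U, ∀ u v w : H, ext2 b z u v w = 0) (hn : ∀ z ∈ U, Nn (b z)) {f : H → ℝ} (hf : ContDiff ℝ ∞ f)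
    (hfc : HasCompactSupport f) (hfU : tsupport f ⊆ U) : ∫ z, f z * cf e (b z) (ddc f z) ∂μ ≤ 0 := by
  have hs1 : HasCompactSupport fun z => f z * f z := hfc.mul_right
  have ht1 : tsupport (fun z => f z * f z) ⊆ U := (tsupport_mul_subset_left).trans hfU
  rw [parts e μ hb h11 hU hcl hf hf hs1 ht1 (Or.inl ⟨hfc, hfU⟩)]
  refine integral_nonpos fun z => ?_
  have hfd : DifferentiableAt ℝ f z := hf.contDiffAt.differentiableAt (by simp)
  show - 2 * (∑ j, ∑ k, (Mt e (b z)).adjugate k j * dz (e j) (fun z => (f z : ℂ)) z *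
      dzb (e k) (fun z => (f z : ℂ)) z).re ≤ 0
  by_cases hz : z ∈ U
  · have h := LC6_psd ((Mt_psd e (h11 z)).2 (hn z hz)) fun j => dz (e j) (fun z => (f z : ℂ)) z
    have e1 : (∑ j, ∑ k, (Mt e (b z)).adjugate k j * dz (e j) (fun z => (f z : ℂ)) z *
        dzb (e k) (fun z => (f z : ℂ)) z) = ∑ j, ∑ k, (Mt e (b z)).adjugate k j *
        dz (e j) (fun z => (f z : ℂ)) z * (starRingEnd ℂ) (dz (e k) (fun z => (f z : ℂ)) z) := by
      refine Finset.sum_congr rfl fun j _ => Finset.sum_congr rfl fun k _ => ?_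
      rw [LC6_conj hfd]
    rw [e1]
    linarith
  · have hz' : z ∉ tsupport f := fun h => hz (hfU h)
    have hfz : fderiv ℝ f z = 0 := by
      have h1 : f =ᶠ[𝓝 z] 0 := notMem_tsupport_iff_eventuallyEq.1 hz'
      rw [h1.fderiv_eq]
      simp
    have h0 : ∀ v : H, dz v (fun z => (f z : ℂ)) z = 0 := by
      intro v
      rw [dz, LC6_fd hfd, LC6_fd hfd, hfz]
      simp
    simp [h0]

end HDG
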