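import Pool.Agent.FBR.Ops

/-!
# HDG: first cohomology and semi-positive classes (MP_d9a86d_gt): local definitions

`H` is a complex vector space with the basis `e`; real `(1,1)`-forms on `H` are the real bilinear forms `a : Bil H` with
`O11 a`. `Mt e a` is the Hermitian matrix of `a`; `dt e a` its determinant (`a ^ n` as a density); `cf e a s` is the derivative
of `dt` at `a` in the direction `s` (`n a ^ (n-1) ∧ s`). `w0 e` is the standard form, `w0 e v (i v) = qf e v`.
-/

set_option autoImplicit false

noncomputable section

open scoped ContDiff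

namespace HDG

open Pool.Agent.FBR

section

variable {H : Type*} [NormedAddCommGroup H] [NormedSpace ℂ H] {n : ℕ} (e : Module.Basis (Fin n) ℂ H)

/-- the square of the standard norm -/
def qf (z : H) : ℝ := ∑ j, ‖e.repr z j‖ ^ 2

/-- the open ball of radius `r` around the origin, for the standard norm -/
def qb (r : ℝ) : Set H := {z | qf e z < r ^ 2}

/-- `a` is a real `(1,1)`-form. -/
def O11 (a : Bil H) : Prop := (∀ v, a v v = 0) ∧ ∀ u v, a (Complex.I • u) (Complex.I • v) = a u v

/-- `a ≥ 0` -/
def Nn (a : Bil H) : Prop := ∀ v, 0 ≤ a v (Complex.I • v)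

/-- the standard form: `w0 e v (i v) = qf e v` -/
def w0 : Bil H := (1 / 2 : ℝ) • ddc (qf e) 0

/-- the Hermitian matrix of the form `a` -/
def Mt (a : Bil H) : Matrix (Fin n) (Fin n) ℂ := fun j k =>
  ((a (e j) (Complex.I • e k) : ℝ) : ℂ) - Complex.I * ((a (e j) (e k) : ℝ) : ℂ)

/-- the determinant of the form `a` -/
def dt (a : Bil H) : ℝ := (Mt e a).det.re

/-- the derivative of the determinant at `a` in the direction `s` -/
def cf (a s : Bil H) : ℝ := ((Mt e a).adjugate * Mt e s).trace.re

open Classical in
/-- the positive part of `a ^ n`: the determinant of `a` if `a ≥ 0`, otherwise `0` -/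
def pl (a : Bil H) : ℝ := if Nn a then dt e a else 0

end

end HDG
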