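import Pool.Agent.HDG.LA1

/-!
# HDG/MK: the mollification kernel

`ker μ` is a smooth kernel, invariant under multiplication by complex numbers of modulus one, supported in the unit ball; `mo μ δ P z = ∫ ker y P (z - δ y)`.
-/

set_option autoImplicit false

noncomputable section

open scoped ContDiff ComplexOrder Topology

open MeasureTheory Filter

namespace HDG

open Pool.Agent.FBR

variable {H : Type*} [NormedAddCommGroup H] [NormedSpace ℂ H]
  [FiniteDimensional ℂ H] [MeasurableSpace H] [BorelSpace H] (μ : Measure H) [μ.IsAddHaarMeasure]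

theorem exists_ker : ∃ ρ : H → ℝ, ContDiff ℝ ∞ ρ ∧ HasCompactSupport ρ ∧ (∀ y, 0 ≤ ρ y) ∧ (∀ y, 1 ≤ ‖y‖ → ρ y = 0) ∧
    ∫ y, ρ y ∂μ = 1 ∧ ∀ t : ℂ, ‖t‖ = 1 → ∀ y, ρ (t • y) = ρ y := by
  have : ProperSpace H := FiniteDimensional.proper ℂ H
  set e := Module.finBasis ℂ H with he
  obtain ⟨c, C, hc, hC, hcC⟩ := qf_equiv (H := H) e
  set g : H → ℝ := fun y => Real.smoothTransition (2 - 2 / c * qf e y) with hg
  have hgs : ContDiff ℝ ∞ g :=
    Real.smoothTransition.contDiff.comp (contDiff_const.sub (contDiff_const.mul (qf_smooth (H := H) e)))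
  have hg0 : ∀ y, 0 ≤ g y := fun y => Real.smoothTransition.nonneg _
  have hgz : ∀ y, 1 ≤ ‖y‖ → g y = 0 := by
    intro y hy
    apply Real.smoothTransition.zero_of_nonpos
    have h1 := (hcC y).1
    have h2 : c ≤ c * ‖y‖ ^ 2 := by
      have : (1 : ℝ) ≤ ‖y‖ ^ 2 := one_le_pow₀ hy
      nlinarith
    have h3 : 2 / c * c ≤ 2 / c * qf e y :=
      mul_le_mul_of_nonneg_left (h2.trans h1) (by positivity)
    have h4 : 2 / c * c = 2 := by field_simp
    linarith
  have hgc : HasCompactSupport g := by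
    apply HasCompactSupport.intro (isCompact_closedBall (0 : H) 1)
    intro y hy
    apply hgz
    rw [Metric.mem_closedBall, dist_zero_right] at hy
    exact (not_le.1 hy).le
  have hg1 : g 0 ≠ 0 := by
    have : g 0 = 1 := by
      apply Real.smoothTransition.one_of_one_le
      rw [qf_zero]; norm_num
    rw [this]; norm_num
  have hpos : 0 < ∫ y, g y ∂μ :=
    hgs.continuous.integral_pos_of_hasCompactSupport_nonneg_nonzero hgc hg0 hg1
  set k : ℝ := (∫ y, g y ∂μ)⁻¹ with hk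
  have hkpos : 0 < k := inv_pos.2 hpos
  refine ⟨fun y => k * g y, contDiff_const.mul hgs, hgc.mul_left, fun y => mul_nonneg hkpos.le (hg0 y),
    fun y hy => by simp only [hgz y hy, mul_zero], ?_, ?_⟩
  · rw [integral_const_mul, hk]
    exact inv_mul_cancel₀ hpos.ne'
  · intro t ht y
    have : g (t • y) = g y := by
      simp only [hg]
      rw [qf_smul, ht]; simp
    simp only [this]

/-- the mollification kernel -/
def ker : H → ℝ := (exists_ker (H := H) μ).choose

theorem ker_spec : ContDiff ℝ ∞ (ker μ : H → ℝ) ∧ HasCompactSupport (ker μ : H → ℝ) ∧ (∀ y, 0 ≤ ker μ y) ∧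
    (∀ y, 1 ≤ ‖y‖ → ker μ y = 0) ∧ ∫ y, ker μ y ∂μ = 1 ∧
    ∀ t : ℂ, ‖t‖ = 1 → ∀ y, ker μ (t • y) = ker μ y :=
  (exists_ker (H := H) μ).choose_spec

/-- the mollification of `P` with radius `δ` -/
def mo (δ : ℝ) (P : H → ℝ) (z : H) : ℝ := ∫ y, ker μ y * P (z - (δ : ℂ) • y) ∂μ

private theorem MK_norm_le {δ : ℝ} (hδ : 0 ≤ δ) {y : H} (hy : ¬ 1 ≤ ‖y‖) : ‖(δ : ℂ) • y‖ ≤ δ := by
  rw [norm_smul, Complex.norm_real, Real.norm_of_nonneg hδ]
  exact mul_le_of_le_one_right hδ (not_le.1 hy).le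

private theorem MK_integrable {P : H → ℝ} (hP : Continuous P) (δ : ℝ) (z : H) :
    Integrable (fun y => ker μ y * P (z - (δ : ℂ) • y)) μ := by
  have hc : Continuous (fun y : H => ker μ y * P (z - (δ : ℂ) • y)) :=
    (ker_spec (H := H) μ).1.continuous.mul (hP.comp (continuous_const.sub (continuous_const_smul _)))
  exact hc.integrable_of_hasCompactSupport ((ker_spec (H := H) μ).2.1.mul_right)

theorem mo_lim {P : H → ℝ} (hP : Continuous P) {B δ : ℝ} (hδ : 0 ≤ δ) {z : H}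
    (h : ∀ a : H, ‖a‖ ≤ δ → |P (z - a) - P z| ≤ B) : |mo μ δ P z - P z| ≤ B := by
  obtain ⟨h1, h2, h3, h4, h5, h6⟩ := ker_spec (H := H) μ
  have hki : Integrable (ker μ : H → ℝ) μ := h1.continuous.integrable_of_hasCompactSupport h2
  have e1 : mo μ δ P z - P z = ∫ y, ker μ y * (P (z - (δ : ℂ) • y) - P z) ∂μ := by
    have e2 : ∫ y, ker μ y * P z ∂μ = P z := by
      rw [integral_mul_const, h5, one_mul]
    have e3 : (fun y : H => ker μ y * (P (z - (δ : ℂ) • y) - P z)) =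
        fun y => ker μ y * P (z - (δ : ℂ) • y) - ker μ y * P z := by
      funext y; ring
    rw [e3, integral_sub (MK_integrable μ hP δ z) (hki.mul_const _), e2]
    rfl
  have e4 : ∫ y, ker μ y * B ∂μ = B := by rw [integral_mul_const, h5, one_mul]
  rw [e1, ← Real.norm_eq_abs, ← e4]
  apply norm_integral_le_of_norm_le (hki.mul_const _)
  filter_upwards with y
  rw [norm_mul, Real.norm_of_nonneg (h3 y), Real.norm_eq_abs]
  by_cases hy : 1 ≤ ‖y‖
  · rw [h4 y hy]; simp
  · exact mul_le_mul_of_nonneg_left (h _ (MK_norm_le hδ hy)) (h3 y)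

theorem mo_supp {P : H → ℝ} {δ : ℝ} (hδ : 0 ≤ δ) {z : H} (h : ∀ a : H, ‖a‖ ≤ δ → P (z - a) = 0) :
    mo μ δ P z = 0 := by
  unfold mo
  have : (fun y : H => ker μ y * P (z - (δ : ℂ) • y)) = fun _ => 0 := by
    funext y
    by_cases hy : 1 ≤ ‖y‖
    · rw [(ker_spec (H := H) μ).2.2.2.1 y hy, zero_mul]
    · rw [h _ (MK_norm_le hδ hy), mul_zero]
  rw [this, integral_zero]

theorem mo_add {P P' : H → ℝ} (hP : Continuous P) (hP' : Continuous P') (δ : ℝ) (z : H) :
    mo μ δ (fun z => P z + P' z) z = mo μ δ P z + mo μ δ P' z := by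
  unfold mo
  rw [← integral_add (MK_integrable μ hP δ z) (MK_integrable μ hP' δ z)]
  apply integral_congr_ae
  filter_upwards with y
  ring

theorem mo_mono {P P' : H → ℝ} (hP : Continuous P) (hP' : Continuous P') {δ : ℝ} (hδ : 0 ≤ δ) {z : H}
    (h : ∀ a : H, ‖a‖ ≤ δ → P (z - a) ≤ P' (z - a)) : mo μ δ P z ≤ mo μ δ P' z := by
  apply integral_mono (MK_integrable μ hP δ z) (MK_integrable μ hP' δ z)
  intro y
  show ker μ y * P (z - (δ : ℂ) • y) ≤ ker μ y * P' (z - (δ : ℂ) • y)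
  by_cases hy : 1 ≤ ‖y‖
  · rw [(ker_spec (H := H) μ).2.2.2.1 y hy, zero_mul, zero_mul]
  · exact mul_le_mul_of_nonneg_left (h _ (MK_norm_le hδ hy)) ((ker_spec (H := H) μ).2.2.1 y)

end HDG
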