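import Pool.Agent.HDG.MK

/-!
# HDG/MK1: smoothness of the mollification

For `δ > 0` the mollification is a multiple of the convolution of the scaled kernel with `P` (`mo_smooth`); for smooth `P` the
derivatives fall on `P` (differentiation under the integral sign, `MK1_hasFD`).
-/

set_option autoImplicit false

noncomputable section

open scoped ContDiff ComplexOrder Topology

open MeasureTheory Filter

namespace HDG

open Pool.Agent.FBR

variable {H : Type*} [NormedAddCommGroup H] [NormedSpace ℂ H]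
  [FiniteDimensional ℂ H] [MeasurableSpace H] [BorelSpace H] (μ : Measure H) [μ.IsAddHaarMeasure]

omit [FiniteDimensional ℂ H] [MeasurableSpace H] [BorelSpace H] in
private theorem MK1_smul (δ : ℝ) (y : H) : (δ : ℂ) • y = δ • y := rfl

private theorem MK1_int {F : Type*} [NormedAddCommGroup F] [NormedSpace ℝ F] {g : H → F} (hg : Continuous g) :
    Integrable (fun y => ker μ y • g y) μ := by
  have hk := ker_spec μ
  exact ((hk.1.continuous.smul hg).integrable_of_hasCompactSupport (hk.2.1.smul_right))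

private theorem MK1_hasFD {F : Type*} [NormedAddCommGroup F] [NormedSpace ℝ F] {P : H → F} (hP : ContDiff ℝ 1 P)
    {δ : ℝ} (hδ : 0 < δ) (z : H) :
    HasFDerivAt (fun z => ∫ y, ker μ y • P (z - (δ : ℂ) • y) ∂μ)
      (∫ y, ker μ y • fderiv ℝ P (z - (δ : ℂ) • y) ∂μ) z := by
  have hk := ker_spec μ
  have : ProperSpace H := FiniteDimensional.proper ℂ H
  have hPc : Continuous P := hP.continuous
  have hdc : Continuous (fderiv ℝ P) := hP.continuous_fderiv (by norm_num)
  have hlin : ∀ x : H, Continuous fun y : H => x - (δ : ℂ) • y := fun x =>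
    continuous_const.sub (continuous_const_smul _)
  have hcomp : IsCompact (Metric.closedBall z (1 + δ)) := isCompact_closedBall z (1 + δ)
  obtain ⟨C, hC⟩ := hcomp.exists_bound_of_continuousOn (f := fderiv ℝ P) hdc.continuousOn
  have hker0 : ∀ y, 1 ≤ ‖y‖ → ker μ y = 0 := hk.2.2.2.1
  have hkn : ∀ y, 0 ≤ ker μ y := hk.2.2.1
  refine hasFDerivAt_integral_of_dominated_of_fderiv_le (𝕜 := ℝ) (E := F) (H := H) (μ := μ)
    (F := fun x y => ker μ y • P (x - (δ : ℂ) • y))
    (F' := fun x y => ker μ y • fderiv ℝ P (x - (δ : ℂ) • y)) (s := Metric.ball z 1)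
    (bound := fun y => ker μ y * C) (Metric.ball_mem_nhds z one_pos) ?_ ?_ ?_ ?_ ?_ ?_
  · exact Filter.Eventually.of_forall fun x =>
      (hk.1.continuous.smul (hPc.comp (hlin x))).aestronglyMeasurable
  · exact MK1_int μ (hPc.comp (hlin z))
  · exact (hk.1.continuous.smul (hdc.comp (hlin z))).aestronglyMeasurable
  · refine Filter.Eventually.of_forall fun y x hx => ?_
    show ‖ker μ y • fderiv ℝ P (x - (δ : ℂ) • y)‖ ≤ ker μ y * C
    rw [norm_smul, Real.norm_of_nonneg (hkn y)]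
    by_cases hy : 1 ≤ ‖y‖
    · rw [hker0 y hy, zero_mul, zero_mul]
    · apply mul_le_mul_of_nonneg_left _ (hkn y)
      apply hC
      rw [Metric.mem_closedBall, dist_eq_norm]
      have h1 : x - (δ : ℂ) • y - z = (x - z) - (δ : ℂ) • y := by abel
      rw [h1]
      have h2 : ‖x - z‖ < 1 := by rwa [Metric.mem_ball, dist_eq_norm] at hx
      have h3 : ‖(δ : ℂ) • y‖ ≤ δ := by
        rw [norm_smul, Complex.norm_real, Real.norm_of_nonneg hδ.le]
        have h4 : ‖y‖ ≤ 1 := le_of_lt (not_le.1 hy)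
        calc δ * ‖y‖ ≤ δ * 1 := mul_le_mul_of_nonneg_left h4 hδ.le
          _ = δ := mul_one δ
      calc ‖(x - z) - (δ : ℂ) • y‖ ≤ ‖x - z‖ + ‖(δ : ℂ) • y‖ := norm_sub_le _ _
        _ ≤ 1 + δ := add_le_add h2.le h3
  · exact (hk.1.continuous.integrable_of_hasCompactSupport hk.2.1).mul_const C
  · refine Filter.Eventually.of_forall fun y x _ => ?_
    have h1 : HasFDerivAt P (fderiv ℝ P (x - (δ : ℂ) • y)) (x - (δ : ℂ) • y) :=
      (hP.differentiable (by norm_num) _).hasFDerivAt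
    have h2 : HasFDerivAt (fun x : H => x - (δ : ℂ) • y) (ContinuousLinearMap.id ℝ H) x :=
      (hasFDerivAt_id x).sub_const _
    have h3 := h1.comp x h2
    rw [ContinuousLinearMap.comp_id] at h3
    exact h3.const_smul (ker μ y)

private theorem MK1_mo_eq (P : H → ℝ) {δ : ℝ} (hδ : 0 < δ) (z : H) :
    mo μ δ P z = |(δ⁻¹ ^ Module.finrank ℝ H)| * ∫ x, ker μ (δ⁻¹ • x) * P (z - x) ∂μ := by
  have h := Measure.integral_comp_smul μ (fun y : H => ker μ y * P (z - (δ : ℂ) • y)) δ⁻¹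
  have h1 : ∀ x : H, (δ : ℂ) • (δ⁻¹ • x) = x := by
    intro x
    rw [MK1_smul, smul_smul, mul_inv_cancel₀ hδ.ne', one_smul]
  simp only [h1] at h
  rw [h, smul_eq_mul, ← mul_assoc, ← abs_mul, mul_inv_cancel₀, abs_one, one_mul]
  · rfl
  · exact pow_ne_zero _ (inv_ne_zero hδ.ne')

theorem mo_smooth {δ : ℝ} (hδ : 0 < δ) {P : H → ℝ} (hP : LocallyIntegrable P μ) : ContDiff ℝ ∞ (mo μ δ P) := by
  have hk := ker_spec μ
  have hc : HasCompactSupport fun x : H => ker μ (δ⁻¹ • x) :=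
    hk.2.1.comp_smul (inv_ne_zero hδ.ne')
  have hs : ContDiff ℝ ∞ fun x : H => ker μ (δ⁻¹ • x) := hk.1.comp (contDiff_const_smul δ⁻¹)
  have h := hc.contDiff_convolution_left (n := ⊤) (𝕜 := ℝ) (μ := μ) (ContinuousLinearMap.mul ℝ ℝ) hs hP
  have he : mo μ δ P = fun z => |(δ⁻¹ ^ Module.finrank ℝ H)| *
      (convolution (fun x : H => ker μ (δ⁻¹ • x)) P (ContinuousLinearMap.mul ℝ ℝ) μ) z := by
    funext z
    rw [MK1_mo_eq μ P hδ z]
    rfl
  rw [he]
  exact contDiff_const.mul h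

theorem mo_hasFDerivAt {P : H → ℝ} (hP : ContDiff ℝ ∞ P) {δ : ℝ} (hδ : 0 < δ) (z : H) :
    HasFDerivAt (mo μ δ P) (∫ y, ker μ y • fderiv ℝ P (z - (δ : ℂ) • y) ∂μ) z :=
  MK1_hasFD μ (hP.of_le (by exact_mod_cast le_top)) hδ z

/-- `ddc` of the mollification of a smooth function -/
theorem mo_ddc {P : H → ℝ} (hP : ContDiff ℝ ∞ P) {δ : ℝ} (hδ : 0 < δ) (z u v : H) :
    ddc (mo μ δ P) z u v = ∫ y, ker μ y * ddc P (z - (δ : ℂ) • y) u v ∂μ := by
  have h1 : fderiv ℝ (mo μ δ P) = fun z => ∫ y, ker μ y • fderiv ℝ P (z - (δ : ℂ) • y) ∂μ := by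
    funext x
    exact (mo_hasFDerivAt μ hP hδ x).fderiv
  have hP1 : ContDiff ℝ ∞ (fderiv ℝ P) := hP.fderiv_right (by exact_mod_cast le_top)
  have h2 : fderiv ℝ (fderiv ℝ (mo μ δ P)) z =
      ∫ y, ker μ y • fderiv ℝ (fderiv ℝ P) (z - (δ : ℂ) • y) ∂μ := by
    rw [h1]
    exact (MK1_hasFD μ (hP1.of_le (by exact_mod_cast le_top)) hδ z).fderiv
  have hlin : Continuous fun y : H => z - (δ : ℂ) • y :=
    continuous_const.sub (continuous_const_smul _)
  have hd2 : Continuous fun y : H => fderiv ℝ (fderiv ℝ P) (z - (δ : ℂ) • y) :=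
    (hP1.continuous_fderiv (by simp)).comp hlin
  have hi := MK1_int (F := H →L[ℝ] H →L[ℝ] ℝ) μ hd2
  have h3 : ∀ a b : H, (∫ y, ker μ y • fderiv ℝ (fderiv ℝ P) (z - (δ : ℂ) • y) ∂μ) a b =
      ∫ y, ker μ y * fderiv ℝ (fderiv ℝ P) (z - (δ : ℂ) • y) a b ∂μ := by
    intro a b
    rw [ContinuousLinearMap.integral_apply hi,
      ContinuousLinearMap.integral_apply (hi.apply_continuousLinearMap a)]
    rfl
  have hd : ∀ a b : H, Integrable (fun y => ker μ y * fderiv ℝ (fderiv ℝ P) (z - (δ : ℂ) • y) a b) μ :=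
    fun a b => MK1_int μ ((hd2.clm_apply continuous_const).clm_apply continuous_const)
  rw [ddc_apply, h2, h3, h3, ← integral_sub (hd _ _) (hd _ _), ← integral_const_mul]
  apply integral_congr_ae
  refine Filter.Eventually.of_forall fun y => ?_
  show _ = ker μ y * ddc P (z - (δ : ℂ) • y) u v
  rw [ddc_apply]
  ring

end HDG
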