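import Pool.Agent.HDG.RMd

/-!
# HDG/OB1: continuous functions `w` with `c + dd^c w ≥ 0`

`AD e c w`: on every compact set `w` is the uniform limit of smooth functions `v` with `c + dd^c v ≥ - ε`.
The class `AD e c` is closed under maxima, convex combinations, translations, adding constants, locally uniform limits
and gluing with the maximum of a smooth function on a ball (`ad_glue`).
-/

set_option autoImplicit false

noncomputable section

open scoped ContDiff ComplexOrder Topology

namespace HDG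

open Pool.Agent.FBR

variable {H : Type*} [NormedAddCommGroup H] [NormedSpace ℂ H] {n : ℕ} (e : Module.Basis (Fin n) ℂ H)

/-- `c + dd^c w ≥ 0` for the continuous function `w` -/
def AD (c : H → Bil H) (w : H → ℝ) : Prop := ∀ K : Set H, IsCompact K → ∀ ε : ℝ, 0 < ε →
  ∃ v : H → ℝ, ContDiff ℝ ∞ v ∧ ∀ z ∈ K, |v z - w z| ≤ ε ∧ Nn (c z + ddc v z + ε • w0 e)

variable [FiniteDimensional ℂ H]

omit [FiniteDimensional ℂ H] in
private theorem OB1_nnadd {a b : Bil H} (h : Nn a) (h' : Nn b) : Nn (a + b) := by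
  intro v
  have e1 : (a + b) v (Complex.I • v) = a v (Complex.I • v) + b v (Complex.I • v) := rfl
  rw [e1]
  exact add_nonneg (h v) (h' v)

omit [FiniteDimensional ℂ H] in
private theorem OB1_nnsmul {a : Bil H} (h : Nn a) {t : ℝ} (ht : 0 ≤ t) : Nn (t • a) := by
  intro v
  have e1 : (t • a) v (Complex.I • v) = t * a v (Complex.I • v) := rfl
  rw [e1]
  exact mul_nonneg ht (h v)

omit [FiniteDimensional ℂ H] in
private theorem OB1_comm {a b d : Bil H} (h : Nn (a + b + d)) : Nn (a + d + b) := by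
  intro v
  have h1 := h v
  have e1 : (a + b + d) v (Complex.I • v) = a v (Complex.I • v) + b v (Complex.I • v) + d v (Complex.I • v) := rfl
  have e2 : (a + d + b) v (Complex.I • v) = a v (Complex.I • v) + d v (Complex.I • v) + b v (Complex.I • v) := rfl
  rw [e1] at h1
  rw [e2]
  linarith

private theorem OB1_w0 : Nn (w0 e : Bil H) := by
  intro v
  rw [w0_self]
  exact Finset.sum_nonneg fun j _ => by positivity

private theorem OB1_up {a : Bil H} {s t : ℝ} (hst : s ≤ t) (h : Nn (a + s • w0 e)) : Nn (a + t • w0 e) := by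
  have e1 : a + t • w0 e = (a + s • w0 e) + (t - s) • w0 e := by
    ext p q
    have h1 : (a + t • w0 e) p q = a p q + t * w0 e p q := rfl
    have h2 : ((a + s • w0 e) + (t - s) • w0 e) p q = (a p q + s * w0 e p q) + (t - s) * w0 e p q := rfl
    rw [h1, h2]
    ring
  rw [e1]
  exact OB1_nnadd h (OB1_nnsmul (OB1_w0 e) (sub_nonneg.2 hst))

omit [FiniteDimensional ℂ H] in
private theorem OB1_two {v : H → ℝ} (hv : ContDiff ℝ ∞ v) (z : H) : ContDiffAt ℝ 2 v z :=
  (hv.contDiffAt).of_le (by norm_cast)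


theorem ad_smooth {c : H → Bil H} {v : H → ℝ} (hv : ContDiff ℝ ∞ v) (h : ∀ z, Nn (c z + ddc v z)) : AD e c v := by
  intro K _ ε hε
  refine ⟨v, hv, fun z _ => ⟨?_, ?_⟩⟩
  · rw [sub_self, abs_zero]
    exact hε.le
  · exact OB1_nnadd (h z) (OB1_nnsmul (OB1_w0 e) hε.le)

theorem ad_mono {c c' : H → Bil H} {w : H → ℝ} (h : AD e c w) (hc : ∀ z, Nn (c' z - c z)) : AD e c' w := by
  intro K hK ε hε
  obtain ⟨v, hv, hz⟩ := h K hK ε hε
  refine ⟨v, hv, fun z hzK => ⟨(hz z hzK).1, ?_⟩⟩
  have e1 : c' z + ddc v z + ε • w0 e = (c' z - c z) + (c z + ddc v z + ε • w0 e) := by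
    ext p q
    have h1 : (c' z + ddc v z + ε • w0 e) p q = c' z p q + ddc v z p q + ε * w0 e p q := rfl
    have h2 : ((c' z - c z) + (c z + ddc v z + ε • w0 e)) p q =
        (c' z p q - c z p q) + (c z p q + ddc v z p q + ε * w0 e p q) := rfl
    rw [h1, h2]
    ring
  rw [e1]
  exact OB1_nnadd (hc z) (hz z hzK).2

theorem ad_max {c : H → Bil H} {u v : H → ℝ} (hu : AD e c u) (hv : AD e c v) : AD e c fun z => max (u z) (v z) := by
  intro K hK ε hε
  obtain ⟨u', hu', hzu⟩ := hu K hK (ε / 4) (by positivity)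
  obtain ⟨v', hv', hzv⟩ := hv K hK (ε / 4) (by positivity)
  have hε4 : 0 < ε / 4 := by positivity
  refine ⟨fun z => rm (ε / 4) (u' z) (v' z), ?_, fun z hz => ⟨?_, ?_⟩⟩
  · rw [contDiff_iff_contDiffAt]
    exact fun z => rm_cd hu'.contDiffAt hv'.contDiffAt
  · have h1 := abs_le.1 (hzu z hz).1
    have h2 := abs_le.1 (hzv z hz).1
    have h3 := left_le_rm hε4 (u' z) (v' z)
    have h4 := right_le_rm hε4 (u' z) (v' z)
    have h5 := rm_le hε4 (u' z) (v' z)
    have h6 : max (u' z) (v' z) ≤ max (u z) (v z) + ε / 4 :=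
      max_le (by linarith [h1.2, le_max_left (u z) (v z)]) (by linarith [h2.2, le_max_right (u z) (v z)])
    have h7 : max (u z) (v z) ≤ rm (ε / 4) (u' z) (v' z) + ε / 4 :=
      max_le (by linarith [h1.1]) (by linarith [h2.1])
    rw [abs_le]
    constructor <;> linarith
  · exact OB1_up e (by linarith)
      (OB1_comm (nn_rm hε4 hu'.contDiffAt hv'.contDiffAt (OB1_comm (hzu z hz).2) (OB1_comm (hzv z hz).2)))

theorem ad_comb {c c' : H → Bil H} {u v : H → ℝ} (hu : AD e c u) (hv : AD e c' v) {t : ℝ} (ht : 0 ≤ t) (ht' : t ≤ 1) :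
    AD e (fun z => (1 - t) • c z + t • c' z) fun z => (1 - t) * u z + t * v z := by
  intro K hK ε hε
  obtain ⟨u', hu', hzu⟩ := hu K hK ε hε
  obtain ⟨v', hv', hzv⟩ := hv K hK ε hε
  have ht1 : 0 ≤ 1 - t := sub_nonneg.2 ht'
  have c1 : ContDiff ℝ ∞ fun z => (1 - t) * u' z := contDiff_const.mul hu'
  have c2 : ContDiff ℝ ∞ fun z => t * v' z := contDiff_const.mul hv'
  refine ⟨fun z => (1 - t) * u' z + t * v' z, c1.add c2, fun z hz => ⟨?_, ?_⟩⟩
  · have h1 := abs_le.1 (hzu z hz).1
    have h2 := abs_le.1 (hzv z hz).1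
    rw [abs_le]
    constructor
    · nlinarith [mul_le_mul_of_nonneg_left h1.1 ht1, mul_le_mul_of_nonneg_left h2.1 ht]
    · nlinarith [mul_le_mul_of_nonneg_left h1.2 ht1, mul_le_mul_of_nonneg_left h2.2 ht]
  · have e0 : ddc (fun z => (1 - t) * u' z + t * v' z) z = (1 - t) • ddc u' z + t • ddc v' z := by
      rw [ddc_add (OB1_two c1 z) (OB1_two c2 z), ddc_smul _ (OB1_two hu' z), ddc_smul _ (OB1_two hv' z)]
    have e1 : ((1 - t) • c z + t • c' z) + ddc (fun z => (1 - t) * u' z + t * v' z) z + ε • w0 e =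
        (1 - t) • (c z + ddc u' z + ε • w0 e) + t • (c' z + ddc v' z + ε • w0 e) := by
      rw [e0]
      ext p q
      have h1 : (((1 - t) • c z + t • c' z) + ((1 - t) • ddc u' z + t • ddc v' z) + ε • w0 e) p q =
          ((1 - t) * c z p q + t * c' z p q) + ((1 - t) * ddc u' z p q + t * ddc v' z p q) + ε * w0 e p q := rfl
      have h2 : ((1 - t) • (c z + ddc u' z + ε • w0 e) + t • (c' z + ddc v' z + ε • w0 e)) p q =
          (1 - t) * (c z p q + ddc u' z p q + ε * w0 e p q) + t * (c' z p q + ddc v' z p q + ε * w0 e p q) := rfl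
      rw [h1, h2]
      ring
    rw [e1]
    exact OB1_nnadd (OB1_nnsmul (hzu z hz).2 ht1) (OB1_nnsmul (hzv z hz).2 ht)

theorem ad_translate {c : H → Bil H} {u : H → ℝ} (hu : AD e c u) (a : H) :
    AD e (fun z => c (z + a)) fun z => u (z + a) := by
  intro K hK ε hε
  obtain ⟨v, hv, hz⟩ := hu ((fun z => z + a) '' K) (hK.image (by fun_prop)) ε hε
  refine ⟨fun z => v (z + a), hv.comp (contDiff_id.add contDiff_const), fun z hzK => ?_⟩
  have h1 := hz (z + a) ⟨z, hzK, rfl⟩
  refine ⟨h1.1, ?_⟩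
  have e1 : fderiv ℝ (fun z => v (z + a)) = fun z => fderiv ℝ v (z + a) := by
    funext y
    exact fderiv_comp_add_right a
  have e2 : ddc (fun z => v (z + a)) z = ddc v (z + a) := by
    ext p q
    rw [ddc_apply, ddc_apply, e1, fderiv_comp_add_right]
  rw [e2]
  exact h1.2

theorem ad_add_const {c : H → Bil H} {u : H → ℝ} (hu : AD e c u) (k : ℝ) : AD e c fun z => u z + k := by
  intro K hK ε hε
  obtain ⟨v, hv, hz⟩ := hu K hK ε hε
  refine ⟨fun z => v z + k, hv.add contDiff_const, fun z hzK => ?_⟩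
  have h1 := hz z hzK
  refine ⟨?_, ?_⟩
  · rw [add_sub_add_right_eq_sub]
    exact h1.1
  · have e1 : fderiv ℝ (fun z => v z + k) = fderiv ℝ v := by
      funext y
      exact fderiv_add_const k
    have e2 : ddc (fun z => v z + k) z = ddc v z := by
      ext p q
      rw [ddc_apply, ddc_apply, e1]
    rw [e2]
    exact h1.2

theorem ad_limit {c : H → Bil H} {w : H → ℝ}
    (h : ∀ K : Set H, IsCompact K → ∀ ε : ℝ, 0 < ε → ∃ v : H → ℝ, AD e c v ∧ ∀ z ∈ K, |v z - w z| ≤ ε) :
    AD e c w := by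
  intro K hK ε hε
  obtain ⟨v, hv, hz⟩ := h K hK (ε / 2) (by positivity)
  obtain ⟨v', hv', hz'⟩ := hv K hK (ε / 2) (by positivity)
  refine ⟨v', hv', fun z hzK => ⟨?_, ?_⟩⟩
  · have h1 := abs_le.1 (hz z hzK)
    have h2 := abs_le.1 (hz' z hzK).1
    rw [abs_le]
    constructor <;> linarith [h1.1, h1.2, h2.1, h2.2]
  · exact OB1_up e (by linarith) (hz' z hzK).2

open Classical in
theorem ad_glue {c : H → Bil H} {P G : H → ℝ} (hP : AD e c P) (hG : ContDiff ℝ ∞ G) {x : H} {r' r δ : ℝ}
    (hr : r' < r) (hδ : 0 < δ) (hn : ∀ z ∈ Metric.ball x r, Nn (c z + ddc G z))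
    (hb : ∀ z ∈ Metric.ball x r, z ∉ Metric.ball x r' → G z + δ ≤ P z) :
    AD e c (fun z => if z ∈ Metric.ball x r then max (P z) (G z) else P z) := by
  intro K hK ε hε
  have hη : 0 < min (ε / 2) (δ / 2) := lt_min (by positivity) (by positivity)
  have hη1 : min (ε / 2) (δ / 2) ≤ ε / 2 := min_le_left _ _
  have hη2 : min (ε / 2) (δ / 2) ≤ δ / 2 := min_le_right _ _
  generalize min (ε / 2) (δ / 2) = η at hη hη1 hη2
  haveI : ProperSpace H := FiniteDimensional.proper ℂ H
  obtain ⟨v, hv, hz⟩ := hP (K ∪ Metric.closedBall x r) (hK.union (isCompact_closedBall x r)) η hη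
  have hin : ∀ z ∈ Metric.ball x r, z ∈ K ∪ Metric.closedBall x r := fun z hzb =>
    Or.inr (Metric.ball_subset_closedBall hzb)
  have g1 : ∀ z ∈ Metric.ball x r,
      (fun z => if z ∈ Metric.ball x r then rm η (v z) (G z) else v z) =ᶠ[nhds z] fun z => rm η (v z) (G z) := by
    intro z hzb
    filter_upwards [Metric.isOpen_ball.mem_nhds hzb] with y hy
    exact if_pos hy
  have g2 : ∀ z, z ∉ Metric.ball x r →
      (fun z => if z ∈ Metric.ball x r then rm η (v z) (G z) else v z) =ᶠ[nhds z] v := by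
    intro z hzb
    have h1 : r' < dist z x := lt_of_lt_of_le hr (not_lt.1 hzb)
    have h2 : ∀ᶠ y in nhds z, r' < dist y x :=
      (continuous_id.dist continuous_const).continuousAt.eventually (isOpen_Ioi.mem_nhds h1)
    filter_upwards [h2] with y hy
    by_cases hyb : y ∈ Metric.ball x r
    · rw [if_pos hyb]
      have h3 : y ∉ Metric.ball x r' := fun h => absurd (Metric.mem_ball.1 h) (not_lt.2 hy.le)
      have h4 := hb y hyb h3
      have h5 := abs_le.1 (hz y (hin y hyb)).1
      exact rm_left hη (by linarith [h5.1])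
    · exact if_neg hyb
  refine ⟨fun z => if z ∈ Metric.ball x r then rm η (v z) (G z) else v z, ?_, fun z hzK => ?_⟩
  · rw [contDiff_iff_contDiffAt]
    intro z
    by_cases hzb : z ∈ Metric.ball x r
    · exact (rm_cd hv.contDiffAt hG.contDiffAt).congr_of_eventuallyEq (g1 z hzb)
    · exact hv.contDiffAt.congr_of_eventuallyEq (g2 z hzb)
  · by_cases hzb : z ∈ Metric.ball x r
    · have hz1 := hz z (hin z hzb)
      refine ⟨?_, ?_⟩
      · dsimp only
        rw [if_pos hzb, if_pos hzb]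
        have h1 := abs_le.1 hz1.1
        have h3 := left_le_rm hη (v z) (G z)
        have h4 := right_le_rm hη (v z) (G z)
        have h5 := rm_le hη (v z) (G z)
        have h6 : max (v z) (G z) ≤ max (P z) (G z) + η :=
          max_le (by linarith [h1.2, le_max_left (P z) (G z)]) (by linarith [le_max_right (P z) (G z)])
        have h7 : max (P z) (G z) ≤ rm η (v z) (G z) + η :=
          max_le (by linarith [h1.1]) (by linarith)
        rw [abs_le]
        constructor <;> linarith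
      · rw [ddc_congr (g1 z hzb)]
        exact OB1_up e (by linarith) (OB1_comm (nn_rm hη hv.contDiffAt hG.contDiffAt (OB1_comm hz1.2)
          (OB1_comm (OB1_nnadd (hn z hzb) (OB1_nnsmul (OB1_w0 e) hη.le)))))
    · have hz1 := hz z (Or.inl hzK)
      refine ⟨?_, ?_⟩
      · dsimp only
        rw [if_neg hzb, if_neg hzb]
        exact hz1.1.trans (by linarith)
      · rw [ddc_congr (g2 z hzb)]
        exact OB1_up e (by linarith) hz1.2

end HDG
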