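import Pool.Agent.HDG.OB1

/-!
# HDG/OB2: the envelope of an obstacle

`Ob c g`: the data of the obstacle problem: `c ≥ 0` is a smooth field of forms, `c = w0` off a ball; `g ≥ 0` is continuous with compact support, Lipschitz,
with second differences `≤ K ‖a‖²`. `Sc c g` is the class of the continuous functions `w`, `0 ≤ w ≤ g`, `c + dd^c w ≥ 0`; `env c g` its supremum.

`exists_kappa'` gives a bounded smooth function `κ` with `c + dd^c κ ≥ s w0`, `s > 0`: a small multiple of `qf e` cut off outside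
a large ball. `c_lip`, `c_sec` bound the first and second differences of `c` (the derivatives of `c` have compact support). The other
statements are the elementary properties of the supremum of `Sc`.
-/

set_option autoImplicit false

noncomputable section

open scoped ContDiff ComplexOrder Topology

namespace HDG

open Pool.Agent.FBR

variable {H : Type*} [NormedAddCommGroup H] [NormedSpace ℂ H] {n : ℕ} (e : Module.Basis (Fin n) ℂ H)

/-- the data of the obstacle problem -/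
structure Ob (c : H → Bil H) (g : H → ℝ) (R K : ℝ) : Prop where
  hR : 0 < R
  hK : 0 ≤ K
  sm : ContDiff ℝ ∞ c
  oo : ∀ z, O11 (c z)
  nn : ∀ z, Nn (c z)
  out : ∀ z, z ∉ qb e R → c z = w0 e
  g0 : ∀ z, 0 ≤ g z
  gs : ∀ z, z ∉ qb e R → g z = 0
  glip : ∀ z a : H, |g (z + a) - g z| ≤ K * ‖a‖
  gsec : ∀ z a : H, g (z + a) + g (z - a) - 2 * g z ≤ K * ‖a‖ ^ 2

/-- the competitors -/
def Sc (c : H → Bil H) (g : H → ℝ) : Set (H → ℝ) := {w | Continuous w ∧ AD e c w ∧ ∀ z, 0 ≤ w z ∧ w z ≤ g z}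

/-- the envelope -/
def env (c : H → Bil H) (g : H → ℝ) (z : H) : ℝ := sSup {y | ∃ w ∈ Sc e c g, w z = y}

variable [FiniteDimensional ℂ H] {c : H → Bil H} {g : H → ℝ} {R K : ℝ}

/-- a continuous function with values in a normed space which vanishes off a ball is bounded -/
private theorem OB2_bdd {V : Type*} [NormedAddCommGroup V] {F : H → V} (hF : Continuous F) {r : ℝ}
    (h : ∀ z, r ^ 2 < qf e z → F z = 0) : ∃ M : ℝ, 0 ≤ M ∧ ∀ z, ‖F z‖ ≤ M := by
  obtain ⟨M, hM⟩ := (isCompact_qb e r).exists_bound_of_continuousOn hF.continuousOn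
  refine ⟨max M 0, le_max_right _ _, fun z => ?_⟩
  by_cases hz : qf e z ≤ r ^ 2
  · exact (hM z hz).trans (le_max_left _ _)
  · rw [h z (not_le.1 hz), norm_zero]
    exact le_max_right _ _

private theorem OB2_nhds {r : ℝ} {z : H} (hz : r ^ 2 < qf e z) : ∀ᶠ y in 𝓝 z, r ^ 2 < qf e y :=
  (qf_smooth e).continuous.continuousAt.eventually (isOpen_Ioi.mem_nhds hz)

private theorem OB2_fd {V : Type*} [NormedAddCommGroup V] [NormedSpace ℝ V] {F : H → V} {r : ℝ} {k : V}
    (h : ∀ z, r ^ 2 < qf e z → F z = k) {z : H} (hz : r ^ 2 < qf e z) : fderiv ℝ F z = 0 := by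
  have h1 : F =ᶠ[𝓝 z] fun _ => k := by
    filter_upwards [OB2_nhds e hz] with y hy
    exact h y hy
  rw [h1.fderiv_eq]
  exact fderiv_const_apply k

private theorem OB2_lip {V : Type*} [NormedAddCommGroup V] [NormedSpace ℝ V] {F : H → V} (hF : ContDiff ℝ ∞ F)
    {r : ℝ} {k : V} (h : ∀ z, r ^ 2 < qf e z → F z = k) :
    ∃ B : ℝ, 0 ≤ B ∧ ∀ z a : H, ‖F (z + a) - F z‖ ≤ B * ‖a‖ := by
  obtain ⟨M, hM0, hM⟩ := OB2_bdd e (hF.continuous_fderiv (by simp)) (fun z hz => OB2_fd e h hz)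
  refine ⟨M, hM0, fun z a => ?_⟩
  have h1 := Convex.norm_image_sub_le_of_norm_fderiv_le (𝕜 := ℝ) (f := F) (s := Set.univ) (C := M) (x := z) (y := z + a)
    (fun x _ => (hF.differentiable (by simp)) x) (fun x _ => hM x) convex_univ trivial trivial
  rwa [add_sub_cancel_left] at h1

private theorem OB2_sec {V : Type*} [NormedAddCommGroup V] [NormedSpace ℝ V] {F : H → V} (hF : ContDiff ℝ ∞ F)
    {r : ℝ} {k : V} (h : ∀ z, r ^ 2 < qf e z → F z = k) :
    ∃ B : ℝ, 0 ≤ B ∧ ∀ z a : H, ‖F (z + a) + F (z - a) - (2 : ℝ) • F z‖ ≤ B * ‖a‖ ^ 2 := by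
  have hf : ContDiff ℝ ∞ (fderiv ℝ F) := hF.fderiv_right (by simp)
  have hdf : Differentiable ℝ F := hF.differentiable (by simp)
  obtain ⟨B, hB0, hB⟩ := OB2_lip e hf (r := r) (k := 0) fun z hz => OB2_fd e h hz
  refine ⟨B, hB0, fun z a => ?_⟩
  have h1 : ∀ y : H, HasFDerivAt (fun y => F (y + a) - F y) (fderiv ℝ F (y + a) - fderiv ℝ F y) y := by
    intro y
    have h0 : HasFDerivAt (fun y : H => y + a) (ContinuousLinearMap.id ℝ H) y := (hasFDerivAt_id y).add_const a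
    have h00 := (hdf (y + a)).hasFDerivAt.comp y h0
    rw [ContinuousLinearMap.comp_id] at h00
    exact h00.sub (hdf y).hasFDerivAt
  have h2 := Convex.norm_image_sub_le_of_norm_hasFDerivWithin_le (𝕜 := ℝ) (f := fun y => F (y + a) - F y)
    (s := Set.univ) (C := B * ‖a‖) (x := z - a) (y := z)
    (fun x _ => (h1 x).hasFDerivWithinAt) (fun x _ => hB x a) convex_univ trivial trivial
  have h3 : F (z + a) + F (z - a) - (2 : ℝ) • F z = (F (z + a) - F z) - (F (z - a + a) - F (z - a)) := by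
    rw [sub_add_cancel, two_smul]
    abel
  rw [h3]
  refine h2.trans (le_of_eq ?_)
  rw [sub_sub_cancel]
  ring

omit [FiniteDimensional ℂ H] in
private theorem OB2_ddc0 (z : H) : ddc (fun _ : H => (0 : ℝ)) z = 0 := by
  ext u v
  rw [ddc_apply]
  simp

theorem exists_kappa' (h : Ob e c g R K) : ∃ (κ : H → ℝ) (s B : ℝ), ContDiff ℝ ∞ κ ∧ 0 < s ∧ 0 ≤ B ∧ (∀ z, |κ z| ≤ B) ∧
    ∀ z, Nn (c z + ddc κ z - s • w0 e) := by
  have hq : ContDiff ℝ ∞ (qf e) := qf_smooth e
  have hζ : ContDiff ℝ ∞ fun z : H => Real.smoothTransition (R ^ 2 + 2 - qf e z) :=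
    Real.smoothTransition.contDiff.comp (contDiff_const.sub hq)
  have hφ : ContDiff ℝ ∞ fun z : H => Real.smoothTransition (R ^ 2 + 2 - qf e z) * qf e z := hζ.mul hq
  have hsq : Real.sqrt (R ^ 2 + 2) ^ 2 = R ^ 2 + 2 := Real.sq_sqrt (by positivity)
  have hz0 : ∀ z : H, Real.sqrt (R ^ 2 + 2) ^ 2 < qf e z →
      Real.smoothTransition (R ^ 2 + 2 - qf e z) * qf e z = 0 := by
    intro z hz
    rw [hsq] at hz
    rw [Real.smoothTransition.zero_of_nonpos (by linarith), zero_mul]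
  have hd0 : ∀ z : H, Real.sqrt (R ^ 2 + 2) ^ 2 < qf e z →
      ddc (fun z : H => Real.smoothTransition (R ^ 2 + 2 - qf e z) * qf e z) z = 0 := by
    intro z hz
    have h1 : (fun z : H => Real.smoothTransition (R ^ 2 + 2 - qf e z) * qf e z) =ᶠ[𝓝 z] fun _ => 0 := by
      filter_upwards [OB2_nhds e hz] with y hy
      exact hz0 y hy
    rw [ddc_congr h1, OB2_ddc0]
  have hin : ∀ z : H, z ∈ qb e R →
      ddc (fun z : H => Real.smoothTransition (R ^ 2 + 2 - qf e z) * qf e z) z = (2 : ℝ) • w0 e := by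
    intro z hz
    have h1 : (fun z : H => Real.smoothTransition (R ^ 2 + 2 - qf e z) * qf e z) =ᶠ[𝓝 z] qf e := by
      filter_upwards [(isOpen_qb e R).mem_nhds hz] with y hy
      have hy' : qf e y < R ^ 2 := hy
      rw [Real.smoothTransition.one_of_one_le (by linarith), one_mul]
    rw [ddc_congr h1, ddc_qf]
  obtain ⟨B, hB0, hB⟩ := OB2_bdd e hφ.continuous hz0
  obtain ⟨M, hM0, hM⟩ := OB2_bdd e (continuous_iff_continuousAt.2 fun z =>
    (ddc_smooth (hφ.contDiffAt (x := z))).continuousAt) hd0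
  obtain ⟨C, hC0, hC⟩ := form_le e
  have hBb : ∀ z : H, |(fun z : H => Real.smoothTransition (R ^ 2 + 2 - qf e z) * qf e z) z| ≤ B := hB
  generalize (fun z : H => Real.smoothTransition (R ^ 2 + 2 - qf e z) * qf e z) = φ at hφ hBb hM hin
  have hD : 0 ≤ C * M := by positivity
  have hs0 : 0 < 1 / (2 * (C * M) + 2) := by positivity
  have hs1 : 1 / (2 * (C * M) + 2) * (2 * (C * M) + 2) = 1 := by field_simp
  generalize 1 / (2 * (C * M) + 2) = s at hs0 hs1
  refine ⟨fun z => s * φ z, s, s * B, contDiff_const.mul hφ, hs0, by positivity, fun z => ?_, fun z v => ?_⟩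
  · rw [abs_mul, abs_of_pos hs0]
    exact mul_le_mul_of_nonneg_left (hBb z) hs0.le
  · have h2 : ddc (fun z => s * φ z) z = s • ddc φ z :=
      ddc_smul s ((hφ.contDiffAt).of_le (by norm_cast))
    rw [h2]
    have h3 : (c z + s • ddc φ z - s • w0 e) v (Complex.I • v) =
        c z v (Complex.I • v) + s * ddc φ z v (Complex.I • v) - s * w0 e v (Complex.I • v) := rfl
    have hqv := qf_nonneg e v
    rw [h3, w0_self]
    by_cases hz : z ∈ qb e R
    · have h4 : ddc φ z v (Complex.I • v) = 2 * qf e v := by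
        rw [hin z hz, smul_apply, smul_apply, w0_self, smul_eq_mul]
      have h5 := h.nn z v
      rw [h4]
      nlinarith
    · rw [h.out z hz, w0_self]
      have h6 := (abs_le.1 ((hC (ddc φ z) v).trans
        (mul_le_mul_of_nonneg_right (mul_le_mul_of_nonneg_left (hM z) hC0.le) hqv))).1
      have h7 : s * -(C * M * qf e v) ≤ s * ddc φ z v (Complex.I • v) := mul_le_mul_of_nonneg_left h6 hs0.le
      have h8 : 0 ≤ s * (C * M) := by positivity
      have h9 : 0 ≤ (1 - s * (C * M) - s) * qf e v := mul_nonneg (by nlinarith) hqv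
      nlinarith

theorem c_lip (h : Ob e c g R K) : ∃ B : ℝ, 0 ≤ B ∧ ∀ z a : H, ‖c (z + a) - c z‖ ≤ B * ‖a‖ :=
  OB2_lip e h.sm (r := R) (k := w0 e) fun z hz => h.out z fun hz' => absurd hz' (not_lt.2 hz.le)

theorem c_sec (h : Ob e c g R K) : ∃ B : ℝ, 0 ≤ B ∧ ∀ z a : H, ‖c (z + a) + c (z - a) - (2 : ℝ) • c z‖ ≤ B * ‖a‖ ^ 2 :=
  OB2_sec e h.sm (r := R) (k := w0 e) fun z hz => h.out z fun hz' => absurd hz' (not_lt.2 hz.le)

theorem sc_zero (h : Ob e c g R K) : (fun _ => 0) ∈ Sc e c g := by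
  refine ⟨continuous_const, ad_smooth e contDiff_const fun z => ?_, fun z => ⟨le_refl _, h.g0 z⟩⟩
  intro v
  have h1 : (c z + ddc (fun _ => (0 : ℝ)) z) v (Complex.I • v) =
      c z v (Complex.I • v) + ddc (fun _ => (0 : ℝ)) z v (Complex.I • v) := rfl
  rw [h1, OB2_ddc0]
  have h2 : (0 : Bil H) v (Complex.I • v) = 0 := rfl
  rw [h2, add_zero]
  exact h.nn z v

theorem sc_max (h : Ob e c g R K) {u v : H → ℝ} (hu : u ∈ Sc e c g) (hv : v ∈ Sc e c g) :
    (fun z => max (u z) (v z)) ∈ Sc e c g := by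
  have _ := h
  exact ⟨hu.1.max hv.1, ad_max e hu.2.1 hv.2.1, fun z =>
    ⟨(hu.2.2 z).1.trans (le_max_left _ _), max_le (hu.2.2 z).2 (hv.2.2 z).2⟩⟩

omit [FiniteDimensional ℂ H] in
private theorem OB2_ba (z : H) : BddAbove {y | ∃ w ∈ Sc e c g, w z = y} := by
  refine ⟨g z, ?_⟩
  rintro y ⟨w, hw, rfl⟩
  exact (hw.2.2 z).2

private theorem OB2_ne (h : Ob e c g R K) (z : H) : {y | ∃ w ∈ Sc e c g, w z = y}.Nonempty :=
  ⟨0, fun _ => 0, sc_zero e h, rfl⟩

theorem le_env (h : Ob e c g R K) {w : H → ℝ} (hw : w ∈ Sc e c g) (z : H) : w z ≤ env e c g z := by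
  have _ := h
  have _ := ‹FiniteDimensional ℂ H›
  exact le_csSup (OB2_ba e z) ⟨w, hw, rfl⟩

theorem env_le (h : Ob e c g R K) (z : H) : env e c g z ≤ g z := by
  refine csSup_le (OB2_ne e h z) ?_
  rintro y ⟨w, hw, rfl⟩
  exact (hw.2.2 z).2

theorem env_nonneg (h : Ob e c g R K) (z : H) : 0 ≤ env e c g z :=
  le_env e h (sc_zero e h) z

theorem env_zero (h : Ob e c g R K) {z : H} (hz : z ∉ qb e R) : env e c g z = 0 :=
  le_antisymm ((env_le e h z).trans (h.gs z hz).le) (env_nonneg e h z)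

/-- approximation of the envelope at finitely many points -/
theorem env_approx (h : Ob e c g R K) (x y : H) {ε : ℝ} (hε : 0 < ε) : ∃ w ∈ Sc e c g, env e c g x - ε ≤ w x ∧
    env e c g y - ε ≤ w y := by
  have key : ∀ z : H, ∃ w ∈ Sc e c g, env e c g z - ε ≤ w z := by
    intro z
    obtain ⟨t, ⟨w, hw, rfl⟩, ht⟩ := exists_lt_of_lt_csSup (OB2_ne e h z) (sub_lt_self (env e c g z) hε)
    exact ⟨w, hw, ht.le⟩
  obtain ⟨u, hu, hu'⟩ := key x
  obtain ⟨v, hv, hv'⟩ := key y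
  exact ⟨fun z => max (u z) (v z), sc_max e h hu hv, hu'.trans (le_max_left _ _), hv'.trans (le_max_right _ _)⟩

end HDG
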