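import Pool.Agent.HDG.OB2

/-!
# HDG/OB3: the envelope is Lipschitz and semiconcave

If `u` is a competitor for the translated (averaged) data `c1`, `c1 - c ≤ t s w0` and `u ≤ g + k`, then the maximum of `0` and
`(1 - t) u + t κ - (k + t B)` is a competitor for `c, g`, hence below the envelope (`OB3_core`). With `u` a translate of a
competitor (resp. the mean of two opposite translates) this gives the Lipschitz bound (resp. the semiconcavity) of the envelope.
-/

set_option autoImplicit false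

noncomputable section

open scoped ContDiff ComplexOrder Topology

namespace HDG

open Pool.Agent.FBR

variable {H : Type*} [NormedAddCommGroup H] [NormedSpace ℂ H] {n : ℕ} (e : Module.Basis (Fin n) ℂ H)
  [FiniteDimensional ℂ H] {c : H → Bil H} {g : H → ℝ} {R K : ℝ}

private lemma OB3_core (h : Ob e c g R K) {κ : H → ℝ} {s B : ℝ} (hκ : ContDiff ℝ ∞ κ) (hs : 0 < s)
    (hB : ∀ z, |κ z| ≤ B) (hn : ∀ z, Nn (c z + ddc κ z - s • w0 e)) {c1 : H → Bil H} {u : H → ℝ}
    (hu : AD e c1 u) (huc : Continuous u) {t k : ℝ} (ht : 0 ≤ t) (ht1 : t ≤ 1) (hk : 0 ≤ k)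
    (hc : ∀ z v, c1 z v (Complex.I • v) - c z v (Complex.I • v) ≤ t * s * qf e v)
    (hug : ∀ z, u z ≤ g z + k) (z : H) : (1 - t) * u z - t * B - (k + t * B) ≤ env e c g z := by
  have ht2 : 0 ≤ 1 - t := sub_nonneg.2 ht1
  have a1 : AD e (fun z => - ddc κ z) κ := ad_smooth e hκ (fun z v => by
    have e1 : (- ddc κ z + ddc κ z) v (Complex.I • v) = - ddc κ z v (Complex.I • v) + ddc κ z v (Complex.I • v) := rfl
    rw [e1]
    linarith)
  have a2 := ad_comb e hu a1 ht ht1
  have a3 : AD e c (fun z => (1 - t) * u z + t * κ z) := by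
    refine ad_mono e a2 (fun z v => ?_)
    have h1 := hn z v
    have e1 : (c z + ddc κ z - s • w0 e) v (Complex.I • v) =
        c z v (Complex.I • v) + ddc κ z v (Complex.I • v) - s * w0 e v (Complex.I • v) := rfl
    have e2 : (c z - ((1 - t) • c1 z + t • (- ddc κ z))) v (Complex.I • v) =
        c z v (Complex.I • v) - ((1 - t) * c1 z v (Complex.I • v) + t * (- ddc κ z v (Complex.I • v))) := rfl
    rw [e1, w0_self] at h1
    rw [e2]
    have h2 := hc z v
    have h3 := qf_nonneg e v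
    nlinarith [mul_nonneg ht h1, mul_le_mul_of_nonneg_left h2 ht2, mul_nonneg (mul_nonneg (mul_nonneg ht ht) hs.le) h3]
  have a4 := ad_max e (sc_zero e h).2.1 (ad_add_const e a3 (-(k + t * B)))
  have a5 : (fun z => max 0 ((1 - t) * u z + t * κ z + -(k + t * B))) ∈ Sc e c g := by
    refine ⟨?_, a4, fun z => ⟨le_max_left _ _, max_le (h.g0 z) ?_⟩⟩
    · have c1 : Continuous κ := hκ.continuous
      fun_prop
    · have h1 := hug z
      have h2 := (abs_le.1 (hB z)).2
      have h3 := h.g0 z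
      nlinarith [mul_le_mul_of_nonneg_left h1 ht2, mul_le_mul_of_nonneg_left h2 ht, mul_nonneg ht (add_nonneg h3 hk)]
  have a6 := le_env e h a5 z
  have a7 : (1 - t) * u z + t * κ z + -(k + t * B) ≤ env e c g z := (le_max_right _ _).trans a6
  have h2 := (abs_le.1 (hB z)).1
  nlinarith [mul_le_mul_of_nonneg_left h2 ht]

private lemma OB3_bdd (h : Ob e c g R K) : ∃ G : ℝ, 0 ≤ G ∧ ∀ z, env e c g z ≤ G := by
  obtain ⟨c0, C0, hc0, hC0, hq⟩ := qf_equiv e
  refine ⟨g 0 + K * (R ^ 2 / c0 + 1), ?_, fun z => ?_⟩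
  · have h1 := h.g0 0
    have h2 := h.hK
    positivity
  · by_cases hz : z ∈ qb e R
    · refine (env_le e h z).trans ?_
      have h1 := (abs_le.1 (h.glip 0 z)).2
      rw [zero_add] at h1
      have h2 : c0 * ‖z‖ ^ 2 ≤ R ^ 2 := (hq z).1.trans (le_of_lt hz)
      have h3 : ‖z‖ ^ 2 ≤ R ^ 2 / c0 := by
        rw [le_div_iff₀ hc0]
        linarith
      have h4 : ‖z‖ ≤ R ^ 2 / c0 + 1 := by nlinarith [sq_nonneg (‖z‖ - 1)]
      have h5 := mul_le_mul_of_nonneg_left h4 h.hK
      linarith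
    · rw [env_zero e h hz]
      have h1 := h.g0 0
      have h2 := h.hK
      positivity

private lemma OB3_eps {x y p : ℝ} (hp : 0 ≤ p) (h : ∀ ε : ℝ, 0 < ε → p * (x - ε) ≤ y) : p * x ≤ y := by
  refine le_of_forall_pos_le_add fun δ hδ => ?_
  have h1 := h (δ / (p + 1)) (by positivity)
  have h2 : p * (δ / (p + 1)) ≤ δ := by
    rw [← mul_div_assoc, div_le_iff₀ (by positivity)]
    nlinarith
  nlinarith

theorem env_sec (h : Ob e c g R K) : ∃ B : ℝ, 0 ≤ B ∧
    ∀ z a : H, env e c g (z + a) + env e c g (z - a) - 2 * env e c g z ≤ B * ‖a‖ ^ 2 := by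
  obtain ⟨κ, s, Bk, hκ, hs, hBk, hBκ, hn⟩ := exists_kappa' e h
  obtain ⟨B, hB, hcs⟩ := c_sec e h
  obtain ⟨C, hC, hfl⟩ := form_le e
  obtain ⟨G, hG, hGe⟩ := OB3_bdd e h
  have hK := h.hK
  refine ⟨(C * B / s) * (2 * G + 4 * Bk) + K, by positivity, fun z a => ?_⟩
  have hE0 := env_nonneg e h z
  have hE1 := hGe (z + a)
  have hE2 := hGe (z - a)
  have ht0 : 0 ≤ C * B / s * ‖a‖ ^ 2 := by positivity
  have hts : C * B / s * ‖a‖ ^ 2 * s = C * B * ‖a‖ ^ 2 := by
    field_simp
  generalize htt : C * B / s * ‖a‖ ^ 2 = t at ht0 hts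
  have hrew : ((C * B / s) * (2 * G + 4 * Bk) + K) * ‖a‖ ^ 2 = t * (2 * G + 4 * Bk) + K * ‖a‖ ^ 2 := by
    rw [← htt]
    ring
  rw [hrew]
  have hKa : 0 ≤ K * ‖a‖ ^ 2 := by positivity
  rcases le_or_gt t 1 with ht1 | ht1
  · have key : (1 - t) * ((env e c g (z + a) + env e c g (z - a)) / 2) ≤ env e c g z + 2 * (t * Bk) + K / 2 * ‖a‖ ^ 2 := by
      refine OB3_eps (sub_nonneg.2 ht1) fun ε hε => ?_
      obtain ⟨w1, hw1, h1, -⟩ := env_approx e h (z + a) (z + a) hε
      obtain ⟨w2, hw2, h2, -⟩ := env_approx e h (z - a) (z - a) hε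
      have b1 : AD e (fun z => c (z + a)) fun z => w1 (z + a) := ad_translate e hw1.2.1 a
      have b2 : AD e (fun z => c (z - a)) fun z => w2 (z - a) := by
        have b := ad_translate e hw2.2.1 (-a)
        simp only [← sub_eq_add_neg] at b
        exact b
      have b3 := ad_comb e b1 b2 (t := 1 / 2) (by norm_num) (by norm_num)
      have hw1c := hw1.1
      have hw2c := hw2.1
      have b4 := OB3_core e h hκ hs hBκ hn b3 (by fun_prop) ht0 ht1 (k := K / 2 * ‖a‖ ^ 2) (by positivity) ?_ ?_ z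
      · have ht2 := sub_nonneg.2 ht1
        nlinarith [mul_le_mul_of_nonneg_left h1 ht2, mul_le_mul_of_nonneg_left h2 ht2]
      · intro y v
        have e1 : ((1 - 1 / 2 : ℝ) • c (y + a) + (1 / 2 : ℝ) • c (y - a)) v (Complex.I • v) =
            (1 - 1 / 2 : ℝ) * c (y + a) v (Complex.I • v) + (1 / 2 : ℝ) * c (y - a) v (Complex.I • v) := rfl
        have e2 : (c (y + a) + c (y - a) - (2 : ℝ) • c y) v (Complex.I • v) =
            c (y + a) v (Complex.I • v) + c (y - a) v (Complex.I • v) - 2 * c y v (Complex.I • v) := rfl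
        have h3 := (abs_le.1 (hfl (c (y + a) + c (y - a) - (2 : ℝ) • c y) v)).2
        rw [e2] at h3
        have h4 := mul_le_mul_of_nonneg_right (mul_le_mul_of_nonneg_left (hcs y a) hC.le) (qf_nonneg e v)
        have h5 : t * s * qf e v = C * (B * ‖a‖ ^ 2) * qf e v := by
          rw [hts]
          ring
        have h6 : 0 ≤ C * (B * ‖a‖ ^ 2) * qf e v := by
          have := qf_nonneg e v
          positivity
        rw [e1, h5]
        linarith
      · intro y
        have h3 := (hw1.2.2 (y + a)).2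
        have h4 := (hw2.2.2 (y - a)).2
        have h5 := h.gsec y a
        linarith
    nlinarith [mul_nonneg ht0 (sub_nonneg.2 hE1), mul_nonneg ht0 (sub_nonneg.2 hE2)]
  · nlinarith [mul_nonneg (sub_nonneg.2 ht1.le) hG, mul_nonneg ht0 hBk]

theorem env_lip (h : Ob e c g R K) : ∃ B : ℝ, 0 ≤ B ∧ ∀ z a : H, |env e c g (z + a) - env e c g z| ≤ B * ‖a‖ := by
  obtain ⟨κ, s, Bk, hκ, hs, hBk, hBκ, hn⟩ := exists_kappa' e h
  obtain ⟨B, hB, hcl⟩ := c_lip e h
  obtain ⟨C, hC, hfl⟩ := form_le e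
  obtain ⟨G, hG, hGe⟩ := OB3_bdd e h
  have hK := h.hK
  have key : ∀ z a : H, env e c g (z + a) - env e c g z ≤ ((C * B / s) * (G + 2 * Bk) + K) * ‖a‖ := by
    intro z a
    have hE0 := env_nonneg e h z
    have hE1 := hGe (z + a)
    have ht0 : 0 ≤ C * B / s * ‖a‖ := by positivity
    have hts : C * B / s * ‖a‖ * s = C * B * ‖a‖ := by
      field_simp
    generalize htt : C * B / s * ‖a‖ = t at ht0 hts
    have hrew : ((C * B / s) * (G + 2 * Bk) + K) * ‖a‖ = t * (G + 2 * Bk) + K * ‖a‖ := by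
      rw [← htt]
      ring
    rw [hrew]
    have hKa : 0 ≤ K * ‖a‖ := by positivity
    rcases le_or_gt t 1 with ht1 | ht1
    · have key : (1 - t) * env e c g (z + a) ≤ env e c g z + 2 * (t * Bk) + K * ‖a‖ := by
        refine OB3_eps (sub_nonneg.2 ht1) fun ε hε => ?_
        obtain ⟨w1, hw1, h1, -⟩ := env_approx e h (z + a) (z + a) hε
        have b1 : AD e (fun z => c (z + a)) fun z => w1 (z + a) := ad_translate e hw1.2.1 a
        have hw1c := hw1.1
        have b4 := OB3_core e h hκ hs hBκ hn b1 (by fun_prop) ht0 ht1 (k := K * ‖a‖) hKa ?_ ?_ z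
        · have ht2 := sub_nonneg.2 ht1
          nlinarith [mul_le_mul_of_nonneg_left h1 ht2]
        · intro y v
          have e2 : (c (y + a) - c y) v (Complex.I • v) = c (y + a) v (Complex.I • v) - c y v (Complex.I • v) := rfl
          have h3 := (abs_le.1 (hfl (c (y + a) - c y) v)).2
          rw [e2] at h3
          have h4 := mul_le_mul_of_nonneg_right (mul_le_mul_of_nonneg_left (hcl y a) hC.le) (qf_nonneg e v)
          have h5 : t * s * qf e v = C * (B * ‖a‖) * qf e v := by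
            rw [hts]
            ring
          rw [h5]
          linarith
        · intro y
          have h3 := (hw1.2.2 (y + a)).2
          have h5 := (abs_le.1 (h.glip y a)).2
          linarith
      nlinarith [mul_nonneg ht0 (sub_nonneg.2 hE1)]
    · nlinarith [mul_nonneg (sub_nonneg.2 ht1.le) hG, mul_nonneg ht0 hBk]
  refine ⟨(C * B / s) * (G + 2 * Bk) + K, by positivity, fun z a => abs_le.2 ⟨?_, key z a⟩⟩
  have h1 := key (z + a) (-a)
  rw [add_neg_cancel_right, norm_neg] at h1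
  linarith

end HDG
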