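import Pool.Agent.HDG.OB3

/-!
# HDG/OB4: the envelope is a competitor

`env` is continuous (`env_lip`); on every compact set it is the uniform limit of competitors (Dini's argument, `IsCompact.induction_on`
with `sc_zero`, `sc_max`, `env_approx`), so `ad_limit` applies.
-/

set_option autoImplicit false

noncomputable section

open scoped ContDiff ComplexOrder Topology

namespace HDG

open Pool.Agent.FBR

variable {H : Type*} [NormedAddCommGroup H] [NormedSpace ℂ H] {n : ℕ} (e : Module.Basis (Fin n) ℂ H)
  [FiniteDimensional ℂ H] {c : H → Bil H} {g : H → ℝ} {R K : ℝ}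

private theorem OB4_cont (h : Ob e c g R K) : Continuous (env e c g) := by
  obtain ⟨B, hB, hl⟩ := env_lip e h
  have h1 : LipschitzWith (Real.toNNReal B) (env e c g) := by
    refine LipschitzWith.of_dist_le_mul fun x y => ?_
    rw [Real.coe_toNNReal B hB, Real.dist_eq, dist_eq_norm]
    have h2 := hl y (x - y)
    rwa [add_sub_cancel] at h2
  exact h1.continuous

theorem env_mem (h : Ob e c g R K) : env e c g ∈ Sc e c g := by
  have hcont := OB4_cont e h
  refine ⟨hcont, ad_limit e ?_, fun z => ⟨env_nonneg e h z, env_le e h z⟩⟩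
  intro S hS ε hε
  have key : ∃ w ∈ Sc e c g, ∀ z ∈ S, env e c g z - ε ≤ w z := by
    refine hS.induction_on (p := fun s => ∃ w ∈ Sc e c g, ∀ z ∈ s, env e c g z - ε ≤ w z) ?_ ?_ ?_ ?_
    · exact ⟨_, sc_zero e h, fun z hz => absurd hz (Set.notMem_empty z)⟩
    · rintro s t hst ⟨w, hw, h1⟩
      exact ⟨w, hw, fun z hz => h1 z (hst hz)⟩
    · rintro s t ⟨w, hw, h1⟩ ⟨w', hw', h1'⟩
      refine ⟨_, sc_max e h hw hw', fun z hz => ?_⟩
      rcases hz with hz | hz
      · exact (h1 z hz).trans (le_max_left _ _)
      · exact (h1' z hz).trans (le_max_right _ _)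
    · intro x _
      obtain ⟨w, hw, h1, _⟩ := env_approx e h x x (half_pos hε)
      refine ⟨{z | env e c g z - ε < w z}, mem_nhdsWithin_of_mem_nhds ?_, w, hw, fun z hz => le_of_lt hz⟩
      refine (isOpen_lt (hcont.sub continuous_const) hw.1).mem_nhds ?_
      show env e c g x - ε < w x
      linarith
  obtain ⟨w, hw, h1⟩ := key
  refine ⟨w, hw.2.1, fun z hz => ?_⟩
  have h2 := h1 z hz
  have h3 := le_env e h hw z
  rw [abs_le]
  constructor
  · linarith
  · linarith

end HDG
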