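import Pool.Agent.HDG.MK2

/-!
# HDG/OB5: functions with bounded second derivatives of their mollifications are `C^{1,1}`

The mollifications `F k` with radius `1 / (k + 1)` satisfy the Taylor bound `|F (z + v) - F z - DF z v| ≤ B ‖v‖ ^ 2`
with a constant independent of `k` (`OB5_quad`), so the derivatives `DF z` are a Cauchy sequence for every `z` (`OB5_cauchy`); the Lipschitz
bound and the Taylor bound pass to the limit. The last clause is differentiation under the integral sign (`OB5_hasFD`).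
-/

set_option autoImplicit false

noncomputable section

open scoped ContDiff ComplexOrder Topology

open MeasureTheory Filter Asymptotics

namespace HDG

open Pool.Agent.FBR

variable {H : Type*} [NormedAddCommGroup H] [NormedSpace ℂ H]
  [FiniteDimensional ℂ H] [MeasurableSpace H] [BorelSpace H] (μ : Measure H) [μ.IsAddHaarMeasure]

omit [FiniteDimensional ℂ H] [MeasurableSpace H] [BorelSpace H] in
private theorem OB5_lip {f : H → ℝ} (hf : ContDiff ℝ ∞ f) {B : ℝ} (hB : ∀ z, ‖fderiv ℝ (fderiv ℝ f) z‖ ≤ B) (x y : H) :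
    ‖fderiv ℝ f x - fderiv ℝ f y‖ ≤ B * ‖x - y‖ := by
  have h1 : Differentiable ℝ (fderiv ℝ f) :=
    (hf.fderiv_right (m := ∞) (by simp)).differentiable (by simp)
  exact Convex.norm_image_sub_le_of_norm_fderiv_le (𝕜 := ℝ) (fun z _ => h1 z) (fun z _ => hB z)
    convex_univ (Set.mem_univ y) (Set.mem_univ x)

omit [FiniteDimensional ℂ H] [MeasurableSpace H] [BorelSpace H] in
private theorem OB5_quad {f : H → ℝ} (hf : ContDiff ℝ ∞ f) {B : ℝ} (hB : ∀ z, ‖fderiv ℝ (fderiv ℝ f) z‖ ≤ B) (z v : H) :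
    |f (z + v) - f z - fderiv ℝ f z v| ≤ B * ‖v‖ ^ 2 := by
  have hB0 : 0 ≤ B := (ContinuousLinearMap.opNorm_nonneg _).trans (hB 0)
  have h1 : Differentiable ℝ f := hf.differentiable (by simp)
  have h2 := Convex.norm_image_sub_le_of_norm_fderiv_le' (𝕜 := ℝ) (f := f) (φ := fderiv ℝ f z) (C := B * ‖v‖)
    (s := Metric.closedBall z ‖v‖) (x := z) (y := z + v) (fun w _ => h1 w) (fun w hw => by
      refine (OB5_lip hf hB w z).trans (mul_le_mul_of_nonneg_left ?_ hB0)
      rw [Metric.mem_closedBall, dist_eq_norm] at hw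
      exact hw) (convex_closedBall _ _) (Metric.mem_closedBall_self (norm_nonneg _)) (by
      rw [Metric.mem_closedBall, dist_eq_norm, add_sub_cancel_left])
  rw [add_sub_cancel_left, Real.norm_eq_abs] at h2
  calc _ ≤ B * ‖v‖ * ‖v‖ := h2
    _ = _ := by ring

/-- the radius -/
private def OB5_d (k : ℕ) : ℝ := 1 / ((k : ℝ) + 1)

private theorem OB5_d_pos (k : ℕ) : 0 < OB5_d k := by
  unfold OB5_d
  positivity

private theorem OB5_d_le (k : ℕ) : OB5_d k ≤ 1 := by
  unfold OB5_d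
  rw [div_le_one (by positivity)]
  have : (0 : ℝ) ≤ k := Nat.cast_nonneg k
  linarith

private theorem OB5_d_lim : Tendsto OB5_d atTop (𝓝 0) := tendsto_one_div_add_atTop_nhds_zero_nat

/-- locally uniform convergence of the mollifications -/
private theorem OB5_unif {P : H → ℝ} (hP : Continuous P) (z : H) {ε : ℝ} (hε : 0 < ε) :
    ∀ᶠ k in atTop, ∀ w ∈ Metric.closedBall z 1, |mo μ (OB5_d k) P w - P w| ≤ ε := by
  have : ProperSpace H := FiniteDimensional.proper ℂ H
  have h1 : UniformContinuousOn P (Metric.closedBall z 2) :=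
    (isCompact_closedBall z 2).uniformContinuousOn_of_continuous hP.continuousOn
  obtain ⟨η, hη, h2⟩ := Metric.uniformContinuousOn_iff.1 h1 ε hε
  have h3 : ∀ᶠ k in atTop, OB5_d k < η := OB5_d_lim.eventually_lt_const hη
  filter_upwards [h3] with k hk w hw
  refine mo_lim μ hP (OB5_d_pos k).le fun a ha => ?_
  rw [Metric.mem_closedBall, dist_eq_norm] at hw
  have h4 := h2 (w - a) (by
    rw [Metric.mem_closedBall, dist_eq_norm, show w - a - z = (w - z) - a by abel]
    have := norm_sub_le (w - z) a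
    have := OB5_d_le k
    linarith) w (by
    rw [Metric.mem_closedBall, dist_eq_norm]
    linarith) (by
    rw [dist_eq_norm, show w - a - w = -a by abel, norm_neg]
    exact ha.trans_lt hk)
  rw [Real.dist_eq] at h4
  exact h4.le

private theorem OB5_cauchy {P : H → ℝ} (hP : Continuous P) {B : ℝ}
    (hB : ∀ δ : ℝ, 0 < δ → δ ≤ 1 → ∀ z : H, ‖fderiv ℝ (fderiv ℝ (mo μ δ P)) z‖ ≤ B) (z : H) :
    CauchySeq fun k => fderiv ℝ (mo μ (OB5_d k) P) z := by
  have hB0 : 0 ≤ B := (ContinuousLinearMap.opNorm_nonneg _).trans (hB 1 one_pos le_rfl 0)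
  rw [Metric.cauchySeq_iff]
  intro ε hε
  -- step size
  set s : ℝ := min 1 (ε / (8 * (B + 1))) with hs
  have hs0 : 0 < s := lt_min one_pos (by positivity)
  have hs1 : s ≤ 1 := min_le_left _ _
  have hs2 : s * (8 * (B + 1)) ≤ ε := by
    have := min_le_right 1 (ε / (8 * (B + 1)))
    rw [← hs, le_div_iff₀ (by positivity)] at this
    exact this
  obtain ⟨N, hN⟩ := eventually_atTop.1 (OB5_unif μ hP z (ε := s * ε / 16) (by positivity))
  refine ⟨N, fun m hm n hn => ?_⟩
  have hsm : ∀ k, ContDiff ℝ ∞ (mo μ (OB5_d k) P) := fun k => mo_smooth μ (OB5_d_pos k) hP.locallyIntegrable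
  have hq : ∀ k (v : H), |mo μ (OB5_d k) P (z + v) - mo μ (OB5_d k) P z - fderiv ℝ (mo μ (OB5_d k) P) z v| ≤ B * ‖v‖ ^ 2 :=
    fun k v => OB5_quad (hsm k) (hB _ (OB5_d_pos k) (OB5_d_le k)) z v
  rw [dist_eq_norm]
  refine lt_of_le_of_lt (ContinuousLinearMap.opNorm_le_bound _ (M := ε / 2) (by positivity) fun v => ?_) (half_lt_self hε)
  rcases eq_or_ne v 0 with rfl | hv
  · simp
  have hv0 : 0 < ‖v‖ := norm_pos_iff.2 hv
  have hu : ‖(s / ‖v‖) • v‖ = s := by
    rw [norm_smul, Real.norm_of_nonneg (by positivity), div_mul_cancel₀ _ hv0.ne']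
  have hzu : z + (s / ‖v‖) • v ∈ Metric.closedBall z 1 := by
    rw [Metric.mem_closedBall, dist_eq_norm, add_sub_cancel_left, hu]
    exact hs1
  have hz : z ∈ Metric.closedBall z 1 := Metric.mem_closedBall_self zero_le_one
  have a1 := abs_le.1 (hq m ((s / ‖v‖) • v))
  have a2 := abs_le.1 (hq n ((s / ‖v‖) • v))
  have a3 := abs_le.1 (hN m hm _ hzu)
  have a4 := abs_le.1 (hN m hm _ hz)
  have a5 := abs_le.1 (hN n hn _ hzu)
  have a6 := abs_le.1 (hN n hn _ hz)
  rw [hu] at a1 a2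
  rw [ContinuousLinearMap.map_smul, smul_eq_mul] at a1 a2
  have hBs : B * s ^ 2 ≤ s * ε / 8 := by
    have : s * (s * (8 * (B + 1))) ≤ s * ε := mul_le_mul_of_nonneg_left hs2 hs0.le
    nlinarith
  have key : |s / ‖v‖ * (fderiv ℝ (mo μ (OB5_d m) P) z v - fderiv ℝ (mo μ (OB5_d n) P) z v)| ≤ s * (ε / 2) := by
    rw [mul_sub, abs_le]
    constructor <;> linarith
  rw [abs_mul, abs_of_pos (by positivity : (0 : ℝ) < s / ‖v‖), div_mul_eq_mul_div, div_le_iff₀ hv0, mul_assoc] at key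
  rw [sub_apply, Real.norm_eq_abs]
  exact le_of_mul_le_mul_left key hs0

private theorem OB5_int {F : Type*} [NormedAddCommGroup F] [NormedSpace ℝ F] {g : H → F} (hg : Continuous g) :
    Integrable (fun y => ker μ y • g y) μ := by
  have hk := ker_spec μ
  exact ((hk.1.continuous.smul hg).integrable_of_hasCompactSupport (hk.2.1.smul_right))

private theorem OB5_hasFD {F : Type*} [NormedAddCommGroup F] [NormedSpace ℝ F] {P : H → F} (hP : ContDiff ℝ 1 P)
    {δ : ℝ} (hδ : 0 < δ) (z : H) :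
    HasFDerivAt (fun z => ∫ y, ker μ y • P (z - (δ : ℂ) • y) ∂μ)
      (∫ y, ker μ y • fderiv ℝ P (z - (δ : ℂ) • y) ∂μ) z := by
  have hk := ker_spec μ
  have : ProperSpace H := FiniteDimensional.proper ℂ H
  have hPc : Continuous P := hP.continuous
  have hdc : Continuous (fderiv ℝ P) := hP.continuous_fderiv (by norm_num)
  have hlin : ∀ x : H, Continuous fun y : H => x - (δ : ℂ) • y := fun x =>
    continuous_const.sub (continuous_const_smul _)
  have hcomp : IsCompact (Metric.closedBall z (1 + δ)) := isCompact_closedBall z (1 + δ)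
  obtain ⟨C, hC⟩ := hcomp.exists_bound_of_continuousOn (f := fderiv ℝ P) hdc.continuousOn
  have hker0 : ∀ y, 1 ≤ ‖y‖ → ker μ y = 0 := hk.2.2.2.1
  have hkn : ∀ y, 0 ≤ ker μ y := hk.2.2.1
  refine hasFDerivAt_integral_of_dominated_of_fderiv_le (𝕜 := ℝ) (E := F) (H := H) (μ := μ)
    (F := fun x y => ker μ y • P (x - (δ : ℂ) • y))
    (F' := fun x y => ker μ y • fderiv ℝ P (x - (δ : ℂ) • y)) (s := Metric.ball z 1)
    (bound := fun y => ker μ y * C) (Metric.ball_mem_nhds z one_pos) ?_ ?_ ?_ ?_ ?_ ?_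
  · exact Filter.Eventually.of_forall fun x =>
      (hk.1.continuous.smul (hPc.comp (hlin x))).aestronglyMeasurable
  · exact OB5_int μ (hPc.comp (hlin z))
  · exact (hk.1.continuous.smul (hdc.comp (hlin z))).aestronglyMeasurable
  · refine Filter.Eventually.of_forall fun y x hx => ?_
    show ‖ker μ y • fderiv ℝ P (x - (δ : ℂ) • y)‖ ≤ ker μ y * C
    rw [norm_smul, Real.norm_of_nonneg (hkn y)]
    by_cases hy : 1 ≤ ‖y‖
    · rw [hker0 y hy, zero_mul, zero_mul]
    · apply mul_le_mul_of_nonneg_left _ (hkn y)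
      apply hC
      rw [Metric.mem_closedBall, dist_eq_norm]
      have h1 : x - (δ : ℂ) • y - z = (x - z) - (δ : ℂ) • y := by abel
      rw [h1]
      have h2 : ‖x - z‖ < 1 := by rwa [Metric.mem_ball, dist_eq_norm] at hx
      have h3 : ‖(δ : ℂ) • y‖ ≤ δ := by
        rw [norm_smul, Complex.norm_real, Real.norm_of_nonneg hδ.le]
        have h4 : ‖y‖ ≤ 1 := le_of_lt (not_le.1 hy)
        calc δ * ‖y‖ ≤ δ * 1 := mul_le_mul_of_nonneg_left h4 hδ.le
          _ = δ := mul_one δ
      calc ‖(x - z) - (δ : ℂ) • y‖ ≤ ‖x - z‖ + ‖(δ : ℂ) • y‖ := norm_sub_le _ _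
        _ ≤ 1 + δ := add_le_add h2.le h3
  · exact (hk.1.continuous.integrable_of_hasCompactSupport hk.2.1).mul_const C
  · refine Filter.Eventually.of_forall fun y x _ => ?_
    have h1 : HasFDerivAt P (fderiv ℝ P (x - (δ : ℂ) • y)) (x - (δ : ℂ) • y) :=
      (hP.differentiable (by norm_num) _).hasFDerivAt
    have h2 : HasFDerivAt (fun x : H => x - (δ : ℂ) • y) (ContinuousLinearMap.id ℝ H) x :=
      (hasFDerivAt_id x).sub_const _
    have h3 := h1.comp x h2
    rw [ContinuousLinearMap.comp_id] at h3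
    exact h3.const_smul (ker μ y)

/-- `P` is `C¹` with a `B`-Lipschitz derivative `G`, and the derivative of the mollification is the mollification of `G` -/
theorem c11 {P : H → ℝ} (hP : Continuous P) {B : ℝ}
    (hB : ∀ δ : ℝ, 0 < δ → δ ≤ 1 → ∀ z : H, ‖fderiv ℝ (fderiv ℝ (mo μ δ P)) z‖ ≤ B) :
    ∃ G : H → (H →L[ℝ] ℝ), (∀ x y, ‖G x - G y‖ ≤ B * ‖x - y‖) ∧ (∀ z, HasFDerivAt P (G z) z) ∧
      ∀ δ : ℝ, 0 < δ → ∀ z : H, fderiv ℝ (mo μ δ P) z = ∫ y, ker μ y • G (z - (δ : ℂ) • y) ∂μ := by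
  have hB0 : 0 ≤ B := (ContinuousLinearMap.opNorm_nonneg _).trans (hB 1 one_pos le_rfl 0)
  have hsm : ∀ k, ContDiff ℝ ∞ (mo μ (OB5_d k) P) := fun k => mo_smooth μ (OB5_d_pos k) hP.locallyIntegrable
  have hlim : ∀ z, ∃ L, Tendsto (fun k => fderiv ℝ (mo μ (OB5_d k) P) z) atTop (𝓝 L) := fun z =>
    cauchySeq_tendsto_of_complete (OB5_cauchy μ hP hB z)
  choose G hG using hlim
  have hF : ∀ z, Tendsto (fun k => mo μ (OB5_d k) P z) atTop (𝓝 (P z)) := fun z => by
    rw [Metric.tendsto_nhds]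
    intro ε hε
    filter_upwards [OB5_unif μ hP z (half_pos hε)] with k hk
    rw [Real.dist_eq]
    exact (hk z (Metric.mem_closedBall_self zero_le_one)).trans_lt (half_lt_self hε)
  have hLip : ∀ x y, ‖G x - G y‖ ≤ B * ‖x - y‖ := fun x y =>
    le_of_tendsto ((hG x).sub (hG y)).norm (Eventually.of_forall fun k =>
      OB5_lip (hsm k) (hB _ (OB5_d_pos k) (OB5_d_le k)) x y)
  have hq : ∀ z v : H, |P (z + v) - P z - G z v| ≤ B * ‖v‖ ^ 2 := fun z v => by
    have h1 : Tendsto (fun k => fderiv ℝ (mo μ (OB5_d k) P) z v) atTop (𝓝 (G z v)) :=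
      ((ContinuousLinearMap.apply ℝ ℝ v).continuous.tendsto _).comp (hG z)
    exact le_of_tendsto (((hF (z + v)).sub (hF z)).sub h1).abs (Eventually.of_forall fun k =>
      OB5_quad (hsm k) (hB _ (OB5_d_pos k) (OB5_d_le k)) z v)
  have hFD : ∀ z, HasFDerivAt P (G z) z := fun z => by
    rw [hasFDerivAt_iff_isLittleO_nhds_zero]
    have h1 : (fun v : H => P (z + v) - P z - G z v) =O[𝓝 0] fun v : H => ‖v‖ ^ 2 :=
      IsBigO.of_bound B (Eventually.of_forall fun v => by
        rw [Real.norm_eq_abs, Real.norm_of_nonneg (by positivity)]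
        exact hq z v)
    exact h1.trans_isLittleO (isLittleO_norm_pow_id one_lt_two)
  have hd : fderiv ℝ P = G := funext fun z => (hFD z).fderiv
  have hGc : Continuous G := by
    refine (LipschitzWith.of_dist_le_mul (K := ⟨B, hB0⟩) fun x y => ?_).continuous
    rw [dist_eq_norm, dist_eq_norm]
    exact hLip x y
  have hC1 : ContDiff ℝ 1 P := contDiff_one_iff_fderiv.2 ⟨fun z => (hFD z).differentiableAt, by rw [hd]; exact hGc⟩
  refine ⟨G, hLip, hFD, fun δ hδ z => ?_⟩
  have h1 := (OB5_hasFD μ hC1 hδ z).fderiv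
  rw [hd] at h1
  exact h1

end HDG
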