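import Pool.Agent.HDG.OB4
import Pool.Agent.HDG.MK2

/-!
# HDG/OB6: the mollified envelope

`mo_nn`: the mollification of a function `P` with `c + dd^c P ≥ 0` satisfies `c + dd^c (mo δ P) + C δ w0 ≥ 0` if `c` is Lipschitz:
approximate `P` by smooth functions (`AD`), mollify (`mo_ddc`) and compare (`mo_close`).
`env_mo`: for the envelope `P` the second derivative `Q` of the mollification satisfies `Q(a,a) ≤ B ‖a‖²` (`mo_sec`), hence
by `mo_nn` also `Q(a,a) ≥ - B' ‖a‖²`, and polarization bounds the norm of `Q`.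
-/

set_option autoImplicit false

noncomputable section

open scoped ContDiff ComplexOrder Topology

open MeasureTheory Filter

namespace HDG

open Pool.Agent.FBR

variable {H : Type*} [NormedAddCommGroup H] [NormedSpace ℂ H] {n : ℕ} (e : Module.Basis (Fin n) ℂ H)
  [FiniteDimensional ℂ H] [MeasurableSpace H] [BorelSpace H] (μ : Measure H) [μ.IsAddHaarMeasure]
  {c : H → Bil H} {g : H → ℝ} {R K : ℝ}

omit [FiniteDimensional ℂ H] [MeasurableSpace H] [BorelSpace H] in
private theorem OB6_nI (v : H) : ‖Complex.I • v‖ = ‖v‖ := by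
  rw [norm_smul, Complex.norm_I, one_mul]

omit [FiniteDimensional ℂ H] [MeasurableSpace H] [BorelSpace H] in
private theorem OB6_ev3 (a b d : Bil H) (t : ℝ) (v w : H) : (a + b + t • d) v w = a v w + b v w + t * d v w := rfl

omit [FiniteDimensional ℂ H] [MeasurableSpace H] [BorelSpace H] in
/-- the form `ddc` at `(v, i v)` depends continuously on the second derivative -/
private theorem OB6_diff (f f' : H → ℝ) (z v : H) {ε : ℝ}
    (h : ‖fderiv ℝ (fderiv ℝ f) z - fderiv ℝ (fderiv ℝ f') z‖ ≤ ε) :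
    ddc f' z v (Complex.I • v) - ε * ‖v‖ ^ 2 ≤ ddc f z v (Complex.I • v) := by
  have key : ∀ w : H, fderiv ℝ (fderiv ℝ f') z w w - ε * ‖w‖ ^ 2 ≤ fderiv ℝ (fderiv ℝ f) z w w := by
    intro w
    have h1 : |(fderiv ℝ (fderiv ℝ f) z - fderiv ℝ (fderiv ℝ f') z) w w| ≤
        ‖fderiv ℝ (fderiv ℝ f) z - fderiv ℝ (fderiv ℝ f') z‖ * ‖w‖ * ‖w‖ :=
      (fderiv ℝ (fderiv ℝ f) z - fderiv ℝ (fderiv ℝ f') z).le_opNorm₂ w w
    have h2 : ‖fderiv ℝ (fderiv ℝ f) z - fderiv ℝ (fderiv ℝ f') z‖ * ‖w‖ * ‖w‖ ≤ ε * ‖w‖ * ‖w‖ :=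
      mul_le_mul_of_nonneg_right (mul_le_mul_of_nonneg_right h (norm_nonneg w)) (norm_nonneg w)
    have h3 : (fderiv ℝ (fderiv ℝ f) z - fderiv ℝ (fderiv ℝ f') z) w w =
        fderiv ℝ (fderiv ℝ f) z w w - fderiv ℝ (fderiv ℝ f') z w w := rfl
    rw [h3] at h1
    have h4 := (abs_le.1 (h1.trans h2)).1
    have h5 : ε * ‖w‖ ^ 2 = ε * ‖w‖ * ‖w‖ := by ring
    linarith
  rw [ddc_self, ddc_self]
  have k1 := key v
  have k2 := key (Complex.I • v)
  rw [OB6_nI] at k2
  linarith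

theorem mo_nn {P : H → ℝ} (hP : Continuous P) (hA : AD e c P) {B : ℝ} (hB : 0 ≤ B)
    (hc : ∀ z a : H, ‖c (z + a) - c z‖ ≤ B * ‖a‖) : ∃ C : ℝ, 0 ≤ C ∧ ∀ δ : ℝ, 0 < δ → ∀ z,
      Nn (c z + ddc (mo μ δ P) z + (C * δ) • w0 e) := by
  obtain ⟨C, hC, hf⟩ := form_le e
  have : ProperSpace H := FiniteDimensional.proper ℂ H
  obtain ⟨k1, k2, k3, k4, k5, k6⟩ := ker_spec (H := H) μ
  refine ⟨C * B, by positivity, fun δ hδ z x => ?_⟩
  rw [OB6_ev3, w0_self]
  obtain ⟨C2, hC2, hcl⟩ := mo_close μ hδ z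
  have hq := qf_nonneg e x
  have key : ∀ η : ℝ, 0 < η → - (η * (qf e x + C2 * ‖x‖ ^ 2)) ≤
      c z x (Complex.I • x) + ddc (mo μ δ P) z x (Complex.I • x) + C * B * δ * qf e x := by
    intro η hη
    obtain ⟨v, hv, hz⟩ := hA (Metric.closedBall z δ) (isCompact_closedBall z δ) η hη
    have hin : ∀ a : H, ‖a‖ ≤ δ → z - a ∈ Metric.closedBall z δ := by
      intro a ha
      rw [Metric.mem_closedBall, dist_eq_norm]
      have h1 : z - a - z = -a := by abel
      rw [h1, norm_neg]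
      exact ha
    have h1 := hcl P v η hP hv.continuous (fun a ha => by
      rw [abs_sub_comm]
      exact (hz _ (hin a ha)).1)
    have h2 := OB6_diff (mo μ δ P) (mo μ δ v) z x h1
    -- the mollification of `v`
    have hki : Integrable (ker μ : H → ℝ) μ := k1.continuous.integrable_of_hasCompactSupport k2
    have hcd : Continuous fun y : H => ddc v (z - (δ : ℂ) • y) x (Complex.I • x) := by
      have h3 : Continuous (ddc v) := continuous_iff_continuousAt.2 fun y =>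
        (ddc_smooth (hv.contDiffAt)).continuousAt
      have h4 : Continuous fun y : H => ddc v (z - (δ : ℂ) • y) :=
        h3.comp (continuous_const.sub (continuous_const_smul _))
      exact (h4.clm_apply continuous_const).clm_apply continuous_const
    have hint : Integrable (fun y => ker μ y * ddc v (z - (δ : ℂ) • y) x (Complex.I • x)) μ :=
      (k1.continuous.mul hcd).integrable_of_hasCompactSupport (k2.mul_right)
    have h5 : - (c z x (Complex.I • x)) - C * B * δ * qf e x - η * qf e x ≤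
        ddc (mo μ δ v) z x (Complex.I • x) := by
      rw [mo_ddc μ hv hδ]
      have e1 : ∫ y, ker μ y * (- (c z x (Complex.I • x)) - C * B * δ * qf e x - η * qf e x) ∂μ =
          - (c z x (Complex.I • x)) - C * B * δ * qf e x - η * qf e x := by
        rw [integral_mul_const, k5, one_mul]
      rw [← e1]
      refine integral_mono (hki.mul_const _) hint fun y => ?_
      show ker μ y * (- (c z x (Complex.I • x)) - C * B * δ * qf e x - η * qf e x) ≤
        ker μ y * ddc v (z - (δ : ℂ) • y) x (Complex.I • x)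
      by_cases hy : 1 ≤ ‖y‖
      · rw [k4 y hy, zero_mul, zero_mul]
      · refine mul_le_mul_of_nonneg_left ?_ (k3 y)
        have hn : ‖(δ : ℂ) • y‖ ≤ δ := by
          rw [norm_smul, Complex.norm_real, Real.norm_of_nonneg hδ.le]
          exact mul_le_of_le_one_right hδ.le (not_le.1 hy).le
        have h6 := (hz _ (hin _ hn)).2 x
        rw [OB6_ev3, w0_self] at h6
        have h7 := hf (c (z + -((δ : ℂ) • y)) - c z) x
        have h8 := hc z (-((δ : ℂ) • y))
        rw [norm_neg] at h8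
        have h9 : ‖c (z + -((δ : ℂ) • y)) - c z‖ ≤ B * δ := h8.trans (mul_le_mul_of_nonneg_left hn hB)
        have h10 : C * ‖c (z + -((δ : ℂ) • y)) - c z‖ * qf e x ≤ C * (B * δ) * qf e x :=
          mul_le_mul_of_nonneg_right (mul_le_mul_of_nonneg_left h9 hC.le) hq
        rw [← sub_eq_add_neg] at h7 h10
        have h11 : (c (z - (δ : ℂ) • y) - c z) x (Complex.I • x) =
            c (z - (δ : ℂ) • y) x (Complex.I • x) - c z x (Complex.I • x) := rfl
        rw [h11] at h7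
        have h12 := (abs_le.1 (h7.trans h10)).2
        linarith
    linarith
  by_contra hneg
  rw [not_le] at hneg
  generalize c z x (Complex.I • x) + ddc (mo μ δ P) z x (Complex.I • x) + C * B * δ * qf e x = T at key hneg
  have hS : 0 ≤ qf e x + C2 * ‖x‖ ^ 2 := by positivity
  generalize qf e x + C2 * ‖x‖ ^ 2 = S at key hS
  have h1 := key (-T / (2 * (S + 1))) (div_pos (neg_pos.2 hneg) (by positivity))
  have h2 : -T / (2 * (S + 1)) * S ≤ -T / 2 := by
    rw [div_mul_eq_mul_div, div_le_div_iff₀ (by positivity) (by norm_num)]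
    nlinarith
  linarith

omit [FiniteDimensional ℂ H] [MeasurableSpace H] [BorelSpace H] in
private theorem OB6_bd2 {a : Bil H} {K : ℝ}
    (h : ∀ u v : H, ‖u‖ ≤ 1 → ‖v‖ ≤ 1 → |a u v| ≤ K) (u v : H) : |a u v| ≤ K * ‖u‖ * ‖v‖ := by
  by_cases hu : u = 0
  · subst hu
    rw [map_zero, zero_apply, abs_zero, norm_zero, mul_zero, zero_mul]
  by_cases hv : v = 0
  · subst hv
    rw [map_zero, abs_zero, norm_zero, mul_zero]
  have nu : 0 < ‖u‖ := norm_pos_iff.mpr hu
  have nv : 0 < ‖v‖ := norm_pos_iff.mpr hv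
  have h1 : ‖(‖u‖⁻¹ : ℝ) • u‖ ≤ 1 := by
    rw [norm_smul, norm_inv, norm_norm, inv_mul_cancel₀ nu.ne']
  have h2 : ‖(‖v‖⁻¹ : ℝ) • v‖ ≤ 1 := by
    rw [norm_smul, norm_inv, norm_norm, inv_mul_cancel₀ nv.ne']
  have h3 := h _ _ h1 h2
  rw [map_smul, map_smul, smul_apply, smul_eq_mul, smul_eq_mul, abs_mul, abs_mul, abs_inv, abs_inv,
    abs_of_pos nu, abs_of_pos nv] at h3
  have h4 : |a u v| = (‖v‖⁻¹ * (‖u‖⁻¹ * |a u v|)) * ‖u‖ * ‖v‖ := by
    field_simp
  rw [h4]
  exact mul_le_mul_of_nonneg_right (mul_le_mul_of_nonneg_right h3 nu.le) nv.le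

omit [FiniteDimensional ℂ H] [MeasurableSpace H] [BorelSpace H] in
/-- polarization -/
private theorem OB6_pol {a : Bil H} (hs : ∀ u v : H, a u v = a v u) {M : ℝ} (hM : 0 ≤ M)
    (h : ∀ v : H, |a v v| ≤ M * ‖v‖ ^ 2) : ‖a‖ ≤ 2 * M := by
  refine ContinuousLinearMap.opNorm_le_bound₂ a (by positivity) fun u v => ?_
  refine OB6_bd2 (fun u v hu hv => ?_) u v
  have hp : 4 * a u v = a (u + v) (u + v) - a (u - v) (u - v) := by
    have h1 := hs u v
    simp only [map_add, map_sub, add_apply, sub_apply]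
    linarith
  have q1 : M * ‖u + v‖ ^ 2 ≤ M * 4 := by
    refine mul_le_mul_of_nonneg_left ?_ hM
    calc ‖u + v‖ ^ 2 ≤ 2 ^ 2 := pow_le_pow_left₀ (norm_nonneg _) ((norm_add_le u v).trans (by linarith)) 2
      _ = 4 := by norm_num
  have q2 : M * ‖u - v‖ ^ 2 ≤ M * 4 := by
    refine mul_le_mul_of_nonneg_left ?_ hM
    calc ‖u - v‖ ^ 2 ≤ 2 ^ 2 := pow_le_pow_left₀ (norm_nonneg _) ((norm_sub_le u v).trans (by linarith)) 2
      _ = 4 := by norm_num
  have r1 := abs_le.1 ((h (u + v)).trans q1)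
  have r2 := abs_le.1 ((h (u - v)).trans q2)
  rw [abs_le]
  constructor <;> linarith [r1.1, r1.2, r2.1, r2.2]

omit [MeasurableSpace H] [BorelSpace H] in
private theorem OB6_cont (h : Ob e c g R K) : Continuous (env e c g) := by
  obtain ⟨B, hB, hl⟩ := env_lip e h
  have h1 : LipschitzWith (Real.toNNReal B) (env e c g) := by
    refine LipschitzWith.of_dist_le_mul fun x y => ?_
    rw [Real.coe_toNNReal B hB, Real.dist_eq, dist_eq_norm]
    have h2 := hl y (x - y)
    rwa [add_sub_cancel] at h2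
  exact h1.continuous

omit [MeasurableSpace H] [BorelSpace H] in
private theorem OB6_bdd (h : Ob e c g R K) : ∃ B : ℝ, 0 ≤ B ∧ ∀ z, ‖c z‖ ≤ B := by
  obtain ⟨B, hB⟩ := (isCompact_qb e R).exists_bound_of_continuousOn (f := c) h.sm.continuous.continuousOn
  have hw : 0 ≤ ‖(w0 e : Bil H)‖ := by positivity
  refine ⟨max B ‖(w0 e : Bil H)‖, le_max_of_le_right hw, fun z => ?_⟩
  by_cases hz : z ∈ (qb e R : Set H)
  · have h0 : qf e z < R ^ 2 := hz
    have h1 : z ∈ {z : H | qf e z ≤ R ^ 2} := h0.le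
    exact (hB z h1).trans (le_max_left _ _)
  · rw [h.out z hz]
    exact le_max_right _ _

theorem env_mo (h : Ob e c g R K) : ∃ B : ℝ, 0 ≤ B ∧ ∀ δ : ℝ, 0 < δ → δ ≤ 1 → ∀ z : H,
    |mo μ δ (env e c g) z - env e c g z| ≤ B * δ ∧
    ‖fderiv ℝ (fderiv ℝ (mo μ δ (env e c g))) z‖ ≤ B ∧
    Nn (c z + ddc (mo μ δ (env e c g)) z + (B * δ) • w0 e) := by
  obtain ⟨B1, hB1, hl⟩ := env_lip e h
  obtain ⟨B2, hB2, hs⟩ := env_sec e h
  obtain ⟨B3, hB3, hcl⟩ := c_lip e h
  have hcont := OB6_cont e h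
  obtain ⟨C1, hC1, hn⟩ := mo_nn e μ hcont (env_mem e h).2.1 hB3 hcl
  obtain ⟨Bc, hBc, hbc⟩ := OB6_bdd e h
  obtain ⟨c0, C0, hc0, hC0, hq⟩ := qf_equiv (H := H) e
  have hM : 0 ≤ 2 * (Bc + C1 * C0) + B2 := by positivity
  refine ⟨B1 + C1 + 2 * (2 * (Bc + C1 * C0) + B2), by positivity, fun δ hδ hδ1 z => ⟨?_, ?_, ?_⟩⟩
  · have h1 : |mo μ δ (env e c g) z - env e c g z| ≤ B1 * δ := by
      refine mo_lim μ hcont hδ.le fun a ha => ?_
      have h2 := hl z (-a)
      rw [← sub_eq_add_neg, norm_neg] at h2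
      exact h2.trans (mul_le_mul_of_nonneg_left ha hB1)
    refine h1.trans (mul_le_mul_of_nonneg_right ?_ hδ.le)
    linarith
  · have hsm : ContDiff ℝ ∞ (mo μ δ (env e c g)) := mo_smooth μ hδ hcont.locallyIntegrable
    have hsy : ∀ u v : H, fderiv ℝ (fderiv ℝ (mo μ δ (env e c g))) z u v =
        fderiv ℝ (fderiv ℝ (mo μ δ (env e c g))) z v u := by
      have h1 : ContDiffAt ℝ 2 (mo μ δ (env e c g)) z := hsm.contDiffAt.of_le (by norm_cast)
      exact fun u v => (h1.isSymmSndFDerivAt (by simp)) u v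
    have hb : ∀ v : H, |fderiv ℝ (fderiv ℝ (mo μ δ (env e c g))) z v v| ≤
        (2 * (Bc + C1 * C0) + B2) * ‖v‖ ^ 2 := by
      intro v
      have h1 := mo_sec μ hcont hδ hs z v
      have h2 := mo_sec μ hcont hδ hs z (Complex.I • v)
      rw [OB6_nI] at h2
      have h3 := hn δ hδ z v
      rw [OB6_ev3, w0_self, ddc_self] at h3
      have h4 : |c z v (Complex.I • v)| ≤ Bc * ‖v‖ ^ 2 := by
        have h5 : |c z v (Complex.I • v)| ≤ ‖c z‖ * ‖v‖ * ‖Complex.I • v‖ := (c z).le_opNorm₂ v (Complex.I • v)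
        rw [OB6_nI] at h5
        refine h5.trans ?_
        have h6 : ‖c z‖ * ‖v‖ * ‖v‖ ≤ Bc * ‖v‖ * ‖v‖ :=
          mul_le_mul_of_nonneg_right (mul_le_mul_of_nonneg_right (hbc z) (norm_nonneg v)) (norm_nonneg v)
        linarith
      have h7 : C1 * δ * qf e v ≤ C1 * C0 * ‖v‖ ^ 2 := by
        have h8 : C1 * δ ≤ C1 * 1 := mul_le_mul_of_nonneg_left hδ1 hC1
        have h9 : C1 * δ * qf e v ≤ C1 * 1 * qf e v := mul_le_mul_of_nonneg_right h8 (qf_nonneg e v)
        have h10 : C1 * 1 * qf e v ≤ C1 * 1 * (C0 * ‖v‖ ^ 2) :=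
          mul_le_mul_of_nonneg_left (hq v).2 (by positivity)
        linarith
      have h11 := (abs_le.1 h4).2
      have h12 : 0 ≤ Bc * ‖v‖ ^ 2 := by positivity
      have h13 : 0 ≤ C1 * C0 * ‖v‖ ^ 2 := by positivity
      rw [abs_le]
      constructor <;> linarith
    have h2 := OB6_pol hsy hM hb
    linarith
  · intro v
    have h1 := hn δ hδ z v
    rw [OB6_ev3, w0_self] at h1 ⊢
    have h2 : C1 * δ * qf e v ≤ (B1 + C1 + 2 * (2 * (Bc + C1 * C0) + B2)) * δ * qf e v := by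
      refine mul_le_mul_of_nonneg_right (mul_le_mul_of_nonneg_right ?_ hδ.le) (qf_nonneg e v)
      linarith
    linarith

end HDG
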