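import Pool.Agent.HDG.OB5

/-!
# HDG/OB7: second order expansions almost everywhere

`P` is differentiable with Lipschitz derivative `G` (`c11`), and `G` is differentiable almost everywhere (Rademacher). At such a
point the second derivative `Q` is symmetric and the mean value inequality gives the expansion of second order. The mollification
at `x` with radius `δ` is the mollification at `0` with radius `1` of `w ↦ P (x + δ w)`, which is close to a quadratic
polynomial with second derivative `δ² Q`; the second derivative of the mollification of the polynomial is `δ² Q` as well.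
-/

set_option autoImplicit false

noncomputable section

open scoped ContDiff ComplexOrder Topology

open MeasureTheory Filter Asymptotics

namespace HDG

open Pool.Agent.FBR

variable {H : Type*} [NormedAddCommGroup H] [NormedSpace ℂ H]
  [FiniteDimensional ℂ H] [MeasurableSpace H] [BorelSpace H] (μ : Measure H) [μ.IsAddHaarMeasure]

private theorem OB7_lo {P : H → ℝ} {G : H → H →L[ℝ] ℝ} (hD : ∀ z, HasFDerivAt P (G z) z) {x : H}
    {Q : H →L[ℝ] H →L[ℝ] ℝ} (hQ : HasFDerivAt G Q x) (hs : ∀ u v, Q u v = Q v u) :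
    (fun a : H => P (x + a) - P x - G x a - (1 / 2) * Q a a) =o[𝓝 0] fun a => ‖a‖ ^ 2 := by
  rw [isLittleO_iff]
  intro ε hε
  have h1 := (hasFDerivAt_iff_isLittleO_nhds_zero.1 hQ).def hε
  obtain ⟨r, hr, hball⟩ := Metric.eventually_nhds_iff_ball.1 h1
  filter_upwards [Metric.ball_mem_nhds (0 : H) hr] with a ha
  have hφ : ∀ b : H, HasFDerivAt (fun b : H => P (x + b) - P x - G x b - (1 / 2) * Q b b) (G (x + b) - G x - Q b) b := by
    intro b
    have e1 : HasFDerivAt (fun b : H => P (x + b)) (G (x + b)) b := by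
      have h2 : HasFDerivAt (fun b : H => P (x + b)) ((G (x + b)).comp (ContinuousLinearMap.id ℝ H)) b :=
        (hD (x + b)).comp b ((hasFDerivAt_id b).const_add x)
      rwa [ContinuousLinearMap.comp_id] at h2
    have e2 : HasFDerivAt (fun b : H => Q b b) (Q b + Q b) b := by
      have h2 := Q.hasFDerivAt.clm_apply (hasFDerivAt_id b)
      refine h2.congr_fderiv ?_
      ext v
      simp [hs v b]
    have e3 := ((e1.sub_const (P x)).sub (G x).hasFDerivAt).sub (e2.const_mul (1 / 2))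
    refine e3.congr_fderiv ?_
    ext v
    simp
    ring
  have h2 := (convex_closedBall (0 : H) ‖a‖).norm_image_sub_le_of_norm_hasFDerivWithin_le (C := ε * ‖a‖)
    (fun b _ => (hφ b).hasFDerivWithinAt)
    (fun b hb => by
      have hb' : ‖b‖ ≤ ‖a‖ := by simpa using hb
      have ha' : ‖a‖ < r := by simpa using ha
      have h3 := hball b (by simpa using lt_of_le_of_lt hb' ha')
      exact h3.trans (mul_le_mul_of_nonneg_left hb' hε.le))
    (Metric.mem_closedBall_self (norm_nonneg a)) (by simp : a ∈ Metric.closedBall (0 : H) ‖a‖)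
  have h3 : P (x + 0) - P x - G x 0 - (1 / 2) * Q 0 0 = 0 := by simp
  rw [h3, sub_zero, sub_zero] at h2
  refine h2.trans (le_of_eq ?_)
  rw [norm_pow, norm_norm]
  ring

private theorem OB7_end {E : Type*} [NormedAddCommGroup E] [NormedSpace ℝ E] {A Q : E} {t b : ℝ} (ht : 0 < t)
    (h : ‖t • A - t • Q‖ ≤ b * t) : dist A Q ≤ b := by
  rw [← smul_sub, norm_smul, Real.norm_of_nonneg ht.le, mul_comm] at h
  rw [dist_eq_norm]
  exact le_of_mul_le_mul_right h ht

private theorem OB7_scale {f : H → ℝ} (hf : ContDiff ℝ ∞ f) (x : H) (δ : ℝ) :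
    fderiv ℝ (fderiv ℝ (fun w : H => f (x + δ • w))) 0 = δ ^ 2 • fderiv ℝ (fderiv ℝ f) x := by
  have hl : ∀ w : H, HasFDerivAt (fun w : H => x + δ • w) (δ • ContinuousLinearMap.id ℝ H) w := fun w =>
    ((hasFDerivAt_id w).const_smul δ).const_add x
  have h1 : ∀ w : H, fderiv ℝ (fun w : H => f (x + δ • w)) w = δ • fderiv ℝ f (x + δ • w) := by
    intro w
    have h2 := ((hf.differentiable (by simp)) (x + δ • w)).hasFDerivAt.comp w (hl w)
    rw [show (fun w : H => f (x + δ • w)) = f ∘ fun w : H => x + δ • w from rfl, h2.fderiv]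
    ext v
    simp
  have h3 : fderiv ℝ (fun w : H => f (x + δ • w)) = fun w : H => δ • fderiv ℝ f (x + δ • w) := funext h1
  rw [h3]
  have hd : Differentiable ℝ (fderiv ℝ f) := ((contDiff_infty_iff_fderiv.1 hf).2).differentiable (by simp)
  have h4 : HasFDerivAt (fun w : H => fderiv ℝ f (x + δ • w)) ((fderiv ℝ (fderiv ℝ f) (x + δ • (0 : H))).comp (δ • ContinuousLinearMap.id ℝ H)) 0 :=
    (hd (x + δ • (0 : H))).hasFDerivAt.comp 0 (hl 0)
  have h5 : HasFDerivAt (fun w : H => δ • fderiv ℝ f (x + δ • w))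
      (δ • (fderiv ℝ (fderiv ℝ f) (x + δ • (0 : H))).comp (δ • ContinuousLinearMap.id ℝ H)) 0 := h4.const_smul δ
  rw [h5.fderiv]
  ext u v
  simp
  ring

private theorem OB7_quad (p : ℝ) (l : H →L[ℝ] ℝ) (Q : H →L[ℝ] H →L[ℝ] ℝ) (hs : ∀ u v, Q u v = Q v u) (z : H) :
    fderiv ℝ (fderiv ℝ (mo μ 1 (fun w : H => p + l w + (1 / 2) * Q w w))) z = Q := by
  have hsm : ContDiff ℝ ∞ (fun w : H => p + l w + (1 / 2) * Q w w) := by
    have e1 : ContDiff ℝ ∞ (fun w : H => Q w w) := Q.contDiff.clm_apply contDiff_id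
    exact (contDiff_const.add l.contDiff).add (contDiff_const.mul e1)
  have hd : ∀ b : H, fderiv ℝ (fun w : H => p + l w + (1 / 2) * Q w w) b = l + Q b := by
    intro b
    have e2 : HasFDerivAt (fun b : H => Q b b) (Q b + Q b) b := by
      have h2 := Q.hasFDerivAt.clm_apply (hasFDerivAt_id b)
      refine h2.congr_fderiv ?_
      ext v
      simp [hs v b]
    have e3 : HasFDerivAt (fun w : H => p + l w + (1 / 2) * Q w w) (l + (1 / 2 : ℝ) • (Q b + Q b)) b :=
      (l.hasFDerivAt.const_add p (x := b)).add (e2.const_mul (1 / 2))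
    rw [e3.fderiv]
    ext v
    simp
    ring
  obtain ⟨k1, k2, -, -, k5, -⟩ := ker_spec (H := H) μ
  have hi1 : Integrable (ker μ : H → ℝ) μ := k1.continuous.integrable_of_hasCompactSupport k2
  have hi2 : Integrable (fun y : H => ker μ y • Q y) μ := by
    refine Continuous.integrable_of_hasCompactSupport (k1.continuous.smul Q.continuous) ?_
    exact k2.smul_right
  have h1 : fderiv ℝ (mo μ 1 (fun w : H => p + l w + (1 / 2) * Q w w)) = fun z : H => (l + Q z) - ∫ y, ker μ y • Q y ∂μ := by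
    funext z
    rw [(mo_hasFDerivAt μ hsm one_pos z).fderiv]
    have h2 : ∀ y : H, ker μ y • fderiv ℝ (fun w : H => p + l w + (1 / 2) * Q w w) (z - ((1 : ℝ) : ℂ) • y) =
        ker μ y • (l + Q z) - ker μ y • Q y := by
      intro y
      rw [hd, Complex.ofReal_one, one_smul, map_sub, ← add_sub_assoc, smul_sub]
    rw [integral_congr_ae (Eventually.of_forall h2), integral_sub (hi1.smul_const _) hi2, integral_smul_const, k5, one_smul]
  rw [h1]
  have h3 : HasFDerivAt (fun z : H => (l + Q z) - ∫ y, ker μ y • Q y ∂μ) Q z :=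
    (Q.hasFDerivAt.const_add l (x := z)).sub_const (∫ y, ker μ y • Q y ∂μ)
  exact h3.fderiv

/-- second order expansion of `P` at `x` with the second derivative `Q` -/
def Peano (P : H → ℝ) (x : H) (Q : H →L[ℝ] H →L[ℝ] ℝ) : Prop :=
  (∀ u v, Q u v = Q v u) ∧ ∃ l : H →L[ℝ] ℝ,
    (fun a : H => P (x + a) - P x - l a - (1 / 2) * Q a a) =o[𝓝 0] fun a => ‖a‖ ^ 2

theorem second_order {P : H → ℝ} (hP : Continuous P) {B : ℝ}
    (hB : ∀ δ : ℝ, 0 < δ → δ ≤ 1 → ∀ z : H, ‖fderiv ℝ (fderiv ℝ (mo μ δ P)) z‖ ≤ B) :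
    ∀ᵐ x ∂μ, ∃ Q : H →L[ℝ] H →L[ℝ] ℝ, Peano P x Q ∧
      Tendsto (fun δ : ℝ => fderiv ℝ (fderiv ℝ (mo μ δ P)) x) (𝓝[>] 0) (𝓝 Q) := by
  obtain ⟨G, hG, hD, -⟩ := c11 μ hP hB
  have hB0 : 0 ≤ B := le_trans (norm_nonneg (fderiv ℝ (fderiv ℝ (mo μ 1 P)) 0)) (hB 1 one_pos le_rfl 0)
  have hlip : LipschitzWith (Real.toNNReal B) G := LipschitzWith.of_dist_le_mul fun x y => by
    rw [dist_eq_norm, dist_eq_norm, Real.coe_toNNReal _ hB0]
    exact hG x y
  filter_upwards [hlip.ae_differentiableAt (μ := μ)] with x hx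
  have hQ : HasFDerivAt G (fderiv ℝ G x) x := hx.hasFDerivAt
  have hs : ∀ u v, fderiv ℝ G x u v = fderiv ℝ G x v u := fun u v => second_derivative_symmetric hD hQ u v
  generalize fderiv ℝ G x = Q at hQ hs
  have hlo := OB7_lo hD hQ hs
  refine ⟨Q, ⟨hs, G x, hlo⟩, ?_⟩
  obtain ⟨C, hC, hcl⟩ := mo_close (H := H) μ one_pos (0 : H)
  refine (Metric.tendsto_nhds (α := H →L[ℝ] H →L[ℝ] ℝ)).2 fun η hη => ?_
  have hε : 0 < η / (2 * (C + 1)) := by positivity
  obtain ⟨r, hr, hball⟩ := Metric.eventually_nhds_iff_ball.1 ((isLittleO_iff.1 hlo) hε)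
  have hmem : Set.Ioo (0 : ℝ) r ∈ 𝓝[>] (0 : ℝ) := Ioo_mem_nhdsGT hr
  filter_upwards [hmem] with δ hδ
  obtain ⟨hδ0, hδr⟩ := hδ
  have hsm : ContDiff ℝ ∞ (mo μ δ P) := mo_smooth μ hδ0 hP.locallyIntegrable
  have hsc : mo μ 1 (fun w : H => P (x + δ • w)) = fun w : H => mo μ δ P (x + δ • w) := by
    funext w
    unfold mo
    refine integral_congr_ae (Eventually.of_forall fun y => ?_)
    show ker μ y * P (x + δ • (w - ((1 : ℝ) : ℂ) • y)) = ker μ y * P (x + δ • w - (δ : ℂ) • y)
    rw [Complex.ofReal_one, one_smul, Complex.coe_smul, smul_sub, add_sub_assoc]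
  have h1 := OB7_scale hsm x δ
  have h2 := OB7_quad μ (P x) (δ • G x) (δ ^ 2 • Q) (fun u v => by simp [hs u v]) 0
  have h3 := hcl (fun w : H => P (x + δ • w)) (fun w : H => P x + (δ • G x) w + (1 / 2) * (δ ^ 2 • Q) w w)
    (η / (2 * (C + 1)) * δ ^ 2) (hP.comp (continuous_const.add (continuous_const.smul continuous_id)))
    (by
      have e1 : Continuous (fun w : H => (δ ^ 2 • Q) w w) := (δ ^ 2 • Q).continuous.clm_apply continuous_id
      exact (continuous_const.add (δ • G x).continuous).add (continuous_const.mul e1))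
    (by
      intro a ha
      have h4 : ‖δ • (-a)‖ ≤ δ := by
        rw [norm_smul, norm_neg, Real.norm_of_nonneg hδ0.le]
        exact mul_le_of_le_one_right hδ0.le ha
      have h5 := hball (δ • (-a)) (by
        rw [mem_ball_zero_iff]
        exact lt_of_le_of_lt h4 hδr)
      have h6 : P (x + δ • (0 - a)) - (P x + (δ • G x) (0 - a) + (1 / 2) * (δ ^ 2 • Q) (0 - a) (0 - a)) =
          P (x + δ • (-a)) - P x - G x (δ • (-a)) - (1 / 2) * Q (δ • (-a)) (δ • (-a)) := by
        rw [zero_sub]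
        simp
        ring
      have h7 : ‖‖δ • (-a)‖ ^ 2‖ ≤ δ ^ 2 := by
        rw [norm_pow, norm_norm]
        exact pow_le_pow_left₀ (norm_nonneg _) h4 2
      rw [h6]
      calc _ ≤ η / (2 * (C + 1)) * ‖‖δ • (-a)‖ ^ 2‖ := h5
        _ ≤ _ := mul_le_mul_of_nonneg_left h7 hε.le)
  rw [hsc, h1, h2] at h3
  have h5 : 0 < δ ^ 2 := by positivity
  have h4 := OB7_end (E := H →L[ℝ] H →L[ℝ] ℝ) h5 (h3.trans (le_of_eq (mul_assoc _ _ _).symm))
  refine lt_of_le_of_lt h4 ?_
  have h5 : C * (η / (2 * (C + 1))) ≤ (C + 1) * (η / (2 * (C + 1))) :=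
    mul_le_mul_of_nonneg_right (by linarith) hε.le
  have h6 : (C + 1) * (η / (2 * (C + 1))) = η / 2 := by
    field_simp
  linarith

end HDG
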