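import Pool.Agent.HDG.OB4
import Pool.Agent.HDG.OB7
import Pool.Agent.HDG.LA2

/-!
# HDG/OB8: the envelope at a point with a second order expansion

`lv Q` is the `(1,1)`-form `dd^c` of a function with second derivative `Q`. `contact`: comparison at a contact point.
`noncontact`: at a point off the contact set the determinant of `c + lv Q` vanishes (otherwise the envelope could be raised
by gluing in a quadratic polynomial).
-/

set_option autoImplicit false

noncomputable section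

open scoped ContDiff ComplexOrder Topology

open MeasureTheory Filter Asymptotics

namespace HDG

open Pool.Agent.FBR

variable {H : Type*} [NormedAddCommGroup H] [NormedSpace ℂ H] {n : ℕ} (e : Module.Basis (Fin n) ℂ H)

/-- `dd^c` of a function with second derivative `Q` -/
def lv (Q : H →L[ℝ] H →L[ℝ] ℝ) : Bil H :=
  (1 / 2 : ℝ) • (Q.comp (Complex.I • ContinuousLinearMap.id ℝ H) -
    (Q.comp (Complex.I • ContinuousLinearMap.id ℝ H)).flip)

theorem ddc_eq_lv (φ : H → ℝ) (z : H) : ddc φ z = lv (fderiv ℝ (fderiv ℝ φ) z) := rfl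

private theorem OB8_lv_apply (Q : H →L[ℝ] H →L[ℝ] ℝ) (u v : H) :
    lv Q u v = (1 / 2) * (Q (Complex.I • u) v - Q (Complex.I • v) u) := rfl

private theorem OB8_II (w : H) : Complex.I • Complex.I • w = -w := by
  rw [smul_smul, Complex.I_mul_I, neg_smul, one_smul]

private def OB8_L (H : Type*) [NormedAddCommGroup H] [NormedSpace ℂ H] : Bil H →L[ℝ] Bil H :=
  (1 / 2 : ℝ) • (((ContinuousLinearMap.compL ℝ H H (H →L[ℝ] ℝ)).flip
      (Complex.I • ContinuousLinearMap.id ℝ H)) -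
    ((ContinuousLinearMap.flipₗᵢ ℝ H H ℝ).toContinuousLinearEquiv : Bil H →L[ℝ] Bil H).comp
      ((ContinuousLinearMap.compL ℝ H H (H →L[ℝ] ℝ)).flip
      (Complex.I • ContinuousLinearMap.id ℝ H)))

theorem lv_continuous : Continuous (lv : (H →L[ℝ] H →L[ℝ] ℝ) → Bil H) :=
  (ContinuousLinearMap.continuous (M₁ := Bil H) (M₂ := Bil H) (OB8_L H) :)

theorem lv_O11 {Q : H →L[ℝ] H →L[ℝ] ℝ} (hQ : ∀ u v, Q u v = Q v u) : O11 (lv Q) := by
  refine ⟨fun v => ?_, fun u v => ?_⟩
  · rw [OB8_lv_apply, sub_self, mul_zero]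
  · rw [OB8_lv_apply, OB8_lv_apply, OB8_II, OB8_II, map_neg, map_neg, neg_apply, neg_apply,
      hQ u, hQ v]
    ring

theorem lv_self (Q : H →L[ℝ] H →L[ℝ] ℝ) (v : H) :
    lv Q v (Complex.I • v) = (Q v v + Q (Complex.I • v) (Complex.I • v)) / 2 := by
  rw [OB8_lv_apply, OB8_II, map_neg, neg_apply]
  ring

private theorem OB8_quad (l : H →L[ℝ] ℝ) {Q : H →L[ℝ] H →L[ℝ] ℝ} (hQ : ∀ u v, Q u v = Q v u) (a : H) :
    HasFDerivAt (fun a : H => l a + (1 / 2) * Q a a) (l + Q a) a := by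
  have h1 : HasFDerivAt (fun a : H => Q a a) ((Q a).comp (ContinuousLinearMap.id ℝ H) + Q.flip a) a :=
    Q.hasFDerivAt.clm_apply (hasFDerivAt_id a)
  have h2 := l.hasFDerivAt.add (h1.const_mul (1 / 2 : ℝ))
  refine h2.congr_fderiv ?_
  ext v
  simp only [add_apply, smul_apply, ContinuousLinearMap.comp_apply,
    ContinuousLinearMap.id_apply, ContinuousLinearMap.flip_apply, smul_eq_mul]
  rw [hQ v a]
  ring

private theorem OB8_taylor {f : H → ℝ} (hf : ContDiff ℝ ∞ f) (x : H) :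
    (fun a : H => f (x + a) - f x - fderiv ℝ f x a - (1 / 2) * fderiv ℝ (fderiv ℝ f) x a a) =o[𝓝 0]
      fun a => ‖a‖ ^ 2 := by
  have hD : HasFDerivAt (fderiv ℝ f) (fderiv ℝ (fderiv ℝ f) x) x := by
    have h1 : ContDiff ℝ ∞ (fderiv ℝ f) := hf.fderiv_right (by norm_num)
    exact (h1.differentiable (by norm_num)).differentiableAt.hasFDerivAt
  have hsym : ∀ u v, fderiv ℝ (fderiv ℝ f) x u v = fderiv ℝ (fderiv ℝ f) x v u := by
    have h1 : ContDiffAt ℝ 2 f x := hf.contDiffAt.of_le (by norm_cast)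
    have h2 : IsSymmSndFDerivAt ℝ f x := h1.isSymmSndFDerivAt (by simp)
    intro u v
    exact h2 u v
  have hF : ∀ a : H, HasFDerivAt
      (fun a : H => f (x + a) - f x - (fderiv ℝ f x a + (1 / 2) * fderiv ℝ (fderiv ℝ f) x a a))
      (fderiv ℝ f (x + a) - (fderiv ℝ f x + fderiv ℝ (fderiv ℝ f) x a)) a := by
    intro a
    have h1 : HasFDerivAt f (fderiv ℝ f (x + a)) (x + a) :=
      (hf.differentiable (by norm_num)).differentiableAt.hasFDerivAt
    have h2 : HasFDerivAt (fun a : H => f (x + a)) (fderiv ℝ f (x + a)) a := by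
      have h3 := h1.comp a ((hasFDerivAt_id a).const_add x)
      exact h3
    exact (h2.sub_const (f x)).sub (OB8_quad (fderiv ℝ f x) hsym a)
  rw [isLittleO_iff]
  intro ε hε
  have h1 := hasFDerivAt_iff_isLittleO_nhds_zero.1 hD
  rw [isLittleO_iff] at h1
  obtain ⟨δ, hδ, h2⟩ := Metric.eventually_nhds_iff_ball.1 (h1 hε)
  filter_upwards [Metric.ball_mem_nhds (0 : H) hδ] with a ha
  have ha' : ‖a‖ < δ := by simpa using ha
  have h3 := Convex.norm_image_sub_le_of_norm_hasFDerivWithin_le (𝕜 := ℝ)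
    (f := fun a : H => f (x + a) - f x - (fderiv ℝ f x a + (1 / 2) * fderiv ℝ (fderiv ℝ f) x a a))
    (s := Metric.closedBall (0 : H) ‖a‖) (C := ε * ‖a‖)
    (fun b _ => (hF b).hasFDerivWithinAt) (fun b hb => by
      have hb' : ‖b‖ ≤ ‖a‖ := by simpa using hb
      have h4 := h2 b (by simpa using lt_of_le_of_lt hb' ha')
      rw [← sub_sub]
      exact h4.trans (mul_le_mul_of_nonneg_left hb' hε.le))
    (convex_closedBall _ _) (x := 0) (y := a) (by simp) (by simp)
  simp only [add_zero, sub_self, map_zero, mul_zero, sub_zero] at h3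
  rw [Real.norm_of_nonneg (sq_nonneg ‖a‖)]
  calc _ = ‖f (x + a) - f x - (fderiv ℝ f x a + (1 / 2) * fderiv ℝ (fderiv ℝ f) x a a)‖ := by
        rw [sub_sub (f (x + a) - f x)]
    _ ≤ ε * ‖a‖ * ‖a‖ := h3
    _ = ε * ‖a‖ ^ 2 := by ring

private theorem OB8_ge {P f : H → ℝ} {x : H} {Q : H →L[ℝ] H →L[ℝ] ℝ} (hQ : Peano P x Q) (hf : ContDiff ℝ ∞ f)
    (hle : ∀ᶠ z in 𝓝 x, P z ≤ f z) (hx : P x = f x) (v : H) :
    Q v v ≤ fderiv ℝ (fderiv ℝ f) x v v := by
  obtain ⟨_, l, hl⟩ := hQ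
  have ht := OB8_taylor hf x
  set D := fderiv ℝ (fderiv ℝ f) x with hD
  by_contra hcon
  rw [not_le] at hcon
  have hv : v ≠ 0 := by
    rintro rfl
    simp at hcon
  have hv' : 0 < ‖v‖ ^ 2 := by positivity
  set m := Q v v - D v v with hm
  have hm0 : 0 < m := by linarith
  set ε := m / (8 * ‖v‖ ^ 2) with hε
  have hε0 : 0 < ε := by positivity
  have h1 : ∀ᶠ a : H in 𝓝 0, P (x + a) ≤ f (x + a) := by
    have h2 : Tendsto (fun a : H => x + a) (𝓝 0) (𝓝 x) := by
      have h3 : Tendsto (fun a : H => x + a) (𝓝 0) (𝓝 (x + 0)) :=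
        (continuous_const.add continuous_id).tendsto 0
      rwa [add_zero] at h3
    exact h2.eventually hle
  have h4 : ∀ᶠ a : H in 𝓝 0, (l a - fderiv ℝ f x a) + (1 / 2) * (Q a a - D a a) ≤ 2 * (ε * ‖a‖ ^ 2) := by
    filter_upwards [h1, isLittleO_iff.1 hl hε0, isLittleO_iff.1 ht hε0] with a ha hb hc
    rw [Real.norm_of_nonneg (sq_nonneg ‖a‖), Real.norm_eq_abs, abs_le] at hb hc
    have hb1 := hb.1
    have hb2 := hb.2
    have hc1 := hc.1
    have hc2 := hc.2
    rw [hx] at hb1 hb2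
    linarith
  have h5 : ∀ᶠ t : ℝ in 𝓝[>] 0, ((l (t • v) - fderiv ℝ f x (t • v)) + (1 / 2) * (Q (t • v) (t • v) -
      D (t • v) (t • v)) ≤ 2 * (ε * ‖t • v‖ ^ 2)) ∧ ((l (-(t • v)) - fderiv ℝ f x (-(t • v))) +
      (1 / 2) * (Q (-(t • v)) (-(t • v)) - D (-(t • v)) (-(t • v))) ≤ 2 * (ε * ‖-(t • v)‖ ^ 2)) := by
    have h6 : Tendsto (fun t : ℝ => t • v) (𝓝[>] 0) (𝓝 0) := by
      have h7 : Tendsto (fun t : ℝ => t • v) (𝓝 0) (𝓝 ((0 : ℝ) • v)) :=
        (continuous_id.smul continuous_const).tendsto 0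
      rw [zero_smul] at h7
      exact h7.mono_left nhdsWithin_le_nhds
    have h8 : Tendsto (fun t : ℝ => -(t • v)) (𝓝[>] 0) (𝓝 0) := by
      have h9 := h6.neg
      rwa [neg_zero] at h9
    exact (h6.eventually h4).and (h8.eventually h4)
  obtain ⟨t, ⟨ha, hb⟩, ht0⟩ := (h5.and self_mem_nhdsWithin).exists
  replace ht0 : 0 < t := ht0
  simp only [map_neg, neg_apply, neg_neg, norm_neg] at hb
  have h10 : Q (t • v) (t • v) - D (t • v) (t • v) = t ^ 2 * m := by
    simp only [map_smul, smul_apply, smul_eq_mul, hm]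
    ring
  have h11 : ε * ‖t • v‖ ^ 2 = t ^ 2 * m / 8 := by
    rw [norm_smul, mul_pow, Real.norm_eq_abs, sq_abs, hε]
    field_simp
  rw [h10, h11] at ha hb
  have h12 : 0 < t ^ 2 * m := by positivity
  linarith

variable [FiniteDimensional ℂ H] {c : H → Bil H} {g : H → ℝ} {R K : ℝ}

theorem contact {P f : H → ℝ} {x : H} {Q : H →L[ℝ] H →L[ℝ] ℝ} (hQ : Peano P x Q) (hf : ContDiff ℝ ∞ f)
    (hle : ∀ᶠ z in 𝓝 x, P z ≤ f z) (hx : P x = f x) : Nn (ddc f x - lv Q) := by
  intro v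
  have h1 := OB8_ge hQ hf hle hx v
  have h2 := OB8_ge hQ hf hle hx (Complex.I • v)
  rw [sub_apply, sub_apply, ddc_eq_lv, lv_self, lv_self]
  linarith

/-- the quadratic polynomial with a small bump -/
private def OB8_G (c0 : ℝ) (l : H →L[ℝ] ℝ) (Q : H →L[ℝ] H →L[ℝ] ℝ) (k s : ℝ) (x z : H) : ℝ :=
  c0 + (l (z - x) + (1 / 2) * Q (z - x) (z - x)) + (-k) * qf e (z - x) + s

private theorem OB8_G_smooth (c0 : ℝ) (l : H →L[ℝ] ℝ) (Q : H →L[ℝ] H →L[ℝ] ℝ) (k s : ℝ) (x : H) :
    ContDiff ℝ ∞ (OB8_G e c0 l Q k s x) := by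
  have h0 : ContDiff ℝ ∞ fun z : H => z - x := contDiff_id.sub contDiff_const
  have h1 : ContDiff ℝ ∞ fun z : H => l (z - x) := l.contDiff.comp h0
  have h2 : ContDiff ℝ ∞ fun z : H => Q (z - x) (z - x) := (Q.contDiff.comp h0).clm_apply h0
  have h3 : ContDiff ℝ ∞ fun z : H => qf e (z - x) := (qf_smooth e).comp h0
  exact ((contDiff_const.add (h1.add (contDiff_const.mul h2))).add (contDiff_const.mul h3)).add contDiff_const

private theorem OB8_fd_sub {F : Type*} [NormedAddCommGroup F] [NormedSpace ℝ F] (φ : H → F) (x z : H) :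
    fderiv ℝ (fun z : H => φ (z - x)) z = fderiv ℝ φ (z - x) := by
  simp only [sub_eq_add_neg]
  exact fderiv_comp_add_right (-x)

private theorem OB8_fderiv_sub (φ : H → ℝ) (x : H) :
    fderiv ℝ (fun z : H => φ (z - x)) = fun z => fderiv ℝ φ (z - x) := by
  ext1 z
  exact OB8_fd_sub φ x z

private theorem OB8_ddc_sub (φ : H → ℝ) (x z : H) : ddc (fun z : H => φ (z - x)) z = ddc φ (z - x) := by
  rw [ddc_eq_lv, ddc_eq_lv, OB8_fderiv_sub, OB8_fd_sub (fderiv ℝ φ) x z]

private theorem OB8_ddc_quad (l : H →L[ℝ] ℝ) {Q : H →L[ℝ] H →L[ℝ] ℝ} (hQ : ∀ u v, Q u v = Q v u) (a : H) :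
    ddc (fun a : H => l a + (1 / 2) * Q a a) a = lv Q := by
  have h1 : fderiv ℝ (fun a : H => l a + (1 / 2) * Q a a) = fun a => l + Q a := by
    ext1 a
    exact (OB8_quad l hQ a).fderiv
  have h2 : HasFDerivAt (fun a : H => l + Q a) Q a := (Q.hasFDerivAt (x := a)).const_add l
  rw [ddc_eq_lv, h1, h2.fderiv]

private theorem OB8_ddc_G (c0 : ℝ) (l : H →L[ℝ] ℝ) {Q : H →L[ℝ] H →L[ℝ] ℝ} (hQ : ∀ u v, Q u v = Q v u)
    (k s : ℝ) (x z : H) : ddc (OB8_G e c0 l Q k s x) z = lv Q + (-k) • (2 : ℝ) • w0 e := by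
  have h0 : ContDiff ℝ ∞ fun z : H => z - x := contDiff_id.sub contDiff_const
  have h1 : ContDiff ℝ ∞ fun z : H => l (z - x) := l.contDiff.comp h0
  have h2 : ContDiff ℝ ∞ fun z : H => Q (z - x) (z - x) := (Q.contDiff.comp h0).clm_apply h0
  have h3 : ContDiff ℝ ∞ fun z : H => qf e (z - x) := (qf_smooth e).comp h0
  have h4 : ContDiff ℝ ∞ fun z : H => l (z - x) + (1 / 2) * Q (z - x) (z - x) :=
    h1.add (contDiff_const.mul h2)
  have two : ∀ {φ : H → ℝ}, ContDiff ℝ ∞ φ → ContDiffAt ℝ 2 φ z := fun h =>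
    h.contDiffAt.of_le (by norm_cast)
  have hc : ∀ b : ℝ, ddc (fun _ : H => b) z = 0 := by
    intro b
    rw [ddc_eq_lv]
    have h5 : fderiv ℝ (fun _ : H => b) = fun _ => 0 := by
      ext1 y
      exact (hasFDerivAt_const b y).fderiv
    rw [h5, (hasFDerivAt_const (0 : H →L[ℝ] ℝ) z).fderiv]
    ext u v
    rw [OB8_lv_apply]
    simp
  have e1 : OB8_G e c0 l Q k s x = fun z => ((c0 + (l (z - x) + (1 / 2) * Q (z - x) (z - x))) +
      (-k) * qf e (z - x)) + s := rfl
  rw [e1, ddc_add (two ((contDiff_const.add h4).add (contDiff_const.mul h3))) (two contDiff_const),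
    ddc_add (two (contDiff_const.add h4)) (two (contDiff_const.mul h3)),
    ddc_add (two contDiff_const) (two h4), ddc_smul (-k) (two h3), hc, hc,
    OB8_ddc_sub (fun a : H => l a + (1 / 2) * Q a a) x z, OB8_ddc_quad l hQ, OB8_ddc_sub (qf e) x z,
    ddc_qf e]
  ext u v
  simp only [add_apply, zero_apply, zero_add, add_zero]

private theorem OB8_g_cont (h : Ob e c g R K) : Continuous g := by
  have h1 : LipschitzWith (Real.toNNReal K) g := by
    refine LipschitzWith.of_dist_le_mul fun x y => ?_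
    rw [Real.coe_toNNReal K h.hK, Real.dist_eq, dist_eq_norm]
    have h2 := h.glip y (x - y)
    rwa [add_sub_cancel] at h2
  exact h1.continuous

theorem noncontact (h : Ob e c g R K) {x : H} {Q : H →L[ℝ] H →L[ℝ] ℝ} (hQ : Peano (env e c g) x Q)
    (hn : Nn (c x + lv Q)) (hx : env e c g x < g x) : dt e (c x + lv Q) = 0 := by
  classical
  obtain ⟨hsym, l, hl⟩ := hQ
  have hO : O11 (c x + lv Q) := O11_add (h.oo x) (lv_O11 hsym)
  by_contra hne
  have hpos : 0 < dt e (c x + lv Q) := lt_of_le_of_ne (dt_nonneg e hO hn) (Ne.symm hne)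
  obtain ⟨k4, hk4, hN⟩ := dt_pos_ge e hO hn hpos
  obtain ⟨k, hk, hk'⟩ : ∃ k : ℝ, 0 < k ∧ k4 = 4 * k := ⟨k4 / 4, by positivity, by ring⟩
  obtain ⟨c0, C0, hc0, hC0, hqf⟩ := qf_equiv e
  obtain ⟨C, hC, hfl⟩ := form_le e
  have hmem := env_mem e h
  set P := env e c g with hP
  have hPc : Continuous P := hmem.1
  have hgc : Continuous g := OB8_g_cont e h
  set gap := g x - P x with hgap
  have hgap0 : 0 < gap := by linarith
  -- the expansion
  have h1 : ∀ᶠ z in 𝓝 x, P z ≥ P x + (l (z - x) + (1 / 2) * Q (z - x) (z - x)) -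
      k * c0 / 8 * ‖z - x‖ ^ 2 := by
    have h2 := isLittleO_iff.1 hl (show 0 < k * c0 / 8 by positivity)
    have h3 : Tendsto (fun z : H => z - x) (𝓝 x) (𝓝 0) := by
      have h4 : Tendsto (fun z : H => z - x) (𝓝 x) (𝓝 (x - x)) :=
        (continuous_id.sub continuous_const).tendsto x
      rwa [sub_self] at h4
    filter_upwards [h3.eventually h2] with z hz
    rw [add_sub_cancel, Real.norm_of_nonneg (sq_nonneg ‖z - x‖), Real.norm_eq_abs, abs_le] at hz
    have hz1 := hz.1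
    linarith
  have h2 : ∀ᶠ z in 𝓝 x, ‖c z - c x‖ < 2 * k / C := by
    have h3 : Tendsto (fun z : H => ‖c z - c x‖) (𝓝 x) (𝓝 0) :=
      tendsto_iff_norm_sub_tendsto_zero.1 (h.sm.continuous.tendsto x)
    exact h3.eventually (gt_mem_nhds (by positivity))
  have h3 : ∀ᶠ z in 𝓝 x, OB8_G e (P x) l Q k 0 x z + gap / 2 < g z := by
    have h4 : ContinuousAt (fun z => g z - OB8_G e (P x) l Q k 0 x z) x :=
      (hgc.sub (OB8_G_smooth e (P x) l Q k 0 x).continuous).continuousAt
    have h5 : gap / 2 < (fun z => g z - OB8_G e (P x) l Q k 0 x z) x := by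
      have h6 : OB8_G e (P x) l Q k 0 x x = P x := by
        simp [OB8_G, qf_zero]
      show gap / 2 < g x - OB8_G e (P x) l Q k 0 x x
      rw [h6]
      linarith
    filter_upwards [h4.eventually (lt_mem_nhds h5)] with z hz
    linarith
  obtain ⟨r0, hr0, hball⟩ := Metric.eventually_nhds_iff_ball.1 (h1.and (h2.and h3))
  obtain ⟨r, hr, hr0', hrs⟩ : ∃ r : ℝ, 0 < r ∧ r ≤ r0 ∧ k * c0 * r ^ 2 / 8 ≤ gap / 2 := by
    refine ⟨min r0 (min 1 (4 * gap / (k * c0))), by positivity, min_le_left _ _, ?_⟩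
    set r := min r0 (min 1 (4 * gap / (k * c0))) with hr
    have hrp : 0 < r := by positivity
    have ha : r ≤ 1 := (min_le_right _ _).trans (min_le_left _ _)
    have hb : r ≤ 4 * gap / (k * c0) := (min_le_right _ _).trans (min_le_right _ _)
    have hkc : 0 < k * c0 := by positivity
    rw [le_div_iff₀ hkc] at hb
    have hc : r ^ 2 ≤ r := by nlinarith
    have hd : k * c0 * r ^ 2 ≤ k * c0 * r := mul_le_mul_of_nonneg_left hc hkc.le
    linarith
  set s := k * c0 * r ^ 2 / 8 with hs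
  have hs0 : 0 < s := by positivity
  set G := OB8_G e (P x) l Q k s x with hG
  have hGs : ContDiff ℝ ∞ G := OB8_G_smooth e (P x) l Q k s x
  have hGz : ∀ z, G z = OB8_G e (P x) l Q k 0 x z + s := by
    intro z
    simp only [hG, OB8_G, add_zero]
  have hin : ∀ z ∈ Metric.ball x r, z ∈ Metric.ball x r0 := fun z hz =>
    Metric.ball_subset_ball hr0' hz
  have hGg : ∀ z ∈ Metric.ball x r, G z ≤ g z := by
    intro z hz
    have h4 := (hball z (hin z hz)).2.2
    rw [hGz]
    linarith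
  have hGn : ∀ z ∈ Metric.ball x r, Nn (c z + ddc G z) := by
    intro z hz v
    have h4 := (hball z (hin z hz)).2.1
    have h5 := hfl (c z - c x) v
    have h6 := hN v
    rw [hG, OB8_ddc_G e (P x) l hsym k s x z]
    simp only [add_apply, sub_apply, smul_apply, smul_eq_mul, w0_self] at h5 h6 ⊢
    rw [abs_le] at h5
    have h7 : C * ‖c z - c x‖ * qf e v ≤ 2 * k * qf e v := by
      refine mul_le_mul_of_nonneg_right ?_ (qf_nonneg e v)
      rw [lt_div_iff₀ hC] at h4
      linarith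
    have h8 := h5.1
    rw [hk'] at h6
    linarith
  have hGb : ∀ z ∈ Metric.ball x r, z ∉ Metric.ball x (3 * r / 4) → G z + k * c0 * r ^ 2 / 4 ≤ P z := by
    intro z hz hz'
    have h4 := (hball z (hin z hz)).1
    have h5 := (hqf (z - x)).1
    rw [Metric.mem_ball, dist_eq_norm, not_lt] at hz'
    have h6 : 9 / 16 * r ^ 2 ≤ ‖z - x‖ ^ 2 := by nlinarith
    have h7 : k * (c0 * ‖z - x‖ ^ 2) ≤ k * qf e (z - x) := mul_le_mul_of_nonneg_left h5 hk.le
    have h8 : k * c0 * (9 / 16 * r ^ 2) ≤ k * c0 * ‖z - x‖ ^ 2 :=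
      mul_le_mul_of_nonneg_left h6 (by positivity)
    have h9 : 0 < k * c0 * r ^ 2 := by positivity
    simp only [hG, OB8_G, hs]
    linarith
  have hglue := ad_glue e hmem.2.1 hGs (x := x) (r' := 3 * r / 4) (r := r) (by linarith)
    (show 0 < k * c0 * r ^ 2 / 4 by positivity) hGn hGb
  have hcont : Continuous (fun z => if z ∈ Metric.ball x r then max (P z) (G z) else P z) := by
    rw [continuous_iff_continuousAt]
    intro z
    by_cases hz : z ∈ Metric.ball x r
    · have h4 : (fun z => if z ∈ Metric.ball x r then max (P z) (G z) else P z) =ᶠ[𝓝 z]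
          fun z => max (P z) (G z) := by
        filter_upwards [Metric.isOpen_ball.mem_nhds hz] with y hy
        rw [if_pos hy]
      exact (hPc.max hGs.continuous).continuousAt.congr h4.symm
    · have h4 : (fun z => if z ∈ Metric.ball x r then max (P z) (G z) else P z) =ᶠ[𝓝 z] P := by
        have h5 : z ∈ (Metric.closedBall x (3 * r / 4))ᶜ := by
          intro h6
          rw [Metric.mem_closedBall] at h6
          rw [Metric.mem_ball] at hz
          linarith
        filter_upwards [Metric.isClosed_closedBall.isOpen_compl.mem_nhds h5] with y hy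
        by_cases hy' : y ∈ Metric.ball x r
        · rw [if_pos hy', max_eq_left]
          have h6 := hGb y hy' fun h7 => hy (Metric.ball_subset_closedBall h7)
          have h9 : 0 < k * c0 * r ^ 2 := by positivity
          linarith
        · rw [if_neg hy']
      exact hPc.continuousAt.congr h4.symm
  have hw : (fun z => if z ∈ Metric.ball x r then max (P z) (G z) else P z) ∈ Sc e c g := by
    refine ⟨hcont, hglue, fun z => ?_⟩
    have h4 := hmem.2.2 z
    by_cases hz : z ∈ Metric.ball x r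
    · simp only [if_pos hz]
      exact ⟨h4.1.trans (le_max_left _ _), max_le h4.2 (hGg z hz)⟩
    · simp only [if_neg hz]
      exact h4
  have hfin := le_env e h hw x
  have hxx : x ∈ Metric.ball x r := Metric.mem_ball_self hr
  simp only [if_pos hxx] at hfin
  have h4 : G x = P x + s := by
    rw [hGz]
    simp [OB8_G, qf_zero]
  have h5 := (le_max_right (P x) (G x)).trans hfin
  rw [h4] at h5
  linarith

end HDG
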