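import Pool.Agent.HDG.OB6
import Pool.Agent.HDG.OBa
import Pool.Agent.HDG.OB8

/-!
# HDG/OB9: the obstacle problem in a ball

Assembly: the envelope `P = env e c' g` of the obstacle `g = min (τ u) (ζ ρ)` (`exists_ob`), its mollifications
`Pk k = mo μ (δ0/(k+1)) P` (`env_mo`), second order expansions almost everywhere (`second_order`), contact with the obstacle
(`contact`) and vanishing determinant off the contact set (`noncontact`).
-/

set_option autoImplicit false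

noncomputable section

open scoped ContDiff ComplexOrder Topology

open MeasureTheory Filter Asymptotics

namespace HDG

open Pool.Agent.FBR

variable {H : Type*} [NormedAddCommGroup H] [NormedSpace ℂ H] {n : ℕ} (e : Module.Basis (Fin n) ℂ H)
  [FiniteDimensional ℂ H] [MeasurableSpace H] [BorelSpace H] (μ : Measure H) [μ.IsAddHaarMeasure]

/-- the solution `P` of the obstacle problem with the obstacle `min (τ u) ρ`, its smooth approximations `Pk`, the density `m` of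
the determinant of `c + dd^c P` -/
structure ObSol (c : H → Bil H) (ρ u : H → ℝ) (τ : ℝ) (P m : H → ℝ) (Pk : ℕ → H → ℝ) (B : ℝ) : Prop where
  cont : Continuous P
  smk : ∀ k, ContDiff ℝ ∞ (Pk k)
  supk : ∀ k, tsupport (Pk k) ⊆ qb e (5 / 2)
  lim : ∀ ε : ℝ, 0 < ε → ∀ᶠ k in atTop, ∀ z, |Pk k z - P z| ≤ ε
  bd : ∀ k z, ‖ddc (Pk k) z‖ ≤ B
  nn : ∀ ε : ℝ, 0 < ε → ∀ᶠ k in atTop, ∀ z ∈ qb e 3, Nn (c z + ddc (Pk k) z + ε • w0 e)
  p0 : ∀ z, 0 ≤ P z
  pk0 : ∀ k z, 0 ≤ Pk k z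
  pu : ∀ z, P z ≤ τ * u z
  pr : ∀ z ∈ qb e 3, P z ≤ ρ z
  ae : ∀ᵐ z ∂μ, z ∈ qb e 3 → Tendsto (fun k => dt e (c z + ddc (Pk k) z)) atTop (𝓝 (m z))
  tri : ∀ᵐ z ∂μ, z ∈ qb e 3 → u z = 1 → 0 ≤ m z ∧ (m z = 0 ∨ P z = τ ∨
    (P z = ρ z ∧ Nn (c z + ddc ρ z) ∧ m z ≤ dt e (c z + ddc ρ z)))

private theorem OB9_dt_cont : Continuous (dt e : Bil H → ℝ) := by
  have h : Continuous (fun a : Bil H => Mt e a) := by
    refine continuous_matrix fun j k => ?_
    have h1 : Continuous fun a : Bil H => a (e j) (Complex.I • e k) := by fun_prop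
    have h2 : Continuous fun a : Bil H => a (e j) (e k) := by fun_prop
    exact (Complex.continuous_ofReal.comp h1).sub (continuous_const.mul (Complex.continuous_ofReal.comp h2))
  exact Complex.continuous_re.comp h.matrix_det

set_option maxSynthPendingDepth 3 in
private theorem OB9_lv_norm (Q : H →L[ℝ] H →L[ℝ] ℝ) : ‖lv Q‖ ≤ ‖Q‖ := by
  have hI : ‖(Complex.I • ContinuousLinearMap.id ℝ H : H →L[ℝ] H)‖ ≤ 1 := by
    refine ContinuousLinearMap.opNorm_le_bound _ zero_le_one fun x => ?_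
    rw [ContinuousLinearMap.smul_apply, norm_smul, Complex.norm_I]
    rfl
  have h1 : ‖Q.comp (Complex.I • ContinuousLinearMap.id ℝ H)‖ ≤ ‖Q‖ :=
    (ContinuousLinearMap.opNorm_comp_le _ _).trans
      (by simpa using mul_le_mul_of_nonneg_left hI (norm_nonneg Q))
  rw [lv, norm_smul]
  have h2 := norm_sub_le (Q.comp (Complex.I • ContinuousLinearMap.id ℝ H))
    (Q.comp (Complex.I • ContinuousLinearMap.id ℝ H)).flip
  rw [ContinuousLinearMap.opNorm_flip] at h2
  have h3 : ‖(1 / 2 : ℝ)‖ = 1 / 2 := by norm_num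
  rw [h3]
  linarith

private theorem OB9_Nn_add {a b : Bil H} (ha : Nn a) (hb : Nn b) : Nn (a + b) := fun v => by
  have := add_nonneg (ha v) (hb v)
  simpa using this

private theorem OB9_Nn_w0 {t : ℝ} (ht : 0 ≤ t) : Nn (t • (w0 e : Bil H)) := fun v => by
  have h : (t • (w0 e : Bil H)) v (Complex.I • v) = t * w0 e v (Complex.I • v) := rfl
  rw [h, w0_self]
  exact mul_nonneg ht (qf_nonneg e v)

private theorem OB9_supp : ∃ d : ℝ, 0 < d ∧ ∀ z a : H, ‖a‖ ≤ d → z ∉ qb e (9 / 4) → (z - a) ∉ qb e 2 := by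
  have hK : IsCompact {z : H | qf e z ≤ (2 : ℝ) ^ 2} := isCompact_qb e 2
  have hU : IsOpen (qb e (9 / 4) : Set H) := isOpen_qb e _
  have hKU : {z : H | qf e z ≤ (2 : ℝ) ^ 2} ⊆ qb e (9 / 4) := by
    intro z hz
    have hz' : qf e z ≤ (2 : ℝ) ^ 2 := hz
    show qf e z < (9 / 4 : ℝ) ^ 2
    norm_num at hz' ⊢
    linarith
  obtain ⟨d, hd, hd'⟩ := hK.exists_cthickening_subset_open hU hKU
  refine ⟨d, hd, fun z a ha hz hza => hz (hd' ?_)⟩
  have hza' : qf e (z - a) ≤ (2 : ℝ) ^ 2 := le_of_lt hza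
  refine Metric.mem_cthickening_of_dist_le z (z - a) d _ hza' ?_
  rw [dist_eq_norm, sub_sub_cancel]
  exact ha

set_option maxSynthPendingDepth 3 in
private theorem OB9_main {c : H → Bil H} {ρ u : H → ℝ} {τ : ℝ} (hc : ContDiff ℝ ∞ c) (hoo : ∀ z, O11 (c z))
    (hn : ∀ z ∈ qb e 3, Nn (c z)) (hρ : ContDiff ℝ ∞ ρ) (hρ0 : ∀ z ∈ qb e 3, 0 ≤ ρ z) (hu : ContDiff ℝ ∞ u)
    (hu0 : ∀ z, 0 ≤ u z) (hu1 : ∀ z, u z ≤ 1) (hus : tsupport u ⊆ qb e 2) (hτ : 0 < τ) :
    ∃ (P m : H → ℝ) (Pk : ℕ → H → ℝ) (B : ℝ), ObSol e μ c ρ u τ P m Pk B := by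
  obtain ⟨c', ζ, K, hOb, heq, hζ0, hζ1, hζs⟩ := exists_ob e hc hoo hn hρ hρ0 hu hu0 hus hτ
  set g : H → ℝ := fun z => min (τ * u z) (ζ z * ρ z) with hg
  set P : H → ℝ := env e c' g with hP
  have hP0 : ∀ z, 0 ≤ P z := fun z => env_nonneg e hOb z
  have hPg : ∀ z, P z ≤ g z := fun z => env_le e hOb z
  have hPoff : ∀ z, z ∉ qb e 2 → P z = 0 := by
    intro z hz
    have h1 : u z = 0 := by
      by_contra h
      exact hz (hus (subset_tsupport u h))
    have h2 : g z ≤ 0 := by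
      have : g z ≤ τ * u z := min_le_left _ _
      rwa [h1, mul_zero] at this
    exact le_antisymm ((hPg z).trans h2) (hP0 z)
  have hPc : Continuous P := by
    obtain ⟨B, hB, hlip⟩ := env_lip e hOb
    refine (LipschitzWith.of_dist_le_mul (K := ⟨B, hB⟩) fun x y => ?_).continuous
    have := hlip y (x - y)
    rw [add_sub_cancel] at this
    rw [Real.dist_eq, dist_eq_norm]
    exact this
  obtain ⟨B, hB, hmo⟩ := env_mo e μ hOb
  obtain ⟨d, hd, hdd⟩ := OB9_supp e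
  -- the radii
  set δ0 : ℝ := min d 1 with hδ0
  have hδ0p : 0 < δ0 := lt_min hd one_pos
  set δ : ℕ → ℝ := fun k => δ0 / ((k : ℝ) + 1) with hδ
  have hδp : ∀ k, 0 < δ k := fun k => div_pos hδ0p (by positivity)
  have hδle : ∀ k, δ k ≤ δ0 := fun k => by
    rw [hδ]
    refine div_le_self hδ0p.le ?_
    have : (0 : ℝ) ≤ k := Nat.cast_nonneg k
    linarith
  have hδ1 : ∀ k, δ k ≤ 1 := fun k => (hδle k).trans (min_le_right _ _)
  have hδd : ∀ k, δ k ≤ d := fun k => (hδle k).trans (min_le_left _ _)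
  have hδlim : Tendsto δ atTop (𝓝 0) := by
    have h := (tendsto_one_div_add_atTop_nhds_zero_nat (𝕜 := ℝ)).const_mul δ0
    rw [mul_zero] at h
    refine h.congr fun k => ?_
    rw [hδ]
    ring
  have hδlim' : Tendsto δ atTop (𝓝[>] 0) :=
    tendsto_nhdsWithin_iff.2 ⟨hδlim, Eventually.of_forall fun k => hδp k⟩
  set Pk : ℕ → H → ℝ := fun k => mo μ (δ k) P with hPk
  have hsm : ∀ k, ContDiff ℝ ∞ (Pk k) := fun k => mo_smooth μ (hδp k) hPc.locallyIntegrable
  have hsupp : ∀ k, tsupport (Pk k) ⊆ {z | qf e z ≤ (9 / 4 : ℝ) ^ 2} := by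
    intro k
    refine closure_minimal ?_ (isCompact_qb e (9 / 4)).isClosed
    intro z hz
    by_contra hz'
    have hz2 : z ∉ qb e (9 / 4) := fun h => hz' (show qf e z ≤ (9 / 4 : ℝ) ^ 2 from le_of_lt h)
    refine hz (mo_supp μ (hδp k).le fun a ha => ?_)
    exact hPoff _ (hdd z a (ha.trans (hδd k)) hz2)
  have hsub : {z : H | qf e z ≤ (9 / 4 : ℝ) ^ 2} ⊆ qb e (5 / 2) := by
    intro z hz
    have hz' : qf e z ≤ (9 / 4 : ℝ) ^ 2 := hz
    show qf e z < (5 / 2 : ℝ) ^ 2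
    norm_num at hz' ⊢
    linarith
  have hBlim : ∀ ε : ℝ, 0 < ε → ∀ᶠ k in atTop, B * δ k ≤ ε := by
    intro ε hε
    have h := hδlim.const_mul B
    rw [mul_zero] at h
    filter_upwards [h.eventually (gt_mem_nhds hε)] with k hk
    exact le_of_lt hk
  -- the second order data
  classical
  let pr : H → (H →L[ℝ] H →L[ℝ] ℝ) → Prop := fun z Q =>
    Peano P z Q ∧ Tendsto (fun δ : ℝ => fderiv ℝ (fderiv ℝ (mo μ δ P)) z) (𝓝[>] 0) (𝓝 Q)
  let m : H → ℝ := fun z => if h : ∃ Q, pr z Q then dt e (c z + lv h.choose) else 0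
  have hso : ∀ᵐ z ∂μ, ∃ Q, pr z Q := second_order μ hPc fun δ hδ hδ' z => (hmo δ hδ hδ' z).2.1
  have hlv : ∀ z Q, pr z Q → Tendsto (fun k => c z + ddc (Pk k) z) atTop (𝓝 (c z + lv Q)) := by
    intro z Q hQ
    have h1 : Tendsto (fun k => lv (fderiv ℝ (fderiv ℝ (Pk k)) z)) atTop (𝓝 (lv Q)) :=
      (lv_continuous.tendsto Q).comp (hQ.2.comp hδlim')
    exact tendsto_const_nhds.add h1
  refine ⟨P, m, Pk, B, ?_⟩
  refine ⟨hPc, hsm, fun k => (hsupp k).trans hsub, ?_, ?_, ?_, hP0,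
    fun k z => integral_nonneg fun y => mul_nonneg ((ker_spec μ).2.2.1 y) (hP0 _), ?_, ?_, ?_, ?_⟩
  · intro ε hε
    filter_upwards [hBlim ε hε] with k hk z
    exact ((hmo (δ k) (hδp k) (hδ1 k) z).1).trans hk
  · intro k z
    rw [ddc_eq_lv]
    exact (OB9_lv_norm _).trans (hmo (δ k) (hδp k) (hδ1 k) z).2.1
  · intro ε hε
    filter_upwards [hBlim ε hε] with k hk z hz
    by_cases hz5 : qf e z ≤ (5 / 2 : ℝ) ^ 2
    · have h1 := (hmo (δ k) (hδp k) (hδ1 k) z).2.2
      rw [(heq z hz5).1] at h1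
      have h2 := OB9_Nn_add h1 (OB9_Nn_w0 e (sub_nonneg.2 hk))
      have h3 : c z + ddc (mo μ (δ k) P) z + (B * δ k) • w0 e + (ε - B * δ k) • w0 e
          = c z + ddc (Pk k) z + ε • w0 e := by
        rw [add_assoc, ← add_smul, add_sub_cancel]
      rw [← h3]
      exact h2
    · have hz' : z ∉ tsupport (Pk k) := fun h => hz5 (le_of_lt (hsub (hsupp k h)))
      have h1 : Pk k =ᶠ[𝓝 z] fun _ => (0 : ℝ) := notMem_tsupport_iff_eventuallyEq.1 hz'
      have h2 : ddc (Pk k) z = 0 := by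
        rw [ddc_congr h1, ddc_eq_lv]
        have h3 : fderiv ℝ (fun _ : H => (0 : ℝ)) = fun _ => 0 := by
          funext x
          exact fderiv_const_apply 0
        rw [h3]
        have h4 : fderiv ℝ (fun _ : H => (0 : H →L[ℝ] ℝ)) z = 0 := fderiv_const_apply 0
        rw [h4]
        have h5 : ‖lv (0 : H →L[ℝ] H →L[ℝ] ℝ)‖ ≤ 0 := by
          simpa using OB9_lv_norm (0 : H →L[ℝ] H →L[ℝ] ℝ)
        exact norm_le_zero_iff.1 h5
      rw [h2, add_zero]
      exact OB9_Nn_add (hn z hz) (OB9_Nn_w0 e hε.le)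
  · intro z
    exact (hPg z).trans (min_le_left _ _)
  · intro z hz
    refine (hPg z).trans ((min_le_right _ _).trans ?_)
    exact mul_le_of_le_one_left (hρ0 z hz) (hζ1 z)
  · filter_upwards [hso] with z hQ _
    have hm : m z = dt e (c z + lv hQ.choose) := dif_pos hQ
    rw [hm]
    exact ((OB9_dt_cont e).tendsto _).comp (hlv z _ hQ.choose_spec)
  · filter_upwards [hso] with z hQ hz3 huz
    have hm : m z = dt e (c z + lv hQ.choose) := dif_pos hQ
    have hQ' : pr z hQ.choose := hQ.choose_spec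
    generalize hQ.choose = Q at hm hQ'
    have hz2 : z ∈ qb e 2 := hus (subset_tsupport u (by
      show u z ≠ 0
      rw [huz]
      exact one_ne_zero))
    have hz2' : qf e z < (2 : ℝ) ^ 2 := hz2
    have hz5 : qf e z < (5 / 2 : ℝ) ^ 2 := by
      norm_num at hz2' ⊢
      linarith
    have hce := (heq z hz5.le).1
    have hO : O11 (c z + lv Q) := O11_add (hoo z) (lv_O11 hQ'.1.1)
    have hN : Nn (c z + lv Q) := by
      intro v
      have h1 : Tendsto (fun k => (c z + ddc (Pk k) z) v (Complex.I • v) + B * δ k * w0 e v (Complex.I • v)) atTop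
          (𝓝 ((c z + lv Q) v (Complex.I • v) + B * 0 * w0 e v (Complex.I • v))) := by
        refine Tendsto.add ?_ ((hδlim.const_mul B).mul_const _)
        have h2 : Continuous fun a : Bil H => a v (Complex.I • v) := by fun_prop
        exact (h2.tendsto _).comp (hlv z Q hQ')
      have h3 : 0 ≤ (c z + lv Q) v (Complex.I • v) + B * 0 * w0 e v (Complex.I • v) := by
        refine ge_of_tendsto' h1 fun k => ?_
        have h4 := (hmo (δ k) (hδp k) (hδ1 k) z).2.2 v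
        rw [hce] at h4
        exact h4
      simpa using h3
    rw [hm]
    refine ⟨dt_nonneg e hO hN, ?_⟩
    rcases lt_or_eq_of_le (hPg z) with hlt | heqP
    · left
      have h1 := noncontact e hOb hQ'.1 (by rw [hce]; exact hN) hlt
      rw [hce] at h1
      exact h1
    · right
      rcases min_choice (τ * u z) (ζ z * ρ z) with hmin | hmin
      · left
        rw [heqP]
        show min (τ * u z) (ζ z * ρ z) = τ
        rw [hmin, huz, mul_one]
      · right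
        have hPρ : P z = ρ z := by
          rw [heqP]
          show min (τ * u z) (ζ z * ρ z) = ρ z
          rw [hmin, (heq z hz5.le).2, one_mul]
        have hle : ∀ᶠ w in 𝓝 z, P w ≤ ρ w := by
          have hop : qb e (5 / 2) ∈ 𝓝 z := (isOpen_qb e (5 / 2)).mem_nhds hz5
          filter_upwards [hop] with w hw
          have h1 : P w ≤ ζ w * ρ w := (hPg w).trans (min_le_right _ _)
          rwa [(heq w (le_of_lt hw)).2, one_mul] at h1
        have hcon := contact hQ'.1 hρ hle hPρ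
        have hOρ : O11 (c z + ddc ρ z) := O11_add (hoo z) (O11_ddc (hρ.contDiffAt.of_le (by norm_cast)))
        have hsum : c z + lv Q + (ddc ρ z - lv Q) = c z + ddc ρ z := by abel
        have hdiff : c z + ddc ρ z - (c z + lv Q) = ddc ρ z - lv Q := by abel
        refine ⟨hPρ, ?_, ?_⟩
        · rw [← hsum]
          exact OB9_Nn_add hN hcon
        · refine dt_mono e hO hOρ hN ?_
          rw [hdiff]
          exact hcon
theorem obstacle {c : H → Bil H} {ρ u : H → ℝ} {τ : ℝ} (hc : ContDiff ℝ ∞ c) (hoo : ∀ z, O11 (c z))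
    (hn : ∀ z ∈ qb e 3, Nn (c z)) (hρ : ContDiff ℝ ∞ ρ) (hρ0 : ∀ z ∈ qb e 3, 0 ≤ ρ z) (hu : ContDiff ℝ ∞ u)
    (hu0 : ∀ z, 0 ≤ u z) (hu1 : ∀ z, u z ≤ 1) (hus : tsupport u ⊆ qb e 2) (hτ : 0 < τ) :
    ∃ (P m : H → ℝ) (Pk : ℕ → H → ℝ) (B : ℝ), ObSol e μ c ρ u τ P m Pk B := by
  exact OB9_main e μ hc hoo hn hρ hρ0 hu hu0 hu1 hus hτ

end HDG
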