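import Pool.Agent.HDG.GDefs
import Pool.Agent.FBR.Ops

/-!
# HDG: 1-forms on complex manifolds, locally conformally Kähler manifolds (definitions)

`X` is a complex manifold modelled on `E`; the tangent space at `x` is `E` by means of the chart `chartAt E x`, as in
Pool/Agent/FBR/Defs.lean. A real 1-form is given by its values `θ x : E →L[ℝ] ℝ`, a form of type `(1,0)` by its values
`α x : E →L[ℂ] ℂ`.
-/

set_option autoImplicit false

noncomputable section

open scoped Manifold ContDiff

namespace HDG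

open Pool.Agent.FBR

universe u

section Forms

variable {E X : Type*} [NormedAddCommGroup E] [NormedSpace ℂ E] [TopologicalSpace X] [ChartedSpace E X]
  {G : Type*} [NormedAddCommGroup G] [NormedSpace ℝ G]

/-- The pull back of the real 1-form `θ` under `f : G → X`. -/
def tp1 (θ : X → E →L[ℝ] ℝ) (f : G → X) (q : G) : G →L[ℝ] ℝ := (θ (f q)).comp (dvec E f q)

/-- The coefficients of the real 1-form `θ` in the chart at `p`. -/
def co1 (θ : X → E →L[ℝ] ℝ) (p : X) : E → E →L[ℝ] ℝ := tp1 θ (chartAt E p).symm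

/-- `θ` is a smooth closed real 1-form on `X`. -/
def IsCl1 (θ : X → E →L[ℝ] ℝ) : Prop :=
  ∀ p : X, ContDiffOn ℝ ∞ (co1 θ p) (chartAt E p).target ∧
    ∀ y ∈ (chartAt E p).target, ∀ u v : E, fderiv ℝ (co1 θ p) y u v = fderiv ℝ (co1 θ p) y v u

/-- The coefficients of the form `α` of type `(1,0)` in the chart at `p`. -/
def coC (α : X → E →L[ℂ] ℂ) (p : X) (y : E) : E →L[ℂ] ℂ :=
  (α ((chartAt E p).symm y)).comp
    (fderiv ℂ (chartAt E ((chartAt E p).symm y) ∘ (chartAt E p).symm) y)

/-- `α` is a closed holomorphic 1-form on `X`: its coefficients in the charts are complex smooth. -/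
def IsHol1 (α : X → E →L[ℂ] ℂ) : Prop :=
  ∀ p : X, ContDiffOn ℂ ∞ (coC α p) (chartAt E p).target ∧
    ∀ y ∈ (chartAt E p).target, ∀ u v : E, fderiv ℂ (coC α p) y u v = fderiv ℂ (coC α p) y v u

/-- The real part of a complex linear form. -/
def reF (α : E →L[ℂ] ℂ) : E →L[ℝ] ℝ := Complex.reCLM.comp (α.restrictScalars ℝ)

end Forms

/-- `M` is locally conformally Kähler: it has a Hermitian metric with fundamental form `g` (a smooth real form of type
`(1,1)`, positive definite), and `dg = θ ∧ g` for a closed real 1-form `θ`. -/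
def LCK (M : CM.{u}) : Prop :=
  ∃ (g : M.X → Bil M.E) (θ : M.X → M.E →L[ℝ] ℝ), IsCl1 θ ∧ (∀ x v, g x v v = 0) ∧
    (∀ x u v, g x (Complex.I • u) (Complex.I • v) = g x u v) ∧
    (∀ p, ContDiffOn ℝ ∞ (coef g p) (chartAt M.E p).target) ∧
    (∀ x v, v ≠ 0 → 0 < g x v (Complex.I • v)) ∧
    ∀ p, ∀ y ∈ (chartAt M.E p).target, ∀ u v w : M.E, ext2 (coef g p) y u v w =
      co1 θ p y u * coef g p y v w + co1 θ p y v * coef g p y w u + co1 θ p y w * coef g p y u v

/-- The real vector space (spanned by) the closed real 1-forms. -/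
def Z1 (M : CM.{u}) : Submodule ℝ (M.X → M.E →L[ℝ] ℝ) := Submodule.span ℝ {θ | IsCl1 θ}

/-- The real vector space (spanned by) the differentials of smooth functions. -/
def B1 (M : CM.{u}) : Submodule ℝ (M.X → M.E →L[ℝ] ℝ) :=
  Submodule.span ℝ {θ | ∃ f : M.X → ℝ, SmF M.E f ∧ θ = dF M.E f}

/-- The complex vector space (spanned by) the closed holomorphic 1-forms. -/
def Om (M : CM.{u}) : Submodule ℂ (M.X → M.E →L[ℂ] ℂ) := Submodule.span ℂ {α | IsHol1 α}

/-- The quotient `A / (A ∩ B)` of subspaces of a real vector space. -/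
abbrev Quo {V : Type u} [AddCommGroup V] [Module ℝ V] (A B : Submodule ℝ V) : Type u := ↥A ⧸ B.comap A.subtype

/-- The first de Rham cohomology: closed real 1-forms modulo differentials of smooth functions. -/
abbrev H1 (M : CM.{u}) : Type u := Quo (Z1 M) (B1 M)

/-! ### The relation with `BM` -/

section Fit

variable {E X : Type*} [NormedAddCommGroup E] [NormedSpace ℂ E] [TopologicalSpace X] [ChartedSpace E X]
  {n : ℕ} {e : Module.Basis (Fin n) ℂ E}

/-- the parametrizations of `B` are holomorphic parametrizations of open subsets of the manifold `X` -/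
structure Fit (B : BM e X) : Prop where
  hol : ∀ i, ∀ z ∈ qb e 4, Hol E (B.ψ i) z
  bij : ∀ i, ∀ z ∈ qb e 4, Function.Bijective (dvec E (B.ψ i) z)

end Fit

/-! ### The tensor `e^{-m u} dd^c (χ e^{m u})` -/

section LCK

variable {H : Type*} [NormedAddCommGroup H] [NormedSpace ℂ H] {n : ℕ} {e : Module.Basis (Fin n) ℂ H}
  {Y : Type*} [TopologicalSpace Y] (B : BM e Y)

/-- `e^{-m u} dd^c (χ e^{m u})` -/
def BM.sT (m : ℝ) (u : B.I → H → ℝ) (χ : Y → ℝ) (i : B.I) (z : H) : Bil H :=
  Real.exp (-(m * u i z)) • ddc (fun z => χ (B.ψ i z) * Real.exp (m * u i z)) z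

/-- `u` is a multivalued function on `Y`, the differences of its values are locally constant -/
structure BM.PerR (u : B.I → H → ℝ) : Prop where
  sm : ∀ i, ContDiffOn ℝ ∞ (u i) (qb e 4)
  tr : ∀ i j, ∃ c : ℝ, ∀ z ∈ B.D i j, u i z - u j (B.T i j z) = c

end LCK

end HDG
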