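import Pool.Agent.HDG.RDefs
import Pool.Agent.HDG.SDefs

/-!
# HDG: the definitions of the statement (`HFC`) and the ones of the statement layer (`HDG`)

The coefficients of forms in charts are smooth and have the expected derivatives if their values on all vectors do.
-/

set_option autoImplicit false

noncomputable section

open scoped Manifold ContDiff Topology

namespace HFC

open Pool.Agent.FBR

universe u

private theorem RB_ev {𝕜 G F : Type*} [NontriviallyNormedField 𝕜] [NormedAddCommGroup G] [NormedSpace 𝕜 G]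
    [NormedAddCommGroup F] [NormedSpace 𝕜 F] {c : G → G →L[𝕜] F} {y : G} (hc : DifferentiableAt 𝕜 c y) (u v : G) :
    fderiv 𝕜 (fun y' => c y' v) y u = fderiv 𝕜 c y u v := by
  have h := hc.hasFDerivAt.clm_apply (hasFDerivAt_const v y)
  rw [h.fderiv]
  simp

private theorem RB_at {𝕜 G F : Type*} [NontriviallyNormedField 𝕜] [NormedAddCommGroup G] [NormedSpace 𝕜 G]
    [NormedAddCommGroup F] [NormedSpace 𝕜 F] {c : G → F} {S : Set G} (hS : IsOpen S) (hc : ContDiffOn 𝕜 ∞ c S) {y : G}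
    (hy : y ∈ S) : DifferentiableAt 𝕜 c y :=
  (hc.contDiffAt (hS.mem_nhds hy)).differentiableAt (by simp)

variable {E X : Type u} [NormedAddCommGroup E] [NormedSpace ℂ E] [FiniteDimensional ℂ E] [TopologicalSpace X]
  [ChartedSpace E X]

theorem closed1_iff (θ : X → E →L[ℝ] ℝ) : Closed1 θ ↔ HDG.IsCl1 θ := by
  have : FiniteDimensional ℝ E := FiniteDimensional.complexToReal E
  refine forall_congr' fun p => ?_
  have h1 : (∀ v, ContDiffOn ℝ ∞ (cR θ p v) (chartAt E p).target) ↔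
      ContDiffOn ℝ ∞ (HDG.co1 θ p) (chartAt E p).target :=
    (contDiffOn_clm_apply (f := HDG.co1 θ p)).symm
  rw [h1]
  refine and_congr_right fun h2 => forall_congr' fun y => forall_congr' fun hy => ?_
  have h3 := RB_at (chartAt E p).open_target h2 hy
  refine forall_congr' fun u => forall_congr' fun v => ?_
  have h4 : dR (cR θ p v) y u = fderiv ℝ (HDG.co1 θ p) y u v := RB_ev h3 u v
  have h5 : dR (cR θ p u) y v = fderiv ℝ (HDG.co1 θ p) y v u := RB_ev h3 v u
  rw [h4, h5]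

theorem hol1_iff (α : X → E →L[ℂ] ℂ) : Hol1 α ↔ HDG.IsHol1 α := by
  refine forall_congr' fun p => ?_
  have h1 : (∀ v, ContDiffOn ℂ ∞ (cC α p v) (chartAt E p).target) ↔
      ContDiffOn ℂ ∞ (HDG.coC α p) (chartAt E p).target :=
    (contDiffOn_clm_apply (f := HDG.coC α p)).symm
  rw [h1]
  refine and_congr_right fun h2 => forall_congr' fun y => forall_congr' fun hy => ?_
  have h3 := RB_at (chartAt E p).open_target h2 hy
  refine forall_congr' fun u => forall_congr' fun v => ?_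
  have h4 : dC (cC α p v) y u = fderiv ℂ (HDG.coC α p) y u v := RB_ev h3 u v
  have h5 : dC (cC α p u) y v = fderiv ℂ (HDG.coC α p) y v u := RB_ev h3 v u
  rw [h4, h5]

private theorem RB_bil {g : X → Bil E} (hg : Herm g) (p : X) : ContDiffOn ℝ ∞ (coef g p) (chartAt E p).target := by
  have : FiniteDimensional ℝ E := FiniteDimensional.complexToReal E
  exact contDiffOn_clm_apply.2 fun u => contDiffOn_clm_apply.2 fun v => hg.smooth p u v

private theorem RB_ext {g : X → Bil E} (hg : Herm g) (p : X) {y : E} (hy : y ∈ (chartAt E p).target) (u v w : E) :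
    ext g p y u v w = ext2 (coef g p) y u v w := by
  have h1 := RB_at (chartAt E p).open_target (RB_bil hg p) hy
  have h2 : ∀ a b c : E, dR (cB g p b c) y a = fderiv ℝ (coef g p) y a b c := fun a b c => by
    have h3 : fderiv ℝ (fun y' => coef g p y' b) y a = fderiv ℝ (coef g p) y a b := RB_ev h1 a b
    have h4 : DifferentiableAt ℝ (fun y' => coef g p y' b) y := h1.clm_apply (differentiableAt_const b)
    have h5 : fderiv ℝ (fun y' => coef g p y' b c) y a = fderiv ℝ (fun y' => coef g p y' b) y a c := RB_ev h4 a c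
    rw [h3] at h5
    exact h5
  unfold ext ext2
  rw [h2, h2, h2]

theorem lck_of {M : CM.{u}} (h : LCK M) : HDG.LCK M := by
  obtain ⟨g, θ, hg, hθ, h⟩ := h
  refine ⟨g, θ, (closed1_iff θ).1 hθ, hg.alt, hg.j, RB_bil hg, hg.pos, fun p y hy u v w => ?_⟩
  have h1 := h p y hy u v w
  rw [RB_ext hg p hy] at h1
  exact h1

theorem z1_eq (M : CM.{u}) : Z1 M = HDG.Z1 M := by
  unfold Z1 HDG.Z1
  congr 1
  ext θ
  exact closed1_iff θ

theorem om_eq (M : CM.{u}) : Om M = HDG.Om M := by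
  unfold Om HDG.Om
  congr 1
  ext α
  exact hol1_iff α

theorem dec_iff (M : CM.{u}) (θ : M.X → M.E →L[ℝ] ℝ) (α : M.X → M.E →L[ℂ] ℂ) :
    (∃ f : M.X → ℝ, SmF M.E f ∧ ∀ x, θ x = HDG.reF (α x) + dF M.E f x) ↔ Dec M θ α := by
  refine exists_congr fun f => and_congr_right fun _ => forall_congr' fun x => ?_
  constructor
  · intro h v
    rw [h]
    rfl
  · intro h
    exact ContinuousLinearMap.ext fun v => h v

theorem hodge_of {M : CM.{u}} (h : ∀ θ : M.X → M.E →L[ℝ] ℝ, HDG.IsCl1 θ → ∃! α : M.X → M.E →L[ℂ] ℂ,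
    HDG.IsHol1 α ∧ ∃ f : M.X → ℝ, SmF M.E f ∧ ∀ x, θ x = HDG.reF (α x) + dF M.E f x) : Hodge1 M := by
  intro θ hθ
  obtain ⟨α, ⟨h1, h2⟩, h3⟩ := h θ ((closed1_iff θ).1 hθ)
  exact ⟨α, ⟨(hol1_iff α).2 h1, (dec_iff M θ α).1 h2⟩, fun β hβ =>
    h3 β ⟨(hol1_iff β).1 hβ.1, (dec_iff M θ β).2 hβ.2⟩⟩

theorem fin_of {M : CM.{u}} (h : Module.Finite ℝ (HDG.H1 M)) : FinB1 M := by
  unfold FinB1
  rw [z1_eq]
  exact h

theorem b1_eq (M : CM.{u}) : b1 M = Module.finrank ℝ (HDG.H1 M) := by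
  unfold b1
  rw [z1_eq]
  rfl

theorem h10_eq (M : CM.{u}) : h10 M = Module.finrank ℂ (HDG.Om M) := by
  unfold h10
  rw [om_eq]
  rfl

end HFC
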