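import Pool.Agent.FBR.Loc

/-!
# HDG: definitions for the statement about the first cohomology

`M` is a compact connected complex manifold (`CM`), modelled on `E = M.E`; the tangent space at `x` is `E` by means of the
chart `chartAt E x`. A real 1-form is given by its values `θ x : E →L[ℝ] ℝ`, a form of type `(1,0)` by its values
`α x : E →L[ℂ] ℂ`, a real 2-form by its values `g x : Bil E`.
-/

set_option autoImplicit false

noncomputable section

open scoped Manifold ContDiff

namespace HFC

open Pool.Agent.FBR

universe u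

section Forms

variable {E X : Type u} [NormedAddCommGroup E] [NormedSpace ℂ E] [TopologicalSpace X] [ChartedSpace E X]

/-- the derivative of the real function `f` at `y` in the direction `u` -/
def dR (f : E → ℝ) (y u : E) : ℝ := fderiv ℝ f y u

/-- the complex derivative of the function `f` at `y` in the direction `u` -/
def dC (f : E → ℂ) (y u : E) : ℂ := fderiv ℂ f y u

/-- the value of the bilinear form `a` -/
def ev (a : Bil E) (u v : E) : ℝ := a u v

/-- the coefficient `θ(v)` of the real 1-form `θ` in the chart at `p`, as a function of the point `y` of the chart -/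
def cR (θ : X → E →L[ℝ] ℝ) (p : X) (v y : E) : ℝ := θ ((chartAt E p).symm y) (dvec E (chartAt E p).symm y v)

/-- the coefficient `α(v)` of the form `α` of type `(1,0)` in the chart at `p` -/
def cC (α : X → E →L[ℂ] ℂ) (p : X) (v y : E) : ℂ :=
  α ((chartAt E p).symm y) (fderiv ℂ (chartAt E ((chartAt E p).symm y) ∘ (chartAt E p).symm) y v)

/-- the coefficient `g(u, v)` of the 2-form `g` in the chart at `p` -/
def cB (g : X → Bil E) (p : X) (u v y : E) : ℝ := ev (coef g p y) u v

/-- the exterior derivative of the 2-form `g`, in the chart at `p` -/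
def ext (g : X → Bil E) (p : X) (y u v w : E) : ℝ :=
  dR (cB g p v w) y u + dR (cB g p w u) y v + dR (cB g p u v) y w

/-- the 3-form `θ ∧ g`, in the chart at `p` -/
def wed (θ : X → E →L[ℝ] ℝ) (g : X → Bil E) (p : X) (y u v w : E) : ℝ :=
  cR θ p u y * cB g p v w y + cR θ p v y * cB g p w u y + cR θ p w y * cB g p u v y

/-- `θ` is a smooth closed real 1-form on `X`. -/
def Closed1 (θ : X → E →L[ℝ] ℝ) : Prop :=
  ∀ p : X, (∀ v, ContDiffOn ℝ ∞ (cR θ p v) (chartAt E p).target) ∧
    ∀ y ∈ (chartAt E p).target, ∀ u v, dR (cR θ p v) y u = dR (cR θ p u) y v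

/-- `α` is a closed holomorphic 1-form on `X`. -/
def Hol1 (α : X → E →L[ℂ] ℂ) : Prop :=
  ∀ p : X, (∀ v, ContDiffOn ℂ ∞ (cC α p v) (chartAt E p).target) ∧
    ∀ y ∈ (chartAt E p).target, ∀ u v, dC (cC α p v) y u = dC (cC α p u) y v

/-- `g` is the fundamental form of a Hermitian metric: smooth, real, of type `(1,1)` and positive definite. -/
structure Herm (g : X → Bil E) : Prop where
  smooth : ∀ p u v, ContDiffOn ℝ ∞ (cB g p u v) (chartAt E p).target
  alt : ∀ x v, ev (g x) v v = 0
  j : ∀ x u v, ev (g x) (Complex.I • u) (Complex.I • v) = ev (g x) u v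
  pos : ∀ x v, v ≠ 0 → 0 < ev (g x) v (Complex.I • v)

end Forms

/-- `M` is locally conformally Kähler: it has a Hermitian metric with fundamental form `g` such that `dg = θ ∧ g` for a
closed real 1-form `θ`. -/
def LCK (M : CM.{u}) : Prop :=
  ∃ (g : M.X → Bil M.E) (θ : M.X → M.E →L[ℝ] ℝ), Herm g ∧ Closed1 θ ∧
    ∀ p, ∀ y ∈ (chartAt M.E p).target, ∀ u v w, ext g p y u v w = wed θ g p y u v w

/-- `θ = re α + df` with a smooth function `f` -/
def Dec (M : CM.{u}) (θ : M.X → M.E →L[ℝ] ℝ) (α : M.X → M.E →L[ℂ] ℂ) : Prop :=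
  ∃ f : M.X → ℝ, SmF M.E f ∧ ∀ x v, θ x v = (α x v).re + dF M.E f x v

/-- every closed real 1-form `θ` is `re α + df` with exactly one closed holomorphic 1-form `α` -/
def Hodge1 (M : CM.{u}) : Prop :=
  ∀ θ : M.X → M.E →L[ℝ] ℝ, Closed1 θ → ∃! α : M.X → M.E →L[ℂ] ℂ, Hol1 α ∧ Dec M θ α

/-- the real vector space (spanned by) the closed real 1-forms -/
def Z1 (M : CM.{u}) : Submodule ℝ (M.X → M.E →L[ℝ] ℝ) := Submodule.span ℝ {θ | Closed1 θ}

/-- the real vector space (spanned by) the differentials of smooth functions -/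
def B1 (M : CM.{u}) : Submodule ℝ (M.X → M.E →L[ℝ] ℝ) :=
  Submodule.span ℝ {θ | ∃ f : M.X → ℝ, SmF M.E f ∧ θ = dF M.E f}

/-- the complex vector space (spanned by) the closed holomorphic 1-forms -/
def Om (M : CM.{u}) : Submodule ℂ (M.X → M.E →L[ℂ] ℂ) := Submodule.span ℂ {α | Hol1 α}

section

variable {V : Type u} [AddCommGroup V]

/-- the quotient `A / (A ∩ B)` of subspaces of a real vector space has finite dimension -/
def FinQ [Module ℝ V] (A B : Submodule ℝ V) : Prop := Module.Finite ℝ (↥A ⧸ B.comap A.subtype)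

/-- the dimension of the quotient `A / (A ∩ B)` of subspaces of a real vector space -/
def dimQ [Module ℝ V] (A B : Submodule ℝ V) : ℕ := Module.finrank ℝ (↥A ⧸ B.comap A.subtype)

/-- the dimension of a subspace of a complex vector space -/
def dimC [Module ℂ V] (A : Submodule ℂ V) : ℕ := Module.finrank ℂ A

end

/-- the first cohomology (closed real 1-forms modulo differentials of smooth functions) has finite dimension -/
def FinB1 (M : CM.{u}) : Prop := FinQ (Z1 M) (B1 M)

/-- the first Betti number: the dimension of the first cohomology -/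
def b1 (M : CM.{u}) : ℕ := dimQ (Z1 M) (B1 M)

/-- the dimension of the space of the closed holomorphic 1-forms -/
def h10 (M : CM.{u}) : ℕ := dimC (Om M)

end HFC
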