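import Pool.Agent.HDG.LDefs

/-!
# HDG/RM: the regularised maximum

`th` is a smooth convex function with `|t| ≤ th t ≤ |t| + 1` and `th t = |t|` for `|t| ≥ 1`; `rm δ a b` is a smooth function of
`a, b` with `max a b ≤ rm δ a b ≤ max a b + δ`, equal to `a` for `a ≥ b + δ` and to `b` for `b ≥ a + δ`.

`th` is a primitive of `2 S((t + 1) / 2) - 1` with `S = Real.smoothTransition`; the statements on `rm` and `rml` follow from
the bounds on `th` and from its Lipschitz constant `1`.
-/

set_option autoImplicit false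

noncomputable section

open scoped ContDiff

namespace HDG

private def rm_g (t : ℝ) : ℝ := 2 * Real.smoothTransition ((t + 1) / 2) - 1

private theorem rm_g_smooth : ContDiff ℝ ∞ rm_g := by
  unfold rm_g
  have h : ContDiff ℝ ∞ fun t : ℝ => (t + 1) / 2 := by fun_prop
  exact (contDiff_const.mul (Real.smoothTransition.contDiff.comp h)).sub contDiff_const

private theorem rm_g_cont : Continuous rm_g := rm_g_smooth.continuous

private theorem rm_g_mono : Monotone rm_g := by
  intro a b hab
  unfold rm_g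
  have := Real.smoothTransition.monotone (show (a + 1) / 2 ≤ (b + 1) / 2 by linarith)
  linarith

private theorem rm_g_le_one (t : ℝ) : rm_g t ≤ 1 := by
  unfold rm_g
  linarith [Real.smoothTransition.le_one ((t + 1) / 2)]

private theorem rm_neg_one_le_g (t : ℝ) : -1 ≤ rm_g t := by
  unfold rm_g
  linarith [Real.smoothTransition.nonneg ((t + 1) / 2)]

private theorem rm_g_one {t : ℝ} (ht : 1 ≤ t) : rm_g t = 1 := by
  unfold rm_g
  rw [Real.smoothTransition.one_of_one_le (by linarith)]
  norm_num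

private theorem rm_g_neg_one {t : ℝ} (ht : t ≤ -1) : rm_g t = -1 := by
  unfold rm_g
  rw [Real.smoothTransition.zero_of_nonpos (by linarith)]
  norm_num

private theorem rm_g_neg (t : ℝ) : rm_g (-t) = -rm_g t := by
  unfold rm_g Real.smoothTransition
  have h1 : 1 - (t + 1) / 2 = (-t + 1) / 2 := by ring
  have h2 : 1 - (-t + 1) / 2 = (t + 1) / 2 := by ring
  rw [h1, h2]
  have hp := Real.smoothTransition.pos_denom ((t + 1) / 2)
  rw [h1] at hp
  have hp' : 0 < expNegInvGlue ((-t + 1) / 2) + expNegInvGlue ((t + 1) / 2) := by rwa [add_comm]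
  field_simp
  ring

private theorem rm_g_nonneg {t : ℝ} (ht : 0 ≤ t) : 0 ≤ rm_g t := by
  have h0 : rm_g 0 = 0 := by
    have := rm_g_neg 0
    rw [neg_zero] at this
    linarith
  rw [← h0]
  exact rm_g_mono ht

private def rm_f (t : ℝ) : ℝ := 1 + ∫ s in (-1 : ℝ)..t, rm_g s

private theorem rm_f_deriv (t : ℝ) : HasDerivAt rm_f (rm_g t) t := by
  unfold rm_f
  exact (intervalIntegral.integral_hasDerivAt_right (rm_g_cont.intervalIntegrable _ _)
    (rm_g_cont.stronglyMeasurableAtFilter _ _) rm_g_cont.continuousAt).const_add 1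

private theorem rm_deriv_f : deriv rm_f = rm_g := funext fun t => (rm_f_deriv t).deriv

private theorem rm_f_diff : Differentiable ℝ rm_f := fun t => (rm_f_deriv t).differentiableAt

private theorem rm_f_neg_one : rm_f (-1) = 1 := by simp [rm_f]

private theorem rm_f_one : rm_f 1 = 1 := by
  unfold rm_f
  have h : (∫ s in (-1 : ℝ)..1, rm_g (-s)) = ∫ s in (-1 : ℝ)..1, rm_g s := by
    rw [intervalIntegral.integral_comp_neg]
    simp
  have h2 : (∫ s in (-1 : ℝ)..1, rm_g (-s)) = -∫ s in (-1 : ℝ)..1, rm_g s := by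
    rw [← intervalIntegral.integral_neg]
    exact intervalIntegral.integral_congr fun s _ => rm_g_neg s
  linarith

private theorem rm_f_sub_anti : Antitone fun t => rm_f t - t := by
  refine antitone_of_deriv_nonpos (rm_f_diff.sub differentiable_id) fun t => ?_
  have h := ((rm_f_deriv t).sub (hasDerivAt_id t)).deriv
  have h2 : deriv (fun t => rm_f t - t) t = rm_g t - 1 := h
  rw [h2]
  linarith [rm_g_le_one t]

private theorem rm_f_add_mono : Monotone fun t => rm_f t + t := by
  refine monotone_of_deriv_nonneg (rm_f_diff.add differentiable_id) fun t => ?_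
  have h := ((rm_f_deriv t).add (hasDerivAt_id t)).deriv
  have h2 : deriv (fun t => rm_f t + t) t = rm_g t + 1 := h
  rw [h2]
  linarith [rm_neg_one_le_g t]

private theorem rm_f_of_one_le {t : ℝ} (ht : 1 ≤ t) : rm_f t = t := by
  have h1 : rm_f t = rm_f 1 + ∫ s in (1 : ℝ)..t, rm_g s := by
    unfold rm_f
    rw [add_assoc, intervalIntegral.integral_add_adjacent_intervals (rm_g_cont.intervalIntegrable _ _)
      (rm_g_cont.intervalIntegrable _ _)]
  have h2 : (∫ s in (1 : ℝ)..t, rm_g s) = ∫ s in (1 : ℝ)..t, (1 : ℝ) := by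
    refine intervalIntegral.integral_congr fun s hs => ?_
    rw [Set.uIcc_of_le ht] at hs
    exact rm_g_one hs.1
  rw [h1, h2, rm_f_one]
  simp

private theorem rm_f_of_le_neg_one {t : ℝ} (ht : t ≤ -1) : rm_f t = -t := by
  have h2 : (∫ s in (-1 : ℝ)..t, rm_g s) = ∫ s in (-1 : ℝ)..t, (-1 : ℝ) := by
    refine intervalIntegral.integral_congr fun s hs => ?_
    rw [Set.uIcc_of_ge ht] at hs
    exact rm_g_neg_one hs.2
  unfold rm_f
  rw [h2]
  simp

private theorem rm_f_zero_le : rm_f 0 ≤ 1 := by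
  have hm : MonotoneOn rm_f (Set.Ici 0) := by
    refine monotoneOn_of_deriv_nonneg (convex_Ici 0) rm_f_diff.continuous.continuousOn
      rm_f_diff.differentiableOn fun t ht => ?_
    rw [interior_Ici] at ht
    rw [rm_deriv_f]
    exact rm_g_nonneg (le_of_lt ht)
  have := hm (Set.mem_Ici.2 le_rfl) (Set.mem_Ici.2 (zero_le_one' ℝ)) (zero_le_one' ℝ)
  rwa [rm_f_one] at this

theorem exists_th : ∃ f : ℝ → ℝ, ContDiff ℝ ∞ f ∧ (∀ t, |t| ≤ f t) ∧ (∀ t, f t ≤ |t| + 1) ∧
    (∀ t, 1 ≤ |t| → f t = |t|) ∧ (∀ t, |deriv f t| ≤ 1) ∧ (∀ t, 0 ≤ deriv (deriv f) t) := by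
  refine ⟨rm_f, ?_, ?_, ?_, ?_, ?_, ?_⟩
  · rw [contDiff_infty_iff_deriv, rm_deriv_f]
    exact ⟨rm_f_diff, rm_g_smooth⟩
  · intro t
    rw [abs_le']
    constructor
    · rcases le_total t 1 with h | h
      · have := rm_f_sub_anti h
        simp only [rm_f_one] at this
        linarith
      · rw [rm_f_of_one_le h]
    · rcases le_total t (-1) with h | h
      · rw [rm_f_of_le_neg_one h]
      · have := rm_f_add_mono h
        simp only [rm_f_neg_one] at this
        linarith
  · intro t
    rcases le_total 0 t with h | h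
    · have := rm_f_sub_anti h
      simp only [sub_zero] at this
      rw [abs_of_nonneg h]
      linarith [rm_f_zero_le]
    · have := rm_f_add_mono h
      simp only [add_zero] at this
      rw [abs_of_nonpos h]
      linarith [rm_f_zero_le]
  · intro t ht
    rcases le_abs'.1 ht with h | h
    · rw [rm_f_of_le_neg_one h, abs_of_nonpos (by linarith)]
    · rw [rm_f_of_one_le h, abs_of_nonneg (by linarith)]
  · intro t
    rw [rm_deriv_f, abs_le]
    exact ⟨rm_neg_one_le_g t, rm_g_le_one t⟩
  · intro t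
    rw [rm_deriv_f]
    exact rm_g_mono.deriv_nonneg

/-- a regularised absolute value -/
def th : ℝ → ℝ := exists_th.choose

theorem th_spec : ContDiff ℝ ∞ th ∧ (∀ t, |t| ≤ th t) ∧ (∀ t, th t ≤ |t| + 1) ∧
    (∀ t, 1 ≤ |t| → th t = |t|) ∧ (∀ t, |deriv th t| ≤ 1) ∧ (∀ t, 0 ≤ deriv (deriv th) t) :=
  exists_th.choose_spec

/-- the regularised maximum -/
def rm (δ a b : ℝ) : ℝ := (a + b) / 2 + δ * th ((a - b) / δ) / 2

/-- the regularised maximum of a list -/
def rml (δ a : ℝ) (l : List ℝ) : ℝ := l.foldl (rm δ) a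

variable {δ : ℝ}

private theorem rm_th_lip (x y : ℝ) : |th x - th y| ≤ |x - y| := by
  have h := Convex.norm_image_sub_le_of_norm_deriv_le (f := th) (s := Set.univ) (C := 1) (x := y) (y := x)
    (fun z _ => (th_spec.1.differentiable (by simp)).differentiableAt)
    (fun z _ => by rw [Real.norm_eq_abs]; exact th_spec.2.2.2.2.1 z) convex_univ (Set.mem_univ _) (Set.mem_univ _)
  rwa [one_mul, Real.norm_eq_abs, Real.norm_eq_abs] at h

private theorem rm_mul_abs_div (hδ : 0 < δ) (x : ℝ) : δ * |x / δ| = |x| := by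
  rw [abs_div, abs_of_pos hδ]
  field_simp

private theorem rm_abs_le_mul_th (hδ : 0 < δ) (x : ℝ) : |x| ≤ δ * th (x / δ) := by
  rw [← rm_mul_abs_div hδ x]
  exact mul_le_mul_of_nonneg_left (th_spec.2.1 _) hδ.le

theorem rm_smooth (δ : ℝ) : ContDiff ℝ ∞ fun p : ℝ × ℝ => rm δ p.1 p.2 := by
  unfold rm
  have h1 : ContDiff ℝ ∞ fun p : ℝ × ℝ => (p.1 - p.2) / δ := (contDiff_fst.sub contDiff_snd).div_const δ
  have h2 : ContDiff ℝ ∞ fun p : ℝ × ℝ => th ((p.1 - p.2) / δ) := th_spec.1.comp h1
  exact ((contDiff_fst.add contDiff_snd).div_const 2).add ((contDiff_const.mul h2).div_const 2)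

theorem left_le_rm (hδ : 0 < δ) (a b : ℝ) : a ≤ rm δ a b := by
  unfold rm
  linarith [rm_abs_le_mul_th hδ (a - b), le_abs_self (a - b)]

theorem right_le_rm (hδ : 0 < δ) (a b : ℝ) : b ≤ rm δ a b := by
  unfold rm
  linarith [rm_abs_le_mul_th hδ (a - b), neg_le_abs (a - b)]

theorem rm_le (hδ : 0 < δ) (a b : ℝ) : rm δ a b ≤ max a b + δ := by
  unfold rm
  have h1 : δ * th ((a - b) / δ) ≤ |a - b| + δ := by
    calc δ * th ((a - b) / δ) ≤ δ * (|(a - b) / δ| + 1) := mul_le_mul_of_nonneg_left (th_spec.2.2.1 _) hδ.le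
      _ = δ * |(a - b) / δ| + δ := by ring
      _ = |a - b| + δ := by rw [rm_mul_abs_div hδ]
  rcases le_total a b with h | h
  · rw [max_eq_right h]
    rw [abs_of_nonpos (by linarith)] at h1
    linarith
  · rw [max_eq_left h]
    rw [abs_of_nonneg (by linarith)] at h1
    linarith

private theorem rm_mul_th (hδ : 0 < δ) {x : ℝ} (h : δ ≤ |x|) : δ * th (x / δ) = |x| := by
  rw [th_spec.2.2.2.1 (x / δ), rm_mul_abs_div hδ]
  rw [abs_div, abs_of_pos hδ, le_div_iff₀ hδ]
  linarith

theorem rm_left (hδ : 0 < δ) {a b : ℝ} (h : b + δ ≤ a) : rm δ a b = a := by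
  unfold rm
  have h0 : |a - b| = a - b := abs_of_nonneg (by linarith)
  rw [rm_mul_th hδ (by rw [h0]; linarith), h0]
  ring

theorem rm_right (hδ : 0 < δ) {a b : ℝ} (h : a + δ ≤ b) : rm δ a b = b := by
  unfold rm
  have h0 : |a - b| = -(a - b) := abs_of_nonpos (by linarith)
  rw [rm_mul_th hδ (by rw [h0]; linarith), h0]
  ring

theorem rm_add (a b c : ℝ) : rm δ (a + c) (b + c) = rm δ a b + c := by
  unfold rm
  rw [add_sub_add_right_eq_sub]
  ring

theorem rm_mono (hδ : 0 < δ) {a a' b b' : ℝ} (h : a ≤ a') (h' : b ≤ b') : rm δ a b ≤ rm δ a' b' := by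
  unfold rm
  have h1 : δ * th ((a - b) / δ) - δ * th ((a' - b') / δ) ≤ |(a - b) - (a' - b')| := by
    calc δ * th ((a - b) / δ) - δ * th ((a' - b') / δ) = δ * (th ((a - b) / δ) - th ((a' - b') / δ)) := by ring
      _ ≤ δ * |(a - b) / δ - (a' - b') / δ| :=
        mul_le_mul_of_nonneg_left ((le_abs_self _).trans (rm_th_lip _ _)) hδ.le
      _ = |(a - b) - (a' - b')| := by rw [← sub_div, rm_mul_abs_div hδ]
  have h2 : |(a - b) - (a' - b')| ≤ (a' - a) + (b' - b) := by
    rw [abs_le]
    constructor <;> linarith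
  linarith

theorem rml_base_le (hδ : 0 < δ) (a : ℝ) (l : List ℝ) : a ≤ rml δ a l := by
  induction l generalizing a with
  | nil => exact le_rfl
  | cons b l ih => exact (left_le_rm hδ a b).trans (ih (rm δ a b))

theorem le_rml (hδ : 0 < δ) (a : ℝ) {l : List ℝ} {b : ℝ} (hb : b ∈ l) : b ≤ rml δ a l := by
  induction l generalizing a with
  | nil => exact absurd hb (List.not_mem_nil)
  | cons c l ih =>
    rcases List.mem_cons.1 hb with h | h
    · rw [h]
      exact (right_le_rm hδ a c).trans (rml_base_le hδ (rm δ a c) l)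
    · exact ih (rm δ a c) h

theorem rml_le (hδ : 0 < δ) {a M : ℝ} {l : List ℝ} (ha : a ≤ M) (h : ∀ b ∈ l, b ≤ M) :
    rml δ a l ≤ M + l.length * δ := by
  induction l generalizing a M with
  | nil =>
    simp only [rml, List.foldl_nil, List.length_nil, Nat.cast_zero, zero_mul, add_zero]
    exact ha
  | cons b l ih =>
    have h1 : rm δ a b ≤ M + δ := by
      have := rm_le hδ a b
      have hb := h b (List.mem_cons_self)
      linarith [max_le ha hb]
    have h2 := ih h1 fun c hc => (h c (List.mem_cons_of_mem _ hc)).trans (by linarith)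
    have h3 : rml δ a (b :: l) = rml δ (rm δ a b) l := rfl
    rw [h3, List.length_cons, Nat.cast_add, Nat.cast_one]
    linarith

theorem rml_add (a c : ℝ) (l : List ℝ) : rml δ (a + c) (l.map (· + c)) = rml δ a l + c := by
  induction l generalizing a with
  | nil => rfl
  | cons b l ih =>
    have h1 : rml δ (a + c) ((b :: l).map (· + c)) = rml δ (rm δ (a + c) (b + c)) (l.map (· + c)) := rfl
    rw [h1, rm_add, ih]
    rfl

theorem rml_mono (hδ : 0 < δ) {ι : Type*} (l : List ι) {f g : ι → ℝ} {a a' : ℝ} (ha : a ≤ a')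
    (h : ∀ i ∈ l, f i ≤ g i) : rml δ a (l.map f) ≤ rml δ a' (l.map g) := by
  induction l generalizing a a' with
  | nil => exact ha
  | cons i l ih =>
    exact ih (rm_mono hδ ha (h i (List.mem_cons_self))) fun j hj => h j (List.mem_cons_of_mem _ hj)

theorem rml_append (a : ℝ) (l l' : List ℝ) : rml δ a (l ++ l') = rml δ (rml δ a l) l' := by
  unfold rml
  exact List.foldl_append

/-- elements below `a - δ` do not matter -/
theorem rml_filter (hδ : 0 < δ) (a : ℝ) (l : List ℝ) (p : ℝ → Bool) (h : ∀ b ∈ l, p b = false → b + δ ≤ a) :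
    rml δ a (l.filter p) = rml δ a l := by
  induction l generalizing a with
  | nil => rfl
  | cons b l ih =>
    have hl : ∀ c ∈ l, p c = false → c + δ ≤ a := fun c hc => h c (List.mem_cons_of_mem _ hc)
    have h1 : rml δ a (b :: l) = rml δ (rm δ a b) l := rfl
    cases hb : p b with
    | true =>
      rw [List.filter_cons_of_pos hb]
      have h2 : rml δ a (b :: l.filter p) = rml δ (rm δ a b) (l.filter p) := rfl
      rw [h1, h2]
      exact ih (rm δ a b) fun c hc hc' => (hl c hc hc').trans (left_le_rm hδ a b)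
    | false =>
      rw [List.filter_cons_of_neg (by rw [hb]; exact Bool.false_ne_true), h1,
        rm_left hδ (h b (List.mem_cons_self) hb)]
      exact ih a hl

end HDG
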