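import Pool.Agent.HDG.SDefs

/-!
# HDG/SL0: locally conformally Kähler manifolds of dimension at most one

The form `g` of the definition of `LCK` is closed: on a real vector space of dimension at most two every
alternating trilinear form vanishes.
-/

set_option autoImplicit false

noncomputable section

open scoped Manifold ContDiff Topology

namespace HDG

open Pool.Agent.FBR

universe u

private theorem SL0_cyc {E : Type*} [NormedAddCommGroup E] [NormedSpace ℂ E] [FiniteDimensional ℂ E]
    (hn : Module.finrank ℂ E ≤ 1) (G : Bil E) (halt : ∀ v, G v v = 0) (t : E →L[ℝ] ℝ) (u v w : E) :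
    t u * G v w + t v * G w u + t w * G u v = 0 := by
  obtain ⟨x0, hx0⟩ := finrank_le_one_iff.mp hn
  have hdec : ∀ a : ℂ, a • x0 = a.re • x0 + a.im • (Complex.I • x0) := by
    intro a
    have h1 : (a.re • x0 : E) = ((a.re : ℝ) : ℂ) • x0 := rfl
    have h2 : (a.im • (Complex.I • x0) : E) = (((a.im : ℝ) : ℂ) * Complex.I) • x0 := by
      rw [mul_smul]
      rfl
    rw [h1, h2, ← add_smul, Complex.re_add_im]
  have hanti : ∀ x y : E, G y x = -G x y := by
    intro x y
    have h := halt (x + y)
    rw [map_add, map_add, add_apply, add_apply, halt x, halt y] at h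
    linarith
  have hG : ∀ a b : ℂ, G (a • x0) (b • x0) = (a.re * b.im - a.im * b.re) * G x0 (Complex.I • x0) := by
    intro a b
    rw [hdec a, hdec b]
    simp only [map_add, add_apply, map_smul, smul_apply, smul_eq_mul]
    rw [halt x0, halt (Complex.I • x0), hanti x0 (Complex.I • x0)]
    ring
  have ht : ∀ a : ℂ, t (a • x0) = a.re * t x0 + a.im * t (Complex.I • x0) := by
    intro a
    rw [hdec a, map_add, map_smul, map_smul, smul_eq_mul, smul_eq_mul]
  obtain ⟨a, rfl⟩ := hx0 u
  obtain ⟨b, rfl⟩ := hx0 v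
  obtain ⟨c, rfl⟩ := hx0 w
  rw [hG b c, hG c a, hG a b, ht a, ht b, ht c]
  ring

theorem lck_small (M : CM.{u}) (h : LCK M) (hn : Module.finrank ℂ M.E ≤ 1) : Kaehler M := by
  obtain ⟨g, θ, -, halt, hj, hsm, hpos, hext⟩ := h
  refine ⟨⟨g, halt, hj, hsm, fun p y hy u v w => ?_⟩, fun x v hv => hpos x v hv⟩
  have h1 := hext p y hy u v w
  unfold ext2 at h1
  rw [h1]
  exact SL0_cyc hn (coef g p y) (fun v => halt _ _) (co1 θ p y) u v w

end HDG
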