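import Pool.Agent.HDG.SDefs
import Pool.Agent.HDG.G1

/-!
# HDG/ST3: functions and tensors on a manifold, read in the balls of `B`

A function is smooth on the manifold if and only if it is smooth in the balls of `B`; tensors of type `(1,1)`, closed forms,
semi-positive forms and Hermitian metrics give the corresponding objects of `B`, and conversely closed forms in the balls
come from a form on the manifold.
-/

set_option autoImplicit false

noncomputable section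

open scoped Manifold ContDiff Topology

namespace HDG

open Pool.Agent.FBR

variable {E X : Type*} [NormedAddCommGroup E] [NormedSpace ℂ E] [FiniteDimensional ℂ E]
  [TopologicalSpace X] [ChartedSpace E X] [IsManifold 𝓘(ℂ, E) ω X]
  {n : ℕ} {e : Module.Basis (Fin n) ℂ E} {B : BM e X}

omit [FiniteDimensional ℂ E] [IsManifold 𝓘(ℂ, E) ω X] in
private theorem ST3_le {z : E} (hz : z ∈ qb e 1) : z ∈ qb e 4 :=
  BM.qb_mono (by norm_num) (by norm_num) hz

omit [FiniteDimensional ℂ E] [IsManifold 𝓘(ℂ, E) ω X] in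
private theorem ST3_congr (a : X → Bil E) {f f' : E → X} {q : E} (h : f =ᶠ[nhds q] f') :
    tpb a f q = tpb a f' q := by
  have h1 : f q = f' q := h.eq_of_nhds
  have h2 : fderiv ℝ (chartAt E (f q) ∘ f) q = fderiv ℝ (chartAt E (f' q) ∘ f') q := by
    rw [h1]
    exact Filter.EventuallyEq.fderiv_eq (h.fun_comp (chartAt E (f' q)))
  unfold tpb
  rw [h2, h1]

omit [FiniteDimensional ℂ E] in
private theorem ST3_smooth {a : X → Bil E} (hs : ∀ p, ContDiffOn ℝ ∞ (coef a p) (chartAt E p).target)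
    {g : E → X} {O : Set E} (hO : IsOpen O) (hg : ∀ q ∈ O, Sm E g q) {q₀ : E} (hq : q₀ ∈ O) :
    ContDiffAt ℝ ∞ (tpb a g) q₀ := by
  have h1 : ∀ᶠ q in nhds q₀, q ∈ O := hO.mem_nhds hq
  have h2 : ∀ᶠ q in nhds q₀, g q ∈ (chartAt E (g q₀)).source :=
    (hg q₀ hq).1.eventually ((chartAt E (g q₀)).open_source.mem_nhds (mem_chart_source E (g q₀)))
  have h3 : tpb a g =ᶠ[nhds q₀] fun q => (coef a (g q₀) ((chartAt E (g q₀) ∘ g) q)).bilinearComp
      (fderiv ℝ (chartAt E (g q₀) ∘ g) q) (fderiv ℝ (chartAt E (g q₀) ∘ g) q) := by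
    filter_upwards [h1, h2] with q hq1 hq2
    exact tpb_coef a (hg q hq1) hq2
  refine ContDiffAt.congr_of_eventuallyEq ?_ h3
  exact contDiffAt_pull (coef a (g q₀)) (chartAt E (g q₀) ∘ g) q₀
    ((hs (g q₀)).contDiffAt ((chartAt E (g q₀)).open_target.mem_nhds (mem_chart_target E (g q₀))))
    (hg q₀ hq).2

theorem Fit.sm (hB : Fit B) (f : X → ℝ) : SmF E f ↔ B.Sm f := by
  constructor
  · intro h i z hz
    exact (h.at (hB.hol i z hz).sm).contDiffWithinAt
  · intro h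
    refine smF_of_par (G := E) fun x => ?_
    obtain ⟨i, z, hz, hx⟩ := B.cov x
    exact ⟨B.ψ i, qb e 4, isOpen_qb e 4, ⟨z, ST3_le hz, hx⟩, fun q hq => ⟨(hB.hol i q hq).sm, hB.bij i q hq⟩, h i⟩

theorem Fit.isT (hB : Fit B) {a : X → Bil E} (halt : ∀ x v, a x v v = 0)
    (hj : ∀ x u v, a x (Complex.I • u) (Complex.I • v) = a x u v)
    (hs : ∀ p, ContDiffOn ℝ ∞ (coef a p) (chartAt E p).target) : B.IsT fun i => tpb a (B.ψ i) := by
  refine ⟨fun i z hz => ?_, fun i z hz => ⟨fun v => halt _ _, fun u v => ?_⟩, fun i j z hz => ?_⟩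
  · exact (ST3_smooth hs (isOpen_qb e 4) (fun q hq => (hB.hol i q hq).sm) hz).contDiffWithinAt
  · show tpb a (B.ψ i) z (Complex.I • u) (Complex.I • v) = tpb a (B.ψ i) z u v
    rw [tpb_apply, tpb_apply, (hB.hol i z hz).smul_I, (hB.hol i z hz).smul_I, hj]
  · have h1 : B.ψ i =ᶠ[nhds z] B.ψ j ∘ B.T i j := by
      filter_upwards [(B.D_open i j).mem_nhds hz] with z' hz'
      exact (B.ψ_T hz').symm
    show tpb a (B.ψ i) z = (tpb a (B.ψ j) (B.T i j z)).bilinearComp (fderiv ℝ (B.T i j) z) (fderiv ℝ (B.T i j) z)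
    rw [ST3_congr a h1]
    exact tpb_comp a (hB.hol j (B.T i j z) (B.T_mem hz)).sm ((B.T_cd hz).differentiableAt (by simp))

theorem Fit.clT (hB : Fit B) (b : Form E X) : B.ClT fun i => tpb b.val (B.ψ i) := by
  intro i z hz u v w
  exact tpb_closed b (isOpen_qb e 4) (fun q hq => (hB.hol i q hq).sm) hz u v w

theorem Fit.nnT (hB : Fit B) {b : Form E X} (hb : b.Semi) : B.NnT fun i => tpb b.val (B.ψ i) := by
  intro i z hz v
  exact tpb_semi hb (hB.hol i z hz) v

theorem Fit.pos (hB : Fit B) {b : Form E X} {x : X} (h : b.PosAt x) :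
    ∃ i, ∃ z ∈ qb e 4, ∀ v : E, v ≠ 0 → 0 < tpb b.val (B.ψ i) z v (Complex.I • v) := by
  obtain ⟨i, z, hz, rfl⟩ := B.cov x
  exact ⟨i, z, ST3_le hz, (posAt_iff b (hB.hol i z (ST3_le hz)) (hB.bij i z (ST3_le hz))).1 h⟩

theorem Fit.met (hB : Fit B) {a : X → Bil E} (halt : ∀ x v, a x v v = 0)
    (hj : ∀ x u v, a x (Complex.I • u) (Complex.I • v) = a x u v)
    (hs : ∀ p, ContDiffOn ℝ ∞ (coef a p) (chartAt E p).target) (hp : ∀ x v, v ≠ 0 → 0 < a x v (Complex.I • v)) :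
    B.Met fun i => tpb a (B.ψ i) := by
  refine ⟨hB.isT halt hj hs, fun i z hz v hv => ?_⟩
  show 0 < tpb a (B.ψ i) z v (Complex.I • v)
  rw [tpb_apply, (hB.hol i z hz).smul_I]
  refine hp _ _ fun h0 => hv ?_
  exact (hB.bij i z hz).1 (h0.trans (map_zero (dvec E (B.ψ i) z)).symm)

theorem Fit.form (hB : Fit B) {a : X → Bil E} (halt : ∀ x v, a x v v = 0)
    (hj : ∀ x u v, a x (Complex.I • u) (Complex.I • v) = a x u v)
    (h : ∀ i, ∀ z ∈ qb e 4, ContDiffAt ℝ ∞ (tpb a (B.ψ i)) z ∧ ∀ u v w : E, ext2 (tpb a (B.ψ i)) z u v w = 0) :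
    ∃ b : Form E X, b.val = a := by
  refine exists_form (G := E) a halt hj fun x => ?_
  obtain ⟨i, z, hz, hx⟩ := B.cov x
  exact ⟨B.ψ i, qb e 4, isOpen_qb e 4, ⟨z, ST3_le hz, hx⟩, fun q hq => ⟨(hB.hol i q hq).sm, hB.bij i q hq⟩,
    fun q hq => (h i q hq).1.contDiffWithinAt, fun q hq => (h i q hq).2⟩

end HDG
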