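import Pool.Agent.HDG.SDefs

/-!
# HDG/ST4: calculus of real 1-forms

Pull back of real 1-forms (`tp1`), the coefficients in charts (`co1`), smoothness and closedness of pull backs, the
differentials of smooth functions are closed 1-forms, sums and multiples of closed 1-forms.
-/

set_option autoImplicit false

noncomputable section

open scoped Manifold ContDiff Topology

namespace HDG

open Pool.Agent.FBR

variable {E X : Type*} [NormedAddCommGroup E] [NormedSpace ℂ E] [FiniteDimensional ℂ E]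
  [TopologicalSpace X] [ChartedSpace E X] [IsManifold 𝓘(ℂ, E) ω X]
  {G : Type*} [NormedAddCommGroup G] [NormedSpace ℝ G] {G' : Type*} [NormedAddCommGroup G'] [NormedSpace ℝ G']

private theorem ST4_pull_fderiv {V W : Type*} [NormedAddCommGroup V] [NormedSpace ℝ V]
    [NormedAddCommGroup W] [NormedSpace ℝ W] (a : V → V →L[ℝ] ℝ) (k : W → V) (q : W)
    (ha : DifferentiableAt ℝ a (k q)) (hk : ContDiffAt ℝ 2 k q) (u v : W) :
    fderiv ℝ (fun q' => (a (k q')).comp (fderiv ℝ k q')) q u v =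
      fderiv ℝ a (k q) (fderiv ℝ k q u) (fderiv ℝ k q v) + a (k q) (fderiv ℝ (fderiv ℝ k) q u v) := by
  have hk1 : DifferentiableAt ℝ k q := hk.differentiableAt (by norm_num)
  have hK : DifferentiableAt ℝ (fderiv ℝ k) q :=
    (hk.fderiv_right (m := 1) (by norm_num)).differentiableAt (by norm_num)
  have h1 : HasFDerivAt (fun q' => a (k q')) ((fderiv ℝ a (k q)).comp (fderiv ℝ k q)) q :=
    HasFDerivAt.comp (𝕜 := ℝ) (E := W) (F := V) (G := V →L[ℝ] ℝ) q ha.hasFDerivAt hk1.hasFDerivAt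
  have h0 : DifferentiableAt ℝ (fun q' => (a (k q')).comp (fderiv ℝ k q')) q :=
    h1.differentiableAt.clm_comp hK
  have h2 : HasFDerivAt (fun q' => fderiv ℝ k q' v) ((fderiv ℝ (fderiv ℝ k) q).flip v) q := by
    have h3 := hK.hasFDerivAt.clm_apply (hasFDerivAt_const v q)
    simpa using h3
  have h4 := h0.hasFDerivAt.clm_apply (hasFDerivAt_const v q)
  have h5 := h1.clm_apply h2
  have h6 := h4.unique h5
  have h7 := congrArg (fun L => L u) h6
  simp only [_root_.add_apply, ContinuousLinearMap.comp_apply,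
    ContinuousLinearMap.flip_apply, _root_.zero_apply, map_zero, zero_add] at h7
  rw [h7]
  ring

private theorem ST4_two {V W : Type*} [NormedAddCommGroup V] [NormedSpace ℝ V]
    [NormedAddCommGroup W] [NormedSpace ℝ W] {f : V → W} {y : V}
    (h : ContDiffAt ℝ ∞ f y) : ContDiffAt ℝ 2 f y :=
  h.of_le (WithTop.coe_le_coe.2 (le_top : (2 : ℕ∞) ≤ ⊤))

theorem tp1_comp (θ : X → E →L[ℝ] ℝ) {f : G → X} {k : G' → G} {q : G'} (hf : Sm E f (k q))
    (hk : DifferentiableAt ℝ k q) : tp1 θ (f ∘ k) q = (tp1 θ f (k q)).comp (fderiv ℝ k q) := by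
  ext u
  show θ (f (k q)) (dvec E (f ∘ k) q u) = θ (f (k q)) (dvec E f (k q) (fderiv ℝ k q u))
  rw [dvec_comp hf hk]
  rfl

theorem tp1_co (θ : X → E →L[ℝ] ℝ) {f : G → X} {q : G} {p : X} (hf : Sm E f q) (hp : f q ∈ (chartAt E p).source) :
    tp1 θ f q = (co1 θ p (chartAt E p (f q))).comp (fderiv ℝ (chartAt E p ∘ f) q) := by
  ext u
  show θ (f q) (dvec E f q u) =
    θ ((chartAt E p).symm (chartAt E p (f q)))
      (dvec E (chartAt E p).symm (chartAt E p (f q)) (fderiv ℝ (chartAt E p ∘ f) q u))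
  rw [(chartAt E p).left_inv hp, dvec_chart' hf hp]
  rfl

theorem co1_self (θ : X → E →L[ℝ] ℝ) (x : X) : co1 θ x (chartAt E x x) = θ x := by
  ext u
  show θ ((chartAt E x).symm (chartAt E x x)) (dvec E (chartAt E x).symm (chartAt E x x) u) = θ x u
  rw [(chartAt E x).left_inv (mem_chart_source E x), dvec_symm_self]
  rfl

private theorem ST4_ev (θ : X → E →L[ℝ] ℝ) {g : G → X} {O : Set G} (hO : IsOpen O)
    (hg : ∀ q ∈ O, Sm E g q) {q₀ : G} (hq : q₀ ∈ O) :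
    tp1 θ g =ᶠ[nhds q₀] fun q => (co1 θ (g q₀) ((chartAt E (g q₀) ∘ g) q)).comp
      (fderiv ℝ (chartAt E (g q₀) ∘ g) q) := by
  have h1 : ∀ᶠ q in nhds q₀, q ∈ O := hO.mem_nhds hq
  have h2 : ∀ᶠ q in nhds q₀, g q ∈ (chartAt E (g q₀)).source :=
    (hg q₀ hq).1.eventually ((chartAt E (g q₀)).open_source.mem_nhds (mem_chart_source E (g q₀)))
  filter_upwards [h1, h2] with q hq1 hq2
  exact tp1_co θ (hg q hq1) hq2

omit [FiniteDimensional ℂ E] [IsManifold 𝓘(ℂ, E) ω X] in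
private theorem ST4_co_at {θ : X → E →L[ℝ] ℝ} (hθ : IsCl1 θ) (p : X) :
    ContDiffAt ℝ ∞ (co1 θ p) (chartAt E p p) :=
  (hθ p).1.contDiffAt ((chartAt E p).open_target.mem_nhds (mem_chart_target E p))

theorem tp1_smooth {θ : X → E →L[ℝ] ℝ} (hθ : IsCl1 θ) {g : G → X} {O : Set G} (hO : IsOpen O)
    (hg : ∀ q ∈ O, Sm E g q) : ContDiffOn ℝ ∞ (tp1 θ g) O := by
  intro q₀ hq
  refine ContDiffAt.contDiffWithinAt ?_
  refine ContDiffAt.congr_of_eventuallyEq ?_ (ST4_ev θ hO hg hq)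
  have hk : ContDiffAt ℝ ∞ (chartAt E (g q₀) ∘ g) q₀ := (hg q₀ hq).2
  have hK : ContDiffAt ℝ ∞ (fderiv ℝ (chartAt E (g q₀) ∘ g)) q₀ := hk.fderiv_right (by simp)
  have h0 : ContDiffAt ℝ ∞ (fun q => co1 θ (g q₀) ((chartAt E (g q₀) ∘ g) q)) q₀ :=
    ContDiffAt.comp (𝕜 := ℝ) (E := G) (F := E) (G := E →L[ℝ] ℝ) q₀ (ST4_co_at hθ (g q₀)) hk
  exact h0.clm_comp hK

theorem tp1_closed {θ : X → E →L[ℝ] ℝ} (hθ : IsCl1 θ) {g : G → X} {O : Set G} (hO : IsOpen O)
    (hg : ∀ q ∈ O, Sm E g q) {q : G} (hq : q ∈ O) (u v : G) :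
    fderiv ℝ (tp1 θ g) q u v = fderiv ℝ (tp1 θ g) q v u := by
  rw [(ST4_ev θ hO hg hq).fderiv_eq]
  have hk : ContDiffAt ℝ 2 (chartAt E (g q) ∘ g) q := ST4_two (hg q hq).2
  have ha : DifferentiableAt ℝ (co1 θ (g q)) ((chartAt E (g q) ∘ g) q) :=
    (ST4_co_at hθ (g q)).differentiableAt (by simp)
  rw [ST4_pull_fderiv (co1 θ (g q)) (chartAt E (g q) ∘ g) q ha hk u v,
    ST4_pull_fderiv (co1 θ (g q)) (chartAt E (g q) ∘ g) q ha hk v u]
  have hs : IsSymmSndFDerivAt ℝ (chartAt E (g q) ∘ g) q := hk.isSymmSndFDerivAt (by simp)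
  have e1 := hs.eq u v
  have e2 : fderiv ℝ (co1 θ (g q)) ((chartAt E (g q) ∘ g) q) (fderiv ℝ (chartAt E (g q) ∘ g) q u)
      (fderiv ℝ (chartAt E (g q) ∘ g) q v) =
      fderiv ℝ (co1 θ (g q)) ((chartAt E (g q) ∘ g) q) (fderiv ℝ (chartAt E (g q) ∘ g) q v)
      (fderiv ℝ (chartAt E (g q) ∘ g) q u) :=
    (hθ (g q)).2 (chartAt E (g q) (g q)) (mem_chart_target E (g q)) _ _
  rw [e1, e2]

theorem tp1_dF {f : X → ℝ} (hf : SmF E f) {g : G → X} {q : G} (hg : Sm E g q) :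
    tp1 (dF E f) g q = fderiv ℝ (f ∘ g) q := by
  exact (fderiv_fun hf hg).symm

theorem isCl1_dF {f : X → ℝ} (hf : SmF E f) : IsCl1 (dF E f) := by
  have hev : ∀ p : X, ∀ y ∈ (chartAt E p).target,
      co1 (dF E f) p =ᶠ[nhds y] fderiv ℝ (f ∘ (chartAt E p).symm) := by
    intro p y hy
    filter_upwards [(chartAt E p).open_target.mem_nhds hy] with z hz
    exact tp1_dF hf (hol_symm hz).sm
  have hsm : ∀ p : X, ∀ y ∈ (chartAt E p).target, ContDiffAt ℝ ∞ (f ∘ (chartAt E p).symm) y :=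
    fun p y hy => hf.at (hol_symm hy).sm
  intro p
  refine ⟨fun y hy => ContDiffAt.contDiffWithinAt ?_, fun y hy u v => ?_⟩
  · refine ContDiffAt.congr_of_eventuallyEq ?_ (hev p y hy)
    exact (hsm p y hy).fderiv_right (by simp)
  · rw [(hev p y hy).fderiv_eq]
    have hs : IsSymmSndFDerivAt ℝ (f ∘ (chartAt E p).symm) y :=
      (ST4_two (hsm p y hy)).isSymmSndFDerivAt (by simp)
    exact hs.eq u v

omit [FiniteDimensional ℂ E] [IsManifold 𝓘(ℂ, E) ω X] in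
private theorem ST4_lin {V W : Type*} [NormedAddCommGroup V] [NormedSpace ℝ V]
    [NormedAddCommGroup W] [NormedSpace ℝ W] {f g : V → W} (c1 c2 : ℝ) {y : V}
    (hf : DifferentiableAt ℝ f y) (hg : DifferentiableAt ℝ g y) :
    fderiv ℝ (fun y => c1 • f y + c2 • g y) y = c1 • fderiv ℝ f y + c2 • fderiv ℝ g y :=
  ((hf.hasFDerivAt.const_smul c1).add (hg.hasFDerivAt.const_smul c2)).fderiv

omit [FiniteDimensional ℂ E] [IsManifold 𝓘(ℂ, E) ω X] in
private theorem ST4_cd {V W : Type*} [NormedAddCommGroup V] [NormedSpace ℝ V] [NormedAddCommGroup W]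
    [NormedSpace ℝ W] {f g : V → W} (c1 c2 : ℝ) {O : Set V} (hf : ContDiffOn ℝ ∞ f O)
    (hg : ContDiffOn ℝ ∞ g O) : ContDiffOn ℝ ∞ (fun y => c1 • f y + c2 • g y) O :=
  ContDiffOn.add (ContDiffOn.smul contDiffOn_const hf) (ContDiffOn.smul contDiffOn_const hg)

private theorem ST4_comb {θ θ' : X → E →L[ℝ] ℝ} (h : IsCl1 θ) (h' : IsCl1 θ') (c1 c2 : ℝ) :
    IsCl1 (fun x => c1 • θ x + c2 • θ' x) := by
  have hc : ∀ p, co1 (fun x => c1 • θ x + c2 • θ' x) p =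
      fun y => c1 • co1 θ p y + c2 • co1 θ' p y := by
    intro p
    funext y
    ext u
    rfl
  intro p
  refine ⟨?_, fun y hy u v => ?_⟩
  · rw [hc p]
    exact ST4_cd (V := E) (W := E →L[ℝ] ℝ) c1 c2 (h p).1 (h' p).1
  · have hO := (chartAt E p).open_target.mem_nhds hy
    have d1 : DifferentiableAt ℝ (co1 θ p) y := ((h p).1.contDiffAt hO).differentiableAt (by simp)
    have d2 : DifferentiableAt ℝ (co1 θ' p) y := ((h' p).1.contDiffAt hO).differentiableAt (by simp)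
    have hf : fderiv ℝ (co1 (fun x => c1 • θ x + c2 • θ' x) p) y =
        c1 • fderiv ℝ (co1 θ p) y + c2 • fderiv ℝ (co1 θ' p) y := by
      rw [hc p]
      exact ST4_lin (V := E) (W := E →L[ℝ] ℝ) (f := co1 θ p) (g := co1 θ' p) c1 c2 (y := y) d1 d2
    rw [hf]
    have e1 := (h p).2 y hy u v
    have e2 := (h' p).2 y hy u v
    show c1 * fderiv ℝ (co1 θ p) y u v + c2 * fderiv ℝ (co1 θ' p) y u v =
      c1 * fderiv ℝ (co1 θ p) y v u + c2 * fderiv ℝ (co1 θ' p) y v u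
    rw [e1, e2]

theorem isCl1_zero : IsCl1 (fun _ : X => (0 : E →L[ℝ] ℝ)) := by
  have hc : ∀ p : X, co1 (fun _ : X => (0 : E →L[ℝ] ℝ)) p = fun _ => 0 := by
    intro p
    funext y
    ext u
    rfl
  intro p
  rw [hc p]
  refine ⟨contDiffOn_const, fun y _ u v => ?_⟩
  simp

theorem isCl1_add {θ θ' : X → E →L[ℝ] ℝ} (h : IsCl1 θ) (h' : IsCl1 θ') : IsCl1 (θ + θ') := by
  have h1 := ST4_comb h h' 1 1
  have h2 : (fun x => (1 : ℝ) • θ x + (1 : ℝ) • θ' x) = θ + θ' := by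
    funext x
    rw [one_smul, one_smul]
    rfl
  rw [h2] at h1
  exact h1

theorem isCl1_smul {θ : X → E →L[ℝ] ℝ} (h : IsCl1 θ) (c : ℝ) : IsCl1 (c • θ) := by
  have h1 := ST4_comb h isCl1_zero c 1
  have h2 : (fun x => c • θ x + (1 : ℝ) • (fun _ : X => (0 : E →L[ℝ] ℝ)) x) = c • θ := by
    funext x
    rw [smul_zero, add_zero]
    rfl
  rw [h2] at h1
  exact h1

end HDG
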