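import Pool.Agent.HDG.SDefs
import Pool.Agent.HDG.LA1

/-!
# HDG/ST2: a compact complex manifold is covered by finitely many parametrized balls

Every point `x` is the centre of a ball of small radius `r` in the chart at `x`, parametrized by
`z ↦ (chartAt E x).symm (chartAt E x x + r z)`; by compactness finitely many of these cover `X`.
-/

set_option autoImplicit false

noncomputable section

open scoped Manifold ContDiff Topology

namespace HDG

open Pool.Agent.FBR

variable {E X : Type*} [NormedAddCommGroup E] [NormedSpace ℂ E] [FiniteDimensional ℂ E]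
  [TopologicalSpace X] [ChartedSpace E X] [IsManifold 𝓘(ℂ, E) ω X] [CompactSpace X] [T2Space X]
  {n : ℕ} (e : Module.Basis (Fin n) ℂ E)

private def ST2_aff (c : E) (r : ℝ) (z : E) : E := c + (r : ℂ) • z

omit [FiniteDimensional ℂ E] in
private theorem ST2_aff_smooth (c : E) (r : ℝ) : ContDiff ℂ ∞ (ST2_aff c r) := by
  unfold ST2_aff
  exact contDiff_const.add (contDiff_const.smul contDiff_id)

omit [FiniteDimensional ℂ E] in
private theorem ST2_aff_cont (c : E) (r : ℝ) : Continuous (ST2_aff c r) :=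
  (ST2_aff_smooth c r).continuous

omit [FiniteDimensional ℂ E] in
private theorem ST2_aff_inj (c : E) {r : ℝ} (hr : 0 < r) : Function.Injective (ST2_aff c r) := by
  intro z w h
  have hr' : (r : ℂ) ≠ 0 := by exact_mod_cast hr.ne'
  exact smul_right_injective E hr' (add_left_cancel h)

omit [FiniteDimensional ℂ E] in
private theorem ST2_aff_open (c : E) {r : ℝ} (hr : 0 < r) {U : Set E} (hU : IsOpen U) :
    IsOpen (ST2_aff c r '' U) := by
  have hr' : (r : ℂ) ≠ 0 := by exact_mod_cast hr.ne'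
  have h : ST2_aff c r = ((Homeomorph.smulOfNeZero (r : ℂ) hr').trans (Homeomorph.addLeft c) : E → E) := by
    funext z
    rfl
  rw [h]
  exact ((Homeomorph.smulOfNeZero (r : ℂ) hr').trans (Homeomorph.addLeft c)).isOpenMap U hU

omit [FiniteDimensional ℂ E] in
private theorem ST2_aff_inv (c : E) {r : ℝ} (hr : 0 < r) (z : E) :
    ((r : ℂ)⁻¹) • (ST2_aff c r z - c) = z := by
  have hr' : (r : ℂ) ≠ 0 := by exact_mod_cast hr.ne'
  unfold ST2_aff
  rw [add_sub_cancel_left, smul_smul, inv_mul_cancel₀ hr', one_smul]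

omit [FiniteDimensional ℂ E] in
private theorem ST2_aff_deriv (c : E) {r : ℝ} (hr : 0 < r) (z : E) :
    DifferentiableAt ℝ (ST2_aff c r) z ∧ Function.Bijective (fderiv ℝ (ST2_aff c r) z) := by
  have hr' : (r : ℂ) ≠ 0 := by exact_mod_cast hr.ne'
  have h1 : HasFDerivAt (ST2_aff c r) ((r : ℂ) • ContinuousLinearMap.id ℂ E) z := by
    unfold ST2_aff
    exact ((hasFDerivAt_id z).const_smul (r : ℂ)).const_add c
  have h2 : HasFDerivAt (ST2_aff c r) (((r : ℂ) • ContinuousLinearMap.id ℂ E).restrictScalars ℝ) z :=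
    h1.restrictScalars ℝ
  refine ⟨h2.differentiableAt, ?_⟩
  rw [h2.fderiv]
  constructor
  · intro v w h
    exact smul_right_injective E hr' h
  · intro w
    refine ⟨(r : ℂ)⁻¹ • w, ?_⟩
    have h3 : (r : ℂ) • ((r : ℂ)⁻¹ • w) = w := by
      rw [smul_smul, mul_inv_cancel₀ hr', one_smul]
    exact h3

private theorem ST2_bound : ∃ M : ℝ, 0 ≤ M ∧ ∀ z ∈ (qb e 4 : Set E), ‖z‖ ≤ M := by
  obtain ⟨c, C, hc, hC, h⟩ := qf_equiv e
  refine ⟨16 / c + 1, by positivity, fun z hz => ?_⟩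
  have h1 : qf e z < 4 ^ 2 := hz
  have h2 := (h z).1
  have h3 : ‖z‖ ^ 2 ≤ 16 / c := by
    rw [le_div_iff₀ hc]
    linarith
  have h4 : 0 ≤ 16 / c := by positivity
  have h5 := norm_nonneg z
  nlinarith [sq_nonneg (‖z‖ - 1)]

omit [IsManifold 𝓘(ℂ, E) ω X] [CompactSpace X] [T2Space X] in
private theorem ST2_radius (V : X → Set X) (hV : ∀ x, IsOpen (V x)) (hx : ∀ x, x ∈ V x) (x : X) :
    ∃ r : ℝ, 0 < r ∧ ∀ z ∈ (qb e 4 : Set E), ST2_aff (chartAt E x x) r z ∈ (chartAt E x).target ∧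
      (chartAt E x).symm (ST2_aff (chartAt E x x) r z) ∈ V x := by
  obtain ⟨M, hM0, hM⟩ := ST2_bound e
  have hW : IsOpen ((chartAt E x).target ∩ (chartAt E x).symm ⁻¹' V x) :=
    (chartAt E x).isOpen_inter_preimage_symm (hV x)
  have hc : chartAt E x x ∈ (chartAt E x).target ∩ (chartAt E x).symm ⁻¹' V x := by
    refine ⟨mem_chart_target E x, ?_⟩
    rw [Set.mem_preimage, (chartAt E x).left_inv (mem_chart_source E x)]
    exact hx x
  obtain ⟨ε, hε, hb⟩ := Metric.isOpen_iff.1 hW _ hc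
  refine ⟨ε / (M + 1), by positivity, fun z hz => ?_⟩
  have h1 : ST2_aff (chartAt E x x) (ε / (M + 1)) z ∈ Metric.ball (chartAt E x x) ε := by
    rw [Metric.mem_ball, dist_eq_norm]
    unfold ST2_aff
    have hpos : 0 < ε / (M + 1) := by positivity
    rw [add_sub_cancel_left, norm_smul, Complex.norm_real, Real.norm_of_nonneg hpos.le]
    calc ε / (M + 1) * ‖z‖ ≤ ε / (M + 1) * M := mul_le_mul_of_nonneg_left (hM z hz) hpos.le
      _ < ε / (M + 1) * (M + 1) := mul_lt_mul_of_pos_left (by linarith) hpos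
      _ = ε := by field_simp
  exact hb h1

/-- the parametrization -/
private def ST2_psi (x : X) (r : ℝ) (z : E) : X := (chartAt E x).symm (ST2_aff (chartAt E x x) r z)

section

variable {e} {x : X} {r : ℝ}

omit [FiniteDimensional ℂ E] [IsManifold 𝓘(ℂ, E) ω X] [CompactSpace X] [T2Space X] in
private theorem ST2_cont (h : ∀ z ∈ (qb e 4 : Set E), ST2_aff (chartAt E x x) r z ∈ (chartAt E x).target) :
    ContinuousOn (ST2_psi (E := E) x r) (qb e 4) :=
  (chartAt E x).continuousOn_symm.comp (ST2_aff_cont _ _).continuousOn h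

omit [FiniteDimensional ℂ E] [IsManifold 𝓘(ℂ, E) ω X] [CompactSpace X] [T2Space X] in
private theorem ST2_inj (hr : 0 < r)
    (h : ∀ z ∈ (qb e 4 : Set E), ST2_aff (chartAt E x x) r z ∈ (chartAt E x).target) :
    Set.InjOn (ST2_psi (E := E) x r) (qb e 4) := by
  intro z hz w hw hzw
  exact ST2_aff_inj _ hr ((chartAt E x).symm.injOn (h z hz) (h w hw) hzw)

omit [FiniteDimensional ℂ E] [IsManifold 𝓘(ℂ, E) ω X] [CompactSpace X] [T2Space X] in
private theorem ST2_opn (hr : 0 < r)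
    (h : ∀ z ∈ (qb e 4 : Set E), ST2_aff (chartAt E x x) r z ∈ (chartAt E x).target)
    {U : Set E} (hU : U ⊆ qb e 4) (hUo : IsOpen U) : IsOpen (ST2_psi (E := E) x r '' U) := by
  have h1 : ST2_psi (E := E) x r '' U = (chartAt E x).symm '' (ST2_aff (chartAt E x x) r '' U) := by
    rw [Set.image_image]
    rfl
  rw [h1]
  refine (chartAt E x).symm.isOpen_image_of_subset_source (ST2_aff_open _ hr hUo) ?_
  rintro _ ⟨z, hz, rfl⟩
  exact h z (hU hz)

omit [FiniteDimensional ℂ E] [CompactSpace X] [T2Space X] in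
private theorem ST2_hol
    (h : ∀ z ∈ (qb e 4 : Set E), ST2_aff (chartAt E x x) r z ∈ (chartAt E x).target) {z : E}
    (hz : z ∈ (qb e 4 : Set E)) : Hol E (ST2_psi (E := E) x r) z :=
  Hol.comp (f := (chartAt E x).symm) (k := ST2_aff (chartAt E x x) r) (hol_symm (h z hz))
    (ST2_aff_smooth _ _).contDiffAt

omit [FiniteDimensional ℂ E] [CompactSpace X] [T2Space X] in
private theorem ST2_bij (hr : 0 < r)
    (h : ∀ z ∈ (qb e 4 : Set E), ST2_aff (chartAt E x x) r z ∈ (chartAt E x).target) {z : E}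
    (hz : z ∈ (qb e 4 : Set E)) : Function.Bijective (dvec E (ST2_psi (E := E) x r) z) := by
  have h1 : dvec E (ST2_psi (E := E) x r) z =
      (dvec E (chartAt E x).symm (ST2_aff (chartAt E x x) r z)).comp (fderiv ℝ (ST2_aff (chartAt E x x) r) z) :=
    dvec_comp (f := (chartAt E x).symm) (k := ST2_aff (chartAt E x x) r) (hol_symm (h z hz)).sm
      (ST2_aff_deriv _ hr z).1
  rw [h1]
  exact (dvec_symm_bij (h z hz)).comp (ST2_aff_deriv _ hr z).2

omit [FiniteDimensional ℂ E] [IsManifold 𝓘(ℂ, E) ω X] [CompactSpace X] [T2Space X] in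
/-- the inverse of the parametrization -/
private theorem ST2_inv (hr : 0 < r)
    (h : ∀ z ∈ (qb e 4 : Set E), ST2_aff (chartAt E x x) r z ∈ (chartAt E x).target) {y : X}
    (hy : y ∈ ST2_psi (E := E) x r '' qb e 4) : y ∈ (chartAt E x).source ∧
      Function.invFunOn (ST2_psi (E := E) x r) (qb e 4) y = ((r : ℂ)⁻¹) • (chartAt E x y - chartAt E x x) := by
  obtain ⟨w, hw, rfl⟩ := hy
  have h1 : ST2_psi (E := E) x r w ∈ (chartAt E x).source := (chartAt E x).map_target (h w hw)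
  refine ⟨h1, ?_⟩
  rw [(ST2_inj hr h).leftInvOn_invFunOn hw]
  have h2 : chartAt E x (ST2_psi (E := E) x r w) = ST2_aff (chartAt E x x) r w :=
    (chartAt E x).right_inv (h w hw)
  rw [h2, ST2_aff_inv _ hr]

end

theorem exists_bm (V : X → Set X) (hV : ∀ x, IsOpen (V x)) (hx : ∀ x, x ∈ V x) :
    ∃ B : BM e X, Fit B ∧ ∀ i, ∃ x, B.ψ i '' qb e 4 ⊆ V x := by
  classical
  choose r hr h using ST2_radius e V hV hx
  have hT : ∀ x, ∀ z ∈ (qb e 4 : Set E), ST2_aff (chartAt E x x) (r x) z ∈ (chartAt E x).target :=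
    fun x z hz => (h x z hz).1
  have h14 : (qb e 1 : Set E) ⊆ qb e 4 := by
    intro z hz
    have h1 : qf e z < 1 ^ 2 := hz
    have h2 : qf e z < 4 ^ 2 := by linarith
    exact h2
  have h0 : (0 : E) ∈ (qb e 1 : Set E) := by
    have h1 : qf e (0 : E) < 1 ^ 2 := by
      unfold qf
      simp
    exact h1
  have hU : ∀ x, ST2_psi (E := E) x (r x) '' qb e 1 ∈ 𝓝 x := by
    intro x
    refine (ST2_opn (hr x) (hT x) h14 (isOpen_qb e 1)).mem_nhds ⟨0, h0, ?_⟩
    unfold ST2_psi ST2_aff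
    rw [smul_zero, add_zero]
    exact (chartAt E x).left_inv (mem_chart_source E x)
  obtain ⟨t, ht⟩ := CompactSpace.elim_nhds_subcover _ hU
  have htr : ∀ (x x' : X) (z : E), z ∈ (qb e 4 : Set E) →
      ST2_psi (E := E) x (r x) z ∈ ST2_psi (E := E) x' (r x') '' qb e 4 →
      ContDiffAt ℂ ∞ (fun z => Function.invFunOn (ST2_psi (E := E) x' (r x')) (qb e 4)
        (ST2_psi (E := E) x (r x) z)) z := by
    intro x x' z hz hzx
    have hc : ContinuousAt (ST2_psi (E := E) x (r x)) z :=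
      (ST2_cont (hT x)).continuousAt ((isOpen_qb e 4).mem_nhds hz)
    have hop : IsOpen (ST2_psi (E := E) x' (r x') '' qb e 4) :=
      ST2_opn (hr x') (hT x') subset_rfl (isOpen_qb e 4)
    have h1 : ContDiffAt ℂ ∞ (chartAt E x' ∘ ST2_psi (E := E) x (r x)) z :=
      (hol_iff hc (ST2_inv (hr x') (hT x') hzx).1).1 (ST2_hol (hT x) hz)
    have h2 : ContDiffAt ℂ ∞ (fun z => (((r x' : ℝ) : ℂ)⁻¹) •
        ((chartAt E x' ∘ ST2_psi (E := E) x (r x)) z - chartAt E x' x')) z :=
      contDiffAt_const.smul (h1.sub contDiffAt_const)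
    refine h2.congr_of_eventuallyEq ?_
    filter_upwards [hc.eventually (hop.mem_nhds hzx)] with z' hz'
    exact (ST2_inv (hr x') (hT x') hz').2
  refine ⟨{
    I := Fin t.card
    fin := inferInstance
    ψ := fun i => ST2_psi (E := E) (t.equivFin.symm i).1 (r (t.equivFin.symm i).1)
    cont := fun i => ST2_cont (hT _)
    inj := fun i => ST2_inj (hr _) (hT _)
    opn := fun i U hU hUo => ST2_opn (hr _) (hT _) hU hUo
    cov := ?_
    tr := fun i j z hz hzx => htr _ _ z hz hzx }, ⟨fun i z hz => ST2_hol (hT _) hz,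
      fun i z hz => ST2_bij (hr _) (hT _) hz⟩, ?_⟩
  · intro y
    have hy : y ∈ ⋃ x ∈ t, ST2_psi (E := E) x (r x) '' qb e 1 := by
      rw [ht]
      exact Set.mem_univ y
    rw [Set.mem_iUnion₂] at hy
    obtain ⟨x, hxt, z, hz, hzy⟩ := hy
    refine ⟨t.equivFin ⟨x, hxt⟩, z, hz, ?_⟩
    rw [Equiv.symm_apply_apply]
    exact hzy
  · intro i
    refine ⟨(t.equivFin.symm i).1, ?_⟩
    rintro _ ⟨z, hz, rfl⟩
    exact (h _ z hz).2

end HDG
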