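import Pool.Agent.HDG.ST1
import Pool.Agent.HDG.ST2
import Pool.Agent.HDG.ST4
import Pool.Agent.HDG.G1

/-!
# HDG/ST5: primitives of closed 1-forms; good families of balls

`exists_prim`: the pull back of a closed real 1-form to a convex open set has a smooth primitive (Poincare lemma).
`exists_good`: a compact complex manifold has a finite family of parametrized balls such that any two balls that meet
lie in a chart ball. The primitives of a closed 1-form on the members of such a family form a multivalued function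
(`PerR`): on each of the two balls the primitive differs by a constant from a primitive on the chart ball.
-/

set_option autoImplicit false

noncomputable section

open scoped Manifold ContDiff Topology

namespace HDG

open Pool.Agent.FBR

variable {E X : Type*} [NormedAddCommGroup E] [NormedSpace ℂ E] [FiniteDimensional ℂ E]
  [TopologicalSpace X] [ChartedSpace E X] [IsManifold 𝓘(ℂ, E) ω X] {n : ℕ} (e : Module.Basis (Fin n) ℂ E)

private theorem ST5_sq (u v : ℂ) {a b : ℝ} (ha : 0 ≤ a) (hb : 0 ≤ b) (hab : a + b = 1) :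
    ‖(a : ℂ) * u + (b : ℂ) * v‖ ^ 2 ≤ a * ‖u‖ ^ 2 + b * ‖v‖ ^ 2 := by
  have h1 : ‖(a : ℂ) * u + (b : ℂ) * v‖ ≤ a * ‖u‖ + b * ‖v‖ := by
    refine (norm_add_le _ _).trans ?_
    rw [norm_mul, norm_mul, Complex.norm_real, Complex.norm_real, Real.norm_of_nonneg ha,
      Real.norm_of_nonneg hb]
  have h2 : ‖(a : ℂ) * u + (b : ℂ) * v‖ ^ 2 ≤ (a * ‖u‖ + b * ‖v‖) ^ 2 :=
    pow_le_pow_left₀ (norm_nonneg _) h1 2
  have h3 : a * ‖u‖ ^ 2 + b * ‖v‖ ^ 2 - (a * ‖u‖ + b * ‖v‖) ^ 2 = a * b * (‖u‖ - ‖v‖) ^ 2 := by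
    have hb' : b = 1 - a := by linarith
    subst hb'
    ring
  have h4 : 0 ≤ a * b * (‖u‖ - ‖v‖) ^ 2 := by positivity
  linarith

omit [FiniteDimensional ℂ E] in
private theorem ST5_qf (x y : E) {a b : ℝ} (ha : 0 ≤ a) (hb : 0 ≤ b) (hab : a + b = 1) :
    qf e (a • x + b • y) ≤ a * qf e x + b * qf e y := by
  unfold qf
  rw [Finset.mul_sum, Finset.mul_sum, ← Finset.sum_add_distrib]
  refine Finset.sum_le_sum fun j _ => ?_
  have h1 : e.repr (a • x + b • y) j = (a : ℂ) * e.repr x j + (b : ℂ) * e.repr y j := by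
    rw [← Complex.coe_smul a x, ← Complex.coe_smul b y, map_add, map_smul, map_smul]
    rfl
  rw [h1]
  exact ST5_sq _ _ ha hb hab

omit [FiniteDimensional ℂ E] in
theorem qb_convex (r : ℝ) : Convex ℝ (qb e r) := by
  intro x hx y hy a b ha hb hab
  have h1 : qf e x < r ^ 2 := hx
  have h2 : qf e y < r ^ 2 := hy
  have h3 := ST5_qf e x y ha hb hab
  have h4 : a * qf e x + b * qf e y < r ^ 2 := by
    rcases ha.lt_or_eq with h | h
    · have h5 : a * qf e x < a * r ^ 2 := mul_lt_mul_of_pos_left h1 h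
      have h6 : b * qf e y ≤ b * r ^ 2 := mul_le_mul_of_nonneg_left h2.le hb
      have h7 : a * r ^ 2 + b * r ^ 2 = r ^ 2 := by rw [← add_mul, hab, one_mul]
      linarith
    · subst h
      have hb1 : b = 1 := by linarith
      subst hb1
      linarith
  exact lt_of_le_of_lt h3 h4

theorem exists_prim {θ : X → E →L[ℝ] ℝ} (hθ : IsCl1 θ) {G : Type*} [NormedAddCommGroup G] [NormedSpace ℝ G]
    [FiniteDimensional ℝ G] {g : G → X} {O : Set G} (hO : IsOpen O) (hc : Convex ℝ O) (hg : ∀ q ∈ O, Sm E g q) :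
    ∃ t : G → ℝ, ContDiffOn ℝ ∞ t O ∧ ∀ q ∈ O, fderiv ℝ t q = tp1 θ g q := by
  have hs : ContDiffOn ℝ ∞ (tp1 θ g) O := tp1_smooth hθ hO hg
  obtain ⟨t, ht⟩ := hc.exists_forall_hasFDerivAt_of_fderiv_symmetric hO (hs.differentiableOn (by simp))
    (fun a ha x y => tp1_closed hθ hO hg ha x y)
  refine ⟨t, ?_, fun q hq => (ht q hq).fderiv⟩
  rw [contDiffOn_infty_iff_fderiv_of_isOpen hO]
  refine ⟨fun q hq => (ht q hq).differentiableAt.differentiableWithinAt, ?_⟩
  exact hs.congr fun q hq => (ht q hq).fderiv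

/-- a primitive on a ball and one on a ball in the chart -/
private theorem ST5_const {θ : X → E →L[ℝ] ℝ} {p : X} {g : E → X} {S : Set E} {s t : E → ℝ}
    (hS : IsOpen S) (hs : ContDiffOn ℝ ∞ s S) (hs' : ∀ q ∈ S, fderiv ℝ s q = co1 θ p q)
    (hg : ∀ z ∈ (qb e 4 : Set E), Sm E g z)
    (hgS : ∀ z ∈ (qb e 4 : Set E), g z ∈ (chartAt E p).source ∧ chartAt E p (g z) ∈ S)
    (ht : ContDiffOn ℝ ∞ t (qb e 4)) (ht' : ∀ z ∈ (qb e 4 : Set E), fderiv ℝ t z = tp1 θ g z) :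
    ∃ c : ℝ, ∀ z ∈ (qb e 4 : Set E), t z = s (chartAt E p (g z)) + c := by
  have hk : ∀ z ∈ (qb e 4 : Set E), DifferentiableAt ℝ (chartAt E p ∘ g) z := fun z hz =>
    ((sm_iff (hg z hz).1 (hgS z hz).1).1 (hg z hz)).differentiableAt (by simp)
  have hd : ∀ z ∈ (qb e 4 : Set E), DifferentiableAt ℝ s ((chartAt E p ∘ g) z) := fun z hz =>
    (hs.contDiffAt (hS.mem_nhds (hgS z hz).2)).differentiableAt (by simp)
  have hD : ∀ z ∈ (qb e 4 : Set E), HasFDerivAt (s ∘ (chartAt E p ∘ g))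
      ((fderiv ℝ s ((chartAt E p ∘ g) z)).comp (fderiv ℝ (chartAt E p ∘ g) z)) z := fun z hz =>
    (hd z hz).hasFDerivAt.comp z (hk z hz).hasFDerivAt
  have ht1 : DifferentiableOn ℝ t (qb e 4) := ht.differentiableOn (by simp)
  have hs1 : DifferentiableOn ℝ (s ∘ (chartAt E p ∘ g)) (qb e 4) := fun z hz =>
    (hD z hz).differentiableAt.differentiableWithinAt
  have hE : (qb e 4 : Set E).EqOn (fderiv ℝ t) (fderiv ℝ (s ∘ (chartAt E p ∘ g))) := by
    intro z hz
    rw [ht' z hz, (hD z hz).fderiv, tp1_co θ (hg z hz) (hgS z hz).1]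
    have h1 : fderiv ℝ s ((chartAt E p ∘ g) z) = co1 θ p (chartAt E p (g z)) := hs' _ (hgS z hz).2
    rw [h1]
  obtain ⟨c, hc⟩ := (isOpen_qb e 4).exists_eq_add_of_fderiv_eq (qb_convex e 4).isPreconnected ht1 hs1 hE
  exact ⟨c, fun z hz => hc hz⟩

theorem exists_good [CompactSpace X] [T2Space X] : ∃ B : BM e X, Fit B ∧
    ∀ θ : X → E →L[ℝ] ℝ, IsCl1 θ → ∀ t : B.I → E → ℝ, (∀ i, ContDiffOn ℝ ∞ (t i) (qb e 4)) →
      (∀ i, ∀ z ∈ qb e 4, fderiv ℝ (t i) z = tp1 θ (B.ψ i) z) → B.PerR t := by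
  have h0 : ∀ x : X, ∃ r : ℝ, 0 < r ∧ Metric.ball (chartAt E x x) r ⊆ (chartAt E x).target := fun x =>
    Metric.isOpen_iff.1 (chartAt E x).open_target _ (mem_chart_target E x)
  choose r hr hrt using h0
  have hK : ∀ x : X, IsOpen ((chartAt E x).symm '' Metric.ball (chartAt E x x) (r x)) := fun x =>
    (chartAt E x).symm.isOpen_image_of_subset_source Metric.isOpen_ball (hrt x)
  have hxK : ∀ x : X, x ∈ (chartAt E x).symm '' Metric.ball (chartAt E x x) (r x) := fun x =>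
    ⟨chartAt E x x, Metric.mem_ball_self (hr x), (chartAt E x).left_inv (mem_chart_source E x)⟩
  obtain ⟨V, hVo, hxV, hV⟩ := fine_cover _ hK hxK
  obtain ⟨B, hB, hBV⟩ := exists_bm e V hVo hxV
  refine ⟨B, hB, fun θ hθ t ht ht' => ⟨ht, fun i j => ?_⟩⟩
  by_cases hD : (B.D i j).Nonempty
  · obtain ⟨z₀, hz₀⟩ := hD
    obtain ⟨x, hx⟩ := hBV i
    obtain ⟨y, hy⟩ := hBV j
    obtain ⟨p, hp⟩ := hV x y ⟨B.ψ i z₀, hx ⟨z₀, hz₀.1, rfl⟩, hy hz₀.2⟩
    obtain ⟨s, hs, hs'⟩ := exists_prim hθ (g := (chartAt E p).symm) Metric.isOpen_ball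
      (convex_ball (chartAt E p p) (r p)) (fun q hq => (hol_symm (hrt p hq)).sm)
    have hc : ∀ k : B.I, B.ψ k '' qb e 4 ⊆ (chartAt E p).symm '' Metric.ball (chartAt E p p) (r p) →
        ∃ c : ℝ, ∀ z ∈ (qb e 4 : Set E), t k z = s (chartAt E p (B.ψ k z)) + c := by
      intro k hk
      refine ST5_const e Metric.isOpen_ball hs hs' (fun z hz => (hB.hol k z hz).sm) (fun z hz => ?_) (ht k) (ht' k)
      obtain ⟨w, hw, hwz⟩ := hk ⟨z, hz, rfl⟩
      rw [← hwz]
      refine ⟨(chartAt E p).map_target (hrt p hw), ?_⟩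
      rw [(chartAt E p).right_inv (hrt p hw)]
      exact hw
    obtain ⟨c, hci⟩ := hc i (hx.trans (Set.subset_union_left.trans hp))
    obtain ⟨c', hcj⟩ := hc j (hy.trans (Set.subset_union_right.trans hp))
    refine ⟨c - c', fun z hz => ?_⟩
    rw [hci z hz.1, hcj _ (B.T_mem hz), B.ψ_T hz]
    ring
  · exact ⟨0, fun z hz => absurd ⟨z, hz⟩ hD⟩

end HDG
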