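import Pool.Agent.HDG.SL4
import Pool.Agent.HDG.ST3
import Pool.Agent.HDG.ST4
import Pool.Agent.HDG.ST5

/-!
# HDG/SL5: locally conformally Kähler manifolds

`t i` are primitives of the Lee form `θ` on the balls, `f` a function such that `t i + f` is pluriharmonic, `u i = t i + f` and
`a = exp f • g`. Then `exp (-u i) • a = exp (-t i) • g` is closed, so `u i` is locally constant by `lck_bm`, and `a` is a Kähler
form.
-/

set_option autoImplicit false

noncomputable section

open scoped Manifold ContDiff Topology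

namespace HDG

open Pool.Agent.FBR

universe u

section Calc

variable {G : Type*} [NormedAddCommGroup G] [NormedSpace ℝ G]

private theorem SL5_congr {a b : G → Bil G} {q : G} (h : a =ᶠ[𝓝 q] b) (x y v : G) :
    ext2 a q x y v = ext2 b q x y v := by
  unfold ext2
  rw [h.fderiv_eq]

private theorem SL5_abs {F : Type*} [NormedAddCommGroup F] [NormedSpace ℝ F] {φ : G → ℝ} {b : G → F} {q : G}
    (hφ : DifferentiableAt ℝ φ q) (hb : DifferentiableAt ℝ b q) :
    fderiv ℝ (fun q => φ q • b q) q = φ q • fderiv ℝ b q + (fderiv ℝ φ q).smulRight (b q) :=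
  fderiv_fun_smul hφ hb

private theorem SL5_absc {F : Type*} [NormedAddCommGroup F] [NormedSpace ℝ F] {φ : G → ℝ} {b : G → F} {O : Set G}
    (hφ : ContDiffOn ℝ ∞ φ O) (hb : ContDiffOn ℝ ∞ b O) : ContDiffOn ℝ ∞ (fun q => φ q • b q) O :=
  hφ.smul hb

/-- the exterior derivative of a multiple of a 2-form -/
private theorem SL5_smul {φ : G → ℝ} {b : G → Bil G} {q : G} (hφ : DifferentiableAt ℝ φ q)
    (hb : DifferentiableAt ℝ b q) (x y v : G) :
    ext2 (fun q => φ q • b q) q x y v = φ q * ext2 b q x y v +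
      (fderiv ℝ φ q x * b q y v + fderiv ℝ φ q y * b q v x + fderiv ℝ φ q v * b q x y) := by
  have h1 := SL5_abs (F := G →L[ℝ] G →L[ℝ] ℝ) hφ hb
  have h2 : ∀ x y v : G, fderiv ℝ (fun q => φ q • b q) q x y v =
      φ q * fderiv ℝ b q x y v + fderiv ℝ φ q x * b q y v := by
    intro x y v
    have h3 := congrArg (fun L => L x y v) h1
    exact h3
  unfold ext2
  rw [h2, h2, h2]
  ring

private theorem SL5_exp {t : G → ℝ} {b : G → Bil G} {q : G} (ht : DifferentiableAt ℝ t q)
    (hb : DifferentiableAt ℝ b q) (x y v : G)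
    (h : ext2 b q x y v = fderiv ℝ t q x * b q y v + fderiv ℝ t q y * b q v x + fderiv ℝ t q v * b q x y) :
    ext2 (fun q => Real.exp (-t q) • b q) q x y v = 0 := by
  have h1 : HasFDerivAt (fun q => Real.exp (-t q)) (Real.exp (-t q) • (-fderiv ℝ t q)) q :=
    ht.hasFDerivAt.neg.exp
  rw [SL5_smul h1.differentiableAt hb, h1.fderiv, h]
  show Real.exp (-t q) * _ + (Real.exp (-t q) * (-fderiv ℝ t q x) * _ + Real.exp (-t q) * (-fderiv ℝ t q y) * _ +
    Real.exp (-t q) * (-fderiv ℝ t q v) * _) = 0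
  ring

end Calc

section Pull

variable {E X : Type*} [NormedAddCommGroup E] [NormedSpace ℂ E] [FiniteDimensional ℂ E]
  [TopologicalSpace X] [ChartedSpace E X] [IsManifold 𝓘(ℂ, E) ω X]
  {G : Type*} [NormedAddCommGroup G] [NormedSpace ℝ G]

omit [FiniteDimensional ℂ E] [IsManifold 𝓘(ℂ, E) ω X] in
private theorem SL5_tpb (f : X → ℝ) (g : X → Bil E) (k : G → X) (q : G) :
    tpb (fun x => Real.exp (f x) • g x) k q = Real.exp (f (k q)) • tpb g k q := rfl

private theorem SL5_ext {g : X → Bil E} {θ : X → E →L[ℝ] ℝ} (halt : ∀ x v, g x v v = 0)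
    (hs : ∀ p, ContDiffOn ℝ ∞ (coef g p) (chartAt E p).target)
    (hd : ∀ p, ∀ y ∈ (chartAt E p).target, ∀ u v w : E, ext2 (coef g p) y u v w =
      co1 θ p y u * coef g p y v w + co1 θ p y v * coef g p y w u + co1 θ p y w * coef g p y u v)
    {k : G → X} {O : Set G} (hO : IsOpen O) (hk : ∀ q ∈ O, Sm E k q) {q : G} (hq : q ∈ O) (x y v : G) :
    ext2 (tpb g k) q x y v = tp1 θ k q x * tpb g k q y v + tp1 θ k q y * tpb g k q v x +
      tp1 θ k q v * tpb g k q x y := by
  have hev : tpb g k =ᶠ[𝓝 q] fun q' => (coef g (k q) ((chartAt E (k q) ∘ k) q')).bilinearComp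
      (fderiv ℝ (chartAt E (k q) ∘ k) q') (fderiv ℝ (chartAt E (k q) ∘ k) q') := by
    have h1 : ∀ᶠ q' in 𝓝 q, k q' ∈ (chartAt E (k q)).source :=
      (hk q hq).1.eventually ((chartAt E (k q)).open_source.mem_nhds (mem_chart_source E (k q)))
    filter_upwards [h1, hO.mem_nhds hq] with q' h2 h3
    exact tpb_coef g (hk q' h3) h2
  have hm : (chartAt E (k q) ∘ k) q ∈ (chartAt E (k q)).target := mem_chart_target E (k q)
  rw [SL5_congr hev, ext2_pull (coef g (k q)) (chartAt E (k q) ∘ k) q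
    ((((hs (k q)).contDiffAt ((chartAt E (k q)).open_target.mem_nhds hm))).differentiableAt (by simp))
    (fun u => halt _ _) ((hk q hq).2.of_le (by norm_cast)), hd _ _ hm,
    tp1_co θ (hk q hq) (mem_chart_source E (k q)), tpb_coef g (hk q hq) (mem_chart_source E (k q))]
  rfl

private theorem SL5_cd {g : X → Bil E} {f : X → ℝ} (hf : SmF E f)
    (hs : ∀ p, ContDiffOn ℝ ∞ (coef g p) (chartAt E p).target) (p : X) :
    ContDiffOn ℝ ∞ (coef (fun x => Real.exp (f x) • g x) p) (chartAt E p).target := by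
  have h1 : coef (fun x => Real.exp (f x) • g x) p =
      fun y => Real.exp ((f ∘ (chartAt E p).symm) y) • coef g p y := rfl
  rw [h1]
  have h2 : ContDiffOn ℝ ∞ (fun y => Real.exp ((f ∘ (chartAt E p).symm) y)) (chartAt E p).target :=
    ContDiffOn.exp fun y hy => (hf.at (hol_symm hy).sm).contDiffWithinAt
  exact SL5_absc (F := E →L[ℝ] E →L[ℝ] ℝ) h2 (hs p)

end Pull

theorem lck_kaehler (M : CM.{u}) (h : LCK M) {n : ℕ} {e : Module.Basis (Fin n) ℂ M.E} (hn : 2 ≤ n) {B : BM e M.X}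
    (hB : Fit B)
    (hgood : ∀ θ : M.X → M.E →L[ℝ] ℝ, IsCl1 θ → ∀ t : B.I → M.E → ℝ, (∀ i, ContDiffOn ℝ ∞ (t i) (qb e 4)) →
      (∀ i, ∀ z ∈ qb e 4, fderiv ℝ (t i) z = tp1 θ (B.ψ i) z) → B.PerR t)
    (hreal : ∀ t : B.I → M.E → ℝ, B.PerR t →
      ∃ f : M.X → ℝ, B.Sm f ∧ ∀ i, ∀ z ∈ qb e 4, ddc (fun z => t i z + f (B.ψ i z)) z = 0) : Kaehler M := by
  obtain ⟨g, θ, hθ, halt, hj, hs, hpos, hd⟩ := h
  let _ : MeasurableSpace M.E := borel M.E
  have : BorelSpace M.E := ⟨rfl⟩
  let _ : MeasurableSpace M.X := borel M.X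
  have : BorelSpace M.X := ⟨rfl⟩
  have : FiniteDimensional ℝ M.E := FiniteDimensional.complexToReal M.E
  have hO : IsOpen (qb e 4) := isOpen_qb e 4
  have hsm : ∀ i, ∀ z ∈ qb e 4, Sm M.E (B.ψ i) z := fun i z hz => (hB.hol i z hz).sm
  choose t ht1 ht2 using fun i => exists_prim hθ hO (qb_convex e 4) (hsm i)
  obtain ⟨f, hf, hph⟩ := hreal t (hgood θ hθ t ht1 ht2)
  have hfs : SmF M.E f := (hB.sm f).2 hf
  obtain ⟨u, hu⟩ : ∃ u : B.I → M.E → ℝ, u = fun i z => t i z + f (B.ψ i z) := ⟨_, rfl⟩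
  have hper : B.PerR u := by
    refine ⟨fun i => ?_, fun i j => ?_⟩
    · rw [hu]
      exact (ht1 i).add (hf i)
    · obtain ⟨c, hc⟩ := (hgood θ hθ t ht1 ht2).tr i j
      refine ⟨c, fun z hz => ?_⟩
      rw [hu]
      show t i z + f (B.ψ i z) - (t j (B.T i j z) + f (B.ψ j (B.T i j z))) = c
      rw [B.ψ_T hz, ← hc z hz]
      ring
  have halt' : ∀ x v, (fun x => Real.exp (f x) • g x) x v v = 0 := by
    intro x v
    show Real.exp (f x) * g x v v = 0
    rw [halt, mul_zero]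
  have hj' : ∀ x u v, (fun x => Real.exp (f x) • g x) x (Complex.I • u) (Complex.I • v) =
      (fun x => Real.exp (f x) • g x) x u v := by
    intro x u v
    show Real.exp (f x) * g x (Complex.I • u) (Complex.I • v) = Real.exp (f x) * g x u v
    rw [hj]
  have hpos' : ∀ x v, v ≠ 0 → 0 < (fun x => Real.exp (f x) • g x) x v (Complex.I • v) := by
    intro x v hv
    show 0 < Real.exp (f x) * g x v (Complex.I • v)
    exact mul_pos (Real.exp_pos _) (hpos x v hv)
  have hs' := SL5_cd hfs hs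
  have hmet : B.Met fun i => tpb (fun x => Real.exp (f x) • g x) (B.ψ i) := hB.met halt' hj' hs' hpos'
  have hcl0 : ∀ i, (fun z => Real.exp (-u i z) • tpb (fun x => Real.exp (f x) • g x) (B.ψ i) z) =
      fun z => Real.exp (-t i z) • tpb g (B.ψ i) z := by
    intro i
    funext z
    rw [hu, SL5_tpb, smul_smul, ← Real.exp_add]
    congr 2
    show -(t i z + f (B.ψ i z)) + f (B.ψ i z) = -t i z
    ring
  have hcl : ∀ i, ∀ z ∈ qb e 4, ∀ x y v : M.E,
      ext2 (fun z => Real.exp (-u i z) • tpb (fun x => Real.exp (f x) • g x) (B.ψ i) z) z x y v = 0 := by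
    intro i z hz x y v
    rw [hcl0]
    refine SL5_exp (((ht1 i).contDiffAt (hO.mem_nhds hz)).differentiableAt (by simp))
      ((((hB.isT halt hj hs).sm i).contDiffAt (hO.mem_nhds hz)).differentiableAt (by simp)) x y v ?_
    rw [SL5_ext halt hs hd hO (hsm i) hz, ht2 i z hz]
  have hz0 := lck_bm B hn hmet hper (fun i z hz => by rw [hu]; exact hph i z hz) hcl
  have hform : ∀ i, ∀ z ∈ qb e 4, ContDiffAt ℝ ∞ (tpb (fun x => Real.exp (f x) • g x) (B.ψ i)) z ∧
      ∀ x y v : M.E, ext2 (tpb (fun x => Real.exp (f x) • g x) (B.ψ i)) z x y v = 0 := by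
    intro i z hz
    refine ⟨(hmet.t.sm i).contDiffAt (hO.mem_nhds hz), fun x y v => ?_⟩
    have hconst : ∀ z' ∈ qb e 4, u i z' = u i z := fun z' hz' =>
      hO.is_const_of_fderiv_eq_zero (qb_convex e 4).isPreconnected
        ((hper.sm i).differentiableOn (by simp)) (fun y hy => hz0 i y hy) hz' hz
    have hdu : DifferentiableAt ℝ (u i) z :=
      ((hper.sm i).contDiffAt (hO.mem_nhds hz)).differentiableAt (by simp)
    have hdw : DifferentiableAt ℝ (tpb (fun x => Real.exp (f x) • g x) (B.ψ i)) z :=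
      ((hmet.t.sm i).contDiffAt (hO.mem_nhds hz)).differentiableAt (by simp)
    have h1 := hcl i z hz x y v
    have h2 : HasFDerivAt (fun z => Real.exp (-u i z)) (Real.exp (-u i z) • (-fderiv ℝ (u i) z)) z :=
      hdu.hasFDerivAt.neg.exp
    rw [SL5_smul h2.differentiableAt hdw, h2.fderiv, hz0 i z hz, neg_zero, smul_zero] at h1
    simp only [zero_apply, zero_mul, add_zero] at h1
    exact (mul_eq_zero.1 h1).resolve_left (Real.exp_ne_zero _)
  obtain ⟨b, hb⟩ := hB.form halt' hj' hform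
  refine ⟨b, fun x v hv => ?_⟩
  rw [hb]
  exact hpos' x v hv

end HDG
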