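import Pool.Agent.HDG.SF1
import Pool.Agent.HDG.SL0
import Pool.Agent.HDG.SL5

/-!
# HDG/SA: assembly of the statement layer

A good family of balls from `exists_good`; the semi-positive form gives the hypotheses of the analytic main theorem, `main_real` extends
its conclusion to real periods. Closed 1-forms are the real parts of closed holomorphic 1-forms plus exact ones (`exists_hol1`), uniquely
(`hol1_unique`); then `finite_H1`, `finrank_H1`, and `lck_small`, `lck_kaehler` for locally conformally Kaehler manifolds.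
-/

set_option autoImplicit false

noncomputable section

open scoped Manifold ContDiff Topology

namespace HDG

open Pool.Agent.FBR

universe u

section

variable {E X : Type*} [NormedAddCommGroup E] [NormedSpace ℂ E] [FiniteDimensional ℂ E]
  [TopologicalSpace X] [ChartedSpace E X] [IsManifold 𝓘(ℂ, E) ω X]

omit [FiniteDimensional ℂ E] [IsManifold 𝓘(ℂ, E) ω X] in
private theorem SA_neg {f : X → ℝ} (hf : SmF E f) :
    SmF E (fun x => -f x) ∧ ∀ x, dF E (fun x => -f x) x = -dF E f x := by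
  refine ⟨fun x => (hf x).neg, fun x => ?_⟩
  exact ((hf x).differentiableAt (by simp)).hasFDerivAt.neg.fderiv

omit [FiniteDimensional ℂ E] [IsManifold 𝓘(ℂ, E) ω X] in
private theorem SA_sub {f g : X → ℝ} (hf : SmF E f) (hg : SmF E g) :
    SmF E (fun x => f x - g x) ∧ ∀ x, dF E (fun x => f x - g x) x = dF E f x - dF E g x := by
  refine ⟨fun x => (hf x).sub (hg x), fun x => ?_⟩
  exact (((hf x).differentiableAt (by simp)).hasFDerivAt.sub
    ((hg x).differentiableAt (by simp)).hasFDerivAt).fderiv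

private theorem SA_uniq [CompactSpace X] [ConnectedSpace X] {θ : X → E →L[ℝ] ℝ} {α α' : X → E →L[ℂ] ℂ}
    (hα : IsHol1 α) (hα' : IsHol1 α') {f f' : X → ℝ} (hf : SmF E f) (hf' : SmF E f')
    (h : ∀ x, θ x = reF (α x) + dF E f x) (h' : ∀ x, θ x = reF (α' x) + dF E f' x) : α' = α := by
  have h1 : IsHol1 (α + (-1 : ℂ) • α') := isHol1_add hα (isHol1_smul hα' (-1))
  have h2 := SA_sub hf' hf
  have h3 : ∀ x, reF ((α + (-1 : ℂ) • α') x) = dF E (fun x => f' x - f x) x := by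
    intro x
    rw [h2.2 x]
    have e1 : reF ((α + (-1 : ℂ) • α') x) = reF (α x) - reF (α' x) := by
      ext v
      have : reF ((α + (-1 : ℂ) • α') x) v = (α x v + (-1 : ℂ) * α' x v).re := rfl
      rw [this, neg_one_mul, ← sub_eq_add_neg, Complex.sub_re]
      rfl
    have e2 : reF (α x) + dF E f x = reF (α' x) + dF E f' x := (h x).symm.trans (h' x)
    rw [e1, sub_eq_sub_iff_add_eq_add, e2, add_comm]
  have h4 := hol1_unique h1 h2.1 h3
  funext x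
  refine ContinuousLinearMap.ext fun v => ?_
  have h5 : α x v + (-1 : ℂ) * α' x v = 0 := congrArg (fun A : E →L[ℂ] ℂ => A v) (h4 x)
  rw [neg_one_mul, ← sub_eq_add_neg, sub_eq_zero] at h5
  exact h5.symm

private theorem SA_ex {n : ℕ} {e : Module.Basis (Fin n) ℂ E} {B : BM e X} (hB : Fit B)
    (hgood : ∀ θ : X → E →L[ℝ] ℝ, IsCl1 θ → ∀ t : B.I → E → ℝ, (∀ i, ContDiffOn ℝ ∞ (t i) (qb e 4)) →
      (∀ i, ∀ z ∈ qb e 4, fderiv ℝ (t i) z = tp1 θ (B.ψ i) z) → B.PerR t)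
    (hreal : ∀ t : B.I → E → ℝ, B.PerR t →
      ∃ f : X → ℝ, B.Sm f ∧ ∀ i, ∀ z ∈ qb e 4, ddc (fun z => t i z + f (B.ψ i z)) z = 0)
    {θ : X → E →L[ℝ] ℝ} (hθ : IsCl1 θ) :
    ∃ (α : X → E →L[ℂ] ℂ) (f : X → ℝ), IsHol1 α ∧ SmF E f ∧ ∀ x, θ x = reF (α x) + dF E f x := by
  have ht := fun i => exists_prim hθ (g := B.ψ i) (O := qb e 4) (isOpen_qb e 4) (qb_convex e 4)
    fun q hq => (hB.hol i q hq).sm
  choose t ht1 ht2 using ht
  obtain ⟨f, hf1, hf2⟩ := hreal t (hgood θ hθ t ht1 ht2)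
  have hf : SmF E f := (hB.sm f).2 hf1
  have hd : ∀ i, ∀ z ∈ qb e 4, fderiv ℝ (fun z => t i z + f (B.ψ i z)) z =
      tp1 (fun x => θ x + dF E f x) (B.ψ i) z := by
    intro i z hz
    have hz' : qb e 4 ∈ 𝓝 z := (isOpen_qb e 4).mem_nhds hz
    have d1 : DifferentiableAt ℝ (t i) z := ((ht1 i).contDiffAt hz').differentiableAt (by simp)
    have d2 : DifferentiableAt ℝ (fun z => f (B.ψ i z)) z := ((hf1 i).contDiffAt hz').differentiableAt (by simp)
    have h3 : fderiv ℝ (fun z => t i z + f (B.ψ i z)) z = fderiv ℝ (t i) z + fderiv ℝ (fun z => f (B.ψ i z)) z :=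
      (d1.hasFDerivAt.add d2.hasFDerivAt).fderiv
    have h4 : fderiv ℝ (fun z => f (B.ψ i z)) z = tp1 (dF E f) (B.ψ i) z := (tp1_dF hf (hB.hol i z hz).sm).symm
    have h5 : tp1 (fun x => θ x + dF E f x) (B.ψ i) z = tp1 θ (B.ψ i) z + tp1 (dF E f) (B.ψ i) z := rfl
    rw [h3, ht2 i z hz, h4, h5]
  obtain ⟨α, hα, hα2⟩ := exists_hol1 hB (η := fun x => θ x + dF E f x)
    (h := fun i z => t i z + f (B.ψ i z)) (fun i => (ht1 i).add (hf1 i)) hd hf2
  refine ⟨α, fun x => -f x, hα, (SA_neg hf).1, fun x => ?_⟩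
  rw [(SA_neg hf).2 x, hα2 x, add_neg_cancel_right]

end

theorem first_of (M : CM.{u}) (hM : SemiPos M)
    (hmain : ∀ (B : BM (Module.finBasis ℂ M.E) M.X) (b : B.I → M.E → Bil M.E), B.IsT b → B.ClT b → B.NnT b →
      (∃ i, ∃ z ∈ qb (Module.finBasis ℂ M.E) 4, ∀ v, v ≠ 0 → 0 < b i z v (Complex.I • v)) →
      ∀ t : B.I → M.E → ℝ, B.Per t →
        ∃ f : M.X → ℝ, B.Sm f ∧ ∀ i, ∀ z ∈ qb (Module.finBasis ℂ M.E) 4, ddc (fun z => t i z + f (B.ψ i z)) z = 0) :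
    (∀ θ : M.X → M.E →L[ℝ] ℝ, IsCl1 θ →
      ∃! α : M.X → M.E →L[ℂ] ℂ, IsHol1 α ∧ ∃ f : M.X → ℝ, SmF M.E f ∧ ∀ x, θ x = reF (α x) + dF M.E f x) ∧
    Module.Finite ℝ (H1 M) ∧ Module.finrank ℝ (H1 M) = 2 * Module.finrank ℂ (Om M) ∧ (LCK M → Kaehler M) := by
  obtain ⟨B, hB, hgood⟩ := exists_good (X := M.X) (Module.finBasis ℂ M.E)
  obtain ⟨β, hβ, x0, hx0⟩ := hM
  have hreal : ∀ t : B.I → M.E → ℝ, B.PerR t →
      ∃ f : M.X → ℝ, B.Sm f ∧ ∀ i, ∀ z ∈ qb (Module.finBasis ℂ M.E) 4, ddc (fun z => t i z + f (B.ψ i z)) z = 0 :=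
    fun t ht => main_real B (fun t ht => hmain B (fun i => tpb β.val (B.ψ i)) (hB.isT β.alt β.j β.smooth)
      (hB.clT β) (hB.nnT hβ) (hB.pos hx0) t ht) ht
  have hex : ∀ θ : M.X → M.E →L[ℝ] ℝ, IsCl1 θ →
      ∃ (α : M.X → M.E →L[ℂ] ℂ) (f : M.X → ℝ), IsHol1 α ∧ SmF M.E f ∧ ∀ x, θ x = reF (α x) + dF M.E f x :=
    fun θ hθ => SA_ex hB hgood hreal hθ
  refine ⟨fun θ hθ => ?_, finite_H1 M, finrank_H1 M hex, fun hL => ?_⟩
  · obtain ⟨α, f, h1, h2, h3⟩ := hex θ hθ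
    refine ⟨α, ⟨h1, f, h2, h3⟩, ?_⟩
    rintro α' ⟨h1', f', h2', h3'⟩
    exact SA_uniq h1 h1' h2 h2' h3 h3'
  · rcases Nat.lt_or_ge 1 (Module.finrank ℂ M.E) with h | h
    · exact lck_kaehler M hL h hB hgood hreal
    · exact lck_small M hL h

end HDG
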