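import Mathlib

/-!
# HDG/SC1: real solutions of rational linear systems

The numbers `c p` span a finite dimensional rational subspace of `ℝ`; their coordinates in a basis of it, multiplied by a common
denominator `N`, are the integers `q l p`, and `r l` is the basis vector divided by `N`. A vanishing integral combination of the `c p` has
vanishing coordinates.
-/

set_option autoImplicit false

namespace HDG

private theorem SC1_den {P : Type*} [Fintype P] {m : ℕ} (x : P → Fin m → ℚ) :
    ∃ (N : ℕ) (q : Fin m → P → ℤ), 0 < N ∧ ∀ l p, (q l p : ℚ) = N * x p l := by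
  classical
  refine ⟨∏ p, ∏ l, (x p l).den, fun l p => ((∏ p, ∏ l, (x p l).den) / (x p l).den : ℕ) * (x p l).num, ?_, ?_⟩
  · exact Finset.prod_pos fun p _ => Finset.prod_pos fun l _ => (x p l).den_pos
  · intro l p
    have hdvd : (x p l).den ∣ ∏ p, ∏ l, (x p l).den :=
      (Finset.dvd_prod_of_mem (fun l => (x p l).den) (Finset.mem_univ l)).trans
        (Finset.dvd_prod_of_mem (fun p => ∏ l, (x p l).den) (Finset.mem_univ p))
    obtain ⟨k, hk⟩ := hdvd
    show (((((∏ p, ∏ l, (x p l).den) / (x p l).den : ℕ) : ℤ) * (x p l).num : ℤ) : ℚ) = ((∏ p, ∏ l, (x p l).den : ℕ) : ℚ) * x p l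
    rw [hk, Nat.mul_div_cancel_left k (x p l).den_pos]
    have h1 : ((x p l).den : ℚ) * x p l = (x p l).num := Rat.den_mul_eq_num (x p l)
    push_cast
    calc (k : ℚ) * ((x p l).num : ℚ) = k * (((x p l).den : ℚ) * x p l) := by rw [h1]
      _ = ((x p l).den : ℚ) * k * x p l := by ring

theorem exists_int {P : Type*} [Fintype P] (c : P → ℝ) :
    ∃ (m : ℕ) (r : Fin m → ℝ) (q : Fin m → P → ℤ), (∀ p, c p = ∑ l, r l * (q l p : ℝ)) ∧
      ∀ a : P → ℤ, ∑ p, (a p : ℝ) * c p = 0 → ∀ l, ∑ p, a p * q l p = 0 := by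
  classical
  let S : Submodule ℚ ℝ := Submodule.span ℚ (Set.range c)
  have : FiniteDimensional ℚ S := FiniteDimensional.span_of_finite ℚ (Set.finite_range c)
  let b := Module.finBasis ℚ S
  let v : P → S := fun p => ⟨c p, Submodule.subset_span (Set.mem_range_self p)⟩
  obtain ⟨N, q, hN, hq⟩ := SC1_den (fun p l => b.repr (v p) l)
  have hNR : (N : ℝ) ≠ 0 := Nat.cast_ne_zero.2 hN.ne'
  have hqR : ∀ l p, (q l p : ℝ) = N * ((b.repr (v p) l : ℚ) : ℝ) := by
    intro l p
    have h1 := congrArg (fun t : ℚ => (t : ℝ)) (hq l p)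
    simpa using h1
  refine ⟨_, fun l => ((b l : S) : ℝ) / N, q, ?_, ?_⟩
  · intro p
    have h1 : c p = ∑ l, ((b.repr (v p) l : ℚ) : ℝ) * ((b l : S) : ℝ) := by
      have h2 := congrArg (fun s : S => (s : ℝ)) (b.sum_repr (v p))
      simp only [Submodule.coe_sum, Submodule.coe_smul] at h2
      rw [show c p = ((v p : S) : ℝ) from rfl, ← h2]
      exact Finset.sum_congr rfl fun l _ => Rat.smul_def _ _
    rw [h1]
    refine Finset.sum_congr rfl fun l _ => ?_
    rw [hqR]
    field_simp
  · intro a ha l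
    have h1 : ∑ p, ((a p : ℤ) : ℚ) • v p = 0 := by
      apply Subtype.ext
      simp only [Submodule.coe_sum, Submodule.coe_smul, Submodule.coe_zero]
      rw [← ha]
      refine Finset.sum_congr rfl fun p _ => ?_
      rw [Rat.smul_def]
      push_cast
      rfl
    have h2 : ∑ p, ((a p : ℤ) : ℚ) * b.repr (v p) l = 0 := by
      have h3 := congrArg (fun s : S => b.repr s l) h1
      simpa using h3
    have h4 : ((∑ p, a p * q l p : ℤ) : ℚ) = 0 := by
      push_cast
      have h5 : ∀ p, ((a p : ℤ) : ℚ) * (q l p : ℚ) = N * (((a p : ℤ) : ℚ) * b.repr (v p) l) := by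
        intro p
        rw [hq]
        ring
      simp_rw [h5]
      rw [← Finset.mul_sum, h2, mul_zero]
    exact_mod_cast h4

end HDG
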