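import Pool.Agent.HDG.SDefs
import Pool.Agent.HDG.SC1
import Pool.Agent.HDG.G3
import Pool.Agent.HDG.G8

/-!
# HDG/SC2: real periods from integral periods

`per_of_cocycle`: a cocycle of integers gives, by a partition of unity, a multivalued function with these periods. `glue`:
functions on the balls which agree on the overlaps define a function on `Y`. `main_real`: the main theorem on functions
with integral periods implies the same for real periods, because a real cocycle is a real combination of integral ones.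
-/

set_option autoImplicit false

noncomputable section

open scoped ContDiff Topology

namespace HDG

open Pool.Agent.FBR

variable {H : Type*} [NormedAddCommGroup H] [NormedSpace ℂ H] {n : ℕ} {e : Module.Basis (Fin n) ℂ H}
  [FiniteDimensional ℂ H] {Y : Type*} [TopologicalSpace Y] (B : BM e Y)

omit [FiniteDimensional ℂ H] in
private theorem SC2_zero (q : H) : ddc (fun _ : H => (0 : ℝ)) q = 0 := by
  ext u v
  rw [ddc_apply]
  have h1 : fderiv ℝ (fun _ : H => (0 : ℝ)) = fun _ => 0 := by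
    funext x
    exact fderiv_const_apply 0
  rw [h1, fderiv_const_apply]
  show (1 / 2 : ℝ) * (0 - 0) = 0
  ring

omit [FiniteDimensional ℂ H] in
private theorem SC2_sum {ι : Type*} (s : Finset ι) (r : ι → ℝ) {φ : ι → H → ℝ} {q : H}
    (hφ : ∀ l, ContDiffAt ℝ 2 (φ l) q) (h0 : ∀ l, ddc (φ l) q = 0) :
    ddc (fun x => ∑ l ∈ s, r l * φ l x) q = 0 := by
  classical
  induction s using Finset.induction_on with
  | empty =>
    simp only [Finset.sum_empty]
    exact SC2_zero q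
  | insert k s hk ih =>
    have h1 : (fun x => ∑ l ∈ insert k s, r l * φ l x) = fun x => r k * φ k x + ∑ l ∈ s, r l * φ l x := by
      funext x
      rw [Finset.sum_insert hk]
    have h2 : ContDiffAt ℝ 2 (fun x => r k * φ k x) q := contDiffAt_const.mul (hφ k)
    have h3 : ContDiffAt ℝ 2 (fun x => ∑ l ∈ s, r l * φ l x) q :=
      ContDiffAt.sum fun l _ => contDiffAt_const.mul (hφ l)
    rw [h1, ddc_add h2 h3, ddc_smul (r k) (hφ k), h0 k, ih]
    ext u v
    show r k * 0 + 0 = (0 : ℝ)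
    ring

omit [FiniteDimensional ℂ H] in
private theorem SC2_diff {χ : B.I → Y → ℝ} {c : B.I → H → ℝ} (hχ : B.Pou χ c) {q : B.I → B.I → ℤ}
    (hq : ∀ i j k, (∃ x ∈ qb e 4, ∃ y ∈ qb e 4, ∃ z ∈ qb e 4, B.ψ i x = B.ψ j y ∧ B.ψ i x = B.ψ k z) →
      q i k = q i j + q j k) (i j : B.I) (z : H) (hz : z ∈ B.D i j) :
    (∑ k, χ k (B.ψ i z) * (q i k : ℝ)) - ∑ k, χ k (B.ψ j (B.T i j z)) * (q j k : ℝ) = (q i j : ℝ) := by
  rw [B.ψ_T hz, ← Finset.sum_sub_distrib]
  have h1 : ∀ k ∈ Finset.univ, χ k (B.ψ i z) * (q i k : ℝ) - χ k (B.ψ i z) * (q j k : ℝ) =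
      χ k (B.ψ i z) * (q i j : ℝ) := by
    intro k _
    by_cases h0 : χ k (B.ψ i z) = 0
    · rw [h0]
      ring
    · have h2 : ¬ ∀ w ∈ qb e 4, B.ψ k w ≠ B.ψ i z := fun h => h0 (hχ.out k _ h)
      obtain ⟨w, hw⟩ := not_forall.1 h2
      obtain ⟨hw4, hw'⟩ := Classical.not_imp.1 hw
      have hw'' : B.ψ k w = B.ψ i z := not_not.1 hw'
      have h3 := hq i j k ⟨z, hz.1, B.T i j z, B.T_mem hz, w, hw4, (B.ψ_T hz).symm, hw''.symm⟩
      rw [h3]
      push_cast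
      ring
  rw [Finset.sum_congr rfl h1, ← Finset.sum_mul, hχ.sum, one_mul]

theorem per_of_cocycle {χ : B.I → Y → ℝ} {c : B.I → H → ℝ} (hχ : B.Pou χ c) {q : B.I → B.I → ℤ}
    (hq : ∀ i j k, (∃ x ∈ qb e 4, ∃ y ∈ qb e 4, ∃ z ∈ qb e 4, B.ψ i x = B.ψ j y ∧ B.ψ i x = B.ψ k z) →
      q i k = q i j + q j k) :
    B.Per (fun i z => ∑ k, χ k (B.ψ i z) * (q i k : ℝ)) ∧
      ∀ i j, ∀ z ∈ B.D i j, (∑ k, χ k (B.ψ i z) * (q i k : ℝ)) - ∑ k, χ k (B.ψ j (B.T i j z)) * (q j k : ℝ) =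
        (q i j : ℝ) := by
  refine ⟨⟨fun i => ?_, fun i j z hz => ⟨q i j, SC2_diff B hχ hq i j z hz⟩⟩, SC2_diff B hχ hq⟩
  exact ContDiffOn.sum fun k _ => (hχ.sm k i).mul contDiffOn_const

theorem glue {s : B.I → H → ℝ} (hs : ∀ i j, ∀ z ∈ B.D i j, s i z = s j (B.T i j z)) :
    ∃ f : Y → ℝ, ∀ i, ∀ z ∈ qb e 4, f (B.ψ i z) = s i z := by
  refine ⟨fun y => s (B.ix y) (B.cd y), fun i z hz => ?_⟩
  have h1 : B.cd (B.ψ i z) ∈ qb e 4 := BM.qb_mono (by norm_num) (by norm_num) (B.cd_mem (B.ψ i z))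
  obtain ⟨h2, h3⟩ := B.T_eq (i := i) (j := B.ix (B.ψ i z)) hz h1 (B.ψ_cd (B.ψ i z)).symm
  have h4 := hs i (B.ix (B.ψ i z)) z h2
  rw [h3] at h4
  exact h4.symm

theorem main_real [T2Space Y] (hmain : ∀ t : B.I → H → ℝ, B.Per t →
      ∃ f : Y → ℝ, B.Sm f ∧ ∀ i, ∀ z ∈ qb e 4, ddc (fun z => t i z + f (B.ψ i z)) z = 0)
    {t : B.I → H → ℝ} (ht : B.PerR t) :
    ∃ f : Y → ℝ, B.Sm f ∧ ∀ i, ∀ z ∈ qb e 4, ddc (fun z => t i z + f (B.ψ i z)) z = 0 := by
  classical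
  obtain ⟨χ, κ, hχ⟩ := B.exists_pou
  choose c hc using ht.tr
  have hcc : ∀ i j k, (∃ x ∈ qb e 4, ∃ y ∈ qb e 4, ∃ z ∈ qb e 4, B.ψ i x = B.ψ j y ∧ B.ψ i x = B.ψ k z) →
      c i k = c i j + c j k := by
    rintro i j k ⟨x, hx, y, hy, z, hz, h1, h2⟩
    obtain ⟨a1, a2⟩ := B.T_eq hx hy h1
    obtain ⟨b1, b2⟩ := B.T_eq hx hz h2
    obtain ⟨c1, c2⟩ := B.T_eq hy hz (h1.symm.trans h2)
    have e1 := hc i j x a1
    have e2 := hc i k x b1
    have e3 := hc j k y c1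
    rw [a2] at e1
    rw [b2] at e2
    rw [c2] at e3
    linarith
  obtain ⟨m, r, q, hcq, hrel⟩ := exists_int (P := B.I × B.I) fun p => c p.1 p.2
  have hind : ∀ (R : Type) [CommRing R] (g : B.I × B.I → R) (i j k : B.I),
      ∑ p, ((((if p = (i, k) then 1 else 0) - (if p = (i, j) then 1 else 0) -
        (if p = (j, k) then 1 else 0) : ℤ)) : R) * g p = g (i, k) - g (i, j) - g (j, k) := by
    intro R _ g i j k
    simp only [Int.cast_sub, Int.cast_ite, Int.cast_one, Int.cast_zero, sub_mul, ite_mul, one_mul, zero_mul,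
      Finset.sum_sub_distrib, Finset.sum_ite_eq', Finset.mem_univ, if_true]
  have hq : ∀ l i j k, (∃ x ∈ qb e 4, ∃ y ∈ qb e 4, ∃ z ∈ qb e 4, B.ψ i x = B.ψ j y ∧ B.ψ i x = B.ψ k z) →
      q l (i, k) = q l (i, j) + q l (j, k) := by
    intro l i j k h
    have h1 := hrel (fun p => (if p = (i, k) then 1 else 0) - (if p = (i, j) then 1 else 0) -
        (if p = (j, k) then 1 else 0)) (by
      rw [hind ℝ (fun p => c p.1 p.2) i j k]
      have h2 := hcc i j k h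
      show c i k - c i j - c j k = 0
      linarith) l
    have h3 := hind ℤ (fun p => q l p) i j k
    simp only [Int.cast_id] at h3
    rw [h3] at h1
    linarith
  have hP := fun l => per_of_cocycle B hχ (q := fun i j => q l (i, j)) (hq l)
  choose f hf hf0 using fun l => hmain _ (hP l).1
  obtain ⟨f0, hf0'⟩ := glue B (s := fun i z => t i z - ∑ l, r l * ∑ k, χ k (B.ψ i z) * (q l (i, k) : ℝ)) (by
    intro i j z hz
    have h1 := hc i j z hz
    have h2 := hcq (i, j)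
    have h3 : ∑ l, r l * (q l (i, j) : ℝ) = ∑ l, r l * ((∑ k, χ k (B.ψ i z) * (q l (i, k) : ℝ)) -
        ∑ k, χ k (B.ψ j (B.T i j z)) * (q l (j, k) : ℝ)) :=
      Finset.sum_congr rfl fun l _ => by rw [(hP l).2 i j z hz]
    simp only [mul_sub, Finset.sum_sub_distrib] at h3
    have h4 : c i j = ∑ l, r l * (q l (i, j) : ℝ) := h2
    show t i z - ∑ l, r l * ∑ k, χ k (B.ψ i z) * (q l (i, k) : ℝ) =
      t j (B.T i j z) - ∑ l, r l * ∑ k, χ k (B.ψ j (B.T i j z)) * (q l (j, k) : ℝ)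
    linarith)
  have hs : ∀ i, ContDiffOn ℝ ∞ (fun z => t i z - ∑ l, r l * ∑ k, χ k (B.ψ i z) * (q l (i, k) : ℝ)) (qb e 4) := by
    intro i
    refine (ht.sm i).sub (ContDiffOn.sum fun l _ => contDiffOn_const.mul ?_)
    exact (hP l).1.sm i
  have hf0s : B.Sm f0 := fun i => (hs i).congr fun z hz => hf0' i z hz
  refine ⟨fun y => ∑ l, r l * f l y + (-1) * f0 y, ?_, ?_⟩
  · exact B.Sm_add (B.Sm_sum Finset.univ (f := fun l y => r l * f l y) fun l _ => B.Sm_mul (B.Sm_const (r l)) (hf l))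
      (B.Sm_mul (B.Sm_const (-1)) hf0s)
  · intro i z hz
    have hnh : (qb e 4 : Set H) ∈ nhds z := (isOpen_qb e 4).mem_nhds hz
    have h1 : (fun z => t i z + (∑ l, r l * f l (B.ψ i z) + (-1) * f0 (B.ψ i z))) =ᶠ[nhds z]
        fun z => ∑ l, r l * ((∑ k, χ k (B.ψ i z) * (q l (i, k) : ℝ)) + f l (B.ψ i z)) := by
      filter_upwards [hnh] with w hw
      have h2 := hf0' i w hw
      simp only [mul_add, Finset.sum_add_distrib]
      rw [h2]
      ring
    rw [ddc_congr h1]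
    refine SC2_sum Finset.univ r (φ := fun l z => (∑ k, χ k (B.ψ i z) * (q l (i, k) : ℝ)) + f l (B.ψ i z)) ?_ ?_
    · intro l
      have h3 : ContDiffOn ℝ ∞ (fun z => ∑ k, χ k (B.ψ i z) * (q l (i, k) : ℝ)) (qb e 4) := (hP l).1.sm i
      have h4 : ContDiffOn ℝ ∞ (fun z => f l (B.ψ i z)) (qb e 4) := hf l i
      exact ((h3.add h4).contDiffAt hnh).of_le (by norm_cast)
    · intro l
      exact hf0 l i z hz

end HDG
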