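import Pool.Agent.HDG.SU1

/-!
# HDG/SD1: the dimension of the first cohomology

The spans `Z1`, `B1`, `Om` consist of the closed forms, the differentials, the closed holomorphic forms. The map
`α ↦ reF ∘ α` from `Om M` to `H1 M` is injective (`hol1_unique`) and surjective (hypothesis `hex`).
-/

set_option autoImplicit false

noncomputable section

open scoped Manifold ContDiff Topology

namespace HDG

open Pool.Agent.FBR

universe u

private theorem SD1_reF_add {E : Type*} [NormedAddCommGroup E] [NormedSpace ℂ E] (a b : E →L[ℂ] ℂ) :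
    reF (a + b) = reF a + reF b := by
  ext v
  simp [reF]

private theorem SD1_reF_smul {E : Type*} [NormedAddCommGroup E] [NormedSpace ℂ E] (c : ℝ) (a : E →L[ℂ] ℂ) :
    reF (c • a) = c • reF a := by
  ext v
  simp [reF]

private theorem SD1_reF_zero {E : Type*} [NormedAddCommGroup E] [NormedSpace ℂ E] :
    reF (0 : E →L[ℂ] ℂ) = 0 := by
  ext v
  simp [reF]

private theorem SD1_add {E X : Type*} [NormedAddCommGroup E] [NormedSpace ℂ E] [TopologicalSpace X]
    [ChartedSpace E X] {f g : X → ℝ} (hf : SmF E f) (hg : SmF E g) :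
    dF E f + dF E g = dF E (fun x => f x + g x) := by
  funext x
  have h1 := (hf x).differentiableAt (by simp)
  have h2 := (hg x).differentiableAt (by simp)
  exact (fderiv_add h1 h2).symm

private theorem SD1_smul {E X : Type*} [NormedAddCommGroup E] [NormedSpace ℂ E] [TopologicalSpace X]
    [ChartedSpace E X] {f : X → ℝ} (hf : SmF E f) (c : ℝ) :
    c • dF E f = dF E (fun x => c * f x) := by
  funext x
  have h1 := (hf x).differentiableAt (by simp)
  exact (fderiv_const_mul h1 c).symm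

theorem mem_Z1 {M : CM.{u}} {θ : M.X → M.E →L[ℝ] ℝ} : θ ∈ Z1 M ↔ IsCl1 θ := by
  constructor
  · intro h
    exact Submodule.span_induction (p := fun θ _ => IsCl1 θ) (fun _ hx => hx) isCl1_zero
      (fun _ _ _ _ a b => isCl1_add a b) (fun c _ _ a => isCl1_smul a c) h
  · intro h
    exact Submodule.subset_span h

theorem mem_B1 {M : CM.{u}} {θ : M.X → M.E →L[ℝ] ℝ} : θ ∈ B1 M ↔ ∃ f : M.X → ℝ, SmF M.E f ∧ θ = dF M.E f := by
  constructor
  · intro h
    refine Submodule.span_induction (p := fun θ _ => ∃ f : M.X → ℝ, SmF M.E f ∧ θ = dF M.E f)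
      (fun _ hx => hx) ?_ ?_ ?_ h
    · refine ⟨fun _ => 0, SmF.const (E := M.E) 0, ?_⟩
      funext x
      exact (dF_const (E := M.E) 0 x).symm
    · rintro _ _ _ _ ⟨f, hf, rfl⟩ ⟨g, hg, rfl⟩
      exact ⟨fun x => f x + g x, hf.add hg, SD1_add hf hg⟩
    · rintro c _ _ ⟨f, hf, rfl⟩
      exact ⟨fun x => c * f x, (SmF.const (E := M.E) c).mul hf, SD1_smul hf c⟩
  · intro h
    exact Submodule.subset_span h

theorem mem_Om {M : CM.{u}} {α : M.X → M.E →L[ℂ] ℂ} : α ∈ Om M ↔ IsHol1 α := by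
  constructor
  · intro h
    exact Submodule.span_induction (p := fun α _ => IsHol1 α) (fun _ hx => hx) isHol1_zero
      (fun _ _ _ _ a b => isHol1_add a b) (fun c _ _ a => isHol1_smul a c) h
  · intro h
    exact Submodule.subset_span h

/-- the real part, as a real linear map on the closed holomorphic forms -/
private def SD1_re (M : CM.{u}) : ↥(Om M) →ₗ[ℝ] (M.X → M.E →L[ℝ] ℝ) where
  toFun α := fun x => reF (α.1 x)
  map_add' α β := by
    funext x
    exact SD1_reF_add (α.1 x) (β.1 x)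
  map_smul' c α := by
    funext x
    exact SD1_reF_smul c (α.1 x)

private theorem SD1_quo {V : Type u} [AddCommGroup V] [Module ℝ V] (A B : Submodule ℝ V) {W : Type u}
    [AddCommGroup W] [Module ℝ W] (φ : W →ₗ[ℝ] V) (hA : ∀ w, φ w ∈ A) (hinj : ∀ w, φ w ∈ B → w = 0)
    (hsur : ∀ a ∈ A, ∃ w, a - φ w ∈ B) : Module.finrank ℝ (Quo A B) = Module.finrank ℝ W := by
  let Φ : W →ₗ[ℝ] Quo A B := (Submodule.mkQ (B.comap A.subtype)).comp (LinearMap.codRestrict A φ hA)
  have h1 : Function.Injective Φ := by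
    rw [injective_iff_map_eq_zero]
    intro w h0
    have h2 : LinearMap.codRestrict A φ hA w ∈ B.comap A.subtype :=
      (Submodule.Quotient.mk_eq_zero _).1 h0
    exact hinj w h2
  have h2 : Function.Surjective Φ := by
    intro q
    obtain ⟨a, rfl⟩ := Submodule.mkQ_surjective _ q
    obtain ⟨w, hw⟩ := hsur a.1 a.2
    refine ⟨w, ?_⟩
    symm
    refine (Submodule.Quotient.eq _).2 ?_
    exact hw
  exact (LinearEquiv.finrank_eq (LinearEquiv.ofBijective Φ ⟨h1, h2⟩)).symm

theorem finrank_H1 (M : CM.{u}) (hex : ∀ θ : M.X → M.E →L[ℝ] ℝ, IsCl1 θ →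
      ∃ (α : M.X → M.E →L[ℂ] ℂ) (f : M.X → ℝ), IsHol1 α ∧ SmF M.E f ∧ ∀ x, θ x = reF (α x) + dF M.E f x) :
    Module.finrank ℝ (H1 M) = 2 * Module.finrank ℂ (Om M) := by
  refine (SD1_quo (Z1 M) (B1 M) (SD1_re M) (fun α => mem_Z1.2 (isCl1_re (mem_Om.1 α.2))) ?_ ?_).trans
    (finrank_real_of_complex ↥(Om M))
  · intro α h
    obtain ⟨f, hf, hfe⟩ := mem_B1.1 h
    have h3 := hol1_unique (mem_Om.1 α.2) hf (fun x => congrFun hfe x)
    apply Subtype.ext
    funext x
    exact h3 x
  · intro θ hθ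
    obtain ⟨α, f, hα, hf, h⟩ := hex θ (mem_Z1.1 hθ)
    refine ⟨⟨α, mem_Om.2 hα⟩, ?_⟩
    refine mem_B1.2 ⟨f, hf, ?_⟩
    funext x
    show θ x - reF (α x) = dF M.E f x
    rw [h x, add_sub_cancel_left]

end HDG
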