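import Pool.Agent.HDG.SD1
import Pool.Agent.HDG.ST3
import Pool.Agent.HDG.ST5
import Pool.Agent.HDG.SC2

/-!
# HDG/SF1: the first cohomology is finite dimensional

Let `B` be the family of balls from `exists_good`. A closed 1-form `θ` has primitives `t i` on the balls `i`, and the differences
`t i z - t j (T i j z)` are constants `c (i, j)`. The relation `P θ c` between the form and the constants is linear; `P θ 0` implies that the
`t i` glue to a smooth function with differential `θ`. So the quotient `H1 M` is finite dimensional (`SF1_alg`).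
-/

set_option autoImplicit false

noncomputable section

open scoped Manifold ContDiff Topology

namespace HDG

open Pool.Agent.FBR

universe u

private theorem SF1_alg {V : Type u} [AddCommGroup V] [Module ℝ V] (A B : Submodule ℝ V) {J : Type} [Fintype J]
    (P : V → (J → ℝ) → Prop) (hadd : ∀ v v' c c', P v c → P v' c' → P (v + v') (c + c'))
    (hsmul : ∀ (r : ℝ) v c, P v c → P (r • v) (r • c)) (hex : ∀ v ∈ A, ∃ c, P v c) (hz : ∀ v ∈ A, P v 0 → v ∈ B) :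
    Module.Finite ℝ (Quo A B) := by
  have h0 : P 0 0 := by
    obtain ⟨c, hc⟩ := hex 0 A.zero_mem
    have h1 := hsmul 0 0 c hc
    rwa [zero_smul, zero_smul] at h1
  let R : Submodule ℝ (↥A × (J → ℝ)) :=
    { carrier := {p | P (p.1 : V) p.2}
      add_mem' := fun {p q} hp hq => hadd _ _ _ _ hp hq
      zero_mem' := h0
      smul_mem' := fun r p hp => hsmul r _ _ hp }
  let f : ↥R →ₗ[ℝ] Quo A B := ((B.comap A.subtype).mkQ.comp (LinearMap.fst ℝ ↥A (J → ℝ))).comp R.subtype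
  let g : ↥R →ₗ[ℝ] (J → ℝ) := (LinearMap.snd ℝ ↥A (J → ℝ)).comp R.subtype
  have hfg : LinearMap.ker g ≤ LinearMap.ker f := by
    intro p hp
    rw [LinearMap.mem_ker] at hp ⊢
    have h1 : (p : ↥A × (J → ℝ)).2 = 0 := hp
    have h2 : P ((p : ↥A × (J → ℝ)).1 : V) (p : ↥A × (J → ℝ)).2 := p.2
    rw [h1] at h2
    have h3 : ((p : ↥A × (J → ℝ)).1 : V) ∈ B := hz _ (p : ↥A × (J → ℝ)).1.2 h2
    show (B.comap A.subtype).mkQ (p : ↥A × (J → ℝ)).1 = 0
    rw [Submodule.mkQ_apply, Submodule.Quotient.mk_eq_zero]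
    exact h3
  have hfin : Module.Finite ℝ (↥R ⧸ LinearMap.ker g) := Module.Finite.equiv g.quotKerEquivRange.symm
  refine Module.Finite.of_surjective ((LinearMap.ker g).liftQ f hfg) ?_
  intro y
  obtain ⟨a, rfl⟩ := Submodule.mkQ_surjective _ y
  obtain ⟨c, hc⟩ := hex a a.2
  refine ⟨(LinearMap.ker g).mkQ ⟨(a, c), hc⟩, ?_⟩
  rfl

section

variable {E X : Type*} [NormedAddCommGroup E] [NormedSpace ℂ E] [TopologicalSpace X] [ChartedSpace E X] {n : ℕ}
  {e : Module.Basis (Fin n) ℂ E}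

/-- the form `θ` has primitives with the periods `c` -/
private def SF1_P (B : BM e X) (θ : X → E →L[ℝ] ℝ) (c : B.I × B.I → ℝ) : Prop :=
  ∃ t : B.I → E → ℝ, (∀ i, ContDiffOn ℝ ∞ (t i) (qb e 4)) ∧
    (∀ i, ∀ z ∈ qb e 4, fderiv ℝ (t i) z = tp1 θ (B.ψ i) z) ∧ ∀ i j, ∀ z ∈ B.D i j, t i z - t j (B.T i j z) = c (i, j)

private theorem SF1_at [FiniteDimensional ℂ E] {f : E → ℝ} (hf : ContDiffOn ℝ ∞ f (qb e 4)) {z : E} (hz : z ∈ qb e 4) :
    DifferentiableAt ℝ f z :=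
  (hf.contDiffAt ((isOpen_qb e 4).mem_nhds hz)).differentiableAt (by simp)

private theorem SF1_add [FiniteDimensional ℂ E] (B : BM e X) {θ θ' : X → E →L[ℝ] ℝ} {c c' : B.I × B.I → ℝ}
    (h : SF1_P B θ c) (h' : SF1_P B θ' c') : SF1_P B (θ + θ') (c + c') := by
  obtain ⟨t, h1, h2, h3⟩ := h
  obtain ⟨t', h1', h2', h3'⟩ := h'
  refine ⟨fun i z => t i z + t' i z, fun i => (h1 i).add (h1' i), fun i z hz => ?_, fun i j z hz => ?_⟩
  · have h4 : fderiv ℝ (fun z => t i z + t' i z) z = fderiv ℝ (t i) z + fderiv ℝ (t' i) z :=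
      fderiv_fun_add (SF1_at (h1 i) hz) (SF1_at (h1' i) hz)
    rw [h4, h2 i z hz, h2' i z hz]
    rfl
  · have h4 := h3 i j z hz
    have h5 := h3' i j z hz
    show t i z + t' i z - (t j (B.T i j z) + t' j (B.T i j z)) = c (i, j) + c' (i, j)
    linarith

private theorem SF1_smul [FiniteDimensional ℂ E] (B : BM e X) (r : ℝ) {θ : X → E →L[ℝ] ℝ} {c : B.I × B.I → ℝ}
    (h : SF1_P B θ c) : SF1_P B (r • θ) (r • c) := by
  obtain ⟨t, h1, h2, h3⟩ := h
  refine ⟨fun i z => r * t i z, fun i => contDiffOn_const.mul (h1 i), fun i z hz => ?_, fun i j z hz => ?_⟩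
  · have h4 : fderiv ℝ (fun z => r * t i z) z = r • fderiv ℝ (t i) z :=
      fderiv_const_mul (SF1_at (h1 i) hz) r
    rw [h4, h2 i z hz]
    rfl
  · have h4 := h3 i j z hz
    show r * t i z - r * t j (B.T i j z) = r * c (i, j)
    rw [← h4]
    ring

private theorem SF1_ex [FiniteDimensional ℂ E] [IsManifold 𝓘(ℂ, E) ω X] {B : BM e X} (hB : Fit B)
    (hper : ∀ θ : X → E →L[ℝ] ℝ, IsCl1 θ → ∀ t : B.I → E → ℝ, (∀ i, ContDiffOn ℝ ∞ (t i) (qb e 4)) →
      (∀ i, ∀ z ∈ qb e 4, fderiv ℝ (t i) z = tp1 θ (B.ψ i) z) → B.PerR t)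
    {θ : X → E →L[ℝ] ℝ} (hθ : IsCl1 θ) : ∃ c, SF1_P B θ c := by
  have hg : ∀ i, ∀ q ∈ (qb e 4 : Set E), Sm E (B.ψ i) q := fun i q hq => (hB.hol i q hq).sm
  choose t ht1 ht2 using fun i => exists_prim hθ (isOpen_qb e 4) (qb_convex e 4) (hg i)
  have h1 := hper θ hθ t ht1 ht2
  choose c hc using h1.tr
  exact ⟨fun p => c p.1 p.2, t, ht1, ht2, fun i j z hz => hc i j z hz⟩

private theorem SF1_zero [FiniteDimensional ℂ E] [IsManifold 𝓘(ℂ, E) ω X] {B : BM e X} (hB : Fit B)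
    {θ : X → E →L[ℝ] ℝ} (h : SF1_P B θ 0) : ∃ f : X → ℝ, SmF E f ∧ θ = dF E f := by
  obtain ⟨t, h1, h2, h3⟩ := h
  obtain ⟨f, hf⟩ := glue B (s := t) fun i j z hz => by
    have h4 := h3 i j z hz
    have h5 : (0 : B.I × B.I → ℝ) (i, j) = 0 := rfl
    rw [h5] at h4
    linarith
  have hs : SmF E f := (hB.sm f).2 fun i => (h1 i).congr fun z hz => hf i z hz
  refine ⟨f, hs, funext fun x => ?_⟩
  obtain ⟨i, z, hz, hx⟩ := B.cov x
  have hz4 : z ∈ qb e 4 := BM.qb_mono (by norm_num) (by norm_num) hz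
  subst hx
  have h4 := tp1_dF hs (hB.hol i z hz4).sm
  have h5 : f ∘ B.ψ i =ᶠ[nhds z] t i := by
    filter_upwards [(isOpen_qb e 4).mem_nhds hz4] with w hw
    exact hf i w hw
  rw [h5.fderiv_eq, h2 i z hz4] at h4
  ext v
  obtain ⟨w, hw⟩ := (hB.bij i z hz4).2 v
  have h6 : tp1 (dF E f) (B.ψ i) z w = tp1 θ (B.ψ i) z w := by rw [h4]
  have h7 : dF E f (B.ψ i z) (dvec E (B.ψ i) z w) = θ (B.ψ i z) (dvec E (B.ψ i) z w) := h6
  rw [hw] at h7
  exact h7.symm

end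

theorem finite_H1 (M : CM.{u}) : Module.Finite ℝ (H1 M) := by
  obtain ⟨B, hB, hper⟩ := exists_good (X := M.X) (Module.finBasis ℂ M.E)
  exact SF1_alg (Z1 M) (B1 M) (SF1_P B) (fun _ _ _ _ h h' => SF1_add B h h') (fun r _ _ h => SF1_smul B r h)
    (fun θ hθ => SF1_ex hB hper (mem_Z1.1 hθ)) (fun θ _ h => mem_B1.2 (SF1_zero hB h))

end HDG
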