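import Pool.Agent.HDG.SDefs
import Pool.Agent.HDG.G2

/-!
# HDG/SL1: the tensor `e^{-m u} dd^c (χ e^{m u})`

`B.sT m u χ` is a smooth real tensor of type `(1,1)`, additive in `χ`, local in `χ`; its value for `χ = 1` and pluriharmonic
`u` is `m² du ∧ d^c u` on the diagonal.
-/

set_option autoImplicit false

noncomputable section

open scoped ContDiff Topology

namespace HDG

open Pool.Agent.FBR

variable {H : Type*} [NormedAddCommGroup H] [NormedSpace ℂ H] {n : ℕ} {e : Module.Basis (Fin n) ℂ H}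
  [FiniteDimensional ℂ H] {Y : Type*} [TopologicalSpace Y] (B : BM e Y) (m : ℝ) {u : B.I → H → ℝ}

private theorem SL1_smul {V W : Type*} [NormedAddCommGroup V] [NormedSpace ℝ V] [NormedAddCommGroup W]
    [NormedSpace ℝ W] {f : V → ℝ} {g : V → W} {z : V} (hf : ContDiffAt ℝ ∞ f z) (hg : ContDiffAt ℝ ∞ g z) :
    ContDiffAt ℝ ∞ (fun z => f z • g z) z := hf.smul hg

private theorem SL1_u (hu : B.PerR u) {i : B.I} {z : H} (hz : z ∈ qb e 4) : ContDiffAt ℝ ∞ (u i) z :=
  (hu.sm i).contDiffAt ((isOpen_qb e 4).mem_nhds hz)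

private theorem SL1_F (hu : B.PerR u) {χ : Y → ℝ} (hχ : B.Sm χ) {i : B.I} {z : H} (hz : z ∈ qb e 4) :
    ContDiffAt ℝ ∞ (fun z => χ (B.ψ i z) * Real.exp (m * u i z)) z :=
  ((hχ i).contDiffAt ((isOpen_qb e 4).mem_nhds hz)).mul
    (Real.contDiff_exp.contDiffAt.comp z (contDiffAt_const.mul (SL1_u B hu hz)))

private theorem SL1_F2 (hu : B.PerR u) {χ : Y → ℝ} (hχ : B.Sm χ) {i : B.I} {z : H} (hz : z ∈ qb e 4) :
    ContDiffAt ℝ 2 (fun z => χ (B.ψ i z) * Real.exp (m * u i z)) z :=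
  (SL1_F B m hu hχ hz).of_le (by norm_cast)

theorem sT_isT (hu : B.PerR u) {χ : Y → ℝ} (hχ : B.Sm χ) : B.IsT (B.sT m u χ) where
  sm i z hz := by
    refine ContDiffAt.contDiffWithinAt ?_
    have h1 : ContDiffAt ℝ ∞ (fun z => Real.exp (-(m * u i z))) z :=
      Real.contDiff_exp.contDiffAt.comp z (contDiffAt_const.mul (SL1_u B hu hz)).neg
    exact SL1_smul (V := H) (W := Bil H) h1 (ddc_smooth (SL1_F B m hu hχ hz))
  oo i z hz := O11_smul _ (O11_ddc (SL1_F2 B m hu hχ hz))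
  co i j z hz := by
    obtain ⟨c, hc⟩ := hu.tr i j
    have hcd : ContDiffAt ℝ 2 (fun w => χ (B.ψ j w) * Real.exp (m * u j w)) (B.T i j z) :=
      SL1_F2 B m hu hχ (B.T_mem hz)
    have h1 : (fun z => χ (B.ψ i z) * Real.exp (m * u i z)) =ᶠ[nhds z]
        fun x => Real.exp (m * c) * ((fun w => χ (B.ψ j w) * Real.exp (m * u j w)) ∘ B.T i j) x := by
      filter_upwards [(B.D_open i j).mem_nhds hz] with x hx
      show χ (B.ψ i x) * Real.exp (m * u i x) =
        Real.exp (m * c) * (χ (B.ψ j (B.T i j x)) * Real.exp (m * u j (B.T i j x)))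
      have h2 := hc x hx
      have h3 : u i x = c + u j (B.T i j x) := by linarith
      rw [B.ψ_T hx, h3, mul_add, Real.exp_add]
      ring
    have h4 : ContDiffAt ℝ 2 ((fun w => χ (B.ψ j w) * Real.exp (m * u j w)) ∘ B.T i j) z :=
      hcd.comp z ((B.T_cd hz).of_le (by norm_cast))
    show Real.exp (-(m * u i z)) • ddc (fun z => χ (B.ψ i z) * Real.exp (m * u i z)) z =
      (Real.exp (-(m * u j (B.T i j z))) • ddc (fun w => χ (B.ψ j w) * Real.exp (m * u j w))
        (B.T i j z)).bilinearComp (fderiv ℝ (B.T i j) z) (fderiv ℝ (B.T i j) z)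
    rw [ddc_congr h1, ddc_smul _ h4, ddc_comp hcd (B.tr i j z hz.1 hz.2), smul_smul, ← Real.exp_add]
    have h5 : -(m * u i z) + m * c = -(m * u j (B.T i j z)) := by
      have h2 := hc z hz
      have h3 : u i z = c + u j (B.T i j z) := by linarith
      rw [h3]
      ring
    rw [h5]
    rfl

theorem sT_germ {χ : Y → ℝ} {i : B.I} {z : H} (h : ∀ᶠ z' in 𝓝 z, χ (B.ψ i z') = 0) : B.sT m u χ i z = 0 := by
  have h1 : (fun z => χ (B.ψ i z) * Real.exp (m * u i z)) =ᶠ[nhds z] fun _ => (0 : ℝ) := by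
    filter_upwards [h] with x hx
    rw [hx, zero_mul]
  have h2 : ddc (fun _ : H => (0 : ℝ)) z = 0 := by
    ext v w
    rw [ddc_apply]
    have h3 : fderiv ℝ (fun _ : H => (0 : ℝ)) = fun _ => 0 := by
      funext x
      exact fderiv_const_apply 0
    rw [h3, fderiv_const_apply]
    simp
  show Real.exp (-(m * u i z)) • ddc (fun z => χ (B.ψ i z) * Real.exp (m * u i z)) z = 0
  rw [ddc_congr h1, h2]
  refine ContinuousLinearMap.ext fun v => ContinuousLinearMap.ext fun w => ?_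
  show Real.exp (-(m * u i z)) * (0 : ℝ) = 0
  rw [mul_zero]

theorem sT_sum (hu : B.PerR u) {ι : Type*} (s : Finset ι) {χ : ι → Y → ℝ} (hχ : ∀ k ∈ s, B.Sm (χ k)) {i : B.I} {z : H}
    (hz : z ∈ qb e 4) : B.sT m u (fun y => ∑ k ∈ s, χ k y) i z = ∑ k ∈ s, B.sT m u (χ k) i z := by
  classical
  induction s using Finset.induction_on with
  | empty =>
    simp only [Finset.sum_empty]
    exact sT_germ B m (Filter.Eventually.of_forall fun _ => rfl)
  | insert k s hk ih =>
    have h2 : ∀ l ∈ s, B.Sm (χ l) := fun l hl => hχ l (Finset.mem_insert_of_mem hl)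
    rw [Finset.sum_insert hk, ← ih h2]
    have h3 := SL1_F2 B m hu (hχ k (Finset.mem_insert_self k s)) (i := i) hz
    have h4 := SL1_F2 B m hu (B.Sm_sum s h2) (i := i) hz
    have h5 : (fun z => (∑ l ∈ insert k s, χ l (B.ψ i z)) * Real.exp (m * u i z)) = fun z =>
        χ k (B.ψ i z) * Real.exp (m * u i z) + (∑ l ∈ s, χ l (B.ψ i z)) * Real.exp (m * u i z) := by
      funext x
      rw [Finset.sum_insert hk, add_mul]
    have h6 : ddc (fun z => (∑ l ∈ insert k s, χ l (B.ψ i z)) * Real.exp (m * u i z)) z =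
        ddc (fun z => χ k (B.ψ i z) * Real.exp (m * u i z)) z +
          ddc (fun z => (∑ l ∈ s, χ l (B.ψ i z)) * Real.exp (m * u i z)) z := by
      rw [h5]
      exact ddc_add h3 h4
    refine ContinuousLinearMap.ext fun v => ContinuousLinearMap.ext fun w => ?_
    show Real.exp (-(m * u i z)) * ddc (fun z => (∑ l ∈ insert k s, χ l (B.ψ i z)) * Real.exp (m * u i z)) z v w =
      Real.exp (-(m * u i z)) * ddc (fun z => χ k (B.ψ i z) * Real.exp (m * u i z)) z v w +
      Real.exp (-(m * u i z)) * ddc (fun z => (∑ l ∈ s, χ l (B.ψ i z)) * Real.exp (m * u i z)) z v w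
    rw [h6, ← mul_add]
    rfl

private theorem SL1_exp2 {G : Type*} [NormedAddCommGroup G] [NormedSpace ℝ G] {U : G → ℝ} {z : G}
    (hU : ContDiffAt ℝ 2 U z) (m : ℝ) (a b : G) :
    fderiv ℝ (fderiv ℝ (fun x => Real.exp (m * U x))) z a b =
      Real.exp (m * U z) * (m * fderiv ℝ (fderiv ℝ U) z a b + m ^ 2 * (fderiv ℝ U z a * fderiv ℝ U z b)) := by
  have hev : ∀ᶠ x in nhds z, DifferentiableAt ℝ U x := by
    filter_upwards [hU.eventually (by simp)] with x hx
    exact hx.differentiableAt (by norm_num)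
  have hd1 : DifferentiableAt ℝ (fderiv ℝ U) z :=
    (hU.fderiv_right (m := 1) (by norm_num)).differentiableAt (by norm_num)
  have hd : ∀ x, DifferentiableAt ℝ U x →
      HasFDerivAt (fun x => Real.exp (m * U x)) (Real.exp (m * U x) • (m • fderiv ℝ U x)) x := by
    intro x hx
    exact (hx.hasFDerivAt.const_mul m).exp
  have h1 : fderiv ℝ (fun x => Real.exp (m * U x)) =ᶠ[nhds z]
      fun x => Real.exp (m * U x) • (m • fderiv ℝ U x) := by
    filter_upwards [hev] with x hx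
    exact (hd x hx).fderiv
  have h2 := (hd z hev.self_of_nhds).smul (hd1.hasFDerivAt.const_smul m)
  have h3 : HasFDerivAt (fun x => Real.exp (m * U x) • (m • fderiv ℝ U x)) _ z := h2
  rw [h1.fderiv_eq, h3.fderiv]
  simp only [add_apply, smul_apply, ContinuousLinearMap.smulRight_apply, smul_eq_mul, Pi.smul_apply]
  ring

theorem sT_one (hu : B.PerR u) {i : B.I} {z : H} (hz : z ∈ qb e 4) (hp : ddc (u i) z = 0) (v : H) :
    B.sT m u (fun _ => 1) i z v (Complex.I • v) =
      m ^ 2 / 2 * ((fderiv ℝ (u i) z v) ^ 2 + (fderiv ℝ (u i) z (Complex.I • v)) ^ 2) := by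
  have hU : ContDiffAt ℝ 2 (u i) z := (SL1_u B hu hz).of_le (by norm_cast)
  have h0 : (fun z => (1 : ℝ) * Real.exp (m * u i z)) = fun z => Real.exp (m * u i z) := by
    funext x
    rw [one_mul]
  have h1 : ddc (u i) z v (Complex.I • v) = 0 := by
    rw [hp]
    rfl
  rw [ddc_self] at h1
  show Real.exp (-(m * u i z)) * ddc (fun z => (1 : ℝ) * Real.exp (m * u i z)) z v (Complex.I • v) = _
  rw [h0, ddc_self, SL1_exp2 hU, SL1_exp2 hU]
  have h2 : Real.exp (-(m * u i z)) * Real.exp (m * u i z) = 1 := by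
    rw [← Real.exp_add]
    simp
  linear_combination (m ^ 2 / 2 * ((fderiv ℝ (u i) z v) ^ 2 + (fderiv ℝ (u i) z (Complex.I • v)) ^ 2) +
    m * (1 / 2 * (fderiv ℝ (fderiv ℝ (u i)) z v v +
      fderiv ℝ (fderiv ℝ (u i)) z (Complex.I • v) (Complex.I • v)))) * h2 + m * h1

end HDG
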