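import Pool.Agent.HDG.LA2

/-!
# HDG/SL3: the pairing `cf` with a positive definite form

`cf_smul'` is the homogeneity of the adjugate. For `cf_pos` let `A = Mt e a`, `S = Mt e s`: `A` is positive definite, its
adjugate is `det A • A⁻¹`, and `A⁻¹ = Rᴴ R`, so the trace of `A⁻¹ S` is the trace of the positive semidefinite matrix
`R S Rᴴ`; it vanishes only if `S = 0`, and the matrix determines the form.
-/

set_option autoImplicit false

noncomputable section

open scoped ContDiff ComplexOrder

namespace HDG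

open Pool.Agent.FBR

variable {H : Type*} [NormedAddCommGroup H] [NormedSpace ℂ H] {n : ℕ} (e : Module.Basis (Fin n) ℂ H)

theorem cf_smul' (c : ℝ) (a s : Bil H) : cf e (c • a) s = c ^ (n - 1) * cf e a s := by
  unfold cf
  rw [Mt_smul, Matrix.adjugate_smul, Fintype.card_fin, Matrix.smul_mul, Matrix.trace_smul, smul_eq_mul,
    ← Complex.ofReal_pow, Complex.re_ofReal_mul]

open scoped MatrixOrder Matrix.Norms.L2Operator in
private theorem SL3_sq {A : Matrix (Fin n) (Fin n) ℂ} (hA : A.PosSemidef) :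
    ∃ R : Matrix (Fin n) (Fin n) ℂ, A = R.conjTranspose * R := by
  obtain ⟨B, hB⟩ := CStarAlgebra.nonneg_iff_eq_star_mul_self.mp hA.nonneg
  exact ⟨B, hB⟩

/-- the trace of the adjugate of a positive definite matrix times a positive semidefinite matrix -/
private theorem SL3_tr {A S : Matrix (Fin n) (Fin n) ℂ} (hA : A.PosDef) (hS : S.PosSemidef) :
    0 ≤ (A.adjugate * S).trace ∧ ((A.adjugate * S).trace = 0 → S = 0) := by
  have hd : 0 < A.det := hA.det_pos
  have hu : IsUnit A.det := isUnit_iff_ne_zero.2 hd.ne'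
  have hadj : A.adjugate = A.det • A⁻¹ := by
    rw [Matrix.inv_def, smul_smul, Ring.mul_inverse_cancel _ hu, one_smul]
  obtain ⟨R, hR⟩ : ∃ R : Matrix (Fin n) (Fin n) ℂ, A⁻¹ = R.conjTranspose * R := by
    have h1 : A⁻¹.PosSemidef := hA.inv.posSemidef
    exact SL3_sq h1
  have h1 : (A.adjugate * S).trace = A.det * (R * S * R.conjTranspose).trace := by
    rw [hadj, Matrix.smul_mul, Matrix.trace_smul, smul_eq_mul, hR, Matrix.mul_assoc, Matrix.trace_mul_comm]
  have h2 : (R * S * R.conjTranspose).PosSemidef := hS.mul_mul_conjTranspose_same R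
  constructor
  · rw [h1]
    exact mul_nonneg hd.le h2.trace_nonneg
  · intro h0
    rw [h1] at h0
    have h3 : (R * S * R.conjTranspose).trace = 0 := by
      rcases mul_eq_zero.1 h0 with h | h
      · exact absurd h hd.ne'
      · exact h
    have h4 : R * S * R.conjTranspose = 0 := h2.trace_eq_zero_iff.1 h3
    have h5 : A * A⁻¹ = 1 := Matrix.mul_nonsing_inv A hu
    have h6 : A⁻¹ * A = 1 := Matrix.nonsing_inv_mul A hu
    calc S = (A * A⁻¹) * S * (A⁻¹ * A) := by rw [h5, h6, Matrix.one_mul, Matrix.mul_one]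
      _ = A * R.conjTranspose * (R * S * R.conjTranspose) * (R * A) := by
        rw [hR]
        simp only [Matrix.mul_assoc]
      _ = 0 := by rw [h4, Matrix.mul_zero, Matrix.zero_mul]

/-- a form of type `(1,1)` with zero matrix is zero -/
private theorem SL3_zero {s : Bil H} (hs : O11 s) (h : Mt e s = 0) : s = 0 := by
  refine O11_ext hs O11_zero fun v => ?_
  have h1 := Mt_form e hs (fun j => e.repr v j)
  rw [e.sum_repr v] at h1
  have h2 : ∑ j, ∑ k, Mt e s j k * e.repr v j * (starRingEnd ℂ) (e.repr v k) = 0 := by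
    rw [h]
    simp
  rw [h2] at h1
  have h3 : ((s v (Complex.I • v) : ℝ) : ℂ) = 0 := h1.symm
  rw [Complex.ofReal_eq_zero] at h3
  rw [h3]
  rfl

theorem cf_pos {a s : Bil H} (ha : O11 a) (hp : ∀ v : H, v ≠ 0 → 0 < a v (Complex.I • v)) (hs : O11 s) (hn : Nn s) :
    0 ≤ cf e a s ∧ (cf e a s = 0 → s = 0) := by
  have hfin : FiniteDimensional ℂ H := Module.Finite.of_basis e
  have hna : Nn a := by
    intro v
    rcases eq_or_ne v 0 with hv | hv
    · rw [hv, map_zero]
      exact le_refl _
    · exact (hp v hv).le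
  have hdet : (Mt e a).det ≠ 0 := by
    rw [← dt_eq e ha]
    exact Complex.ofReal_ne_zero.2 ((dt_pos e ha hna).2 hp).ne'
  have hA : (Mt e a).PosDef := ((Mt_psd e ha).2 hna).posDef_iff_det_ne_zero.2 hdet
  obtain ⟨h1, h2⟩ := SL3_tr hA ((Mt_psd e hs).2 hn)
  have h3 := Complex.nonneg_iff.1 h1
  constructor
  · exact h3.1
  · intro h4
    refine SL3_zero e hs (h2 ?_)
    exact Complex.ext h4 h3.2.symm

end HDG
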