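import Pool.Agent.HDG.SL1
import Pool.Agent.HDG.SL3
import Pool.Agent.HDG.G3
import Pool.Agent.HDG.LC6

/-!
# HDG/SL2: Stokes in one ball

With `m = n - 1`, `F = c k * exp (m u k)` (smooth with compact support) and `b = ζ exp (- u k) w k` (`ζ` a cutoff function,
`b` is closed on `qb e (7/2)`) the integrand is `cf e (b z) (ddc F z)`, whose integral vanishes by `S2`.
-/

set_option autoImplicit false

noncomputable section

open scoped ContDiff Topology

open MeasureTheory

namespace HDG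

open Pool.Agent.FBR

variable {H : Type*} [NormedAddCommGroup H] [NormedSpace ℂ H] {n : ℕ} {e : Module.Basis (Fin n) ℂ H}
  [FiniteDimensional ℂ H] [MeasurableSpace H] [BorelSpace H] (μ : Measure H) [μ.IsAddHaarMeasure]
  {Y : Type*} [TopologicalSpace Y] (B : BM e Y) {u : B.I → H → ℝ} {w : B.I → H → Bil H}

omit [MeasurableSpace H] [BorelSpace H] in
private theorem SL2_cut {F : Type*} [NormedAddCommGroup F] [NormedSpace ℝ F] {κ : H → ℝ}
    (hκ : ContDiff ℝ ∞ κ) {t : ℝ} (ht : 0 ≤ t) (ht4 : t < 4) (h0 : ∀ z, t ^ 2 ≤ qf e z → κ z = 0)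
    {g : H → F} (hg : ContDiffOn ℝ ∞ g (qb e 4)) : ContDiff ℝ ∞ fun z => κ z • g z := by
  rw [contDiff_iff_contDiffAt]
  intro z
  by_cases hz : z ∈ qb e 4
  · exact hκ.contDiffAt.smul (hg.contDiffAt ((isOpen_qb e 4).mem_nhds hz))
  · have h1 : IsOpen {z : H | t ^ 2 < qf e z} := isOpen_lt continuous_const (qf_smooth e).continuous
    have h2 : z ∈ {z : H | t ^ 2 < qf e z} := by
      have h3 : ¬ qf e z < 4 ^ 2 := hz
      show t ^ 2 < qf e z
      nlinarith
    refine (contDiffAt_const (c := (0 : F))).congr_of_eventuallyEq ?_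
    filter_upwards [h1.mem_nhds h2] with x hx
    have hx' : t ^ 2 < qf e x := hx
    show κ x • g x = 0
    rw [h0 x hx'.le, zero_smul]

private theorem SL2_sz {V : Type*} [AddCommGroup V] [Module ℝ V] (c : ℝ) : c • (0 : V) = 0 := smul_zero c

private theorem SL2_smul {V W : Type*} [NormedAddCommGroup V] [NormedSpace ℝ V] [NormedAddCommGroup W] [NormedSpace ℝ W]
    {f : V → ℝ} {g : V → W} {s : Set V} (hf : ContDiffOn ℝ ∞ f s) (hg : ContDiffOn ℝ ∞ g s) :
    ContDiffOn ℝ ∞ (fun z => f z • g z) s := hf.smul hg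

omit [FiniteDimensional ℂ H] [MeasurableSpace H] [BorelSpace H] in
private theorem SL2_cf_smul (c : ℝ) (a s : Bil H) : cf e a (c • s) = c * cf e a s := by
  unfold cf
  rw [Mt_smul, Matrix.mul_smul, Matrix.trace_smul, smul_eq_mul, Complex.re_ofReal_mul]

omit [FiniteDimensional ℂ H] [MeasurableSpace H] [BorelSpace H] in
private theorem SL2_cf_zero (a : Bil H) : cf e a 0 = 0 := by
  have h := SL2_cf_smul (e := e) 0 a 0
  rw [zero_mul] at h
  have h0 : (0 : ℝ) • (0 : Bil H) = 0 := SL2_sz (V := Bil H) 0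
  rw [h0] at h
  exact h

omit [FiniteDimensional ℂ H] [MeasurableSpace H] [BorelSpace H] in
private theorem SL2_ddc_zero {f : H → ℝ} {z : H} (h : ∀ᶠ x in 𝓝 z, f x = 0) : ddc f z = 0 := by
  have h1 : f =ᶠ[𝓝 z] fun _ => (0 : ℝ) := h
  rw [ddc_congr h1]
  refine ContinuousLinearMap.ext fun u => ContinuousLinearMap.ext fun v => ?_
  rw [ddc_apply]
  have : fderiv ℝ (fun _ : H => (0 : ℝ)) = fun _ => 0 := by
    funext y
    simp
  rw [this]
  simp

theorem loc_zero (hn : 1 ≤ n) (hw : B.Met w) (hu : B.PerR u)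
    (hcl : ∀ i, ∀ z ∈ qb e 4, ∀ x y v : H, ext2 (fun z => Real.exp (-u i z) • w i z) z x y v = 0)
    {χ : B.I → Y → ℝ} {c : B.I → H → ℝ} (hχ : B.Pou χ c) (k : B.I) :
    ∫ z in qb e 4, cf e (w k z) (B.sT ((n : ℝ) - 1) u (χ k) k z) ∂μ = 0 := by
  set m : ℝ := (n : ℝ) - 1 with hm
  obtain ⟨ζ, hζ, -, -, hζ1, hζz⟩ := exists_cut' e (s := 7 / 2) (t := 15 / 4) (by norm_num) (by norm_num)
  have hexp : ContDiffOn ℝ ∞ (fun z => Real.exp (m * u k z)) (qb e 4) :=
    (contDiffOn_const.mul (hu.sm k)).exp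
  have hexp' : ContDiffOn ℝ ∞ (fun z => Real.exp (-u k z) • w k z) (qb e 4) :=
    SL2_smul (W := Bil H) ((hu.sm k).neg.exp) (hw.t.sm k)
  have hc0 : ∀ z, (3 / 2 : ℝ) ^ 2 < qf e z → c k z = 0 := by
    intro z hz
    by_contra h
    have h1 : qf e z ≤ (3 / 2) ^ 2 := hχ.cs k (subset_tsupport _ h)
    exact absurd hz (not_lt.2 h1)
  have hF : ContDiff ℝ ∞ fun z => c k z • Real.exp (m * u k z) :=
    SL2_cut (e := e) (hχ.csm k) (t := 7 / 4) (by norm_num) (by norm_num)
      (fun z hz => hc0 z (lt_of_lt_of_le (by norm_num) hz)) hexp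
  have hb : ContDiff ℝ ∞ fun z => ζ z • (Real.exp (-u k z) • w k z) :=
    SL2_cut (F := Bil H) (e := e) hζ (t := 15 / 4) (by norm_num) (by norm_num) hζz hexp'
  set F : H → ℝ := fun z => c k z • Real.exp (m * u k z) with hFdef
  set b : H → Bil H := fun z => ζ z • (Real.exp (-u k z) • w k z) with hbdef
  have hOO : ∀ z, O11 (b z) := by
    intro z
    by_cases hz : z ∈ qb e 4
    · exact O11_smul _ (O11_smul _ (hw.t.oo k z hz))
    · have h1 : ζ z = 0 := by
        have h3 : ¬ qf e z < 4 ^ 2 := hz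
        exact hζz z (by nlinarith)
      have h0 : b z = (0 : Bil H) := by
        refine ContinuousLinearMap.ext fun u' => ContinuousLinearMap.ext fun v' => ?_
        show ζ z * (Real.exp (-u k z) * w k z u' v') = 0
        rw [h1, zero_mul]
      rw [h0]
      exact O11_zero
  have h74 : ∀ z ∈ qb e (7 / 2), z ∈ qb e 4 := by
    intro z hz
    have hz' : qf e z < (7 / 2) ^ 2 := hz
    show qf e z < 4 ^ 2
    norm_num at hz' ⊢
    linarith
  have hbcl : ∀ z ∈ qb e (7 / 2), ∀ x y v : H, ext2 b z x y v = 0 := by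
    intro z hz x y v
    have h1 : b =ᶠ[𝓝 z] fun z => Real.exp (-u k z) • w k z := by
      filter_upwards [(isOpen_qb e (7 / 2)).mem_nhds hz] with x hx
      have hx' : qf e x < (7 / 2) ^ 2 := hx
      show ζ x • (Real.exp (-u k x) • w k x) = Real.exp (-u k x) • w k x
      rw [hζ1 x hx'.le, one_smul]
    have h2 := hcl k z (h74 z hz) x y v
    unfold ext2 at h2 ⊢
    rw [h1.fderiv_eq]
    exact h2
  have hsupp : tsupport F ⊆ {z | qf e z ≤ (3 / 2) ^ 2} := by
    refine closure_minimal ?_ (isCompact_qb e (3 / 2)).isClosed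
    intro z hz
    by_contra hz'
    have h1 : ¬ qf e z ≤ (3 / 2) ^ 2 := hz'
    refine hz ?_
    show c k z • Real.exp (m * u k z) = 0
    rw [hc0 z (not_le.1 h1), zero_smul]
  have hFc : HasCompactSupport F :=
    (isCompact_qb e (3 / 2)).of_isClosed_subset (isClosed_tsupport F) hsupp
  have hFU : tsupport F ⊆ qb e (7 / 2) := by
    intro z hz
    have h1 : qf e z ≤ (3 / 2) ^ 2 := hsupp hz
    show qf e z < (7 / 2) ^ 2
    norm_num at h1 ⊢
    linarith
  have hS2 := S2 e μ hb hOO (isOpen_qb e (7 / 2)) hbcl hF hFc hFU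
  have hdd0 : ∀ z, (3 / 2 : ℝ) ^ 2 < qf e z → ddc F z = 0 := by
    intro z hz
    refine SL2_ddc_zero ?_
    have h1 : IsOpen {z : H | (3 / 2 : ℝ) ^ 2 < qf e z} := isOpen_lt continuous_const (qf_smooth e).continuous
    filter_upwards [h1.mem_nhds hz] with x hx
    show c k x • Real.exp (m * u k x) = 0
    rw [hc0 x hx, zero_smul]
  have hsT : ∀ z ∈ qb e 4, B.sT m u (χ k) k z = Real.exp (-(m * u k z)) • ddc F z := by
    intro z hz
    unfold BM.sT
    rw [ddc_congr (ψ := F) ?_]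
    filter_upwards [(isOpen_qb e 4).mem_nhds hz] with x hx
    show χ k (B.ψ k x) * Real.exp (m * u k x) = c k x • Real.exp (m * u k x)
    rw [hχ.eq k x hx, smul_eq_mul]
  have hkey : ∀ z ∈ qb e 4, cf e (w k z) (B.sT m u (χ k) k z) = cf e (b z) (ddc F z) := by
    intro z hz
    rw [hsT z hz]
    by_cases h : qf e z ≤ (3 / 2) ^ 2
    · have h1 : ζ z = 1 := hζ1 z (h.trans (by norm_num))
      have h2 : b z = Real.exp (-u k z) • w k z := by
        show ζ z • (Real.exp (-u k z) • w k z) = Real.exp (-u k z) • w k z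
        rw [h1, one_smul]
      rw [h2, cf_smul', SL2_cf_smul, ← Real.exp_nat_mul]
      have h3 : ((n - 1 : ℕ) : ℝ) * -u k z = -(m * u k z) := by
        rw [hm, Nat.cast_sub hn, Nat.cast_one]
        ring
      rw [h3]
    · have h1 := hdd0 z (not_le.1 h)
      have h2 : Real.exp (-(m * u k z)) • ddc F z = 0 := by
        rw [h1]
        exact SL2_sz (V := Bil H) _
      rw [h2, h1, SL2_cf_zero, SL2_cf_zero]
  calc ∫ z in qb e 4, cf e (w k z) (B.sT m u (χ k) k z) ∂μ
      = ∫ z in qb e 4, cf e (b z) (ddc F z) ∂μ :=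
        setIntegral_congr_fun (isOpen_qb e 4).measurableSet hkey
    _ = ∫ z, cf e (b z) (ddc F z) ∂μ := by
        refine setIntegral_eq_integral_of_forall_compl_eq_zero fun z hz => ?_
        have h3 : ¬ qf e z < 4 ^ 2 := hz
        rw [hdd0 z (lt_of_lt_of_le (by norm_num) (not_lt.1 h3)), SL2_cf_zero]
    _ = 0 := hS2

end HDG
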