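import Pool.Agent.HDG.SL2
import Pool.Agent.HDG.G5
import Pool.Agent.HDG.G6

/-!
# HDG/SL4: a pluriharmonic conformal factor is constant

Let `m = n - 1`. For every `k` the tensor `sT m u (χ k)` vanishes off the ball `k` (`SL4_off`), so the integral of its density is the integral
over this ball, which vanishes by Stokes (`SL4_int`). The sum over `k` shows that the density of `sT m u 1`, which is nonnegative, has
integral `0`; so it vanishes identically, and with it the differential of `u`.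
-/

set_option autoImplicit false

noncomputable section

open scoped ContDiff Topology

open MeasureTheory

namespace HDG

open Pool.Agent.FBR

variable {H : Type*} [NormedAddCommGroup H] [NormedSpace ℂ H] {n : ℕ} {e : Module.Basis (Fin n) ℂ H}
  [FiniteDimensional ℂ H] [MeasurableSpace H] [BorelSpace H]
  {Y : Type*} [TopologicalSpace Y] [CompactSpace Y] [T2Space Y] [MeasurableSpace Y] [BorelSpace Y]
  (B : BM e Y) {u : B.I → H → ℝ} {w : B.I → H → Bil H}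

omit [MeasurableSpace H] [BorelSpace H] [CompactSpace Y] [MeasurableSpace Y] [BorelSpace Y] in
/-- off the ball `k`, the tensor of `χ k` vanishes -/
private theorem SL4_off (m : ℝ) {χ : B.I → Y → ℝ} {c : B.I → H → ℝ} (hχ : B.Pou χ c) (k : B.I) {i : B.I} {z : H}
    (hz : z ∈ qb e 4) (h0 : ∀ z' ∈ qb e 4, B.ψ k z' ≠ B.ψ i z) : B.sT m u (χ k) i z = 0 := by
  apply sT_germ
  have hsub : {z : H | qf e z ≤ (3 / 2) ^ 2} ⊆ qb e 4 := by
    intro x hx
    have h1 : qf e x ≤ (3 / 2) ^ 2 := hx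
    show qf e x < 4 ^ 2
    norm_num at h1 ⊢
    linarith
  have hK : IsClosed (B.ψ k '' {z : H | qf e z ≤ (3 / 2) ^ 2}) :=
    ((isCompact_qb e (3 / 2)).image_of_continuousOn ((B.cont k).mono hsub)).isClosed
  have hmem : B.ψ i z ∈ (B.ψ k '' {z : H | qf e z ≤ (3 / 2) ^ 2})ᶜ := by
    rintro ⟨z', hz', h⟩
    exact h0 z' (hsub hz') h
  have hev : ∀ᶠ z' in 𝓝 z, B.ψ i z' ∈ (B.ψ k '' {z : H | qf e z ≤ (3 / 2) ^ 2})ᶜ :=
    ((B.cont i).continuousAt ((isOpen_qb e 4).mem_nhds hz)).eventually (hK.isOpen_compl.mem_nhds hmem)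
  filter_upwards [hev] with z' hz'
  by_cases h : ∃ x ∈ qb e 4, B.ψ k x = B.ψ i z'
  · obtain ⟨x, hx, hxe⟩ := h
    rw [← hxe, hχ.eq k x hx]
    apply image_eq_zero_of_notMem_tsupport
    intro hx'
    exact hz' ⟨x, hχ.cs k hx', hxe⟩
  · exact hχ.out k _ fun x hx hxe => h ⟨x, hx, hxe⟩

omit [CompactSpace Y] in
/-- the integral of the density of the tensor of `χ k` vanishes -/
private theorem SL4_int {μ : Measure H} [μ.IsAddHaarMeasure] {ν : Measure Y} (hn : 1 ≤ n) (hw : B.Met w)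
    (hν : B.IsVol μ w ν) (hu : B.PerR u)
    (hcl : ∀ i, ∀ z ∈ qb e 4, ∀ x y v : H, ext2 (fun z => Real.exp (-u i z) • w i z) z x y v = 0)
    {χ : B.I → Y → ℝ} {c : B.I → H → ℝ} (hχ : B.Pou χ c) (k : B.I) :
    ∫ y, B.dcf w w (B.sT ((n : ℝ) - 1) u (χ k)) y ∂ν = 0 := by
  classical
  have hO : MeasurableSet (B.ψ k '' qb e 4) := (B.opn k _ subset_rfl (isOpen_qb e 4)).measurableSet
  have h1 := B.int_dcf hw hν hw.t (sT_isT B ((n : ℝ) - 1) hu (hχ.sm k)) k
    (f := (B.ψ k '' qb e 4).indicator 1) (measurable_one.indicator hO)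
    (fun y hy => Set.indicator_of_notMem (by rintro ⟨z, hz, hzy⟩; exact hy z hz hzy) _)
  have h2 : ∀ y, (B.ψ k '' qb e 4).indicator (1 : Y → ℝ) y * B.dcf w w (B.sT ((n : ℝ) - 1) u (χ k)) y =
      B.dcf w w (B.sT ((n : ℝ) - 1) u (χ k)) y := by
    intro y
    by_cases hy : y ∈ B.ψ k '' qb e 4
    · rw [Set.indicator_of_mem hy, Pi.one_apply, one_mul]
    · have hcd : B.cd y ∈ qb e 4 := BM.qb_mono zero_le_one (by norm_num) (B.cd_mem y)
      have h3 : B.sT ((n : ℝ) - 1) u (χ k) (B.ix y) (B.cd y) = 0 := by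
        apply SL4_off B _ hχ k hcd
        intro z' hz' he
        rw [B.ψ_cd] at he
        exact hy ⟨z', hz', he⟩
      have h4 : cf e (w (B.ix y) (B.cd y)) (0 : Bil H) = 0 := by
        have h5 : Mt e (0 : Bil H) = 0 := by
          ext j k
          simp [Mt]
        unfold cf
        rw [h5]
        simp
      have h6 : B.dcf w w (B.sT ((n : ℝ) - 1) u (χ k)) y = 0 := by
        show cf e (w (B.ix y) (B.cd y)) (B.sT ((n : ℝ) - 1) u (χ k) (B.ix y) (B.cd y)) /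
          dt e (w (B.ix y) (B.cd y)) = 0
        rw [h3, h4, zero_div]
      rw [h6, mul_zero]
  rw [integral_congr_ae (Filter.Eventually.of_forall h2)] at h1
  rw [h1, ← loc_zero μ B hn hw hu hcl hχ k]
  refine setIntegral_congr_fun (isOpen_qb e 4).measurableSet fun z hz => ?_
  show (B.ψ k '' qb e 4).indicator (1 : Y → ℝ) (B.ψ k z) * cf e (w k z) (B.sT ((n : ℝ) - 1) u (χ k) k z) =
    cf e (w k z) (B.sT ((n : ℝ) - 1) u (χ k) k z)
  have h7 : B.ψ k z ∈ B.ψ k '' qb e 4 := ⟨z, hz, rfl⟩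
  rw [Set.indicator_of_mem h7, Pi.one_apply, one_mul]

theorem lck_bm (hn : 2 ≤ n) (hw : B.Met w) (hu : B.PerR u) (hph : ∀ i, ∀ z ∈ qb e 4, ddc (u i) z = 0)
    (hcl : ∀ i, ∀ z ∈ qb e 4, ∀ x y v : H, ext2 (fun z => Real.exp (-u i z) • w i z) z x y v = 0) :
    ∀ i, ∀ z ∈ qb e 4, fderiv ℝ (u i) z = 0 := by
  have : ProperSpace H := FiniteDimensional.proper ℂ H
  obtain ⟨ν, hν⟩ := BM.exists_vol (Measure.addHaar : Measure H) B hw
  obtain ⟨χ, c, hχ⟩ := B.exists_pou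
  have hm0 : (0 : ℝ) < (n : ℝ) - 1 := by
    have : (2 : ℝ) ≤ n := by exact_mod_cast hn
    linarith
  have hs1 : B.IsT (B.sT ((n : ℝ) - 1) u fun _ => 1) := sT_isT B _ hu (B.Sm_const 1)
  have hcd : ∀ y, B.cd y ∈ qb e 4 := fun y => BM.qb_mono zero_le_one (by norm_num) (B.cd_mem y)
  have hN : ∀ i, ∀ z ∈ qb e 4, Nn (B.sT ((n : ℝ) - 1) u (fun _ => 1) i z) := by
    intro i z hz v
    rw [sT_one B _ hu hz (hph i z hz) v]
    positivity
  have hgc : Continuous (B.dcf w w (B.sT ((n : ℝ) - 1) u fun _ => 1)) := B.dcf_cont hw hw.t hs1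
  have hg0 : ∀ y, 0 ≤ B.dcf w w (B.sT ((n : ℝ) - 1) u fun _ => 1) y := fun y =>
    div_nonneg (cf_pos e (hw.t.oo _ _ (hcd y)) (hw.pos _ _ (hcd y)) (hs1.oo _ _ (hcd y)) (hN _ _ (hcd y))).1
      (B.dt_w_pos hw (hcd y)).le
  have hsum : ∀ y, B.dcf w w (B.sT ((n : ℝ) - 1) u fun _ => 1) y =
      ∑ k, B.dcf w w (B.sT ((n : ℝ) - 1) u (χ k)) y := by
    intro y
    show cf e (w (B.ix y) (B.cd y)) (B.sT ((n : ℝ) - 1) u (fun _ => 1) (B.ix y) (B.cd y)) /
        dt e (w (B.ix y) (B.cd y)) = ∑ k, cf e (w (B.ix y) (B.cd y)) (B.sT ((n : ℝ) - 1) u (χ k) (B.ix y) (B.cd y)) /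
        dt e (w (B.ix y) (B.cd y))
    have h1 : (fun y => ∑ k, χ k y) = fun _ => (1 : ℝ) := funext hχ.sum
    rw [← Finset.sum_div, ← cf_sum, ← sT_sum B _ hu Finset.univ (fun k _ => hχ.sm k) (hcd y), h1]
  have hbd : ∀ f : Y → ℝ, Continuous f → Integrable f ν := by
    intro f hf
    obtain ⟨C, hC⟩ := isCompact_univ.exists_bound_of_continuousOn hf.continuousOn
    exact B.bd_int hν hf.measurable fun y => hC y trivial
  have hI : ∫ y, B.dcf w w (B.sT ((n : ℝ) - 1) u fun _ => 1) y ∂ν = 0 := by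
    rw [integral_congr_ae (Filter.Eventually.of_forall hsum),
      integral_finsetSum _ fun k _ => hbd _ (B.dcf_cont hw hw.t (sT_isT B _ hu (hχ.sm k)))]
    exact Finset.sum_eq_zero fun k _ => SL4_int B (by omega) hw hν hu hcl hχ k
  have hz0 : ∀ y, B.dcf w w (B.sT ((n : ℝ) - 1) u fun _ => 1) y = 0 := by
    intro y
    by_contra hne
    have hpos : 0 < B.dcf w w (B.sT ((n : ℝ) - 1) u fun _ => 1) y := lt_of_le_of_ne (hg0 y) (Ne.symm hne)
    have h1 : 0 < ν {y | 0 < B.dcf w w (B.sT ((n : ℝ) - 1) u fun _ => 1) y} :=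
      B.vol_open hw hν (isOpen_lt continuous_const hgc) ⟨y, hpos⟩
    have h2 := (integral_eq_zero_iff_of_nonneg hg0 (hbd _ hgc)).1 hI
    have h3 : ν {y | ¬ B.dcf w w (B.sT ((n : ℝ) - 1) u fun _ => 1) y = 0} = 0 := h2
    exact h1.ne' (measure_mono_null (fun y hy => ne_of_gt hy) h3)
  intro i z hz
  have h1 := hz0 (B.ψ i z)
  rw [B.dcf_box hw hw.t hs1 hz, div_eq_zero_iff] at h1
  have h3 := (cf_pos e (hw.t.oo i z hz) (hw.pos i z hz) (hs1.oo i z hz) (hN i z hz)).2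
    (h1.resolve_right (B.dt_w_pos hw hz).ne')
  ext v
  have h4 := sT_one B ((n : ℝ) - 1) hu hz (hph i z hz) v
  rw [h3] at h4
  have h5 : (0 : ℝ) = ((n : ℝ) - 1) ^ 2 / 2 * ((fderiv ℝ (u i) z v) ^ 2 + (fderiv ℝ (u i) z (Complex.I • v)) ^ 2) := h4
  have h6 : (0 : ℝ) < ((n : ℝ) - 1) ^ 2 / 2 := by positivity
  have h7 : (fderiv ℝ (u i) z v) ^ 2 + (fderiv ℝ (u i) z (Complex.I • v)) ^ 2 = 0 := by
    rcases mul_eq_zero.1 h5.symm with h | h
    · exact absurd h h6.ne'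
    · exact h
  show fderiv ℝ (u i) z v = 0
  have h8 : (fderiv ℝ (u i) z v) ^ 2 = 0 := by
    have := sq_nonneg (fderiv ℝ (u i) z v)
    have := sq_nonneg (fderiv ℝ (u i) z (Complex.I • v))
    linarith
  exact pow_eq_zero_iff two_ne_zero |>.1 h8

end HDG
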