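import Pool.Agent.FBR.Ddc

/-!
# HDG/SP1: pluriharmonic functions and holomorphic 1-forms (local)

`cd_of_I`: a real smooth map with complex linear derivatives is complex differentiable, and its partial derivatives have
the same property (symmetry of the second derivative), so it is complex smooth by induction. `ph_hol`: if `ddc h = 0` then
the complex linear form with real part `dh` depends holomorphically on the point and is closed.
-/

set_option autoImplicit false

noncomputable section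

open scoped ContDiff Topology

namespace HDG

open Pool.Agent.FBR

variable {H : Type*} [NormedAddCommGroup H] [NormedSpace ℂ H] [FiniteDimensional ℂ H]
  {V : Type*} [NormedAddCommGroup V] [NormedSpace ℂ V]

omit [FiniteDimensional ℂ H] in
private theorem SP1_lin (A : H →L[ℝ] V) (hA : ∀ v, A (Complex.I • v) = Complex.I • A v) :
    ∃ L : H →L[ℂ] V, L.restrictScalars ℝ = A := by
  refine ⟨{ toFun := A, map_add' := A.map_add, map_smul' := ?_, cont := A.continuous }, ?_⟩
  · intro c v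
    have h1 : c • v = c.re • v + c.im • (Complex.I • v) := by
      conv_lhs => rw [← Complex.re_add_im c, add_smul, mul_smul]
      rfl
    have h2 : c • A v = c.re • A v + c.im • (Complex.I • A v) := by
      conv_lhs => rw [← Complex.re_add_im c, add_smul, mul_smul]
      rfl
    show A (c • v) = c • A v
    rw [h1, h2, A.map_add, A.map_smul, A.map_smul, hA]
  · ext v
    rfl

omit [FiniteDimensional ℂ H] in
private theorem SP1_has {F : H → V} {z : H} (hd : DifferentiableAt ℝ F z)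
    (hI : ∀ v, fderiv ℝ F z (Complex.I • v) = Complex.I • fderiv ℝ F z v) :
    DifferentiableAt ℂ F z ∧ ∀ v, fderiv ℂ F z v = fderiv ℝ F z v := by
  obtain ⟨L, hL⟩ := SP1_lin (fderiv ℝ F z) hI
  have h1 : HasFDerivAt F L z := hasFDerivAt_of_restrictScalars ℝ hd.hasFDerivAt hL
  refine ⟨h1.differentiableAt, fun v => ?_⟩
  rw [h1.fderiv, ← hL]
  rfl

omit [FiniteDimensional ℂ H] in
private theorem SP1_d2 {W : Type*} [NormedAddCommGroup W] [NormedSpace ℝ W] {F : H → W} {z : H}
    (hF : ContDiffAt ℝ ∞ F z) : DifferentiableAt ℝ (fderiv ℝ F) z := by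
  have h1 : ContDiffAt ℝ ∞ (fderiv ℝ F) z := hF.fderiv_right (by norm_num)
  exact h1.differentiableAt (by norm_num)

omit [FiniteDimensional ℂ H] in
private theorem SP1_ap {W : Type*} [NormedAddCommGroup W] [NormedSpace ℝ W] {F : H → W} {z : H}
    (hF : ContDiffAt ℝ ∞ F z) (v w : H) :
    fderiv ℝ (fun z => fderiv ℝ F z v) z w = fderiv ℝ (fderiv ℝ F) z w v := by
  have h2 : DifferentiableAt ℝ (fderiv ℝ F) z := SP1_d2 hF
  have h3 := (h2.hasFDerivAt.clm_apply (hasFDerivAt_const v z)).fderiv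
  rw [h3]
  simp

omit [FiniteDimensional ℂ H] in
private theorem SP1_symm {W : Type*} [NormedAddCommGroup W] [NormedSpace ℝ W] {F : H → W} {z : H}
    (hF : ContDiffAt ℝ ∞ F z) (v w : H) :
    fderiv ℝ (fderiv ℝ F) z v w = fderiv ℝ (fderiv ℝ F) z w v := by
  have h2 : ContDiffAt ℝ 2 F z := hF.of_le (by norm_cast)
  have h : IsSymmSndFDerivAt ℝ F z := h2.isSymmSndFDerivAt (by simp)
  exact h v w

private theorem SP1_ind {U : Set H} (hU : IsOpen U) (m : ℕ) : ∀ F : H → V, ContDiffOn ℝ ∞ F U →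
    (∀ z ∈ U, ∀ v, fderiv ℝ F z (Complex.I • v) = Complex.I • fderiv ℝ F z v) → ContDiffOn ℂ m F U := by
  induction m with
  | zero =>
    intro F hs _
    rw [Nat.cast_zero, contDiffOn_zero]
    exact hs.continuousOn
  | succ m ih =>
    intro F hs hI
    have hca : ∀ z ∈ U, ContDiffAt ℝ ∞ F z := fun z hz => hs.contDiffAt (hU.mem_nhds hz)
    have hD : ∀ z ∈ U, DifferentiableAt ℂ F z ∧ ∀ v, fderiv ℂ F z v = fderiv ℝ F z v := fun z hz =>
      SP1_has ((hca z hz).differentiableAt (by norm_num)) (hI z hz)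
    rw [Nat.cast_add, Nat.cast_one, contDiffOn_succ_iff_fderiv_of_isOpen hU]
    refine ⟨fun z hz => (hD z hz).1.differentiableWithinAt, fun h => ?_, ?_⟩
    · exfalso
      exact absurd h (by exact_mod_cast (WithTop.coe_ne_top (a := ((m : ℕ) : ℕ∞))))
    · rw [contDiffOn_clm_apply]
      intro y
      have h1 : ∀ z ∈ U, fderiv ℂ F z y = fderiv ℝ F z y := fun z hz => (hD z hz).2 y
      refine ContDiffOn.congr ?_ h1
      refine ih _ ?_ ?_
      · have h2 : ContDiffOn ℝ ∞ (fderiv ℝ F) U := hs.fderiv_of_isOpen hU (by norm_num)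
        exact h2.clm_apply contDiffOn_const
      · intro z hz w
        rw [SP1_ap (hca z hz), SP1_ap (hca z hz), SP1_symm (hca z hz), SP1_symm (hca z hz) w y,
          ← SP1_ap (hca z hz) (Complex.I • w) y, ← SP1_ap (hca z hz) w y]
        have h2 : (fun z => fderiv ℝ F z (Complex.I • w)) =ᶠ[𝓝 z] fun z => Complex.I • fderiv ℝ F z w := by
          filter_upwards [hU.mem_nhds hz] with z' hz'
          exact hI z' hz' w
        rw [h2.fderiv_eq]
        have h4 : DifferentiableAt ℝ (fun z => fderiv ℝ F z w) z :=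
          (SP1_d2 (hca z hz)).clm_apply (differentiableAt_const w)
        have h5 := (h4.hasFDerivAt.const_smul Complex.I).fderiv
        exact congrArg (fun A => A y) h5

/-- a real smooth map with complex linear derivatives is complex smooth -/
theorem cd_of_I {F : H → V} {U : Set H} (hU : IsOpen U) (hs : ContDiffOn ℝ ∞ F U)
    (hI : ∀ z ∈ U, ∀ v, fderiv ℝ F z (Complex.I • v) = Complex.I • fderiv ℝ F z v) : ContDiffOn ℂ ∞ F U :=
  contDiffOn_infty.2 fun m => SP1_ind hU m F hs hI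

theorem ph_hol {h : H → ℝ} {U : Set H} (hU : IsOpen U) (hs : ContDiffOn ℝ ∞ h U) (hd : ∀ z ∈ U, ddc h z = 0)
    {α : H → H →L[ℂ] ℂ} (hα : ∀ z ∈ U, ∀ v, (α z v).re = fderiv ℝ h z v) :
    ContDiffOn ℂ ∞ α U ∧ ∀ z ∈ U, ∀ u v, fderiv ℂ α z u v = fderiv ℂ α z v u := by
  have hca : ∀ z ∈ U, ContDiffAt ℝ ∞ h z := fun z hz => hs.contDiffAt (hU.mem_nhds hz)
  have hav : ∀ z ∈ U, ∀ v, α z v = ((fderiv ℝ h z v : ℝ) : ℂ) - ((fderiv ℝ h z (Complex.I • v) : ℝ) : ℂ) * Complex.I := by
    intro z hz v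
    have h1 := hα z hz v
    have h2 := hα z hz (Complex.I • v)
    rw [map_smul, smul_eq_mul, Complex.I_mul_re] at h2
    apply Complex.ext
    · simp [h1]
    · simp [← h2]
  have hI1 : ∀ z ∈ U, ∀ u v, fderiv ℝ (fderiv ℝ h) z (Complex.I • u) v =
      fderiv ℝ (fderiv ℝ h) z u (Complex.I • v) := by
    intro z hz u v
    have h1 : ddc h z u v = 0 := by
      rw [hd z hz]
      rfl
    rw [ddc_apply, SP1_symm (hca z hz) (Complex.I • v) u] at h1
    linarith
  have hD : ∀ z ∈ U, ∀ v w, fderiv ℝ (fun z => α z v) z w = ((fderiv ℝ (fderiv ℝ h) z w v : ℝ) : ℂ) -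
      ((fderiv ℝ (fderiv ℝ h) z w (Complex.I • v) : ℝ) : ℂ) * Complex.I := by
    intro z hz v w
    have h1 : (fun z => α z v) =ᶠ[𝓝 z] fun z => ((fderiv ℝ h z v : ℝ) : ℂ) -
        ((fderiv ℝ h z (Complex.I • v) : ℝ) : ℂ) * Complex.I := by
      filter_upwards [hU.mem_nhds hz] with z' hz'
      exact hav z' hz' v
    rw [h1.fderiv_eq]
    have h4 : ∀ v, HasFDerivAt (fun z => fderiv ℝ h z v) (fderiv ℝ (fun z => fderiv ℝ h z v) z) z := fun v =>
      ((SP1_d2 (hca z hz)).clm_apply (differentiableAt_const v)).hasFDerivAt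
    have h6 : ∀ v, HasFDerivAt (fun z => ((fderiv ℝ h z v : ℝ) : ℂ))
        (Complex.ofRealCLM.comp (fderiv ℝ (fun z => fderiv ℝ h z v) z)) z := fun v =>
      (Complex.ofRealCLM.hasFDerivAt).comp z (h4 v)
    have h5 := ((h6 v).sub ((h6 (Complex.I • v)).mul_const Complex.I)).fderiv
    have h7 : fderiv ℝ (fun z => ((fderiv ℝ h z v : ℝ) : ℂ) -
        ((fderiv ℝ h z (Complex.I • v) : ℝ) : ℂ) * Complex.I) z = _ := h5
    rw [h7]
    simp only [sub_apply, smul_apply, ContinuousLinearMap.comp_apply, Complex.ofRealCLM_apply, smul_eq_mul]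
    rw [SP1_ap (hca z hz), SP1_ap (hca z hz)]
    ring
  have hsm : ∀ v, ContDiffOn ℝ ∞ (fun z => α z v) U := by
    intro v
    have h2 : ContDiffOn ℝ ∞ (fderiv ℝ h) U := hs.fderiv_of_isOpen hU (by norm_num)
    have h3 : ∀ v, ContDiffOn ℝ ∞ (fun z => ((fderiv ℝ h z v : ℝ) : ℂ)) U := fun v =>
      Complex.ofRealCLM.contDiff.comp_contDiffOn (h2.clm_apply contDiffOn_const)
    exact ((h3 v).sub ((h3 (Complex.I • v)).mul contDiffOn_const)).congr fun z hz => hav z hz v
  have hlin : ∀ v, ∀ z ∈ U, ∀ w, fderiv ℝ (fun z => α z v) z (Complex.I • w) =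
      Complex.I • fderiv ℝ (fun z => α z v) z w := by
    intro v z hz w
    rw [hD z hz, hD z hz, hI1 z hz w v, hI1 z hz w (Complex.I • v), smul_smul, Complex.I_mul_I, neg_one_smul,
      map_neg, smul_eq_mul]
    push_cast
    linear_combination (((fderiv ℝ (fderiv ℝ h) z w (Complex.I • v) : ℝ) : ℂ)) * Complex.I_mul_I
  have hα2 : ContDiffOn ℂ ∞ α U := contDiffOn_clm_apply.2 fun v => cd_of_I hU (hsm v) (hlin v)
  refine ⟨hα2, fun z hz u v => ?_⟩
  have hdα : DifferentiableAt ℂ α z := (hα2.contDiffAt (hU.mem_nhds hz)).differentiableAt (by norm_num)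
  have hap : ∀ u v, fderiv ℂ α z u v = fderiv ℝ (fun z => α z v) z u := by
    intro u v
    have h1 := (hdα.hasFDerivAt.clm_apply (hasFDerivAt_const v z)).restrictScalars ℝ
    rw [h1.fderiv]
    simp
  rw [hap, hap, hD z hz, hD z hz, SP1_symm (hca z hz) u v, ← hI1 z hz u v, ← hI1 z hz v u,
    SP1_symm (hca z hz) (Complex.I • u) v, hI1 z hz v u]

end HDG
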