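import Pool.Agent.HDG.SP1
import Pool.Agent.HDG.ST4
import Pool.Agent.HDG.G1

/-!
# HDG/SP2: closed holomorphic 1-forms on a manifold

A form of type `(1,0)` is determined by its real part (`reF_ext`); the real part of a closed holomorphic 1-form is a closed
real 1-form (`isCl1_re`); sums and multiples of closed holomorphic 1-forms. `exists_hol1`: a real 1-form which is locally
the differential of a pluriharmonic function is the real part of a closed holomorphic 1-form.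
-/

set_option autoImplicit false

noncomputable section

open scoped Manifold ContDiff Topology

namespace HDG

open Pool.Agent.FBR

variable {E X : Type*} [NormedAddCommGroup E] [NormedSpace ℂ E] [FiniteDimensional ℂ E]
  [TopologicalSpace X] [ChartedSpace E X] [IsManifold 𝓘(ℂ, E) ω X]

omit [FiniteDimensional ℂ E] in
theorem reF_ext {a b : E →L[ℂ] ℂ} (h : reF a = reF b) : a = b := by
  have h1 : ∀ v, (a v).re = (b v).re := fun v => DFunLike.congr_fun h v
  ext v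
  refine Complex.ext (h1 v) ?_
  have h2 := h1 (Complex.I • v)
  rw [map_smul, map_smul] at h2
  simpa using h2

/-- `reF` as a real linear map -/
private def SP2_L : (E →L[ℂ] ℂ) →L[ℝ] (E →L[ℝ] ℝ) :=
  (ContinuousLinearMap.compL ℝ E ℂ ℝ Complex.reCLM).comp (ContinuousLinearMap.restrictScalarsL ℂ E ℂ ℝ ℝ)

theorem coC_re (α : X → E →L[ℂ] ℂ) {p : X} {y : E} (hy : y ∈ (chartAt E p).target) :
    reF (coC α p y) = co1 (fun x => reF (α x)) p y := by
  have h1 : Hol E (chartAt E p).symm y := hol_symm hy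
  have h2 := (h1.2.differentiableAt (by simp)).fderiv_restrictScalars ℝ
  ext v
  change (α _ (fderiv ℂ (chartAt E ((chartAt E p).symm y) ∘ (chartAt E p).symm) y v)).re =
    (α _ (fderiv ℝ (chartAt E ((chartAt E p).symm y) ∘ (chartAt E p).symm) y v)).re
  rw [h2]
  rfl

theorem isCl1_re {α : X → E →L[ℂ] ℂ} (h : IsHol1 α) : IsCl1 fun x => reF (α x) := by
  intro p
  obtain ⟨h1, h2⟩ := h p
  have h3 : ∀ y ∈ (chartAt E p).target, co1 (fun x => reF (α x)) p y = SP2_L (coC α p y) :=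
    fun y hy => (coC_re α hy).symm
  have h4 : ContDiffOn ℝ ∞ (fun y => SP2_L (coC α p y)) (chartAt E p).target :=
    SP2_L.contDiff.comp_contDiffOn (h1.restrict_scalars ℝ)
  refine ⟨h4.congr h3, fun y hy u v => ?_⟩
  have h5 : co1 (fun x => reF (α x)) p =ᶠ[nhds y] fun y => SP2_L (coC α p y) :=
    Filter.eventuallyEq_of_mem ((chartAt E p).open_target.mem_nhds hy) h3
  have h6 : DifferentiableAt ℂ (coC α p) y :=
    (h1.contDiffAt ((chartAt E p).open_target.mem_nhds hy)).differentiableAt (by simp)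
  have h7 : fderiv ℝ (fun y => SP2_L (coC α p y)) y =
      (SP2_L (E := E)).comp ((fderiv ℂ (coC α p) y).restrictScalars ℝ) := by
    rw [← h6.fderiv_restrictScalars ℝ]
    exact ((SP2_L (E := E)).hasFDerivAt.comp y (h6.restrictScalars ℝ).hasFDerivAt).fderiv
  rw [h5.fderiv_eq, h7]
  change (fderiv ℂ (coC α p) y u v).re = (fderiv ℂ (coC α p) y v u).re
  rw [h2 y hy u v]

theorem isHol1_zero : IsHol1 (fun _ : X => (0 : E →L[ℂ] ℂ)) := by
  intro p
  have h1 : coC (fun _ : X => (0 : E →L[ℂ] ℂ)) p = fun _ => 0 := by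
    funext y
    exact ContinuousLinearMap.zero_comp _
  rw [h1]
  refine ⟨contDiffOn_const, fun y _ u v => ?_⟩
  rw [fderiv_const_apply]
  rfl

theorem isHol1_add {α β : X → E →L[ℂ] ℂ} (h : IsHol1 α) (h' : IsHol1 β) : IsHol1 (α + β) := by
  intro p
  obtain ⟨h1, h2⟩ := h p
  obtain ⟨h3, h4⟩ := h' p
  have h5 : coC (α + β) p = coC α p + coC β p := by
    funext y
    exact ContinuousLinearMap.add_comp _ _ _
  rw [h5]
  refine ⟨h1.add h3, fun y hy u v => ?_⟩
  have hn := (chartAt E p).open_target.mem_nhds hy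
  rw [fderiv_add ((h1.contDiffAt hn).differentiableAt (by simp)) ((h3.contDiffAt hn).differentiableAt (by simp))]
  change fderiv ℂ (coC α p) y u v + fderiv ℂ (coC β p) y u v = fderiv ℂ (coC α p) y v u + fderiv ℂ (coC β p) y v u
  rw [h2 y hy u v, h4 y hy u v]

theorem isHol1_smul {α : X → E →L[ℂ] ℂ} (h : IsHol1 α) (c : ℂ) : IsHol1 (c • α) := by
  intro p
  obtain ⟨h1, h2⟩ := h p
  have h5 : coC (c • α) p = c • coC α p := by
    funext y
    exact ContinuousLinearMap.smul_comp _ _ _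
  rw [h5]
  refine ⟨h1.const_smul c, fun y hy u v => ?_⟩
  have hn := (chartAt E p).open_target.mem_nhds hy
  rw [fderiv_const_smul ((h1.contDiffAt hn).differentiableAt (by simp))]
  change c • fderiv ℂ (coC α p) y u v = c • fderiv ℂ (coC α p) y v u
  rw [h2 y hy u v]

variable {n : ℕ} {e : Module.Basis (Fin n) ℂ E} {B : BM e X}

/-- the local form of `exists_hol1` -/
private theorem SP2_loc (hB : Fit B) {η : X → E →L[ℝ] ℝ} {h : B.I → E → ℝ}
    (hs : ∀ i, ContDiffOn ℝ ∞ (h i) (qb e 4)) (hd : ∀ i, ∀ z ∈ qb e 4, fderiv ℝ (h i) z = tp1 η (B.ψ i) z)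
    (hp : ∀ i, ∀ z ∈ qb e 4, ddc (h i) z = 0) {α : X → E →L[ℂ] ℂ} (hr : ∀ x, reF (α x) = η x) (p : X) {y0 : E}
    (hy0 : y0 ∈ (chartAt E p).target) : ∃ W : Set E, IsOpen W ∧ y0 ∈ W ∧ ContDiffOn ℂ ∞ (coC α p) W ∧
      ∀ y ∈ W, ∀ u v, fderiv ℂ (coC α p) y u v = fderiv ℂ (coC α p) y v u := by
  obtain ⟨i, z0, hz0, hz⟩ := B.cov ((chartAt E p).symm y0)
  have hz4 : z0 ∈ qb e 4 := BM.qb_mono (by norm_num) (by norm_num) hz0
  have hps : B.ψ i z0 ∈ (chartAt E p).source := by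
    rw [hz]
    exact (chartAt E p).map_target hy0
  obtain ⟨W, k, hW, h1, h2, -, h4⟩ := hol_inv (isOpen_qb e 4) (hB.hol i) hz4 (hB.bij i z0 hz4) hps
  have h5 : chartAt E p (B.ψ i z0) = y0 := by
    rw [hz]
    exact (chartAt E p).right_inv hy0
  rw [h5] at h1
  have hc : ∀ y ∈ W, ContDiffAt ℝ ∞ (h i) (k y) := fun y hy =>
    (hs i).contDiffAt ((isOpen_qb e 4).mem_nhds (h4 y hy).1)
  have hk : ∀ y ∈ W, DifferentiableAt ℝ k y := fun y hy =>
    ((h4 y hy).2.2.differentiableAt (by simp)).restrictScalars ℝ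
  have h6 : ContDiffOn ℝ ∞ (h i ∘ k) W := fun y hy =>
    ((hc y hy).comp y ((h4 y hy).2.2.restrict_scalars ℝ)).contDiffWithinAt
  have h7 : ∀ y ∈ W, ddc (h i ∘ k) y = 0 := by
    intro y hy
    rw [ddc_comp ((hc y hy).of_le (by norm_cast)) (h4 y hy).2.2, hp i _ (h4 y hy).1]
    rfl
  have h8 : ∀ y ∈ W, ∀ v, (coC α p y v).re = fderiv ℝ (h i ∘ k) y v := by
    intro y hy v
    obtain ⟨a1, a2, a3⟩ := h4 y hy
    have b1 : fderiv ℝ (h i ∘ k) y = (fderiv ℝ (h i) (k y)).comp (fderiv ℝ k y) :=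
      fderiv_comp y ((hc y hy).differentiableAt (by simp)) (hk y hy)
    have b2 : tp1 η (B.ψ i ∘ k) y = (tp1 η (B.ψ i) (k y)).comp (fderiv ℝ k y) :=
      tp1_comp η (hB.hol i _ a1).sm (hk y hy)
    have b3 : tp1 η (B.ψ i ∘ k) y = co1 η p y := by
      have c1 : B.ψ i ∘ k =ᶠ[nhds y] (chartAt E p).symm :=
        Filter.eventuallyEq_of_mem (hW.mem_nhds hy) (fun y hy => (h4 y hy).2.1)
      have c3 : (B.ψ i ∘ k) y = (chartAt E p).symm y := a2
      change (η ((B.ψ i ∘ k) y)).comp (fderiv ℝ (chartAt E ((B.ψ i ∘ k) y) ∘ (B.ψ i ∘ k)) y) =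
        (η ((chartAt E p).symm y)).comp (fderiv ℝ (chartAt E ((chartAt E p).symm y) ∘ (chartAt E p).symm) y)
      rw [c3, (c1.fun_comp _).fderiv_eq]
    have b4 : reF (coC α p y) = co1 η p y := by
      rw [coC_re α (h2 hy)]
      have : (fun x => reF (α x)) = η := funext hr
      rw [this]
    have b5 : fderiv ℝ (h i ∘ k) y = reF (coC α p y) := by
      rw [b1, hd i _ a1, ← b2, b3, b4]
    rw [b5]
    rfl
  obtain ⟨h9, h10⟩ := ph_hol hW h6 h7 h8
  exact ⟨W, hW, h1, h9, h10⟩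

theorem exists_hol1 (hB : Fit B) {η : X → E →L[ℝ] ℝ} {h : B.I → E → ℝ}
    (hs : ∀ i, ContDiffOn ℝ ∞ (h i) (qb e 4)) (hd : ∀ i, ∀ z ∈ qb e 4, fderiv ℝ (h i) z = tp1 η (B.ψ i) z)
    (hp : ∀ i, ∀ z ∈ qb e 4, ddc (h i) z = 0) : ∃ α : X → E →L[ℂ] ℂ, IsHol1 α ∧ ∀ x, reF (α x) = η x := by
  have hr : ∀ x, reF ((fun x => StrongDual.extendRCLike (𝕜 := ℂ) (η x)) x) = η x := by
    intro x
    ext v
    exact StrongDual.re_extendRCLike_apply (𝕜 := ℂ) (η x) v
  refine ⟨fun x => StrongDual.extendRCLike (𝕜 := ℂ) (η x), fun p => ⟨fun y hy => ?_, fun y hy => ?_⟩, hr⟩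
  · obtain ⟨W, hW, h1, h2, -⟩ := SP2_loc hB hs hd hp hr p hy
    exact (h2.contDiffAt (hW.mem_nhds h1)).contDiffWithinAt
  · obtain ⟨W, -, h1, -, h3⟩ := SP2_loc hB hs hd hp hr p hy
    exact h3 y h1

end HDG
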