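import Mathlib

/-!
# HDG/ST1: a fine cover of a compact space

Every open cover `O` indexed by the points of a compact Hausdorff space has a finer one `V`, also indexed by the
points, such that the union of any two of its members that meet lies in a member of `O` (the Lebesgue number lemma
in the uniform structure of the space).
-/

set_option autoImplicit false

noncomputable section

open scoped Topology

namespace HDG

theorem fine_cover {X : Type*} [TopologicalSpace X] [CompactSpace X] [T2Space X] (O : X → Set X)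
    (hO : ∀ x, IsOpen (O x)) (hx : ∀ x, x ∈ O x) :
    ∃ V : X → Set X, (∀ x, IsOpen (V x)) ∧ (∀ x, x ∈ V x) ∧ ∀ x y, (V x ∩ V y).Nonempty → ∃ z, V x ∪ V y ⊆ O z := by
  let _ : UniformSpace X := uniformSpaceOfCompactR1
  obtain ⟨W, hW, hWz⟩ := lebesgue_number_lemma (isCompact_univ (X := X)) hO
    (fun x _ => Set.mem_iUnion.2 ⟨x, hx x⟩)
  obtain ⟨T, hT, hTs, hTW⟩ := comp_comp_symm_mem_uniformity_sets hW
  obtain ⟨S, ⟨hS, hSo, hSs⟩, hST⟩ := uniformity_hasBasis_open_symmetric.mem_iff.mp hT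
  refine ⟨fun x => UniformSpace.ball x S, fun x => UniformSpace.isOpen_ball x hSo,
    fun x => UniformSpace.mem_ball_self x hS, ?_⟩
  rintro x y ⟨q, hqx, hqy⟩
  obtain ⟨z, hz⟩ := hWz x (Set.mem_univ x)
  refine ⟨z, ?_⟩
  have hxq : (x, q) ∈ S := hqx
  have hyq : (y, q) ∈ S := hqy
  have hqy' : (q, y) ∈ S := hSs.symm _ _ hyq
  have hrefl : ∀ w : X, (w, w) ∈ S := fun w => refl_mem_uniformity hS
  rintro p (hp | hp)
  · have hxp : (x, p) ∈ S := hp
    refine hz (hTW ?_)
    exact ⟨p, ⟨p, hST hxp, hST (hrefl p)⟩, hST (hrefl p)⟩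
  · have hyp : (y, p) ∈ S := hp
    refine hz (hTW ?_)
    exact ⟨y, ⟨q, hST hxq, hST hqy'⟩, hST hyp⟩

end HDG
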