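import Pool.Agent.HDG.SP2

/-!
# HDG/SU1: a closed holomorphic 1-form with exact real part vanishes

`loc_const`: a primitive `g` of the closed holomorphic form, maximum principle for `exp g`. `hol1_unique`: the maximum set of `f` is open and closed.
-/

set_option autoImplicit false

noncomputable section

open scoped Manifold ContDiff Topology

namespace HDG

open Pool.Agent.FBR

theorem loc_const {E : Type*} [NormedAddCommGroup E] [NormedSpace ℂ E] [FiniteDimensional ℂ E] {y0 : E} {r : ℝ} (hr : 0 < r)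
    {a : E → E →L[ℂ] ℂ} (ha : ContDiffOn ℂ ∞ a (Metric.ball y0 r))
    (hc : ∀ y ∈ Metric.ball y0 r, ∀ u v, fderiv ℂ a y u v = fderiv ℂ a y v u) {φ : E → ℝ}
    (hφ : ∀ y ∈ Metric.ball y0 r, HasFDerivAt φ (reF (a y)) y) (hm : ∀ y ∈ Metric.ball y0 r, φ y ≤ φ y0) :
    ∀ᶠ y in 𝓝 y0, φ y = φ y0 := by
  have hd : ∀ y ∈ Metric.ball y0 r, DifferentiableAt ℂ a y := fun y hy =>
    (ha.differentiableOn (by simp)).differentiableAt (Metric.isOpen_ball.mem_nhds hy)
  obtain ⟨g, hg⟩ : ∃ g : E → ℂ, ∀ y ∈ Metric.ball y0 r, HasFDerivAt g (a y) y := by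
    refine (convex_ball y0 r).exists_forall_hasFDerivAt_of_fderiv_symmetric (𝕜 := ℂ) Metric.isOpen_ball
      (fun y hy => ((hd y hy).restrictScalars ℝ).differentiableWithinAt) fun y hy u v => ?_
    rw [(hd y hy).fderiv_restrictScalars ℝ]
    exact hc y hy u v
  have hk : ∀ y ∈ Metric.ball y0 r, HasFDerivAt (fun y => φ y - (g y).re) (0 : E →L[ℝ] ℝ) y := by
    intro y hy
    have h1 : HasFDerivAt (fun y => (g y).re) (reF (a y)) y :=
      Complex.reCLM.hasFDerivAt.comp y ((hg y hy).restrictScalars ℝ)
    have h2 := (hφ y hy).sub h1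
    rwa [sub_self] at h2
  have hy0 : y0 ∈ Metric.ball y0 r := Metric.mem_ball_self hr
  have hcon : ∀ y ∈ Metric.ball y0 r, φ y - (g y).re = φ y0 - (g y0).re := fun y hy =>
    Metric.isOpen_ball.is_const_of_fderiv_eq_zero (𝕜 := ℝ) (convex_ball y0 r).isPreconnected
      (fun y hy => (hk y hy).differentiableAt.differentiableWithinAt) (fun y hy => (hk y hy).fderiv) hy hy0
  have hball : ∀ᶠ y in 𝓝 y0, y ∈ Metric.ball y0 r := Metric.ball_mem_nhds y0 hr
  have h3 : ∀ᶠ y in 𝓝 y0, Complex.exp (g y) = Complex.exp (g y0) := by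
    refine Complex.eventually_eq_of_isLocalMax_norm (f := fun y => Complex.exp (g y)) ?_ ?_
    · filter_upwards [hball] with y hy
      exact (hg y hy).differentiableAt.cexp
    · filter_upwards [hball] with y hy
      show ‖Complex.exp (g y)‖ ≤ ‖Complex.exp (g y0)‖
      rw [Complex.norm_exp, Complex.norm_exp, Real.exp_le_exp]
      have h4 := hcon y hy
      have h5 := hm y hy
      linarith
  filter_upwards [hball, h3] with y hy h
  have h4 := hcon y hy
  have h5 : Real.exp (g y).re = Real.exp (g y0).re := by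
    rw [← Complex.norm_exp, ← Complex.norm_exp, h]
  have h6 := Real.exp_injective h5
  linarith

theorem hol1_unique {E X : Type*} [NormedAddCommGroup E] [NormedSpace ℂ E] [FiniteDimensional ℂ E]
    [TopologicalSpace X] [ChartedSpace E X] [IsManifold 𝓘(ℂ, E) ω X] [CompactSpace X] [ConnectedSpace X]
    {α : X → E →L[ℂ] ℂ} (hα : IsHol1 α) {f : X → ℝ} (hf : SmF E f) (h : ∀ x, reF (α x) = dF E f x) :
    ∀ x, α x = 0 := by
  have hfc : Continuous f := SmF.continuous hf
  obtain ⟨x0, -, hx0⟩ := isCompact_univ.exists_isMaxOn Set.univ_nonempty hfc.continuousOn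
  have hmax : ∀ x, f x ≤ f x0 := fun x => hx0 (Set.mem_univ x)
  have hcl : IsClosed {x | f x = f x0} := isClosed_eq hfc continuous_const
  have hop : IsOpen {x | f x = f x0} := by
    rw [isOpen_iff_mem_nhds]
    intro x hx
    have hx1 : f x = f x0 := hx
    have hsrc : x ∈ (chartAt E x).source := mem_chart_source E x
    have hinv : (chartAt E x).symm (chartAt E x x) = x := (chartAt E x).left_inv hsrc
    obtain ⟨r, hr, hball⟩ := Metric.isOpen_iff.1 (chartAt E x).open_target _ (mem_chart_target E x)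
    have h1 : ∀ᶠ y in 𝓝 (chartAt E x x), (f ∘ (chartAt E x).symm) y = (f ∘ (chartAt E x).symm) (chartAt E x x) := by
      refine loc_const hr ((hα x).1.mono hball) (fun y hy => (hα x).2 y (hball hy)) (fun y hy => ?_)
        fun y hy => ?_
      · have hyt := hball hy
        have hs : Sm E (chartAt E x).symm y := (hol_symm hyt).sm
        have hd : DifferentiableAt ℝ (f ∘ (chartAt E x).symm) y := (hf.at hs).differentiableAt (by simp)
        have he : fderiv ℝ (f ∘ (chartAt E x).symm) y = reF (coC α x y) := by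
          rw [coC_re α hyt, ← tp1_dF hf hs]
          have h2 : (fun x => reF (α x)) = dF E f := funext h
          rw [h2]
          rfl
        rw [← he]
        exact hd.hasFDerivAt
      · show f ((chartAt E x).symm y) ≤ f ((chartAt E x).symm (chartAt E x x))
        rw [hinv, hx1]
        exact hmax _
    have h2 : ∀ᶠ x' in 𝓝 x, (f ∘ (chartAt E x).symm) (chartAt E x x') = (f ∘ (chartAt E x).symm) (chartAt E x x) :=
      ((chartAt E x).continuousAt hsrc).eventually h1
    have h3 : ∀ᶠ x' in 𝓝 x, x' ∈ (chartAt E x).source := (chartAt E x).open_source.mem_nhds hsrc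
    filter_upwards [h2, h3] with x' h4 h5
    have h6 : f ((chartAt E x).symm (chartAt E x x')) = f ((chartAt E x).symm (chartAt E x x)) := h4
    rw [hinv, (chartAt E x).left_inv h5, hx1] at h6
    exact h6
  have huniv : {x | f x = f x0} = Set.univ := IsClopen.eq_univ ⟨hcl, hop⟩ ⟨x0, rfl⟩
  have hfe : f = fun _ => f x0 := by
    funext x
    have : x ∈ {x | f x = f x0} := huniv ▸ Set.mem_univ x
    exact this
  intro x
  refine reF_ext ?_
  rw [h x, hfe, dF_const]
  ext v
  simp [reF]

end HDG
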